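import Pool.Agent.SCF.ZDefs

/-!
# ScaleFlow, row DEL (helper86): `del_all : Del`, the exact deletion of the middle piece
-/

set_option autoImplicit false

open Set Filter Topology MeasureTheory

namespace Pool.Agent.SCF.Z

open Pool.Agent.NTS.Res
open NTSF (pos_zero pos_succ mem_saw)

/-- without the steps number `k, ..., k + m - 1` -/
def dl {n : ℕ} (s : Fin n → Fin 3) (k m : ℕ) : Fin (n - m) → Fin 3 := fun i =>
  if h : (i : ℕ) < k ∧ (i : ℕ) < n then s ⟨i, h.2⟩ else if h : (i : ℕ) + m < n then s ⟨i + m, h⟩ else 0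

/-- the steps number `k, ..., k + m - 1` -/
def md {n : ℕ} (s : Fin n → Fin 3) (k m : ℕ) : Fin m → Fin 3 := fun i =>
  if h : k + (i : ℕ) < n then s ⟨k + i, h⟩ else 0

/-- `b` inserted before the step number `k` -/
def ins {n m : ℕ} (N : ℕ) (v : Fin n → Fin 3) (b : Fin m → Fin 3) (k : ℕ) : Fin N → Fin 3 := fun i =>
  if h : (i : ℕ) < k ∧ (i : ℕ) < n then v ⟨i, h.2⟩ else
    if h : (i : ℕ) - k < m ∧ k ≤ (i : ℕ) then b ⟨i - k, h.1⟩ else if h : (i : ℕ) - m < n then v ⟨i - m, h⟩ else 0

lemma step_even {m : ℕ} (hm : Even m) (i : ℕ) (a : Fin 3) : step (i + m) a = step i a := by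
  unfold step
  rw [pow_add, hm.neg_one_pow, mul_one]

lemma step_even' {m : ℕ} (hm : Even m) (i : ℕ) (a : Fin 3) : step (m + i) a = step i a := by
  rw [add_comm, step_even hm]

section P

variable {n k m : ℕ} (s : Fin n → Fin 3)

lemma pos_dl_left (hkm : k + m ≤ n) : ∀ t : ℕ, t ≤ k → pos (dl s k m) t = pos s t := by
  intro t
  induction t with
  | zero => intro _; rw [pos_zero, pos_zero]
  | succ t ih =>
    intro ht
    rw [pos_succ _ t (by omega), pos_succ s t (by omega), ih (by omega)]
    congr 2
    unfold dl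
    rw [dif_pos ⟨by show t < k; omega, by show t < n; omega⟩]

lemma pos_dl_right (hm : Even m) (hkm : k + m ≤ n) : ∀ t : ℕ, k + m + t ≤ n →
    pos (dl s k m) (k + t) = pos s (k + m + t) - pos s (k + m) + pos s k := by
  intro t
  induction t with
  | zero =>
    intro _
    rw [add_zero, add_zero, pos_dl_left s hkm k le_rfl]
    ring
  | succ t ih =>
    intro ht
    rw [show k + (t + 1) = k + t + 1 by ring, show k + m + (t + 1) = k + m + t + 1 by ring, pos_succ _ (k + t) (by omega),
      pos_succ s (k + m + t) (by omega), ih (by omega)]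
    have e : step (k + t) (dl s k m ⟨k + t, by omega⟩) = step (k + m + t) (s ⟨k + m + t, by omega⟩) := by
      have e1 : ∀ x : Fin 3, step (k + m + t) x = step (k + t) x := by
        intro x
        have := step_even hm (k + t) x
        rwa [show k + t + m = k + m + t by ring] at this
      rw [e1]
      congr 1
      unfold dl
      rw [dif_neg (by show ¬ (k + t < k ∧ k + t < n); omega), dif_pos (by show k + t + m < n; omega)]
      congr 1
      exact Fin.ext (by show k + t + m = k + m + t; ring)
    rw [e]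
    ring

lemma pos_md (hk : Even k) (hkm : k + m ≤ n) : ∀ t : ℕ, t ≤ m → pos (md s k m) t = pos s (k + t) - pos s k := by
  intro t
  induction t with
  | zero => intro _; rw [pos_zero, add_zero, sub_self]
  | succ t ih =>
    intro ht
    rw [← add_assoc, pos_succ _ t (by omega), pos_succ s (k + t) (by omega), ih (by omega)]
    have e : step t (md s k m ⟨t, by omega⟩) = step (k + t) (s ⟨k + t, by omega⟩) := by
      rw [step_even' hk]
      congr 1
      unfold md
      rw [dif_pos (by show k + t < n; omega)]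
    rw [e]
    ring

end P

lemma dl_ins {N k m : ℕ} (hkm : k + m ≤ N) (v : Fin (N - m) → Fin 3) (b : Fin m → Fin 3) : dl (ins N v b k) k m = v := by
  funext i
  obtain ⟨i, hi⟩ := i
  unfold dl
  by_cases h : i < k
  · rw [dif_pos ⟨h, by show i < N; omega⟩]
    unfold ins
    rw [dif_pos ⟨by show i < k; omega, by show i < N - m; omega⟩]
  · rw [dif_neg (by show ¬ (i < k ∧ i < N); omega), dif_pos (by show i + m < N; omega)]
    unfold ins
    rw [dif_neg (by show ¬ (i + m < k ∧ i + m < N - m); omega), dif_neg (by show ¬ (i + m - k < m ∧ k ≤ i + m); omega),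
      dif_pos (by show i + m - m < N - m; omega)]
    congr 1
    exact Fin.ext (by show i + m - m = i; omega)

lemma md_ins {N k m : ℕ} (hkm : k + m ≤ N) (v : Fin (N - m) → Fin 3) (b : Fin m → Fin 3) : md (ins N v b k) k m = b := by
  funext i
  obtain ⟨i, hi⟩ := i
  unfold md
  rw [dif_pos (by show k + i < N; omega)]
  unfold ins
  rw [dif_neg (by show ¬ (k + i < k ∧ k + i < N - m); omega), dif_pos (by show k + i - k < m ∧ k ≤ k + i; omega)]
  congr 1
  exact Fin.ext (by show k + i - k = i; omega)

lemma ins_dl {N k m : ℕ} (hkm : k + m ≤ N) (s : Fin N → Fin 3) : ins N (dl s k m) (md s k m) k = s := by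
  funext i
  obtain ⟨i, hi⟩ := i
  unfold ins
  by_cases h : i < k
  · rw [dif_pos (by show i < k ∧ i < N - m; omega)]
    unfold dl
    rw [dif_pos (by show i < k ∧ i < N; omega)]
  · by_cases h2 : i - k < m
    · rw [dif_neg (by show ¬ (i < k ∧ i < N - m); omega), dif_pos (by show i - k < m ∧ k ≤ i; omega)]
      unfold md
      rw [dif_pos (by show k + (i - k) < N; omega)]
      congr 1
      exact Fin.ext (by show k + (i - k) = i; omega)
    · rw [dif_neg (by show ¬ (i < k ∧ i < N - m); omega), dif_neg (by show ¬ (i - k < m ∧ k ≤ i); omega),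
        dif_pos (by show i - m < N - m; omega)]
      unfold dl
      rw [dif_neg (by show ¬ (i - m < k ∧ i - m < N); omega), dif_pos (by show i - m + m < N; omega)]
      congr 1
      exact Fin.ext (by show i - m + m = i; omega)

/-- the start piece is a function of the prefix -/
lemma gu_congr {n n' : ℕ} {a r : ℝ} {s : Fin n → Fin 3} {s' : Fin n' → Fin 3} {k : ℕ}
    (h : ∀ t : ℕ, t ≤ k → pos s' t = pos s t) (hg : GU a r s k) : GU a r s' k := by
  obtain ⟨h1, h2, h3, ⟨i, j, hi, hj, hij⟩, h5⟩ := hg
  refine ⟨h1, fun i hi => ?_, fun i j hi hj => ?_, ⟨i, j, hi, hj, ?_⟩, ?_⟩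
  · rw [h i hi, h k le_rfl]
    exact h2 i hi
  · rw [h i hi, h j hj]
    exact h3 i j hi hj
  · rw [h i hi, h j hj]
    exact hij
  · rintro k' ⟨c1, c2, c3, c4, c5, c6⟩ ⟨i, j, hi, hj, hij⟩
    refine h5 k' ⟨c1, c2, c3, ?_, fun i h6 h7 => ?_, fun j h6 h7 => ?_⟩ ⟨i, j, hi, hj, ?_⟩
    · rw [← h _ (by omega : k' + 1 ≤ k), ← h _ c2.le]
      exact c4
    · rw [← h _ (by omega : i ≤ k), ← h _ c2.le]
      exact c5 i h6 h7
    · rw [← h _ c2.le, ← h _ h7]
      exact c6 j h6 h7
    · rw [← h _ (by omega : i ≤ k), ← h _ (by omega : j ≤ k)]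
      exact hij

/-- the middle piece is a function of the differences -/
lemma gb_congr {n n' : ℕ} {h L : ℝ} {s : Fin n → Fin 3} {s' : Fin n' → Fin 3} {k m k' : ℕ} (hk : Even k) (hk' : Even k')
    (hp : ∀ t : ℕ, t ≤ m → pos s' (k' + t) - pos s' k' = pos s (k + t) - pos s k) (hg : GB h L s k (k + m)) :
    GB h L s' k' (k' + m) := by
  obtain ⟨h1, h2, h3, h4, h5, h6, h7, h8⟩ := hg
  have hre : ∀ t : ℕ, t ≤ m → (pos s' (k' + t)).re = (pos s (k + t)).re + ((pos s' k').re - (pos s k).re) := by
    intro t ht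
    have := congrArg Complex.re (hp t ht)
    rw [Complex.sub_re, Complex.sub_re] at this
    linarith
  have hm : Even m := by
    rw [Nat.even_add] at h2
    exact h2.1 hk
  have hm0 : 0 < m := by omega
  have hr0 := hre m le_rfl
  refine ⟨by omega, hk'.add hm, ?_, fun j j1 j2 => ?_, fun j j1 j2 => ?_, fun j j1 j2 => ?_, ?_, ?_⟩
  · have := hp 1 (by omega)
    rw [h3] at this
    linear_combination this
  · obtain ⟨t, rfl⟩ := Nat.exists_eq_add_of_le j1.le
    rw [hre t (by omega)]
    have := h4 (k + t) (by omega) (by omega)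
    linarith
  · obtain ⟨t, rfl⟩ := Nat.exists_eq_add_of_le j1
    rw [hre t (by omega), hr0]
    have := h5 (k + t) (by omega) (by omega)
    linarith
  · obtain ⟨t, rfl⟩ := Nat.exists_eq_add_of_le j1
    rw [hp t (by omega)]
    exact h6 (k + t) (by omega) (by omega)
  · rw [hr0]
    linarith
  · rintro j ⟨c1, c2, c3, c4, c5, c6⟩
    obtain ⟨t, rfl⟩ := Nat.exists_eq_add_of_le c1
    have ht : t < m := by omega
    have he : Even t := by
      rw [Nat.even_add] at c3
      exact c3.1 hk'
    have := h8 (k + t) ⟨by omega, by omega, hk.add he, ?_, fun i i1 i2 => ?_, fun i i1 i2 => ?_⟩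
    · rw [hre t ht.le]
      linarith
    · have e1 := hp t ht.le
      have e2 := hp (t + 1) (by omega)
      rw [← add_assoc, ← add_assoc, c4] at e2
      linear_combination e1 - e2
    · obtain ⟨u, rfl⟩ := Nat.exists_eq_add_of_le i1
      have := c5 (k' + u) (by omega) (by omega)
      rw [hre u (by omega), hre t ht.le] at this
      linarith
    · obtain ⟨u, rfl⟩ := Nat.exists_eq_add_of_le (show k ≤ i by omega)
      have := c6 (k' + u) (by omega) (by omega)
      rw [hre u (by omega), hre t ht.le] at this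
      linarith

section Q

variable {a r h L ρ : ℝ} {N k m : ℕ} {s : Fin N → Fin 3}

/-- the rest of the walk -/
lemma gc_iff (hk : Even k) (hm : Even m) (hkm : k + m < N) : GC ρ (dl s k m) k ↔ GC ρ s (k + m) := by
  have p0 : pos (dl s k m) k = pos s k := pos_dl_left s hkm.le k le_rfl
  have p : ∀ t : ℕ, k + m + t ≤ N → pos (dl s k m) (k + t) = pos s (k + m + t) - pos s (k + m) + pos s k :=
    fun t ht => pos_dl_right s hm hkm.le t ht
  constructor
  · rintro ⟨h1, h2, h3⟩
    refine ⟨hkm, ?_, fun j j1 j2 j3 => ?_⟩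
    · rw [p 1 (by omega), p0] at h2
      linear_combination h2
    · obtain ⟨t, rfl⟩ := Nat.exists_eq_add_of_le j1.le
      have := h3 (k + t) (by omega) (by omega)
      rw [p t j2, p0, show pos s (k + m + t) - pos s (k + m) + pos s k - pos s k = pos s (k + m + t) - pos s (k + m) by ring] at this
      have := this j3
      rw [Complex.add_re, Complex.sub_re] at this
      linarith
  · rintro ⟨h1, h2, h3⟩
    refine ⟨by omega, ?_, fun j j1 j2 j3 => ?_⟩
    · rw [p 1 (by omega), p0, h2]
      ring
    · obtain ⟨t, rfl⟩ := Nat.exists_eq_add_of_le j1.le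
      rw [p t (by omega), p0, show pos s (k + m + t) - pos s (k + m) + pos s k - pos s k = pos s (k + m + t) - pos s (k + m) by
        ring] at j3
      have := h3 (k + m + t) (by omega) (by omega) j3
      rw [p t (by omega), p0, Complex.add_re, Complex.sub_re]
      linarith

/-- the walks with a middle piece: the three parts -/
lemma t1_iff (hρ : 2 * (r + L) ≤ ρ) (hr : 0 ≤ r) (hL : 0 ≤ L) (hk : Even k) (hm : Even m) (hkm : k + m < N) :
    (s ∈ saw N ∧ T1 a r h L ρ s k (k + m)) ↔
      ((dl s k m ∈ saw (N - m) ∧ T0 a r ρ (dl s k m) k) ∧ (md s k m ∈ saw m ∧ GB h L (md s k m) 0 m)) := by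
  have pl : ∀ t : ℕ, t ≤ k → pos (dl s k m) t = pos s t := pos_dl_left s hkm.le
  have pr : ∀ t : ℕ, k + m + t ≤ N → pos (dl s k m) (k + t) = pos s (k + m + t) - pos s (k + m) + pos s k :=
    fun t ht => pos_dl_right s hm hkm.le t ht
  have pm : ∀ t : ℕ, t ≤ m → pos (md s k m) t = pos s (k + t) - pos s k := fun t ht => pos_md s hk hkm.le t ht
  have hU : GU a r (dl s k m) k ↔ GU a r s k :=
    ⟨fun hg => gu_congr (fun t ht => (pl t ht).symm) hg, fun hg => gu_congr pl hg⟩
  have hB : GB h L (md s k m) 0 m ↔ GB h L s k (k + m) := by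
    constructor
    · intro hg
      have := gb_congr (s' := s) (k' := k) (k := 0) (m := m) (by exact Even.zero) hk (fun t ht => ?_) (by rwa [zero_add])
      · exact this
      · rw [zero_add, pm t ht, pos_zero, sub_zero]
    · intro hg
      have := gb_congr (s' := md s k m) (k' := 0) (k := k) (m := m) hk (by exact Even.zero) (fun t ht => ?_) hg
      · rwa [zero_add] at this
      · rw [zero_add, pm t ht, pos_zero, sub_zero]
  unfold T0 T1
  rw [hU, hB, gc_iff hk hm hkm]
  constructor
  · rintro ⟨hs, h1, h2, h3⟩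
    refine ⟨⟨?_, h1, h3⟩, ?_, h2⟩
    · -- the rest is self avoiding
      rw [mem_saw] at hs ⊢
      obtain ⟨-, u2, u3, -, -⟩ := h1
      obtain ⟨-, c2, c3⟩ := h3
      have key : ∀ i t : ℕ, i ≤ k → 0 < t → k + m + t ≤ N → pos (dl s k m) i ≠ pos (dl s k m) (k + t) := by
        intro i t hi ht ht' he
        rw [pl i hi, pr t ht'] at he
        have e1 : pos s (k + m + t) - pos s (k + m) = pos s i - pos s k := by linear_combination -he
        have e2 : ‖pos s (k + m + t) - pos s (k + m)‖ ≤ ρ := by
          rw [e1]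
          exact (u3 i k hi le_rfl).trans (by linarith)
        have e3 := c3 (k + m + t) (by omega) ht' e2
        have e4 := u2 i hi
        have e5 := congrArg Complex.re e1
        rw [Complex.sub_re, Complex.sub_re] at e5
        linarith
      intro i j hi hj hij
      rcases le_or_gt i k with h4 | h4 <;> rcases le_or_gt j k with h5 | h5
      · rw [pl i h4, pl j h5] at hij
        exact hs i j (by omega) (by omega) hij
      · exfalso
        obtain ⟨t, rfl⟩ := Nat.exists_eq_add_of_le h5.le
        exact key i t h4 (by omega) (by omega) hij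
      · exfalso
        obtain ⟨t, rfl⟩ := Nat.exists_eq_add_of_le h4.le
        exact key j t h5 (by omega) (by omega) hij.symm
      · obtain ⟨t, rfl⟩ := Nat.exists_eq_add_of_le h4.le
        obtain ⟨u, rfl⟩ := Nat.exists_eq_add_of_le h5.le
        rw [pr t (by omega), pr u (by omega)] at hij
        have := hs (k + m + t) (k + m + u) (by omega) (by omega) (by linear_combination hij)
        omega
    · rw [mem_saw] at hs ⊢
      intro i j hi hj hij
      rw [pm i hi, pm j hj] at hij
      have := hs (k + i) (k + j) (by omega) (by omega) (by linear_combination hij)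
      omega
  · rintro ⟨⟨hv, h1, h3⟩, hb, h2⟩
    refine ⟨?_, h1, h2, h3⟩
    rw [mem_saw] at hv hb ⊢
    obtain ⟨-, u2, u3, -, -⟩ := h1
    obtain ⟨-, c2, c3⟩ := h3
    obtain ⟨b1, b2, b3, b4, b5, b6, b7, -⟩ := h2
    -- the far part is in no point of the first two parts
    have key : ∀ i t : ℕ, i ≤ k + m → 0 < t → k + m + t ≤ N → pos s i ≠ pos s (k + m + t) := by
      intro i t hi ht ht' he
      have e2 : ‖pos s (k + m + t) - pos s (k + m)‖ ≤ ρ := by
        rw [← he]
        have e3 := b6 (k + m) (by omega) le_rfl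
        rcases le_or_gt i k with h4 | h4
        · calc ‖pos s i - pos s (k + m)‖ = ‖(pos s i - pos s k) - (pos s (k + m) - pos s k)‖ := by ring_nf
            _ ≤ ‖pos s i - pos s k‖ + ‖pos s (k + m) - pos s k‖ := norm_sub_le _ _
            _ ≤ r + L := add_le_add (u3 i k h4 le_rfl) e3
            _ ≤ ρ := by linarith
        · calc ‖pos s i - pos s (k + m)‖ = ‖(pos s i - pos s k) - (pos s (k + m) - pos s k)‖ := by ring_nf
            _ ≤ ‖pos s i - pos s k‖ + ‖pos s (k + m) - pos s k‖ := norm_sub_le _ _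
            _ ≤ L + L := add_le_add (b6 i h4.le hi) e3
            _ ≤ ρ := by linarith
      have e4 := c3 (k + m + t) (by omega) ht' e2
      have e5 : (pos s i).re ≤ (pos s (k + m)).re := by
        rcases le_or_gt i k with h4 | h4
        · have := u2 i h4
          have := b5 k le_rfl (by omega)
          linarith
        · exact b5 i h4.le hi
      rw [he] at e5
      linarith
    have key2 : ∀ i j : ℕ, i ≤ k → k < j → j ≤ k + m → pos s i ≠ pos s j := by
      intro i j hi hj hj' he
      have e1 := u2 i hi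
      have e2 := b4 j hj hj'
      rw [he] at e1
      linarith
    intro i j hi hj hij
    rcases le_or_gt i (k + m) with h4 | h4 <;> rcases le_or_gt j (k + m) with h5 | h5
    · rcases le_or_gt i k with h6 | h6 <;> rcases le_or_gt j k with h7 | h7
      · refine hv i j (by omega) (by omega) ?_
        rw [pl i h6, pl j h7, hij]
      · exact absurd hij (key2 i j h6 h7 h5)
      · exact absurd hij.symm (key2 j i h7 h6 h4)
      · obtain ⟨t, rfl⟩ := Nat.exists_eq_add_of_le h6.le
        obtain ⟨u, rfl⟩ := Nat.exists_eq_add_of_le h7.le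
        have := hb t u (by omega) (by omega) (by rw [pm t (by omega), pm u (by omega), hij])
        omega
    · exfalso
      obtain ⟨t, rfl⟩ := Nat.exists_eq_add_of_le h5.le
      exact key i t h4 (by omega) hj hij
    · exfalso
      obtain ⟨t, rfl⟩ := Nat.exists_eq_add_of_le h4.le
      exact key j t h5 (by omega) hi hij.symm
    · obtain ⟨t, rfl⟩ := Nat.exists_eq_add_of_le h4.le
      obtain ⟨u, rfl⟩ := Nat.exists_eq_add_of_le h5.le
      have := hv (k + t) (k + u) (by omega) (by omega) (by rw [pr t hi, pr u hj, hij])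
      omega

end Q

open Classical in
/-- the sum for fixed `k` and `m` -/
lemma sum_km {a r h L ρ : ℝ} {N k m : ℕ} (hρ : 2 * (r + L) ≤ ρ) (hr : 0 ≤ r) (hL : 0 ≤ L) (hk : Even k) (hm : Even m)
    (hkm : k + m < N) (F : (Fin (N - m) → Fin 3) → ℝ) :
    (∑ s ∈ (saw N).filter fun s => T1 a r h L ρ s k (k + m), F (dl s k m)) =
      (((saw m).filter fun b => GB h L b 0 m).card : ℝ) * ∑ v ∈ (saw (N - m)).filter (fun v => T0 a r ρ v k), F v := by
  have e : (((saw m).filter fun b => GB h L b 0 m).card : ℝ) * ∑ v ∈ (saw (N - m)).filter (fun v => T0 a r ρ v k), F v =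
      ∑ p ∈ ((saw (N - m)).filter fun v => T0 a r ρ v k) ×ˢ ((saw m).filter fun b => GB h L b 0 m), F p.1 := by
    rw [Finset.sum_product]
    simp only [Finset.sum_const, nsmul_eq_mul]
    rw [Finset.mul_sum]
  rw [e]
  refine Finset.sum_bij' (fun s _ => (dl s k m, md s k m)) (fun p _ => ins N p.1 p.2 k) ?_ ?_ ?_ ?_ ?_
  · intro s hs
    rw [Finset.mem_filter] at hs
    obtain ⟨⟨h1, h2⟩, h3, h4⟩ := (t1_iff hρ hr hL hk hm hkm).1 hs
    exact Finset.mem_product.2 ⟨Finset.mem_filter.2 ⟨h1, h2⟩, Finset.mem_filter.2 ⟨h3, h4⟩⟩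
  · rintro ⟨v, b⟩ hp
    obtain ⟨h1, h2⟩ := Finset.mem_product.1 hp
    have h1 := Finset.mem_filter.1 h1
    have h2 := Finset.mem_filter.1 h2
    rw [Finset.mem_filter]
    refine (t1_iff hρ hr hL hk hm hkm).2 ?_
    rw [dl_ins hkm.le, md_ins hkm.le]
    exact ⟨h1, h2⟩
  · intro s _
    exact ins_dl hkm.le s
  · rintro ⟨v, b⟩ _
    rw [dl_ins hkm.le, md_ins hkm.le]
  · intro s _
    rfl

lemma t0_zero {a r ρ : ℝ} {n k : ℕ} {s : Fin n → Fin 3} (h : T0 a r ρ s k) : k < n ∧ Even k := ⟨h.2.1, h.1.1⟩

open Classical in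
/-- **DEL** -/
theorem del_all : Del := by
  intro a r h L ρ ha hh hL hρ N g F
  -- without T1 everything is zero
  rcases lt_or_ge r 0 with hr | hr
  · have z1 : ∀ (n : ℕ) (s : Fin n → Fin 3) (k : ℕ), ¬ GU a r s k := by
      intro n s k hg
      have := hg.2.2.1 0 0 (Nat.zero_le _) (Nat.zero_le _)
      rw [sub_self, norm_zero] at this
      linarith
    have z2 : ∀ (n : ℕ) (s : Fin n → Fin 3), th0 a r ρ s = 0 := by
      intro n s
      unfold th0
      rw [Finset.filter_eq_empty_iff.2 fun k _ h => z1 n s k h.1, Finset.card_empty, Nat.cast_zero]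
    rw [Finset.sum_eq_zero, Finset.sum_eq_zero, zero_mul]
    · intro m _
      simp only [z2, zero_mul, Finset.sum_const_zero, mul_zero]
    · intro s _
      refine Finset.sum_eq_zero fun k _ => Finset.sum_eq_zero fun k2 _ => if_neg fun h => z1 N s k h.1
  -- sum over m instead of k2
  have h1 : ∀ (s : Fin N → Fin 3) (k : ℕ), k ∈ Finset.range (N + 1) →
      (∑ k2 ∈ Finset.range (N + 1), if T1 a r h L ρ s k k2 then g (k2 - k) * F (N - (k2 - k)) (del s k k2) else 0) =
        ∑ m ∈ Finset.range (N + 1), if T1 a r h L ρ s k (k + m) then g m * F (N - m) (dl s k m) else 0 := by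
    intro s k hk
    have hk' : k ≤ N := by
      rw [Finset.mem_range] at hk
      omega
    rw [← Finset.sum_filter, ← Finset.sum_filter]
    refine Finset.sum_bij' (fun k2 _ => k2 - k) (fun m _ => k + m) ?_ ?_ ?_ ?_ ?_
    · intro k2 h2
      rw [Finset.mem_filter, Finset.mem_range] at h2 ⊢
      have h3 : k < k2 := h2.2.2.1.1
      rw [show k + (k2 - k) = k2 by omega]
      exact ⟨by omega, h2.2⟩
    · intro m h2
      rw [Finset.mem_filter, Finset.mem_range] at h2 ⊢
      have h3 : k + m < N := h2.2.2.2.1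
      exact ⟨by omega, h2.2⟩
    · intro k2 h2
      rw [Finset.mem_filter] at h2
      have h3 : k < k2 := h2.2.2.1.1
      omega
    · intro m _
      omega
    · intro k2 _
      rfl
  have h2 : ∀ m ∈ Finset.range (N + 1),
      (∑ s ∈ saw N, ∑ k ∈ Finset.range (N + 1), if T1 a r h L ρ s k (k + m) then g m * F (N - m) (dl s k m) else 0) =
        g m * ((((saw m).filter fun b => GB h L b 0 m).card : ℝ) * ∑ v ∈ saw (N - m), th0 a r ρ v * F (N - m) v) := by
    intro m hmN
    rw [Finset.mem_range] at hmN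
    have e2 : ∀ v : Fin (N - m) → Fin 3, th0 a r ρ v * F (N - m) v =
        ∑ k ∈ Finset.range (N + 1), if T0 a r ρ v k then F (N - m) v else 0 := by
      intro v
      unfold th0
      rw [← Finset.sum_filter, Finset.sum_const, nsmul_eq_mul]
      congr 3
      ext k
      simp only [Finset.mem_filter, Finset.mem_range]
      constructor
      · rintro ⟨g1, g2⟩
        exact ⟨by omega, g2⟩
      · rintro ⟨g1, g2⟩
        have := (t0_zero g2).1
        exact ⟨by omega, g2⟩
    simp only [e2]
    rw [Finset.sum_comm, Finset.sum_comm (s := saw (N - m)), Finset.mul_sum, Finset.mul_sum]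
    refine Finset.sum_congr rfl fun k _ => ?_
    rw [← Finset.sum_filter, ← Finset.sum_filter, ← Finset.mul_sum]
    by_cases hc : Even k ∧ Even m ∧ k + m < N
    · obtain ⟨c1, c2, c3⟩ := hc
      rw [sum_km hρ hr hL c1 c2 c3]
    · rw [Finset.filter_eq_empty_iff.2, Finset.sum_empty, mul_zero]
      · by_cases hm : Even m
        · have e5 : (saw (N - m)).filter (fun v => T0 a r ρ v k) = ∅ := by
            refine Finset.filter_eq_empty_iff.2 ?_
            intro v _ ht
            have := t0_zero ht
            exact hc ⟨this.2, hm, by omega⟩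
          rw [e5, Finset.sum_empty, mul_zero, mul_zero]
        · have e5 : ((saw m).filter fun b => GB h L b 0 m) = ∅ := by
            refine Finset.filter_eq_empty_iff.2 ?_
            intro b _ hb
            exact hm hb.2.1
          rw [e5, Finset.card_empty, Nat.cast_zero, zero_mul, mul_zero]
      · intro s _ ht
        have g1 : Even k := ht.1.1
        have g2 : Even (k + m) := ht.2.1.2.1
        have g3 : k + m < N := ht.2.2.1
        exact hc ⟨g1, (Nat.even_add.1 g2).1 g1, g3⟩
  have h3 : (∑ s ∈ saw N, ∑ k ∈ Finset.range (N + 1), ∑ k2 ∈ Finset.range (N + 1),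
      if T1 a r h L ρ s k k2 then g (k2 - k) * F (N - (k2 - k)) (del s k k2) else 0) =
        ∑ m ∈ Finset.range (N + 1),
          g m * ((((saw m).filter fun b => GB h L b 0 m).card : ℝ) * ∑ v ∈ saw (N - m), th0 a r ρ v * F (N - m) v) := by
    rw [← Finset.sum_congr rfl h2, Finset.sum_comm (s := Finset.range (N + 1)) (t := saw N)]
    refine Finset.sum_congr rfl fun s _ => ?_
    exact (Finset.sum_congr rfl fun k hk => h1 s k hk).trans Finset.sum_comm
  rw [h3, Finset.sum_mul]
  refine Finset.sum_congr rfl fun m hm => ?_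
  rw [Finset.mem_range] at hm
  have e3 : fug ^ N = fug ^ m * fug ^ (N - m) := by
    rw [← pow_add]
    congr 1
    omega
  unfold bw
  rw [e3]
  ring

end Pool.Agent.SCF.Z
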