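import Pool.Agent.SCF.ZDefs
import Pool.Agent.CRT.VDict
import Pool.Agent.IW.PS
import Pool.Agent.TIP.NfM

/-!
# ScaleFlow (R-), row FAR1 (helper29): the walk does not come back near its start

`far1 : Far1`, no hypothesis: from `TIP.NQ.ps` (InfiniteWalk) and the order of the sizes.
-/

set_option autoImplicit false

open Set Filter Topology

namespace Pool.Agent.SCF.Z

open Pool.Agent.NTS.Res
open HexObs hiding pos
open Pool.Agent.CRT.V (rt rt_zero rt_one rt_two fin3 pub_eq)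
open NTF (sw JJ)

lemma far_rt {n : ℕ} (r : Fin 3) (t : List Bool) {j : ℕ} (hj : j ≤ n) : ‖pos (rt r (sw n t)) j‖ = ‖JJ (vx oo up t j)‖ := by
  rcases fin3 r with rfl | rfl | rfl
  · rw [rt_zero, NTSF.pos_sw n t j hj]
  · rw [rt_one, NTSF.norm_rot', NTSF.pos_sw n t j hj]
  · rw [rt_two, NTSF.norm_rot', NTSF.norm_rot', NTSF.pos_sw n t j hj]

/-- **FAR1** -/
theorem far1 : Far1 := by
  intro κ ε hκ _ hε
  obtain ⟨c, hc, n0, h⟩ := HexObs.TIP.NQ.ps (θ := κ) hκ hε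
  obtain ⟨cs, Cs, hcs, hsize, -⟩ := NTSF.finE
  have hCs : 0 < Cs := by
    have h1 := (hsize 1 le_rfl).2
    have h2 := NTSF.size_pos (n := 1) le_rfl
    rw [Nat.cast_one, Real.one_rpow, mul_one] at h1
    linarith
  refine ⟨c / Cs, by positivity, max n0 1, fun n hn => ?_⟩
  have hn1 : 1 ≤ n := le_trans (le_max_right _ _) hn
  have hn0 : n0 ≤ n := le_trans (le_max_left _ _) hn
  have h0 : (0 : ℝ) < ((saw n).card : ℝ) := NTSF.saw_card_pos n
  rw [← div_le_iff₀ h0, pub_eq (by omega)]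
  have key : ∀ r : Fin 3, TOG.Pn n {t | ∃ j : ℕ, κ * n ≤ j ∧ j ≤ n ∧ ‖pos (rt r (sw n t)) j‖ ≤ c / Cs * size n} ≤ ε := by
    intro r
    refine le_trans (HexObs.TIP.Nf.Pn_mono fun t _ ht => ?_) (h n hn0)
    obtain ⟨j, h1, h2, h3⟩ := ht
    refine ⟨j, h1, h2, ?_⟩
    rw [far_rt r t h2] at h3
    refine h3.trans ?_
    have h4 := (hsize n hn1).2
    calc c / Cs * size n ≤ c / Cs * (Cs * (n : ℝ) ^ (3 / 4 : ℝ)) := by gcongr
      _ = c * (n : ℝ) ^ (3 / 4 : ℝ) := by field_simp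
  rw [Fin.sum_univ_three]
  have k0 := key 0
  have k1 := key 1
  have k2 := key 2
  linarith

end Pool.Agent.SCF.Z
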