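import Pool.Agent.SCF.ZDefs
import Pool.Agent.MC.JointZ
import Pool.Agent.NTA.FinXAll

/-!
# ScaleFlow, row IND (helper75): **`ind_of : Far1 → Ind`**

A start gate at a small scale is decided by the first `δ n` steps, up to `Far1`, and the first steps are almost independent of
the curve (`MC.joint_event`, the joint form of the coupling with the infinite walk). Also `th0` takes only the values 0 and 1.
-/

set_option autoImplicit false

open Set Filter Topology MeasureTheory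

namespace Pool.Agent.SCF.Z

open Pool.Agent.NTS.Res
open Pool.Agent.CRT (CI)

namespace IndR

/-! ### One start gate at most -/

lemma T0_le {n : ℕ} {a r ρ : ℝ} (hr : r ≤ ρ) {s : Fin n → Fin 3} {k k' : ℕ} (h : T0 a r ρ s k) (h' : T0 a r ρ s k') :
    k' ≤ k := by
  by_contra hc
  rw [not_le] at hc
  have hcut : SCut s 0 k k' := ⟨Nat.zero_le _, hc, h.1.1, h.2.2.1, fun i _ hi => h.1.2.1 i hi, fun j hj hj' =>
    h.2.2.2 j hj (hj'.trans h'.2.1.le) ((h'.1.2.2.1 j k hj' hc.le).trans hr)⟩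
  exact h'.1.2.2.2.2 k hcut h.1.2.2.2.1

open Classical in
lemma th0_eq {n : ℕ} {a r ρ : ℝ} (hr : r ≤ ρ) (s : Fin n → Fin 3) :
    th0 a r ρ s = if ∃ k : ℕ, T0 a r ρ s k then 1 else 0 := by
  unfold th0
  by_cases h : ∃ k : ℕ, T0 a r ρ s k
  · obtain ⟨k, hk⟩ := h
    rw [if_pos ⟨k, hk⟩]
    have e : (Finset.range (n + 1)).filter (fun k => T0 a r ρ s k) = {k} := by
      ext i
      rw [Finset.mem_filter, Finset.mem_singleton, Finset.mem_range]
      constructor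
      · rintro ⟨-, hi⟩
        exact le_antisymm (T0_le hr hk hi) (T0_le hr hi hk)
      · rintro rfl
        exact ⟨by have := hk.2.1; omega, hk⟩
    rw [e, Finset.card_singleton, Nat.cast_one]
  · rw [if_neg h]
    have e : (Finset.range (n + 1)).filter (fun k => T0 a r ρ s k) = ∅ := by
      refine Finset.filter_eq_empty_iff.2 fun i _ hi => h ⟨i, hi⟩
    rw [e, Finset.card_empty, Nat.cast_zero]

/-! ### The first steps -/

/-- the first `m` steps -/
def ini (m : ℕ) (w : ℕ → Fin 3) : Fin m → Fin 3 := fun i => w i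

lemma pos_ini (m : ℕ) (w : ℕ → Fin 3) {k : ℕ} (hk : k ≤ m) : pos (ini m w) k = IW.Res.ipos w k := by
  induction k with
  | zero => rw [NTSF.pos_zero]; simp [IW.Res.ipos]
  | succ k ih =>
    rw [NTSF.pos_succ _ k (by omega), ih (by omega)]
    unfold IW.Res.ipos
    rw [Finset.sum_range_succ]
    rfl

lemma pos_ini_ext {n m : ℕ} (hm : m ≤ n) (s : Fin n → Fin 3) {k : ℕ} (hk : k ≤ m) :
    pos (ini m (IW.ext s)) k = pos s k := by
  rw [pos_ini m _ hk]
  exact IW.ipos_ext s (hk.trans hm)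

lemma GU_congr {n n' : ℕ} {a r : ℝ} {s : Fin n → Fin 3} {s' : Fin n' → Fin 3} {k : ℕ}
    (e : ∀ i, i ≤ k → pos s i = pos s' i) (h : GU a r s k) : GU a r s' k := by
  obtain ⟨h1, h2, h3, ⟨i, j, hi, hj, hij⟩, h5⟩ := h
  refine ⟨h1, fun i hi => ?_, fun i j hi hj => ?_, ⟨i, j, hi, hj, ?_⟩, fun k' hk' hd => ?_⟩
  · rw [← e i hi, ← e k le_rfl]
    exact h2 i hi
  · rw [← e i hi, ← e j hj]
    exact h3 i j hi hj
  · rw [← e i hi, ← e j hj]
    exact hij
  · obtain ⟨a1, a2, a3, a4, a5, a6⟩ := hk'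
    obtain ⟨i, j, hi, hj, hij⟩ := hd
    refine h5 k' ⟨a1, a2, a3, ?_, fun i hi hi' => ?_, fun j hj hj' => ?_⟩ ⟨i, j, hi, hj, ?_⟩
    · rw [e _ (by omega), e _ (by omega)]
      exact a4
    · rw [e _ (by omega), e _ (by omega)]
      exact a5 i hi hi'
    · rw [e _ (by omega), e _ (by omega)]
      exact a6 j hj hj'
    · rw [e _ (by omega), e _ (by omega)]
      exact hij

/-- far from the start behind the time `m`: the start gates are decided by the first `m` steps -/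
lemma T0_ini {n m : ℕ} (hm : m ≤ n) {a r ρ : ℝ} (hρ : 0 ≤ ρ) (s : Fin n → Fin 3)
    (hfar : ∀ j : ℕ, m ≤ j → j ≤ n → r + ρ < ‖pos s j‖) :
    (∃ k : ℕ, T0 a r ρ s k) ↔ ∃ k : ℕ, T0 a r ρ (ini m (IW.ext s)) k := by
  have e : ∀ i, i ≤ m → pos (ini m (IW.ext s)) i = pos s i := fun i hi => pos_ini_ext hm s hi
  constructor
  · rintro ⟨k, hU, hC1, hC2, hC3⟩
    have hk : k < m := by
      by_contra hc
      rw [not_lt] at hc
      have h1 := hfar k hc hC1.le
      have h2 := hU.2.2.1 k 0 le_rfl (Nat.zero_le _)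
      rw [NTSF.pos_zero, sub_zero] at h2
      linarith
    refine ⟨k, GU_congr (fun i hi => (e i (by omega)).symm) hU, hk, ?_, fun j hj hj' hd => ?_⟩
    · rw [e _ (by omega), e _ hk.le]
      exact hC2
    · rw [e j hj', e k hk.le] at hd ⊢
      exact hC3 j hj (hj'.trans hm) hd
  · rintro ⟨k, hU, hC1, hC2, hC3⟩
    refine ⟨k, GU_congr (fun i hi => e i (by omega)) hU, hC1.trans_le hm, ?_, fun j hj hj' hd => ?_⟩
    · rw [e _ (by omega), e _ hC1.le] at hC2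
      exact hC2
    · rcases le_or_gt j m with h | h
      · have h3 := hC3 j hj h
        rw [e j h, e k hC1.le] at h3
        exact h3 hd
      · exfalso
        have h1 := hfar j h.le hj'
        have h2 := hU.2.2.1 k 0 le_rfl (Nat.zero_le _)
        rw [NTSF.pos_zero, sub_zero, e k hC1.le] at h2
        have h3 : ‖pos s j‖ ≤ ‖pos s j - pos s k‖ + ‖pos s k‖ := by
          have := norm_add_le (pos s j - pos s k) (pos s k)
          rwa [sub_add_cancel] at this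
        linarith

/-! ### The two normalizations -/

lemma curve_iw {n : ℕ} (hn : 1 ≤ n) (s : Fin n → Fin 3) :
    (curve s : CI) = ((((n : ℝ) ^ (3 / 4 : ℝ) / size n : ℝ)) : ℂ) • (IW.Res.curve s) := by
  have hn0 : (0 : ℝ) < n := by exact_mod_cast hn
  have hp : (0 : ℝ) < (n : ℝ) ^ (3 / 4 : ℝ) := Real.rpow_pos_of_pos hn0 _
  have hpc : (((n : ℝ) ^ (3 / 4 : ℝ) : ℝ) : ℂ) ≠ 0 := by exact_mod_cast hp.ne'
  ext u
  show ∑ k ∈ Finset.range n, ((max 0 (min 1 ((u : ℝ) * n - k)) : ℝ) : ℂ) * ((pos s (k + 1) - pos s k) / size n) =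
    ((((n : ℝ) ^ (3 / 4 : ℝ) / size n : ℝ)) : ℂ) * ∑ j : Fin n,
      ((max 0 (min 1 ((u : ℝ) * n - (j : ℕ))) : ℝ) : ℂ) * (IW.Res.step (j : ℕ) (s j) / ((n : ℝ) ^ (3 / 4 : ℝ) : ℝ))
  rw [Finset.sum_range, Finset.mul_sum]
  refine Finset.sum_congr rfl fun j _ => ?_
  rw [NTSF.pos_succ s j j.2, add_sub_cancel_left]
  have e : step (j : ℕ) (s ⟨(j : ℕ), j.2⟩) = IW.Res.step (j : ℕ) (s j) := rfl
  rw [e]
  push_cast
  field_simp

lemma lip_smul {K : NNReal} {f : CI → ℝ} (hf : LipschitzWith K f) {b : ℝ} {B : NNReal} (hb0 : 0 ≤ b) (hb : b ≤ B) :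
    LipschitzWith (K * B) fun γ : CI => f ((b : ℂ) • γ) := by
  refine LipschitzWith.of_dist_le_mul fun x y => (hf.dist_le_mul _ _).trans ?_
  have h1 : dist ((b : ℂ) • x) ((b : ℂ) • y) ≤ b * dist x y := by
    refine (ContinuousMap.dist_le (mul_nonneg hb0 dist_nonneg)).2 fun u => ?_
    show dist ((b : ℂ) * x u) ((b : ℂ) * y u) ≤ b * dist x y
    rw [dist_eq_norm, ← mul_sub, norm_mul, Complex.norm_real, Real.norm_eq_abs, abs_of_nonneg hb0, ← dist_eq_norm]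
    exact mul_le_mul_of_nonneg_left (ContinuousMap.dist_apply_le_dist u) hb0
  rw [NNReal.coe_mul, mul_assoc]
  exact mul_le_mul_of_nonneg_left (h1.trans (mul_le_mul_of_nonneg_right hb dist_nonneg)) K.2

/-! ### Means -/

open Classical in
lemma near {n : ℕ} {g T T' : (Fin n → Fin 3) → ℝ} (hg : ∀ s, |g s| ≤ 1) (h0 : ∀ s, |T s - T' s| ≤ 1)
    {B : (Fin n → Fin 3) → Prop} (hB : ∀ s ∈ saw n, ¬ B s → T s = T' s) :
    |∑ s ∈ saw n, g s * T s - ∑ s ∈ saw n, g s * T' s| ≤ (((saw n).filter fun s => B s).card : ℝ) := by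
  rw [← Finset.sum_sub_distrib, Finset.card_filter]
  push_cast
  refine (Finset.abs_sum_le_sum_abs _ _).trans (Finset.sum_le_sum fun s hs => ?_)
  by_cases h : B s
  · rw [if_pos h, ← mul_sub, abs_mul]
    calc |g s| * |T s - T' s| ≤ 1 * 1 := mul_le_mul (hg s) (h0 s) (abs_nonneg _) zero_le_one
      _ = 1 := one_mul 1
  · rw [if_neg h, hB s hs h, sub_self, abs_zero]

end IndR

open IndR in
open Classical in
/-- **IND from FAR1** -/
theorem ind_of (hF : Far1) : Ind := by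
  intro K ε hε
  obtain ⟨c, C, hc, hsz, -⟩ := NTSF.finE
  obtain ⟨δ, n1, hδ, hδ1, hn1, hJ⟩ := IW.MC.joint_event IW.MC.jointM (ε := ε / 4) (K * (1 / c).toNNReal) (by positivity)
  obtain ⟨δ0, hδ0, n2, hFar⟩ := hF (δ / 2) (ε / 4) (by positivity) (by linarith) (by positivity)
  refine ⟨δ0 / 131, by positivity, fun δ1 hδ1' => ⟨max n1 (max n2 ⌈2 / δ⌉₊), fun n hn R a r ρ hR1 hR2 _ _ _ hr2 hρ1 hρ2 f hf hf1 =>
    ?_⟩⟩
  have g1 : n1 ≤ n := (le_max_left _ _).trans hn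
  have g2 : n2 ≤ n := ((le_max_left _ _).trans (le_max_right _ _)).trans hn
  have g3 : 2 / δ ≤ n := (Nat.le_ceil _).trans (by exact_mod_cast ((le_max_right _ _).trans (le_max_right _ _)).trans hn)
  have hn' : 1 ≤ n := hn1.trans g1
  have hn0 : (0 : ℝ) < n := by exact_mod_cast hn'
  have hs0 : 0 < size n := NTSF.size_pos hn'
  have hR : 0 < R := (mul_pos hδ1' hs0).trans_le hR1
  have hp : (0 : ℝ) < (n : ℝ) ^ (3 / 4 : ℝ) := Real.rpow_pos_of_pos hn0 _
  have hN : (0 : ℝ) < ((saw n).card : ℝ) := by exact_mod_cast Finset.card_pos.2 (NTSF.saw_nonempty n)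
  obtain ⟨m, hm⟩ : ∃ m : ℕ, m = ⌊δ * n⌋₊ := ⟨_, rfl⟩
  have hm1 : (m : ℝ) ≤ δ * n := by
    rw [hm]
    exact Nat.floor_le (by positivity)
  have hm2 : δ * n < m + 1 := by
    rw [hm]
    exact Nat.lt_floor_add_one _
  have hmn : m ≤ n := by
    have : (m : ℝ) ≤ n := hm1.trans ((mul_le_mul_of_nonneg_right hδ1 hn0.le).trans (by rw [one_mul]))
    exact_mod_cast this
  have hm3 : δ / 2 * n ≤ m := by
    rw [div_le_iff₀ hδ] at g3
    linarith
  -- the event of the first steps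
  obtain ⟨W, hW⟩ : ∃ W : Set (ℕ → Fin 3), W = {w | ∃ k : ℕ, T0 a r ρ (ini m w) k} := ⟨_, rfl⟩
  have hWm : ∀ w, w ∈ W ↔ ∃ k : ℕ, T0 a r ρ (ini m w) k := fun w => by rw [hW]; exact Iff.rfl
  have hWl : IW.Loc m W := by
    intro w w' e hw
    rw [hWm] at hw ⊢
    have e1 : ini m w' = ini m w := by
      funext i
      exact (e i i.2).symm
    rw [e1]
    exact hw
  -- the functional in the other normalization
  have hb0 : 0 ≤ (n : ℝ) ^ (3 / 4 : ℝ) / size n := div_nonneg hp.le hs0.le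
  have hb1 : (n : ℝ) ^ (3 / 4 : ℝ) / size n ≤ ((1 / c).toNNReal : ℝ) := by
    rw [Real.coe_toNNReal _ (by positivity), div_le_div_iff₀ hs0 hc, one_mul, mul_comm]
    exact (hsz n hn').1
  have hj := hJ n n m g1 le_rfl hm1 (fun γ => f ((((n : ℝ) ^ (3 / 4 : ℝ) / size n : ℝ) : ℂ) • γ)) (lip_smul hf hb0 hb1)
    (fun γ => hf1 _) W hWl
  rw [IW.MC.law_mean hWl] at hj
  have hcv : ∀ s : Fin n → Fin 3, f ((((n : ℝ) ^ (3 / 4 : ℝ) / size n : ℝ) : ℂ) • IW.Res.curve s) = f (curve s) :=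
    fun s => by rw [← curve_iw hn' s]
  obtain ⟨T, hT⟩ : ∃ T : (Fin n → Fin 3) → ℝ, T = fun s => if ∃ k : ℕ, T0 a r ρ s k then 1 else 0 := ⟨_, rfl⟩
  obtain ⟨T', hT'⟩ : ∃ T' : (Fin n → Fin 3) → ℝ, T' = fun s => if IW.ext s ∈ W then 1 else 0 := ⟨_, rfl⟩
  have hj' : |(∑ s ∈ saw n, f (curve s) * T' s) / ((saw n).card : ℝ) -
      (∑ s ∈ saw n, 1 * T' s) / ((saw n).card : ℝ) * ((∑ s ∈ saw n, f (curve s)) / ((saw n).card : ℝ))| ≤ ε / 4 := by
    refine le_of_eq_of_le ?_ hj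
    have e1 : IW.Res.mean n (fun s => if IW.ext s ∈ W then
        f ((((n : ℝ) ^ (3 / 4 : ℝ) / size n : ℝ) : ℂ) • IW.Res.curve s) else 0) =
        (∑ s ∈ saw n, f (curve s) * T' s) / ((saw n).card : ℝ) := by
      show (∑ s ∈ saw n, _) / ((saw n).card : ℝ) = _
      congr 1
      refine Finset.sum_congr rfl fun s _ => ?_
      rw [hT']
      by_cases h : IW.ext s ∈ W
      · simp only [if_pos h, mul_one, hcv s]
      · simp only [if_neg h, mul_zero]
    have e2 : IW.Res.mean n (fun s => if IW.ext s ∈ W then (1 : ℝ) else 0) =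
        (∑ s ∈ saw n, 1 * T' s) / ((saw n).card : ℝ) := by
      show (∑ s ∈ saw n, _) / ((saw n).card : ℝ) = _
      congr 1
      refine Finset.sum_congr rfl fun s _ => ?_
      rw [hT', one_mul]
    have e3 : IW.Res.mean n (fun s => f ((((n : ℝ) ^ (3 / 4 : ℝ) / size n : ℝ) : ℂ) • IW.Res.curve s)) =
        (∑ s ∈ saw n, f (curve s)) / ((saw n).card : ℝ) := by
      show (∑ s ∈ saw n, _) / ((saw n).card : ℝ) = _
      congr 1
      exact Finset.sum_congr rfl fun s _ => hcv s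
    rw [e1, e2, e3]
  -- the bad walks
  have hbad := hFar n g2
  have h0 : ∀ s, |T s - T' s| ≤ 1 := by
    intro s
    rw [hT, hT']
    show |(if ∃ k : ℕ, T0 a r ρ s k then (1 : ℝ) else 0) - (if IW.ext s ∈ W then (1 : ℝ) else 0)| ≤ 1
    split_ifs <;> norm_num
  have hB : ∀ s ∈ saw n, (¬ ∃ j : ℕ, δ / 2 * n ≤ j ∧ j ≤ n ∧ ‖pos s j‖ ≤ δ0 * size n) → T s = T' s := by
    intro s _ hs
    have h1 : (∃ k : ℕ, T0 a r ρ s k) ↔ IW.ext s ∈ W := by
      rw [hWm]
      refine T0_ini hmn (by linarith) s fun j hj hjn => ?_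
      by_contra hc
      rw [not_lt] at hc
      refine hs ⟨j, hm3.trans (by exact_mod_cast hj), hjn, hc.trans ?_⟩
      have h2 : 131 * R ≤ δ0 * size n := by linarith
      linarith
    rw [hT, hT']
    exact if_congr h1 rfl rfl
  have k1 := near (g := fun s => f (curve s)) (fun s => hf1 _) h0 hB
  have k2 := near (g := fun _ => (1 : ℝ)) (fun s => by norm_num) h0 hB
  have eT : ∀ s : Fin n → Fin 3, th0 a r ρ s = T s := fun s => by
    rw [hT]
    exact th0_eq (by linarith) s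
  have e1 : ∑ s ∈ saw n, f (curve s) * th0 a r ρ s = ∑ s ∈ saw n, f (curve s) * T s :=
    Finset.sum_congr rfl fun s _ => by rw [eT]
  have e2 : ∑ s ∈ saw n, th0 a r ρ s = ∑ s ∈ saw n, 1 * T s := Finset.sum_congr rfl fun s _ => by rw [eT, one_mul]
  rw [e1, e2]
  have hM : |(∑ s ∈ saw n, f (curve s)) / ((saw n).card : ℝ)| ≤ 1 := by
    rw [abs_div, abs_of_pos hN, div_le_one hN]
    refine (Finset.abs_sum_le_sum_abs _ _).trans ((Finset.sum_le_sum fun s _ => hf1 (curve s)).trans ?_)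
    rw [Finset.sum_const, nsmul_eq_mul, mul_one]
  obtain ⟨A, hA⟩ : ∃ A : ℝ, A = (∑ s ∈ saw n, f (curve s) * T s) / ((saw n).card : ℝ) := ⟨_, rfl⟩
  obtain ⟨A', hA'⟩ : ∃ A' : ℝ, A' = (∑ s ∈ saw n, f (curve s) * T' s) / ((saw n).card : ℝ) := ⟨_, rfl⟩
  obtain ⟨P, hP⟩ : ∃ P : ℝ, P = (∑ s ∈ saw n, 1 * T s) / ((saw n).card : ℝ) := ⟨_, rfl⟩
  obtain ⟨P', hP'⟩ : ∃ P' : ℝ, P' = (∑ s ∈ saw n, 1 * T' s) / ((saw n).card : ℝ) := ⟨_, rfl⟩
  obtain ⟨M, hMe⟩ : ∃ M : ℝ, M = (∑ s ∈ saw n, f (curve s)) / ((saw n).card : ℝ) := ⟨_, rfl⟩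
  have l1 : |A - A'| ≤ ε / 4 := by
    rw [hA, hA', ← sub_div, abs_div, abs_of_pos hN, div_le_iff₀ hN]
    exact k1.trans hbad
  have l2 : |P - P'| ≤ ε / 4 := by
    rw [hP, hP', ← sub_div, abs_div, abs_of_pos hN, div_le_iff₀ hN]
    exact k2.trans hbad
  rw [← hA', ← hP', ← hMe] at hj'
  rw [← hMe] at hM
  rw [← hA, ← hP, ← hMe]
  have e4 : A - M * P = (A - A') + (A' - P' * M) + M * (P' - P) := by ring
  rw [e4]
  have h5 : |M * (P' - P)| ≤ ε / 4 := by
    rw [abs_mul, abs_sub_comm P' P]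
    calc |M| * |P - P'| ≤ 1 * (ε / 4) := mul_le_mul hM l2 (abs_nonneg _) zero_le_one
      _ = ε / 4 := one_mul _
  calc |A - A' + (A' - P' * M) + M * (P' - P)| ≤ |A - A' + (A' - P' * M)| + |M * (P' - P)| := abs_add_le _ _
    _ ≤ (|A - A'| + |A' - P' * M|) + |M * (P' - P)| := by gcongr; exact abs_add_le _ _
    _ ≤ ε := by linarith

end Pool.Agent.SCF.Z
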