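import Pool.Agent.SCF.MacE

/-!
# ScaleFlow, row MAC (helper66): **`ps1C : Ps1C`**, comparison of the averages `ps1` of two close walks
-/

set_option autoImplicit false

open Set Filter Topology MeasureTheory

namespace Pool.Agent.SCF.M

open Pool.Agent.NTS.Res
open Pool.Agent.CRT (CI)
open Pool.Agent.SCF.Z

/-- **comparison of `ps1`** -/
theorem ps1C : Ps1C := by
  classical
  intro R L x1 x2 hR hL hLR hx ηf hηf ε hε
  have hxd : 0 < x2 - x1 := sub_pos.2 hx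
  obtain ⟨e', he'⟩ : ∃ e', e' = ε / 4 := ⟨_, rfl⟩
  have he0 : 0 < e' := by rw [he']; positivity
  obtain ⟨c, hc⟩ : ∃ c, c = min 1 (e' / 64) := ⟨_, rfl⟩
  have hc0 : 0 < c := by rw [hc]; exact lt_min one_pos (by positivity)
  have hc1 : c ≤ 1 := by rw [hc]; exact min_le_left _ _
  have hc2 : c ≤ e' / 64 := by rw [hc]; exact min_le_right _ _
  obtain ⟨μ3, hμ3⟩ : ∃ μ3, μ3 = c * L := ⟨_, rfl⟩
  have hμ30 : 0 < μ3 := by rw [hμ3]; positivity
  have hμL : μ3 ≤ L := by rw [hμ3]; nlinarith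
  obtain ⟨ω2, hω2⟩ : ∃ ω2, ω2 = μ3 / 12 := ⟨_, rfl⟩
  have hω20 : 0 < ω2 := by rw [hω2]; positivity
  have hη2 := hηf ω2 hω20
  obtain ⟨η, hη⟩ : ∃ η, η = min (ηf ω2 / 8) (min (1 / 8) (ε * (x2 - x1) / 128)) := ⟨_, rfl⟩
  have hη0 : 0 < η := by rw [hη]; exact lt_min (by positivity) (lt_min (by norm_num) (by positivity))
  have hηa : η ≤ ηf ω2 / 8 := by rw [hη]; exact min_le_left _ _
  have hηb : η ≤ 1 / 8 := by rw [hη]; exact (min_le_right _ _).trans (min_le_left _ _)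
  have hηc : η ≤ ε * (x2 - x1) / 128 := by rw [hη]; exact (min_le_right _ _).trans (min_le_right _ _)
  obtain ⟨w, hw⟩ : ∃ w, w = μ3 / 8 := ⟨_, rfl⟩
  have hw0 : 0 < w := by rw [hw]; positivity
  obtain ⟨Q, hQ⟩ : ∃ Q : ℝ, Q = (((2 * ⌈140 * R / w⌉₊ + 1) ^ 2 : ℕ) : ℝ) := ⟨_, rfl⟩
  have hQ0 : 0 ≤ Q := by rw [hQ]; exact Nat.cast_nonneg _
  have hV : ∀ {n : ℕ} (s : Fin n → Fin 3), 1 ≤ n → ∀ c : ℕ, ((VS (140 * R * size n) (w * size n) s c).card : ℝ) ≤ Q := by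
    intro n s hn c
    rw [hQ]
    refine Nat.cast_le.2 (vs_card (mul_pos hw0 (NTSF.size_pos hn)) (le_of_eq ?_) s c)
    field_simp
  obtain ⟨ω, hω⟩ : ∃ ω, ω = e' * (L / 32) / (16 * (2 / η + (Q + 1))) := ⟨_, rfl⟩
  have hω0 : 0 < ω := by rw [hω]; positivity
  have hωe : 2 * ω / (L / 16 - L / 32) * (2 / η + (Q + 1)) ≤ e' / 8 := by
    rw [hω]
    have h1 : 0 < 2 / η + (Q + 1) := by positivity
    apply le_of_eq
    field_simp
    ring
  obtain ⟨ω1, hω1⟩ : ∃ ω1, ω1 = ω / 6 := ⟨_, rfl⟩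
  have hω10 : 0 < ω1 := by rw [hω1]; positivity
  have hη1' := hηf ω1 hω10
  obtain ⟨η1, hη1⟩ : ∃ η1, η1 = min η (ηf ω1 / 4) := ⟨_, rfl⟩
  have hη10 : 0 < η1 := by rw [hη1]; exact lt_min hη0 (by positivity)
  have hη1a : η1 ≤ η := by rw [hη1]; exact min_le_left _ _
  have hη1b : η1 ≤ ηf ω1 / 4 := by rw [hη1]; exact min_le_right _ _
  obtain ⟨M1, hM1, hMain⟩ := s5_shift' (ε := e') (a0 := R / 4) (a1 := R / 2) (h0 := L / 32) (h1 := L / 16) (η1 := η1) (η := η)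
    (ω := ω) (c := c) (Q := Q + 1) he0 (by linarith) (by linarith) hη10 hη0 (by linarith) hω0.le hc0.le hc2 hωe
  refine ⟨ω1, ω2, M1, hω10, hω20, fun M hM hM0 => ?_⟩
  obtain ⟨μ0, hμ0, -, main⟩ := hMain M hM
  have hMR : (0 : ℝ) < M := by exact_mod_cast hM0
  obtain ⟨νb, hνb⟩ : ∃ νb, νb = min (μ0 / 2) (R / 32) := ⟨_, rfl⟩
  have hνb0 : 0 < νb := by rw [hνb]; exact lt_min (by positivity) (by positivity)
  have hνb1 : νb ≤ μ0 / 2 := by rw [hνb]; exact min_le_left _ _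
  have hνb2 : νb ≤ R / 32 := by rw [hνb]; exact min_le_right _ _
  obtain ⟨ω3, hω3⟩ : ∃ ω3, ω3 = νb / 3 := ⟨_, rfl⟩
  have hω30 : 0 < ω3 := by rw [hω3]; positivity
  have hη3 := hηf ω3 hω30
  obtain ⟨θ, hθ0, t1, t2, t3, t4, t5, t6, t7, t8, t9⟩ : ∃ θ : ℝ, 0 < θ ∧ θ ≤ η ∧ θ ≤ μ3 / 8 ∧ θ ≤ ω2 ∧ θ ≤ ω1 ∧ θ ≤ ηf ω1 / 4 ∧
      θ ≤ R / 8 ∧ θ ≤ ω3 ∧ θ ≤ ηf ω3 / 8 ∧ θ ≤ ηf ω2 / 8 :=
    ⟨min η (min (μ3 / 8) (min ω2 (min ω1 (min (ηf ω1 / 4) (min (R / 8) (min ω3 (min (ηf ω3 / 8) (ηf ω2 / 8)))))))), by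
        refine lt_min hη0 (lt_min ?_ (lt_min hω20 (lt_min hω10 (lt_min ?_ (lt_min ?_ (lt_min hω30 (lt_min ?_ ?_))))))) <;> positivity,
      by simp, by simp, by simp, by simp, by simp, by simp, by simp, by simp, by simp⟩
  obtain ⟨n0, hn0⟩ := inv_small hθ0
  refine ⟨ω3, θ, n0, hω30, hθ0, fun n n' s s' hn hn' m1 m2 m3 hS hS' hd => ?_⟩
  obtain ⟨a1, a2, a3⟩ := hn0 n hn
  obtain ⟨b1, b2, b3⟩ := hn0 n' hn'
  have hs := NTSF.size_pos a1
  have hs' := NTSF.size_pos b1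
  have hCa : Cl (ηf ω2 / 2) (μ3 / 4) s s' := cl_of a1 b1 hd m2 (by linarith) (by linarith)
  have hC1 : Cl (ηf ω1 / 2) (ω / 2) s s' := cl_of a1 b1 hd m1 (by linarith) (by linarith)
  have hCb : Cl (ηf ω3 / 2) νb s s' := cl_of a1 b1 hd m3 (by linarith) (by linarith)
  -- the grid in the units of the size
  have gr : ∀ {m : ℕ} (i1 i2 i3 i4 i5 : ℕ), gp M (R * size m / 4) (R * size m / 2) i1 = gp M (R / 4) (R / 2) i1 * size m ∧
      gp M (R * size m) (2 * (R * size m)) i2 = gp M R (2 * R) i2 * size m ∧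
      gp M (L * size m / 32) (L * size m / 16) i3 = gp M (L / 32) (L / 16) i3 * size m ∧
      gp M (L * size m) (2 * (L * size m)) i4 = gp M L (2 * L) i4 * size m ∧
      gp M (64 * (R * size m)) (128 * (R * size m)) i5 = gp M (64 * R) (128 * R) i5 * size m := by
    intro m i1 i2 i3 i4 i5
    refine ⟨?_, ?_, ?_, ?_, ?_⟩ <;> rw [← gpS] <;> congr 1 <;> ring
  have hfin := main μ0 hμ0.le le_rfl
    (F := fun i1 i2 i3 i4 i5 => in1 (gp M (R * size n / 4) (R * size n / 2) i1) (gp M (R * size n) (2 * (R * size n)) i2)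
      (gp M (L * size n / 32) (L * size n / 16) i3) (gp M (L * size n) (2 * (L * size n)) i4)
      (gp M (64 * (R * size n)) (128 * (R * size n)) i5) x1 x2 s)
    (G := fun i1 i2 i3 i4 i5 => in1 (gp M (R * size n' / 4) (R * size n' / 2) i1) (gp M (R * size n') (2 * (R * size n')) i2)
      (gp M (L * size n' / 32) (L * size n' / 16) i3) (gp M (L * size n') (2 * (L * size n')) i4)
      (gp M (64 * (R * size n')) (128 * (R * size n')) i5) x1 x2 s')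
    (e := ε / 4) (κ := fun a => ft n' (P1 R a s')) (lam := fun x => ft n' (P2 R x s'))
    (q := fun x => qf (Q + 1) (fun c => ((VS (140 * R * size n') (w * size n') s' c).card : ℝ)) (P2 R x s'))
    (y := fun i1 => if h : ∃ c, P1 R (gp M (R / 4) (R / 2) i1) s' c then (pos s' (Nat.find h)).re / size n' else 0)
    (fun i1 i2 i3 i4 i5 _ h2 _ h4 h5 => in1_le (grid_cond (mul_nonneg hR.le hs.le) (mul_nonneg hL.le hs.le)
      (by have := mul_le_mul_of_nonneg_right hLR hs.le; linarith) h2 h4 h5) s)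
    (fun i1 i2 i3 i4 i5 _ _ _ _ _ => in1_nn _ _ _ _ _ _ _ _) (by positivity) (p1_mono b1 s') (fun _ => ft_nn _ _)
    (fun _ => ft_le b1 fun _ hc => hc.1.le) (p2_mono b1 s') (fun _ => ft_nn _ _) (fun _ => ft_le b1 fun _ hc => hc.1.le)
    (qf_mono hR b1 s' (hV s' b1)) (fun x => (qf_bd hQ0 s' (hV s' b1) x).1) (fun x => (qf_bd hQ0 s' (hV s' b1) x).2) ?_
  · have hM5 : (0 : ℝ) < (M : ℝ) ^ 5 := pow_pos hMR 5
    rw [ps1_def, ps1_def]
    have h1 : ε / 4 + e' ≤ ε := by rw [he']; linarith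
    rw [div_le_iff₀ hM5, add_mul, div_mul_cancel₀ _ hM5.ne']
    refine (show _ ≤ _ from hfin).trans ?_
    have h2 := mul_le_mul_of_nonneg_right h1 hM5.le
    unfold S5
    linarith
  · -- one term
    intro i1 i2 i3 i4 i5 j1 j2 j3 j4 j5 c1 c2 c3 c4 c5 c6
    obtain ⟨g1, g2, g3, g4, g5⟩ := gr (m := n) i1 i2 i3 i4 i5
    obtain ⟨g1', g2', g3', g4', g5'⟩ := gr (m := n') i1 (i2 + ⌈c * M⌉₊) i3 (i4 + ⌈c * M⌉₊) (i5 - ⌈c * M⌉₊)
    have q1 := gp_mem j1 (by linarith : R / 4 ≤ R / 2)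
    have q2 := gp_mem j2 (by linarith : R ≤ 2 * R)
    have q3 := gp_mem j3 (by linarith : L / 32 ≤ L / 16)
    have q4 := gp_mem j4 (by linarith : L ≤ 2 * L)
    have q5 := gp_mem j5 (by linarith : 64 * R ≤ 128 * R)
    show in1 _ _ _ _ _ x1 x2 s ≤ in1 _ _ _ _ _ x1 x2 s' + ε / 4
    by_cases ht : ∃ k k2 : ℕ, T1 (gp M (R * size n / 4) (R * size n / 2) i1) (gp M (R * size n) (2 * (R * size n)) i2)
      (gp M (L * size n / 32) (L * size n / 16) i3) (gp M (L * size n) (2 * (L * size n)) i4)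
      (gp M (64 * (R * size n)) (128 * (R * size n)) i5) s k k2
    · obtain ⟨k, k2, ht⟩ := ht
      rw [in1_eq (grid_cond (mul_nonneg hR.le hs.le) (mul_nonneg hL.le hs.le)
        (by have := mul_le_mul_of_nonneg_right hLR hs.le; linarith) j2 j4 j5) ht]
      rw [g1, g2, g3, g4, g5] at ht
      obtain ⟨k', k2', ht', htm⟩ := t1_close a1 b1 hR hCa hC1 (by linarith : θ + η1 ≤ ηf ω1 / 2) hCb hS hS' hθ0 t6 hνb2
        (by linarith) (by linarith) (by linarith : 2 * νb ≤ μ0) hμ0.le hη0.le hη10.le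
        (by linarith : θ + η + η1 + 1 / (n : ℝ) ≤ ηf ω2 / 2) (by linarith : ω / 2 + θ ≤ ω) hω0.le hw0
        (by rw [hw]; linarith : 2 * w + μ3 / 4 + 2 * θ ≤ μ3) (by linarith) hμ30.le (by linarith) q1.1 q2.2 (by linarith)
        (by linarith) q5.1 q5.2 (by linarith) ht (hV s' b1) c1 (fun k' hk' hm' => by
          have hex : ∃ c, P1 R (gp M (R / 4) (R / 2) i1) s' c := ⟨k', hk'⟩
          have hfd : Nat.find hex = k' := by
            refine le_antisymm (Nat.find_min' hex hk') ?_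
            by_contra h2
            exact hm' _ (not_le.1 h2) (Nat.find_spec hex)
          simp only [dif_pos hex, hfd] at c2 c3
          exact ⟨c2, c3⟩)
      have hJ : c ≤ (⌈c * M⌉₊ : ℝ) / M := by
        rw [le_div_iff₀ hMR]
        exact Nat.le_ceil _
      have hJ' : ∀ x : ℝ, x * (⌈c * M⌉₊ : ℝ) / M = x * ((⌈c * M⌉₊ : ℝ) / M) := fun x => by ring
      have r2 : gp M R (2 * R) i2 + μ3 ≤ gp M R (2 * R) (i2 + ⌈c * M⌉₊) := by
        rw [gp_shift, hJ', hμ3]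
        have h1 : L * c ≤ (2 * R - R) * ((⌈c * M⌉₊ : ℝ) / M) := mul_le_mul (by linarith) hJ hc0.le (by linarith)
        linarith
      have r4 : gp M L (2 * L) i4 + μ3 ≤ gp M L (2 * L) (i4 + ⌈c * M⌉₊) := by
        rw [gp_shift, hJ', hμ3]
        have h1 : L * c ≤ (2 * L - L) * ((⌈c * M⌉₊ : ℝ) / M) := mul_le_mul (by linarith) hJ hc0.le (by linarith)
        linarith
      have r5 : gp M (64 * R) (128 * R) (i5 - ⌈c * M⌉₊) ≤ gp M (64 * R) (128 * R) i5 - μ3 := by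
        rw [gp_shift' _ _ _ c6, hJ', hμ3]
        have h1 : L * c ≤ (128 * R - 64 * R) * ((⌈c * M⌉₊ : ℝ) / M) := mul_le_mul (by linarith) hJ hc0.le (by linarith)
        linarith
      have ht2 := t1_mono ht' (mul_le_mul_of_nonneg_right r2 hs'.le) (mul_le_mul_of_nonneg_right r4 hs'.le)
        (mul_le_mul_of_nonneg_right r5 hs'.le)
      rw [← g1', ← g2', ← g3', ← g4', ← g5'] at ht2
      refine le_trans ?_ (add_le_add (in1_ge ht2) le_rfl)
      have h1 := (abs_le.1 (wt1_lip hx n n' (k2 - k) (k2' - k'))).2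
      have h2 : 8 / (x2 - x1) * |((k2 - k : ℕ) : ℝ) / n - ((k2' - k' : ℕ) : ℝ) / n'| ≤ 8 / (x2 - x1) * (4 * η) :=
        mul_le_mul_of_nonneg_left (htm.trans (by linarith)) (by positivity)
      have h3 : 8 / (x2 - x1) * (4 * η) ≤ ε / 4 := by
        rw [div_mul_eq_mul_div, div_le_iff₀ hxd]
        linarith
      linarith
    · rw [in1_zero fun k k2 h' => ht ⟨k, k2, h'⟩]
      have := in1_nn (gp M (R * size n' / 4) (R * size n' / 2) i1) (gp M (R * size n') (2 * (R * size n')) (i2 + ⌈c * M⌉₊))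
        (gp M (L * size n' / 32) (L * size n' / 16) i3) (gp M (L * size n') (2 * (L * size n')) (i4 + ⌈c * M⌉₊))
        (gp M (64 * (R * size n')) (128 * (R * size n')) (i5 - ⌈c * M⌉₊)) x1 x2 s'
      linarith

end Pool.Agent.SCF.M
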