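import Pool.Agent.SCF.ExBad

/-!
# ScaleFlow, row EXN (helper16): `badN_of`, the pinches near the start, every exact number of steps, from the mean
-/

set_option autoImplicit false

open Set Filter Topology MeasureTheory

namespace Pool.Agent.SCF.K

open Pool.Agent.NTS.Res
open Pool.Agent.SCF.M (BadK)
open Pool.Agent.CRT.V (msum)
open Pool.Agent.CRT.V.VC (pr)

/-- **BadN**: every exact number of steps -/
def BadN : Prop := ∀ ε κ c K ρ b : ℝ, 0 < ε → 0 < κ → κ < 1 → 0 < K → 0 < ρ → 0 < b → 16 * b ≤ ρ → 4 * (K + ρ) < c →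
  ∃ E0 : ℝ, 0 < E0 ∧ ∀ m E : ℝ, 0 < m → m ≤ E → E ≤ E0 → ∃ w0 : ℝ, 0 < w0 ∧ ∀ h w : ℝ, 0 < h → h ≤ w → w ≤ w0 →
    ∃ N0 : ℕ, ∀ N : ℕ, N0 ≤ N → pr N (fun s => BadK (K * size N) (ρ * size N) (b * size N) (E * size N) (m * size N)
      (h * size N) (w * size N) s ∧ 0 < Z.zc κ c (curve s)) ≤ ε

theorem badN_of (hV : ∀ ε x1 x2 K ρ b : ℝ, 0 < ε → 0 < x1 → x1 < x2 → 0 < K → 0 < ρ → 0 < b → 16 * b ≤ ρ →
    ∃ E0 : ℝ, 0 < E0 ∧ ∀ m E : ℝ, 0 < m → m ≤ E → E ≤ E0 → ∃ w0 : ℝ, 0 < w0 ∧ ∀ h w : ℝ, 0 < h → h ≤ w → w ≤ w0 →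
      ∃ N0 : ℕ, ∀ N : ℕ, N0 ≤ N → msum (fun _ s => BadK (K * size N) (ρ * size N) (b * size N) (E * size N) (m * size N)
        (h * size N) (w * size N) s) x1 x2 N ≤ ε * N) : BadN := by
  intro ε κ c K ρ b hε hκ hκ1 hK hρ hb hbρ hc
  obtain ⟨d, ε', hd, hε', h1⟩ := badK_exact (κ := κ) (c := c) (ε := ε) hκ hκ1 (by linarith) hε
  obtain ⟨E0, hE0, h2⟩ := hV ε' 1 (1 + d) K ρ b hε' one_pos (by linarith) hK hρ hb hbρ
  refine ⟨E0, hE0, fun m E hm hmE hE => ?_⟩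
  obtain ⟨w0, hw0, h3⟩ := h2 m E hm hmE hE
  exact ⟨w0, hw0, fun h w hh hhw hw => h1 K ρ b E m h w hK.le hρ (by linarith) hc (h3 h w hh hhw hw)⟩

end Pool.Agent.SCF.K
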