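import Pool.Agent.SCF.MDefs2
import Pool.Agent.CRT.RPerfA
import Pool.Agent.CRT.VSl
import Pool.Agent.CRT.VCom

/-!
# ScaleFlow, row MAC (helper75): **`mdP : MdP`, `tmP : TmP`** (modulus, time in slabs; every exact number of steps)

* `tms_card`, `tms_pr` : `Tms η τ` up to `ε` for a small `τ` (from `vSl`), and `Tms` is monotone;
* `md_card`, `md_pr` : `Md η ω` up to `ε` for a small `η` (from `R.mod_card`), and `Md` is monotone.
-/

set_option autoImplicit false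

open Set Filter Topology MeasureTheory

namespace Pool.Agent.SCF.M

open Pool.Agent.NTS.Res
open Pool.Agent.CRT (CI)
open Pool.Agent.SCF.Z
open Pool.Agent.CRT.V (vSl)
open Pool.Agent.CRT.V.VC (pr)

lemma Tms.mono {n : ℕ} {s : Fin n → Fin 3} {η η' τ τ' : ℝ} (h : Tms η τ s) (hη : η ≤ η') (hτ : τ' ≤ τ) : Tms η' τ' s := by
  intro i j hij hj hl
  refine (h i j hij hj fun l h1 h2 => (hl l h1 h2).trans ?_).trans (mul_le_mul_of_nonneg_right hη (Nat.cast_nonneg _))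
  exact mul_le_mul_of_nonneg_right hτ (Real.sqrt_nonneg _)

lemma Md.mono {n : ℕ} {s : Fin n → Fin 3} {η η' ω ω' : ℝ} (h : Md η ω s) (hη : η' ≤ η) (hω : ω ≤ ω') : Md η' ω' s := by
  intro i j hij hj hl
  refine (h i j hij hj (hl.trans (mul_le_mul_of_nonneg_right hη (Nat.cast_nonneg _)))).trans ?_
  exact mul_le_mul_of_nonneg_right hω (Real.sqrt_nonneg _)

open Classical in
/-- **time in slabs**: no piece of at least `η n` steps in a slab of width `τ * size n`, up to `ε`, every `n ≥ n0` -/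
theorem tms_card {η ε : ℝ} (hη : 0 < η) (hε : 0 < ε) : ∃ τ : ℝ, 0 < τ ∧ ∃ n0 : ℕ, ∀ n : ℕ, n0 ≤ n →
    (((saw n).filter fun s => ¬ Tms η τ s).card : ℝ) ≤ ε * ((saw n).card : ℝ) := by
  obtain ⟨τ, hτ, n0, h⟩ := vSl (min η ε) (lt_min hη hε)
  refine ⟨τ, hτ, n0, fun n hn => ?_⟩
  refine (Nat.cast_le.2 (Finset.card_le_card fun s hs => ?_)).trans ((h n hn).trans
    (mul_le_mul_of_nonneg_right (min_le_right _ _) (Nat.cast_nonneg _)))
  rw [Finset.mem_filter] at hs ⊢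
  refine ⟨hs.1, ?_⟩
  by_contra hc
  refine hs.2 fun i j hij hj hl => ?_
  by_contra h1
  rw [not_le] at h1
  exact hc ⟨i, j, hij, hj, (mul_le_mul_of_nonneg_right (min_le_left _ _) (Nat.cast_nonneg _)).trans h1.le, hl⟩

theorem tms_pr {η ε : ℝ} (hη : 0 < η) (hε : 0 < ε) : ∃ τ : ℝ, 0 < τ ∧ ∃ n0 : ℕ, ∀ n : ℕ, n0 ≤ n →
    pr n (fun s => ¬ Tms η τ s) ≤ ε := by
  classical
  obtain ⟨τ, hτ, n0, h⟩ := tms_card hη hε
  refine ⟨τ, hτ, n0, fun n hn => ?_⟩
  unfold pr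
  rw [div_le_iff₀ (NTSF.saw_card_pos n)]
  refine le_trans (le_of_eq ?_) (h n hn)
  congr!

open Classical in
/-- **modulus**: a displacement `ω * size n` needs more than `η n` steps, up to `ε`, every `n ≥ 1` -/
theorem md_card {ω ε : ℝ} (hω : 0 < ω) (hε : 0 < ε) : ∃ η : ℝ, 0 < η ∧ ∀ n : ℕ, 1 ≤ n →
    (((saw n).filter fun s => ¬ Md η ω s).card : ℝ) ≤ ε * ((saw n).card : ℝ) := by
  obtain ⟨δ, hδ, h⟩ := CRT.R.mod_card hε hω
  refine ⟨δ / 2, by positivity, fun n hn => ?_⟩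
  have hn0 : (0 : ℝ) < n := by exact_mod_cast hn
  refine (Nat.cast_le.2 (Finset.card_le_card fun s hs => ?_)).trans (h n hn)
  rw [Finset.mem_filter] at hs ⊢
  refine ⟨hs.1, ?_⟩
  by_contra hc
  refine hs.2 fun i j hij hj hl => ?_
  by_contra h1
  rw [not_le] at h1
  exact hc ⟨i, j, hij, hj, hl.trans_lt (mul_lt_mul_of_pos_right (by linarith) hn0), h1.le⟩

theorem md_pr {ω ε : ℝ} (hω : 0 < ω) (hε : 0 < ε) : ∃ η : ℝ, 0 < η ∧ ∀ n : ℕ, 1 ≤ n → pr n (fun s => ¬ Md η ω s) ≤ ε := by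
  classical
  obtain ⟨η, hη, h⟩ := md_card hω hε
  refine ⟨η, hη, fun n hn => ?_⟩
  unfold pr
  rw [div_le_iff₀ (NTSF.saw_card_pos n)]
  refine le_trans (le_of_eq ?_) (h n hn)
  congr!

/-- **the modulus** -/
theorem mdP : MdP := fun _ _ hε hω => md_pr hω hε

/-- **time in thin slabs** -/
theorem tmP : TmP := fun _ _ hε hη => tms_pr hη hε

end Pool.Agent.SCF.M
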