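import Pool.Agent.SCF.StabF
import Pool.Agent.SCF.MdTm
import Pool.Agent.SCF.BadN

/-!
# ScaleFlow, row MAC: the numbers and the bad events of the stability (helper28)

* `stb_good` : two walks which are good with numbers `E0 > T0 > E1 > T1 > E2 > T2` and have close curves are stable;
* **`stbP_of : BadN → StbP`** (`BadN` of helper16).
-/

set_option autoImplicit false

open Set Filter Topology MeasureTheory

namespace Pool.Agent.SCF.M

open Pool.Agent.NTS.Res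
open Pool.Agent.SCF.Z
open Pool.Agent.CRT.R (WC Slb slab)
open Pool.Agent.CRT.V.VC (pr pr_mono pr_or pr_of_card pr_nonneg)
open Pool.Agent.SCF.K (IsoR isoN BadN)

lemma pr_none {n : ℕ} {P : (Fin n → Fin 3) → Prop} (h : ∀ s, ¬ P s) : pr n P ≤ 0 := by
  classical
  refine pr_of_card (le_of_eq ?_)
  rw [zero_mul, Nat.cast_eq_zero, Finset.card_eq_zero, Finset.eq_empty_iff_forall_notMem]
  exact fun s hs => h s (Finset.mem_filter.1 hs).2

/-- a finite family of monotone events -/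
lemma pr_fam {P : ℕ → ℝ → ∀ n : ℕ, (Fin n → Fin 3) → Prop}
    (hm : ∀ (j : ℕ) (t t' : ℝ) (n : ℕ) (s : Fin n → Fin 3), t' ≤ t → P j t' n s → P j t n s) (J : ℕ)
    (h : ∀ j : ℕ, j < J → ∀ ε : ℝ, 0 < ε → ∃ t : ℝ, 0 < t ∧ ∃ N0 : ℕ, ∀ N : ℕ, N0 ≤ N → pr N (P j t N) ≤ ε) :
    ∀ ε : ℝ, 0 < ε → ∀ t0 : ℝ, 0 < t0 → ∃ t : ℝ, 0 < t ∧ t ≤ t0 ∧ ∃ N0 : ℕ, ∀ N : ℕ, N0 ≤ N →
      pr N (fun s => ∃ j : ℕ, j < J ∧ P j t N s) ≤ ε := by
  induction J with
  | zero =>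
    intro ε hε t0 ht0
    refine ⟨t0, ht0, le_rfl, 0, fun N _ => ?_⟩
    refine (pr_none fun s hs => ?_).trans hε.le
    obtain ⟨j, hj, -⟩ := hs
    omega
  | succ J ih =>
    intro ε hε t0 ht0
    obtain ⟨t1, ht1, h1, N1, hN1⟩ := ih (fun j hj => h j (by omega)) (ε / 2) (by positivity) t0 ht0
    obtain ⟨t2, ht2, N2, hN2⟩ := h J (by omega) (ε / 2) (by positivity)
    refine ⟨min t1 t2, lt_min ht1 ht2, (min_le_left _ _).trans h1, max N1 N2, fun N hN => ?_⟩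
    have a1 : N1 ≤ N := (le_max_left _ _).trans hN
    have a2 : N2 ≤ N := (le_max_right _ _).trans hN
    refine (pr_or (Q := fun s => ∃ j : ℕ, j < J ∧ P j t1 N s) (R := P J t2 N) ?_).trans (by linarith [hN1 N a1, hN2 N a2])
    rintro s - ⟨j, hj, hs⟩
    rcases Nat.lt_or_ge j J with h3 | h3
    · exact Or.inl ⟨j, h3, hm j t1 _ N s (min_le_left _ _) hs⟩
    · have : j = J := by omega
      subst this
      exact Or.inr (hm j t2 _ N s (min_le_right _ _) hs)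

lemma isoR_mono {R' r r1 cc E T T' : ℝ} {n : ℕ} {s : Fin n → Fin 3} (hT : T' ≤ T) (h : IsoR R' r r1 cc E T' s) :
    IsoR R' r r1 cc E T s := by
  obtain ⟨k, h1, h2, h3, h4⟩ := h
  refine ⟨k, h1, h2, h3, fun i hi hd => ?_⟩
  rcases h4 i hi hd with h5 | h5
  · exact Or.inl (h5.trans_le hT)
  · exact Or.inr h5

/-- an isolated window cut for one of the radii of the grid -/
def IsoJ (R β e t : ℝ) (j : ℕ) (n : ℕ) (s : Fin n → Fin 3) : Prop :=
  36 * R ≤ j * β ∧ (j : ℝ) * β ≤ 130 * R ∧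
    IsoR (5 * R * size n) (j * β * size n) (j * β * size n - β * size n) (β * size n / 2) (e * size n) (t * size n) s

lemma iso_all {R κ β : ℝ} (hκ : 0 < κ) (hκ1 : κ < 1) (hR : 0 < R) (hβ : 0 < β) (hβR : β ≤ R) (J : ℕ) {e : ℝ} (he : 0 < e)
    {ε t0 : ℝ} (hε : 0 < ε) (ht0 : 0 < t0) : ∃ t : ℝ, 0 < t ∧ t ≤ t0 ∧ ∃ N0 : ℕ, ∀ N : ℕ, N0 ≤ N →
      pr N (fun s => ∃ j : ℕ, j < J ∧ IsoJ R β e t j N s ∧ 0 < zc κ (1000 * R) (curve s)) ≤ ε := by
  refine pr_fam (P := fun j t n s => IsoJ R β e t j n s ∧ 0 < zc κ (1000 * R) (curve s)) ?_ J ?_ ε hε t0 ht0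
  · rintro j t t' n s htt ⟨⟨h1, h2, h3⟩, h4⟩
    exact ⟨⟨h1, h2, isoR_mono (mul_le_mul_of_nonneg_right htt (Real.sqrt_nonneg _)) h3⟩, h4⟩
  · intro j _ ε' hε'
    by_cases hj : 36 * R ≤ j * β ∧ (j : ℝ) * β ≤ 130 * R
    · obtain ⟨t, ht, N0, hN0⟩ := isoN (ε := ε') (κ := κ) (c := 1000 * R) (R' := 5 * R) (r := j * β) (b := β) (e := e) hε' hκ hκ1
        hβ (by linarith [hj.1]) he (by linarith) (by linarith [hj.2])
      refine ⟨t, ht, N0, fun N hN => (pr_mono fun s _ hs => ?_).trans (hN0 N hN)⟩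
      exact ⟨hs.1.2.2, hs.2⟩
    · refine ⟨1, one_pos, 0, fun N _ => ?_⟩
      exact (pr_none fun s hs => hj ⟨hs.1.1, hs.1.2.1⟩).trans hε'.le

/-- the bad event -/
def Bdd (R θ β b E0 T0 E1 T1 E2 T2 : ℝ) (J : ℕ) (n : ℕ) (s : Fin n → Fin 3) : Prop :=
  Slb (b * size n) (2 * E0 * size n) s ∨ ¬ Tms θ b s ∨
    BadK (5 * R * size n) (R * size n) (R / 50 * size n) (3 * b * size n) (T1 / 4 * size n) (T2 / 4 * size n) (E2 * size n) s ∨
    (∃ j : ℕ, j < J ∧ IsoJ R β E0 T0 j n s) ∨ (∃ j : ℕ, j < J ∧ IsoJ R β E1 T1 j n s) ∨ ∃ j : ℕ, j < J ∧ IsoJ R β E2 T2 j n s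

/-- **good walks with close curves are stable** -/
theorem stb_good {n n' : ℕ} (hn : 1 ≤ n) (hn' : 1 ≤ n') {s : Fin n → Fin 3} {s' : Fin n' → Fin 3}
    {δ η R θ β b E0 T0 E1 T1 E2 T2 : ℝ} {J : ℕ}
    (hcl : ∀ t, ‖curve s t - curve s' t‖ ≤ δ) (h1 : δ + 1 / size n ≤ η) (h2 : δ + 2 / size n' ≤ η) (hη1 : 8 * η ≤ T1)
    (hη2 : 4 * η ≤ T2) (hηb : 2 * η ≤ b) (hθ : 20 * β ≤ θ) (hβR : 100 * β ≤ R) (hb : b ≤ β) (hJ : 130 * R < J * β)
    (hE2 : 2 * E2 ≤ T1) (hE1 : 2 * E1 ≤ T0) (hg : ¬ Bdd R θ β b E0 T0 E1 T1 E2 T2 J n s) (hfar : 1000 * R * size n ≤ ‖pos s n‖)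
    (hg' : ¬ Bdd R θ β b E0 T0 E1 T1 E2 T2 J n' s') : Stb R θ s s' := by
  have hδ0 : 0 ≤ δ := (norm_nonneg _).trans (hcl 0)
  have hSp := NTSF.size_pos hn
  have hSp' := NTSF.size_pos hn'
  have hη0 : 0 < η := by
    have : 0 < 2 / size n' := by positivity
    linarith
  have hb0 : 0 < b := by linarith
  have hβ0 : 0 < β := by linarith
  have hR0 : 0 < R := by linarith
  have hbS : 2 ≤ b * size n := by
    have h3 : 1 / size n ≤ η := by linarith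
    rw [div_le_iff₀ hSp] at h3
    have h4 : 2 * η * size n ≤ b * size n := mul_le_mul_of_nonneg_right hηb hSp.le
    linarith
  have hβS : b * size n ≤ β * size n := mul_le_mul_of_nonneg_right hb hSp.le
  unfold Bdd at hg hg'
  push Not at hg hg'
  obtain ⟨g1, g2, -, g4, g5, g6⟩ := hg
  obtain ⟨-, -, g3, -, -, -⟩ := hg'
  have hni : ∀ e t : ℝ, (∀ j : ℕ, j < J → ¬ IsoJ R β e t j n s) → ∀ i : ℕ, 36 * R ≤ i * β → (i : ℝ) * β ≤ 130 * R →
      NI (5 * R * size n) (i * β * size n) (β * size n) (e * size n) (t * size n) s := by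
    intro e t h i hi1 hi2
    have hiJ : i < J := by
      by_contra hcon
      have h3 : (J : ℝ) ≤ i := by exact_mod_cast not_lt.1 hcon
      have h4 : (J : ℝ) * β ≤ i * β := mul_le_mul_of_nonneg_right h3 hβ0.le
      linarith
    exact ni_of (fun hc => h i hiJ ⟨hi1, hi2, hc⟩) rfl rfl
  refine stb_of hn hn' (η := η) (d := 4 * β) (ρB := R) (bB := R / 50) (G := T1 / 2) (T := T2) (W := E2) (b := b) (a0 := R / 10)
    (κ0 := 4 * R + 2 * b) (K := 5 * R) hcl h1 h2 (by linarith) hη2 (by linarith) (by linarith) (by linarith) (by linarith)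
    (by linarith) (by linarith) (by linarith) (by linarith) ?_ g2 ?_
  · intro ρ c hρ hρ' hc hQ hD
    obtain ⟨x0, x1, x2, x3, F, f1, f2, f3, f4, f5⟩ := fourAt (Q' := 5 * R) (A := 1000 * R) (a0 := R / 10) hn hβ0 (by linarith) hb0 hb
      (by linarith) (by linarith) (by linarith) hE2 hE1 (by linarith) (by linarith) (by linarith) (by linarith) hfar
      (hni E0 T0 g4) (hni E1 T1 g5) (hni E2 T2 g6) (fun i j h3 h4 h5 => by
        by_contra hcon
        exact g1 ⟨i, j, h3, h4, h5, not_lt.1 hcon⟩) hρ hρ' hc hQ hD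
    have hG : T1 / 2 * size n ≤ (T1 - E2) * size n := mul_le_mul_of_nonneg_right (by linarith) hSp.le
    exact ⟨x0, x1, x2, x3, ⟨F.h01, F.h12, F.h23, F.c0, F.c1, F.c2, F.c3, by linarith [F.g01], F.g12, F.w12,
      by linarith [F.g23], F.near⟩, f1, f2, f3, f4, f5⟩
  · have e : T1 / 2 / 2 = T1 / 4 := by ring
    rw [e]
    exact g3

/-- **the stability outside of events of a small probability** -/
theorem stbP_of (hBN : BadN) : StbP := by
  intro R κ θ ε hR hκ hκ1 hθ hε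
  -- the displacements
  obtain ⟨β, hβ⟩ : ∃ β : ℝ, β = min (θ / 20) (R / 100) := ⟨_, rfl⟩
  have hβ0 : 0 < β := by rw [hβ]; positivity
  have hβθ : 20 * β ≤ θ := by
    have : β ≤ θ / 20 := by rw [hβ]; exact min_le_left _ _
    linarith
  have hβR : 100 * β ≤ R := by
    have : β ≤ R / 100 := by rw [hβ]; exact min_le_right _ _
    linarith
  obtain ⟨τ, hτ, N1, hN1⟩ := tmP (ε / 8) θ (by positivity) hθ
  obtain ⟨e0, he0, hBN1⟩ := hBN (ε / 8) κ (1000 * R) (5 * R) R (R / 50) (by positivity) hκ hκ1 (by positivity) hR (by positivity)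
    (by linarith) (by linarith)
  obtain ⟨b, hb⟩ : ∃ b : ℝ, b = min β (min τ (e0 / 3)) := ⟨_, rfl⟩
  have hb0 : 0 < b := by rw [hb]; positivity
  have hbβ : b ≤ β := by rw [hb]; exact min_le_left _ _
  have hbτ : b ≤ τ := by rw [hb]; exact (min_le_right _ _).trans (min_le_left _ _)
  have hbe : 3 * b ≤ e0 := by
    have : b ≤ e0 / 3 := by rw [hb]; exact (min_le_right _ _).trans (min_le_right _ _)
    linarith
  obtain ⟨J, hJ⟩ := exists_nat_gt (130 * R / β)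
  have hJb : 130 * R < J * β := by rwa [div_lt_iff₀ hβ0] at hJ
  -- the slab
  obtain ⟨σ, hσ, N2, hN2⟩ := slab (ε := ε / 8) (b := b) (by positivity) hb0
  -- the levels
  obtain ⟨E0, hE0⟩ : ∃ E0 : ℝ, E0 = σ / 2 := ⟨_, rfl⟩
  have hE0p : 0 < E0 := by rw [hE0]; positivity
  obtain ⟨T0, hT0, -, N3, hN3⟩ := iso_all hκ hκ1 hR hβ0 (by linarith) J hE0p (ε := ε / 8) (t0 := 1) (by positivity) one_pos
  obtain ⟨E1, hE1⟩ : ∃ E1 : ℝ, E1 = T0 / 2 := ⟨_, rfl⟩
  have hE1p : 0 < E1 := by rw [hE1]; positivity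
  obtain ⟨T1, hT1, hT1b, N4, hN4⟩ := iso_all hκ hκ1 hR hβ0 (by linarith) J hE1p (ε := ε / 8) (t0 := b) (by positivity) hb0
  obtain ⟨w0, hw0, hBN2⟩ := hBN1 (T1 / 4) (3 * b) (by positivity) (by linarith) hbe
  obtain ⟨E2, hE2⟩ : ∃ E2 : ℝ, E2 = min (T1 / 2) w0 := ⟨_, rfl⟩
  have hE2p : 0 < E2 := by rw [hE2]; positivity
  have hE2T : 2 * E2 ≤ T1 := by
    have : E2 ≤ T1 / 2 := by rw [hE2]; exact min_le_left _ _
    linarith
  have hE2w : E2 ≤ w0 := by rw [hE2]; exact min_le_right _ _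
  obtain ⟨T2, hT2, hT2E, N5, hN5⟩ := iso_all hκ hκ1 hR hβ0 (by linarith) J hE2p (ε := ε / 8) (t0 := E2) (by positivity) hE2p
  obtain ⟨N6, hN6⟩ := hBN2 (T2 / 4) E2 (by positivity) (by linarith) hE2w
  -- the distance
  obtain ⟨η, hη⟩ : ∃ η : ℝ, η = min (min (T1 / 8) (T2 / 4)) (b / 2) := ⟨_, rfl⟩
  have hη0 : 0 < η := by rw [hη]; positivity
  have hη1 : 8 * η ≤ T1 := by
    have : η ≤ T1 / 8 := by rw [hη]; exact (min_le_left _ _).trans (min_le_left _ _)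
    linarith
  have hη2 : 4 * η ≤ T2 := by
    have : η ≤ T2 / 4 := by rw [hη]; exact (min_le_left _ _).trans (min_le_right _ _)
    linarith
  have hηb : 2 * η ≤ b := by
    have : η ≤ b / 2 := by rw [hη]; exact min_le_right _ _
    linarith
  obtain ⟨N7, hN7⟩ := Pool.Agent.SCF.K.size_big (η := η) hη0 4
  obtain ⟨n0, hn0⟩ : ∃ n0 : ℕ, n0 = N1 + N2 + N3 + N4 + N5 + N6 + N7 + 1 := ⟨_, rfl⟩
  have hsz : ∀ n : ℕ, n0 ≤ n → η / 2 + 1 / size n ≤ η ∧ η / 2 + 2 / size n ≤ η := by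
    intro n hn
    have hS := NTSF.size_pos (n := n) (by omega)
    have h3 := hN7 n (by omega)
    have h4 : 2 / size n ≤ η / 2 := by
      rw [div_le_iff₀ hS]
      linarith
    have h5 : 1 / size n ≤ 2 / size n := div_le_div_of_nonneg_right (by norm_num) hS.le
    constructor <;> linarith
  refine ⟨η / 2, n0, Bdd R θ β b E0 T0 E1 T1 E2 T2 J, by positivity, fun n hn => ?_, ?_⟩
  · have c1 : pr n (fun s => ¬ Tms θ b s) ≤ ε / 8 := (pr_mono fun s _ hs => fun h => hs (h.mono le_rfl hbτ)).trans (hN1 n (by omega))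
    have c2 : pr n (fun s => Slb (b * size n) (2 * E0 * size n) s) ≤ ε / 8 := by
      refine pr_of_card ?_
      have h3 := hN2 n (by omega)
      rw [show 2 * E0 = σ by rw [hE0]; ring]
      exact h3
    have c3 := hN3 n (by omega)
    have c4 := hN4 n (by omega)
    have c5 := hN5 n (by omega)
    have c6 := hN6 n (by omega)
    have d1 : pr n (fun s => Bdd R θ β b E0 T0 E1 T1 E2 T2 J n s ∧ 0 < zc κ (1000 * R) (curve s)) ≤
        pr n (fun s => Slb (b * size n) (2 * E0 * size n) s) + (pr n (fun s => ¬ Tms θ b s) +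
        (pr n (fun s => BadK (5 * R * size n) (R * size n) (R / 50 * size n) (3 * b * size n) (T1 / 4 * size n)
          (T2 / 4 * size n) (E2 * size n) s ∧ 0 < zc κ (1000 * R) (curve s)) +
        (pr n (fun s => ∃ j : ℕ, j < J ∧ IsoJ R β E0 T0 j n s ∧ 0 < zc κ (1000 * R) (curve s)) +
        (pr n (fun s => ∃ j : ℕ, j < J ∧ IsoJ R β E1 T1 j n s ∧ 0 < zc κ (1000 * R) (curve s)) +
        pr n (fun s => ∃ j : ℕ, j < J ∧ IsoJ R β E2 T2 j n s ∧ 0 < zc κ (1000 * R) (curve s)))))) := by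
      refine (pr_or (Q := fun s => Slb (b * size n) (2 * E0 * size n) s) (R := fun s => (¬ Tms θ b s ∨
        BadK (5 * R * size n) (R * size n) (R / 50 * size n) (3 * b * size n) (T1 / 4 * size n) (T2 / 4 * size n) (E2 * size n) s ∨
        (∃ j : ℕ, j < J ∧ IsoJ R β E0 T0 j n s) ∨ (∃ j : ℕ, j < J ∧ IsoJ R β E1 T1 j n s) ∨
        ∃ j : ℕ, j < J ∧ IsoJ R β E2 T2 j n s) ∧ 0 < zc κ (1000 * R) (curve s)) ?_).trans (add_le_add le_rfl ?_)
      · rintro s - ⟨h3 | h3, h4⟩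
        · exact Or.inl h3
        · exact Or.inr ⟨h3, h4⟩
      refine (pr_or (Q := fun s => ¬ Tms θ b s) (R := fun s => (
        BadK (5 * R * size n) (R * size n) (R / 50 * size n) (3 * b * size n) (T1 / 4 * size n) (T2 / 4 * size n) (E2 * size n) s ∨
        (∃ j : ℕ, j < J ∧ IsoJ R β E0 T0 j n s) ∨ (∃ j : ℕ, j < J ∧ IsoJ R β E1 T1 j n s) ∨
        ∃ j : ℕ, j < J ∧ IsoJ R β E2 T2 j n s) ∧ 0 < zc κ (1000 * R) (curve s)) ?_).trans (add_le_add le_rfl ?_)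
      · rintro s - ⟨h3 | h3, h4⟩
        · exact Or.inl h3
        · exact Or.inr ⟨h3, h4⟩
      refine (pr_or (Q := fun s => BadK (5 * R * size n) (R * size n) (R / 50 * size n) (3 * b * size n) (T1 / 4 * size n)
          (T2 / 4 * size n) (E2 * size n) s ∧ 0 < zc κ (1000 * R) (curve s)) (R := fun s => (
        (∃ j : ℕ, j < J ∧ IsoJ R β E0 T0 j n s) ∨ (∃ j : ℕ, j < J ∧ IsoJ R β E1 T1 j n s) ∨
        ∃ j : ℕ, j < J ∧ IsoJ R β E2 T2 j n s) ∧ 0 < zc κ (1000 * R) (curve s)) ?_).trans (add_le_add le_rfl ?_)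
      · rintro s - ⟨h3 | h3, h4⟩
        · exact Or.inl ⟨h3, h4⟩
        · exact Or.inr ⟨h3, h4⟩
      refine (pr_or (Q := fun s => ∃ j : ℕ, j < J ∧ IsoJ R β E0 T0 j n s ∧ 0 < zc κ (1000 * R) (curve s)) (R := fun s => (
        (∃ j : ℕ, j < J ∧ IsoJ R β E1 T1 j n s) ∨
        ∃ j : ℕ, j < J ∧ IsoJ R β E2 T2 j n s) ∧ 0 < zc κ (1000 * R) (curve s)) ?_).trans (add_le_add le_rfl ?_)
      · rintro s - ⟨⟨j, h3, h5⟩ | h3, h4⟩
        · exact Or.inl ⟨j, h3, h5, h4⟩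
        · exact Or.inr ⟨h3, h4⟩
      refine pr_or ?_
      rintro s - ⟨⟨j, h3, h5⟩ | ⟨j, h3, h5⟩, h4⟩
      · exact Or.inl ⟨j, h3, h5, h4⟩
      · exact Or.inr ⟨j, h3, h5, h4⟩
    linarith
  · intro n n' s s' hn hn' _ _ hs hs' hz _ hd
    have hn1 : 1 ≤ n := by omega
    have hn1' : 1 ≤ n' := by omega
    refine stb_good hn1 hn1' (δ := η / 2) (η := η) (fun t => ?_) (hsz n hn).1 (hsz n' hn').2 hη1 hη2 hηb hβθ hβR hbβ hJb hE2T
      (by rw [hE1]; linarith) hs ?_ hs'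
    · have h3 := ContinuousMap.dist_apply_le_dist (f := curve s) (g := curve s') t
      rw [dist_eq_norm] at h3
      exact h3.trans hd
    · have h3 := zc_far (c := 1000 * R) (by positivity) hn1 hz (i := n) le_rfl (by nlinarith [Nat.cast_nonneg (α := ℝ) n])
      exact h3.le

end Pool.Agent.SCF.M
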