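import Pool.Agent.CRT.RVBad
import Pool.Agent.CRT.RedM
import Pool.Agent.CRT.SizeSc
import Pool.Agent.CRT.RSlb
import Pool.Agent.SCF.BadN

/-!
# ScaleFlow, row VBadW closed (helper59): `vBadW`, `vBadK`, `badN`, no hypothesis
-/

set_option autoImplicit false

namespace Pool.Agent.SCF.K

open Pool.Agent.NTS.Res
open Pool.Agent.SCF.M (BadK)
open Pool.Agent.CRT.V (msum)

/-- **in the mean there is a window cut near every window pinch with a margin** -/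
theorem vBadW : Pool.Agent.CRT.R.VBadW :=
  Pool.Agent.CRT.R.vBadW_of (fun _ _ _ h1 h2 h3 => Pool.Agent.CRT.V.red_msum h1 h2 h3)
    (fun _ _ h1 h2 => HexObs.CRT.size_sc h1 h2) (fun k1 _ hn => HexObs.CRT.sc_ex k1 hn) Pool.Agent.CRT.R.vSlb

/-- a bad pinch in the ball of radius `K` is a bad pinch -/
lemma badK_badW {K ρ b E m h w : ℝ} {n : ℕ} {s : Fin n → Fin 3} (hs : BadK K ρ b E m h w s) :
    Pool.Agent.CRT.R.BadW ρ b E m h w s := by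
  obtain ⟨p1, k0, k1, p2, y, -, h1, h2, h3, h4⟩ := hs
  exact ⟨p1, k0, k1, p2, y, h1, h2, h3, h4⟩

/-- **VBadK** -/
theorem vBadK : ∀ ε x1 x2 K ρ b : ℝ, 0 < ε → 0 < x1 → x1 < x2 → 0 < K → 0 < ρ → 0 < b → 16 * b ≤ ρ →
    ∃ E0 : ℝ, 0 < E0 ∧ ∀ m E : ℝ, 0 < m → m ≤ E → E ≤ E0 → ∃ w0 : ℝ, 0 < w0 ∧ ∀ h w : ℝ, 0 < h → h ≤ w → w ≤ w0 →
      ∃ N0 : ℕ, ∀ N : ℕ, N0 ≤ N → msum (fun _ s => BadK (K * size N) (ρ * size N) (b * size N) (E * size N) (m * size N)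
        (h * size N) (w * size N) s) x1 x2 N ≤ ε * N := by
  intro ε x1 x2 K ρ b hε hx1 hx12 hK hρ hb hbρ
  obtain ⟨E0, hE0, h1⟩ := vBadW ε ρ b x1 x2 hε hb hbρ hx1 hx12
  refine ⟨E0, hE0, fun m E hm hmE hE => ?_⟩
  obtain ⟨w0, hw0, h2⟩ := h1 E m hm hmE hE
  refine ⟨w0, hw0, fun h w hh hhw hw => ?_⟩
  obtain ⟨N0, h3⟩ := h2 h w hh hhw hw
  exact ⟨N0, fun N hN => (msum_mono (fun n s hs => badK_badW hs) x1 x2 N).trans (h3 N hN)⟩

/-- **badN**: every exact number of steps -/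
theorem badN : BadN := badN_of vBadK

end Pool.Agent.SCF.K
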