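import Pool.Agent.SCF.MacZ
import Pool.Agent.SCF.MacF
import Pool.Agent.SCF.StbP
import Pool.Agent.SCF.VBadK

/-!
# ScaleFlow, row MAC (helper66): the gates with a middle piece are a macroscopic functional of the curve
-/

set_option autoImplicit false

namespace Pool.Agent.SCF.M

/-- **row MAC**, no hypothesis -/
theorem macT1 : Pool.Agent.SCF.Z.MacT1 := macT1_of mdP (stbP_of Pool.Agent.SCF.K.badN) ps1C

end Pool.Agent.SCF.M
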