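import Pool.Agent.SCF.TipU
import Pool.Agent.CRT.TipGate

/-!
# ScaleFlow (R), row P0, words half (helper5): **`tipU : TipU`**

Tip gates exist at every scale between `c0` and `δ0 size n`, uniformly in the scale. From `PWN.smallN`, whose levels are free.
-/

set_option autoImplicit false

open Set Filter Topology MeasureTheory

namespace Pool.Agent.SCF.Z

open HexObs hiding pos curve
open HexObs.SDN HexObs.TIW
open Pool.Agent.NTS.Res
open NTF (sw JJ JJ_sub JJ_add)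
open Pool.Agent.CRT.V (rt xl re_rt xl_mod xl_step pos_add_one fin3 rt_zero rt_one rt_two rt_rt rt_mem dd pub_eq)
open Pool.Agent.CRT.R (gate_word n0_data chn_nil wD_nil gate_disp step_sz)

/-- a tip gate of the word `t` (odd number of letters) at the level `l`, far part free up to `F`, the end not too near -/
def WO (l F : ℕ) (t : List Bool) : Prop := ∃ a : ℕ, Even a ∧ a < t.length ∧ t.take a ∈ Fe F ∧
  (∀ i, 1 ≤ i → i ≤ (t.drop a).length → 0 < ip (vx oo up (t.drop a) i) up ∧ hn (vx oo up (t.drop a) i) ≤ 2 ^ l) ∧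
  (2 : ℝ) ^ l ≤ 128 * ‖JJ (vx oo up (t.drop a) (t.drop a).length)‖

lemma WO_odd {l L : ℕ} (hl : 8 ≤ l) {t : List Bool} (hev : Even t.length) (x : Bool) (h : PWN.N0 l L {[]} t ≠ 0) :
    WO l (4 * 2 ^ L) (t ++ [x]) := by
  obtain ⟨a, ha, he, h1, h2, h3, h4, h5⟩ := n0_data h
  have hpos : (256 : ℤ) ≤ 2 ^ l := by
    calc (256 : ℤ) = 2 ^ 8 := by norm_num
      _ ≤ 2 ^ l := pow_le_pow_right₀ (by norm_num) hl
  have e1 : (t ++ [x]).take a = t.take a := List.take_append_of_le_length ha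
  have e2 : (t ++ [x]).drop a = t.drop a ++ [x] := List.drop_append_of_le_length ha
  have e3 : (t.drop a ++ [x]).length = (t.drop a).length + 1 := by simp
  obtain ⟨s1, s2⟩ := step_sz _ (dx_mem upd' (t.drop a ++ [x]) (t.drop a).length)
  have e4 : vx oo up (t.drop a ++ [x]) ((t.drop a).length + 1) =
      en (t.drop a) + dx up (t.drop a ++ [x]) (t.drop a).length := by
    rw [vx_succ, vx_append (by omega)]
    rfl
  refine ⟨a, ?_, by simp; omega, e1 ▸ h1, fun i hi1 hi2 => ?_, ?_⟩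
  · rw [List.length_drop] at he
    obtain ⟨x, hx⟩ := hev
    obtain ⟨y, hy⟩ := he
    exact ⟨x - y, by omega⟩
  · rw [e2] at hi2 ⊢
    rw [e3] at hi2
    rcases Nat.lt_or_ge (t.drop a).length i with h6 | h6
    · obtain rfl : i = (t.drop a).length + 1 := by omega
      have s3 := hn_add (en (t.drop a)) (dx up (t.drop a ++ [x]) (t.drop a).length)
      rw [e4, ip_add_left]
      constructor
      · omega
      · omega
    · rw [vx_append (by omega)]
      exact ⟨h2 i hi1 h6, (h3 i h6).le⟩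
  · rw [e2, e3]
    have h6 : (2 : ℤ) ^ l ≤ 64 * ip (vx oo up (t.drop a ++ [x]) ((t.drop a).length + 1)) up := by
      rw [e4, ip_add_left]
      omega
    have h7 : (ip (vx oo up (t.drop a ++ [x]) ((t.drop a).length + 1)) up : ℝ) ≤
        2 * ‖JJ (vx oo up (t.drop a ++ [x]) ((t.drop a).length + 1))‖ := by
      refine le_trans ?_ (NTSF.hn_le_JJ _)
      exact_mod_cast ip_le_hn _ upd'
    have h8 : (2 : ℝ) ^ l ≤ 64 * (ip (vx oo up (t.drop a ++ [x]) ((t.drop a).length + 1)) up : ℝ) := by exact_mod_cast h6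
    linarith

theorem wo_few {ε : ℝ} (hε : 0 < ε) (s : ℕ) : ∃ Mm c1 n0 : ℕ, ∀ k N b : ℕ, n0 ≤ N → TIP.Sc k N → Even N →
    n0 ≤ b → b + Mm + c1 ≤ k →
    (({t | t ∈ SawN (N + 1) ∧ ¬ ∃ l : ℕ, b ≤ l ∧ l ≤ b + Mm ∧ WO l (4 * 2 ^ (l + s)) t}.ncard : ℕ) : ℝ) ≤ ε * cS (N + 1) := by
  classical
  obtain ⟨c, hc, h1⟩ := PWN.smallN (ε / 8) (by positivity)
  obtain ⟨M0, h2⟩ := h1 1 s one_pos
  obtain ⟨s', h3⟩ := h2 (M0 + 1) (by omega)
  obtain ⟨c0, l0, h4⟩ := h3 s' le_rfl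
  obtain ⟨n0, h5⟩ := TIW.EF.ratio_pred
  obtain ⟨M, hM⟩ : ∃ M, M = M0 + 1 := ⟨_, rfl⟩
  rw [← hM] at h4
  refine ⟨M * (s + s'), s + c0, l0 + 8 + n0, fun k N b hN hS hev hb hbk => ?_⟩
  obtain ⟨lv, hlv⟩ : ∃ lv : ℕ → ℕ, ∀ i, lv i = b + i * (s + s') := ⟨_, fun _ => rfl⟩
  have hin : ∀ i, i < M → lv i + s + c0 ≤ k ∧ b ≤ lv i ∧ lv i ≤ b + M * (s + s') ∧ 8 ≤ lv i := by
    intro i hi
    have h6 : i * (s + s') ≤ M * (s + s') := Nat.mul_le_mul_right _ hi.le
    rw [hlv]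
    omega
  have hL : PWN.LvS M lv s s' 1 (fun _ => {[]}) := by
    refine ⟨fun i j hij _ => ?_, fun i _ => chn_nil _, fun i _ => ?_⟩
    · have h6 : (i + 1) * (s + s') ≤ j * (s + s') := Nat.mul_le_mul_right _ hij
      rw [hlv, hlv]
      rw [Nat.add_mul, one_mul] at h6
      omega
    · rw [wD_nil]
  have h6 := h4 k N lv (fun _ => {[]}) hS hL (by rw [hlv]; omega) (fun i hi => (hin i hi).1)
  -- the bad words with N letters
  obtain ⟨B, hB⟩ : ∃ B : Finset (List Bool), B = (sawF N).filter fun t => ∀ i, i < M → PWN.N0 (lv i) (lv i + s) {[]} t = 0 :=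
    ⟨_, rfl⟩
  have hBc : (B.card : ℝ) ≤ ε / 8 * cS N := by
    refine le_trans ?_ h6
    rw [Finset.card_eq_sum_ones, Nat.cast_sum, hB, Finset.sum_filter]
    refine Finset.sum_le_sum fun t _ => ?_
    split_ifs with h7
    · unfold PWN.smI
      rw [if_pos]
      · norm_num
      · unfold SLW.TW.Ta
        rw [Finset.sum_eq_zero]
        · positivity
        · intro j hj
          rw [Finset.mem_Ico] at hj
          rw [h7 j hj.2, zero_div, zero_div]
    · unfold PWN.smI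
      split_ifs <;> norm_num
  have hmem : ∀ t, t ∈ SawN N → t ∉ B → ∃ i, i < M ∧ PWN.N0 (lv i) (lv i + s) {[]} t ≠ 0 := by
    intro t ht htB
    by_contra hcon
    push Not at hcon
    apply htB
    rw [hB, Finset.mem_filter, mem_sawF]
    exact ⟨ht, hcon⟩
  have h7 : {t | t ∈ SawN (N + 1) ∧ ¬ ∃ l : ℕ, b ≤ l ∧ l ≤ b + M * (s + s') ∧ WO l (4 * 2 ^ (l + s)) t} ⊆
      ((B.image fun t => t ++ [true]) ∪ (B.image fun t => t ++ [false]) : Finset (List Bool)) := by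
    rintro t ⟨ht, hno⟩
    have hl := ht.1
    obtain ⟨t', x, rfl⟩ : ∃ (t' : List Bool) (x : Bool), t = t' ++ [x] := by
      rcases List.eq_nil_or_concat t with h8 | ⟨t', x, h8⟩
      · rw [h8] at hl
        simp at hl
      · exact ⟨t', x, by rw [h8, List.concat_eq_append]⟩
    have hl' : t'.length = N := by
      rw [List.length_append, List.length_singleton] at hl
      omega
    have ht' : t' ∈ SawN N := by
      refine ⟨hl', fun i _ hi => Set.mem_univ _, fun i j hij hj => ?_⟩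
      have h8 := ht.2.inj i j hij (by omega)
      rwa [vx_append (by omega), vx_append (by omega)] at h8
    have hB' : t' ∈ B := by
      by_contra hcon
      obtain ⟨i, hi, h8⟩ := hmem t' ht' hcon
      obtain ⟨g1, g2, g3, g4⟩ := hin i hi
      exact hno ⟨lv i, g2, g3, WO_odd g4 (by rw [hl']; exact hev) x h8⟩
    rw [Finset.mem_coe, Finset.mem_union, Finset.mem_image, Finset.mem_image]
    cases x
    · exact Or.inr ⟨t', hB', rfl⟩
    · exact Or.inl ⟨t', hB', rfl⟩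
  have h8 := Set.ncard_le_ncard h7 (Finset.finite_toSet _)
  rw [Set.ncard_coe_finset] at h8
  have h9 : ((B.image fun t => t ++ [true]) ∪ (B.image fun t => t ++ [false])).card ≤ B.card + B.card :=
    (Finset.card_union_le _ _).trans (add_le_add Finset.card_image_le Finset.card_image_le)
  have h10 : ((({t | t ∈ SawN (N + 1) ∧ ¬ ∃ l : ℕ, b ≤ l ∧ l ≤ b + M * (s + s') ∧
      WO l (4 * 2 ^ (l + s)) t}.ncard : ℕ) : ℝ)) ≤ B.card + B.card := by
    exact_mod_cast h8.trans h9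
  have h11 := h5 (N + 1) (by omega)
  have hc1 : (0 : ℝ) < cS (N + 1) := TIW.EF.cp _
  rw [Nat.add_sub_cancel, div_le_iff₀ hc1] at h11
  nlinarith

/-- **row P0, words half** -/
theorem tipU : TipU := by
  classical
  obtain ⟨c0', C0, hc0', hsz, -⟩ := NTSF.finE
  have hC0 : 0 < C0 := by
    have h1 := (hsz 1 le_rfl).2
    have h2 := NTSF.size_pos (n := 1) le_rfl
    rw [Nat.cast_one, Real.one_rpow, mul_one] at h1
    linarith
  obtain ⟨cs, Cs, k1, hcs, hCs, hsc⟩ := HexObs.CRT.size_sc (x1 := 1) (x2 := 2) one_pos one_lt_two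
  refine ⟨1 / 128, by norm_num, fun ε A hε hA => ?_⟩
  obtain ⟨s, hs⟩ := pow_unbounded_of_one_lt (A + 1) (one_lt_two (α := ℝ))
  obtain ⟨Mm, c1, n0, h1⟩ := wo_few hε s
  obtain ⟨n1, hn1⟩ : ∃ n1 : ℕ, n1 = ⌈PW.mZ (2 ^ k1)⌉₊ + n0 + 2 := ⟨_, rfl⟩
  obtain ⟨δ0, hδ0⟩ : ∃ δ0 : ℝ, δ0 = 1 / (Cs * 2 ^ c1) := ⟨_, rfl⟩
  have hδ : 0 < δ0 := by rw [hδ0]; positivity
  obtain ⟨r0, hr0⟩ : ∃ r0 : ℝ, r0 = δ0 * (C0 * n1) + 2 ^ (Mm + n0 + 1) := ⟨_, rfl⟩
  have hr : 0 < r0 := by rw [hr0]; positivity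
  refine ⟨Mm + 1, r0, δ0, hr, hδ, fun n R hodd hR1 hR2 => ?_⟩
  have hRpos : 0 < R := hr.trans_le hR1
  have hn1' : 1 ≤ n := by
    rcases hodd with ⟨m, hm⟩
    omega
  have hn0 : (0 : ℝ) < n := by exact_mod_cast hn1'
  -- n is large
  have hnn : n1 ≤ n := by
    by_contra hcon
    push Not at hcon
    have h2 := (hsz n hn1').2
    have h3 : (n : ℝ) ^ (3 / 4 : ℝ) ≤ n1 := by
      have h4 : (n : ℝ) ^ (3 / 4 : ℝ) ≤ (n : ℝ) ^ (1 : ℝ) :=
        Real.rpow_le_rpow_of_exponent_le (by exact_mod_cast hn1') (by norm_num)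
      rw [Real.rpow_one] at h4
      exact h4.trans (by exact_mod_cast hcon.le)
    have h4 : R ≤ δ0 * (C0 * n1) := by
      refine hR2.trans ?_
      gcongr
      exact h2.trans (by gcongr)
    have h5 : (0 : ℝ) < 2 ^ (Mm + n0 + 1) := by positivity
    linarith
  obtain ⟨N, hN⟩ : ∃ N, n = N + 1 := ⟨n - 1, by omega⟩
  have hev : Even N := by
    rcases hodd with ⟨m, hm⟩
    exact ⟨m, by omega⟩
  have hNz : PW.mZ (2 ^ k1) ≤ N := by
    refine (Nat.le_ceil _).trans ?_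
    exact_mod_cast (by omega : ⌈PW.mZ (2 ^ k1)⌉₊ ≤ N)
  obtain ⟨k, hk, hS⟩ := HexObs.CRT.sc_ex k1 hNz
  obtain ⟨-, hz1, hz2⟩ := hsc k N hk hS n (by
    rw [one_mul]
    exact_mod_cast (by omega : N ≤ n)) (by
    exact_mod_cast (by omega : n ≤ 2 * N))
  -- the level of R
  have h2R : (1 : ℝ) ≤ R := by
    refine le_trans ?_ hR1
    rw [hr0]
    have h5 : (1 : ℝ) ≤ 2 ^ (Mm + n0 + 1) := one_le_pow₀ (by norm_num)
    have h6 : 0 ≤ δ0 * (C0 * n1) := by positivity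
    linarith
  obtain ⟨L, hL1, hL2⟩ : ∃ L : ℕ, (2 : ℝ) ^ L ≤ R ∧ R < 2 ^ (L + 1) := by
    obtain ⟨L, h3⟩ := exists_nat_pow_near h2R one_lt_two
    exact ⟨L, h3⟩
  have hLM : Mm + n0 + 1 ≤ L + 1 := by
    by_contra hcon
    push Not at hcon
    have h3 : (2 : ℝ) ^ (L + 1) ≤ 2 ^ (Mm + n0 + 1) := pow_le_pow_right₀ (by norm_num) (by omega)
    have h6 : 0 ≤ δ0 * (C0 * n1) := by positivity
    rw [hr0] at hR1
    linarith
  obtain ⟨b, hb⟩ : ∃ b, L = b + Mm := ⟨L - Mm, by omega⟩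
  have hbk : b + Mm + c1 ≤ k := by
    by_contra hcon
    push Not at hcon
    have h3 : (2 : ℝ) ^ k < 2 ^ (b + Mm + c1) := pow_lt_pow_right₀ (by norm_num) (by omega)
    have h4 : (2 : ℝ) ^ (b + Mm + c1) ≤ 2 ^ k := by
      rw [pow_add, ← hb]
      have h5 : R ≤ 2 ^ k / 2 ^ c1 := by
        refine hR2.trans ?_
        rw [hδ0, div_mul_eq_mul_div, one_mul, div_le_div_iff₀ (by positivity) (by positivity)]
        nlinarith [show (0 : ℝ) < 2 ^ c1 by positivity]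
      have h6 : (2 : ℝ) ^ L ≤ 2 ^ k / 2 ^ c1 := hL1.trans h5
      rwa [le_div_iff₀ (by positivity)] at h6
    linarith
  have hfew := h1 k N b (by omega) hS hev (by omega) hbk
  rw [← hN] at hfew
  obtain ⟨P, hP⟩ : ∃ P : (Fin n → Fin 3) → Prop, P = fun s => ¬ ∃ (q : Fin 3) (k : ℕ) (D : ℝ), R / 2 ^ (Mm + 1) ≤ D ∧ D ≤ R ∧
    TGt (1 / 128) D (A * D) (rt q s) k := ⟨_, rfl⟩
  have key : ∀ (r : Fin 3) (t : List Bool), t ∈ SawN n → P (rt r (sw n t)) →
      ¬ ∃ l : ℕ, b ≤ l ∧ l ≤ b + Mm ∧ WO l (4 * 2 ^ (l + s)) t := by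
    rintro r t ht hPt ⟨l, hl1, hl2, a, hae, han, hA1, hE, hjd⟩
    rw [hP] at hPt
    apply hPt
    have htl := ht.1
    rw [htl] at han
    have h2l : (1 : ℝ) ≤ 2 ^ l := one_le_pow₀ (by norm_num)
    obtain ⟨c, hc⟩ := gate_word (h := 2 ^ l) (ρ := 2 ^ l) (R := A * 2 ^ l + 1) htl hae han hA1 (fun i h1 h2 => by
      have h3 := hE i h1 h2
      exact ⟨h3.1, by push_cast; exact h3.2⟩) (by push_cast; exact le_rfl) (by
      push_cast
      rw [pow_add]
      nlinarith)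
    refine ⟨c - r, a, 2 ^ l, ?_, ?_, ?_⟩
    · rw [div_le_iff₀ (by positivity), ← pow_add]
      refine hL2.le.trans (pow_le_pow_right₀ (by norm_num) (by omega))
    · refine le_trans (pow_le_pow_right₀ (by norm_num) (by omega)) hL1
    · rw [rt_rt, add_sub_cancel]
      obtain ⟨⟨g1, g2, g3, g4, g5⟩, g6⟩ := hc
      refine ⟨g1, g2, g3, fun i hi hd => g4 i hi ?_, fun j hj hjn => ⟨(g6 j hj hjn).2, (g6 j hj hjn).1⟩, ?_⟩
      · calc ‖pos (rt c (sw n t)) i - (pos (rt c (sw n t)) a + 1 / 2)‖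
            = ‖(pos (rt c (sw n t)) i - pos (rt c (sw n t)) a) - 1 / 2‖ := by ring_nf
          _ ≤ ‖pos (rt c (sw n t)) i - pos (rt c (sw n t)) a‖ + ‖(1 / 2 : ℂ)‖ := norm_sub_le _ _
          _ ≤ A * 2 ^ l + 1 := by rw [Pool.Agent.CRT.R.norm_half]; linarith
      · have h5 : n = a + (t.drop a).length := by rw [List.length_drop]; omega
        have h6 := gate_disp htl han.le le_rfl c
        rw [← h5] at h6
        rw [h6]
        linarith
  -- counting
  have b2 : (((saw n).filter P).card : ℝ) ≤ ε * ((saw n).card : ℝ) := by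
    have hc0 : (0 : ℝ) < (saw n).card := by exact_mod_cast (NTSF.saw_nonempty n).card_pos
    rw [← div_le_iff₀ hc0, pub_eq (by omega) P]
    have h2 : ∀ r : Fin 3, TOG.Pn n {t | P (rt r (sw n t))} ≤ ε := by
      intro r
      unfold TOG.Pn
      rw [div_le_iff₀ (TIW.EF.cp n)]
      refine le_trans ?_ hfew
      have h3 : ({t | t ∈ SawN n ∧ t ∈ {t | P (rt r (sw n t))}}).ncard ≤
          {t | t ∈ SawN n ∧ ¬ ∃ l : ℕ, b ≤ l ∧ l ≤ b + Mm ∧ WO l (4 * 2 ^ (l + s)) t}.ncard := by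
        refine Set.ncard_le_ncard ?_ ((SawN_finite n).subset fun t ht => ht.1)
        rintro t ⟨h4, h5⟩
        exact ⟨h4, key r t h4 h5⟩
      exact_mod_cast h3
    rw [Fin.sum_univ_three, div_le_iff₀ (by norm_num)]
    have := h2 0
    have := h2 1
    have := h2 2
    linarith
  refine le_trans (le_of_eq ?_) b2
  rw [hP]
  congr!

end Pool.Agent.SCF.Z
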