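import Pool.Agent.SCF.P0B
import Pool.Agent.SCF.TipUB

/-!
# ScaleFlow (R-), row P0 (helpers 5, 16, 29): `p0 : P0`, no hypothesis
-/

set_option autoImplicit false

namespace Pool.Agent.SCF.Z

/-- **row P0** -/
theorem p0 : P0 := p0_of tipU

end Pool.Agent.SCF.Z
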