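import Pool.Agent.SCF.PosW
import Pool.Agent.NTA.FinXAll

/-!
# ScaleFlow, row POS, part 2 (helper87): `posB : PosB`, the mass of the middle pieces with a number of steps in a given window
-/

set_option autoImplicit false

open Set Filter Topology

namespace Pool.Agent.SCF.Z

open Pool.Agent.NTS.Res

open HexObs hiding pos curve

open HexObs.TS HexObs.SDN HexObs.ARM

open NTF (sw JJ)

open NTSF (pos_zero pos_succ mem_saw pos_sw)

/-- different words give different walks -/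
lemma sw_inj' {m : ℕ} (hm : 0 < m) {W W' : List Bool} (hW : W ∈ BU) (hW' : W' ∈ BU) (hl : W.length = m) (hl' : W'.length = m)
    (h : sw m W = sw m W') : W = W' := by
  refine NTSF.sw_inj hl hl' h ?_
  have h1 : dx up W (m - 1) = dx up W' (m - 1) := by
    rw [← NTSF.step_sw' m W (m - 1) (by omega), ← NTSF.step_sw' m W' (m - 1) (by omega), h]
  have h2 : dx up W m = up := by
    have := (AR.BU_facts hW).2.1
    rw [← hl]
    exact this
  have h3 : dx up W' m = up := by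
    have := (AR.BU_facts hW').2.1
    rw [← hl']
    exact this
  have e : m = (m - 1) + 1 := by omega
  rw [e, dx_succ, h1] at h2
  rw [e, dx_succ] at h3
  have hturn : ∀ d ∈ dirs, ∀ b b' : Bool, turn b d = turn b' d → b = b' := by decide
  exact hturn _ (dx_mem upd W' (m - 1)) _ _ (h2.trans h3.symm)

/-- **the mass of the words with m letters** -/
lemma gf_bw {m m0 : ℕ} {h L' : ℝ} (hm0 : 1 ≤ m0) (h1 : h ≤ 3 / 2 * m0) (h2 : 3 / 2 * (m0 : ℝ) < h + 3 / 2) {R : ℤ}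
    (hR : (R : ℝ) ≤ L') :
    gf {W | (W ∈ TIP.FP m0 ∧ ∀ i, i ≤ W.length → TIW.hn (vx oo up W i) ≤ R) ∧ W.length = m} ≤ ENNReal.ofReal (bw h L' m) := by
  classical
  obtain ⟨B, hB⟩ : ∃ B, B = {W : List Bool | (W ∈ TIP.FP m0 ∧ ∀ i, i ≤ W.length → TIW.hn (vx oo up W i) ≤ R) ∧ W.length = m} :=
    ⟨_, rfl⟩
  rw [← hB]
  have hlen : ∀ t ∈ B, t.length = m := by
    intro t ht
    rw [hB] at ht
    exact ht.2
  rw [NTF.gf_card hlen]
  have hgb : ∀ t ∈ B, GB h L' (sw m t) 0 m := by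
    intro t ht
    rw [hB] at ht
    obtain ⟨⟨t1, t2⟩, t3⟩ := ht
    have h3 := gb_of t1 hm0 h1 h2 (L' := L') fun i hi => by
      have h4 : ((TIW.hn (vx oo up t i) : ℤ) : ℝ) ≤ R := by exact_mod_cast t2 i hi
      linarith
    rw [t3] at h3
    exact h3
  have hcard : B.ncard ≤ ((saw m).filter fun s => GB h L' s 0 m).card := by
    rw [← Set.ncard_coe_finset]
    refine Set.ncard_le_ncard_of_injOn (sw m) ?_ ?_ (Finset.finite_toSet _)
    · intro t ht
      rw [Finset.mem_coe, Finset.mem_filter]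
      refine ⟨NTSF.sw_mem ⟨hlen t ht, ?_⟩, hgb t ht⟩
      rw [hB] at ht
      exact (AR.BU_facts ht.1.1.1).1
    · intro t ht t' ht' he
      have hm : 0 < m := (hgb t ht).1
      have l1 := hlen t ht
      have l2 := hlen t' ht'
      rw [hB] at ht ht'
      exact sw_inj' hm ht.1.1.1 ht'.1.1.1 l1 l2 he
  unfold bw
  rw [ENNReal.ofReal_mul (Nat.cast_nonneg _), ENNReal.ofReal_natCast, NTSF.fug_eq]
  refine mul_le_mul' ?_ le_rfl
  exact_mod_cast hcard

/-- the sum over the numbers of letters -/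
lemma gf_len {S : Set (List Bool)} (F : Finset ℕ) (h : ∀ W ∈ S, W.length ∈ F) :
    gf S ≤ ∑ m ∈ F, gf {W | W ∈ S ∧ W.length = m} := by
  refine (gf_mono (Q := ⋃ m ∈ F, {W | W ∈ S ∧ W.length = m}) fun W hW => ?_).trans ?_
  · simp only [Set.mem_iUnion, exists_prop]
    exact ⟨W.length, h W hW, hW, rfl⟩
  · unfold gf
    exact ENNReal.tsum_biUnion_le wE _ _

lemma bw_nonneg (h L' : ℝ) (m : ℕ) : 0 ≤ bw h L' m := by
  unfold bw
  have h1 : (0 : ℝ) ≤ fug := by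
    unfold fug
    positivity
  positivity

/-- **row POS** -/
theorem posB : PosB := by
  intro L x1 x2 hL hx1 hx12 hx2
  obtain ⟨c, C, hc, hsz, -⟩ := NTSF.finE
  have hC : 0 < C := by
    have h1 := hsz 1 le_rfl
    have h2 : c * ((1 : ℕ) : ℝ) ^ (3 / 4 : ℝ) ≤ C * ((1 : ℕ) : ℝ) ^ (3 / 4 : ℝ) := h1.1.trans h1.2
    rw [Nat.cast_one, Real.one_rpow, mul_one, mul_one] at h2
    linarith
  obtain ⟨A, hA⟩ : ∃ A : ℝ, A = 2 * (2 / (L * c)) ^ (4 / 3 : ℝ) := ⟨_, rfl⟩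
  obtain ⟨e, he⟩ : ∃ e : ℝ, e = (x2 - x1) / (2 * (L * C) ^ (4 / 3 : ℝ)) := ⟨_, rfl⟩
  have hLc : 0 < L * c := by positivity
  have hLC : 0 < L * C := by positivity
  have hA0 : 0 < A := by
    rw [hA]
    positivity
  have hx : 0 < x2 - x1 := by linarith
  have he0 : 0 < e := by
    rw [he]
    positivity
  obtain ⟨c', k0, hc', hlong⟩ := HexObs.SCF.longD (1 / 48) e A (by norm_num) he0 hA0
  obtain ⟨K0, hK0⟩ : ∃ K0 : ℕ, K0 = max k0 6 := ⟨_, rfl⟩
  have htend : Tendsto (fun n : ℕ => (n : ℝ) ^ (3 / 4 : ℝ)) atTop atTop :=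
    (tendsto_rpow_atTop (by norm_num : (0 : ℝ) < 3 / 4)).comp tendsto_natCast_atTop_atTop
  obtain ⟨n1, hn1⟩ := eventually_atTop.1 (htend.eventually_ge_atTop ((2 : ℝ) ^ (K0 + 1) / (L * c)))
  obtain ⟨n2, hn2⟩ := exists_nat_ge (2 / (x2 - x1))
  refine ⟨c', max (max n1 n2) 1, hc', fun n hn h L' hh1 hh2 hL' => ?_⟩
  have hn11 : n1 ≤ n := (le_max_left _ _).trans ((le_max_left _ _).trans hn)
  have hn22 : n2 ≤ n := (le_max_right _ _).trans ((le_max_left _ _).trans hn)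
  have hn0 : 1 ≤ n := (le_max_right _ _).trans hn
  have hnR : (1 : ℝ) ≤ n := by exact_mod_cast hn0
  obtain ⟨s1, s2⟩ := hsz n hn0
  have hnp : (0 : ℝ) < (n : ℝ) ^ (3 / 4 : ℝ) := by positivity
  obtain ⟨y, hy⟩ : ∃ y : ℝ, y = L * size n := ⟨_, rfl⟩
  have hy1 : (2 : ℝ) ^ (K0 + 1) ≤ y := by
    have h1 := hn1 n hn11
    rw [div_le_iff₀ hLc] at h1
    rw [hy]
    nlinarith
  have hp1 : (1 : ℝ) ≤ 2 ^ (K0 + 1) := one_le_pow₀ (by norm_num)
  obtain ⟨k, hk1, hk2⟩ := exists_nat_pow_near (hp1.trans hy1) (by norm_num : (1 : ℝ) < 2)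
  have hkK : K0 ≤ k := by
    by_contra hcon
    push Not at hcon
    have h1 : (2 : ℝ) ^ (k + 1) ≤ 2 ^ (K0 + 1) := pow_le_pow_right₀ (by norm_num) (by omega)
    linarith
  have hk0 : k0 ≤ k := (le_max_left _ _).trans (hK0 ▸ hkK)
  have hk6 : 6 ≤ k := (le_max_right _ _).trans (hK0 ▸ hkK)
  have h64 : (64 : ℝ) ≤ 2 ^ k := by
    have h1 : (2 : ℝ) ^ 6 ≤ 2 ^ k := pow_le_pow_right₀ (by norm_num) hk6
    linarith
  have hy0 : 0 < y := by linarith
  have hpk : (2 : ℝ) ^ (k + 1) = 2 * 2 ^ k := by ring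
  rw [hpk] at hk2
  have hml : ml k = ((2 : ℝ) ^ k) ^ (4 / 3 : ℝ) := by
    unfold ml
    rw [← Real.rpow_natCast, ← Real.rpow_mul (by norm_num)]
    congr 1
    ring
  have hmk : 0 < ml k := by
    unfold ml
    positivity
  have hn34 : ((n : ℝ) ^ (3 / 4 : ℝ)) ^ (4 / 3 : ℝ) = n := by
    rw [← Real.rpow_mul (by positivity)]
    norm_num
  -- the number of steps against the scale
  have hnA : 2 * (n : ℝ) ≤ A * ml k := by
    have h1 : (n : ℝ) ^ (3 / 4 : ℝ) ≤ 2 / (L * c) * 2 ^ k := by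
      rw [div_mul_eq_mul_div, le_div_iff₀ hLc]
      nlinarith
    have h2 := Real.rpow_le_rpow hnp.le h1 (by norm_num : (0 : ℝ) ≤ 4 / 3)
    rw [hn34, Real.mul_rpow (by positivity) (by positivity), ← hml] at h2
    rw [hA]
    linarith
  have hne : e * ml k ≤ (x2 - x1) * n / 2 := by
    have h1 : (2 : ℝ) ^ k ≤ (L * C) * (n : ℝ) ^ (3 / 4 : ℝ) := by
      have h3 : L * size n ≤ L * (C * (n : ℝ) ^ (3 / 4 : ℝ)) := mul_le_mul_of_nonneg_left s2 hL.le
      rw [← hy] at h3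
      linarith
    have h2 := Real.rpow_le_rpow (by positivity) h1 (by norm_num : (0 : ℝ) ≤ 4 / 3)
    rw [← hml, Real.mul_rpow hLC.le hnp.le, hn34] at h2
    have hq : (0 : ℝ) < (L * C) ^ (4 / 3 : ℝ) := by positivity
    calc e * ml k ≤ e * ((L * C) ^ (4 / 3 : ℝ) * n) := mul_le_mul_of_nonneg_left h2 he0.le
      _ = (x2 - x1) * n / 2 := by
        rw [he]
        field_simp
  have hxn : 2 ≤ (x2 - x1) * n := by
    have h1 : 2 / (x2 - x1) ≤ n := hn2.trans (by exact_mod_cast hn22)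
    rw [div_le_iff₀ hx] at h1
    linarith
  -- the parameters
  rw [← hy] at hh1 hh2 hL'
  obtain ⟨b, hb⟩ : ∃ b : ℕ, b = ⌈x1 * n⌉₊ := ⟨_, rfl⟩
  obtain ⟨m0, hm0⟩ : ∃ m0 : ℕ, m0 = ⌈2 * h / 3⌉₊ := ⟨_, rfl⟩
  have hh0 : 0 < h := by
    have : 0 < y / 32 := by positivity
    linarith
  have hb1 : x1 * n ≤ b := by
    rw [hb]
    exact Nat.le_ceil _
  have hb2 : (b : ℝ) < x1 * n + 1 := by
    rw [hb]
    exact Nat.ceil_lt_add_one (by positivity)
  have hm1 : 2 * h / 3 ≤ m0 := by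
    rw [hm0]
    exact Nat.le_ceil _
  have hm2 : (m0 : ℝ) < 2 * h / 3 + 1 := by
    rw [hm0]
    exact Nat.ceil_lt_add_one (by positivity)
  have hm00 : 1 ≤ m0 := by
    rw [hm0]
    exact Nat.one_le_iff_ne_zero.2 (Nat.ceil_pos.2 (by positivity)).ne'
  have hbA : (b : ℝ) ≤ A * ml k := by
    have h1 : x1 * n ≤ 1 * n := mul_le_mul_of_nonneg_right (by linarith) (by positivity)
    linarith
  have hη : 1 / 48 * (2 : ℝ) ^ k ≤ m0 := by linarith
  have h10 : 10 * m0 ≤ 2 ^ k := by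
    have h1 : 10 * (m0 : ℝ) ≤ 2 ^ k := by linarith
    exact_mod_cast h1
  have key := hlong k b m0 hk0 hbA hη h10
  obtain ⟨F, hF⟩ : ∃ F : Finset ℕ, F = (Finset.range (n + 1)).filter (fun m : ℕ => x1 * n ≤ m ∧ (m : ℝ) ≤ x2 * n) := ⟨_, rfl⟩
  rw [← hF]
  have h1 : ENNReal.ofReal c' ≤ ENNReal.ofReal (∑ m ∈ F, bw h L' m) := by
    rw [ENNReal.ofReal_sum_of_nonneg fun m _ => bw_nonneg h L' m]
    refine key.trans ((gf_len F ?_).trans (Finset.sum_le_sum fun m _ => ?_))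
    · rintro W ⟨-, w1, w2, -⟩
      have w3 : (b : ℝ) ≤ W.length := by exact_mod_cast w1
      have w4 : (W.length : ℝ) ≤ x2 * n := by linarith
      rw [hF, Finset.mem_filter, Finset.mem_range]
      refine ⟨?_, by linarith, w4⟩
      have w5 : (W.length : ℝ) ≤ n := by
        have : x2 * n ≤ 1 * n := mul_le_mul_of_nonneg_right hx2.le (by positivity)
        linarith
      have w6 : W.length ≤ n := by exact_mod_cast w5
      omega
    · refine (gf_mono ?_).trans (gf_bw (m := m) (m0 := m0) (h := h) (L' := L') hm00 (by linarith) (by linarith)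
        (R := 2 ^ k) ?_)
      · rintro W ⟨⟨w1, -, -, w2⟩, w3⟩
        exact ⟨⟨w1, w2⟩, w3⟩
      · push_cast
        linarith
  exact (ENNReal.ofReal_le_ofReal_iff (Finset.sum_nonneg fun m _ => bw_nonneg h L' m)).1 h1

end Pool.Agent.SCF.Z
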