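import Pool.Agent.SCF.Fin2
import Pool.Agent.SCF.Del
import Pool.Agent.SCF.Ind
import Pool.Agent.SCF.FarZ
import Pool.Agent.SCF.P0Z
import Pool.Agent.SCF.PosB
import Pool.Agent.SCF.MacT

/-!
# ScaleFlow (R-), the core without hypothesis (helper15)

`core : Core lam` for `0 < lam < 1`.
-/

set_option autoImplicit false

namespace Pool.Agent.SCF

open Pool.Agent.SCF.Z

/-- **the core** -/
theorem core (lam : ℝ) (h0 : 0 < lam) (h1 : lam < 1) : Core lam :=
  core_of' del_all M.macT1 (ind_of far1) far1 p0 posB h0 h1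

/-- **the limits along `⌊lam φ⌋`** -/
theorem scX1 : ScX1 := scX1_of_core core

end Pool.Agent.SCF
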