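import Pool.Agent.SCF.StbLZ

/-!
# ROT, block F3: local stability of the start cuts, every ratio of the units (helper66)

* **`stbLU : StbLU`** : `StbLP` for every `K0` (the unit `S` in `[size n / K0, size n]`).
-/

set_option autoImplicit false

open Set Filter Topology MeasureTheory

namespace Pool.Agent.SCF.M

open Pool.Agent.NTS.Res
open Pool.Agent.SCF.Z
open Pool.Agent.CRT.R (WC Slb slab)
open Pool.Agent.CRT.V.VC (pr pr_mono pr_or pr_of_card pr_nonneg)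
open Pool.Agent.SCF.K (IsoR isoN BadN)

/-- **local stability of the start cuts, absolute units, every `K0`** -/
def StbLU : Prop := ∀ R K0 K1 κ θ ε : ℝ, 0 < R → 1 ≤ K0 → 1 ≤ K1 → 0 < κ → κ < 1 → 0 < θ → 0 < ε →
  ∃ (δ : ℝ) (n0 : ℕ) (Bad : ∀ n : ℕ, (Fin n → Fin 3) → Prop), 0 < δ ∧
    (∀ n : ℕ, n0 ≤ n → pr n (fun s => Bad n s ∧ 0 < zc κ (1000 * R) (curve s)) ≤ ε) ∧
    ∀ (n n' : ℕ) (s : Fin n → Fin 3) (s' : Fin n' → Fin 3) (S N r0 : ℝ) (i0 i0' L : ℕ), n0 ≤ n → n0 ≤ n' →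
      ¬ Bad n s → ¬ Bad n' s' → size n / K0 ≤ S → S ≤ size n → size n' / K0 ≤ S → S ≤ size n' → (n : ℝ) ≤ K1 * N →
      (n' : ℝ) ≤ K1 * N → 0 ≤ r0 → r0 ≤ 4 * R →
      LC (r0 * S) (δ * S) (500 * R * S) i0 i0' L s s' → StbA R θ r0 S N i0 i0' s s'

/-- the bad event -/
def BddU (R θ β b K0 E0 T0 E1 T1 E2 T2 : ℝ) (J : ℕ) (n : ℕ) (s : Fin n → Fin 3) : Prop :=
  Slb (b / K0 * size n) (2 * E0 * size n) s ∨ ¬ Tms θ b s ∨
    BadK (5 * R * size n) (30 * R / K0 * size n) (R / (50 * K0) * size n) (3 * b * size n) (T1 / (4 * K0) * size n)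
      (T2 / (4 * K0) * size n) (E2 * size n) s ∨
    (∃ j : ℕ, j < J ∧ IsoG R (β / (4 * K0)) (E0 / K0) T0 j n s) ∨ (∃ j : ℕ, j < J ∧ IsoG R (β / (4 * K0)) (E1 / K0) T1 j n s) ∨
    ∃ j : ℕ, j < J ∧ IsoG R (β / (4 * K0)) (E2 / K0) T2 j n s

/-- **good walks with locally close positions are stable** -/
theorem stbU_good {n n' : ℕ} (hn : 1 ≤ n) (hn' : 1 ≤ n') {s : Fin n → Fin 3} {s' : Fin n' → Fin 3}
    {δ η R θ β b K0 K1 E0 T0 E1 T1 E2 T2 S N r0 : ℝ} {J i0 i0' L : ℕ} (hR : 0 < R) (hK0 : 30 ≤ K0) (hK1 : 0 < K1)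
    (hθ0 : 0 ≤ θ) (h1 : δ * S + 1 ≤ η * S) (hη1 : 8 * η ≤ T1) (hη2 : 4 * η ≤ T2) (hηb : η ≤ b) (hθ : 20 * β ≤ θ)
    (hβR : 100 * β ≤ R) (hb : 2 * b ≤ β) (hbK : K0 * b ≤ 3 * R) (hJ : 130 * R < J * (β / (4 * K0))) (hE0 : 0 ≤ E0) (hE20 : 0 ≤ E2)
    (hE2 : 2 * E2 ≤ T1) (hE1 : 2 * E1 ≤ T0) (hE10 : 0 ≤ E1) (hT2 : 0 < T2)
    (hS1 : size n / K0 ≤ S) (hS2 : S ≤ size n) (hS1' : size n' / K0 ≤ S) (hS2' : S ≤ size n') (hN : (n : ℝ) ≤ K1 * N)
    (hr0 : 0 ≤ r0) (hr0R : r0 ≤ 4 * R)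
    (hg : ¬ BddU R (θ / K1) β b K0 E0 T0 E1 T1 E2 T2 J n s) (hg' : ¬ BddU R (θ / K1) β b K0 E0 T0 E1 T1 E2 T2 J n' s')
    (hC : LC (r0 * S) (δ * S) (500 * R * S) i0 i0' L s s') : StbA R θ r0 S N i0 i0' s s' := by
  have hK : (0 : ℝ) < K0 := by linarith
  have hK01 : 1 ≤ K0 := by linarith
  have hs := NTSF.size_pos hn
  have hs' := NTSF.size_pos hn'
  have hS : 0 < S := lt_of_lt_of_le (by positivity) hS1
  have hδ0 : 0 ≤ δ * S := (norm_nonneg _).trans (hC.cl 0 (Nat.zero_le _))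
  have hηS : 1 ≤ η * S := by linarith
  have hη0 : 0 < η := by
    by_contra hc
    have : η * S ≤ 0 := mul_nonpos_of_nonpos_of_nonneg (not_lt.1 hc) hS.le
    linarith
  have hb0 : 0 < b := by linarith
  have hβ0 : 0 < β := by linarith
  have hbS : η * S ≤ b * S := mul_le_mul_of_nonneg_right hηb hS.le
  have hβS : 2 * b * S ≤ β * S := mul_le_mul_of_nonneg_right hb hS.le
  have hnK : size n ≤ K0 * S := by
    rw [div_le_iff₀ hK] at hS1
    linarith
  have hnK' : size n' ≤ K0 * S := by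
    rw [div_le_iff₀ hK] at hS1'
    linarith
  unfold BddU at hg hg'
  push Not at hg hg'
  obtain ⟨g1, g2, -, g4, g5, g6⟩ := hg
  obtain ⟨-, -, g3, -, -, -⟩ := hg'
  have hT0 : 0 ≤ T0 := by linarith
  have hT1 : 0 ≤ T1 := by linarith
  have n4 := ni_unit hs hS hR hβ0 hβR hK01 hS1 hS2 hE0 hT0 hJ g4
  have n5 := ni_unit hs hS hR hβ0 hβR hK01 hS1 hS2 hE10 hT1 hJ g5
  have n6 := ni_unit hs hS hR hβ0 hβR hK01 hS1 hS2 hE20 hT2.le hJ g6
  refine stbA_of (η := η) (d := 4 * β) (ρB := 30 * R) (ρ2 := 15 * R / K0) (dd := 8 * R) (G := T1 / 2) (T := T2) (W := E2) (b := b)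
    (K := 5 * R) hS hR hC h1 (by linarith) hη2 hηb (by linarith) (by
      rw [le_div_iff₀ hK]
      linarith) (by linarith) (by linarith) (by linarith)
    (by linarith) rfl hr0 hr0R (by linarith) ?_ ?_ ?_
  · intro ρ c hρ hρ' hc hQ
    obtain ⟨x0, x1, x2, x3, F, f1, f2, f3⟩ := fourS (Q' := 5 * R) hS hβ0 (by linarith) hb0 (by linarith)
      (by linarith) (by linarith) hT2 hE2 hE1 (by linarith) n4 n5 n6 (fun i j h3 h4 h5 => by
        by_contra hcon
        refine g1 ⟨i, j, h3, h4, fun l h6 h7 => (h5 l h6 h7).trans (mul_le_mul_of_nonneg_left hS2 (by linarith)), ?_⟩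
        refine le_trans ?_ (not_lt.1 hcon)
        rw [div_mul_eq_mul_div, div_le_iff₀ hK]
        calc b * size n ≤ b * (K0 * S) := mul_le_mul_of_nonneg_left hnK hb0.le
          _ = b * S * K0 := by ring) hρ hρ' hc hQ
    have hG : T1 / 2 * S ≤ (T1 - E2) * S := mul_le_mul_of_nonneg_right (by linarith) hS.le
    exact ⟨x0, x1, x2, x3, ⟨F.h01, F.h12, F.h23, F.c0, F.c1, F.c2, F.c3, by linarith [F.g01], F.g12, F.w12,
      by linarith [F.g23], F.near⟩, f1, f2, f3⟩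
  · intro i j h3 h4 h5
    have h6 := g2 i j h3 h4 fun l l1 l2 => (h5 l l1 l2).trans (mul_le_mul_of_nonneg_left hS2 hb0.le)
    refine h6.trans ?_
    calc θ / K1 * n ≤ θ / K1 * (K1 * N) := mul_le_mul_of_nonneg_left hN (by positivity)
      _ = θ * N := by field_simp
  · intro hc
    refine g3 (hc.k (mul_le_mul_of_nonneg_left hS2' (by positivity)) ?_ ?_ ?_ ?_ ?_ ?_ ?_ (mul_le_mul_of_nonneg_left hS2' hE20))
    · have e : 30 * R / K0 * size n' = 30 * R * size n' / K0 := by ring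
      rw [e, div_le_iff₀ hK]
      calc 30 * R * size n' ≤ 30 * R * (K0 * S) := mul_le_mul_of_nonneg_left hnK' (by positivity)
        _ = 30 * R * S * K0 := by ring
    · have e : 15 * R / K0 * S = 30 * R / K0 * S / 2 := by ring
      rw [e]
      have := mul_le_mul_of_nonneg_left hS2' (show 0 ≤ 30 * R / K0 by positivity)
      linarith
    · have e : 30 * R / K0 * size n' / 4 = 15 / 2 * R * size n' / K0 := by ring
      rw [e, div_le_iff₀ hK]
      have := mul_le_mul_of_nonneg_left hnK' (show 0 ≤ 15 / 2 * R by positivity)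
      have h8 : 0 ≤ R * (K0 * S) := by positivity
      linarith
    · have e : R / (50 * K0) * size n' = R * size n' / (50 * K0) := by ring
      rw [e, div_le_iff₀ (by positivity)]
      have := mul_le_mul_of_nonneg_left hnK' hR.le
      linarith
    · have := mul_le_mul_of_nonneg_left hS2' hb0.le
      linarith
    · have e : T1 / (4 * K0) * size n' = T1 * size n' / (4 * K0) := by ring
      rw [e, div_le_iff₀ (by positivity)]
      have := mul_le_mul_of_nonneg_left hnK' hT1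
      linarith
    · have e : T2 / (4 * K0) * size n' = T2 * size n' / (4 * K0) := by ring
      rw [e, div_le_iff₀ (by positivity)]
      have := mul_le_mul_of_nonneg_left hnK' hT2.le
      linarith

/-- **the stability outside of events of a small probability**, every `K0` -/
theorem stbLU_of (hBN : BadN) : StbLU := by
  intro R K00 K1 κ θ ε hR hK00 hK1 hκ hκ1 hθ hε
  obtain ⟨K0, hK0', hK0⟩ : ∃ K0 : ℝ, K00 ≤ K0 ∧ 30 ≤ K0 := ⟨max K00 30, le_max_left _ _, le_max_right _ _⟩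
  have hK : (0 : ℝ) < K0 := by linarith
  have hK1' : (0 : ℝ) < K1 := by linarith
  -- the displacements
  obtain ⟨β, hβ⟩ : ∃ β : ℝ, β = min (θ / 20) (R / 100) := ⟨_, rfl⟩
  have hβ0 : 0 < β := by rw [hβ]; positivity
  have hβθ : 20 * β ≤ θ := by
    have : β ≤ θ / 20 := by rw [hβ]; exact min_le_left _ _
    linarith
  have hβR : 100 * β ≤ R := by
    have : β ≤ R / 100 := by rw [hβ]; exact min_le_right _ _
    linarith
  obtain ⟨τ, hτ, N1, hN1⟩ := tmP (ε / 8) (θ / K1) (by positivity) (by positivity)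
  obtain ⟨e0, he0, hBN1⟩ := hBN (ε / 8) κ (1000 * R) (5 * R) (30 * R / K0) (R / (50 * K0)) (by positivity) hκ hκ1
    (by positivity) (by positivity) (by positivity) (by
      have e : 16 * (R / (50 * K0)) = 16 / 50 * R / K0 := by ring
      rw [e]
      exact div_le_div_of_nonneg_right (by linarith) hK.le) (by
      have h1 : 30 * R / K0 ≤ R := by
        rw [div_le_iff₀ hK]
        nlinarith
      linarith)
  obtain ⟨b, hb⟩ : ∃ b : ℝ, b = min (β / 2) (min τ (min (e0 / 3) (3 * R / K0))) := ⟨_, rfl⟩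
  have hb0 : 0 < b := by rw [hb]; positivity
  have hbK : K0 * b ≤ 3 * R := by
    have h1 : b ≤ 3 * R / K0 := by rw [hb]; exact (min_le_right _ _).trans ((min_le_right _ _).trans (min_le_right _ _))
    rw [le_div_iff₀ hK] at h1
    linarith
  have hbβ : 2 * b ≤ β := by
    have : b ≤ β / 2 := by rw [hb]; exact min_le_left _ _
    linarith
  have hbτ : b ≤ τ := by rw [hb]; exact (min_le_right _ _).trans (min_le_left _ _)
  have hbe : 3 * b ≤ e0 := by
    have : b ≤ e0 / 3 := by rw [hb]; exact (min_le_right _ _).trans ((min_le_right _ _).trans (min_le_left _ _))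
    linarith
  have hβ4 : 0 < β / (4 * K0) := by positivity
  obtain ⟨J, hJ⟩ := exists_nat_gt (130 * R / (β / (4 * K0)))
  have hJb : 130 * R < J * (β / (4 * K0)) := by rwa [div_lt_iff₀ hβ4] at hJ
  -- the slab
  obtain ⟨σ, hσ, N2, hN2⟩ := slab (ε := ε / 8) (b := b / K0) (by positivity) (by positivity)
  -- the levels
  obtain ⟨E0, hE0⟩ : ∃ E0 : ℝ, E0 = σ / 2 := ⟨_, rfl⟩
  have hE0p : 0 < E0 := by rw [hE0]; positivity
  obtain ⟨T0, hT0, -, N3, hN3⟩ := iso_allG hκ hκ1 hR hβ4 J (e := E0 / K0) (by positivity) (ε := ε / 8) (t0 := 1)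
    (by positivity) one_pos
  obtain ⟨E1, hE1⟩ : ∃ E1 : ℝ, E1 = T0 / 2 := ⟨_, rfl⟩
  have hE1p : 0 < E1 := by rw [hE1]; positivity
  obtain ⟨T1, hT1, hT1b, N4, hN4⟩ := iso_allG hκ hκ1 hR hβ4 J (e := E1 / K0) (by positivity) (ε := ε / 8) (t0 := b)
    (by positivity) hb0
  obtain ⟨w0, hw0, hBN2⟩ := hBN1 (T1 / (4 * K0)) (3 * b) (by positivity) (by
    rw [div_le_iff₀ (by positivity)]
    nlinarith) hbe
  obtain ⟨E2, hE2⟩ : ∃ E2 : ℝ, E2 = min (T1 / 2) w0 := ⟨_, rfl⟩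
  have hE2p : 0 < E2 := by rw [hE2]; positivity
  have hE2T : 2 * E2 ≤ T1 := by
    have : E2 ≤ T1 / 2 := by rw [hE2]; exact min_le_left _ _
    linarith
  have hE2w : E2 ≤ w0 := by rw [hE2]; exact min_le_right _ _
  obtain ⟨T2, hT2, hT2E, N5, hN5⟩ := iso_allG hκ hκ1 hR hβ4 J (e := E2 / K0) (by positivity) (ε := ε / 8) (t0 := E2)
    (by positivity) hE2p
  obtain ⟨N6, hN6⟩ := hBN2 (T2 / (4 * K0)) E2 (by positivity) (by
    rw [div_le_iff₀ (by positivity)]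
    nlinarith) hE2w
  -- the distance
  obtain ⟨η, hη⟩ : ∃ η : ℝ, η = min (min (T1 / 8) (T2 / 4)) b := ⟨_, rfl⟩
  have hη0 : 0 < η := by rw [hη]; positivity
  have hη1 : 8 * η ≤ T1 := by
    have : η ≤ T1 / 8 := by rw [hη]; exact (min_le_left _ _).trans (min_le_left _ _)
    linarith
  have hη2 : 4 * η ≤ T2 := by
    have : η ≤ T2 / 4 := by rw [hη]; exact (min_le_left _ _).trans (min_le_right _ _)
    linarith
  have hηb : η ≤ b := by rw [hη]; exact min_le_right _ _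
  obtain ⟨N7, hN7⟩ := Pool.Agent.SCF.K.size_big (η := η) hη0 (2 * K0)
  obtain ⟨n0, hn0⟩ : ∃ n0 : ℕ, n0 = N1 + N2 + N3 + N4 + N5 + N6 + N7 + 1 := ⟨_, rfl⟩
  refine ⟨η / 2, n0, BddU R (θ / K1) β b K0 E0 T0 E1 T1 E2 T2 J, by positivity, fun n hn => ?_, ?_⟩
  · have c1 : pr n (fun s => ¬ Tms (θ / K1) b s) ≤ ε / 8 :=
      (pr_mono fun s _ hs => fun h => hs (h.mono le_rfl hbτ)).trans (hN1 n (by omega))
    have c2 : pr n (fun s => Slb (b / K0 * size n) (2 * E0 * size n) s) ≤ ε / 8 := by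
      refine pr_of_card ?_
      have h3 := hN2 n (by omega)
      rw [show 2 * E0 = σ by rw [hE0]; ring]
      exact h3
    have c3 := hN3 n (by omega)
    have c4 := hN4 n (by omega)
    have c5 := hN5 n (by omega)
    have c6 := hN6 n (by omega)
    have d1 : pr n (fun s => BddU R (θ / K1) β b K0 E0 T0 E1 T1 E2 T2 J n s ∧ 0 < zc κ (1000 * R) (curve s)) ≤
        pr n (fun s => Slb (b / K0 * size n) (2 * E0 * size n) s) + (pr n (fun s => ¬ Tms (θ / K1) b s) +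
        (pr n (fun s => BadK (5 * R * size n) (30 * R / K0 * size n) (R / (50 * K0) * size n) (3 * b * size n) (T1 / (4 * K0) * size n)
          (T2 / (4 * K0) * size n) (E2 * size n) s ∧ 0 < zc κ (1000 * R) (curve s)) +
        (pr n (fun s => ∃ j : ℕ, j < J ∧ IsoG R (β / (4 * K0)) (E0 / K0) T0 j n s ∧ 0 < zc κ (1000 * R) (curve s)) +
        (pr n (fun s => ∃ j : ℕ, j < J ∧ IsoG R (β / (4 * K0)) (E1 / K0) T1 j n s ∧ 0 < zc κ (1000 * R) (curve s)) +
        pr n (fun s => ∃ j : ℕ, j < J ∧ IsoG R (β / (4 * K0)) (E2 / K0) T2 j n s ∧ 0 < zc κ (1000 * R) (curve s)))))) := by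
      refine (pr_or (Q := fun s => Slb (b / K0 * size n) (2 * E0 * size n) s) (R := fun s => (¬ Tms (θ / K1) b s ∨
        BadK (5 * R * size n) (30 * R / K0 * size n) (R / (50 * K0) * size n) (3 * b * size n) (T1 / (4 * K0) * size n)
          (T2 / (4 * K0) * size n) (E2 * size n) s ∨
        (∃ j : ℕ, j < J ∧ IsoG R (β / (4 * K0)) (E0 / K0) T0 j n s) ∨ (∃ j : ℕ, j < J ∧ IsoG R (β / (4 * K0)) (E1 / K0) T1 j n s) ∨
        ∃ j : ℕ, j < J ∧ IsoG R (β / (4 * K0)) (E2 / K0) T2 j n s) ∧ 0 < zc κ (1000 * R) (curve s)) ?_).trans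
          (add_le_add le_rfl ?_)
      · rintro s - ⟨h3 | h3, h4⟩
        · exact Or.inl h3
        · exact Or.inr ⟨h3, h4⟩
      refine (pr_or (Q := fun s => ¬ Tms (θ / K1) b s) (R := fun s => (
        BadK (5 * R * size n) (30 * R / K0 * size n) (R / (50 * K0) * size n) (3 * b * size n) (T1 / (4 * K0) * size n)
          (T2 / (4 * K0) * size n) (E2 * size n) s ∨
        (∃ j : ℕ, j < J ∧ IsoG R (β / (4 * K0)) (E0 / K0) T0 j n s) ∨ (∃ j : ℕ, j < J ∧ IsoG R (β / (4 * K0)) (E1 / K0) T1 j n s) ∨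
        ∃ j : ℕ, j < J ∧ IsoG R (β / (4 * K0)) (E2 / K0) T2 j n s) ∧ 0 < zc κ (1000 * R) (curve s)) ?_).trans
          (add_le_add le_rfl ?_)
      · rintro s - ⟨h3 | h3, h4⟩
        · exact Or.inl h3
        · exact Or.inr ⟨h3, h4⟩
      refine (pr_or (Q := fun s => BadK (5 * R * size n) (30 * R / K0 * size n) (R / (50 * K0) * size n) (3 * b * size n)
          (T1 / (4 * K0) * size n) (T2 / (4 * K0) * size n) (E2 * size n) s ∧ 0 < zc κ (1000 * R) (curve s)) (R := fun s => (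
        (∃ j : ℕ, j < J ∧ IsoG R (β / (4 * K0)) (E0 / K0) T0 j n s) ∨ (∃ j : ℕ, j < J ∧ IsoG R (β / (4 * K0)) (E1 / K0) T1 j n s) ∨
        ∃ j : ℕ, j < J ∧ IsoG R (β / (4 * K0)) (E2 / K0) T2 j n s) ∧ 0 < zc κ (1000 * R) (curve s)) ?_).trans
          (add_le_add le_rfl ?_)
      · rintro s - ⟨h3 | h3, h4⟩
        · exact Or.inl ⟨h3, h4⟩
        · exact Or.inr ⟨h3, h4⟩
      refine (pr_or (Q := fun s => ∃ j : ℕ, j < J ∧ IsoG R (β / (4 * K0)) (E0 / K0) T0 j n s ∧ 0 < zc κ (1000 * R) (curve s))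
        (R := fun s => (
        (∃ j : ℕ, j < J ∧ IsoG R (β / (4 * K0)) (E1 / K0) T1 j n s) ∨
        ∃ j : ℕ, j < J ∧ IsoG R (β / (4 * K0)) (E2 / K0) T2 j n s) ∧ 0 < zc κ (1000 * R) (curve s)) ?_).trans
          (add_le_add le_rfl ?_)
      · rintro s - ⟨⟨j, h3, h5⟩ | h3, h4⟩
        · exact Or.inl ⟨j, h3, h5, h4⟩
        · exact Or.inr ⟨h3, h4⟩
      refine pr_or ?_
      rintro s - ⟨⟨j, h3, h5⟩ | ⟨j, h3, h5⟩, h4⟩
      · exact Or.inl ⟨j, h3, h5, h4⟩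
      · exact Or.inr ⟨j, h3, h5, h4⟩
    linarith
  · intro n n' s s' S N r0 i0 i0' L hn hn' hs hs' hS1 hS2 hS1' hS2' hN _ hr0 hr0R hC
    have hK00p : (0 : ℝ) < K00 := by linarith
    have hn1 : 1 ≤ n := by omega
    have hn1' : 1 ≤ n' := by omega
    have hsz := NTSF.size_pos hn1
    have hsz' := NTSF.size_pos hn1'
    replace hS1 : size n / K0 ≤ S := (div_le_div_of_nonneg_left hsz.le hK00p hK0').trans hS1
    replace hS1' : size n' / K0 ≤ S := (div_le_div_of_nonneg_left hsz'.le hK00p hK0').trans hS1'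
    refine stbU_good hn1 hn1' (δ := η / 2) (η := η) hR hK0 hK1' hθ.le ?_ hη1 hη2 hηb hβθ hβR hbβ hbK hJb hE0p.le hE2p.le hE2T
      (by rw [hE1]; linarith) hE1p.le hT2 hS1 hS2 hS1' hS2' hN hr0 hr0R hs hs' hC
    have h3 := hN7 n (by omega)
    have h4 : η * size n ≤ K0 * (η * S) := by
      rw [div_le_iff₀ hK] at hS1
      have := mul_le_mul_of_nonneg_left hS1 hη0.le
      linarith
    have h5 : K0 * 2 ≤ K0 * (η * S) := by linarith
    have h6 := le_of_mul_le_mul_left h5 hK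
    have e : η / 2 * S = η * S / 2 := by ring
    rw [e]
    linarith

/-- **local stability of the start cuts, every `K0`, no hypothesis** -/
theorem stbLU : StbLU := stbLU_of Pool.Agent.SCF.K.badN

end Pool.Agent.SCF.M
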