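import Pool.Agent.SCF.ZDefs

/-!
# ScaleFlow, row MAC: literals (helper66, from helpers 28, 58, 16, 59, 86)

* `SC ρ s k` : `k` is a start cut of radius `ρ`;
* `Four` : four start cuts, the inner two close to each other (absolute lengths);
* `Md η ω s` : modulus of continuity; `Tms η τ s` : no long time in a thin vertical slab;
* **`Stb R θ s s'`** : every start cut of `s` of a radius `ρ` in `[40 R, 130 R]` has a start cut of `s'` of radius `ρ - θ` near it.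
-/

set_option autoImplicit false

open Set Filter Topology MeasureTheory

namespace Pool.Agent.SCF.M

open Pool.Agent.NTS.Res
open Pool.Agent.CRT (CI)
open Pool.Agent.SCF.Z

/-- a start cut of radius `ρ` -/
def SC (ρ : ℝ) {n : ℕ} (s : Fin n → Fin 3) (k : ℕ) : Prop :=
  Even k ∧ (∀ i : ℕ, i ≤ k → (pos s i).re ≤ (pos s k).re) ∧ GC ρ s k

/-- four start cuts around a start cut, absolute lengths -/
structure Four {n : ℕ} (s : Fin n → Fin 3) (ρ G T W b : ℝ) (x0 x1 x2 x3 : ℕ) : Prop where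
  h01 : x0 ≤ x1
  h12 : x1 ≤ x2
  h23 : x2 ≤ x3
  c0 : SC ρ s x0
  c1 : SC ρ s x1
  c2 : SC ρ s x2
  c3 : SC ρ s x3
  g01 : (pos s x0).re + G ≤ (pos s x1).re
  g12 : (pos s x1).re + T ≤ (pos s x2).re
  w12 : (pos s x2).re ≤ (pos s x1).re + W
  g23 : (pos s x2).re + G ≤ (pos s x3).re
  near : ∀ i : ℕ, x0 ≤ i → i ≤ x3 → ‖pos s i - pos s x0‖ ≤ b

/-- modulus of continuity -/
def Md (η ω : ℝ) {n : ℕ} (s : Fin n → Fin 3) : Prop :=
  ∀ i j : ℕ, i ≤ j → j ≤ n → (j : ℝ) - i ≤ η * n → ‖pos s j - pos s i‖ ≤ ω * size n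

/-- every piece in a vertical slab of width `τ * size n` has at most `η * n` steps -/
def Tms (η τ : ℝ) {n : ℕ} (s : Fin n → Fin 3) : Prop :=
  ∀ i j : ℕ, i ≤ j → j ≤ n → (∀ l : ℕ, i ≤ l → l ≤ j → |(pos s l).re - (pos s i).re| ≤ τ * size n) → (j : ℝ) - i ≤ η * n

/-- **stability** of the start cuts, from `s` to `s'` -/
def Stb (R θ : ℝ) {n n' : ℕ} (s : Fin n → Fin 3) (s' : Fin n' → Fin 3) : Prop :=
  ∀ (ρ : ℝ) (c : ℕ), 40 * R ≤ ρ → ρ ≤ 130 * R → SC (ρ * size n) s c → (∀ i : ℕ, i ≤ c → ‖pos s i‖ ≤ 4 * R * size n) →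
    DmG (R / 8 * size n) s c →
    ∃ c' : ℕ, SC ((ρ - θ) * size n') s' c' ∧ |(c : ℝ) / n - (c' : ℝ) / n'| ≤ θ ∧
      ‖pos s c / (size n : ℂ) - pos s' c' / (size n' : ℂ)‖ ≤ θ

end Pool.Agent.SCF.M
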