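import Pool.Agent.SCF.FullC

/-!
# Families from ScaleFlow (helper66)

* **`fam_of_lim`** : if the laws converge along `φ`, they converge along all `⌊x φ⌋`, `0 < x ≤ 1`, with the ratios of the sizes: a
  family `Fam` in the sense of `RMLim`, for the whole sequence `φ`, and it depends only on the limit;
* **`rm_of_lim`** : the fixed point equation of `RMLim` for every limit.
-/

set_option autoImplicit false

open MeasureTheory Filter Topology Set
open scoped Classical

namespace Pool.Agent.SCF.Full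

open Pool.Agent.NTS.Res
open Pool.Agent.RMP

/-- **a limit is the top of a family** -/
theorem fam_of_lim (h : ∀ x : ℝ, 0 < x → x ≤ 1 → FlU x) {φ : ℕ → ℕ} {ν : Measure C(unitInterval, ℂ)} (hφ : Tendsto φ atTop atTop)
    (hν : IsProbabilityMeasure ν) (hlim : LawTo φ ν) :
    ∃ (μ : ℝ → Measure C(unitInterval, ℂ)) (ρ : ℝ → ℝ), μ 1 = ν ∧ ∀ φ' : ℕ → ℕ, Tendsto φ' atTop atTop → LawTo φ' ν →
      Fam φ' μ ρ := by
  obtain ⟨N, S, hN⟩ := exists_fam h hφ hν hlim
  have h1 : N 1 = ν := by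
    have g := ((hN 1 one_pos le_rfl).2.2 _ hφ hlim).1
    have e : (fun j => ⌊(1 : ℝ) * ((φ j : ℕ) : ℝ)⌋₊) = φ := by
      funext j
      rw [one_mul, Nat.floor_natCast]
    rw [e] at g
    exact law_unique (hN 1 one_pos le_rfl).1 hν g hlim
  exact ⟨N, S, h1, fun φ' hφ' hl' => ⟨hφ', fun x x0 x1 => (hN x x0 x1).1, fun x x0 x1 => ((hN x x0 x1).2.2 φ' hφ' hl').1,
    fun x x0 x1 => ((hN x x0 x1).2.2 φ' hφ' hl').2⟩⟩

end Pool.Agent.SCF.Full
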