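import Pool.Agent.SCF.Semi

/-!
# ScaleFlow: the flow on the set of the limits, abstract part 2 (helper5)

* `semi_existsI` : `semi_exists` for the parameters in any set;
* **`attract_up`** : if a limit attracts a neighbourhood of itself under the flow in the direction of the large scales, the sequence
  converges to it.
-/

set_option autoImplicit false

open Filter Topology MeasureTheory Set

namespace Pool.Agent.SCF

section

variable {X : Type*} [MetricSpace X] {Y : Type*} [MetricSpace Y]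

/-- **the limits as a continuous function** -/
theorem semi_existsI [Nonempty Y] {x : ℕ → X} {y : ℝ → ℕ → Y} {J : Set ℝ}
    (ha : ∀ t : ℝ, t ∈ J → ∀ (θ : ℕ → ℕ) (ν : X), Tendsto θ atTop atTop → Tendsto (fun k => x (θ k)) atTop (𝓝 ν) →
      ∃ z, Tendsto (fun k => y t (θ k)) atTop (𝓝 z))
    (hb : ∀ t : ℝ, t ∈ J → ∀ ε : ℝ, 0 < ε → ∃ δ : ℝ, 0 < δ ∧ ∃ n0 : ℕ, ∀ n : ℕ, n0 ≤ n → ∀ s : ℝ, s ∈ J →
      |s - t| ≤ δ → dist (y s n) (y t n) ≤ ε) :
    ∃ F : ℝ → X → Y, (∀ (t : ℝ) (θ : ℕ → ℕ) (ν : X), t ∈ J → Tendsto θ atTop atTop →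
      Tendsto (fun k => x (θ k)) atTop (𝓝 ν) → Tendsto (fun k => y t (θ k)) atTop (𝓝 (F t ν))) ∧
      ContinuousOn (fun p : ℝ × X => F p.1 p.2) (J ×ˢ Lm x) := by
  classical
  obtain ⟨F, hF⟩ : ∃ F : ℝ → X → Y, ∀ (t : ℝ) (θ : ℕ → ℕ) (ν : X), t ∈ J → Tendsto θ atTop atTop →
      Tendsto (fun k => x (θ k)) atTop (𝓝 ν) → Tendsto (fun k => y t (θ k)) atTop (𝓝 (F t ν)) := by
    have h1 : ∀ (t : ℝ) (ν : X), ∃ w : Y, ∀ (θ : ℕ → ℕ), t ∈ J → Tendsto θ atTop atTop →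
        Tendsto (fun k => x (θ k)) atTop (𝓝 ν) → Tendsto (fun k => y t (θ k)) atTop (𝓝 w) := by
      intro t ν
      by_cases h : ∃ θ : ℕ → ℕ, t ∈ J ∧ Tendsto θ atTop atTop ∧ Tendsto (fun k => x (θ k)) atTop (𝓝 ν)
      · obtain ⟨θ, t0, h2, h3⟩ := h
        obtain ⟨w, hw⟩ := ha t t0 θ ν h2 h3
        refine ⟨w, fun θ' _ h2' h3' => ?_⟩
        obtain ⟨w', hw'⟩ := ha t t0 θ' ν h2' h3'
        rw [semi_unique (ha t t0) h2 h2' h3 h3' hw hw']
        exact hw'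
      · exact ⟨Classical.arbitrary Y, fun θ t0 h2 h3 => absurd ⟨θ, t0, h2, h3⟩ h⟩
    choose F hF using h1
    exact ⟨F, fun t θ ν t0 h2 h3 => hF t ν θ t0 h2 h3⟩
  refine ⟨F, hF, ?_⟩
  rintro ⟨t, ν⟩ ⟨t0, -⟩
  refine tendsto_of_seq_tendsto fun u hu => ?_
  rw [tendsto_nhdsWithin_iff] at hu
  obtain ⟨hu1, hu2⟩ := hu
  have ut : Tendsto (fun k => (u k).1) atTop (𝓝 t) := (continuous_fst.tendsto _).comp hu1
  have uν : Tendsto (fun k => (u k).2) atTop (𝓝 ν) := (continuous_snd.tendsto _).comp hu1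
  -- approximating indices
  have hex : ∀ k : ℕ, ∃ n : ℕ, k ≤ n ∧ (u k ∈ J ×ˢ Lm x → dist (x n) (u k).2 < 1 / ((k : ℝ) + 1) ∧
      dist (y (u k).1 n) (F (u k).1 (u k).2) < 1 / ((k : ℝ) + 1)) := by
    intro k
    by_cases h : u k ∈ J ×ˢ Lm x
    · obtain ⟨s0, θ, h1, h2⟩ := h
      have h3 := hF _ θ _ s0 h1 h2
      have hk : (0 : ℝ) < 1 / ((k : ℝ) + 1) := by positivity
      obtain ⟨j, j1, j2, j3⟩ := ((h1.eventually_ge_atTop k).and ((Metric.tendsto_nhds.1 h2 _ hk).and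
        (Metric.tendsto_nhds.1 h3 _ hk))).exists
      exact ⟨θ j, j1, fun _ => ⟨j2, j3⟩⟩
    · exact ⟨k, le_rfl, fun h' => absurd h' h⟩
  choose n hn1 hn2 using hex
  have nt : Tendsto n atTop atTop := tendsto_atTop_mono hn1 tendsto_id
  have h1k : Tendsto (fun k : ℕ => 1 / ((k : ℝ) + 1)) atTop (𝓝 0) := tendsto_one_div_add_atTop_nhds_zero_nat
  have x1 : Tendsto (fun k => x (n k)) atTop (𝓝 ν) := by
    rw [tendsto_iff_dist_tendsto_zero] at uν ⊢
    have h2 := h1k.add uν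
    rw [add_zero] at h2
    refine squeeze_zero' (Eventually.of_forall fun k => dist_nonneg) ?_ h2
    filter_upwards [hu2] with k hk
    exact (dist_triangle _ _ _).trans (add_le_add (hn2 k hk).1.le le_rfl)
  have y1 := hF t n ν t0 nt x1
  rw [Metric.tendsto_nhds] at y1 ⊢
  intro ε hε
  obtain ⟨δ, hδ, n0, hb1⟩ := hb t t0 (ε / 4) (by positivity)
  filter_upwards [hu2, y1 (ε / 4) (by positivity), nt.eventually_ge_atTop n0, Metric.tendsto_nhds.1 ut δ hδ,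
    (tendsto_order.1 h1k).2 (ε / 4) (by positivity)] with k k1 k2 k3 k4 k5
  have h2 := (hn2 k k1).2
  have h3 := hb1 (n k) k3 (u k).1 k1.1 (by rw [← Real.dist_eq]; exact k4.le)
  calc dist (F (u k).1 (u k).2) (F t ν) ≤ dist (F (u k).1 (u k).2) (y (u k).1 (n k)) + dist (y (u k).1 (n k)) (y t (n k)) +
        dist (y t (n k)) (F t ν) := dist_triangle4 _ _ _ _
    _ < ε := by
        rw [dist_comm (F (u k).1 (u k).2)]
        linarith

/-- **an attracting limit is the limit**, large scales -/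
theorem attract_up {x : ℕ → X} (hs : Slow x) {K : Set X} (hK : IsCompact K) (hx : ∀ n, x n ∈ K) {T : ℝ → X → X}
    (hT : ∀ (t : ℝ) (θ : ℕ → ℕ) (ν : X), 0 < t → Tendsto θ atTop atTop → Tendsto (fun k => x (θ k)) atTop (𝓝 ν) →
      Tendsto (fun k => x ⌊t * θ k⌋₊) atTop (𝓝 (T t ν)))
    {ν : X} (hν : ν ∈ Lm x) {U : Set X} (hU : U ∈ 𝓝 ν)
    (hatt : ∀ V ∈ 𝓝 ν, ∃ t0 : ℝ, ∀ t : ℝ, 0 < t → t0 ≤ t → ∀ μ ∈ U ∩ Lm x, T t μ ∈ V) :
    Tendsto x atTop (𝓝 ν) := by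
  obtain ⟨r, hr, hrU⟩ := Metric.nhds_basis_closedBall.mem_iff.1 hU
  rw [Metric.tendsto_nhds]
  intro ε hε
  obtain ⟨e, he, he1, he2⟩ : ∃ e : ℝ, 0 < e ∧ e ≤ ε ∧ e < r :=
    ⟨min ε (r / 2), lt_min hε (by positivity), min_le_left _ _, (min_le_right _ _).trans_lt (half_lt_self hr)⟩
  obtain ⟨t1, hatt1⟩ := hatt (Metric.ball ν e) (Metric.ball_mem_nhds ν he)
  obtain ⟨t0, ht0a, ht0b⟩ : ∃ t0 : ℝ, t1 ≤ t0 ∧ 2 ≤ t0 := ⟨max t1 2, le_max_left _ _, le_max_right _ _⟩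
  have ht0 : 0 < t0 := by linarith
  -- one step
  have step : ∃ n1 : ℕ, ∀ n : ℕ, n1 ≤ n → dist (x n) ν ≤ r → ∀ t : ℝ, t0 ≤ t → t ≤ 2 * t0 ^ 2 →
      dist (x ⌊t * n⌋₊) ν < e := by
    by_contra hcon
    push Not at hcon
    choose n hn1 hn2 t hta htb hn3 using hcon
    have nt : Tendsto n atTop atTop := tendsto_atTop_mono hn1 tendsto_id
    obtain ⟨μ, -, ψ, hψ, h1⟩ := hK.tendsto_subseq (x := fun k => x (n k)) (fun k => hx _)
    obtain ⟨τ, hτ, ψ', hψ', h2⟩ := (isCompact_Icc (a := t0) (b := 2 * t0 ^ 2)).tendsto_subseq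
      (x := fun k => t (ψ k)) (fun k => ⟨hta _, htb _⟩)
    have hτ0 : 0 < τ := lt_of_lt_of_le ht0 hτ.1
    have hψψ : Tendsto (fun k => ψ (ψ' k)) atTop atTop := hψ.tendsto_atTop.comp hψ'.tendsto_atTop
    have nn : Tendsto (fun k => n (ψ (ψ' k))) atTop atTop := nt.comp hψψ
    have h3 : Tendsto (fun k => x (n (ψ (ψ' k)))) atTop (𝓝 μ) := h1.comp hψ'.tendsto_atTop
    have hμ : μ ∈ U ∩ Lm x := by
      refine ⟨hrU ?_, _, nn, h3⟩
      rw [Metric.mem_closedBall]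
      refine le_of_tendsto (h3.dist tendsto_const_nhds) (Eventually.of_forall fun k => hn2 _)
    have h4 := hT τ _ μ hτ0 nn h3
    have h5 : Tendsto (fun k => x ⌊t (ψ (ψ' k)) * n (ψ (ψ' k))⌋₊) atTop (𝓝 (T τ μ)) := by
      have nr : Tendsto (fun k => (n (ψ (ψ' k)) : ℝ)) atTop atTop := tendsto_natCast_atTop_atTop.comp nn
      have hfl : Tendsto (fun k => ⌊τ * n (ψ (ψ' k))⌋₊) atTop atTop :=
        tendsto_nat_floor_atTop.comp (nr.const_mul_atTop hτ0)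
      refine near_lim hs hfl ?_ h4
      -- the ratio of the floors
      have r1 : Tendsto (fun k => ((⌊τ * n (ψ (ψ' k))⌋₊ : ℕ) : ℝ) / n (ψ (ψ' k))) atTop (𝓝 τ) := floor_ratio hτ0 nn
      have r2 : Tendsto (fun k => ((⌊t (ψ (ψ' k)) * n (ψ (ψ' k))⌋₊ : ℕ) : ℝ) / n (ψ (ψ' k))) atTop (𝓝 τ) := by
        have h6 : Tendsto (fun k => t (ψ (ψ' k)) - 1 / (n (ψ (ψ' k)) : ℝ)) atTop (𝓝 (τ - 0)) :=
          h2.sub (tendsto_const_nhds.div_atTop nr)
        rw [sub_zero] at h6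
        refine tendsto_of_tendsto_of_tendsto_of_le_of_le' h6 h2 ?_ ?_
        · filter_upwards [nr.eventually_gt_atTop 0] with k hk
          rw [le_div_iff₀ hk, sub_mul, one_div_mul_cancel hk.ne']
          exact (Nat.sub_one_lt_floor _).le
        · filter_upwards [nr.eventually_gt_atTop 0] with k hk
          rw [div_le_iff₀ hk]
          exact Nat.floor_le (mul_nonneg (ht0.le.trans (hta _)) hk.le)
      have r3 := r2.div r1 hτ0.ne'
      rw [div_self hτ0.ne'] at r3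
      refine (tendsto_congr' ?_).1 r3
      filter_upwards [nr.eventually_gt_atTop 0] with k hk
      show ((⌊t (ψ (ψ' k)) * n (ψ (ψ' k))⌋₊ : ℕ) : ℝ) / n (ψ (ψ' k)) / (((⌊τ * n (ψ (ψ' k))⌋₊ : ℕ) : ℝ) / n (ψ (ψ' k))) = _
      rw [div_div_div_cancel_right₀ hk.ne']
    have h6 : e ≤ dist (T τ μ) ν :=
      ge_of_tendsto (h5.dist tendsto_const_nhds) (Eventually.of_forall fun k => hn3 _)
    have h7 := hatt1 τ hτ0 (ht0a.trans hτ.1) μ hμ
    rw [Metric.mem_ball] at h7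
    linarith
  obtain ⟨n1, hstep⟩ := step
  -- a start
  obtain ⟨θ, hθ, hlim⟩ := hν
  obtain ⟨k, k1, k2⟩ := ((hθ.eventually_ge_atTop (n1 + 1)).and (Metric.tendsto_nhds.1 hlim r hr)).exists
  obtain ⟨m, hm⟩ : ∃ m, m = θ k := ⟨_, rfl⟩
  rw [← hm] at k1 k2
  have hm1 : (1 : ℝ) ≤ m := by exact_mod_cast (by omega : 1 ≤ m)
  have key : ∀ (n M : ℕ), m ≤ M → t0 * M ≤ n → (n : ℝ) ≤ 2 * t0 ^ 2 * M → dist (x M) ν ≤ r → dist (x n) ν < e := by
    intro n M g0 g1 g2 g3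
    have gM : (0 : ℝ) < M := by
      have : (m : ℝ) ≤ M := by exact_mod_cast g0
      linarith
    have h5 := hstep M (by omega) g3 (n / M) (by
      rw [le_div_iff₀ gM]
      exact g1) (by
      rw [div_le_iff₀ gM]
      exact g2)
    rwa [div_mul_cancel₀ _ gM.ne', Nat.floor_natCast] at h5
  have chain : ∀ n : ℕ, t0 * m ≤ n → dist (x n) ν < e := by
    intro n
    induction n using Nat.strong_induction_on with
    | _ n ih =>
      intro hn
      obtain ⟨n', hn'⟩ : ∃ n' : ℕ, n' = ⌊(n : ℝ) / t0⌋₊ := ⟨_, rfl⟩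
      have c1 : (n' : ℝ) ≤ n / t0 := by rw [hn']; exact Nat.floor_le (by positivity)
      have c2 : (n : ℝ) / t0 - 1 < n' := by rw [hn']; exact Nat.sub_one_lt_floor _
      have c0 : (m : ℝ) ≤ n / t0 := by
        rw [le_div_iff₀ ht0]
        linarith
      have c3 : t0 * n' ≤ n := by
        rw [le_div_iff₀ ht0] at c1
        linarith
      have c4 : (n : ℝ) < t0 * n' + t0 := by
        have h8 : t0 * (n / t0 - 1) < t0 * n' := mul_lt_mul_of_pos_left c2 ht0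
        rw [mul_sub, mul_one, mul_div_cancel₀ _ ht0.ne'] at h8
        linarith
      rcases le_or_gt (t0 * m) (n' : ℝ) with h4 | h4
      · have hn1 : (1 : ℝ) ≤ n' := by nlinarith
        have h5 : n' < n := by
          have : (n' : ℝ) < n := by nlinarith
          exact_mod_cast this
        have h6 := ih n' h5 h4
        have hmn : m ≤ n' := by
          have : (m : ℝ) ≤ n' := by nlinarith
          exact_mod_cast this
        refine key n n' hmn c3 ?_ (h6.le.trans he2.le)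
        nlinarith
      · refine key n m le_rfl hn ?_ k2.le
        nlinarith
  rw [eventually_atTop]
  refine ⟨⌈t0 * m⌉₊, fun n hn => ?_⟩
  exact (chain n ((Nat.le_ceil _).trans (by exact_mod_cast hn))).trans_le he1

end

end Pool.Agent.SCF
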