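import Pool.Agent.SCF.FlowPub2
import Pool.Agent.SCF.Semi2

/-!
# ScaleFlow: the flow of all the changes of the scale (helper5)

* `AllSc` : if the laws converge along `φ`, then the laws along `⌊t φ⌋` and the ratio of the sizes converge, for every `t > 0`;
* **`flow_pub3 (h : AllSc)`** : the set `WL` of the weak limits is compact and connected, and the change of the scale is a continuous
  action of the multiplicative group of the positive reals on `WL`, with a size factor which is a continuous cocycle; the laws converge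
  if and only if they converge along the powers of `p` and of `q`, if and only if some weak limit attracts a neighbourhood in `WL`,
  in the direction of the small scales, or in the direction of the large scales.
-/

set_option autoImplicit false

open Filter Topology MeasureTheory Set

namespace Pool.Agent.SCF

open Pool.Agent.NTS.Res
open Pool.Agent.CRT (Q1)
open Pool.Agent.NPR (frac size_top)
open NTSF (PM lawTo_iff)
open NTSF.Mg (WL toLP_cont slow_curves)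

/-- the laws and the ratio of the sizes, all the factors -/
def AllSc : Prop := ∀ (t : ℝ) (φ : ℕ → ℕ) (ν : ProbabilityMeasure C(unitInterval, ℂ)), 0 < t → Tendsto φ atTop atTop →
  LawTo φ (ν : Measure C(unitInterval, ℂ)) →
    ∃ (ν' : ProbabilityMeasure C(unitInterval, ℂ)) (r : ℝ), 0 < r ∧
      LawTo (fun j => ⌊t * φ j⌋₊) (ν' : Measure C(unitInterval, ℂ)) ∧
      Tendsto (fun j => size ⌊t * φ j⌋₊ / size (φ j)) atTop (𝓝 r)

theorem scX1_of_all (h : AllSc) : ScX1 := by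
  intro t t0 _ φ ν hφ hν hlim
  obtain ⟨ν', r, -, h1, -⟩ := h t φ ⟨ν, hν⟩ t0 hφ hlim
  exact ⟨ν', inferInstance, h1⟩

/-- the sizes of comparable walks -/
lemma size_le_mulB {B : ℝ} (hB : 0 < B) : ∃ C : ℝ, 0 < C ∧ ∀ a n : ℕ, 1 ≤ a → 1 ≤ n → (a : ℝ) ≤ B * n → size a ≤ C * size n := by
  obtain ⟨c, C, hc, hsz, -⟩ := NTSF.finE
  have hC : 0 < C := by
    have h1 := (hsz 1 le_rfl).2
    have h2 := NTSF.size_pos (n := 1) le_rfl
    rw [Nat.cast_one, Real.one_rpow, mul_one] at h1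
    linarith
  refine ⟨C * B ^ (3 / 4 : ℝ) / c, by positivity, fun a n ha hn han => ?_⟩
  have h1 := (hsz a ha).2
  have h2 := (hsz n hn).1
  have h3 : (a : ℝ) ^ (3 / 4 : ℝ) ≤ (B * n) ^ (3 / 4 : ℝ) :=
    Real.rpow_le_rpow (Nat.cast_nonneg _) han (by norm_num)
  rw [Real.mul_rpow hB.le (Nat.cast_nonneg _)] at h3
  calc size a ≤ C * (B ^ (3 / 4 : ℝ) * (n : ℝ) ^ (3 / 4 : ℝ)) := h1.trans (mul_le_mul_of_nonneg_left h3 hC.le)
    _ = C * B ^ (3 / 4 : ℝ) / c * (c * (n : ℝ) ^ (3 / 4 : ℝ)) := by field_simp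
    _ ≤ C * B ^ (3 / 4 : ℝ) / c * size n := mul_le_mul_of_nonneg_left h2 (by positivity)

lemma slow_pairB {ε τ B : ℝ} (hε : 0 < ε) (hτ : 0 < τ) (hB : 0 < B) : ∃ δ : ℝ, 0 < δ ∧ ∃ n0 : ℕ, ∀ n a b : ℕ, n0 ≤ n →
    τ * n ≤ a → a ≤ b → (b : ℝ) ≤ a + δ * n → (a : ℝ) ≤ B * n →
      dist (xs b) (xs a) ≤ ε ∧ |size b / size n - size a / size n| ≤ ε := by
  obtain ⟨C, hC, hCs⟩ := size_le_mulB hB
  obtain ⟨δ, hδ, h⟩ := slow_curves.1 (min ε (ε / C)) (by positivity)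
  refine ⟨δ * τ, by positivity, ⌈1 / (δ * τ)⌉₊ + 1, fun n a b hn ha hab hb hbn => ?_⟩
  have h1 : 1 / (δ * τ) ≤ n := (Nat.le_ceil _).trans (by exact_mod_cast (by omega))
  have h2 : 1 / δ ≤ a := by
    refine le_trans ?_ ha
    rw [div_le_iff₀ (by positivity)] at h1 ⊢
    nlinarith
  have ha1 : 1 ≤ a := by
    have h3 : (0 : ℝ) < a := lt_of_lt_of_le (by positivity) h2
    exact_mod_cast h3
  obtain ⟨m, rfl⟩ := Nat.exists_eq_add_of_le hab
  have hm : (m : ℝ) ≤ δ * a := by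
    push_cast at hb
    have : δ * τ * n = δ * (τ * n) := by ring
    have h3 : δ * (τ * n) ≤ δ * a := mul_le_mul_of_nonneg_left ha hδ.le
    linarith
  obtain ⟨h3, h4⟩ := h a m h2 hm
  refine ⟨h4.trans (min_le_left _ _), ?_⟩
  have p1 := NTSF.size_pos ha1
  have p2 := NTSF.size_pos (by omega : 1 ≤ n)
  have h5 : size (a + m) / size n - size a / size n = (size (a + m) / size a - 1) * (size a / size n) := by
    field_simp
  have h6 : size a / size n ≤ C := by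
    rw [div_le_iff₀ p2]
    exact hCs a n ha1 (by omega) hbn
  rw [h5, abs_mul, abs_of_nonneg (by positivity : 0 ≤ size a / size n)]
  calc |size (a + m) / size a - 1| * (size a / size n) ≤ ε / C * C :=
        mul_le_mul (h3.trans (min_le_right _ _)) h6 (by positivity) (by positivity)
    _ = ε := div_mul_cancel₀ _ hC.ne'

lemma ys_slowB : ∀ t : ℝ, t ∈ Ioi (0 : ℝ) → ∀ ε : ℝ, 0 < ε → ∃ δ : ℝ, 0 < δ ∧ ∃ n0 : ℕ, ∀ n : ℕ, n0 ≤ n → ∀ s : ℝ,
    s ∈ Ioi (0 : ℝ) → |s - t| ≤ δ → dist (ys s n) (ys t n) ≤ ε := by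
  intro t t0 ε hε
  have t0 : 0 < t := t0
  obtain ⟨δ, hδ, n0, h⟩ := slow_pairB hε (by positivity : (0 : ℝ) < t / 4) (by positivity : (0 : ℝ) < t)
  refine ⟨min (t / 2) (δ / 2), by positivity, max n0 (⌈4 / t⌉₊ + ⌈2 / δ⌉₊), fun n hn s s0 hst => ?_⟩
  have n1 : n0 ≤ n := le_of_max_le_left hn
  have n2 : 4 / t ≤ n := (Nat.le_ceil _).trans (by exact_mod_cast (by omega))
  have n3 : 2 / δ ≤ n := (Nat.le_ceil _).trans (by exact_mod_cast (by omega))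
  rw [div_le_iff₀ t0] at n2
  rw [div_le_iff₀ hδ] at n3
  have hn0 : (0 : ℝ) ≤ n := Nat.cast_nonneg n
  have key : ∀ u v : ℝ, 0 < u → t / 2 ≤ u → u ≤ v → u ≤ t → v - u ≤ δ / 2 → dist (ys v n) (ys u n) ≤ ε := by
    intro u v hu hut huv hv1 hvu
    have f1 : (⌊u * n⌋₊ : ℝ) ≤ u * n := Nat.floor_le (by positivity)
    have f2 : u * n - 1 < (⌊u * n⌋₊ : ℝ) := Nat.sub_one_lt_floor _
    have f3 : (⌊v * n⌋₊ : ℝ) ≤ v * n := Nat.floor_le (mul_nonneg (hu.le.trans huv) hn0)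
    obtain ⟨g1, g2⟩ := h n ⌊u * n⌋₊ ⌊v * n⌋₊ n1 (by nlinarith) (Nat.floor_le_floor (mul_le_mul_of_nonneg_right huv hn0))
      (by nlinarith) (f1.trans (mul_le_mul_of_nonneg_right hv1 hn0))
    show max (dist (xs ⌊v * n⌋₊) (xs ⌊u * n⌋₊)) (dist (size ⌊v * n⌋₊ / size n) (size ⌊u * n⌋₊ / size n)) ≤ ε
    rw [Real.dist_eq]
    exact max_le g1 g2
  have h1 := hst.trans (min_le_left _ _)
  have h2 := hst.trans (min_le_right _ _)
  rw [abs_le] at h1 h2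
  rcases le_total s t with h3 | h3
  · rw [dist_comm]
    exact key s t s0 (by linarith) h3 h3 (by linarith)
  · exact key t s t0 (by linarith) h3 le_rfl (by linarith)

/-- **the flow**, in the metric space -/
theorem flow_lpB (hA : AllSc) :
    ∃ F : ℝ → LevyProkhorov (ProbabilityMeasure C(unitInterval, ℂ)) → LevyProkhorov (ProbabilityMeasure C(unitInterval, ℂ)) × ℝ,
      (∀ (t : ℝ) (θ : ℕ → ℕ) (ν : LevyProkhorov (ProbabilityMeasure C(unitInterval, ℂ))), 0 < t → Tendsto θ atTop atTop →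
        Tendsto (fun k => xs (θ k)) atTop (𝓝 ν) → Tendsto (fun k => ys t (θ k)) atTop (𝓝 (F t ν)) ∧ 0 < (F t ν).2) ∧
      ContinuousOn (fun p : ℝ × LevyProkhorov (ProbabilityMeasure C(unitInterval, ℂ)) => F p.1 p.2) (Ioi 0 ×ˢ Lm xs) := by
  have hne : Nonempty (LevyProkhorov (ProbabilityMeasure C(unitInterval, ℂ)) × ℝ) := ⟨(xs 1, 0)⟩
  have one : ∀ t : ℝ, t ∈ Ioi (0 : ℝ) → ∀ (θ : ℕ → ℕ) (ν : LevyProkhorov (ProbabilityMeasure C(unitInterval, ℂ))),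
      Tendsto θ atTop atTop → Tendsto (fun k => xs (θ k)) atTop (𝓝 ν) →
      ∃ z, Tendsto (fun k => ys t (θ k)) atTop (𝓝 z) ∧ 0 < z.2 := by
    intro t t0 θ ν hθ hν
    obtain ⟨ν', r, hr, h1, h2⟩ := hA t θ ν.toMeasure t0 hθ ((lim_iff' ν).1 hν)
    exact ⟨(LevyProkhorov.ofMeasure ν', r), ((lim_iff (φ := fun k => ⌊t * θ k⌋₊) ν').1 h1).prodMk_nhds h2, hr⟩
  obtain ⟨F, hF, hFc⟩ := semi_existsI (x := xs) (y := ys) (J := Ioi 0) (fun t t0 θ ν hθ hν =>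
    let ⟨z, hz, _⟩ := one t t0 θ ν hθ hν
    ⟨z, hz⟩) ys_slowB
  refine ⟨F, fun t θ ν t0 hθ hν => ⟨hF t θ ν t0 hθ hν, ?_⟩, hFc⟩
  obtain ⟨z, hz, hz0⟩ := one t t0 θ ν hθ hν
  rw [tendsto_nhds_unique (hF t θ ν t0 hθ hν) hz]
  exact hz0

/-- **ScaleFlow, the flow form** -/
theorem flow_pub3 (hA : AllSc) :
    IsCompact WL ∧ IsConnected WL ∧
    ∃ (T : ℝ → ProbabilityMeasure C(unitInterval, ℂ) → ProbabilityMeasure C(unitInterval, ℂ))
      (c : ℝ → ProbabilityMeasure C(unitInterval, ℂ) → ℝ),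
      (∀ (t : ℝ) (φ : ℕ → ℕ) (ν : ProbabilityMeasure C(unitInterval, ℂ)), 0 < t → Tendsto φ atTop atTop →
        LawTo φ (ν : Measure C(unitInterval, ℂ)) →
          LawTo (fun j => ⌊t * φ j⌋₊) (T t ν : Measure C(unitInterval, ℂ)) ∧
          Tendsto (fun j => size ⌊t * φ j⌋₊ / size (φ j)) atTop (𝓝 (c t ν)) ∧ 0 < c t ν) ∧
      ContinuousOn (fun p : ℝ × ProbabilityMeasure C(unitInterval, ℂ) => (T p.1 p.2, c p.1 p.2)) (Ioi 0 ×ˢ WL) ∧
      (∀ t : ℝ, 0 < t → BijOn (T t) WL WL) ∧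
      (∀ (s t : ℝ) (ν : ProbabilityMeasure C(unitInterval, ℂ)), 0 < s → 0 < t → ν ∈ WL →
        T 1 ν = ν ∧ T s (T t ν) = T (s * t) ν ∧ c s (T t ν) * c t ν = c (s * t) ν) ∧
      ∀ p q : ℕ, 2 ≤ p → 2 ≤ q → (∀ a b : ℕ, 1 ≤ a → p ^ b ≠ q ^ a) → List.TFAE [
        ∃ ν : ProbabilityMeasure C(unitInterval, ℂ), LawTo (fun n => n) (ν : Measure C(unitInterval, ℂ)),
        (∃ ν : ProbabilityMeasure C(unitInterval, ℂ), LawTo (fun j => p ^ j) (ν : Measure C(unitInterval, ℂ))) ∧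
          ∃ ν : ProbabilityMeasure C(unitInterval, ℂ), LawTo (fun j => q ^ j) (ν : Measure C(unitInterval, ℂ)),
        ∀ F : Finset ℂ, F.Nonempty → ∃ S : Set ℝ, S.Countable ∧ ∀ r : ℝ, 0 < r → r ∉ S →
          (∃ l : ℝ, Tendsto (fun j => frac (p ^ j) F r) atTop (𝓝 l)) ∧
            ∃ l : ℝ, Tendsto (fun j => frac (q ^ j) F r) atTop (𝓝 l),
        ∃ ν ∈ WL, ∃ U ∈ 𝓝 ν, ∀ V ∈ 𝓝 ν, ∃ t0 : ℝ, 0 < t0 ∧ ∀ t : ℝ, 0 < t → t ≤ t0 → ∀ μ ∈ U ∩ WL, T t μ ∈ V,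
        ∃ ν ∈ WL, ∃ U ∈ 𝓝 ν, ∀ V ∈ 𝓝 ν, ∃ t0 : ℝ, 0 < t0 ∧ ∀ t : ℝ, t0 ≤ t → ∀ μ ∈ U ∩ WL, T t μ ∈ V] := by
  have hX := scX1_of_all hA
  obtain ⟨F, hF, hFc⟩ := flow_lpB hA
  obtain ⟨K, hK, hxK⟩ := compact_xs
  obtain ⟨-, -, hWc, hWn, -⟩ := slow_curves
  obtain ⟨T, hT⟩ : ∃ T : ℝ → ProbabilityMeasure C(unitInterval, ℂ) → ProbabilityMeasure C(unitInterval, ℂ),
      ∀ t ν, T t ν = (F t (LevyProkhorov.ofMeasure ν)).1.toMeasure := ⟨_, fun _ _ => rfl⟩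
  obtain ⟨c, hc⟩ : ∃ c : ℝ → ProbabilityMeasure C(unitInterval, ℂ) → ℝ,
      ∀ t ν, c t ν = (F t (LevyProkhorov.ofMeasure ν)).2 := ⟨_, fun _ _ => rfl⟩
  have hTo : ∀ t ν, LevyProkhorov.ofMeasure (T t ν) = (F t (LevyProkhorov.ofMeasure ν)).1 := fun t ν => by
    rw [hT]
  -- convergence in the metric space
  have cv : ∀ (t : ℝ) (φ : ℕ → ℕ) (ν : ProbabilityMeasure C(unitInterval, ℂ)), 0 < t → Tendsto φ atTop atTop →
      Tendsto (fun k => xs (φ k)) atTop (𝓝 (LevyProkhorov.ofMeasure ν)) →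
      Tendsto (fun k => xs ⌊t * φ k⌋₊) atTop (𝓝 (LevyProkhorov.ofMeasure (T t ν))) ∧
      Tendsto (fun j => size ⌊t * φ j⌋₊ / size (φ j)) atTop (𝓝 (c t ν)) ∧ 0 < c t ν := by
    intro t φ ν t0 hφ h
    obtain ⟨h1, h2⟩ := hF t φ _ t0 hφ h
    rw [hTo, hc]
    exact ⟨(continuous_fst.tendsto _).comp h1, (continuous_snd.tendsto _).comp h1, h2⟩
  have mp : ∀ (t : ℝ) (ν : ProbabilityMeasure C(unitInterval, ℂ)), 0 < t → ν ∈ WL → T t ν ∈ WL := by
    intro t ν t0 hν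
    obtain ⟨θ, hθ, h⟩ := mem_Lm_iff.2 hν
    exact mem_Lm_iff.1 ⟨_, floor_top t0 hθ, (cv t θ ν t0 hθ h).1⟩
  have t1 : ∀ ν : ProbabilityMeasure C(unitInterval, ℂ), ν ∈ WL → T 1 ν = ν := by
    intro ν hν
    obtain ⟨θ, hθ, h⟩ := mem_Lm_iff.2 hν
    have h1 := (cv 1 θ ν one_pos hθ h).1
    have e : (fun k => xs ⌊(1 : ℝ) * θ k⌋₊) = fun k => xs (θ k) := by
      funext k
      rw [one_mul, Nat.floor_natCast]
    rw [e] at h1
    exact congrArg LevyProkhorov.toMeasure (tendsto_nhds_unique h1 h)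
  have grp : ∀ (s t : ℝ) (ν : ProbabilityMeasure C(unitInterval, ℂ)), 0 < s → 0 < t → ν ∈ WL →
      T s (T t ν) = T (s * t) ν ∧ c s (T t ν) * c t ν = c (s * t) ν := by
    intro s t ν s0 t0 hν
    obtain ⟨θ, hθ, h⟩ := mem_Lm_iff.2 hν
    obtain ⟨a1, a2, a3⟩ := cv t θ ν t0 hθ h
    obtain ⟨b1, b2, b3⟩ := cv s _ (T t ν) s0 (floor_top t0 hθ) a1
    have st0 : 0 < s * t := by positivity
    obtain ⟨d1, d2, d3⟩ := cv (s * t) θ ν st0 hθ h
    have ff := floor_floor s0 t0 hθ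
    constructor
    · have h1 := near_lim slow_xs (floor_top st0 hθ) ff d1
      exact congrArg LevyProkhorov.toMeasure (tendsto_nhds_unique b1 h1)
    · have h1 := (b2.mul a2)
      have h2 := (size_near (floor_top st0 hθ) ff).mul d2
      rw [one_mul] at h2
      refine tendsto_nhds_unique h1 ((tendsto_congr' ?_).1 h2)
      filter_upwards [(floor_top st0 hθ).eventually_ge_atTop 1, (floor_top t0 hθ).eventually_ge_atTop 1] with k k1 k2
      have p1 := NTSF.size_pos k1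
      have p2 := NTSF.size_pos k2
      rw [div_mul_div_cancel₀ p1.ne', div_mul_div_cancel₀ p2.ne']
  have inv : ∀ (t : ℝ) (ν : ProbabilityMeasure C(unitInterval, ℂ)), 0 < t → ν ∈ WL → T t⁻¹ (T t ν) = ν := by
    intro t ν t0 hν
    rw [(grp t⁻¹ t ν (inv_pos.2 t0) t0 hν).1, inv_mul_cancel₀ t0.ne', t1 ν hν]
  refine ⟨hWc, hWn, T, c, fun t φ ν t0 hφ hlim => ?_, ?_, fun t t0 => ⟨fun ν hν => mp t ν t0 hν, ?_, ?_⟩,
    fun s t ν s0 t0 hν => ⟨t1 ν hν, grp s t ν s0 t0 hν⟩, fun p q hp hq hpq => ?_⟩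
  · obtain ⟨h1, h2, h3⟩ := cv t φ ν t0 hφ ((lim_iff ν).1 hlim)
    exact ⟨(lim_iff (φ := fun j => ⌊t * φ j⌋₊) (T t ν)).2 h1, h2, h3⟩
  · have e : (fun p : ℝ × ProbabilityMeasure C(unitInterval, ℂ) => (T p.1 p.2, c p.1 p.2)) =
        (fun z : LevyProkhorov (ProbabilityMeasure C(unitInterval, ℂ)) × ℝ => (z.1.toMeasure, z.2)) ∘
          (fun p : ℝ × LevyProkhorov (ProbabilityMeasure C(unitInterval, ℂ)) => F p.1 p.2) ∘
          fun p : ℝ × ProbabilityMeasure C(unitInterval, ℂ) => (p.1, LevyProkhorov.ofMeasure p.2) := by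
      funext p
      show (T p.1 p.2, c p.1 p.2) = ((F p.1 (LevyProkhorov.ofMeasure p.2)).1.toMeasure, (F p.1 (LevyProkhorov.ofMeasure p.2)).2)
      rw [hT, hc]
    rw [e]
    have g1 : Continuous fun z : LevyProkhorov (ProbabilityMeasure C(unitInterval, ℂ)) × ℝ => (z.1.toMeasure, z.2) :=
      (LevyProkhorov.continuous_toMeasure_probabilityMeasure.comp continuous_fst).prodMk continuous_snd
    have g2 : Continuous fun p : ℝ × ProbabilityMeasure C(unitInterval, ℂ) => (p.1, LevyProkhorov.ofMeasure p.2) :=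
      continuous_fst.prodMk (toLP_cont.comp continuous_snd)
    refine g1.comp_continuousOn (hFc.comp g2.continuousOn ?_)
    rintro ⟨t, ν⟩ ⟨h1, h2⟩
    exact ⟨h1, mem_Lm_iff.2 h2⟩
  · intro μ hμ ν hν h
    rw [← inv t μ t0 hμ, ← inv t ν t0 hν, h]
  · intro μ hμ
    refine ⟨T t⁻¹ μ, mp _ μ (inv_pos.2 t0) hμ, ?_⟩
    rw [(grp t t⁻¹ μ t0 (inv_pos.2 t0) hμ).1, mul_inv_cancel₀ t0.ne', t1 μ hμ]
  · have c1 : ∀ φ : ℕ → ℕ, (∃ ν : ProbabilityMeasure C(unitInterval, ℂ), LawTo φ (ν : Measure C(unitInterval, ℂ))) ↔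
        ∃ ν : Measure C(unitInterval, ℂ), IsProbabilityMeasure ν ∧ LawTo φ ν :=
      fun φ => ⟨fun ⟨ν, h⟩ => ⟨ν, inferInstance, h⟩, fun ⟨ν, hν, h⟩ => ⟨⟨ν, hν⟩, h⟩⟩
    rw [c1, c1, c1]
    have one' : (∃ ν : Measure C(unitInterval, ℂ), IsProbabilityMeasure ν ∧ LawTo (fun n => n) ν) →
        ∃ ν ∈ WL, ∀ (t : ℝ), 0 < t → ∀ μ ∈ WL, T t μ = ν := by
      rintro ⟨ν, hν, h⟩
      have h' : Tendsto (fun n => xs n) atTop (𝓝 (LevyProkhorov.ofMeasure (⟨ν, hν⟩ : ProbabilityMeasure C(unitInterval, ℂ)))) :=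
        (lim_iff (φ := fun n => n) ⟨ν, hν⟩).1 h
      have hu : ∀ μ ∈ WL, μ = (⟨ν, hν⟩ : ProbabilityMeasure C(unitInterval, ℂ)) := by
        intro μ hμ
        obtain ⟨θ, hθ, h1⟩ := mem_Lm_iff.2 hμ
        exact congrArg LevyProkhorov.toMeasure (tendsto_nhds_unique h1 (h'.comp hθ))
      have hνW : (⟨ν, hν⟩ : ProbabilityMeasure C(unitInterval, ℂ)) ∈ WL := mem_Lm_iff.1 ⟨fun n => n, tendsto_id, h'⟩
      exact ⟨⟨ν, hν⟩, hνW, fun t t0 μ hμ => hu _ (mp t μ t0 hμ)⟩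
    tfae_have 1 ↔ 2 := q1_two hX hp hq (irr_pow hp hq hpq)
    tfae_have 1 ↔ 3 := q1_two_frac hX hp hq hpq
    tfae_have 1 → 4 := by
      intro h
      obtain ⟨ν, hν, h1⟩ := one' h
      refine ⟨ν, hν, univ, univ_mem, fun V hV => ⟨1, one_pos, fun t t0 _ μ hμ => ?_⟩⟩
      rw [h1 t t0 μ hμ.2]
      exact mem_of_mem_nhds hV
    tfae_have 1 → 5 := by
      intro h
      obtain ⟨ν, hν, h1⟩ := one' h
      refine ⟨ν, hν, univ, univ_mem, fun V hV => ⟨1, one_pos, fun t t0 μ hμ => ?_⟩⟩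
      rw [h1 t (one_pos.trans_le t0) μ hμ.2]
      exact mem_of_mem_nhds hV
    tfae_have 4 → 1 := by
      rintro ⟨ν, hνW, U, hU, hatt⟩
      have h1 : Tendsto xs atTop (𝓝 (LevyProkhorov.ofMeasure ν)) := by
        refine attract slow_xs hK hxK (T := fun t y => (F t y).1) (fun t θ y t0 t1 hθ hy =>
          (continuous_fst.tendsto _).comp (hF t θ y t0 hθ hy).1) (mem_Lm_iff.2 hνW)
          (U := LevyProkhorov.toMeasure ⁻¹' U)
          (LevyProkhorov.continuous_toMeasure_probabilityMeasure.continuousAt.preimage_mem_nhds hU) ?_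
        intro V hV
        obtain ⟨t2, ht2, h2⟩ := hatt (LevyProkhorov.ofMeasure ⁻¹' V) (toLP_cont.continuousAt.preimage_mem_nhds hV)
        refine ⟨t2, ht2, fun t t0 ht t1 y hy => ?_⟩
        have h3 := h2 t t0 ht y.toMeasure ⟨hy.1, mem_Lm_iff.1 hy.2⟩
        rw [mem_preimage, hTo] at h3
        exact h3
      exact ⟨ν, inferInstance, (lim_iff (φ := fun n => n) ν).2 h1⟩
    tfae_have 5 → 1 := by
      rintro ⟨ν, hνW, U, hU, hatt⟩
      have h1 : Tendsto xs atTop (𝓝 (LevyProkhorov.ofMeasure ν)) := by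
        refine attract_up slow_xs hK hxK (T := fun t y => (F t y).1) (fun t θ y t0 hθ hy =>
          (continuous_fst.tendsto _).comp (hF t θ y t0 hθ hy).1) (mem_Lm_iff.2 hνW)
          (U := LevyProkhorov.toMeasure ⁻¹' U)
          (LevyProkhorov.continuous_toMeasure_probabilityMeasure.continuousAt.preimage_mem_nhds hU) ?_
        intro V hV
        obtain ⟨t2, ht2, h2⟩ := hatt (LevyProkhorov.ofMeasure ⁻¹' V) (toLP_cont.continuousAt.preimage_mem_nhds hV)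
        refine ⟨t2, fun t _ ht y hy => ?_⟩
        have h3 := h2 t ht y.toMeasure ⟨hy.1, mem_Lm_iff.1 hy.2⟩
        rw [mem_preimage, hTo] at h3
        exact h3
      exact ⟨ν, inferInstance, (lim_iff (φ := fun n => n) ν).2 h1⟩
    tfae_finish

end Pool.Agent.SCF
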