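import Pool.Agent.CRT.VDefs4

/-!
# ScaleFlow (R-), the literals (helper86, from helpers 11, 66, 90, 69, 15, 59, 16, 84, 5)

One class, at the START of the walk. `k` is the end of the start piece, `k2` the end of the confined middle piece `b`:

* `GU a r s k` : `k` is even, the start piece `w[0, k]` is weakly to the left of `w_k`, its diameter is in `[a, r]`, and no cut of
  this piece has a start piece of diameter at least `a` (FIRST cut of its own prefix with diameter at least `a`);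
* `GC ρ s k` : the next step is `+1`, and in the ball of radius `ρ` about `w_k` the walk behind `k` is to the right;
* `GB h L s k k2` : the middle piece: between the vertical lines of its ends, in the ball of radius `L` about its start, and its end
  is its FIRST cut at least `h` higher;
* `T0` = `GU` and `GC`, `T1` = `GU` and `GB` and `GC` at `k2`. All lengths `a, r, h, L, ρ` are ABSOLUTE (lattice units).

DELETION (`Del`): the walks of `T1` are the walks of `T0` with a middle piece inserted.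

* `MacT1` (K-row): the average of `T1` over a grid of parameters is, for every EXACT large `n`, a Lipschitz functional of the curve up
  to `ε` (with the factor `zc`: the last `κ n` steps are far away from the start);
* `Ind` : `T0` is almost independent of the curve; `P0` : it has a probability bounded below uniformly in the scale;
* `PosB` : the middle pieces with a number of steps in `[x1 n, x2 n]` have a mass bounded below.
-/

set_option autoImplicit false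

open Set Filter Topology MeasureTheory

namespace Pool.Agent.SCF.Z

open Pool.Agent.NTS.Res
open Pool.Agent.CRT (CI)

/-- `k'` is a cut of the strand from `a` to `k` -/
def SCut {n : ℕ} (s : Fin n → Fin 3) (a k' k : ℕ) : Prop :=
  a ≤ k' ∧ k' < k ∧ Even k' ∧ pos s (k' + 1) = pos s k' + 1 ∧ (∀ i : ℕ, a ≤ i → i ≤ k' → (pos s i).re ≤ (pos s k').re) ∧
    ∀ j : ℕ, k' < j → j ≤ k → (pos s k').re + 1 ≤ (pos s j).re

/-- the diameter of the start piece `w[0, k]` is at least `a` -/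
def DmG {n : ℕ} (a : ℝ) (s : Fin n → Fin 3) (k : ℕ) : Prop := ∃ i j : ℕ, i ≤ k ∧ j ≤ k ∧ a ≤ ‖pos s i - pos s j‖

/-- the start piece -/
def GU {n : ℕ} (a r : ℝ) (s : Fin n → Fin 3) (k : ℕ) : Prop :=
  Even k ∧ (∀ i : ℕ, i ≤ k → (pos s i).re ≤ (pos s k).re) ∧ (∀ i j : ℕ, i ≤ k → j ≤ k → ‖pos s i - pos s j‖ ≤ r) ∧
    DmG a s k ∧ ∀ k' : ℕ, SCut s 0 k' k → ¬ DmG a s k'

/-- the rest of the walk -/
def GC {n : ℕ} (ρ : ℝ) (s : Fin n → Fin 3) (k : ℕ) : Prop :=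
  k < n ∧ pos s (k + 1) = pos s k + 1 ∧
    ∀ j : ℕ, k < j → j ≤ n → ‖pos s j - pos s k‖ ≤ ρ → (pos s k).re + 1 ≤ (pos s j).re

/-- the middle piece from `k` to `k2` -/
def GB {n : ℕ} (h L : ℝ) (s : Fin n → Fin 3) (k k2 : ℕ) : Prop :=
  k < k2 ∧ Even k2 ∧ pos s (k + 1) = pos s k + 1 ∧ (∀ j : ℕ, k < j → j ≤ k2 → (pos s k).re + 1 ≤ (pos s j).re) ∧
    (∀ j : ℕ, k ≤ j → j ≤ k2 → (pos s j).re ≤ (pos s k2).re) ∧ (∀ j : ℕ, k ≤ j → j ≤ k2 → ‖pos s j - pos s k‖ ≤ L) ∧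
    (pos s k).re + h ≤ (pos s k2).re ∧ ∀ k' : ℕ, SCut s k k' k2 → (pos s k').re < (pos s k).re + h

/-- a start gate -/
def T0 {n : ℕ} (a r ρ : ℝ) (s : Fin n → Fin 3) (k : ℕ) : Prop := GU a r s k ∧ GC ρ s k

/-- a start gate with a middle piece -/
def T1 {n : ℕ} (a r h L ρ : ℝ) (s : Fin n → Fin 3) (k k2 : ℕ) : Prop := GU a r s k ∧ GB h L s k k2 ∧ GC ρ s k2

/-- cut-off -/
noncomputable def tr (x : ℝ) : ℝ := max 0 (min 1 x)

open Classical in
/-- number (0 or 1) of the start gates -/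
noncomputable def th0 {n : ℕ} (a r ρ : ℝ) (s : Fin n → Fin 3) : ℝ :=
  (((Finset.range (n + 1)).filter fun k => T0 a r ρ s k).card : ℝ)

open Classical in
/-- mass of the middle pieces with `m` steps (walks from `0` to their end) -/
noncomputable def bw (h L : ℝ) (m : ℕ) : ℝ := (((saw m).filter fun s => GB h L s 0 m).card : ℝ) * fug ^ m

/-- the walk `s` without the steps number `k, ..., k2 - 1` -/
def del {n : ℕ} (s : Fin n → Fin 3) (k k2 : ℕ) : Fin (n - (k2 - k)) → Fin 3 := fun i =>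
  if h : (i : ℕ) < k ∧ (i : ℕ) < n then s ⟨i, h.2⟩ else if h : (i : ℕ) + (k2 - k) < n then s ⟨i + (k2 - k), h⟩ else 0

open Classical in
/-- **DEL**, exact deletion: for every function `g` of the number of steps of the middle piece and every function `F` of the rest -/
def Del : Prop := ∀ (a r h L ρ : ℝ), 0 < a → 0 < h → 0 ≤ L → 2 * (r + L) ≤ ρ →
  ∀ (N : ℕ) (g : ℕ → ℝ) (F : ∀ l : ℕ, (Fin l → Fin 3) → ℝ),
    (∑ s ∈ saw N, ∑ k ∈ Finset.range (N + 1), ∑ k2 ∈ Finset.range (N + 1),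
      if T1 a r h L ρ s k k2 then g (k2 - k) * F (N - (k2 - k)) (del s k k2) else 0) * fug ^ N =
    ∑ m ∈ Finset.range (N + 1), g m * bw h L m * ((∑ v ∈ saw (N - m), th0 a r ρ v * F (N - m) v) * fug ^ (N - m))

/-- the point number `i` of a grid in `[x, y]` -/
noncomputable def gp (M : ℕ) (x y : ℝ) (i : ℕ) : ℝ := x + (y - x) * ((i + 1 : ℕ) : ℝ) / (M : ℝ)

open Classical in
/-- the average of `T1` over the grid: `a` in `[R/4, R/2]`, `r` in `[R, 2R]`, `h` in `[L/32, L/16]`, radius of the middle piece in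
`[L, 2L]`, window in `[64 R, 128 R]`; number of steps of the middle piece in `[x1 n, x2 n]` -/
noncomputable def ps1 (M : ℕ) (R L x1 x2 : ℝ) {n : ℕ} (s : Fin n → Fin 3) : ℝ :=
  (∑ i1 ∈ Finset.range M, ∑ i2 ∈ Finset.range M, ∑ i3 ∈ Finset.range M, ∑ i4 ∈ Finset.range M, ∑ i5 ∈ Finset.range M,
    ∑ k ∈ Finset.range (n + 1), ∑ k2 ∈ Finset.range (n + 1),
      if T1 (gp M (R / 4) (R / 2) i1) (gp M R (2 * R) i2) (gp M (L / 32) (L / 16) i3) (gp M L (2 * L) i4)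
        (gp M (64 * R) (128 * R) i5) s k k2
      then tr (4 * (((k2 - k : ℕ) : ℝ) / n - x1) / (x2 - x1)) * tr (4 * (x2 - ((k2 - k : ℕ) : ℝ) / n) / (x2 - x1)) else 0) /
    (M : ℝ) ^ 5

/-- the curve is at a distance at least `c` (`2 c`: value 1) from `0` in the times behind `1 - κ` -/
noncomputable def zc (κ c : ℝ) (γ : CI) : ℝ :=
  tr (sInf ((fun t : unitInterval => ‖γ t‖) '' {t : unitInterval | 1 - κ ≤ (t : ℝ)}) / c - 1)

/-- **MAC** (K-row, exact number of steps, the scale is fixed) -/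
def MacT1 : Prop := ∀ R L κ x1 x2 : ℝ, 0 < R → 0 < L → L ≤ R / 8 → 0 < κ → κ < 1 → 0 < x1 → x1 < x2 → x2 < 1 → ∀ ε : ℝ, 0 < ε →
  ∃ M1 : ℕ, ∀ M : ℕ, M1 ≤ M → 1 ≤ M → ∃ (φ : CI → ℝ) (K : NNReal), LipschitzWith K φ ∧ (∀ γ, |φ γ| ≤ 1) ∧ ∃ n0 : ℕ,
    ∀ n : ℕ, n0 ≤ n →
      ∑ s ∈ saw n, |ps1 M (R * size n) (L * size n) x1 x2 s * zc κ (1000 * R) (curve s) - φ (curve s)| ≤
        ε * ((saw n).card : ℝ)

/-- **IND**: the start gates at a small scale are almost independent of the curve -/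
def Ind : Prop := ∀ (K : NNReal) (ε : ℝ), 0 < ε → ∃ δ0 : ℝ, 0 < δ0 ∧ ∀ δ1 : ℝ, 0 < δ1 → ∃ n0 : ℕ, ∀ n : ℕ, n0 ≤ n →
  ∀ (R a r ρ : ℝ), δ1 * size n ≤ R → R ≤ δ0 * size n → R / 4 ≤ a → a ≤ R / 2 → R ≤ r → r ≤ 2 * R → 64 * R ≤ ρ → ρ ≤ 128 * R →
    ∀ f : CI → ℝ, LipschitzWith K f → (∀ γ, |f γ| ≤ 1) →
      |(∑ s ∈ saw n, f (curve s) * th0 a r ρ s) / ((saw n).card : ℝ) -
        (∑ s ∈ saw n, f (curve s)) / ((saw n).card : ℝ) * ((∑ s ∈ saw n, th0 a r ρ s) / ((saw n).card : ℝ))| ≤ ε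

/-- **P0**: in a block of `M0` dyadic scales there is a start gate with a probability bounded below, uniformly in the scale -/
def P0 : Prop := ∃ (M0 : ℕ) (p δ0 : ℝ), 0 < p ∧ 0 < δ0 ∧ ∀ δ1 : ℝ, 0 < δ1 → ∃ n0 : ℕ, ∀ n : ℕ, n0 ≤ n →
  ∀ R : ℝ, δ1 * size n ≤ R → R ≤ δ0 * size n → ∀ u1 u2 u3 : ℝ, 0 ≤ u1 → u1 ≤ 1 → 0 ≤ u2 → u2 ≤ 1 → 0 ≤ u3 → u3 ≤ 1 →
    p * ((saw n).card : ℝ) ≤ ∑ i ∈ Finset.range M0, ∑ s ∈ saw n,
      th0 ((1 + u1) * (R / 2 ^ i) / 4) ((1 + u2) * (R / 2 ^ i)) (64 * (1 + u3) * (R / 2 ^ i)) s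

/-- **POS**: the mass of the middle pieces with a number of steps in a given window -/
def PosB : Prop := ∀ L x1 x2 : ℝ, 0 < L → 0 < x1 → x1 < x2 → x2 < 1 → ∃ (c : ℝ) (n0 : ℕ), 0 < c ∧ ∀ n : ℕ, n0 ≤ n →
  ∀ h L' : ℝ, L * size n / 32 ≤ h → h ≤ L * size n / 16 → L * size n ≤ L' →
    c ≤ ∑ m ∈ (Finset.range (n + 1)).filter (fun m : ℕ => x1 * n ≤ m ∧ (m : ℝ) ≤ x2 * n), bw h L' m

open Classical in
/-- **FAR1**: at the end the walk is far from the start, in comparison with a small scale -/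
def Far1 : Prop := ∀ κ ε : ℝ, 0 < κ → κ < 1 → 0 < ε → ∃ δ0 : ℝ, 0 < δ0 ∧ ∃ n0 : ℕ, ∀ n : ℕ, n0 ≤ n →
  (((saw n).filter fun s => ∃ j : ℕ, κ * n ≤ j ∧ j ≤ n ∧ ‖pos s j‖ ≤ δ0 * size n).card : ℝ) ≤ ε * ((saw n).card : ℝ)

end Pool.Agent.SCF.Z
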