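import Pool.Agent.SCF.ExN
import Pool.Agent.SCF.ZDefs
import Pool.Agent.PW.WindN
import Pool.Agent.CRT.VCom
import Pool.Agent.SLW.PubY

/-!
# ScaleFlow, row EXN (helper11), part 2: local events, with the factor `zc`

* `tk s j h`: the first `j` steps; `Loc Q D j`: the event `Q` is decided by the first `j` steps if the walk is outside of the disc of
  radius `D` from the time `j` on;
* **`exn_zc`**: exact numbers of steps from the mean for local events.
-/

set_option autoImplicit false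

open Set Filter Topology MeasureTheory
open scoped Classical

namespace Pool.Agent.SCF

open Pool.Agent.NTS.Res
open Pool.Agent.IW.Res (mean)
open Pool.Agent.CRT (CI)
open Pool.Agent.CRT.V (msum)
open Pool.Agent.CRT.V.VC (pr)
open NTSF (pos_zero pos_succ size_pos)
open NTSF.Wd (tm tm_coe curve_tm)

/-! ### 1. the first steps -/

/-- the first `j` steps -/
def tk {n : ℕ} (s : Fin n → Fin 3) (j : ℕ) (h : j ≤ n) : Fin j → Fin 3 := fun i => s ⟨i, lt_of_lt_of_le i.2 h⟩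

lemma pos_tk {n : ℕ} (s : Fin n → Fin 3) {j : ℕ} (h : j ≤ n) {i : ℕ} (hi : i ≤ j) : pos (tk s j h) i = pos s i := by
  induction i with
  | zero => rw [pos_zero, pos_zero]
  | succ i ih =>
    rw [pos_succ (tk s j h) i (by omega), pos_succ s i (by omega), ih (by omega)]
    rfl

lemma take_ofFn {n : ℕ} (s : Fin n → Fin 3) {j : ℕ} (h : j ≤ n) : (List.ofFn s).take j = List.ofFn (tk s j h) := by
  refine List.ext_getElem ?_ fun i h1 h2 => ?_
  · rw [List.length_take, List.length_ofFn, List.length_ofFn, min_eq_left h]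
  · rw [List.getElem_take, List.getElem_ofFn, List.getElem_ofFn]
    rfl

/-- decided by the first `j` steps if the walk is outside of the disc of radius `D` afterwards -/
def Loc (Q : ∀ m : ℕ, (Fin m → Fin 3) → Prop) (D : ℝ) (j : ℕ) : Prop := ∀ (m : ℕ) (s : Fin m → Fin 3) (h : j ≤ m),
  s ∈ saw m → (∀ i : ℕ, j ≤ i → i ≤ m → D < ‖pos s i‖) → (Q m s ↔ Q j (tk s j h))

/-- the event as a function of a list -/
noncomputable def evL (Q : ∀ m : ℕ, (Fin m → Fin 3) → Prop) (j : ℕ) (x : List (Fin 3)) : ℝ :=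
  if ∃ v : Fin j → Fin 3, List.ofFn v = x ∧ Q j v then 1 else 0

lemma evL_nonneg (Q : ∀ m : ℕ, (Fin m → Fin 3) → Prop) (j : ℕ) (x : List (Fin 3)) : 0 ≤ evL Q j x := by
  unfold evL
  split_ifs <;> norm_num

lemma evL_le (Q : ∀ m : ℕ, (Fin m → Fin 3) → Prop) (j : ℕ) (x : List (Fin 3)) : evL Q j x ≤ 1 := by
  unfold evL
  split_ifs <;> norm_num

lemma evL_take (Q : ∀ m : ℕ, (Fin m → Fin 3) → Prop) {n : ℕ} (s : Fin n → Fin 3) {j : ℕ} (h : j ≤ n) :
    evL Q j ((List.ofFn s).take j) = if Q j (tk s j h) then 1 else 0 := by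
  unfold evL
  rw [take_ofFn s h]
  congr 1
  rw [eq_iff_iff]
  constructor
  · rintro ⟨v, h1, h2⟩
    rwa [← List.ofFn_injective h1]
  · intro h1
    exact ⟨_, rfl, h1⟩

/-! ### 2. the factor -/

/-- the distance from `0` behind the time `1 - κ` -/
noncomputable def fd (κ : ℝ) (γ : CI) : ℝ := sInf ((fun t : unitInterval => ‖γ t‖) '' {t : unitInterval | 1 - κ ≤ (t : ℝ)})

lemma fd_bdd (κ : ℝ) (γ : CI) : BddBelow ((fun t : unitInterval => ‖γ t‖) '' {t : unitInterval | 1 - κ ≤ (t : ℝ)}) :=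
  ⟨0, by rintro _ ⟨t, -, rfl⟩; exact norm_nonneg _⟩

lemma fd_le {κ : ℝ} (γ : CI) {t : unitInterval} (h : 1 - κ ≤ (t : ℝ)) : fd κ γ ≤ ‖γ t‖ :=
  csInf_le (fd_bdd κ γ) ⟨t, h, rfl⟩

lemma fd_lip {κ : ℝ} (hκ : 0 < κ) (γ γ' : CI) : |fd κ γ - fd κ γ'| ≤ dist γ γ' := by
  have key : ∀ γ γ' : CI, fd κ γ ≤ fd κ γ' + dist γ γ' := by
    intro γ γ'
    have h1 : fd κ γ - dist γ γ' ≤ fd κ γ' := by
      refine le_csInf ⟨_, ⟨1, by show 1 - κ ≤ (1 : ℝ); linarith, rfl⟩⟩ ?_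
      rintro _ ⟨t, ht, rfl⟩
      have h2 := fd_le γ ht
      have h3 : ‖γ t‖ ≤ ‖γ' t‖ + dist γ γ' := by
        have h4 := ContinuousMap.dist_apply_le_dist (f := γ) (g := γ') t
        rw [dist_eq_norm] at h4
        have h5 := norm_sub_norm_le (γ t) (γ' t)
        linarith
      show fd κ γ - dist γ γ' ≤ ‖γ' t‖
      linarith
    linarith
  rw [abs_le]
  constructor
  · have := key γ' γ
    rw [dist_comm] at this
    linarith
  · have := key γ γ'
    linarith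

lemma tr_lip (x y : ℝ) : |Z.tr x - Z.tr y| ≤ |x - y| := by
  unfold Z.tr
  rw [abs_le]
  have h := neg_abs_le (x - y)
  have h' := le_abs_self (x - y)
  constructor
  · rcases max_cases 0 (min 1 x) with ⟨h1, h2⟩ | ⟨h1, h2⟩ <;> rcases max_cases 0 (min 1 y) with ⟨h3, h4⟩ | ⟨h3, h4⟩ <;>
      rcases min_cases 1 x with ⟨h5, h6⟩ | ⟨h5, h6⟩ <;> rcases min_cases 1 y with ⟨h7, h8⟩ | ⟨h7, h8⟩ <;> linarith
  · rcases max_cases 0 (min 1 x) with ⟨h1, h2⟩ | ⟨h1, h2⟩ <;> rcases max_cases 0 (min 1 y) with ⟨h3, h4⟩ | ⟨h3, h4⟩ <;>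
      rcases min_cases 1 x with ⟨h5, h6⟩ | ⟨h5, h6⟩ <;> rcases min_cases 1 y with ⟨h7, h8⟩ | ⟨h7, h8⟩ <;> linarith

lemma tr_nonneg (x : ℝ) : 0 ≤ Z.tr x := le_max_left _ _

lemma tr_le (x : ℝ) : Z.tr x ≤ 1 := max_le zero_le_one (min_le_left _ _)

lemma tr_pos {x : ℝ} (h : 0 < Z.tr x) : 0 < x := by
  unfold Z.tr at h
  rcases lt_max_iff.1 h with h1 | h1
  · exact absurd h1 (lt_irrefl _)
  · exact (lt_min_iff.1 h1).2

lemma tr_one {x : ℝ} (h : 1 ≤ x) : Z.tr x = 1 := by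
  unfold Z.tr
  rw [min_eq_left h, max_eq_right zero_le_one]

lemma zc_eq (κ c : ℝ) (γ : CI) : Z.zc κ c γ = Z.tr (fd κ γ / c - 1) := rfl

lemma zc_lip {κ c : ℝ} (hκ : 0 < κ) (hc : 0 < c) (γ γ' : CI) : |Z.zc κ c γ - Z.zc κ c γ'| ≤ 1 / c * dist γ γ' := by
  rw [zc_eq, zc_eq]
  refine (tr_lip _ _).trans ?_
  rw [show fd κ γ / c - 1 - (fd κ γ' / c - 1) = (fd κ γ - fd κ γ') / c by ring, abs_div, abs_of_pos hc]
  rw [div_le_iff₀ hc]
  refine (fd_lip hκ γ γ').trans (le_of_eq ?_)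
  field_simp

/-- a positive factor: the walk is far away -/
lemma zc_far {κ c : ℝ} (hc : 0 < c) {m : ℕ} (hm : 1 ≤ m) {s : Fin m → Fin 3} (h : 0 < Z.zc κ c (curve s)) {i : ℕ} (hi : i ≤ m)
    (h1 : (1 - κ) * m ≤ i) : c * size m < ‖pos s i‖ := by
  have hm0 : (0 : ℝ) < m := by exact_mod_cast hm
  rw [zc_eq] at h
  have h2 := tr_pos h
  have h3 : c < fd κ (curve s) := by
    have h4 : 1 < fd κ (curve s) / c := by linarith
    rwa [lt_div_iff₀ hc, one_mul] at h4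
  have h4 : 1 - κ ≤ ((tm m i : unitInterval) : ℝ) := by
    rw [tm_coe hi, le_div_iff₀ hm0]
    exact h1
  have h5 := h3.trans_le (fd_le (curve s) h4)
  rw [curve_tm hm hi, norm_div, Complex.norm_of_nonneg (size_pos hm).le, lt_div_iff₀ (size_pos hm)] at h5
  exact h5

/-- a positive factor is one for the half of the distance -/
lemma zc_half {κ c : ℝ} (hc : 0 < c) {γ : CI} (h : 0 < Z.zc κ c γ) : Z.zc κ (c / 2) γ = 1 := by
  rw [zc_eq] at h ⊢
  have h2 := tr_pos h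
  refine tr_one ?_
  have e : fd κ γ / (c / 2) = 2 * (fd κ γ / c) := by field_simp
  rw [e]
  linarith

/-! ### 3. exact numbers of steps -/

/-- **EXN**: local events -/
theorem exn_zc {ε κ c : ℝ} (hε : 0 < ε) (hκ : 0 < κ) (hκ1 : κ < 1) (hc : 0 < c) : ∃ d0 : ℝ, 0 < d0 ∧ ∀ d : ℝ, 0 < d → d ≤ d0 →
    ∃ N0 : ℕ, ∀ (N : ℕ) (Q : ∀ m : ℕ, (Fin m → Fin 3) → Prop), N0 ≤ N →
      (∀ j : ℕ, (1 - κ) * N ≤ j → Loc Q (c / 4 * size N) j) →
        pr N (fun s => Q N s ∧ 0 < Z.zc κ c (curve s)) ≤ msum Q 1 (1 + d) N / (d * N) + ε := by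
  obtain ⟨d1, hd1, h1⟩ := exn (ε := ε) (κ := κ / 2) (L := 1 / (c / 2)) hε (by positivity) (by positivity)
  obtain ⟨δ, hδ, hsl⟩ := NTSF.Mg.slow_curves.1 (1 / 2) (by norm_num)
  refine ⟨min d1 (min (κ / 4) δ), lt_min hd1 (lt_min (by positivity) hδ), fun d hd hdd => ?_⟩
  have hda : d ≤ d1 := hdd.trans (min_le_left _ _)
  have hdb : d ≤ κ / 4 := hdd.trans ((min_le_right _ _).trans (min_le_left _ _))
  have hdc : d ≤ δ := hdd.trans ((min_le_right _ _).trans (min_le_right _ _))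
  obtain ⟨N1, hN1⟩ := h1 d 1 1 hd hda one_pos
  obtain ⟨N2, hN2⟩ := exists_nat_ge (4 / κ + 1 / δ + 1)
  refine ⟨max N1 N2, fun N Q hN hQ => ?_⟩
  have hNa : N1 ≤ N := (le_max_left _ _).trans hN
  have hNb : 4 / κ + 1 / δ + 1 ≤ (N : ℝ) := hN2.trans (by exact_mod_cast (le_max_right _ _).trans hN)
  have hk4 : 0 < 4 / κ := by positivity
  have hd4 : 0 < 1 / δ := by positivity
  have hNr : (1 : ℝ) ≤ N := by linarith
  have hN1' : 1 ≤ N := by exact_mod_cast hNr
  have hκN : 4 ≤ κ * N := by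
    have : 4 / κ ≤ N := by linarith
    rwa [div_le_iff₀ hκ, mul_comm] at this
  obtain ⟨j, hj⟩ : ∃ j : ℕ, j = ⌊(1 - κ / 2) * (N : ℝ)⌋₊ := ⟨_, rfl⟩
  have hj0 : 0 ≤ (1 - κ / 2) * (N : ℝ) := mul_nonneg (by linarith) (by linarith)
  have hj1 : (j : ℝ) ≤ (1 - κ / 2) * N := by
    rw [hj]
    exact Nat.floor_le hj0
  have hj2 : (1 - κ / 2) * N < (j : ℝ) + 1 := by
    rw [hj]
    exact Nat.lt_floor_add_one _
  have hjN : j ≤ N := by
    have : (j : ℝ) ≤ N := hj1.trans (by nlinarith)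
    exact_mod_cast this
  have hjk : (1 - κ) * N ≤ j := by linarith
  have hloc := hQ j hjk
  have hs := size_pos hN1'
  -- far away
  have hfar : ∀ m : ℕ, N ≤ m → (m : ℝ) ≤ N + d * 1 * N → ∀ s ∈ saw m, 0 < Z.zc κ (c / 2) (curve s) →
      ∀ i : ℕ, j ≤ i → i ≤ m → c / 4 * size N < ‖pos s i‖ := by
    intro m hm1 hm2 s hs' hz i hi1 hi2
    have hm : 1 ≤ m := hN1'.trans hm1
    have h2 := zc_far (by positivity) hm hz hi2 (by
      have h3 : (j : ℝ) ≤ i := by exact_mod_cast hi1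
      have h4 : (1 - κ) * m ≤ (1 - κ) * (N + d * 1 * N) := mul_le_mul_of_nonneg_left hm2 (by linarith)
      have h5 : (1 - κ) * (N + d * 1 * N) ≤ (1 - κ) * N + κ / 4 * N := by
        have h6 : (1 - κ) * (d * N) ≤ 1 * (κ / 4 * N) :=
          mul_le_mul (by linarith) (mul_le_mul_of_nonneg_right hdb (by linarith)) (by positivity) zero_le_one
        calc (1 - κ) * (N + d * 1 * N) = (1 - κ) * N + (1 - κ) * (d * N) := by ring
          _ ≤ _ := by linarith
      linarith)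
    obtain ⟨q, rfl⟩ : ∃ q, m = N + q := ⟨m - N, by omega⟩
    have h3 := (hsl N q (by linarith) (by
      push_cast at hm2
      have : d * N ≤ δ * N := mul_le_mul_of_nonneg_right hdc (by linarith)
      linarith)).1
    have h4 := (abs_le.1 h3).1
    have h5 : 1 / 2 ≤ size (N + q) / size N := by linarith
    rw [le_div_iff₀ hs] at h5
    calc c / 4 * size N = c / 2 * (1 / 2 * size N) := by ring
      _ ≤ c / 2 * size (N + q) := mul_le_mul_of_nonneg_left h5 (by positivity)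
      _ < _ := h2
  have h2 := hN1 N N j Q (Z.zc κ (c / 2)) (evL Q j) hNa (by rw [one_mul]) (by rw [one_mul]) hj1
    (fun γ => tr_nonneg _) (fun γ => tr_le _) (fun γ γ' => zc_lip hκ (by positivity) γ γ')
    (evL_nonneg Q j) (evL_le Q j) (fun s hs' hB hz => by
      rw [evL_take Q s hjN, if_pos]
      refine (hloc N s hjN hs' ?_).1 hB
      exact hfar N le_rfl (by
        have : 0 ≤ d * 1 * N := by positivity
        linarith) s hs' hz) (fun m hm1 hm2 s hs' hz hΦ => by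
      rw [evL_take Q s (hjN.trans hm1)] at hΦ
      have h3 : Q j (tk s j (hjN.trans hm1)) := by
        by_contra h4
        exact hΦ (if_neg h4)
      exact (hloc m s (hjN.trans hm1) hs' (hfar m hm1 hm2 s hs' hz)).2 h3)
  rw [mul_one] at h2
  have h3 : pr N (fun s => Q N s ∧ 0 < Z.zc κ c (curve s)) ≤
      mean N (fun s => if Q N s then Z.zc κ (c / 2) (curve s) else 0) := by
    have e : pr N (fun s => Q N s ∧ 0 < Z.zc κ c (curve s)) = _ :=
      (mean_ite (n := N) (fun s => Q N s ∧ 0 < Z.zc κ c (curve s))).symm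
    rw [e]
    refine mean_mono fun s _ => ?_
    by_cases h4 : Q N s ∧ 0 < Z.zc κ c (curve s)
    · rw [if_pos h4, if_pos h4.1, zc_half hc h4.2]
    · rw [if_neg h4]
      split_ifs
      · exact tr_nonneg _
      · exact le_rfl
  exact h3.trans h2

end Pool.Agent.SCF
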