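import Pool.Agent.SCF.ExZ

/-!
# ScaleFlow, row McS (helper11): a comparison of good walks with close curves gives a Lipschitz functional (McShane)

* `mcs` : if `f s ≤ f s' + ε` for all good walks `s, s'` with curves at a distance at most `δ` then `f` is within `ε` of a functional
  of the curve with Lipschitz constant `1 / δ`;
* **`mcs_zc`** : the same for `p * ζ (curve)` with a Lipschitz factor `ζ`, in the mean over all walks (form of `MacT1`).
-/

set_option autoImplicit false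

open Set Filter Topology MeasureTheory
open scoped Classical

namespace Pool.Agent.SCF

open Pool.Agent.NTS.Res
open Pool.Agent.CRT (CI)
open Pool.Agent.CRT.V.VC (pr)

/-- **McShane** -/
theorem mcs {f : ∀ n : ℕ, (Fin n → Fin 3) → ℝ} (hf0 : ∀ n s, 0 ≤ f n s) (hf1 : ∀ n s, f n s ≤ 1) {ε δ : ℝ} (hε : 0 ≤ ε)
    (hδ : 0 < δ) {G : ∀ n : ℕ, (Fin n → Fin 3) → Prop}
    (h : ∀ (n n' : ℕ) (s : Fin n → Fin 3) (s' : Fin n' → Fin 3), G n s → G n' s' → dist (curve s) (curve s') ≤ δ →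
      f n s ≤ f n' s' + ε) :
    ∃ φ : CI → ℝ, (∀ γ γ', |φ γ - φ γ'| ≤ 1 / δ * dist γ γ') ∧ (∀ γ, 0 ≤ φ γ) ∧ (∀ γ, φ γ ≤ 1) ∧
      ∀ (n : ℕ) (s : Fin n → Fin 3), G n s → f n s ≤ φ (curve s) ∧ φ (curve s) ≤ f n s + ε := by
  obtain ⟨V, hV⟩ : ∃ V : CI → Set ℝ, V = fun γ => {x | x = 0 ∨ ∃ (n : ℕ) (s : Fin n → Fin 3), G n s ∧
    x = f n s - dist γ (curve s) / δ} := ⟨_, rfl⟩
  have hne : ∀ γ, (V γ).Nonempty := fun γ => ⟨0, by rw [hV]; exact Or.inl rfl⟩
  have hle : ∀ γ, ∀ x ∈ V γ, x ≤ 1 := by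
    intro γ x hx
    rw [hV] at hx
    rcases hx with rfl | ⟨n, s, -, rfl⟩
    · exact zero_le_one
    · have h1 : 0 ≤ dist γ (curve s) / δ := div_nonneg dist_nonneg hδ.le
      linarith [hf1 n s]
  have hbd : ∀ γ, BddAbove (V γ) := fun γ => ⟨1, fun x hx => hle γ x hx⟩
  have hlip : ∀ γ γ', sSup (V γ) ≤ sSup (V γ') + 1 / δ * dist γ γ' := by
    intro γ γ'
    have hd : 0 ≤ 1 / δ * dist γ γ' := by positivity
    refine csSup_le (hne γ) fun x hx => ?_
    rw [hV] at hx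
    rcases hx with rfl | ⟨n, s, hs, rfl⟩
    · have : (0 : ℝ) ≤ sSup (V γ') := le_csSup (hbd γ') (by rw [hV]; exact Or.inl rfl)
      linarith
    · have h1 : f n s - dist γ' (curve s) / δ ≤ sSup (V γ') :=
        le_csSup (hbd γ') (by rw [hV]; exact Or.inr ⟨n, s, hs, rfl⟩)
      have h2 : dist γ' (curve s) / δ ≤ dist γ (curve s) / δ + 1 / δ * dist γ γ' := by
        have h3 : dist γ' (curve s) ≤ dist γ (curve s) + dist γ γ' := by
          have := dist_triangle γ' γ (curve s)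
          rw [dist_comm γ' γ] at this
          linarith
        calc dist γ' (curve s) / δ ≤ (dist γ (curve s) + dist γ γ') / δ := div_le_div_of_nonneg_right h3 hδ.le
          _ = _ := by ring
      linarith
  refine ⟨fun γ => sSup (V γ), fun γ γ' => ?_, fun γ => ?_, fun γ => ?_, fun n s hs => ⟨?_, ?_⟩⟩
  · show |sSup (V γ) - sSup (V γ')| ≤ _
    rw [abs_le]
    have h1 := hlip γ γ'
    have h2 := hlip γ' γ
    rw [dist_comm γ' γ] at h2
    constructor <;> linarith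
  · exact le_csSup (hbd γ) (by rw [hV]; exact Or.inl rfl)
  · exact csSup_le (hne γ) (hle γ)
  · refine le_csSup (hbd _) ?_
    rw [hV]
    exact Or.inr ⟨n, s, hs, by rw [dist_self, zero_div, sub_zero]⟩
  · refine csSup_le (hne _) fun x hx => ?_
    rw [hV] at hx
    rcases hx with rfl | ⟨n', s', hs', rfl⟩
    · linarith [hf0 n s]
    · rcases le_or_gt (dist (curve s) (curve s')) δ with h1 | h1
      · have h2 := h n' n s' s hs' hs (by rwa [dist_comm])
        have h3 : 0 ≤ dist (curve s) (curve s') / δ := div_nonneg dist_nonneg hδ.le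
        linarith
      · have h2 : 1 < dist (curve s) (curve s') / δ := by rwa [lt_div_iff₀ hδ, one_mul]
        linarith [hf1 n' s', hf0 n s]

lemma pr_eq (n : ℕ) (P : (Fin n → Fin 3) → Prop) : pr n P = (((saw n).filter fun s => P s).card : ℝ) / ((saw n).card : ℝ) := rfl

/-- **McShane with a factor** -/
theorem mcs_zc {p : ∀ n : ℕ, (Fin n → Fin 3) → ℝ} (hp0 : ∀ n s, 0 ≤ p n s) (hp1 : ∀ n s, p n s ≤ 1) {ζ : CI → ℝ}
    (hz0 : ∀ γ, 0 ≤ ζ γ) (hz1 : ∀ γ, ζ γ ≤ 1) {L : ℝ} (hL : 0 < L) (hzL : ∀ γ γ', |ζ γ - ζ γ'| ≤ L * dist γ γ') {ε δ : ℝ}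
    (hε : 0 < ε) (hδ : 0 < δ) {n0 : ℕ} {Bad : ∀ n : ℕ, (Fin n → Fin 3) → Prop}
    (hB : ∀ n : ℕ, n0 ≤ n → pr n (fun s => Bad n s ∧ 0 < ζ (curve s)) ≤ ε)
    (h : ∀ (n n' : ℕ) (s : Fin n → Fin 3) (s' : Fin n' → Fin 3), n0 ≤ n → n0 ≤ n' → s ∈ saw n → s' ∈ saw n' →
      ¬ Bad n s → ¬ Bad n' s' → 0 < ζ (curve s) → 0 < ζ (curve s') → dist (curve s) (curve s') ≤ δ → p n s ≤ p n' s' + ε) :
    ∃ (φ : CI → ℝ) (K : NNReal), LipschitzWith K φ ∧ (∀ γ, |φ γ| ≤ 1) ∧ ∀ n : ℕ, n0 ≤ n →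
      ∑ s ∈ saw n, |p n s * ζ (curve s) - φ (curve s)| ≤ 3 * ε * ((saw n).card : ℝ) := by
  obtain ⟨δ', hδ'⟩ : ∃ δ' : ℝ, δ' = min δ (ε / L) := ⟨_, rfl⟩
  have hδ'0 : 0 < δ' := by
    rw [hδ']
    exact lt_min hδ (by positivity)
  have hδ1 : δ' ≤ δ := by
    rw [hδ']
    exact min_le_left _ _
  have hδ2 : L * δ' ≤ ε := by
    have h1 : δ' ≤ ε / L := by
      rw [hδ']
      exact min_le_right _ _
    rwa [le_div_iff₀ hL, mul_comm] at h1
  obtain ⟨φ, h1, h2, h3, h4⟩ := mcs (f := fun n s => p n s * ζ (curve s)) (fun n s => mul_nonneg (hp0 n s) (hz0 _))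
    (fun n s => mul_le_one₀ (hp1 n s) (hz0 _) (hz1 _)) (ε := 2 * ε) (δ := δ') (by positivity) hδ'0
    (G := fun n s => n0 ≤ n ∧ s ∈ saw n ∧ ¬ (Bad n s ∧ 0 < ζ (curve s))) (by
      rintro n n' s s' ⟨a1, a2, a3⟩ ⟨b1, b2, b3⟩ hd
      have hz := (hzL (curve s) (curve s')).trans (mul_le_mul_of_nonneg_left hd hL.le)
      have hz' := (abs_le.1 hz).2
      show p n s * ζ (curve s) ≤ p n' s' * ζ (curve s') + 2 * ε
      rcases eq_or_lt_of_le (hz0 (curve s)) with c1 | c1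
      · rw [← c1, mul_zero]
        have := mul_nonneg (hp0 n' s') (hz0 (curve s'))
        linarith
      rcases eq_or_lt_of_le (hz0 (curve s')) with c2 | c2
      · rw [← c2, mul_zero]
        rw [← c2] at hz'
        have : p n s * ζ (curve s) ≤ 1 * ζ (curve s) := mul_le_mul_of_nonneg_right (hp1 n s) (hz0 _)
        linarith
      have h5 := h n n' s s' a1 b1 a2 b2 (fun hb => a3 ⟨hb, c1⟩) (fun hb => b3 ⟨hb, c2⟩) c1 c2 (hd.trans hδ1)
      have h6 : p n s * ζ (curve s) ≤ (p n' s' + ε) * ζ (curve s) := mul_le_mul_of_nonneg_right h5 c1.le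
      have h7 : p n' s' * (ζ (curve s) - ζ (curve s')) ≤ 1 * ε := by
        rcases le_or_gt 0 (ζ (curve s) - ζ (curve s')) with c3 | c3
        · exact mul_le_mul (hp1 _ _) (by linarith) c3 zero_le_one
        · have : p n' s' * (ζ (curve s) - ζ (curve s')) ≤ 0 := mul_nonpos_of_nonneg_of_nonpos (hp0 _ _) c3.le
          linarith
      have h8 : ε * ζ (curve s) ≤ ε * 1 := mul_le_mul_of_nonneg_left (hz1 _) hε.le
      nlinarith)
  refine ⟨φ, Real.toNNReal (1 / δ'), LipschitzWith.of_dist_le_mul fun γ γ' => ?_, fun γ => ?_, fun n hn => ?_⟩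
  · rw [Real.dist_eq, Real.coe_toNNReal _ (by positivity)]
    exact h1 γ γ'
  · rw [abs_le]
    exact ⟨by linarith [h2 γ], h3 γ⟩
  · have hc := NTSF.saw_card_pos n
    have h5 : ∀ s ∈ saw n, |p n s * ζ (curve s) - φ (curve s)| ≤ 2 * ε + if Bad n s ∧ 0 < ζ (curve s) then (1 : ℝ) else 0 := by
      intro s hs
      split_ifs with hb
      · have a1 : 0 ≤ p n s * ζ (curve s) := mul_nonneg (hp0 n s) (hz0 _)
        have a2 : p n s * ζ (curve s) ≤ 1 := mul_le_one₀ (hp1 n s) (hz0 _) (hz1 _)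
        rw [abs_le]
        constructor <;> linarith [h2 (curve s), h3 (curve s)]
      · obtain ⟨a1, a2⟩ := h4 n s ⟨hn, hs, hb⟩
        have a1' : p n s * ζ (curve s) ≤ φ (curve s) := a1
        have a2' : φ (curve s) ≤ p n s * ζ (curve s) + 2 * ε := a2
        rw [abs_le]
        constructor <;> linarith
    have h6 := hB n hn
    rw [pr_eq, div_le_iff₀ hc] at h6
    calc ∑ s ∈ saw n, |p n s * ζ (curve s) - φ (curve s)| ≤
        ∑ s ∈ saw n, (2 * ε + if Bad n s ∧ 0 < ζ (curve s) then (1 : ℝ) else 0) := Finset.sum_le_sum h5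
      _ = 2 * ε * ((saw n).card : ℝ) + (((saw n).filter fun s => Bad n s ∧ 0 < ζ (curve s)).card : ℝ) := by
          rw [Finset.sum_add_distrib, Finset.sum_const, nsmul_eq_mul, Finset.sum_ite, Finset.sum_const_zero, add_zero,
            Finset.sum_const, nsmul_eq_mul, mul_one, mul_comm]
      _ ≤ _ := by
          have h7 : (((saw n).filter fun s => Bad n s ∧ 0 < ζ (curve s)).card : ℝ) ≤ ε * ((saw n).card : ℝ) := by
            refine le_trans (le_of_eq ?_) h6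
            congr!
          linarith

end Pool.Agent.SCF
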