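import Pool.Agent.SCF.StbLC
import Pool.Agent.SCF.VBadK

/-!
# ROT, block F3: local stability of the start cuts (helper66)
-/

set_option autoImplicit false

namespace Pool.Agent.SCF.M

/-- **local stability of the start cuts, absolute units** -/
theorem stbLP : StbLP := stbLP_of Pool.Agent.SCF.K.badN

end Pool.Agent.SCF.M
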