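import Pool.Agent.SCF.EpStep

/-!
# Native gates, walk side (row W8 of ROT / F3): start piece, four blocks, rest (helper4, for helper94)

The walk `a . T1 . T2 . T3 . T4 . rest` with the marks `k0 < k1 < k2 < k3 < k4`:

* `[0, k0]` : the start piece, a class `A0` of prefixes (94: `NC0`, no cut at all);
* `c = w_k1` : the first cut at least `T` higher than the TIP; `c+ = w_k2` : the first cut at least `h2` higher than `c`;
  `x = w_k3` : the first cut at least `h3` higher than `c`; `w_k4` : the first cut at least `h4` higher than `x`;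
* all blocks are in strips of half width `θ`, and the rest is in front of `w_k4` in the ball of radius `ρ` (`GC ρ`).

* **`glue_low`** : the mass of these walks is at least `t ^ 4 * (mass of the start pieces) * (mass of the rests)`, `t` from `Blk`;
* `E4.c_first`, `E4.x_first`, `E4.c_pos`, ... : the geometry of these walks.
-/

set_option autoImplicit false

open Set Filter Topology

namespace Pool.Agent.SCF.Z

open Pool.Agent.NTS.Res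
open NTSF (pos_zero pos_succ mem_saw)

/-- the threshold of the first block: the level `T` over the tip -/
noncomputable def hf1 (T : ℝ) : ∀ n : ℕ, (Fin n → Fin 3) → ℕ → ℝ := fun _ s k => T - ((pos s k).re - (pos s 0).re)

/-- a constant threshold -/
def hfc {ι : Type} (h : ℝ) : ∀ n : ℕ, (Fin n → Fin 3) → ι → ℝ := fun _ _ _ => h

/-- the threshold of the third block: the level `h` over the mark number 1 -/
noncomputable def hf3 (h : ℝ) : ∀ n : ℕ, (Fin n → Fin 3) → (ℕ × ℕ) × ℕ → ℝ := fun _ s p =>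
  h - ((pos s p.2).re - (pos s p.1.2).re)

/-- start piece, four blocks and rest -/
def E4 (A0 : ∀ n : ℕ, (Fin n → Fin 3) → ℕ → Prop) (T h2 h3 h4 θ ρ : ℝ) {n : ℕ} (s : Fin n → Fin 3) (k0 k1 k2 k3 k4 : ℕ) : Prop :=
  A0 n s k0 ∧ GBt (T - ((pos s k0).re - (pos s 0).re)) θ s k0 k1 ∧ GBt h2 θ s k1 k2 ∧
    GBt (h3 - ((pos s k2).re - (pos s k1).re)) θ s k2 k3 ∧ GBt h4 θ s k3 k4 ∧ GC ρ s k4

open Classical in
/-- the mass of the walks with `n` steps in the class -/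
noncomputable def e4m (A0 : ∀ n : ℕ, (Fin n → Fin 3) → ℕ → Prop) (T h2 h3 h4 θ ρ : ℝ) (n : ℕ) : ℝ :=
  (((saw n).filter fun s => ∃ k0 k1 k2 k3 k4 : ℕ, E4 A0 T h2 h3 h4 θ ρ s k0 k1 k2 k3 k4).card : ℝ) * fug ^ n

lemma nx_bd {n : ℕ} {s : Fin n → Fin 3} {k k2 : ℕ} {h θ : ℝ} (hB : GBt h θ s k k2) :
    (pos s k).re + h ≤ (pos s k2).re ∧ (pos s k2).re ≤ (pos s k).re + h + θ :=
  ⟨hB.1.2.2.2.2.2.2.1, (hB.2 k2 hB.1.1.le le_rfl).2⟩

open Classical in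
/-- **the mass of the walks with start piece, four blocks and rest**, abstract form -/
theorem e4_mass {A0 : ∀ n : ℕ, (Fin n → Fin 3) → ℕ → Prop} {R ha hb θ t ρ : ℝ} {M : ℕ} (hP : PC A0 id R) (hR : 0 ≤ R)
    (hθ : 0 ≤ θ) (hha : 0 ≤ ha) (hab : ha ≤ hb) (ht0 : 0 ≤ t)
    (ht : ∀ h : ℝ, ha ≤ h → h ≤ hb → t ≤ ∑ m ∈ Finset.range (M + 1), bwt h θ m)
    (hU : UQ A0 id (ρ - 4 * (hb + 2 * θ))) (hρ : 2 * R + 10 * (hb + 2 * θ) ≤ ρ) {T h2 h3 h4 : ℝ}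
    (hT1 : ha + R ≤ T) (hT2 : T ≤ hb) (h21 : ha ≤ h2) (h22 : h2 ≤ hb) (h31 : ha + h2 + θ ≤ h3) (h32 : h3 ≤ hb)
    (h41 : ha ≤ h4) (h42 : h4 ≤ hb) (N1 N2 : ℕ) :
    t ^ 4 * ((∑ k ∈ Finset.range (M + 1), (((saw k).filter fun s => A0 k s k).card : ℝ) * fug ^ k) *
      ∑ m ∈ Finset.Icc N1 N2, rst ρ m) ≤ ∑ N ∈ Finset.Icc N1 (N2 + 5 * M), e4m A0 T h2 h3 h4 θ ρ N := by
  obtain ⟨L, hL⟩ : ∃ L : ℝ, L = hb + 2 * θ := ⟨_, rfl⟩
  rw [← hL] at hU hρ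
  have hL0 : 0 ≤ L := by
    rw [hL]
    linarith
  -- the classes
  obtain ⟨A1, hA1⟩ : ∃ A1, A1 = Nx A0 id (hf1 T) θ := ⟨_, rfl⟩
  obtain ⟨A2, hA2⟩ : ∃ A2, A2 = Nx A1 Prod.snd (hfc h2) θ := ⟨_, rfl⟩
  obtain ⟨A3, hA3⟩ : ∃ A3, A3 = Nx A2 Prod.snd (hf3 h3) θ := ⟨_, rfl⟩
  obtain ⟨A4, hA4⟩ : ∃ A4, A4 = Nx A3 Prod.snd (hfc h4) θ := ⟨_, rfl⟩
  -- the thresholds
  have t1 : ∀ (n : ℕ) (s : Fin n → Fin 3) (i : ℕ), A0 n s i → ha ≤ hf1 T n s i ∧ hf1 T n s i ≤ hb := by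
    intro n s i hi
    have g1 := hP.left n s i hi 0 (Nat.zero_le _)
    have g2 := hP.ball n s i hi 0 (Nat.zero_le _)
    have g3 : (pos s i).re - (pos s 0).re ≤ R := by
      have g4 := (Complex.abs_re_le_norm (pos s 0 - pos s i)).trans g2
      rw [Complex.sub_re, abs_sub_comm] at g4
      exact (le_abs_self _).trans g4
    simp only [id] at g1
    show ha ≤ T - ((pos s i).re - (pos s 0).re) ∧ T - ((pos s i).re - (pos s 0).re) ≤ hb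
    constructor <;> linarith
  have t2 : ∀ (n : ℕ) (s : Fin n → Fin 3) (i : ℕ × ℕ), A1 n s i → ha ≤ hfc h2 n s i ∧ hfc h2 n s i ≤ hb :=
    fun _ _ _ _ => ⟨h21, h22⟩
  have t3 : ∀ (n : ℕ) (s : Fin n → Fin 3) (i : (ℕ × ℕ) × ℕ), A2 n s i → ha ≤ hf3 h3 n s i ∧ hf3 h3 n s i ≤ hb := by
    intro n s i hi
    rw [hA2] at hi
    have g1 := nx_bd hi.2
    have e1 : hfc h2 n s i.1 = h2 := rfl
    rw [e1] at g1
    show ha ≤ h3 - ((pos s i.2).re - (pos s i.1.2).re) ∧ h3 - ((pos s i.2).re - (pos s i.1.2).re) ≤ hb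
    constructor
    · linarith [g1.2]
    · linarith [g1.1]
  have t4 : ∀ (n : ℕ) (s : Fin n → Fin 3) (i : ((ℕ × ℕ) × ℕ) × ℕ), A3 n s i → ha ≤ hfc h4 n s i ∧ hfc h4 n s i ≤ hb :=
    fun _ _ _ _ => ⟨h41, h42⟩
  have hc1 : HC A0 id (hf1 T) := by
    intro n n' s s' i he _
    show T - ((pos s' i).re - (pos s' 0).re) = T - ((pos s i).re - (pos s 0).re)
    rw [he i le_rfl, he 0 (Nat.zero_le _)]
  have hc2 : HC A1 Prod.snd (hfc h2) := fun _ _ _ _ _ _ _ => rfl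
  have hc3 : HC A2 Prod.snd (hf3 h3) := by
    intro n n' s s' i he hi
    rw [hA2] at hi
    have hb := hi.2.1.1
    show h3 - ((pos s' i.2).re - (pos s' i.1.2).re) = h3 - ((pos s i.2).re - (pos s i.1.2).re)
    rw [he i.2 le_rfl, he i.1.2 (by omega)]
  have hc4 : HC A3 Prod.snd (hfc h4) := fun _ _ _ _ _ _ _ => rfl
  have l1 : ∀ (n : ℕ) (s : Fin n → Fin 3) (i : ℕ), A0 n s i → hf1 T n s i + 2 * θ ≤ L := fun n s i hi => by
    have := (t1 n s i hi).2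
    rw [hL]
    linarith
  have l2 : ∀ (n : ℕ) (s : Fin n → Fin 3) (i : ℕ × ℕ), A1 n s i → hfc h2 n s i + 2 * θ ≤ L := fun n s i hi => by
    have := (t2 n s i hi).2
    rw [hL]
    linarith
  have l3 : ∀ (n : ℕ) (s : Fin n → Fin 3) (i : (ℕ × ℕ) × ℕ), A2 n s i → hf3 h3 n s i + 2 * θ ≤ L := fun n s i hi => by
    have := (t3 n s i hi).2
    rw [hL]
    linarith
  have l4 : ∀ (n : ℕ) (s : Fin n → Fin 3) (i : ((ℕ × ℕ) × ℕ) × ℕ), A3 n s i → hfc h4 n s i + 2 * θ ≤ L := fun n s i hi => by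
    have := (t4 n s i hi).2
    rw [hL]
    linarith
  have P1 : PC A1 Prod.snd (R + 2 * L) := by
    rw [hA1]
    exact pc_nx hP hc1 l1 hR
  have P2 : PC A2 Prod.snd (R + 2 * L + 2 * L) := by
    rw [hA2]
    exact pc_nx P1 hc2 l2 (by linarith)
  have P3 : PC A3 Prod.snd (R + 2 * L + 2 * L + 2 * L) := by
    rw [hA3]
    exact pc_nx P2 hc3 l3 (by linarith)
  -- the sets of marks
  obtain ⟨S0, hS0⟩ : ∃ S0 : ℕ → Finset ℕ, S0 = fun N => Finset.range (N + 1) := ⟨_, rfl⟩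
  obtain ⟨S1, hS1⟩ : ∃ S1 : ℕ → Finset (ℕ × ℕ), S1 = fun N => S0 N ×ˢ Finset.range (N + 1) := ⟨_, rfl⟩
  obtain ⟨S2, hS2⟩ : ∃ S2 : ℕ → Finset ((ℕ × ℕ) × ℕ), S2 = fun N => S1 N ×ˢ Finset.range (N + 1) := ⟨_, rfl⟩
  obtain ⟨S3, hS3⟩ : ∃ S3 : ℕ → Finset (((ℕ × ℕ) × ℕ) × ℕ), S3 = fun N => S2 N ×ˢ Finset.range (N + 1) := ⟨_, rfl⟩
  obtain ⟨S4, hS4⟩ : ∃ S4 : ℕ → Finset ((((ℕ × ℕ) × ℕ) × ℕ) × ℕ), S4 = fun N => S3 N ×ˢ Finset.range (N + 1) := ⟨_, rfl⟩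
  have hr : ∀ N N' : ℕ, N ≤ N' → Finset.range (N + 1) ⊆ Finset.range (N' + 1) := fun N N' h =>
    Finset.range_subset_range.2 (by omega)
  have m0 : ∀ N N' : ℕ, N ≤ N' → S0 N ⊆ S0 N' := by
    rw [hS0]
    exact hr
  have m1 : ∀ N N' : ℕ, N ≤ N' → S1 N ⊆ S1 N' := by
    rw [hS1]
    exact fun N N' h => Finset.product_subset_product (m0 N N' h) (hr N N' h)
  have m2 : ∀ N N' : ℕ, N ≤ N' → S2 N ⊆ S2 N' := by
    rw [hS2]
    exact fun N N' h => Finset.product_subset_product (m1 N N' h) (hr N N' h)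
  have m3 : ∀ N N' : ℕ, N ≤ N' → S3 N ⊆ S3 N' := by
    rw [hS3]
    exact fun N N' h => Finset.product_subset_product (m2 N N' h) (hr N N' h)
  -- the steps
  have s0 := start_mass (ρ := ρ) hP (by linarith) M N1 N2
  rw [← hS0] at s0
  have s1 := step_mass (ρ := ρ) m0 hP hc1 l1 (by linarith) (fun n s i hi => ht _ (t1 n s i hi).1 (t1 n s i hi).2) N1 (N2 + M)
  rw [← hA1, ← hS1] at s1
  have s2 := step_mass (ρ := ρ) m1 P1 hc2 l2 (by linarith) (fun n s i hi => ht _ (t2 n s i hi).1 (t2 n s i hi).2) N1 (N2 + M + M)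
  rw [← hA2, ← hS2] at s2
  have s3 := step_mass (ρ := ρ) m2 P2 hc3 l3 (by linarith) (fun n s i hi => ht _ (t3 n s i hi).1 (t3 n s i hi).2) N1 (N2 + M + M + M)
  rw [← hA3, ← hS3] at s3
  have s4 := step_mass (ρ := ρ) m3 P3 hc4 l4 (by linarith) (fun n s i hi => ht _ (t4 n s i hi).1 (t4 n s i hi).2) N1
    (N2 + M + M + M + M)
  rw [← hA4, ← hS4] at s4
  have e5 : N2 + M + M + M + M + M = N2 + 5 * M := by ring
  rw [e5] at s4
  -- uniqueness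
  have hU' : UQ A4 Prod.snd ρ := by
    have u0 : UQ A0 id (ρ - 4 * L) := hU
    have u1 : UQ A1 Prod.snd (ρ - 4 * L + L) := by
      rw [hA1]
      exact uq_nx l1 (by linarith) hL0 u0
    have u2 : UQ A2 Prod.snd (ρ - 4 * L + L + L) := by
      rw [hA2]
      exact uq_nx l2 (by linarith) hL0 u1
    have u3 : UQ A3 Prod.snd (ρ - 4 * L + L + L + L) := by
      rw [hA3]
      exact uq_nx l3 (by linarith) hL0 u2
    have u4 : UQ A4 Prod.snd (ρ - 4 * L + L + L + L + L) := by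
      rw [hA4]
      exact uq_nx l4 (by linarith) hL0 u3
    have e : ρ - 4 * L + L + L + L + L = ρ := by ring
    rwa [e] at u4
  have hfug : (0 : ℝ) ≤ fug := by
    unfold fug
    positivity
  have fin : ∑ N ∈ Finset.Icc N1 (N2 + 5 * M), Cg A4 Prod.snd S4 ρ N ≤
      ∑ N ∈ Finset.Icc N1 (N2 + 5 * M), e4m A0 T h2 h3 h4 θ ρ N := by
    refine Finset.sum_le_sum fun N _ => (cg_le hU' N).trans ?_
    unfold e4m
    refine mul_le_mul_of_nonneg_right ?_ (pow_nonneg hfug _)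
    rw [Nat.cast_le]
    refine Finset.card_le_card fun s hs => ?_
    rw [Finset.mem_filter] at hs ⊢
    obtain ⟨q1, ⟨⟨⟨⟨k0, k1⟩, k2⟩, k3⟩, k4⟩, q2, q3⟩ := hs
    rw [hA4, hA3, hA2, hA1] at q2
    obtain ⟨⟨⟨⟨a1, a2⟩, a3⟩, a4⟩, a5⟩ := q2
    exact ⟨q1, k0, k1, k2, k3, k4, a1, a2, a3, a4, a5, q3⟩
  have hA : 0 ≤ (∑ k ∈ Finset.range (M + 1), (((saw k).filter fun s => A0 k s k).card : ℝ) * fug ^ k) *
      ∑ m ∈ Finset.Icc N1 N2, rst ρ m := by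
    unfold rst
    positivity
  have key : ∀ {x0 x1 x2 x3 x4 x5 y : ℝ}, x0 ≤ x1 → t * x1 ≤ x2 → t * x2 ≤ x3 → t * x3 ≤ x4 → t * x4 ≤ x5 → x5 ≤ y →
      t ^ 4 * x0 ≤ y := by
    intro x0 x1 x2 x3 x4 x5 y g0 g1 g2 g3 g4 g5
    have b1 : t * x0 ≤ x2 := (mul_le_mul_of_nonneg_left g0 ht0).trans g1
    have b2 : t * (t * x0) ≤ x3 := (mul_le_mul_of_nonneg_left b1 ht0).trans g2
    have b3 : t * (t * (t * x0)) ≤ x4 := (mul_le_mul_of_nonneg_left b2 ht0).trans g3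
    have b4 : t * (t * (t * (t * x0))) ≤ x5 := (mul_le_mul_of_nonneg_left b3 ht0).trans g4
    have e : t ^ 4 * x0 = t * (t * (t * (t * x0))) := by ring
    rw [e]
    exact b4.trans g5
  exact key s0 s1 s2 s3 s4 fin

open Classical in
/-- **gluing**: with the blocks of `Blk` -/
theorem glue_low (η e : ℝ) (hη : 0 < η) (he : 0 < e) : ∃ t h0 : ℝ, 0 < t ∧
    ∀ (A0 : ∀ n : ℕ, (Fin n → Fin 3) → ℕ → Prop) (R ha hb θ ρ : ℝ) (M : ℕ), PC A0 id R → 0 ≤ R → h0 ≤ ha → 0 ≤ ha → ha ≤ hb →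
      η * hb ≤ θ → e * hb ^ (4 / 3 : ℝ) ≤ M → UQ A0 id (ρ - 4 * (hb + 2 * θ)) → 2 * R + 10 * (hb + 2 * θ) ≤ ρ →
      ∀ T h2 h3 h4 : ℝ, ha + R ≤ T → T ≤ hb → ha ≤ h2 → h2 ≤ hb → ha + h2 + θ ≤ h3 → h3 ≤ hb → ha ≤ h4 → h4 ≤ hb →
        ∀ N1 N2 : ℕ, t * ((∑ k ∈ Finset.range (M + 1), (((saw k).filter fun s => A0 k s k).card : ℝ) * fug ^ k) *
          ∑ m ∈ Finset.Icc N1 N2, rst ρ m) ≤ ∑ N ∈ Finset.Icc N1 (N2 + 5 * M), e4m A0 T h2 h3 h4 θ ρ N := by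
  obtain ⟨t, h0, ht, hblk⟩ := blk η e hη he
  refine ⟨t ^ 4, h0, by positivity, fun A0 R ha hb θ ρ M hP hR h1 h2 h3 h4 h5 h6 h7 T h2' h3' h4' c1 c2 c3 c4 c5 c6 c7 c8 N1 N2 =>
    e4_mass hP hR ((mul_nonneg hη.le (h2.trans h3)).trans h4) h2 h3 ht.le (fun h hh1 hh2 => hblk h θ (by linarith) ?_ M ?_) h6 h7 c1 c2 c3 c4
      c5 c6 c7 c8 N1 N2⟩
  · exact (mul_le_mul_of_nonneg_left hh2 hη.le).trans h4
  · exact (mul_le_mul_of_nonneg_left (Real.rpow_le_rpow (by linarith) hh2 (by norm_num)) he.le).trans h5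

/-! ### the geometry -/

section Geo

variable {A0 : ∀ n : ℕ, (Fin n → Fin 3) → ℕ → Prop} {R T h2 h3 h4 θ ρ : ℝ} {n : ℕ} {s : Fin n → Fin 3} {k0 k1 k2 k3 k4 : ℕ}

lemma SCut.mono {a k' k l : ℕ} (h : SCut s a k' k) (hl : l ≤ k) (hk : k' < l) : SCut s a k' l := by
  obtain ⟨h1, h2, h3, h4, h5, h6⟩ := h
  exact ⟨h1, hk, h3, h4, h5, fun j j1 j2 => h6 j j1 (j2.trans hl)⟩

lemma SCut.start {a a' k' k : ℕ} (h : SCut s a k' k) (ha : a ≤ a') (hk : a' ≤ k') : SCut s a' k' k := by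
  obtain ⟨h1, h2, h3, h4, h5, h6⟩ := h
  exact ⟨hk, h2, h3, h4, fun i i1 i2 => h5 i (ha.trans i1) i2, h6⟩

lemma E4.lt (h : E4 A0 T h2 h3 h4 θ ρ s k0 k1 k2 k3 k4) : k0 < k1 ∧ k1 < k2 ∧ k2 < k3 ∧ k3 < k4 ∧ k4 < n :=
  ⟨h.2.1.1.1, h.2.2.1.1.1, h.2.2.2.1.1.1, h.2.2.2.2.1.1.1, h.2.2.2.2.2.1⟩

/-- the mark `c`: its level and its lateral coordinate -/
lemma E4.c_pos (h : E4 A0 T h2 h3 h4 θ ρ s k0 k1 k2 k3 k4) (hP : PC A0 id R) :
    T ≤ (pos s k1).re ∧ (pos s k1).re ≤ T + θ ∧ |(pos s k1).im| ≤ R + θ := by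
  obtain ⟨a0, g1, -⟩ := h
  have e1 := nx_bd g1
  have z0 : pos s 0 = 0 := pos_zero _
  rw [z0, Complex.zero_re] at e1
  have e2 := (g1.2 k1 g1.1.1.le le_rfl).1
  have e3 := hP.ball n s k0 a0 0 (Nat.zero_le _)
  simp only [id] at e3
  rw [z0] at e3
  have e4 := (Complex.abs_im_le_norm (0 - pos s k0)).trans e3
  rw [Complex.sub_im, Complex.zero_im, zero_sub, abs_neg] at e4
  refine ⟨by linarith, by linarith, ?_⟩
  calc |(pos s k1).im| = |((pos s k1).im - (pos s k0).im) + (pos s k0).im| := by ring_nf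
    _ ≤ |(pos s k1).im - (pos s k0).im| + |(pos s k0).im| := abs_add_le _ _
    _ ≤ R + θ := by linarith

/-- the prefix of `c` is weakly to the left of `c` -/
lemma E4.c_left (h : E4 A0 T h2 h3 h4 θ ρ s k0 k1 k2 k3 k4) (hP : PC A0 id R) {j : ℕ} (hj : j ≤ k1) :
    (pos s j).re ≤ (pos s k1).re := by
  obtain ⟨a0, g1, -⟩ := h
  obtain ⟨⟨b1, b2, b3, b4, b5, b6, b7, -⟩, -⟩ := g1
  rcases le_or_gt j k0 with h4 | h4
  · exact (hP.left n s k0 a0 j h4).trans (b5 _ le_rfl b1.le)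
  · exact b5 j h4.le hj

/-- the prefix of `c` is in the strip between the tip and `c` -/
lemma E4.c_pref (h : E4 A0 T h2 h3 h4 θ ρ s k0 k1 k2 k3 k4) (hP : PC A0 id R) {j : ℕ} (hj : j ≤ k1) :
    -2 * R ≤ (pos s j).re ∧ (pos s j).re ≤ T + θ ∧ |(pos s j).im| ≤ 2 * R + θ := by
  have hc := h.c_pos hP
  have hl := h.c_left hP hj
  obtain ⟨a0, g1, -⟩ := h
  have z0 : pos s 0 = 0 := pos_zero _
  have e3 := hP.ball n s k0 a0 0 (Nat.zero_le _)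
  simp only [id] at e3
  rw [z0] at e3
  have f1 := (Complex.abs_re_le_norm (0 - pos s k0)).trans e3
  have f2 := (Complex.abs_im_le_norm (0 - pos s k0)).trans e3
  rw [Complex.sub_re, Complex.zero_re, zero_sub, abs_neg] at f1
  rw [Complex.sub_im, Complex.zero_im, zero_sub, abs_neg] at f2
  rw [abs_le] at f1
  rcases le_or_gt j k0 with h4 | h4
  · have e4 := hP.ball n s k0 a0 j h4
    simp only [id] at e4
    have f3 := (Complex.abs_re_le_norm (pos s j - pos s k0)).trans e4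
    have f4 := (Complex.abs_im_le_norm (pos s j - pos s k0)).trans e4
    rw [Complex.sub_re, abs_le] at f3
    rw [Complex.sub_im] at f4
    have hth : 0 ≤ θ := (abs_nonneg _).trans (g1.2 k0 le_rfl g1.1.1.le).1
    refine ⟨by linarith, by linarith [hc.2.1], ?_⟩
    calc |(pos s j).im| = |((pos s j).im - (pos s k0).im) + (pos s k0).im| := by ring_nf
      _ ≤ |(pos s j).im - (pos s k0).im| + |(pos s k0).im| := abs_add_le _ _
      _ ≤ 2 * R + θ := by linarith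
  · have e5 := g1.1.2.2.2.1 j h4 hj
    have e6 := (g1.2 j h4.le hj).1
    have hR : 0 ≤ R := (norm_nonneg _).trans e3
    refine ⟨by linarith, by linarith [hc.2.1], ?_⟩
    calc |(pos s j).im| = |((pos s j).im - (pos s k0).im) + (pos s k0).im| := by ring_nf
      _ ≤ |(pos s j).im - (pos s k0).im| + |(pos s k0).im| := abs_add_le _ _
      _ ≤ 2 * R + θ := by linarith

/-- **`c` is the first cut at least `T` higher than the tip** -/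
lemma E4.c_first (h : E4 A0 T h2 h3 h4 θ ρ s k0 k1 k2 k3 k4) (hP : PC A0 id R) (hN : ∀ k' : ℕ, ¬ SCut s 0 k' k0) (hT : R < T)
    {k' : ℕ} (hc : SCut s 0 k' k1) : (pos s k').re < T := by
  obtain ⟨a0, g1, -⟩ := h
  have z0 : pos s 0 = 0 := pos_zero _
  have e3 := hP.ball n s k0 a0 0 (Nat.zero_le _)
  simp only [id] at e3
  rw [z0] at e3
  have f1 := (Complex.abs_re_le_norm (0 - pos s k0)).trans e3
  rw [Complex.sub_re, Complex.zero_re, zero_sub, abs_neg, abs_le] at f1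
  rcases lt_trichotomy k' k0 with h4 | h4 | h4
  · exact absurd (hc.mono g1.1.1.le h4) (hN k')
  · rw [h4]
    linarith
  · have e4 := g1.1.2.2.2.2.2.2.2 k' (hc.start (Nat.zero_le _) h4.le)
    rw [z0, Complex.zero_re] at e4
    linarith

/-- `c+` is the first cut at least `h2` higher than `c` -/
lemma E4.cp_first (h : E4 A0 T h2 h3 h4 θ ρ s k0 k1 k2 k3 k4) {k' : ℕ} (hc : SCut s k1 k' k2) :
    (pos s k').re < (pos s k1).re + h2 := h.2.2.1.1.2.2.2.2.2.2.2 k' hc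

/-- the level of `c+` over `c` -/
lemma E4.cp_pos (h : E4 A0 T h2 h3 h4 θ ρ s k0 k1 k2 k3 k4) :
    (pos s k1).re + h2 ≤ (pos s k2).re ∧ (pos s k2).re ≤ (pos s k1).re + h2 + θ ∧ |(pos s k2).im - (pos s k1).im| ≤ θ :=
  ⟨(nx_bd h.2.2.1).1, (nx_bd h.2.2.1).2, (h.2.2.1.2 k2 h.2.2.1.1.1.le le_rfl).1⟩

/-- **`x` is the first cut at least `h3` higher than `c`** -/
lemma E4.x_first (h : E4 A0 T h2 h3 h4 θ ρ s k0 k1 k2 k3 k4) (h23 : h2 + θ < h3) {k' : ℕ} (hc : SCut s k1 k' k3) :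
    (pos s k').re < (pos s k1).re + h3 := by
  have hp := h.cp_pos
  have hth : 0 ≤ θ := (abs_nonneg _).trans hp.2.2
  obtain ⟨-, -, g2, g3, -⟩ := h
  rcases lt_trichotomy k' k2 with h4 | h4 | h4
  · have := g2.1.2.2.2.2.2.2.2 k' (hc.mono g3.1.1.le h4)
    linarith
  · rw [h4]
    linarith [hp.2.1]
  · have := g3.1.2.2.2.2.2.2.2 k' (hc.start g2.1.1.le h4.le)
    linarith

/-- the level of `x` over `c` -/
lemma E4.x_pos (h : E4 A0 T h2 h3 h4 θ ρ s k0 k1 k2 k3 k4) :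
    (pos s k1).re + h3 ≤ (pos s k3).re ∧ (pos s k3).re ≤ (pos s k1).re + h3 + θ ∧ |(pos s k3).im - (pos s k1).im| ≤ 2 * θ := by
  have hp := h.cp_pos
  have e1 := nx_bd h.2.2.2.1
  have e2 := (h.2.2.2.1.2 k3 h.2.2.2.1.1.1.le le_rfl).1
  refine ⟨by linarith, by linarith, ?_⟩
  calc |(pos s k3).im - (pos s k1).im| = |((pos s k3).im - (pos s k2).im) + ((pos s k2).im - (pos s k1).im)| := by ring_nf
    _ ≤ |(pos s k3).im - (pos s k2).im| + |(pos s k2).im - (pos s k1).im| := abs_add_le _ _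
    _ ≤ 2 * θ := by linarith

/-- the last mark over `x` -/
lemma E4.y_pos (h : E4 A0 T h2 h3 h4 θ ρ s k0 k1 k2 k3 k4) :
    (pos s k3).re + h4 ≤ (pos s k4).re ∧ (pos s k4).re ≤ (pos s k3).re + h4 + θ ∧ |(pos s k4).im - (pos s k3).im| ≤ θ :=
  ⟨(nx_bd h.2.2.2.2.1).1, (nx_bd h.2.2.2.2.1).2, (h.2.2.2.2.1.2 k4 h.2.2.2.2.1.1.1.le le_rfl).1⟩

/-- the last mark is the first cut at least `h4` higher than `x` -/
lemma E4.y_first (h : E4 A0 T h2 h3 h4 θ ρ s k0 k1 k2 k3 k4) {k' : ℕ} (hc : SCut s k3 k' k4) :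
    (pos s k').re < (pos s k3).re + h4 := h.2.2.2.2.1.1.2.2.2.2.2.2.2 k' hc

/-- the block from `c` to `x` -/
lemma E4.cx (h : E4 A0 T h2 h3 h4 θ ρ s k0 k1 k2 k3 k4) {j : ℕ} (h1 : k1 < j) (hj : j ≤ k3) :
    (pos s k1).re + 1 ≤ (pos s j).re ∧ (pos s j).re ≤ (pos s k3).re ∧ |(pos s j).im - (pos s k1).im| ≤ 2 * θ := by
  have hp := h.cp_pos
  have hx := h.x_pos
  obtain ⟨-, -, g2, g3, -⟩ := h
  have hth : 0 ≤ θ := (abs_nonneg _).trans hp.2.2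
  rcases le_or_gt j k2 with h4 | h4
  · have e1 := g2.1.2.2.2.1 j h1 h4
    have e2 := g2.1.2.2.2.2.1 j h1.le h4
    have e3 := (g2.2 j h1.le h4).1
    have e4 := g3.1.2.2.2.2.1 k2 le_rfl g3.1.1.le
    exact ⟨e1, by linarith, by linarith⟩
  · have e1 := g3.1.2.2.2.1 j h4 hj
    have e2 := g3.1.2.2.2.2.1 j h4.le hj
    have e3 := (g3.2 j h4.le hj).1
    have e4 := g2.1.2.2.2.1 k2 g2.1.1 le_rfl
    refine ⟨by linarith, by linarith, ?_⟩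
    calc |(pos s j).im - (pos s k1).im| = |((pos s j).im - (pos s k2).im) + ((pos s k2).im - (pos s k1).im)| := by ring_nf
      _ ≤ |(pos s j).im - (pos s k2).im| + |(pos s k2).im - (pos s k1).im| := abs_add_le _ _
      _ ≤ 2 * θ := by linarith

/-- the block from `x` to the last mark -/
lemma E4.xy (h : E4 A0 T h2 h3 h4 θ ρ s k0 k1 k2 k3 k4) {j : ℕ} (h1 : k3 < j) (hj : j ≤ k4) :
    (pos s k3).re + 1 ≤ (pos s j).re ∧ (pos s j).re ≤ (pos s k4).re ∧ |(pos s j).im - (pos s k3).im| ≤ θ := by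
  obtain ⟨-, -, -, -, g4, -⟩ := h
  exact ⟨g4.1.2.2.2.1 j h1 hj, g4.1.2.2.2.2.1 j h1.le hj, (g4.2 j h1.le hj).1⟩

/-- the four steps `+1` behind the marks -/
lemma E4.steps (h : E4 A0 T h2 h3 h4 θ ρ s k0 k1 k2 k3 k4) : pos s (k0 + 1) = pos s k0 + 1 ∧ pos s (k1 + 1) = pos s k1 + 1 ∧
    pos s (k2 + 1) = pos s k2 + 1 ∧ pos s (k3 + 1) = pos s k3 + 1 ∧ pos s (k4 + 1) = pos s k4 + 1 := by
  obtain ⟨-, g1, g2, g3, g4, g5⟩ := h
  exact ⟨g1.1.2.2.1, g2.1.2.2.1, g3.1.2.2.1, g4.1.2.2.1, g5.2.1⟩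

/-- the marks are even -/
lemma E4.even (h : E4 A0 T h2 h3 h4 θ ρ s k0 k1 k2 k3 k4) : Even k1 ∧ Even k2 ∧ Even k3 ∧ Even k4 := by
  obtain ⟨-, g1, g2, g3, g4, -⟩ := h
  exact ⟨g1.1.2.1, g2.1.2.1, g3.1.2.1, g4.1.2.1⟩

/-- `c+` is a cut of the block from `c` to `x` -/
lemma E4.cp_cut (h : E4 A0 T h2 h3 h4 θ ρ s k0 k1 k2 k3 k4) : SCut s k1 k2 k3 := by
  obtain ⟨-, -, g2, g3, -⟩ := h
  exact ⟨g2.1.1.le, g3.1.1, g2.1.2.1, g3.1.2.2.1, fun i i1 i2 => g2.1.2.2.2.2.1 i i1 i2, fun j j1 j2 => g3.1.2.2.2.1 j j1 j2⟩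

/-- **the rest never comes back**: outside of the ball of radius `ρ` about the last mark, or in front of it -/
lemma E4.rest (h : E4 A0 T h2 h3 h4 θ ρ s k0 k1 k2 k3 k4) {j : ℕ} (h1 : k4 < j) (hj : j ≤ n) :
    (pos s k4).re + 1 ≤ (pos s j).re ∨ ρ < ‖pos s j - pos s k4‖ := by
  rcases le_or_gt ‖pos s j - pos s k4‖ ρ with h5 | h5
  · exact Or.inl (h.2.2.2.2.2.2.2 j h1 hj h5)
  · exact Or.inr h5

end Geo

end Pool.Agent.SCF.Z
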