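import Pool.Agent.SCF.EpW

/-!
# Native gates, walk side (row W8 of ROT / F3): start piece, three blocks, a weighted block, one block, rest (helper4, for helper94)

The walk `a . T1 . T2 . T3 . b2 . T5 . rest` with the marks `k0 < ... < k5`: as `E4`, with one more block `b2` from `x = w_k3` to
`w_k4`, of a class `Bk` (a condition on the steps of the block, `GB h4 L2`), with a weight `ψ`.

* **`glue5`** : the weighted mass of these walks is at least `t * (start pieces) * (weighted blocks) * (rests)`, `t` from `Blk` only;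
* `w5_eq`, `w5_zero`, `w5_le` : the weight `w5 s` is the weight of the block of `s`; the marks are unique (`E5.uniq`).
-/

set_option autoImplicit false

open Set Filter Topology

namespace Pool.Agent.SCF.Z

open Pool.Agent.NTS.Res
open NTSF (pos_zero pos_succ mem_saw)

/-- start piece, three blocks, a block of the class `Bk`, a block, rest -/
def E5 (A0 : ∀ n : ℕ, (Fin n → Fin 3) → ℕ → Prop) (Bk : ∀ m : ℕ, (Fin m → Fin 3) → Prop) (T h2 h3 h5 θ ρ : ℝ) {n : ℕ}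
    (s : Fin n → Fin 3) (k0 k1 k2 k3 k4 k5 : ℕ) : Prop :=
  A0 n s k0 ∧ GBt (T - ((pos s k0).re - (pos s 0).re)) θ s k0 k1 ∧ GBt h2 θ s k1 k2 ∧
    GBt (h3 - ((pos s k2).re - (pos s k1).re)) θ s k2 k3 ∧ (k3 ≤ k4 ∧ Bk (k4 - k3) (md s k3 (k4 - k3))) ∧ GBt h5 θ s k4 k5 ∧
    GC ρ s k5

/-- the marks -/
def Mk5 (n : ℕ) : Finset (((((ℕ × ℕ) × ℕ) × ℕ) × ℕ) × ℕ) :=
  ((((Finset.range (n + 1) ×ˢ Finset.range (n + 1)) ×ˢ Finset.range (n + 1)) ×ˢ Finset.range (n + 1)) ×ˢ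
    Finset.range (n + 1)) ×ˢ Finset.range (n + 1)

open Classical in
/-- the weight of a walk -/
noncomputable def w5 (A0 : ∀ n : ℕ, (Fin n → Fin 3) → ℕ → Prop) (Bk : ∀ m : ℕ, (Fin m → Fin 3) → Prop)
    (ψ : ∀ m : ℕ, (Fin m → Fin 3) → ℝ) (T h2 h3 h5 θ ρ : ℝ) {n : ℕ} (s : Fin n → Fin 3) : ℝ :=
  ∑ p ∈ Mk5 n, if E5 A0 Bk T h2 h3 h5 θ ρ s p.1.1.1.1.1 p.1.1.1.1.2 p.1.1.1.2 p.1.1.2 p.1.2 p.2 then
    ψ (p.1.2 - p.1.1.2) (md s p.1.1.2 (p.1.2 - p.1.1.2)) else 0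

/-- the weighted mass of the walks with `n` steps -/
noncomputable def e5m (A0 : ∀ n : ℕ, (Fin n → Fin 3) → ℕ → Prop) (Bk : ∀ m : ℕ, (Fin m → Fin 3) → Prop)
    (ψ : ∀ m : ℕ, (Fin m → Fin 3) → ℝ) (T h2 h3 h5 θ ρ : ℝ) (n : ℕ) : ℝ :=
  (∑ s ∈ saw n, w5 A0 Bk ψ T h2 h3 h5 θ ρ s) * fug ^ n

open Classical in
/-- the weighted mass of the blocks -/
noncomputable def bm (Bk : ∀ m : ℕ, (Fin m → Fin 3) → Prop) (ψ : ∀ m : ℕ, (Fin m → Fin 3) → ℝ) (M : ℕ) : ℝ :=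
  ∑ m ∈ Finset.range (M + 1), (∑ b ∈ (saw m).filter (Bk m), ψ m b) * fug ^ m

/-! ### the marks are unique -/

/-- the walk is in front of the start of the block -/
lemma gc_backG {n : ℕ} {s : Fin n → Fin 3} {k k2 : ℕ} {h L ρ : ℝ} (hB : GB h L s k k2) (hc : GC (ρ + L) s k2) : GC ρ s k := by
  obtain ⟨b1, b2, b3, b4, b5, b6, b7, -⟩ := hB
  obtain ⟨c1, c2, c3⟩ := hc
  refine ⟨by omega, b3, fun j j1 j2 j3 => ?_⟩
  rcases le_or_gt j k2 with h4 | h4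
  · exact b4 j j1 h4
  · have h5 := c3 j h4 j2 (by
      calc ‖pos s j - pos s k2‖ = ‖(pos s j - pos s k) - (pos s k2 - pos s k)‖ := by ring_nf
        _ ≤ ‖pos s j - pos s k‖ + ‖pos s k2 - pos s k‖ := norm_sub_le _ _
        _ ≤ ρ + L := by
          have := b6 k2 b1.le le_rfl
          linarith)
    have := b5 k le_rfl b1.le
    linarith

lemma gb_uniq' {n : ℕ} {s : Fin n → Fin 3} {k k2 k2' : ℕ} {h L ρ : ℝ} (hB : GB h L s k k2) (hB' : GB h L s k k2')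
    (hρ : 2 * L ≤ ρ) (hc : GC ρ s k2) (hc' : GC ρ s k2') : k2' ≤ k2 := by
  by_contra hcon
  push Not at hcon
  obtain ⟨b1, b2, b3, b4, b5, b6, b7, -⟩ := hB
  obtain ⟨d1, d2, d3, d4, d5, d6, d7, d8⟩ := hB'
  obtain ⟨c1, c2, c3⟩ := hc
  have hn := hc'.1
  have h1 := d8 k2 ⟨b1.le, hcon, b2, c2, fun i i1 i2 => b5 i i1 i2, fun j j1 j2 => ?_⟩
  · linarith
  · refine c3 j j1 (by omega) ?_
    have e1 := d6 j (by omega) j2
    have e2 := d6 k2 b1.le hcon.le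
    calc ‖pos s j - pos s k2‖ = ‖(pos s j - pos s k) - (pos s k2 - pos s k)‖ := by ring_nf
      _ ≤ ‖pos s j - pos s k‖ + ‖pos s k2 - pos s k‖ := norm_sub_le _ _
      _ ≤ ρ := by linarith

lemma gb_uniq {n : ℕ} {s : Fin n → Fin 3} {k k2 k2' : ℕ} {h L ρ : ℝ} (hB : GB h L s k k2) (hB' : GB h L s k k2')
    (hρ : 2 * L ≤ ρ) (hc : GC ρ s k2) (hc' : GC ρ s k2') : k2 = k2' :=
  le_antisymm (gb_uniq' hB' hB hρ hc' hc) (gb_uniq' hB hB' hρ hc hc')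

/-- the block of the steps is a block of the walk -/
lemma gb_md {n : ℕ} {s : Fin n → Fin 3} {k m : ℕ} {h L : ℝ} (hk : Even k) (hkm : k + m ≤ n) (hb : GB h L (md s k m) 0 m) :
    GB h L s k (k + m) := by
  have h1 := gb_congr (s := md s k m) (s' := s) (k := 0) (m := m) (k' := k) (by exact Even.zero) hk (fun t ht => ?_)
    (by rwa [zero_add])
  · exact h1
  · rw [zero_add, pos_md s hk hkm t ht, pos_zero, sub_zero]

lemma gbt_md {n : ℕ} {s : Fin n → Fin 3} {k m : ℕ} {h θ : ℝ} (hk : Even k) (hkm : k + m ≤ n) (hb : GBt h θ (md s k m) 0 m) :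
    GBt h θ s k (k + m) := by
  have h1 := gbt_congr (s := md s k m) (s' := s) (k := 0) (m := m) (k' := k) (by exact Even.zero) hk (fun t ht => ?_)
    (by rwa [zero_add])
  · exact h1
  · rw [zero_add, pos_md s hk hkm t ht, pos_zero, sub_zero]

section Uniq

variable {A0 : ∀ n : ℕ, (Fin n → Fin 3) → ℕ → Prop} {Bk : ∀ m : ℕ, (Fin m → Fin 3) → Prop} {T h2 h3 h4 h5 θ ρ R hb L2 : ℝ}
  {n : ℕ} {s : Fin n → Fin 3} {k0 k1 k2 k3 k4 k5 : ℕ}

lemma E5.lt (h : E5 A0 Bk T h2 h3 h5 θ ρ s k0 k1 k2 k3 k4 k5) : k0 < k1 ∧ k1 < k2 ∧ k2 < k3 ∧ k3 ≤ k4 ∧ k4 < k5 ∧ k5 < n :=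
  ⟨h.2.1.1.1, h.2.2.1.1.1, h.2.2.2.1.1.1, h.2.2.2.2.1.1, h.2.2.2.2.2.1.1.1, h.2.2.2.2.2.2.1⟩

/-- the block `b2` in the walk -/
lemma E5.b2 (h : E5 A0 Bk T h2 h3 h5 θ ρ s k0 k1 k2 k3 k4 k5)
    (hB : ∀ (m : ℕ) (b : Fin m → Fin 3), Bk m b → GB h4 L2 b 0 m) : GB h4 L2 s k3 k4 := by
  have hlt := h.lt
  obtain ⟨-, -, -, g3, ⟨g4, g5⟩, -, -⟩ := h
  obtain ⟨m, hm⟩ := Nat.exists_eq_add_of_le g4
  have e : k4 - k3 = m := by omega
  rw [e] at g5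
  rw [hm]
  exact gb_md g3.1.2.1 (by omega) (hB m _ g5)

/-- **the marks are unique** -/
theorem E5.uniq (hP : PC A0 id R) (hB : ∀ (m : ℕ) (b : Fin m → Fin 3), Bk m b → GB h4 L2 b 0 m)
    (hU : UQ A0 id (ρ - 4 * (hb + 2 * θ) - L2)) (hR : 0 ≤ R) (hL2 : 0 ≤ L2) (hθ : 0 ≤ θ)
    (hρ : 2 * R + 10 * (hb + 2 * θ) + 2 * L2 ≤ ρ) (hT : T ≤ hb)
    (h22 : h2 ≤ hb) (h32 : h3 ≤ hb) (h52 : h5 ≤ hb) (hh2 : 0 ≤ h2)
    {l0 l1 l2 l3 l4 l5 : ℕ} (h : E5 A0 Bk T h2 h3 h5 θ ρ s k0 k1 k2 k3 k4 k5) (h' : E5 A0 Bk T h2 h3 h5 θ ρ s l0 l1 l2 l3 l4 l5) :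
    k0 = l0 ∧ k1 = l1 ∧ k2 = l2 ∧ k3 = l3 ∧ k4 = l4 ∧ k5 = l5 := by
  have q1 := h.b2 hB
  have q2 := h'.b2 hB
  obtain ⟨a0, a1, a2, a3, -, a5, a6⟩ := h
  obtain ⟨b0, b1, b2, b3, -, b5, b6⟩ := h'
  obtain ⟨L, hL⟩ : ∃ L : ℝ, L = hb + 2 * θ := ⟨_, rfl⟩
  rw [← hL] at hU hρ
  have hLn : 0 ≤ L := by rw [hL]; linarith
  have lv0 : ∀ {n : ℕ} {s : Fin n → Fin 3} {k : ℕ}, A0 n s k → (pos s 0).re ≤ (pos s k).re := fun hk =>
    hP.left _ _ _ hk 0 (Nat.zero_le _)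
  have r1 : (T - ((pos s k0).re - (pos s 0).re)) + 2 * θ ≤ L := by
    have := lv0 a0
    rw [hL]
    linarith
  have r1' : (T - ((pos s l0).re - (pos s 0).re)) + 2 * θ ≤ L := by
    have := lv0 b0
    rw [hL]
    linarith
  have r3 : (h3 - ((pos s k2).re - (pos s k1).re)) + 2 * θ ≤ L := by
    have := (nx_bd a2).1
    rw [hL]
    linarith
  have r3' : (h3 - ((pos s l2).re - (pos s l1).re)) + 2 * θ ≤ L := by
    have := (nx_bd b2).1
    rw [hL]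
    linarith
  have r2 : h2 + 2 * θ ≤ L := by rw [hL]; linarith
  have r5 : h5 + 2 * θ ≤ L := by rw [hL]; linarith
  -- the walk is in front of every mark
  have c4 : GC (ρ - L) s k4 := gc_back a5 r5 (a6.le (by linarith))
  have c3 : GC (ρ - L - L2) s k3 := gc_backG q1 (c4.le (by linarith))
  have c2 : GC (ρ - 2 * L - L2) s k2 := gc_back a3 r3 (c3.le (by linarith))
  have c1 : GC (ρ - 3 * L - L2) s k1 := gc_back a2 r2 (c2.le (by linarith))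
  have c0 : GC (ρ - 4 * L - L2) s k0 := gc_back a1 r1 (c1.le (by linarith))
  have d4 : GC (ρ - L) s l4 := gc_back b5 r5 (b6.le (by linarith))
  have d3 : GC (ρ - L - L2) s l3 := gc_backG q2 (d4.le (by linarith))
  have d2 : GC (ρ - 2 * L - L2) s l2 := gc_back b3 r3' (d3.le (by linarith))
  have d1 : GC (ρ - 3 * L - L2) s l1 := gc_back b2 r2 (d2.le (by linarith))
  have d0 : GC (ρ - 4 * L - L2) s l0 := gc_back b1 r1' (d1.le (by linarith))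
  have e0 : k0 = l0 := hU n s k0 l0 a0 b0 c0 d0
  subst e0
  have e1 : k1 = l1 := gbt_uniq a1 b1 (by linarith) c1 d1
  subst e1
  have e2 : k2 = l2 := gbt_uniq a2 b2 (by linarith) c2 d2
  subst e2
  have e3 : k3 = l3 := gbt_uniq a3 b3 (by linarith) c3 d3
  subst e3
  have e4 : k4 = l4 := gb_uniq q1 q2 (by linarith) c4 d4
  subst e4
  have e5 : k5 = l5 := gbt_uniq a5 b5 (by linarith) a6 b6
  exact ⟨rfl, rfl, rfl, rfl, rfl, e5⟩

end Uniq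

section W5

variable {A0 : ∀ n : ℕ, (Fin n → Fin 3) → ℕ → Prop} {Bk : ∀ m : ℕ, (Fin m → Fin 3) → Prop} {ψ : ∀ m : ℕ, (Fin m → Fin 3) → ℝ}
  {T h2 h3 h4 h5 θ ρ R hb L2 : ℝ} {n : ℕ} {s : Fin n → Fin 3} {k0 k1 k2 k3 k4 k5 : ℕ}

lemma w5_zero (h : ∀ k0 k1 k2 k3 k4 k5 : ℕ, ¬ E5 A0 Bk T h2 h3 h5 θ ρ s k0 k1 k2 k3 k4 k5) :
    w5 A0 Bk ψ T h2 h3 h5 θ ρ s = 0 :=
  Finset.sum_eq_zero fun _ _ => if_neg (h _ _ _ _ _ _)

/-- **the weight of a walk of the class** -/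
lemma w5_eq (hu : ∀ l0 l1 l2 l3 l4 l5 : ℕ, E5 A0 Bk T h2 h3 h5 θ ρ s l0 l1 l2 l3 l4 l5 →
      k0 = l0 ∧ k1 = l1 ∧ k2 = l2 ∧ k3 = l3 ∧ k4 = l4 ∧ k5 = l5) (h : E5 A0 Bk T h2 h3 h5 θ ρ s k0 k1 k2 k3 k4 k5) :
    w5 A0 Bk ψ T h2 h3 h5 θ ρ s = ψ (k4 - k3) (md s k3 (k4 - k3)) := by
  unfold w5
  have hlt := h.lt
  rw [Finset.sum_eq_single_of_mem (((((k0, k1), k2), k3), k4), k5)]
  · exact if_pos h
  · unfold Mk5
    simp only [Finset.mem_product, Finset.mem_range]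
    omega
  · rintro ⟨⟨⟨⟨⟨l0, l1⟩, l2⟩, l3⟩, l4⟩, l5⟩ _ hne
    refine if_neg fun h' => hne ?_
    obtain ⟨rfl, rfl, rfl, rfl, rfl, rfl⟩ := hu _ _ _ _ _ _ h'
    rfl

lemma w5_nonneg (hψ : ∀ (m : ℕ) (b : Fin m → Fin 3), 0 ≤ ψ m b) : 0 ≤ w5 A0 Bk ψ T h2 h3 h5 θ ρ s :=
  Finset.sum_nonneg fun p _ => by
    split_ifs
    · exact hψ _ _
    · exact le_rfl

/-- **the weight of a walk is at most 1** -/
lemma w5_le (hu : ∀ k0 k1 k2 k3 k4 k5 l0 l1 l2 l3 l4 l5 : ℕ, E5 A0 Bk T h2 h3 h5 θ ρ s k0 k1 k2 k3 k4 k5 →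
      E5 A0 Bk T h2 h3 h5 θ ρ s l0 l1 l2 l3 l4 l5 → k0 = l0 ∧ k1 = l1 ∧ k2 = l2 ∧ k3 = l3 ∧ k4 = l4 ∧ k5 = l5)
    (hψ : ∀ (m : ℕ) (b : Fin m → Fin 3), ψ m b ≤ 1) : w5 A0 Bk ψ T h2 h3 h5 θ ρ s ≤ 1 := by
  by_cases h : ∃ k0 k1 k2 k3 k4 k5 : ℕ, E5 A0 Bk T h2 h3 h5 θ ρ s k0 k1 k2 k3 k4 k5
  · obtain ⟨k0, k1, k2, k3, k4, k5, h⟩ := h
    rw [w5_eq (fun _ _ _ _ _ _ h' => hu _ _ _ _ _ _ _ _ _ _ _ _ h h') h]
    exact hψ _ _
  · push Not at h
    rw [w5_zero h]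
    exact zero_le_one

end W5

/-! ### the mass -/

open Classical in
/-- **the weighted mass of the walks**, abstract form -/
theorem e5_mass {A0 : ∀ n : ℕ, (Fin n → Fin 3) → ℕ → Prop} {Bk : ∀ m : ℕ, (Fin m → Fin 3) → Prop}
    {ψ : ∀ m : ℕ, (Fin m → Fin 3) → ℝ} {R ha hb θ t ρ h4 L2 : ℝ} {M M2 : ℕ} (hP : PC A0 id R) (hR : 0 ≤ R)
    (hBk : ∀ (m : ℕ) (b : Fin m → Fin 3), Bk m b → GB h4 L2 b 0 m) (hL2 : 0 ≤ L2)
    (hψ : ∀ (m : ℕ) (b : Fin m → Fin 3), 0 ≤ ψ m b)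
    (hθ : 0 ≤ θ) (hha : 0 ≤ ha) (hab : ha ≤ hb) (ht0 : 0 ≤ t)
    (ht : ∀ h : ℝ, ha ≤ h → h ≤ hb → t ≤ ∑ m ∈ Finset.range (M + 1), bwt h θ m)
    (hρ : 2 * R + 10 * (hb + 2 * θ) + 2 * L2 ≤ ρ) {T h2 h3 h5 : ℝ}
    (hT1 : ha + R ≤ T) (hT2 : T ≤ hb) (h21 : ha ≤ h2) (h22 : h2 ≤ hb) (h31 : ha + h2 + θ ≤ h3) (h32 : h3 ≤ hb)
    (h51 : ha ≤ h5) (h52 : h5 ≤ hb) (N1 N2 : ℕ) :
    t ^ 4 * ((∑ k ∈ Finset.range (M + 1), (((saw k).filter fun s => A0 k s k).card : ℝ) * fug ^ k) * bm Bk ψ M2 *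
      ∑ m ∈ Finset.Icc N1 N2, rst ρ m) ≤ ∑ N ∈ Finset.Icc N1 (N2 + 5 * M + M2), e5m A0 Bk ψ T h2 h3 h5 θ ρ N := by
  have hfug : (0 : ℝ) ≤ fug := by
    unfold fug
    positivity
  obtain ⟨L, hL⟩ : ∃ L : ℝ, L = hb + 2 * θ := ⟨_, rfl⟩
  rw [← hL] at hρ
  have hL0 : 0 ≤ L := by
    rw [hL]
    linarith
  -- the weights
  obtain ⟨W0, hW0⟩ : ∃ W0 : ∀ n : ℕ, (Fin n → Fin 3) → ℕ → ℝ, W0 = fun n s k => if A0 n s k then 1 else 0 := ⟨_, rfl⟩
  obtain ⟨g1, hg1⟩ : ∃ g : ∀ n : ℕ, (Fin n → Fin 3) → ℕ → ∀ m : ℕ, (Fin m → Fin 3) → ℝ, g = fun n s i m b =>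
    if GBt (hf1 T n s i) θ b 0 m then 1 else 0 := ⟨_, rfl⟩
  obtain ⟨g2, hg2⟩ : ∃ g : ∀ n : ℕ, (Fin n → Fin 3) → ℕ × ℕ → ∀ m : ℕ, (Fin m → Fin 3) → ℝ, g = fun n s i m b =>
    if GBt h2 θ b 0 m then 1 else 0 := ⟨_, rfl⟩
  obtain ⟨g3, hg3⟩ : ∃ g : ∀ n : ℕ, (Fin n → Fin 3) → (ℕ × ℕ) × ℕ → ∀ m : ℕ, (Fin m → Fin 3) → ℝ, g = fun n s i m b =>
    if GBt (hf3 h3 n s i) θ b 0 m then 1 else 0 := ⟨_, rfl⟩
  obtain ⟨g4, hg4⟩ : ∃ g : ∀ n : ℕ, (Fin n → Fin 3) → ((ℕ × ℕ) × ℕ) × ℕ → ∀ m : ℕ, (Fin m → Fin 3) → ℝ, g = fun n s i m b =>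
    if Bk m b then ψ m b else 0 := ⟨_, rfl⟩
  obtain ⟨g5, hg5⟩ : ∃ g : ∀ n : ℕ, (Fin n → Fin 3) → (((ℕ × ℕ) × ℕ) × ℕ) × ℕ → ∀ m : ℕ, (Fin m → Fin 3) → ℝ, g = fun n s i m b =>
    if GBt h5 θ b 0 m then 1 else 0 := ⟨_, rfl⟩
  obtain ⟨W1, hW1⟩ : ∃ W1, W1 = Nw W0 id g1 := ⟨_, rfl⟩
  obtain ⟨W2, hW2⟩ : ∃ W2, W2 = Nw W1 Prod.snd g2 := ⟨_, rfl⟩
  obtain ⟨W3, hW3⟩ : ∃ W3, W3 = Nw W2 Prod.snd g3 := ⟨_, rfl⟩
  obtain ⟨W4, hW4⟩ : ∃ W4, W4 = Nw W3 Prod.snd g4 := ⟨_, rfl⟩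
  obtain ⟨W5, hW5⟩ : ∃ W5, W5 = Nw W4 Prod.snd g5 := ⟨_, rfl⟩
  have hW0' : ∀ (n : ℕ) (s : Fin n → Fin 3) (i : ℕ), W0 n s i ≠ 0 → A0 n s i := by
    intro n s i h
    rw [hW0] at h
    by_contra h'
    exact h (if_neg h')
  have P0 : PW W0 id R := by
    refine ⟨fun n s i => ?_, fun n s i _ h => hP.even n s i (hW0' n s i h), fun n s i _ h => hP.left n s i (hW0' n s i h),
      fun n s i _ h => hP.ball n s i (hW0' n s i h), fun n n' s s' i hi hi' he => ?_⟩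
    · rw [hW0]
      simp only
      split_ifs
      · exact zero_le_one
      · exact le_rfl
    · have h1 := he.pos_eq hi hi'
      rw [hW0]
      simp only
      by_cases h : A0 n s i
      · rw [if_pos h, if_pos (hP.congr n n' s s' i h1 h)]
      · rw [if_neg h, if_neg fun h' => h (hP.congr n' n s' s i (fun t ht => (h1 t ht).symm) h')]
  -- the thresholds
  have t1 : ∀ (n : ℕ) (s : Fin n → Fin 3) (i : ℕ), W0 n s i ≠ 0 → ha ≤ hf1 T n s i ∧ hf1 T n s i ≤ hb := by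
    intro n s i hi0
    have hi := hW0' n s i hi0
    have g1 := hP.left n s i hi 0 (Nat.zero_le _)
    have g2 := hP.ball n s i hi 0 (Nat.zero_le _)
    have g3 : (pos s i).re - (pos s 0).re ≤ R := by
      have g4 := (Complex.abs_re_le_norm (pos s 0 - pos s i)).trans g2
      rw [Complex.sub_re, abs_sub_comm] at g4
      exact (le_abs_self _).trans g4
    simp only [id] at g1
    show ha ≤ T - ((pos s i).re - (pos s 0).re) ∧ T - ((pos s i).re - (pos s 0).re) ≤ hb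
    constructor <;> linarith
  have blt : ∀ {h : ℝ} {m : ℕ} {b : Fin m → Fin 3}, h ≤ hb → GBt h θ b 0 m → BL L b := by
    intro h m b hh hb'
    exact (bl_of_gb hb'.1).le (by rw [hL]; linarith)
  have ifne : ∀ {p : Prop} [Decidable p], (if p then (1 : ℝ) else 0) ≠ 0 → p := by
    intro p _ h
    by_contra h'
    exact h (if_neg h')
  have B1 : PB W0 id g1 L := by
    refine ⟨fun n s i m b => ?_, fun n s i m b _ h h' => ?_, fun n n' s s' i m b hi hi' he h => ?_⟩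
    · rw [hg1]
      simp only
      split_ifs
      · exact zero_le_one
      · exact le_rfl
    · rw [hg1] at h'
      exact blt (t1 n s i h).2 (ifne h')
    · have h1 := he.pos_eq hi hi'
      have e : hf1 T n' s' i = hf1 T n s i := by
        show T - ((pos s' i).re - (pos s' 0).re) = T - ((pos s i).re - (pos s 0).re)
        rw [h1 i le_rfl, h1 0 (Nat.zero_le _)]
      rw [hg1]
      simp only
      rw [e]
  have P1 : PW W1 Prod.snd (R + 2 * L) := by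
    rw [hW1]
    exact pw_nx P0 B1 hR
  have B2 : PB W1 Prod.snd g2 L := by
    refine ⟨fun n s i m b => ?_, fun n s i m b _ h h' => ?_, fun n n' s s' i m b hi hi' he h => ?_⟩
    · rw [hg2]
      simp only
      split_ifs
      · exact zero_le_one
      · exact le_rfl
    · rw [hg2] at h'
      exact blt h22 (ifne h')
    · rw [hg2]
  have P2 : PW W2 Prod.snd (R + 2 * L + 2 * L) := by
    rw [hW2]
    exact pw_nx P1 B2 (by linarith)
  -- the marks number 1 and 2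
  have m12 : ∀ (n : ℕ) (s : Fin n → Fin 3) (i : (ℕ × ℕ) × ℕ), i.2 ≤ n → W2 n s i ≠ 0 →
      i.1.2 ≤ i.2 ∧ GBt h2 θ s i.1.2 i.2 := by
    intro n s i hin h
    rw [hW2] at h
    obtain ⟨q1, q2, q3⟩ := nw_ne h
    obtain ⟨m, hm⟩ := Nat.exists_eq_add_of_le q2
    have e : i.2 - i.1.2 = m := by omega
    rw [e, hg2] at q3
    have q4 := ifne q3
    refine ⟨q2, ?_⟩
    rw [hm]
    exact gbt_md (P1.even n s i.1 (by omega) q1) (by omega) q4
  have t3 : ∀ (n : ℕ) (s : Fin n → Fin 3) (i : (ℕ × ℕ) × ℕ), i.2 ≤ n → W2 n s i ≠ 0 → ha ≤ hf3 h3 n s i ∧ hf3 h3 n s i ≤ hb := by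
    intro n s i hin hi
    have g1 := nx_bd (m12 n s i hin hi).2
    show ha ≤ h3 - ((pos s i.2).re - (pos s i.1.2).re) ∧ h3 - ((pos s i.2).re - (pos s i.1.2).re) ≤ hb
    constructor
    · linarith [g1.2]
    · linarith [g1.1]
  have B3 : PB W2 Prod.snd g3 L := by
    refine ⟨fun n s i m b => ?_, fun n s i m b hin h h' => ?_, fun n n' s s' i m b hi hi' he h => ?_⟩
    · rw [hg3]
      simp only
      split_ifs
      · exact zero_le_one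
      · exact le_rfl
    · rw [hg3] at h'
      exact blt (t3 n s i hin h).2 (ifne h')
    · have h1 := he.pos_eq hi hi'
      have h2 := (m12 n s i hi h).1
      have e : hf3 h3 n' s' i = hf3 h3 n s i := by
        show h3 - ((pos s' i.2).re - (pos s' i.1.2).re) = h3 - ((pos s i.2).re - (pos s i.1.2).re)
        rw [h1 i.2 le_rfl, h1 i.1.2 h2]
      rw [hg3]
      simp only
      rw [e]
  have P3 : PW W3 Prod.snd (R + 2 * L + 2 * L + 2 * L) := by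
    rw [hW3]
    exact pw_nx P2 B3 (by linarith)
  have B4 : PB W3 Prod.snd g4 L2 := by
    refine ⟨fun n s i m b => ?_, fun n s i m b hin h h' => ?_, fun n n' s s' i m b hi hi' he h => ?_⟩
    · rw [hg4]
      simp only
      split_ifs
      · exact hψ m b
      · exact le_rfl
    · rw [hg4] at h'
      simp only at h'
      refine bl_of_gb (hBk m b ?_)
      by_contra h''
      exact h' (if_neg h'')
    · rw [hg4]
  have P4 : PW W4 Prod.snd (R + 2 * L + 2 * L + 2 * L + 2 * L2) := by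
    rw [hW4]
    exact pw_nx P3 B4 (by linarith)
  have B5 : PB W4 Prod.snd g5 L := by
    refine ⟨fun n s i m b => ?_, fun n s i m b _ h h' => ?_, fun n n' s s' i m b hi hi' he h => ?_⟩
    · rw [hg5]
      simp only
      split_ifs
      · exact zero_le_one
      · exact le_rfl
    · rw [hg5] at h'
      exact blt h52 (ifne h')
    · rw [hg5]
  -- the masses of the blocks
  have mb : ∀ h : ℝ, ha ≤ h → h ≤ hb → t ≤ ∑ m ∈ Finset.range (M + 1), (∑ b ∈ saw m,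
      (if GBt h θ b 0 m then (1 : ℝ) else 0)) * fug ^ m := by
    intro h hh1 hh2
    refine (ht h hh1 hh2).trans (le_of_eq (Finset.sum_congr rfl fun m _ => ?_))
    unfold bwt
    rw [Finset.sum_boole]
  have mb4 : bm Bk ψ M2 = ∑ m ∈ Finset.range (M2 + 1), (∑ b ∈ saw m, (if Bk m b then ψ m b else 0)) * fug ^ m := by
    unfold bm
    refine Finset.sum_congr rfl fun m _ => ?_
    rw [Finset.sum_filter]
  have hbm : 0 ≤ bm Bk ψ M2 := by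
    rw [mb4]
    refine Finset.sum_nonneg fun m _ => mul_nonneg (Finset.sum_nonneg fun b _ => ?_) (pow_nonneg hfug _)
    split_ifs
    · exact hψ m b
    · exact le_rfl
  -- the sets of marks
  obtain ⟨S0, hS0⟩ : ∃ S0 : ℕ → Finset ℕ, S0 = fun N => Finset.range (N + 1) := ⟨_, rfl⟩
  obtain ⟨S1, hS1⟩ : ∃ S1 : ℕ → Finset (ℕ × ℕ), S1 = fun N => S0 N ×ˢ Finset.range (N + 1) := ⟨_, rfl⟩
  obtain ⟨S2, hS2⟩ : ∃ S2 : ℕ → Finset ((ℕ × ℕ) × ℕ), S2 = fun N => S1 N ×ˢ Finset.range (N + 1) := ⟨_, rfl⟩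
  obtain ⟨S3, hS3⟩ : ∃ S3 : ℕ → Finset (((ℕ × ℕ) × ℕ) × ℕ), S3 = fun N => S2 N ×ˢ Finset.range (N + 1) := ⟨_, rfl⟩
  obtain ⟨S4, hS4⟩ : ∃ S4 : ℕ → Finset ((((ℕ × ℕ) × ℕ) × ℕ) × ℕ), S4 = fun N => S3 N ×ˢ Finset.range (N + 1) := ⟨_, rfl⟩
  obtain ⟨Q5, hQ5⟩ : ∃ Q5 : ℕ → Finset (((((ℕ × ℕ) × ℕ) × ℕ) × ℕ) × ℕ), Q5 = fun N => S4 N ×ˢ Finset.range (N + 1) := ⟨_, rfl⟩
  have hr : ∀ N N' : ℕ, N ≤ N' → Finset.range (N + 1) ⊆ Finset.range (N' + 1) := fun N N' h =>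
    Finset.range_subset_range.2 (by omega)
  have m0 : ∀ N N' : ℕ, N ≤ N' → S0 N ⊆ S0 N' := by
    rw [hS0]
    exact hr
  have m1 : ∀ N N' : ℕ, N ≤ N' → S1 N ⊆ S1 N' := by
    rw [hS1]
    exact fun N N' h => Finset.product_subset_product (m0 N N' h) (hr N N' h)
  have m2 : ∀ N N' : ℕ, N ≤ N' → S2 N ⊆ S2 N' := by
    rw [hS2]
    exact fun N N' h => Finset.product_subset_product (m1 N N' h) (hr N N' h)
  have m3 : ∀ N N' : ℕ, N ≤ N' → S3 N ⊆ S3 N' := by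
    rw [hS3]
    exact fun N N' h => Finset.product_subset_product (m2 N N' h) (hr N N' h)
  have m4 : ∀ N N' : ℕ, N ≤ N' → S4 N ⊆ S4 N' := by
    rw [hS4]
    exact fun N N' h => Finset.product_subset_product (m3 N N' h) (hr N N' h)
  -- the steps
  have s0 := start_mass (ρ := ρ) hP (by linarith) M N1 N2
  rw [← hS0] at s0
  have s0' : ∑ N ∈ Finset.Icc N1 (N2 + M), Cg A0 id S0 ρ N ≤ ∑ N ∈ Finset.Icc N1 (N2 + M), Cw W0 id S0 ρ N := by
    refine Finset.sum_le_sum fun N _ => ?_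
    unfold Cg Cw
    refine mul_le_mul_of_nonneg_right (Finset.sum_le_sum fun i _ => ?_) (pow_nonneg hfug _)
    rw [← Finset.sum_boole]
    refine Finset.sum_le_sum fun s _ => ?_
    rw [hW0]
    simp only
    by_cases h : A0 N s i
    · by_cases h' : GC ρ s (id i)
      · rw [if_pos ⟨h, h'⟩, if_pos h', if_pos h]
      · rw [if_neg fun h'' => h' h''.2, if_neg h']
    · rw [if_neg fun h'' => h h''.1, if_neg h]
      split_ifs <;> exact le_rfl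
  have s1 := step_massW (ρ := ρ) (t := t) m0 P0 B1 (by linarith) hR (fun n s i hin hi => by
    rw [hg1]
    exact mb _ (t1 n s i hi).1 (t1 n s i hi).2) N1 (N2 + M)
  rw [← hW1, ← hS1] at s1
  have s2 := step_massW (ρ := ρ) (t := t) m1 P1 B2 (by linarith) (by linarith) (fun n s i hin hi => by
    rw [hg2]
    exact mb _ h21 h22) N1 (N2 + M + M)
  rw [← hW2, ← hS2] at s2
  have s3 := step_massW (ρ := ρ) (t := t) m2 P2 B3 (by linarith) (by linarith) (fun n s i hin hi => by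
    rw [hg3]
    exact mb _ (t3 n s i hin hi).1 (t3 n s i hin hi).2) N1 (N2 + M + M + M)
  rw [← hW3, ← hS3] at s3
  have s4 := step_massW (ρ := ρ) (t := bm Bk ψ M2) (M := M2) m3 P3 B4 (by linarith) (by linarith) (fun n s i hin hi => by
    rw [mb4, hg4]) N1 (N2 + M + M + M + M)
  rw [← hW4, ← hS4] at s4
  have s5 := step_massW (ρ := ρ) (t := t) (M := M) m4 P4 B5 (by linarith) (by linarith) (fun n s i hin hi => by
    rw [hg5]
    exact mb _ h51 h52) N1 (N2 + M + M + M + M + M2)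
  rw [← hW5, ← hQ5] at s5
  have e5 : N2 + M + M + M + M + M2 + M = N2 + 5 * M + M2 := by ring
  rw [e5] at s5
  have fin : ∑ N ∈ Finset.Icc N1 (N2 + 5 * M + M2), Cw W5 Prod.snd Q5 ρ N ≤
      ∑ N ∈ Finset.Icc N1 (N2 + 5 * M + M2), e5m A0 Bk ψ T h2 h3 h5 θ ρ N := by
    refine Finset.sum_le_sum fun N _ => ?_
    unfold Cw e5m
    refine mul_le_mul_of_nonneg_right ?_ (pow_nonneg hfug _)
    rw [Finset.sum_comm]
    refine Finset.sum_le_sum fun s _ => ?_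
    have eQ : Q5 N = Mk5 N := by
      rw [hQ5, hS4, hS3, hS2, hS1, hS0]
      rfl
    rw [eQ]
    unfold w5
    refine Finset.sum_le_sum fun p _ => ?_
    obtain ⟨⟨⟨⟨⟨k0, k1⟩, k2⟩, k3⟩, k4⟩, k5⟩ := p
    simp only
    have hnn : 0 ≤ (if E5 A0 Bk T h2 h3 h5 θ ρ s k0 k1 k2 k3 k4 k5 then ψ (k4 - k3) (md s k3 (k4 - k3)) else 0) := by
      split_ifs
      · exact hψ _ _
      · exact le_rfl
    by_cases hGC : GC ρ s k5
    · rw [if_pos hGC]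
      by_cases hne : W5 N s (((((k0, k1), k2), k3), k4), k5) = 0
      · rw [hne]
        exact hnn
      · have hn5 := hGC.1
        -- the factors
        have f5 := hne
        rw [hW5] at f5
        obtain ⟨x4, y5, z5⟩ := nw_ne f5
        simp only at x4 y5 z5
        have f4 := x4
        rw [hW4] at f4
        obtain ⟨x3, y4, z4⟩ := nw_ne f4
        simp only at x3 y4 z4
        have f3 := x3
        rw [hW3] at f3
        obtain ⟨x2, y3, z3⟩ := nw_ne f3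
        simp only at x2 y3 z3
        have f2 := x2
        rw [hW2] at f2
        obtain ⟨x1, y2, z2⟩ := nw_ne f2
        simp only at x1 y2 z2
        have f1 := x1
        rw [hW1] at f1
        obtain ⟨x0, y1, z1⟩ := nw_ne f1
        simp only [id] at x0 y1 z1
        have a0 := hW0' _ _ _ x0
        have ev0 := P0.even _ _ _ (show (k0 : ℕ) ≤ N by omega) x0
        have ev1 := P1.even _ _ _ (show ((k0, k1) : ℕ × ℕ).2 ≤ N by show k1 ≤ N; omega) x1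
        have ev2 := P2.even _ _ _ (show (((k0, k1), k2) : (ℕ × ℕ) × ℕ).2 ≤ N by show k2 ≤ N; omega) x2
        have ev4 := P4.even _ _ _ (show (((((k0, k1), k2), k3), k4) : (((ℕ × ℕ) × ℕ) × ℕ) × ℕ).2 ≤ N by
          show k4 ≤ N; omega) x4
        simp only [id] at ev0 ev1 ev2 ev4
        have gconv : ∀ {h : ℝ} {k k' : ℕ}, Even k → k ≤ k' → k' ≤ N → GBt h θ (md s k (k' - k)) 0 (k' - k) →
            GBt h θ s k k' := by
          intro h k k' hk hkk hkN hb'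
          obtain ⟨m, rfl⟩ := Nat.exists_eq_add_of_le hkk
          rw [Nat.add_sub_cancel_left] at hb'
          exact gbt_md hk hkN hb'
        have z1' := z1
        have z2' := z2
        have z3' := z3
        have z4' := z4
        have z5' := z5
        rw [hg1] at z1'
        rw [hg2] at z2'
        rw [hg3] at z3'
        rw [hg4] at z4'
        rw [hg5] at z5'
        have b1 := ifne z1'
        have b2 := ifne z2'
        have b3 := ifne z3'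
        have b5 := ifne z5'
        have b4 : Bk (k4 - k3) (md s k3 (k4 - k3)) := by
          by_contra h''
          exact z4' (if_neg h'')
        have hE : E5 A0 Bk T h2 h3 h5 θ ρ s k0 k1 k2 k3 k4 k5 :=
          ⟨a0, gconv ev0 y1 (by omega) b1, gconv ev1 y2 (by omega) b2, gconv ev2 y3 (by omega) b3, ⟨y4, b4⟩,
            gconv ev4 y5 (by omega) b5, hGC⟩
        rw [if_pos hE]
        -- the value
        refine le_of_eq ?_
        have v0 : W0 N s k0 = 1 := by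
          rw [hW0]
          exact if_pos a0
        have v1 : W1 N s (k0, k1) = 1 := by
          rw [hW1]
          show W0 N s k0 * (if k0 ≤ k1 then g1 N s k0 (k1 - k0) (md s k0 (k1 - k0)) else 0) = 1
          rw [v0, if_pos y1, hg1, one_mul]
          exact if_pos b1
        have v2 : W2 N s ((k0, k1), k2) = 1 := by
          rw [hW2]
          show W1 N s (k0, k1) * (if k1 ≤ k2 then g2 N s (k0, k1) (k2 - k1) (md s k1 (k2 - k1)) else 0) = 1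
          rw [v1, if_pos y2, hg2, one_mul]
          exact if_pos b2
        have v3 : W3 N s (((k0, k1), k2), k3) = 1 := by
          rw [hW3]
          show W2 N s ((k0, k1), k2) * (if k2 ≤ k3 then g3 N s ((k0, k1), k2) (k3 - k2) (md s k2 (k3 - k2)) else 0) = 1
          rw [v2, if_pos y3, hg3, one_mul]
          exact if_pos b3
        have v4 : W4 N s ((((k0, k1), k2), k3), k4) = ψ (k4 - k3) (md s k3 (k4 - k3)) := by
          rw [hW4]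
          show W3 N s (((k0, k1), k2), k3) * (if k3 ≤ k4 then
            g4 N s (((k0, k1), k2), k3) (k4 - k3) (md s k3 (k4 - k3)) else 0) = _
          rw [v3, if_pos y4, hg4, one_mul]
          exact if_pos b4
        rw [hW5]
        show W4 N s ((((k0, k1), k2), k3), k4) * (if k4 ≤ k5 then
          g5 N s ((((k0, k1), k2), k3), k4) (k5 - k4) (md s k4 (k5 - k4)) else 0) = _
        rw [v4, if_pos y5, hg5]
        have v5 : (if GBt h5 θ (md s k4 (k5 - k4)) 0 (k5 - k4) then (1 : ℝ) else 0) = 1 := if_pos b5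
        simp only
        rw [v5, mul_one]
    · rw [if_neg hGC]
      exact hnn
  have key : ∀ {u x0 x1 x2 x3 x4 x5 x6 y : ℝ}, 0 ≤ u → x0 ≤ x1 → t * x1 ≤ x2 → t * x2 ≤ x3 → t * x3 ≤ x4 → u * x4 ≤ x5 →
      t * x5 ≤ x6 → x6 ≤ y → t ^ 4 * (u * x0) ≤ y := by
    intro u x0 x1 x2 x3 x4 x5 x6 y hu c0 c1 c2 c3 c4 c5 c6
    have b1 : t * x0 ≤ x2 := (mul_le_mul_of_nonneg_left c0 ht0).trans c1
    have b2 : t * (t * x0) ≤ x3 := (mul_le_mul_of_nonneg_left b1 ht0).trans c2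
    have b3 : t * (t * (t * x0)) ≤ x4 := (mul_le_mul_of_nonneg_left b2 ht0).trans c3
    have b4 : u * (t * (t * (t * x0))) ≤ x5 := (mul_le_mul_of_nonneg_left b3 hu).trans c4
    have b5 : t * (u * (t * (t * (t * x0)))) ≤ x6 := (mul_le_mul_of_nonneg_left b4 ht0).trans c5
    have e : t ^ 4 * (u * x0) = t * (u * (t * (t * (t * x0)))) := by ring
    rw [e]
    exact b5.trans c6
  have h9 := key hbm (s0.trans s0') s1 s2 s3 s4 s5 fin
  refine le_trans (le_of_eq ?_) h9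
  ring

open Classical in
/-- **gluing with a weighted block**: the blocks of `Blk`, the constants do not depend on the class `Bk` and its weight -/
theorem glue5 (η e : ℝ) (hη : 0 < η) (he : 0 < e) : ∃ t h0 : ℝ, 0 < t ∧
    ∀ (A0 : ∀ n : ℕ, (Fin n → Fin 3) → ℕ → Prop) (Bk : ∀ m : ℕ, (Fin m → Fin 3) → Prop) (ψ : ∀ m : ℕ, (Fin m → Fin 3) → ℝ)
      (R ha hb θ ρ h4 L2 : ℝ) (M M2 : ℕ), PC A0 id R → 0 ≤ R → (∀ (m : ℕ) (b : Fin m → Fin 3), Bk m b → GB h4 L2 b 0 m) →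
      0 ≤ L2 → (∀ (m : ℕ) (b : Fin m → Fin 3), 0 ≤ ψ m b) → h0 ≤ ha → 0 ≤ ha → ha ≤ hb →
      η * hb ≤ θ → e * hb ^ (4 / 3 : ℝ) ≤ M → 2 * R + 10 * (hb + 2 * θ) + 2 * L2 ≤ ρ →
      ∀ T h2 h3 h5 : ℝ, ha + R ≤ T → T ≤ hb → ha ≤ h2 → h2 ≤ hb → ha + h2 + θ ≤ h3 → h3 ≤ hb → ha ≤ h5 → h5 ≤ hb →
        ∀ N1 N2 : ℕ, t * ((∑ k ∈ Finset.range (M + 1), (((saw k).filter fun s => A0 k s k).card : ℝ) * fug ^ k) * bm Bk ψ M2 *
          ∑ m ∈ Finset.Icc N1 N2, rst ρ m) ≤ ∑ N ∈ Finset.Icc N1 (N2 + 5 * M + M2), e5m A0 Bk ψ T h2 h3 h5 θ ρ N := by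
  obtain ⟨t, h0, ht, hblk⟩ := blk η e hη he
  refine ⟨t ^ 4, h0, by positivity, fun A0 Bk ψ R ha hb θ ρ h4 L2 M M2 hP hR hB hL2 hψ h1 h2 h3 h4' h5 h7 T h2' h3' h5' c1 c2 c3
    c4 c5 c6 c7 c8 N1 N2 =>
    e5_mass hP hR hB hL2 hψ ((mul_nonneg hη.le (h2.trans h3)).trans h4') h2 h3 ht.le
      (fun h hh1 hh2 => hblk h θ (by linarith) ?_ M ?_) h7 c1 c2 c3 c4 c5 c6 c7 c8 N1 N2⟩
  · exact (mul_le_mul_of_nonneg_left hh2 hη.le).trans h4'
  · exact (mul_le_mul_of_nonneg_left (Real.rpow_le_rpow (by linarith) hh2 (by norm_num)) he.le).trans h5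

end Pool.Agent.SCF.Z
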