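import Pool.Agent.SCF.FullC
import Pool.Agent.SCF.FlowPub3

/-!
# ScaleFlow: the flow form, from the core and the renormalisation map (helper5)

* `allSc_of` : `AllSc` from helper66's `FlU`;
* `flow_allSc` : `AllSc` from `Core` and `RMLim`.
-/

set_option autoImplicit false

open Filter Topology MeasureTheory Set

namespace Pool.Agent.SCF

open Pool.Agent.NTS.Res
open Pool.Agent.RMP

theorem allSc_of (h : ∀ lam : ℝ, 0 < lam → Full.FlU lam) : AllSc := by
  intro t φ ν t0 hφ hlim
  obtain ⟨ν', r, hν', hr, h1⟩ := h t t0 φ _ hφ inferInstance hlim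
  obtain ⟨h2, h3⟩ := h1 φ hφ hlim
  exact ⟨⟨ν', hν'⟩, r, hr, h2, h3⟩

theorem flow_allSc (hC : ∀ lam : ℝ, 0 < lam → lam < 1 → Core lam) (hR : RMLim) : AllSc :=
  allSc_of fun _ h0 => Full.full_all hC hR h0

end Pool.Agent.SCF
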