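import Pool.Agent.SCF.FlowPer
import Pool.Agent.SCF.FlowFull

/-!
# ScaleFlow: the public form (helper5, with helper66's clauses on the fixed points and the closed orbits)
-/

set_option autoImplicit false

open Filter Topology MeasureTheory Set

namespace Pool.Agent.SCF

open Pool.Agent.NTS.Res
open Pool.Agent.NPR (frac)
open NTSF.Mg (WL)

/-- **ScaleFlow** -/
theorem flow_pub4 (hA : AllSc) :
    IsCompact WL ∧ IsConnected WL ∧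
    ∃ (T : ℝ → ProbabilityMeasure C(unitInterval, ℂ) → ProbabilityMeasure C(unitInterval, ℂ))
      (c : ℝ → ProbabilityMeasure C(unitInterval, ℂ) → ℝ),
      (∀ (t : ℝ) (φ : ℕ → ℕ) (ν : ProbabilityMeasure C(unitInterval, ℂ)), 0 < t → Tendsto φ atTop atTop →
        LawTo φ (ν : Measure C(unitInterval, ℂ)) →
          LawTo (fun j => ⌊t * φ j⌋₊) (T t ν : Measure C(unitInterval, ℂ)) ∧
          Tendsto (fun j => size ⌊t * φ j⌋₊ / size (φ j)) atTop (𝓝 (c t ν)) ∧ 0 < c t ν) ∧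
      ContinuousOn (fun p : ℝ × ProbabilityMeasure C(unitInterval, ℂ) => (T p.1 p.2, c p.1 p.2)) (Ioi 0 ×ˢ WL) ∧
      (∀ t : ℝ, 0 < t → BijOn (T t) WL WL) ∧
      (∀ (s t : ℝ) (ν : ProbabilityMeasure C(unitInterval, ℂ)), 0 < s → 0 < t → ν ∈ WL →
        T 1 ν = ν ∧ T s (T t ν) = T (s * t) ν ∧ c s (T t ν) * c t ν = c (s * t) ν) ∧
      (∀ (t : ℝ) (ν : ProbabilityMeasure C(unitInterval, ℂ)), 0 < t → ν ∈ WL → T t ν = ν → c t ν = t ^ (3 / 4 : ℝ)) ∧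
      (∀ (p : ℕ) (ν : ProbabilityMeasure C(unitInterval, ℂ)), 2 ≤ p →
        LawTo (fun j => p ^ j) (ν : Measure C(unitInterval, ℂ)) → T p ν = ν ∧ WL = (fun t => T t ν) '' Icc 1 (p : ℝ)) ∧
      ∀ p q : ℕ, 2 ≤ p → 2 ≤ q → (∀ a b : ℕ, 1 ≤ a → p ^ b ≠ q ^ a) → List.TFAE [
        ∃ ν : ProbabilityMeasure C(unitInterval, ℂ), LawTo (fun n => n) (ν : Measure C(unitInterval, ℂ)),
        (∃ ν : ProbabilityMeasure C(unitInterval, ℂ), LawTo (fun j => p ^ j) (ν : Measure C(unitInterval, ℂ))) ∧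
          ∃ ν : ProbabilityMeasure C(unitInterval, ℂ), LawTo (fun j => q ^ j) (ν : Measure C(unitInterval, ℂ)),
        ∀ F : Finset ℂ, F.Nonempty → ∃ S : Set ℝ, S.Countable ∧ ∀ r : ℝ, 0 < r → r ∉ S →
          (∃ l : ℝ, Tendsto (fun j => frac (p ^ j) F r) atTop (𝓝 l)) ∧
            ∃ l : ℝ, Tendsto (fun j => frac (q ^ j) F r) atTop (𝓝 l),
        ∃ ν ∈ WL, ∃ U ∈ 𝓝 ν, ∀ V ∈ 𝓝 ν, ∃ t0 : ℝ, 0 < t0 ∧ ∀ t : ℝ, 0 < t → t ≤ t0 → ∀ μ ∈ U ∩ WL, T t μ ∈ V,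
        ∃ ν ∈ WL, ∃ U ∈ 𝓝 ν, ∀ V ∈ 𝓝 ν, ∃ t0 : ℝ, 0 < t0 ∧ ∀ t : ℝ, t0 ≤ t → ∀ μ ∈ U ∩ WL, T t μ ∈ V] := by
  obtain ⟨h1, h2, T, c, h3, h4, h5, h6, h7⟩ := flow_pub3 hA
  refine ⟨h1, h2, T, c, h3, h4, h5, h6, fun t ν t0 hν h => size_fixed h3 h6 t0 hν h, fun p ν hp h => ?_, h7⟩
  obtain ⟨g1, -, g3⟩ := per_pow h3 h6 hp h
  exact ⟨g1, g3⟩

end Pool.Agent.SCF
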