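import Pool.Agent.SCF.CoreAll
import Pool.Agent.SCF.FlowPub4
import Pool.Agent.RMP.LimAll

/-!
# ScaleFlow: the full flow, without hypothesis (helper66)
-/

set_option autoImplicit false

open MeasureTheory Filter Topology Set

namespace Pool.Agent.SCF

/-- **the limit at one scale determines the limits at all scales**, no hypothesis -/
theorem scaleFlow_all : AllSc := flow_allSc core Pool.Agent.RMP.rmLim

/-- the same, with the same limits for all sequences -/
theorem flU_all {lam : ℝ} (h0 : 0 < lam) : Full.FlU lam := Full.full_all core Pool.Agent.RMP.rmLim h0

end Pool.Agent.SCF
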