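import Pool.Agent.SCF.ZDefs

/-!
# ScaleFlow, there is at most one start gate (helper78)

`T0_unique`, `T1_unique`; the numbers `th0` and the averages `ps1` are in `[0, 1]`.
-/

set_option autoImplicit false

open Set Filter Topology

namespace Pool.Agent.SCF.Z

open Pool.Agent.NTS.Res

theorem GU.nn {n : ℕ} {a r : ℝ} {s : Fin n → Fin 3} {k : ℕ} (h : GU a r s k) : 0 ≤ r := by
  have := h.2.2.1 0 0 (Nat.zero_le _) (Nat.zero_le _)
  simpa using this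

theorem GB.nn {n : ℕ} {h L : ℝ} {s : Fin n → Fin 3} {k k2 : ℕ} (hb : GB h L s k k2) : 0 ≤ L := by
  have := hb.2.2.2.2.2.1 k le_rfl hb.1.le
  simpa using this

/-- a start gate is a cut of every longer start piece of diameter at most `ρ` -/
theorem T0.scut {n : ℕ} {a r r' ρ : ℝ} {s : Fin n → Fin 3} {k k' : ℕ} (h : T0 a r ρ s k) (hr : r' ≤ ρ) (hk : k < k') (hn : k' ≤ n)
    (hd : ∀ i j : ℕ, i ≤ k' → j ≤ k' → ‖pos s i - pos s j‖ ≤ r') : SCut s 0 k k' :=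
  ⟨Nat.zero_le _, hk, h.1.1, h.2.2.1, fun i _ hi => h.1.2.1 i hi, fun j hj hj' =>
    h.2.2.2 j hj (hj'.trans hn) ((hd j k hj' hk.le).trans hr)⟩

theorem T0_lt {n : ℕ} {a r ρ : ℝ} (hr : r ≤ ρ) {s : Fin n → Fin 3} {k k' : ℕ} (h : T0 a r ρ s k) (h' : T0 a r ρ s k') : ¬ k < k' :=
  fun hk => h'.1.2.2.2.2 k (h.scut hr hk h'.2.1.le h'.1.2.2.1) h.1.2.2.2.1

/-- **there is at most one start gate** -/
theorem T0_unique {n : ℕ} {a r ρ : ℝ} (hr : r ≤ ρ) {s : Fin n → Fin 3} {k k' : ℕ} (h : T0 a r ρ s k) (h' : T0 a r ρ s k') :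
    k = k' :=
  le_antisymm (not_lt.1 (T0_lt hr h' h)) (not_lt.1 (T0_lt hr h h'))

/-- the first end of a start gate with a middle piece is a cut of every longer start piece of diameter at most `r'` -/
theorem T1.scut {n : ℕ} {a r r' h L ρ : ℝ} {s : Fin n → Fin 3} {k k2 k' : ℕ} (ht : T1 a r h L ρ s k k2) (hr : r' + L ≤ ρ)
    (hk : k < k') (hn : k' ≤ n) (hd : ∀ i j : ℕ, i ≤ k' → j ≤ k' → ‖pos s i - pos s j‖ ≤ r') : SCut s 0 k k' := by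
  refine ⟨Nat.zero_le _, hk, ht.1.1, ht.2.1.2.2.1, fun i _ hi => ht.1.2.1 i hi, fun j hj hj' => ?_⟩
  rcases le_or_gt j k2 with h2 | h2
  · exact ht.2.1.2.2.2.1 j hj h2
  · have e1 : ‖pos s j - pos s k2‖ ≤ ρ := by
      have e2 : pos s j - pos s k2 = (pos s j - pos s k) - (pos s k2 - pos s k) := by ring
      rw [e2]
      refine (norm_sub_le _ _).trans ?_
      have e3 := hd j k hj' hk.le
      have e4 := ht.2.1.2.2.2.2.2.1 k2 ht.2.1.1.le le_rfl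
      linarith
    have e5 := ht.2.2.2.2 j h2 (hj'.trans hn) e1
    have e6 := ht.2.1.2.2.2.2.1 k le_rfl ht.2.1.1.le
    linarith

theorem T1_lt {n : ℕ} {a r h L ρ : ℝ} (hr : 2 * (r + L) ≤ ρ) {s : Fin n → Fin 3} {k k2 k' k2' : ℕ} (ht : T1 a r h L ρ s k k2)
    (ht' : T1 a r h L ρ s k' k2') : ¬ k < k' := fun hk => by
  have h1 := ht.1.nn
  have h2 := ht.2.1.nn
  exact ht'.1.2.2.2.2 k (ht.scut (by linarith) hk (ht'.2.1.1.le.trans ht'.2.2.1.le) ht'.1.2.2.1) ht.1.2.2.2.1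

theorem T1_lt2 {n : ℕ} {a r h L ρ : ℝ} (hr : 2 * (r + L) ≤ ρ) {s : Fin n → Fin 3} {k k2 k2' : ℕ} (ht : T1 a r h L ρ s k k2)
    (ht' : T1 a r h L ρ s k k2') : ¬ k2 < k2' := fun hk => by
  have h1 := ht.1.nn
  have h2 := ht.2.1.nn
  have hc : SCut s k k2 k2' := by
    refine ⟨ht.2.1.1.le, hk, ht.2.1.2.1, ht.2.2.2.1, fun i hi hi' => ht.2.1.2.2.2.2.1 i hi hi', fun j hj hj' => ?_⟩
    refine ht.2.2.2.2 j hj (hj'.trans ht'.2.2.1.le) ?_
    have e2 : pos s j - pos s k2 = (pos s j - pos s k) - (pos s k2 - pos s k) := by ring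
    rw [e2]
    refine (norm_sub_le _ _).trans ?_
    have e3 := ht'.2.1.2.2.2.2.2.1 j (ht.2.1.1.le.trans hj.le) hj'
    have e4 := ht.2.1.2.2.2.2.2.1 k2 ht.2.1.1.le le_rfl
    linarith
  have e5 := ht'.2.1.2.2.2.2.2.2.2 k2 hc
  have e6 := ht.2.1.2.2.2.2.2.2.1
  linarith

/-- **there is at most one start gate with a middle piece** -/
theorem T1_unique {n : ℕ} {a r h L ρ : ℝ} (hr : 2 * (r + L) ≤ ρ) {s : Fin n → Fin 3} {k k2 k' k2' : ℕ}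
    (ht : T1 a r h L ρ s k k2) (ht' : T1 a r h L ρ s k' k2') : k = k' ∧ k2 = k2' := by
  have e1 : k = k' := le_antisymm (not_lt.1 (T1_lt hr ht' ht)) (not_lt.1 (T1_lt hr ht ht'))
  subst e1
  exact ⟨rfl, le_antisymm (not_lt.1 (T1_lt2 hr ht' ht)) (not_lt.1 (T1_lt2 hr ht ht'))⟩

open Classical in
theorem th0_nn {n : ℕ} (a r ρ : ℝ) (s : Fin n → Fin 3) : 0 ≤ th0 a r ρ s := Nat.cast_nonneg _

open Classical in
theorem th0_le {n : ℕ} {a r ρ : ℝ} (hr : r ≤ ρ) (s : Fin n → Fin 3) : th0 a r ρ s ≤ 1 := by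
  unfold th0
  have : ((Finset.range (n + 1)).filter fun k => T0 a r ρ s k).card ≤ 1 := by
    refine Finset.card_le_one.2 fun i hi j hj => ?_
    exact T0_unique hr (Finset.mem_filter.1 hi).2 (Finset.mem_filter.1 hj).2
  exact_mod_cast this

theorem tr_nn (x : ℝ) : 0 ≤ tr x := le_max_left _ _

theorem tr_le (x : ℝ) : tr x ≤ 1 := max_le zero_le_one (min_le_left _ _)

theorem tr_lip (x y : ℝ) : |tr x - tr y| ≤ |x - y| := by
  unfold tr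
  rw [max_comm 0, max_comm 0, min_comm 1, min_comm 1]
  refine (abs_max_sub_max_le_abs (min x 1) (min y 1) 0).trans ?_
  exact abs_inf_sub_inf_le_abs x y 1

/-- the weight of the number of steps of the middle piece -/
noncomputable def wt1 (x1 x2 : ℝ) (n m : ℕ) : ℝ :=
  tr (4 * ((m : ℝ) / n - x1) / (x2 - x1)) * tr (4 * (x2 - (m : ℝ) / n) / (x2 - x1))

theorem wt1_nn (x1 x2 : ℝ) (n m : ℕ) : 0 ≤ wt1 x1 x2 n m := mul_nonneg (tr_nn _) (tr_nn _)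

theorem wt1_le (x1 x2 : ℝ) (n m : ℕ) : wt1 x1 x2 n m ≤ 1 := mul_le_one₀ (tr_le _) (tr_nn _) (tr_le _)

/-- the weight is a Lipschitz function of the proportion -/
theorem wt1_lip {x1 x2 : ℝ} (hx : x1 < x2) (n n' m m' : ℕ) :
    |wt1 x1 x2 n m - wt1 x1 x2 n' m'| ≤ 8 / (x2 - x1) * |(m : ℝ) / n - (m' : ℝ) / n'| := by
  have hd : 0 < x2 - x1 := sub_pos.2 hx
  have e1 : |tr (4 * ((m : ℝ) / n - x1) / (x2 - x1)) - tr (4 * ((m' : ℝ) / n' - x1) / (x2 - x1))| ≤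
      4 / (x2 - x1) * |(m : ℝ) / n - (m' : ℝ) / n'| := by
    refine (tr_lip _ _).trans (le_of_eq ?_)
    have : 4 * ((m : ℝ) / n - x1) / (x2 - x1) - 4 * ((m' : ℝ) / n' - x1) / (x2 - x1) =
        4 / (x2 - x1) * ((m : ℝ) / n - (m' : ℝ) / n') := by field_simp; ring
    rw [this, abs_mul, abs_of_nonneg (by positivity : (0 : ℝ) ≤ 4 / (x2 - x1))]
  have e2 : |tr (4 * (x2 - (m : ℝ) / n) / (x2 - x1)) - tr (4 * (x2 - (m' : ℝ) / n') / (x2 - x1))| ≤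
      4 / (x2 - x1) * |(m : ℝ) / n - (m' : ℝ) / n'| := by
    refine (tr_lip _ _).trans (le_of_eq ?_)
    have : 4 * (x2 - (m : ℝ) / n) / (x2 - x1) - 4 * (x2 - (m' : ℝ) / n') / (x2 - x1) =
        -(4 / (x2 - x1) * ((m : ℝ) / n - (m' : ℝ) / n')) := by field_simp; ring
    rw [this, abs_neg, abs_mul, abs_of_nonneg (by positivity : (0 : ℝ) ≤ 4 / (x2 - x1))]
  unfold wt1
  obtain ⟨A, hA⟩ : ∃ A, A = tr (4 * ((m : ℝ) / n - x1) / (x2 - x1)) := ⟨_, rfl⟩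
  obtain ⟨A', hA'⟩ : ∃ A, A = tr (4 * ((m' : ℝ) / n' - x1) / (x2 - x1)) := ⟨_, rfl⟩
  obtain ⟨B, hB⟩ : ∃ A, A = tr (4 * (x2 - (m : ℝ) / n) / (x2 - x1)) := ⟨_, rfl⟩
  obtain ⟨B', hB'⟩ : ∃ A, A = tr (4 * (x2 - (m' : ℝ) / n') / (x2 - x1)) := ⟨_, rfl⟩
  rw [← hA, ← hA'] at e1
  rw [← hB, ← hB'] at e2
  rw [← hA, ← hA', ← hB, ← hB']
  have h1 : |A'| ≤ 1 := by rw [hA', abs_of_nonneg (tr_nn _)]; exact tr_le _
  have h2 : |B| ≤ 1 := by rw [hB, abs_of_nonneg (tr_nn _)]; exact tr_le _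
  have e3 : A * B - A' * B' = (A - A') * B + A' * (B - B') := by ring
  rw [e3]
  refine (abs_add_le _ _).trans ?_
  rw [abs_mul, abs_mul]
  have h3 : |A - A'| * |B| ≤ |A - A'| * 1 := mul_le_mul_of_nonneg_left h2 (abs_nonneg _)
  have h4 : |A'| * |B - B'| ≤ 1 * |B - B'| := mul_le_mul_of_nonneg_right h1 (abs_nonneg _)
  have e4 : 8 / (x2 - x1) * |(m : ℝ) / n - (m' : ℝ) / n'| =
      4 / (x2 - x1) * |(m : ℝ) / n - (m' : ℝ) / n'| + 4 / (x2 - x1) * |(m : ℝ) / n - (m' : ℝ) / n'| := by ring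
  rw [e4]
  linarith

open Classical in
/-- one term of the average `ps1` -/
noncomputable def in1 (a r h L ρ x1 x2 : ℝ) {n : ℕ} (s : Fin n → Fin 3) : ℝ :=
  ∑ k ∈ Finset.range (n + 1), ∑ k2 ∈ Finset.range (n + 1), if T1 a r h L ρ s k k2 then wt1 x1 x2 n (k2 - k) else 0

/-- the value of a term -/
theorem in1_eq {a r h L ρ x1 x2 : ℝ} (hr : 2 * (r + L) ≤ ρ) {n : ℕ} {s : Fin n → Fin 3} {k k2 : ℕ} (ht : T1 a r h L ρ s k k2) :
    in1 a r h L ρ x1 x2 s = wt1 x1 x2 n (k2 - k) := by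
  classical
  have hk2 : k2 < n := ht.2.2.1
  have hk : k < k2 := ht.2.1.1
  unfold in1
  rw [Finset.sum_eq_single k, Finset.sum_eq_single k2, if_pos ht]
  · intro j _ hj
    exact if_neg fun h' => hj (T1_unique hr ht h').2.symm
  · intro h'
    exact absurd (Finset.mem_range.2 (by omega)) h'
  · intro j _ hj
    exact Finset.sum_eq_zero fun i _ => if_neg fun h' => hj (T1_unique hr ht h').1.symm
  · intro h'
    exact absurd (Finset.mem_range.2 (by omega)) h'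

/-- the value of a term without a gate -/
theorem in1_zero {a r h L ρ x1 x2 : ℝ} {n : ℕ} {s : Fin n → Fin 3} (ht : ∀ k k2 : ℕ, ¬ T1 a r h L ρ s k k2) :
    in1 a r h L ρ x1 x2 s = 0 := by
  classical
  unfold in1
  exact Finset.sum_eq_zero fun k _ => Finset.sum_eq_zero fun k2 _ => if_neg (ht k k2)

theorem in1_nn (a r h L ρ x1 x2 : ℝ) {n : ℕ} (s : Fin n → Fin 3) : 0 ≤ in1 a r h L ρ x1 x2 s := by
  classical
  unfold in1
  refine Finset.sum_nonneg fun k _ => Finset.sum_nonneg fun k2 _ => ?_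
  split_ifs
  · exact wt1_nn _ _ _ _
  · exact le_rfl

theorem in1_le {a r h L ρ x1 x2 : ℝ} (hr : 2 * (r + L) ≤ ρ) {n : ℕ} (s : Fin n → Fin 3) : in1 a r h L ρ x1 x2 s ≤ 1 := by
  by_cases ht : ∃ k k2 : ℕ, T1 a r h L ρ s k k2
  · obtain ⟨k, k2, ht⟩ := ht
    rw [in1_eq hr ht]
    exact wt1_le _ _ _ _
  · rw [in1_zero (fun k k2 h' => ht ⟨k, k2, h'⟩)]
    exact zero_le_one

/-- the average as an average of the terms -/
theorem ps1_def (M : ℕ) (R L x1 x2 : ℝ) {n : ℕ} (s : Fin n → Fin 3) : ps1 M R L x1 x2 s =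
    (∑ i1 ∈ Finset.range M, ∑ i2 ∈ Finset.range M, ∑ i3 ∈ Finset.range M, ∑ i4 ∈ Finset.range M, ∑ i5 ∈ Finset.range M,
      in1 (gp M (R / 4) (R / 2) i1) (gp M R (2 * R) i2) (gp M (L / 32) (L / 16) i3) (gp M L (2 * L) i4)
        (gp M (64 * R) (128 * R) i5) x1 x2 s) / (M : ℝ) ^ 5 := rfl

/-- points of the grid -/
theorem gp_mem {M i : ℕ} (hi : i < M) {x y : ℝ} (hxy : x ≤ y) : x ≤ gp M x y i ∧ gp M x y i ≤ y := by
  have hM : (0 : ℝ) < M := by exact_mod_cast lt_of_le_of_lt (Nat.zero_le _) hi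
  have h1 : ((i + 1 : ℕ) : ℝ) ≤ M := by exact_mod_cast hi
  have h2 : (0 : ℝ) ≤ ((i + 1 : ℕ) : ℝ) := Nat.cast_nonneg _
  have hd : 0 ≤ y - x := sub_nonneg.2 hxy
  unfold gp
  constructor
  · have : 0 ≤ (y - x) * ((i + 1 : ℕ) : ℝ) / (M : ℝ) := div_nonneg (mul_nonneg hd h2) hM.le
    linarith
  · have : (y - x) * ((i + 1 : ℕ) : ℝ) / (M : ℝ) ≤ y - x := by
      rw [div_le_iff₀ hM]
      exact mul_le_mul_of_nonneg_left h1 hd
    linarith

/-- the condition of uniqueness holds on the grid -/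
theorem grid_cond {M : ℕ} {R L : ℝ} (hR : 0 ≤ R) (hL : 0 ≤ L) (hLR : L ≤ R / 8) {i2 i4 i5 : ℕ} (h2 : i2 < M) (h4 : i4 < M)
    (h5 : i5 < M) : 2 * (gp M R (2 * R) i2 + gp M L (2 * L) i4) ≤ gp M (64 * R) (128 * R) i5 := by
  have e2 := (gp_mem h2 (by linarith : R ≤ 2 * R)).2
  have e4 := (gp_mem h4 (by linarith : L ≤ 2 * L)).2
  have e5 := (gp_mem h5 (by linarith : 64 * R ≤ 128 * R)).1
  linarith

theorem ps1_nn (M : ℕ) (R L x1 x2 : ℝ) {n : ℕ} (s : Fin n → Fin 3) : 0 ≤ ps1 M R L x1 x2 s := by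
  rw [ps1_def]
  refine div_nonneg ?_ (pow_nonneg (Nat.cast_nonneg _) _)
  exact Finset.sum_nonneg fun _ _ => Finset.sum_nonneg fun _ _ => Finset.sum_nonneg fun _ _ => Finset.sum_nonneg fun _ _ =>
    Finset.sum_nonneg fun _ _ => in1_nn _ _ _ _ _ _ _ _

theorem ps1_le {M : ℕ} {R L x1 x2 : ℝ} (hR : 0 ≤ R) (hL : 0 ≤ L) (hLR : L ≤ R / 8) {n : ℕ} (s : Fin n → Fin 3) :
    ps1 M R L x1 x2 s ≤ 1 := by
  rw [ps1_def]
  rcases Nat.eq_zero_or_pos M with rfl | hM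
  · simp
  have hM' : (0 : ℝ) < M := by exact_mod_cast hM
  rw [div_le_one (pow_pos hM' _)]
  have h : (∑ i1 ∈ Finset.range M, ∑ i2 ∈ Finset.range M, ∑ i3 ∈ Finset.range M, ∑ i4 ∈ Finset.range M, ∑ i5 ∈ Finset.range M,
      in1 (gp M (R / 4) (R / 2) i1) (gp M R (2 * R) i2) (gp M (L / 32) (L / 16) i3) (gp M L (2 * L) i4)
        (gp M (64 * R) (128 * R) i5) x1 x2 s) ≤
      ∑ i1 ∈ Finset.range M, ∑ i2 ∈ Finset.range M, ∑ i3 ∈ Finset.range M, ∑ i4 ∈ Finset.range M, ∑ i5 ∈ Finset.range M,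
        (1 : ℝ) := by
    refine Finset.sum_le_sum fun _ _ => Finset.sum_le_sum fun i2 h2 => Finset.sum_le_sum fun _ _ =>
      Finset.sum_le_sum fun i4 h4 => Finset.sum_le_sum fun i5 h5 => ?_
    exact in1_le (grid_cond hR hL hLR (Finset.mem_range.1 h2) (Finset.mem_range.1 h4) (Finset.mem_range.1 h5)) s
  refine h.trans (le_of_eq ?_)
  simp only [Finset.sum_const, Finset.card_range, nsmul_eq_mul]
  ring

end Pool.Agent.SCF.Z
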