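import Pool.Agent.SCF.TipU
import Pool.Agent.NTS.Dict

/-!
# ScaleFlow (R-), row P0 (helper29): from the tip gates to the start gates

* `rvw`, `pos_rvw` : the reversed walk, odd number of steps; `rvw_mem`;
* `tgt_rvw` : a tip gate of the walk is a start gate of the reversed walk;
* `cutw` : the walk without its last step; the counts;
* `half` : half of the walks with an odd number of steps have a tip gate in some direction, so a sixth of them have a start gate.
-/

set_option autoImplicit false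

open Set Filter Topology

namespace Pool.Agent.SCF.Z

open Pool.Agent.NTS.Res
open Pool.Agent.CRT.V (rt rt_mem rt_rt rt_zero fin3)
open NTSF (pos_zero pos_succ mem_saw size_pos saw_card_pos)

/-! ### 1. The reversed walk -/

/-- the reversed walk -/
def rvw {n : ℕ} (s : Fin n → Fin 3) : Fin n → Fin 3 := fun i => s (Fin.rev i)

lemma rvw_rvw {n : ℕ} (s : Fin n → Fin 3) : rvw (rvw s) = s := by
  funext i
  show s (Fin.rev (Fin.rev i)) = s i
  rw [Fin.rev_rev]

lemma step_par {i j : ℕ} (h : Even i ↔ Even j) (a : Fin 3) : step i a = step j a := by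
  unfold step
  congr 1
  by_cases hi : Even i
  · rw [hi.neg_one_pow, (h.1 hi).neg_one_pow]
  · rw [(Nat.not_even_iff_odd.1 hi).neg_one_pow, (Nat.not_even_iff_odd.1 fun hj => hi (h.2 hj)).neg_one_pow]

/-- the positions of the reversed walk -/
theorem pos_rvw {n : ℕ} (hn : Odd n) (s : Fin n → Fin 3) {j : ℕ} (hj : j ≤ n) : pos (rvw s) j = pos s n - pos s (n - j) := by
  induction j with
  | zero => rw [pos_zero, Nat.sub_zero, sub_self]
  | succ j ih =>
    have hj' : j < n := by omega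
    rw [pos_succ (rvw s) j hj', ih (by omega)]
    have e1 : n - j = (n - (j + 1)) + 1 := by omega
    have h2 : n - (j + 1) < n := by omega
    have e2 : pos s (n - j) = pos s (n - (j + 1)) + step (n - (j + 1)) (s ⟨n - (j + 1), h2⟩) := by
      conv_lhs => rw [e1]
      exact pos_succ s _ h2
    have e3 : rvw s ⟨j, hj'⟩ = s ⟨n - (j + 1), h2⟩ := by
      show s (Fin.rev ⟨j, hj'⟩) = _
      congr 1
    have e4 : step j (s ⟨n - (j + 1), h2⟩) = step (n - (j + 1)) (s ⟨n - (j + 1), h2⟩) := by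
      refine step_par ?_ _
      obtain ⟨m, hm⟩ := hn
      constructor
      · rintro ⟨q, hq⟩
        exact ⟨m - q, by omega⟩
      · rintro ⟨q, hq⟩
        exact ⟨m - q, by omega⟩
    rw [e2, e3, e4]
    ring

theorem rvw_mem {n : ℕ} (hn : Odd n) {s : Fin n → Fin 3} : rvw s ∈ saw n ↔ s ∈ saw n := by
  have key : ∀ s : Fin n → Fin 3, s ∈ saw n → rvw s ∈ saw n := by
    intro s hs
    rw [mem_saw] at hs ⊢
    intro j k hj hk he
    rw [pos_rvw hn s hj, pos_rvw hn s hk, sub_right_inj] at he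
    have := hs (n - j) (n - k) (Nat.sub_le _ _) (Nat.sub_le _ _) he
    omega
  exact ⟨fun h => by
    have := key _ h
    rwa [rvw_rvw] at this, key s⟩

/-- start gate: start piece weakly to the left, diameter in [d1, d2], the walk behind k to the right in the ball of radius W -/
def SGa (d1 d2 W : ℝ) {n : ℕ} (s : Fin n → Fin 3) (k : ℕ) : Prop :=
  k < n ∧ Even k ∧ pos s (k + 1) = pos s k + 1 ∧ (∀ i : ℕ, i ≤ k → (pos s i).re ≤ (pos s k).re) ∧
    (∀ i j : ℕ, i ≤ k → j ≤ k → ‖pos s i - pos s j‖ ≤ d2) ∧ DmG d1 s k ∧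
    ∀ j : ℕ, k < j → j ≤ n → ‖pos s j - pos s k‖ ≤ W → (pos s k).re + 1 ≤ (pos s j).re

/-- **a tip gate of the walk is a start gate of the reversed walk** -/
theorem tgt_rvw {n : ℕ} (hn : Odd n) {s : Fin n → Fin 3} {k : ℕ} {c D W : ℝ} (h : TGt c D W s k) :
    SGa (c * D - 1) (2 * D) (W - 1) (rvw s) (n - (k + 1)) := by
  obtain ⟨hk, he, h1, hl, hr, hc⟩ := h
  have hk1 : n - (k + 1) + 1 = n - k := by omega
  have e0 : pos (rvw s) (n - (k + 1)) = pos s n - pos s (k + 1) := by
    rw [pos_rvw hn s (by omega)]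
    congr 2
    omega
  have e1 : pos (rvw s) (n - (k + 1) + 1) = pos s n - pos s k := by
    rw [hk1, pos_rvw hn s (by omega)]
    congr 2
    omega
  have n1 : ∀ v : ℂ, ‖v - (pos s k + 1)‖ ≤ ‖v - pos s k‖ + 1 := by
    intro v
    have e : v - (pos s k + 1) = (v - pos s k) - 1 := by ring
    rw [e]
    refine (norm_sub_le _ _).trans ?_
    rw [norm_one]
  have n2 : ∀ v : ℂ, ‖v - pos s k‖ ≤ ‖v - (pos s k + 1)‖ + 1 := by
    intro v
    have e : v - pos s k = (v - (pos s k + 1)) + 1 := by ring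
    rw [e]
    refine (norm_add_le _ _).trans ?_
    rw [norm_one]
  refine ⟨by omega, ?_, ?_, ?_, ?_, ?_, ?_⟩
  · obtain ⟨m, hm⟩ := hn
    obtain ⟨q, hq⟩ := he
    exact ⟨m - q, by omega⟩
  · rw [e0, e1, h1]
    ring
  · intro i hi
    rw [e0, pos_rvw hn s (by omega), Complex.sub_re, Complex.sub_re, h1, Complex.add_re, Complex.one_re]
    have := (hr (n - i) (by omega) (by omega)).1
    linarith
  · intro i j hi hj
    rw [pos_rvw hn s (by omega), pos_rvw hn s (by omega)]
    have g1 := (hr (n - i) (by omega) (by omega)).2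
    have g2 := (hr (n - j) (by omega) (by omega)).2
    have e : pos s n - pos s (n - i) - (pos s n - pos s (n - j)) = (pos s (n - j) - pos s k) - (pos s (n - i) - pos s k) := by ring
    rw [e]
    refine (norm_sub_le _ _).trans ?_
    linarith
  · refine ⟨n - (k + 1), 0, le_rfl, Nat.zero_le _, ?_⟩
    rw [e0, pos_zero, sub_zero, h1]
    have := n2 (pos s n)
    linarith
  · intro j hj hjn hw
    rw [e0, pos_rvw hn s hjn] at hw
    rw [e0, pos_rvw hn s hjn, Complex.sub_re, Complex.sub_re, h1, Complex.add_re, Complex.one_re]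
    have e : pos s n - pos s (n - j) - (pos s n - pos s (k + 1)) = -(pos s (n - j) - pos s (k + 1)) := by ring
    rw [e, norm_neg, h1] at hw
    have g1 := n2 (pos s (n - j))
    have := hl (n - j) (by omega) (by linarith)
    linarith

/-! ### 2. The walk without its last step -/

/-- the walk without its last step -/
def cutw {n : ℕ} (s : Fin (n + 1) → Fin 3) : Fin n → Fin 3 := fun i => s i.castSucc

lemma pos_cutw {n : ℕ} (s : Fin (n + 1) → Fin 3) {j : ℕ} (hj : j ≤ n) : pos (cutw s) j = pos s j := by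
  induction j with
  | zero => rw [pos_zero, pos_zero]
  | succ j ih =>
    rw [pos_succ (cutw s) j (by omega), pos_succ s j (by omega), ih (by omega)]
    rfl

lemma cutw_mem {n : ℕ} {s : Fin (n + 1) → Fin 3} (hs : s ∈ saw (n + 1)) : cutw s ∈ saw n := by
  rw [mem_saw] at hs ⊢
  intro j k hj hk he
  rw [pos_cutw s hj, pos_cutw s hk] at he
  exact hs j k (by omega) (by omega) he

lemma sga_cutw {n : ℕ} {s : Fin (n + 1) → Fin 3} {k : ℕ} {d1 d2 W : ℝ} (h : SGa d1 d2 W s k) (hk : k < n) :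
    SGa d1 d2 W (cutw s) k := by
  obtain ⟨h0, h1, h2, h3, h4, ⟨i, j, hi, hj, h5⟩, h6⟩ := h
  refine ⟨hk, h1, ?_, ?_, ?_, ⟨i, j, hi, hj, ?_⟩, ?_⟩
  · rw [pos_cutw s (by omega), pos_cutw s (by omega), h2]
  · intro i hi
    rw [pos_cutw s (by omega), pos_cutw s (by omega)]
    exact h3 i hi
  · intro i j hi hj
    rw [pos_cutw s (by omega), pos_cutw s (by omega)]
    exact h4 i j hi hj
  · rw [pos_cutw s (by omega), pos_cutw s (by omega)]
    exact h5
  · intro j hj hjn hw
    rw [pos_cutw s hjn, pos_cutw s (by omega)] at hw ⊢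
    exact h6 j hj (by omega) hw

open Classical in
/-- the last step has at most three values -/
theorem card_cutw {n : ℕ} (P : (Fin (n + 1) → Fin 3) → Prop) (Q : (Fin n → Fin 3) → Prop)
    (h : ∀ s, s ∈ saw (n + 1) → P s → Q (cutw s)) : ((saw (n + 1)).filter P).card ≤ 3 * ((saw n).filter Q).card := by
  have h1 : ((saw (n + 1)).filter P).card ≤ (((saw n).filter Q) ×ˢ (Finset.univ : Finset (Fin 3))).card := by
    refine Finset.card_le_card_of_injOn (fun s => (cutw s, s (Fin.last n))) ?_ ?_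
    · intro s hs
      rw [Finset.mem_coe, Finset.mem_filter] at hs
      rw [Finset.mem_coe, Finset.mem_product, Finset.mem_filter]
      exact ⟨⟨cutw_mem hs.1, h s hs.1 hs.2⟩, Finset.mem_univ _⟩
    · intro s _ s' _ he
      have he1 : cutw s = cutw s' := congrArg Prod.fst he
      have he2 : s (Fin.last n) = s' (Fin.last n) := congrArg Prod.snd he
      funext i
      refine Fin.lastCases he2 (fun i => ?_) i
      exact congrFun he1 i
  rw [Finset.card_product, Finset.card_univ, Fintype.card_fin] at h1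
  omega

/-! ### 3. The three directions -/

open Classical in
lemma card_dir {n : ℕ} (q : Fin 3) (P : (Fin n → Fin 3) → Prop) :
    ((saw n).filter fun s => P (rt q s)).card = ((saw n).filter P).card := by
  apply Finset.card_bij (fun s _ => rt q s)
  · intro s hs
    rw [Finset.mem_filter] at hs ⊢
    exact ⟨rt_mem.2 hs.1, hs.2⟩
  · intro s _ s' _ h
    funext i
    have h3 : s i + q = s' i + q := congrFun h i
    exact add_right_cancel h3
  · intro s hs
    rw [Finset.mem_filter] at hs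
    have e : rt q (rt (-q) s) = s := by rw [rt_rt, neg_add_cancel, rt_zero]
    refine ⟨rt (-q) s, ?_, e⟩
    rw [Finset.mem_filter, rt_mem, e]
    exact hs

open Classical in
lemma card_rev {n : ℕ} (hn : Odd n) (P : (Fin n → Fin 3) → Prop) :
    ((saw n).filter fun s => P (rvw s)).card = ((saw n).filter P).card := by
  apply Finset.card_bij (fun s _ => rvw s)
  · intro s hs
    rw [Finset.mem_filter] at hs ⊢
    exact ⟨(rvw_mem hn).2 hs.1, hs.2⟩
  · intro s _ s' _ h
    have := congrArg rvw h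
    rwa [rvw_rvw, rvw_rvw] at this
  · intro s hs
    rw [Finset.mem_filter] at hs
    refine ⟨rvw s, ?_, rvw_rvw s⟩
    rw [Finset.mem_filter, rvw_rvw]
    exact ⟨(rvw_mem hn).2 hs.1, hs.2⟩

open Classical in
/-- **start gates of the walks with an odd number of steps** -/
theorem odd_sga (h : TipU) : ∃ c : ℝ, 0 < c ∧ ∀ A : ℝ, 0 < A → ∃ (M : ℕ) (c0 δ0 : ℝ), 0 < c0 ∧ 0 < δ0 ∧
    ∀ (n : ℕ) (R : ℝ), Odd n → c0 ≤ R → R ≤ δ0 * size n →
      ((saw n).card : ℝ) ≤ 6 * (((saw n).filter fun s => ∃ (k : ℕ) (D : ℝ), R / 2 ^ M ≤ D ∧ D ≤ R ∧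
        SGa (c * D - 1) (2 * D) (A * D - 1) s k).card : ℝ) := by
  obtain ⟨c, hc, h⟩ := h
  refine ⟨c, hc, fun A hA => ?_⟩
  obtain ⟨M, c0, δ0, hc0, hδ0, h⟩ := h (1 / 2) A (by norm_num) hA
  refine ⟨M, c0, δ0, hc0, hδ0, fun n R hn h1 h2 => ?_⟩
  have h3 := h n R hn h1 h2
  obtain ⟨P, hP⟩ : ∃ P : (Fin n → Fin 3) → Prop, P = fun s => ∃ (k : ℕ) (D : ℝ), R / 2 ^ M ≤ D ∧ D ≤ R ∧
    TGt c D (A * D) s k := ⟨_, rfl⟩
  obtain ⟨Q, hQ⟩ : ∃ Q : (Fin n → Fin 3) → Prop, Q = fun s => ∃ (k : ℕ) (D : ℝ), R / 2 ^ M ≤ D ∧ D ≤ R ∧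
    SGa (c * D - 1) (2 * D) (A * D - 1) s k := ⟨_, rfl⟩
  have e1 : ((saw n).filter fun s => ¬ ∃ (q : Fin 3) (k : ℕ) (D : ℝ), R / 2 ^ M ≤ D ∧ D ≤ R ∧
      TGt c D (A * D) (rt q s) k) = (saw n).filter fun s => ¬ ∃ q : Fin 3, P (rt q s) := by
    rw [hP]
  have h4 : ((saw n).filter fun s => ∃ q : Fin 3, P (rt q s)).card ≤ 3 * ((saw n).filter P).card := by
    have h5 : ((saw n).filter fun s => ∃ q : Fin 3, P (rt q s)) ⊆
        (Finset.univ : Finset (Fin 3)).biUnion fun q => (saw n).filter fun s => P (rt q s) := by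
      intro s hs
      rw [Finset.mem_filter] at hs
      obtain ⟨hs, q, hq⟩ := hs
      rw [Finset.mem_biUnion]
      exact ⟨q, Finset.mem_univ _, Finset.mem_filter.2 ⟨hs, hq⟩⟩
    refine (Finset.card_le_card h5).trans (Finset.card_biUnion_le.trans ?_)
    rw [Finset.sum_congr rfl (fun q _ => card_dir q P), Finset.sum_const, Finset.card_univ, Fintype.card_fin, smul_eq_mul]
  have h6 : ((saw n).filter P).card ≤ ((saw n).filter Q).card := by
    rw [← card_rev hn Q]
    refine Finset.card_le_card fun s hs => ?_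
    rw [Finset.mem_filter] at hs ⊢
    refine ⟨hs.1, ?_⟩
    have h7 := hs.2
    rw [hP] at h7
    obtain ⟨k, D, g1, g2, g3⟩ := h7
    rw [hQ]
    exact ⟨_, D, g1, g2, tgt_rvw hn g3⟩
  have h7 := Finset.card_filter_add_card_filter_not (s := saw n) (p := fun s => ∃ q : Fin 3, P (rt q s))
  rw [e1] at h3
  have h8 : (((saw n).filter fun s => ∃ q : Fin 3, P (rt q s)).card : ℝ) +
      (((saw n).filter fun s => ¬ ∃ q : Fin 3, P (rt q s)).card : ℝ) = ((saw n).card : ℝ) := by exact_mod_cast h7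
  have h9 : (((saw n).filter fun s => ∃ q : Fin 3, P (rt q s)).card : ℝ) ≤ 3 * (((saw n).filter Q).card : ℝ) := by
    exact_mod_cast h4.trans (Nat.mul_le_mul_left 3 h6)
  rw [hQ] at h9
  linarith

end Pool.Agent.SCF.Z
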