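import Pool.Agent.SCF.PosB

/-!
# Native gates, walk side (row W8 of ROT / F3): thin blocks (helper4; literal agreed with helper94)

* `GBt h θ s k k2` : the middle piece `GB h` of the walk from `k` to `k2`, in the strip of half width `θ` and at most `h + θ` high:
  it starts with the step `+1`, is to the right of its start and weakly to the left of its end, and its end is its FIRST cut at
  least `h` higher than its start;
* `bwt h θ m` : the mass of these blocks with `m` steps;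
* **`blk : Blk`** : the blocks with `h ≥ h0`, `θ ≥ η h` and at most `e h ^ (4 / 3)` steps have a mass bounded below, uniformly in `h`.
-/

set_option autoImplicit false

open Set Filter Topology

namespace Pool.Agent.SCF.Z

open Pool.Agent.NTS.Res

/-- a thin middle piece -/
def GBt {n : ℕ} (h θ : ℝ) (s : Fin n → Fin 3) (k k2 : ℕ) : Prop :=
  GB h (h + 2 * θ) s k k2 ∧
    ∀ j : ℕ, k ≤ j → j ≤ k2 → |(pos s j).im - (pos s k).im| ≤ θ ∧ (pos s j).re ≤ (pos s k).re + h + θ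

open Classical in
/-- mass of the thin middle pieces with `m` steps (walks from `0` to their end) -/
noncomputable def bwt (h θ : ℝ) (m : ℕ) : ℝ := (((saw m).filter fun s => GBt h θ s 0 m).card : ℝ) * fug ^ m

/-- **the thin blocks have a mass bounded below** -/
def Blk : Prop := ∀ η e : ℝ, 0 < η → 0 < e → ∃ t h0 : ℝ, 0 < t ∧ ∀ h θ : ℝ, h0 ≤ h → η * h ≤ θ →
  ∀ M : ℕ, e * h ^ (4 / 3 : ℝ) ≤ M → t ≤ ∑ m ∈ Finset.range (M + 1), bwt h θ m

open HexObs hiding pos curve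

open HexObs.TS HexObs.SDN HexObs.ARM

open NTF (sw JJ)

open NTSF (pos_zero pos_succ mem_saw pos_sw)

/-- the imaginary part of the position -/
lemma abs_im_sw {m k : ℕ} (W : List Bool) (hk : k ≤ m) : |(pos (sw m W) k).im| ≤ |((lat W k : ℤ) : ℝ)| := by
  rw [pos_sw m W k hk, NTF.JJ_im]
  have e1 : lat W k = (vx oo up W k).1 := by
    unfold lat
    simp only [cross, up]
    ring
  rw [e1, abs_neg, abs_mul]
  have h1 : |Real.sqrt 3 / 2| ≤ 1 := by
    rw [abs_of_nonneg (by positivity)]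
    have h2 : Real.sqrt 3 ≤ 2 := by
      rw [Real.sqrt_le_left (by norm_num)]
      norm_num
    linarith
  calc |Real.sqrt 3 / 2| * |(((vx oo up W k).1 : ℤ) : ℝ)| ≤ 1 * |(((vx oo up W k).1 : ℤ) : ℝ)| :=
        mul_le_mul_of_nonneg_right h1 (abs_nonneg _)
    _ = |(((vx oo up W k).1 : ℤ) : ℝ)| := one_mul _

/-- a steered first passage is a thin middle piece -/
lemma gbt_of {W : List Bool} {m0 : ℕ} {h θ l B : ℝ} (hm0 : 1 ≤ m0) (h1 : h ≤ 3 / 2 * m0) (h2 : 3 / 2 * (m0 : ℝ) < h + 3 / 2)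
    (hB : 3 / 2 + B / 2 ≤ θ) (hB2 : 2 * B ≤ θ) (hW : W ∈ HexObs.SCF.TT m0 l B 0) : GBt h θ (sw W.length W) 0 W.length := by
  obtain ⟨w1, -, w3, -⟩ := hW
  obtain ⟨R, hR⟩ : ∃ R : ℝ, R = ∑ i ∈ Finset.range (W.length + 1), |((TIW.hn (vx oo up W i) : ℤ) : ℝ)| := ⟨_, rfl⟩
  have g1 := gb_of w1 hm0 h1 h2 (L' := R) fun i hi => by
    rw [hR]
    exact (le_abs_self _).trans (Finset.single_le_sum (f := fun i => |((TIW.hn (vx oo up W i) : ℤ) : ℝ)|)
      (fun _ _ => abs_nonneg _) (Finset.mem_range.2 (by omega)))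
  have hz : pos (sw W.length W) 0 = 0 := pos_zero _
  have g2 : ∀ j : ℕ, 0 ≤ j → j ≤ W.length → |(pos (sw W.length W) j).im - (pos (sw W.length W) 0).im| ≤ θ ∧
      (pos (sw W.length W) j).re ≤ (pos (sw W.length W) 0).re + h + θ := by
    intro j _ hj
    obtain ⟨a1, a2⟩ := w3 j hj
    rw [Int.cast_zero, zero_add] at a2
    rw [hz]
    simp only [Complex.zero_im, Complex.zero_re, sub_zero, zero_add]
    refine ⟨(abs_im_sw W hj).trans (a2.trans hB2), ?_⟩
    rw [re_sw W hj]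
    linarith
  refine ⟨?_, g2⟩
  obtain ⟨b1, b2, b3, b4, b5, b6, b7, b8⟩ := g1
  refine ⟨b1, b2, b3, b4, b5, fun j hj hjn => ?_, b7, b8⟩
  obtain ⟨a1, a2⟩ := g2 j hj hjn
  rw [hz] at a1 a2 ⊢
  rw [sub_zero]
  simp only [Complex.zero_im, Complex.zero_re, sub_zero, zero_add] at a1 a2
  have a3 : 0 ≤ (pos (sw W.length W) j).re := by
    rcases Nat.eq_zero_or_pos j with h0 | h0
    · rw [h0, hz, Complex.zero_re]
    · have := b4 j h0 hjn
      rw [hz, Complex.zero_re] at this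
      linarith
  have a4 := Complex.norm_le_abs_re_add_abs_im (pos (sw W.length W) j)
  rw [abs_of_nonneg a3] at a4
  linarith

/-- **the mass of the words with m letters** -/
lemma gf_bwt {m m0 : ℕ} {h θ l B : ℝ} (hm0 : 1 ≤ m0) (h1 : h ≤ 3 / 2 * m0) (h2 : 3 / 2 * (m0 : ℝ) < h + 3 / 2)
    (hB : 3 / 2 + B / 2 ≤ θ) (hB2 : 2 * B ≤ θ) :
    gf {W | W ∈ HexObs.SCF.TT m0 l B 0 ∧ W.length = m} ≤ ENNReal.ofReal (bwt h θ m) := by
  classical
  obtain ⟨S, hS⟩ : ∃ S, S = {W : List Bool | W ∈ HexObs.SCF.TT m0 l B 0 ∧ W.length = m} := ⟨_, rfl⟩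
  rw [← hS]
  have hlen : ∀ t ∈ S, t.length = m := by
    intro t ht
    rw [hS] at ht
    exact ht.2
  rw [NTF.gf_card hlen]
  have hgb : ∀ t ∈ S, GBt h θ (sw m t) 0 m := by
    intro t ht
    rw [hS] at ht
    obtain ⟨t1, t3⟩ := ht
    have h3 := gbt_of hm0 h1 h2 hB hB2 t1
    rw [t3] at h3
    exact h3
  have hcard : S.ncard ≤ ((saw m).filter fun s => GBt h θ s 0 m).card := by
    rw [← Set.ncard_coe_finset]
    refine Set.ncard_le_ncard_of_injOn (sw m) ?_ ?_ (Finset.finite_toSet _)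
    · intro t ht
      rw [Finset.mem_coe, Finset.mem_filter]
      refine ⟨NTSF.sw_mem ⟨hlen t ht, ?_⟩, hgb t ht⟩
      rw [hS] at ht
      exact (AR.BU_facts ht.1.1.1).1
    · intro t ht t' ht' he
      have hm : 0 < m := (hgb t ht).1.1
      have l1 := hlen t ht
      have l2 := hlen t' ht'
      rw [hS] at ht ht'
      exact sw_inj' hm ht.1.1.1 ht'.1.1.1 l1 l2 he
  unfold bwt
  rw [ENNReal.ofReal_mul (Nat.cast_nonneg _), ENNReal.ofReal_natCast, NTSF.fug_eq]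
  refine mul_le_mul' ?_ le_rfl
  exact_mod_cast hcard

lemma bwt_nonneg (h θ : ℝ) (m : ℕ) : 0 ≤ bwt h θ m := by
  unfold bwt
  have h1 : (0 : ℝ) ≤ fug := by
    unfold fug
    positivity
  positivity

/-- **row BLK** -/
theorem blk : Blk := by
  intro η e hη he
  obtain ⟨c1, s, k1, hc1, hsk, h1⟩ := HexObs.SCF.fp_one
  have h2s : (0 : ℝ) < 2 ^ s := by positivity
  have h2s1 : (1 : ℝ) ≤ 2 ^ s := one_le_pow₀ (by norm_num)
  -- the ratio of the scales
  obtain ⟨κ, hκ⟩ : ∃ κ : ℝ, κ = min (min (η / 4) 1) ((e / (36 * 2 ^ s)) ^ 3) := ⟨_, rfl⟩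
  have hκ0 : 0 < κ := by
    rw [hκ]
    exact lt_min (lt_min (by positivity) one_pos) (by positivity)
  have hκη : κ ≤ η / 4 := by
    rw [hκ]
    exact (min_le_left _ _).trans (min_le_left _ _)
  have hκ1 : κ ≤ 1 := by
    rw [hκ]
    exact (min_le_left _ _).trans (min_le_right _ _)
  have hκe : κ ≤ (e / (36 * 2 ^ s)) ^ 3 := by
    rw [hκ]
    exact min_le_right _ _
  obtain ⟨n, hn'⟩ : ∃ n : ℕ, n = ⌈8 * 2 ^ s / κ⌉₊ := ⟨_, rfl⟩
  have hn1 : 8 * 2 ^ s / κ ≤ n := by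
    rw [hn']
    exact Nat.le_ceil _
  have hn2 : (n : ℝ) ≤ 9 * 2 ^ s / κ := by
    have g1 : (n : ℝ) ≤ 8 * 2 ^ s / κ + 1 := by
      rw [hn']
      exact (Nat.ceil_lt_add_one (by positivity)).le
    have g2 : 1 ≤ 2 ^ s / κ := by
      rw [le_div_iff₀ hκ0]
      linarith
    have g3 : 9 * 2 ^ s / κ = 8 * 2 ^ s / κ + 2 ^ s / κ := by ring
    rw [g3]
    linarith
  refine ⟨(c1 / 2) ^ n, max (max 3 (3 / η)) (2 ^ (k1 + s + 1) / κ), by positivity, fun h θ hh hθ M hM => ?_⟩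
  have hh3 : 3 ≤ h := (le_max_left _ _).trans ((le_max_left _ _).trans hh)
  have hhη : 3 ≤ η * h := by
    have g1 : 3 / η ≤ h := (le_max_right _ _).trans ((le_max_left _ _).trans hh)
    rw [div_le_iff₀ hη] at g1
    linarith
  have hhk : (2 : ℝ) ^ (k1 + s + 1) ≤ κ * h := by
    have g1 : 2 ^ (k1 + s + 1) / κ ≤ h := (le_max_right _ _).trans hh
    rw [div_le_iff₀ hκ0] at g1
    linarith
  have hh0 : 0 < h := by linarith
  -- the scale
  have hp1 : (1 : ℝ) ≤ 2 ^ (k1 + s + 1) := one_le_pow₀ (by norm_num)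
  obtain ⟨l, hl1, hl2⟩ := exists_nat_pow_near (hp1.trans hhk) (by norm_num : (1 : ℝ) < 2)
  have hlk : k1 + s + 1 ≤ l := by
    by_contra hcon
    push Not at hcon
    have g1 : (2 : ℝ) ^ (l + 1) ≤ 2 ^ (k1 + s + 1) := pow_le_pow_right₀ (by norm_num) (by omega)
    linarith
  have hpl : (2 : ℝ) ^ (l + 1) = 2 * 2 ^ l := by ring
  rw [hpl] at hl2
  have h2l : (0 : ℝ) < 2 ^ l := by positivity
  have hml : ml l = ((2 : ℝ) ^ l) ^ (4 / 3 : ℝ) := by
    unfold ml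
    rw [← Real.rpow_natCast, ← Real.rpow_mul (by norm_num)]
    congr 1
    ring
  -- the height
  obtain ⟨m0, hm0⟩ : ∃ m0 : ℕ, m0 = ⌈2 * h / 3⌉₊ := ⟨_, rfl⟩
  have hm1 : 2 * h / 3 ≤ m0 := by
    rw [hm0]
    exact Nat.le_ceil _
  have hm2 : (m0 : ℝ) < 2 * h / 3 + 1 := by
    rw [hm0]
    exact Nat.ceil_lt_add_one (by positivity)
  have hm00 : 1 ≤ m0 := by
    rw [hm0]
    exact Nat.one_le_iff_ne_zero.2 (Nat.ceil_pos.2 (by positivity)).ne'
  have hmn : m0 ≤ n * 2 ^ (l - s) := by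
    have g1 : (2 : ℝ) ^ l = 2 ^ (l - s) * 2 ^ s := by
      rw [← pow_add]
      congr 1
      omega
    have g2 : (8 * 2 ^ s / κ) * 2 ^ (l - s) ≤ n * 2 ^ (l - s) := mul_le_mul_of_nonneg_right hn1 (by positivity)
    have g3 : (8 * 2 ^ s / κ) * 2 ^ (l - s) = 8 * (2 ^ l / κ) := by
      rw [g1]
      ring
    have g4 : h ≤ 2 * (2 ^ l / κ) := by
      rw [← mul_div_assoc, le_div_iff₀ hκ0]
      linarith
    have g5 : (m0 : ℝ) ≤ n * 2 ^ (l - s) := by linarith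
    exact_mod_cast g5
  have key := HexObs.SCF.tt_iter (c := c1) (l := 4 * ml l) (B := 2 ^ l) (m0 := 2 ^ (l - s)) hc1.le h2l.le
    (fun m hm => h1 l m (by omega) hm) n m0 hmn 0 (by simp)
  -- the number of steps
  have hlen : (n : ℝ) * (4 * ml l) ≤ M := by
    refine le_trans ?_ hM
    have g1 : ml l ≤ (κ * h) ^ (4 / 3 : ℝ) := by
      rw [hml]
      exact Real.rpow_le_rpow h2l.le hl1 (by norm_num)
    rw [Real.mul_rpow hκ0.le hh0.le] at g1
    have g2 : κ ^ (4 / 3 : ℝ) = κ * κ ^ (1 / 3 : ℝ) := by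
      have : (4 / 3 : ℝ) = 1 + 1 / 3 := by norm_num
      rw [this, Real.rpow_add hκ0, Real.rpow_one]
    have g3 : κ ^ (1 / 3 : ℝ) ≤ e / (36 * 2 ^ s) := by
      have g4 := Real.rpow_le_rpow hκ0.le hκe (by norm_num : (0 : ℝ) ≤ 1 / 3)
      have g5 : ((e / (36 * 2 ^ s)) ^ 3) ^ (1 / 3 : ℝ) = e / (36 * 2 ^ s) := by
        rw [← Real.rpow_natCast, ← Real.rpow_mul (by positivity)]
        norm_num
      rwa [g5] at g4
    have hhp : (0 : ℝ) < h ^ (4 / 3 : ℝ) := by positivity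
    have g6 : κ ^ (4 / 3 : ℝ) ≤ κ * (e / (36 * 2 ^ s)) := by
      rw [g2]
      exact mul_le_mul_of_nonneg_left g3 hκ0.le
    calc (n : ℝ) * (4 * ml l) ≤ (9 * 2 ^ s / κ) * (4 * (κ * (e / (36 * 2 ^ s)) * h ^ (4 / 3 : ℝ))) := by
          refine mul_le_mul hn2 (mul_le_mul_of_nonneg_left (g1.trans (mul_le_mul_of_nonneg_right g6 hhp.le)) (by norm_num))
            ?_ (by positivity)
          rw [hml]
          positivity
      _ = e * h ^ (4 / 3 : ℝ) := by
        field_simp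
        ring
  have hB1 : 3 / 2 + (2 : ℝ) ^ l / 2 ≤ θ := by
    have g1 : κ * h ≤ η / 4 * h := mul_le_mul_of_nonneg_right hκη hh0.le
    linarith
  have hB2 : 2 * (2 : ℝ) ^ l ≤ θ := by
    have g1 : κ * h ≤ η / 4 * h := mul_le_mul_of_nonneg_right hκη hh0.le
    linarith
  have hfin : ENNReal.ofReal ((c1 / 2) ^ n) ≤ ENNReal.ofReal (∑ m ∈ Finset.range (M + 1), bwt h θ m) := by
    rw [ENNReal.ofReal_sum_of_nonneg fun m _ => bwt_nonneg h θ m]
    refine key.trans ((gf_len (Finset.range (M + 1)) ?_).trans (Finset.sum_le_sum fun m _ => ?_))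
    · rintro W ⟨-, w2, -⟩
      have w3 : (W.length : ℝ) ≤ M := w2.trans hlen
      have w4 : W.length ≤ M := by exact_mod_cast w3
      rw [Finset.mem_range]
      omega
    · exact gf_bwt hm00 (by linarith) (by linarith) hB1 hB2
  exact (ENNReal.ofReal_le_ofReal_iff (Finset.sum_nonneg fun m _ => bwt_nonneg h θ m)).1 hfin

end Pool.Agent.SCF.Z
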