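import Pool.Agent.SCF.Blk
import Pool.Agent.SCF.Del

/-!
# Native gates, walk side (row W8 of ROT / F3): one more block behind a class of prefixes (helper4)

* `PC A last r` : `A n s i` is a condition on the prefix `s[0, last i]` of the walk (`i` = the marks), which is weakly to the left of
  its end and in the ball of radius `r` about it;
* `Cg A last S ρ N` : the mass of the walks with `N` steps with marks `i`, in front of the end of their prefix (`GC ρ`);
* **`step_mass`** : a thin block `GBt` inserted behind the prefix costs only the mass of the blocks.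
-/

set_option autoImplicit false

open Set Filter Topology

namespace Pool.Agent.SCF.Z

open Pool.Agent.NTS.Res
open NTSF (pos_zero pos_succ mem_saw)

section Ins

variable {N k m : ℕ}

lemma pos_ins_left (hkm : k + m ≤ N) (v : Fin (N - m) → Fin 3) (b : Fin m → Fin 3) {t : ℕ} (ht : t ≤ k) :
    pos (ins N v b k) t = pos v t := by
  have h := pos_dl_left (ins N v b k) hkm t ht
  rw [dl_ins hkm] at h
  exact h.symm

lemma pos_ins_mid (hk : Even k) (hkm : k + m ≤ N) (v : Fin (N - m) → Fin 3) (b : Fin m → Fin 3) {t : ℕ} (ht : t ≤ m) :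
    pos (ins N v b k) (k + t) = pos v k + pos b t := by
  have h := pos_md (ins N v b k) hk hkm t ht
  rw [md_ins hkm, pos_ins_left hkm v b le_rfl] at h
  rw [h]
  ring

lemma pos_ins_right (hk : Even k) (hm : Even m) (hkm : k + m ≤ N) (v : Fin (N - m) → Fin 3) (b : Fin m → Fin 3) {t : ℕ}
    (ht : k + m + t ≤ N) : pos (ins N v b k) (k + m + t) = pos v (k + t) + pos b m := by
  have h := pos_dl_right (ins N v b k) hm hkm t ht
  rw [dl_ins hkm, pos_ins_left hkm v b le_rfl, pos_ins_mid hk hkm v b le_rfl] at h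
  rw [h]
  ring

/-- **insertion of a block** -/
lemma ins_saw {r L ρ : ℝ} (hk : Even k) (hkm : k + m < N) {v : Fin (N - m) → Fin 3} {b : Fin m → Fin 3}
    (hv : v ∈ saw (N - m)) (hb : b ∈ saw m) (hl : ∀ i : ℕ, i ≤ k → (pos v i).re ≤ (pos v k).re)
    (hr : ∀ i : ℕ, i ≤ k → ‖pos v i - pos v k‖ ≤ r) (hc : GC ρ v k) {h θ : ℝ} (hB : GBt h θ b 0 m) (hL : h + 2 * θ ≤ L)
    (hρ : r + 2 * L ≤ ρ) : ins N v b k ∈ saw N ∧ GC ρ (ins N v b k) (k + m) := by
  obtain ⟨⟨b1, b2, b3, b4, b5, b6, b7, -⟩, -⟩ := hB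
  have hr0 : 0 ≤ r := (norm_nonneg _).trans (hr k le_rfl)
  have hL0 : 0 ≤ h + 2 * θ := (norm_nonneg _).trans (b6 0 le_rfl (Nat.zero_le _))
  have pl : ∀ t : ℕ, t ≤ k → pos (ins N v b k) t = pos v t := fun t ht => pos_ins_left hkm.le v b ht
  have pm : ∀ t : ℕ, t ≤ m → pos (ins N v b k) (k + t) = pos v k + pos b t := fun t ht => pos_ins_mid hk hkm.le v b ht
  have pr : ∀ t : ℕ, k + m + t ≤ N → pos (ins N v b k) (k + m + t) = pos v (k + t) + pos b m :=
    fun t ht => pos_ins_right hk b2 hkm.le v b ht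
  have z0 : pos b 0 = 0 := pos_zero _
  obtain ⟨c1, c2, c3⟩ := hc
  have hGC : GC ρ (ins N v b k) (k + m) := by
    refine ⟨hkm, ?_, fun j j1 j2 j3 => ?_⟩
    · rw [pr 1 (by omega), pm m le_rfl, c2]
      ring
    · obtain ⟨t, rfl⟩ := Nat.exists_eq_add_of_le j1.le
      rw [pr t j2, pm m le_rfl] at j3 ⊢
      have := c3 (k + t) (by omega) (by omega) (by
        rwa [show pos v (k + t) + pos b m - (pos v k + pos b m) = pos v (k + t) - pos v k by ring] at j3)
      rw [Complex.add_re, Complex.add_re]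
      linarith
  refine ⟨?_, hGC⟩
  obtain ⟨s, hs⟩ : ∃ s, s = ins N v b k := ⟨_, rfl⟩
  rw [← hs] at pl pm pr hGC ⊢
  obtain ⟨-, -, g3⟩ := hGC
  rw [mem_saw] at hv hb ⊢
  have key : ∀ i t : ℕ, i ≤ k + m → 0 < t → k + m + t ≤ N → pos s i ≠ pos s (k + m + t) := by
    intro i t hi ht ht' he
    have e2 : ‖pos s (k + m + t) - pos s (k + m)‖ ≤ ρ := by
      rw [← he]
      rcases le_or_gt i k with h4 | h4
      · rw [pl i h4, pm m le_rfl]
        have a1 := b6 m (by omega) le_rfl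
        rw [z0, sub_zero] at a1
        calc ‖pos v i - (pos v k + pos b m)‖ = ‖(pos v i - pos v k) - pos b m‖ := by ring_nf
          _ ≤ ‖pos v i - pos v k‖ + ‖pos b m‖ := norm_sub_le _ _
          _ ≤ r + (h + 2 * θ) := add_le_add (hr i h4) a1
          _ ≤ ρ := by linarith
      · obtain ⟨u, rfl⟩ := Nat.exists_eq_add_of_le h4.le
        rw [pm u (by omega), pm m le_rfl]
        have a1 := b6 m (by omega) le_rfl
        have a2 := b6 u (by omega) (by omega)
        rw [z0, sub_zero] at a1 a2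
        calc ‖pos v k + pos b u - (pos v k + pos b m)‖ = ‖pos b u - pos b m‖ := by ring_nf
          _ ≤ ‖pos b u‖ + ‖pos b m‖ := norm_sub_le _ _
          _ ≤ (h + 2 * θ) + (h + 2 * θ) := add_le_add a2 a1
          _ ≤ ρ := by linarith
    have e4 := g3 (k + m + t) (by omega) ht' e2
    have e5 : (pos s i).re ≤ (pos s (k + m)).re := by
      rw [pm m le_rfl, Complex.add_re]
      have a0 := b5 0 le_rfl (by omega)
      rw [z0, Complex.zero_re] at a0
      rcases le_or_gt i k with h4 | h4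
      · have := hl i h4
        rw [pl i h4]
        linarith
      · obtain ⟨u, rfl⟩ := Nat.exists_eq_add_of_le h4.le
        have := b5 u (by omega) (by omega)
        rw [pm u (by omega), Complex.add_re]
        linarith
    rw [he] at e5
    linarith
  have key2 : ∀ i j : ℕ, i ≤ k → k < j → j ≤ k + m → pos s i ≠ pos s j := by
    intro i j hi hj hj' he
    obtain ⟨u, rfl⟩ := Nat.exists_eq_add_of_le hj.le
    rw [pl i hi, pm u (by omega)] at he
    have e1 := hl i hi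
    have e2 := b4 u (by omega) (by omega)
    rw [he, Complex.add_re] at e1
    rw [z0, Complex.zero_re] at e2
    linarith
  intro i j hi hj hij
  rcases le_or_gt i (k + m) with h4 | h4 <;> rcases le_or_gt j (k + m) with h5 | h5
  · rcases le_or_gt i k with h6 | h6 <;> rcases le_or_gt j k with h7 | h7
    · refine hv i j (by omega) (by omega) ?_
      rw [← pl i h6, ← pl j h7, hij]
    · exact absurd hij (key2 i j h6 h7 h5)
    · exact absurd hij.symm (key2 j i h7 h6 h4)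
    · obtain ⟨t, rfl⟩ := Nat.exists_eq_add_of_le h6.le
      obtain ⟨u, rfl⟩ := Nat.exists_eq_add_of_le h7.le
      rw [pm t (by omega), pm u (by omega)] at hij
      have := hb t u (by omega) (by omega) (add_left_cancel hij)
      omega
  · exfalso
    obtain ⟨t, rfl⟩ := Nat.exists_eq_add_of_le h5.le
    exact key i t h4 (by omega) hj hij
  · exfalso
    obtain ⟨t, rfl⟩ := Nat.exists_eq_add_of_le h4.le
    exact key j t h5 (by omega) hi hij.symm
  · obtain ⟨t, rfl⟩ := Nat.exists_eq_add_of_le h4.le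
    obtain ⟨u, rfl⟩ := Nat.exists_eq_add_of_le h5.le
    rw [pr t hi, pr u hj] at hij
    have := hv (k + t) (k + u) (by omega) (by omega) (add_right_cancel hij)
    omega

end Ins

/-- the thin block is a function of the differences -/
lemma gbt_congr {n n' : ℕ} {h θ : ℝ} {s : Fin n → Fin 3} {s' : Fin n' → Fin 3} {k m k' : ℕ} (hk : Even k) (hk' : Even k')
    (hp : ∀ t : ℕ, t ≤ m → pos s' (k' + t) - pos s' k' = pos s (k + t) - pos s k) (hg : GBt h θ s k (k + m)) :
    GBt h θ s' k' (k' + m) := by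
  refine ⟨gb_congr hk hk' hp hg.1, fun j j1 j2 => ?_⟩
  obtain ⟨t, rfl⟩ := Nat.exists_eq_add_of_le j1
  have e := hp t (by omega)
  have e1 := congrArg Complex.re e
  have e2 := congrArg Complex.im e
  rw [Complex.sub_re, Complex.sub_re] at e1
  rw [Complex.sub_im, Complex.sub_im] at e2
  obtain ⟨h1, h2⟩ := hg.2 (k + t) (by omega) (by omega)
  rw [e2]
  exact ⟨h1, by linarith⟩

/-- the thin block is a function of the positions up to its end -/
lemma gbt_pref {n n' : ℕ} {h θ : ℝ} {s : Fin n → Fin 3} {s' : Fin n' → Fin 3} {k k2 : ℕ} (hk : Even k)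
    (hp : ∀ t : ℕ, t ≤ k2 → pos s' t = pos s t) (hg : GBt h θ s k k2) : GBt h θ s' k k2 := by
  obtain ⟨m, rfl⟩ := Nat.exists_eq_add_of_le hg.1.1.le
  exact gbt_congr hk hk (fun t ht => by rw [hp _ (by omega), hp k (by omega)]) hg

/-- a condition on prefixes with marks -/
structure PC {ι : Type} (A : ∀ n : ℕ, (Fin n → Fin 3) → ι → Prop) (last : ι → ℕ) (r : ℝ) : Prop where
  even : ∀ (n : ℕ) (s : Fin n → Fin 3) (i : ι), A n s i → Even (last i)
  left : ∀ (n : ℕ) (s : Fin n → Fin 3) (i : ι), A n s i → ∀ j : ℕ, j ≤ last i → (pos s j).re ≤ (pos s (last i)).re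
  ball : ∀ (n : ℕ) (s : Fin n → Fin 3) (i : ι), A n s i → ∀ j : ℕ, j ≤ last i → ‖pos s j - pos s (last i)‖ ≤ r
  congr : ∀ (n n' : ℕ) (s : Fin n → Fin 3) (s' : Fin n' → Fin 3) (i : ι), (∀ t : ℕ, t ≤ last i → pos s' t = pos s t) →
    A n s i → A n' s' i

/-- one more block -/
def Nx {ι : Type} (A : ∀ n : ℕ, (Fin n → Fin 3) → ι → Prop) (last : ι → ℕ) (h : ∀ n : ℕ, (Fin n → Fin 3) → ι → ℝ) (θ : ℝ) :
    ∀ n : ℕ, (Fin n → Fin 3) → ι × ℕ → Prop := fun n s p => A n s p.1 ∧ GBt (h n s p.1) θ s (last p.1) p.2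

/-- the threshold is a function of the prefix -/
def HC {ι : Type} (A : ∀ n : ℕ, (Fin n → Fin 3) → ι → Prop) (last : ι → ℕ) (h : ∀ n : ℕ, (Fin n → Fin 3) → ι → ℝ) : Prop :=
  ∀ (n n' : ℕ) (s : Fin n → Fin 3) (s' : Fin n' → Fin 3) (i : ι), (∀ t : ℕ, t ≤ last i → pos s' t = pos s t) →
    A n s i → h n' s' i = h n s i

lemma pc_nx {ι : Type} {A : ∀ n : ℕ, (Fin n → Fin 3) → ι → Prop} {last : ι → ℕ} {h : ∀ n : ℕ, (Fin n → Fin 3) → ι → ℝ}
    {θ r L : ℝ} (hP : PC A last r) (hH : HC A last h) (hL : ∀ (n : ℕ) (s : Fin n → Fin 3) (i : ι), A n s i → h n s i + 2 * θ ≤ L)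
    (hr : 0 ≤ r) : PC (Nx A last h θ) Prod.snd (r + 2 * L) := by
  refine ⟨fun n s p hp => hp.2.1.2.1, fun n s p hp j hj => ?_, fun n s p hp j hj => ?_, fun n n' s s' p he hp => ?_⟩
  · obtain ⟨h1, ⟨b1, b2, b3, b4, b5, b6, b7, -⟩, -⟩ := hp
    rcases le_or_gt j (last p.1) with h4 | h4
    · exact (hP.left n s p.1 h1 j h4).trans (b5 _ le_rfl b1.le)
    · exact b5 j h4.le hj
  · obtain ⟨h1, ⟨b1, b2, b3, b4, b5, b6, b7, -⟩, -⟩ := hp
    have hl := hL n s p.1 h1
    have a1 := b6 p.2 b1.le le_rfl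
    have hl0 : 0 ≤ h n s p.1 + 2 * θ := (norm_nonneg _).trans a1
    rcases le_or_gt j (last p.1) with h4 | h4
    · have a2 := hP.ball n s p.1 h1 j h4
      calc ‖pos s j - pos s p.2‖ = ‖(pos s j - pos s (last p.1)) - (pos s p.2 - pos s (last p.1))‖ := by ring_nf
        _ ≤ ‖pos s j - pos s (last p.1)‖ + ‖pos s p.2 - pos s (last p.1)‖ := norm_sub_le _ _
        _ ≤ r + 2 * L := by linarith
    · have a2 := b6 j h4.le hj
      calc ‖pos s j - pos s p.2‖ = ‖(pos s j - pos s (last p.1)) - (pos s p.2 - pos s (last p.1))‖ := by ring_nf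
        _ ≤ ‖pos s j - pos s (last p.1)‖ + ‖pos s p.2 - pos s (last p.1)‖ := norm_sub_le _ _
        _ ≤ r + 2 * L := by linarith
  · obtain ⟨h1, h2⟩ := hp
    have hb := h2.1.1
    refine ⟨hP.congr n n' s s' p.1 (fun t ht => he t (by omega)) h1, ?_⟩
    rw [hH n n' s s' p.1 (fun t ht => he t (by omega)) h1]
    exact gbt_pref (hP.even n s p.1 h1) he h2

open Classical in
/-- the mass of the walks with `N` steps and marks -/
noncomputable def Cg {ι : Type} (A : ∀ n : ℕ, (Fin n → Fin 3) → ι → Prop) (last : ι → ℕ) (S : ℕ → Finset ι) (ρ : ℝ) (N : ℕ) : ℝ :=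
  (∑ i ∈ S N, (((saw N).filter fun s => A N s i ∧ GC ρ s (last i)).card : ℝ)) * fug ^ N

open Classical in
/-- the words with an inserted block of `m` steps, fixed marks -/
lemma ins_card {ι : Type} {A : ∀ n : ℕ, (Fin n → Fin 3) → ι → Prop} {last : ι → ℕ} {h : ∀ n : ℕ, (Fin n → Fin 3) → ι → ℝ}
    {θ r L ρ : ℝ} (hP : PC A last r) (hH : HC A last h)
    (hL : ∀ (n : ℕ) (s : Fin n → Fin 3) (i : ι), A n s i → h n s i + 2 * θ ≤ L) (hρ : r + 2 * L ≤ ρ) {N m : ℕ} (hm : m ≤ N)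
    (i : ι) :
    ∑ v ∈ (saw (N - m)).filter (fun v => A (N - m) v i ∧ GC ρ v (last i)),
        ((((saw m).filter fun b => GBt (h (N - m) v i) θ b 0 m).card : ℕ) : ℝ) ≤
      (((saw N).filter fun s => Nx A last h θ N s (i, last i + m) ∧ GC ρ s (last i + m)).card : ℝ) := by
  rw [← Nat.cast_sum, Nat.cast_le]
  rw [← Finset.card_sigma]
  refine Finset.card_le_card_of_injOn (fun p => ins N p.1 p.2 (last i)) ?_ ?_
  · rintro ⟨v, b⟩ hp
    rw [Finset.mem_coe, Finset.mem_sigma, Finset.mem_filter, Finset.mem_filter] at hp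
    obtain ⟨⟨h1, h2, h3⟩, h4, h5⟩ := hp
    simp only at h1 h2 h3 h4 h5
    have hk := hP.even _ _ _ h2
    have hkm : last i + m < N := by
      have := h3.1
      omega
    obtain ⟨g1, g2⟩ := ins_saw hk hkm h1 h4 (hP.left _ _ _ h2) (hP.ball _ _ _ h2) h3 h5 (hL _ _ _ h2) hρ
    have hpre : ∀ t : ℕ, t ≤ last i → pos (ins N v b (last i)) t = pos v t := fun t ht => pos_ins_left hkm.le v b ht
    rw [Finset.mem_coe, Finset.mem_filter]
    refine ⟨g1, ⟨hP.congr _ _ _ _ _ hpre h2, ?_⟩, g2⟩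
    show GBt (h N (ins N v b (last i)) i) θ (ins N v b (last i)) (last i) (last i + m)
    rw [hH _ _ _ _ _ hpre h2]
    refine gbt_congr (k := 0) (s := b) (by exact Even.zero) hk (fun t ht => ?_) (by rwa [zero_add])
    rw [pos_ins_mid hk hkm.le v b ht, pos_ins_left hkm.le v b le_rfl, zero_add, pos_zero]
    ring
  · rintro ⟨v, b⟩ hp ⟨v', b'⟩ hp' he
    rw [Finset.mem_coe, Finset.mem_sigma, Finset.mem_filter, Finset.mem_filter] at hp hp'
    obtain ⟨⟨h1, h2, h3⟩, h4, h5⟩ := hp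
    have hkm : last i + m ≤ N := by
      have := h3.1
      omega
    simp only at he
    have e1 := congrArg (fun s => dl s (last i) m) he
    have e2 := congrArg (fun s => md s (last i) m) he
    simp only [dl_ins hkm, md_ins hkm] at e1 e2
    rw [e1, e2]

open Classical in
/-- **one more block** -/
theorem step_mass {ι : Type} {A : ∀ n : ℕ, (Fin n → Fin 3) → ι → Prop} {last : ι → ℕ} {h : ∀ n : ℕ, (Fin n → Fin 3) → ι → ℝ}
    {S : ℕ → Finset ι} (hS : ∀ N N' : ℕ, N ≤ N' → S N ⊆ S N') {θ r L ρ t : ℝ} {M : ℕ} (hP : PC A last r) (hH : HC A last h)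
    (hL : ∀ (n : ℕ) (s : Fin n → Fin 3) (i : ι), A n s i → h n s i + 2 * θ ≤ L) (hρ : r + 2 * L ≤ ρ)
    (ht : ∀ (n : ℕ) (s : Fin n → Fin 3) (i : ι), A n s i → t ≤ ∑ m ∈ Finset.range (M + 1), bwt (h n s i) θ m) (N1 N2 : ℕ) :
    t * ∑ N ∈ Finset.Icc N1 N2, Cg A last S ρ N ≤
      ∑ N ∈ Finset.Icc N1 (N2 + M), Cg (Nx A last h θ) Prod.snd (fun N => S N ×ˢ Finset.range (N + 1)) ρ N := by
  have hfug : (0 : ℝ) ≤ fug := by
    unfold fug
    positivity
  -- the number of words with an inserted block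
  obtain ⟨f, hf⟩ : ∃ f : ℕ → ℕ → ℝ, f = fun N' m => (∑ i ∈ S N', ∑ v ∈ (saw N').filter (fun v => A N' v i ∧ GC ρ v (last i)),
    ((((saw m).filter fun b => GBt (h N' v i) θ b 0 m).card : ℕ) : ℝ)) * fug ^ (N' + m) := ⟨_, rfl⟩
  have hf0 : ∀ N' m : ℕ, 0 ≤ f N' m := by
    intro N' m
    rw [hf]
    positivity
  have h1 : ∀ N' : ℕ, t * Cg A last S ρ N' ≤ ∑ m ∈ Finset.range (M + 1), f N' m := by
    intro N'
    have e : ∑ m ∈ Finset.range (M + 1), f N' m =
        (∑ i ∈ S N', ∑ v ∈ (saw N').filter (fun v => A N' v i ∧ GC ρ v (last i)),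
          ∑ m ∈ Finset.range (M + 1), bwt (h N' v i) θ m) * fug ^ N' := by
      rw [hf]
      simp only
      have e1 : ∀ m : ℕ, (∑ i ∈ S N', ∑ v ∈ (saw N').filter (fun v => A N' v i ∧ GC ρ v (last i)),
          ((((saw m).filter fun b => GBt (h N' v i) θ b 0 m).card : ℕ) : ℝ)) * fug ^ (N' + m) =
          (∑ i ∈ S N', ∑ v ∈ (saw N').filter (fun v => A N' v i ∧ GC ρ v (last i)), bwt (h N' v i) θ m) * fug ^ N' := by
        intro m
        unfold bwt
        rw [pow_add, mul_comm (fug ^ N'), ← mul_assoc, Finset.sum_mul]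
        congr 1
        refine Finset.sum_congr rfl fun i _ => ?_
        rw [Finset.sum_mul]
      rw [Finset.sum_congr rfl fun m _ => e1 m, ← Finset.sum_mul, Finset.sum_comm]
      congr 1
      refine Finset.sum_congr rfl fun i _ => ?_
      rw [Finset.sum_comm]
    rw [e]
    unfold Cg
    rw [← mul_assoc]
    refine mul_le_mul_of_nonneg_right ?_ (pow_nonneg hfug _)
    rw [Finset.mul_sum]
    refine Finset.sum_le_sum fun i _ => ?_
    rw [mul_comm, ← nsmul_eq_mul]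
    refine Finset.card_nsmul_le_sum _ _ _ fun v hv => ?_
    rw [Finset.mem_filter] at hv
    exact ht _ _ _ hv.2.1
  have h2 : ∀ N : ℕ, ∑ m ∈ Finset.range (N + 1), f (N - m) m ≤
      Cg (Nx A last h θ) Prod.snd (fun N => S N ×ˢ Finset.range (N + 1)) ρ N := by
    intro N
    unfold Cg
    rw [hf]
    simp only
    have e1 : ∑ m ∈ Finset.range (N + 1), (∑ i ∈ S (N - m), ∑ v ∈ (saw (N - m)).filter
        (fun v => A (N - m) v i ∧ GC ρ v (last i)), ((((saw m).filter fun b => GBt (h (N - m) v i) θ b 0 m).card : ℕ) : ℝ)) *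
          fug ^ (N - m + m) ≤
        ∑ m ∈ Finset.range (N + 1), (∑ i ∈ S N,
          (((saw N).filter fun s => Nx A last h θ N s (i, last i + m) ∧ GC ρ s (last i + m)).card : ℝ)) * fug ^ N := by
      refine Finset.sum_le_sum fun m hm => ?_
      have hmN : m ≤ N := by
        have := Finset.mem_range.1 hm
        omega
      rw [Nat.sub_add_cancel hmN]
      refine mul_le_mul_of_nonneg_right ?_ (pow_nonneg hfug _)
      refine (Finset.sum_le_sum fun i _ => ins_card hP hH hL hρ hmN i).trans ?_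
      exact Finset.sum_le_sum_of_subset_of_nonneg (hS _ _ (Nat.sub_le _ _)) fun _ _ _ => Nat.cast_nonneg _
    refine e1.trans ?_
    rw [← Finset.sum_mul]
    refine mul_le_mul_of_nonneg_right ?_ (pow_nonneg hfug _)
    rw [Finset.sum_comm, Finset.sum_product]
    refine Finset.sum_le_sum fun i _ => ?_
    -- the marks behind N give nothing
    have e2 : ∑ m ∈ Finset.range (N + 1),
        (((saw N).filter fun s => Nx A last h θ N s (i, last i + m) ∧ GC ρ s (last i + m)).card : ℝ) =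
        ∑ m ∈ (Finset.range (N + 1)).filter (fun m => last i + m < N),
          (((saw N).filter fun s => Nx A last h θ N s (i, last i + m) ∧ GC ρ s (last i + m)).card : ℝ) := by
      rw [Finset.sum_filter]
      refine Finset.sum_congr rfl fun m _ => ?_
      split_ifs with h3
      · rfl
      · rw [Finset.filter_eq_empty_iff.2 fun s _ h4 => h3 h4.2.1, Finset.card_empty, Nat.cast_zero]
    rw [e2]
    refine le_trans (le_of_eq ?_) (Finset.sum_le_sum_of_subset_of_nonneg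
      (s := ((Finset.range (N + 1)).filter (fun m => last i + m < N)).image fun m => last i + m) ?_ fun _ _ _ => Nat.cast_nonneg _)
    · rw [Finset.sum_image fun a _ b _ hab => by simpa using hab]
    · intro k' hk'
      obtain ⟨m, hm, rfl⟩ := Finset.mem_image.1 hk'
      rw [Finset.mem_filter] at hm
      rw [Finset.mem_range]
      omega
  have h3 : ∑ N' ∈ Finset.Icc N1 N2, ∑ m ∈ Finset.range (M + 1), f N' m ≤
      ∑ N ∈ Finset.Icc N1 (N2 + M), ∑ m ∈ Finset.range (N + 1), f (N - m) m := by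
    rw [Finset.sum_sigma', Finset.sum_sigma']
    refine le_trans (le_of_eq ?_) (Finset.sum_le_sum_of_subset_of_nonneg
      (s := ((Finset.Icc N1 N2).sigma fun _ => Finset.range (M + 1)).image fun p => (⟨p.1 + p.2, p.2⟩ : (_ : ℕ) × ℕ)) ?_
      fun p _ _ => hf0 _ _)
    · rw [Finset.sum_image]
      · refine Finset.sum_congr rfl fun p _ => ?_
        simp only [Nat.add_sub_cancel]
      · rintro ⟨a, b⟩ _ ⟨c, d⟩ _ he
        simp only [Sigma.mk.injEq, heq_eq_eq] at he ⊢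
        omega
    · intro p hp
      obtain ⟨q, hq, rfl⟩ := Finset.mem_image.1 hp
      rw [Finset.mem_sigma, Finset.mem_Icc, Finset.mem_range] at hq ⊢
      simp only
      obtain ⟨⟨q1, q2⟩, q3⟩ := hq
      omega
  calc t * ∑ N ∈ Finset.Icc N1 N2, Cg A last S ρ N = ∑ N ∈ Finset.Icc N1 N2, t * Cg A last S ρ N := Finset.mul_sum _ _ _
    _ ≤ ∑ N ∈ Finset.Icc N1 N2, ∑ m ∈ Finset.range (M + 1), f N m := Finset.sum_le_sum fun N _ => h1 N
    _ ≤ ∑ N ∈ Finset.Icc N1 (N2 + M), ∑ m ∈ Finset.range (N + 1), f (N - m) m := h3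
    _ ≤ _ := Finset.sum_le_sum fun N _ => h2 N

/-! ### the first step: a start piece and a rest -/

open Classical in
/-- the mass of the rests with `m` steps -/
noncomputable def rst (ρ : ℝ) (m : ℕ) : ℝ := (((saw m).filter fun v => GC ρ v 0).card : ℝ) * fug ^ m

/-- a prefix and a rest -/
lemma cat_saw {N k : ℕ} {r ρ : ℝ} (hk : Even k) (hkN : k < N) {v : Fin (N - k) → Fin 3} {a : Fin k → Fin 3}
    (hv : v ∈ saw (N - k)) (ha : a ∈ saw k) (hl : ∀ i : ℕ, i ≤ k → (pos a i).re ≤ (pos a k).re)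
    (hr : ∀ i : ℕ, i ≤ k → ‖pos a i - pos a k‖ ≤ r) (hc : GC ρ v 0) (hρ : r ≤ ρ) :
    ins N v a 0 ∈ saw N ∧ GC ρ (ins N v a 0) k ∧ ∀ t : ℕ, t ≤ k → pos (ins N v a 0) t = pos a t := by
  have z0 : pos v 0 = 0 := pos_zero _
  have h0k : 0 + k ≤ N := by omega
  have pm : ∀ t : ℕ, t ≤ k → pos (ins N v a 0) t = pos a t := by
    intro t ht
    have h := pos_ins_mid (by exact Even.zero) h0k v a ht
    rw [zero_add, z0, zero_add] at h
    exact h
  have pr : ∀ t : ℕ, k + t ≤ N → pos (ins N v a 0) (k + t) = pos v t + pos a k := by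
    intro t ht
    have h := pos_ins_right (t := t) (by exact Even.zero) hk h0k v a (by omega)
    rw [zero_add, zero_add] at h
    exact h
  obtain ⟨c1, c2, c3⟩ := hc
  rw [z0] at c2 c3
  have hGC : GC ρ (ins N v a 0) k := by
    refine ⟨hkN, ?_, fun j j1 j2 j3 => ?_⟩
    · rw [pr 1 (by omega), pm k le_rfl]
      rw [zero_add] at c2
      rw [c2]
      ring
    · obtain ⟨t, rfl⟩ := Nat.exists_eq_add_of_le j1.le
      rw [pr t j2, pm k le_rfl] at j3 ⊢
      have := c3 t (by omega) (by omega) (by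
        rwa [show pos v t + pos a k - pos a k = pos v t - 0 by ring] at j3)
      rw [Complex.add_re]
      rw [Complex.zero_re] at this
      linarith
  refine ⟨?_, hGC, pm⟩
  obtain ⟨s, hs⟩ : ∃ s, s = ins N v a 0 := ⟨_, rfl⟩
  rw [← hs] at pm pr hGC ⊢
  obtain ⟨-, -, g3⟩ := hGC
  rw [mem_saw] at hv ha ⊢
  have key : ∀ i t : ℕ, i ≤ k → 0 < t → k + t ≤ N → pos s i ≠ pos s (k + t) := by
    intro i t hi ht ht' he
    have e2 : ‖pos s (k + t) - pos s k‖ ≤ ρ := by
      rw [← he, pm i hi, pm k le_rfl]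
      exact (hr i hi).trans hρ
    have e4 := g3 (k + t) (by omega) ht' e2
    have e5 := hl i hi
    rw [← he, pm i hi, pm k le_rfl] at e4
    linarith
  intro i j hi hj hij
  rcases le_or_gt i k with h4 | h4 <;> rcases le_or_gt j k with h5 | h5
  · refine ha i j h4 h5 ?_
    rw [← pm i h4, ← pm j h5, hij]
  · exfalso
    obtain ⟨t, rfl⟩ := Nat.exists_eq_add_of_le h5.le
    exact key i t h4 (by omega) hj hij
  · exfalso
    obtain ⟨t, rfl⟩ := Nat.exists_eq_add_of_le h4.le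
    exact key j t h5 (by omega) hi hij.symm
  · obtain ⟨t, rfl⟩ := Nat.exists_eq_add_of_le h4.le
    obtain ⟨u, rfl⟩ := Nat.exists_eq_add_of_le h5.le
    rw [pr t hi, pr u hj] at hij
    have := hv t u (by omega) (by omega) (add_right_cancel hij)
    omega

open Classical in
/-- **a start piece and a rest** -/
theorem start_mass {A : ∀ n : ℕ, (Fin n → Fin 3) → ℕ → Prop} {r ρ : ℝ} (hP : PC A id r) (hρ : r ≤ ρ) (M N1 N2 : ℕ) :
    (∑ k ∈ Finset.range (M + 1), (((saw k).filter fun s => A k s k).card : ℝ) * fug ^ k) * ∑ m ∈ Finset.Icc N1 N2, rst ρ m ≤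
      ∑ N ∈ Finset.Icc N1 (N2 + M), Cg A id (fun N => Finset.range (N + 1)) ρ N := by
  have hfug : (0 : ℝ) ≤ fug := by
    unfold fug
    positivity
  obtain ⟨f, hf⟩ : ∃ f : ℕ → ℕ → ℝ, f = fun m k => ((((saw k).filter fun s => A k s k).card : ℕ) : ℝ) *
    ((((saw m).filter fun v => GC ρ v 0).card : ℕ) : ℝ) * fug ^ (m + k) := ⟨_, rfl⟩
  have hf0 : ∀ m k : ℕ, 0 ≤ f m k := by
    intro m k
    rw [hf]
    positivity
  have h1 : (∑ k ∈ Finset.range (M + 1), (((saw k).filter fun s => A k s k).card : ℝ) * fug ^ k) *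
      ∑ m ∈ Finset.Icc N1 N2, rst ρ m = ∑ m ∈ Finset.Icc N1 N2, ∑ k ∈ Finset.range (M + 1), f m k := by
    rw [Finset.mul_sum]
    refine Finset.sum_congr rfl fun m _ => ?_
    rw [Finset.sum_mul]
    refine Finset.sum_congr rfl fun k _ => ?_
    rw [hf]
    unfold rst
    simp only
    rw [pow_add]
    ring
  have h2 : ∀ N : ℕ, ∑ k ∈ Finset.range (N + 1), f (N - k) k ≤ Cg A id (fun N => Finset.range (N + 1)) ρ N := by
    intro N
    unfold Cg
    rw [Finset.sum_mul, hf]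
    refine Finset.sum_le_sum fun k hk => ?_
    have hkN : k ≤ N := by
      have := Finset.mem_range.1 hk
      omega
    simp only [id]
    rw [Nat.sub_add_cancel hkN]
    refine mul_le_mul_of_nonneg_right ?_ (pow_nonneg hfug _)
    rw [← Nat.cast_mul, Nat.cast_le, ← Finset.card_product]
    refine Finset.card_le_card_of_injOn (fun p => ins N p.2 p.1 0) ?_ ?_
    · rintro ⟨a, v⟩ hp
      rw [Finset.mem_coe, Finset.mem_product, Finset.mem_filter, Finset.mem_filter] at hp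
      obtain ⟨⟨h1, h2⟩, h3, h4⟩ := hp
      simp only at h1 h2 h3 h4
      have hkN' : k < N := by
        have := h4.1
        omega
      obtain ⟨g1, g2, g3⟩ := cat_saw (hP.even _ _ _ h2) hkN' h3 h1 (hP.left _ _ _ h2) (hP.ball _ _ _ h2) h4 hρ
      rw [Finset.mem_coe, Finset.mem_filter]
      exact ⟨g1, hP.congr _ _ _ _ _ g3 h2, g2⟩
    · rintro ⟨a, v⟩ hp ⟨a', v'⟩ hp' he
      simp only at he
      have hkN' : 0 + k ≤ N := by omega
      have e1 := congrArg (fun s => dl s 0 k) he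
      have e2 := congrArg (fun s => md s 0 k) he
      simp only [dl_ins hkN', md_ins hkN'] at e1 e2
      rw [e1, e2]
  have h3 : ∑ m ∈ Finset.Icc N1 N2, ∑ k ∈ Finset.range (M + 1), f m k ≤
      ∑ N ∈ Finset.Icc N1 (N2 + M), ∑ k ∈ Finset.range (N + 1), f (N - k) k := by
    rw [Finset.sum_sigma', Finset.sum_sigma']
    refine le_trans (le_of_eq ?_) (Finset.sum_le_sum_of_subset_of_nonneg
      (s := ((Finset.Icc N1 N2).sigma fun _ => Finset.range (M + 1)).image fun p => (⟨p.1 + p.2, p.2⟩ : (_ : ℕ) × ℕ)) ?_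
      fun p _ _ => hf0 _ _)
    · rw [Finset.sum_image]
      · refine Finset.sum_congr rfl fun p _ => ?_
        simp only [Nat.add_sub_cancel]
      · rintro ⟨a, b⟩ _ ⟨c, d⟩ _ he
        simp only [Sigma.mk.injEq, heq_eq_eq] at he ⊢
        omega
    · intro p hp
      obtain ⟨q, hq, rfl⟩ := Finset.mem_image.1 hp
      rw [Finset.mem_sigma, Finset.mem_Icc, Finset.mem_range] at hq ⊢
      simp only
      obtain ⟨⟨q1, q2⟩, q3⟩ := hq
      omega
  rw [h1]
  exact h3.trans (Finset.sum_le_sum fun N _ => h2 N)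

/-! ### the marks are unique -/

/-- the marks are unique -/
def UQ {ι : Type} (A : ∀ n : ℕ, (Fin n → Fin 3) → ι → Prop) (last : ι → ℕ) (ρ : ℝ) : Prop :=
  ∀ (n : ℕ) (s : Fin n → Fin 3) (i i' : ι), A n s i → A n s i' → GC ρ s (last i) → GC ρ s (last i') → i = i'

/-- the walk is in front of the start of the block -/
lemma gc_back {n : ℕ} {s : Fin n → Fin 3} {k k2 : ℕ} {h θ L ρ : ℝ} (hB : GBt h θ s k k2) (hL : h + 2 * θ ≤ L)
    (hc : GC (ρ + L) s k2) : GC ρ s k := by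
  obtain ⟨⟨b1, b2, b3, b4, b5, b6, b7, -⟩, -⟩ := hB
  obtain ⟨c1, c2, c3⟩ := hc
  refine ⟨by omega, b3, fun j j1 j2 j3 => ?_⟩
  rcases le_or_gt j k2 with h4 | h4
  · exact b4 j j1 h4
  · have h5 := c3 j h4 j2 (by
      calc ‖pos s j - pos s k2‖ = ‖(pos s j - pos s k) - (pos s k2 - pos s k)‖ := by ring_nf
        _ ≤ ‖pos s j - pos s k‖ + ‖pos s k2 - pos s k‖ := norm_sub_le _ _
        _ ≤ ρ + L := by
          have := b6 k2 b1.le le_rfl
          linarith)
    have := b5 k le_rfl b1.le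
    linarith

/-- the end of the block is unique -/
lemma gbt_uniq' {n : ℕ} {s : Fin n → Fin 3} {k k2 k2' : ℕ} {h θ ρ : ℝ} (hB : GBt h θ s k k2) (hB' : GBt h θ s k k2')
    (hρ : 2 * (h + 2 * θ) ≤ ρ) (hc : GC ρ s k2) (hc' : GC ρ s k2') : k2' ≤ k2 := by
  by_contra hcon
  push Not at hcon
  obtain ⟨⟨b1, b2, b3, b4, b5, b6, b7, -⟩, -⟩ := hB
  obtain ⟨⟨d1, d2, d3, d4, d5, d6, d7, d8⟩, -⟩ := hB'
  obtain ⟨c1, c2, c3⟩ := hc
  have hn := hc'.1
  have h1 := d8 k2 ⟨b1.le, hcon, b2, c2, fun i i1 i2 => b5 i i1 i2, fun j j1 j2 => ?_⟩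
  · linarith
  · refine c3 j j1 (by omega) ?_
    have e1 := d6 j (by omega) j2
    have e2 := d6 k2 b1.le hcon.le
    calc ‖pos s j - pos s k2‖ = ‖(pos s j - pos s k) - (pos s k2 - pos s k)‖ := by ring_nf
      _ ≤ ‖pos s j - pos s k‖ + ‖pos s k2 - pos s k‖ := norm_sub_le _ _
      _ ≤ ρ := by linarith

lemma gbt_uniq {n : ℕ} {s : Fin n → Fin 3} {k k2 k2' : ℕ} {h θ ρ : ℝ} (hB : GBt h θ s k k2) (hB' : GBt h θ s k k2')
    (hρ : 2 * (h + 2 * θ) ≤ ρ) (hc : GC ρ s k2) (hc' : GC ρ s k2') : k2 = k2' :=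
  le_antisymm (gbt_uniq' hB' hB hρ hc' hc) (gbt_uniq' hB hB' hρ hc hc')

lemma GC.le {n : ℕ} {ρ ρ' : ℝ} {s : Fin n → Fin 3} {k : ℕ} (h : GC ρ s k) (hρ : ρ' ≤ ρ) : GC ρ' s k :=
  ⟨h.1, h.2.1, fun j h1 h2 h3 => h.2.2 j h1 h2 (h3.trans hρ)⟩

/-- **uniqueness, one more block** -/
lemma uq_nx {ι : Type} {A : ∀ n : ℕ, (Fin n → Fin 3) → ι → Prop} {last : ι → ℕ} {h : ∀ n : ℕ, (Fin n → Fin 3) → ι → ℝ}
    {θ L ρ : ℝ} (hL : ∀ (n : ℕ) (s : Fin n → Fin 3) (i : ι), A n s i → h n s i + 2 * θ ≤ L) (hρ : 2 * L ≤ ρ) (hL0 : 0 ≤ L)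
    (hU : UQ A last ρ) : UQ (Nx A last h θ) Prod.snd (ρ + L) := by
  rintro n s ⟨i, k⟩ ⟨i', k'⟩ ⟨h1, h2⟩ ⟨h3, h4⟩ h5 h6
  simp only at h1 h2 h3 h4 h5 h6
  have g1 := hL n s i h1
  have g2 := hL n s i' h3
  have e : i = i' := hU n s i i' h1 h3 (gc_back h2 g1 h5) (gc_back h4 g2 h6)
  subst e
  rw [gbt_uniq h2 h4 (by linarith) (h5.le (by linarith)) (h6.le (by linarith) : GC ρ s k')]

/-- the marks are unique in larger balls -/
lemma UQ.le {ι : Type} {A : ∀ n : ℕ, (Fin n → Fin 3) → ι → Prop} {last : ι → ℕ} {ρ ρ' : ℝ} (hU : UQ A last ρ) (h : ρ ≤ ρ') :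
    UQ A last ρ' := fun n s i i' h1 h2 h3 h4 => hU n s i i' h1 h2 (h3.le h) (h4.le h)

open Classical in
/-- the number of walks -/
lemma cg_le {ι : Type} {A : ∀ n : ℕ, (Fin n → Fin 3) → ι → Prop} {last : ι → ℕ} {S : ℕ → Finset ι} {ρ : ℝ}
    (hU : UQ A last ρ) (N : ℕ) :
    Cg A last S ρ N ≤ (((saw N).filter fun s => ∃ i, A N s i ∧ GC ρ s (last i)).card : ℝ) * fug ^ N := by
  have hfug : (0 : ℝ) ≤ fug := by
    unfold fug
    positivity
  unfold Cg
  refine mul_le_mul_of_nonneg_right ?_ (pow_nonneg hfug _)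
  rw [← Nat.cast_sum, Nat.cast_le, ← Finset.card_sigma]
  refine Finset.card_le_card_of_injOn (fun p => p.2) ?_ ?_
  · rintro ⟨i, s⟩ hp
    rw [Finset.mem_coe, Finset.mem_sigma, Finset.mem_filter] at hp
    rw [Finset.mem_coe, Finset.mem_filter]
    exact ⟨hp.2.1, i, hp.2.2⟩
  · rintro ⟨i, s⟩ hp ⟨i', s'⟩ hp' he
    rw [Finset.mem_coe, Finset.mem_sigma, Finset.mem_filter] at hp hp'
    simp only at he hp hp'
    subst he
    rw [hU N s i i' hp.2.2.1 hp'.2.2.1 hp.2.2.2 hp'.2.2.2]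

end Pool.Agent.SCF.Z
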