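import Pool.Agent.SCF.EpGlue

/-!
# Native gates, walk side (row W8 of ROT / F3): one more block, with weights (helper4)

The weighted form of `EpStep`: `w n s i` is a weight of the prefix `s[0, last i]` with the marks `i`, `γ n s i m b` a weight of the
block `b` behind it. **`step_massW`** : a block inserted behind the prefix costs only the (weighted) mass of the blocks.
-/

set_option autoImplicit false

open Set Filter Topology

namespace Pool.Agent.SCF.Z

open Pool.Agent.NTS.Res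
open NTSF (pos_zero pos_succ mem_saw)

/-- a block: it starts with the step `+1`, is to the right of its start and weakly to the left of its end -/
def BL (L : ℝ) {m : ℕ} (b : Fin m → Fin 3) : Prop :=
  0 < m ∧ Even m ∧ pos b 1 = 1 ∧ (∀ j : ℕ, 0 < j → j ≤ m → 1 ≤ (pos b j).re) ∧ (∀ j : ℕ, j ≤ m → (pos b j).re ≤ (pos b m).re) ∧
    ∀ j : ℕ, j ≤ m → ‖pos b j‖ ≤ L

lemma bl_of_gb {h L : ℝ} {m : ℕ} {b : Fin m → Fin 3} (hb : GB h L b 0 m) : BL L b := by
  obtain ⟨b1, b2, b3, b4, b5, b6, b7, -⟩ := hb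
  have z0 : pos b 0 = 0 := pos_zero _
  rw [z0] at b3 b4 b6
  rw [zero_add] at b3
  refine ⟨b1, b2, b3.trans (zero_add _), fun j j1 j2 => ?_, fun j j2 => b5 j (Nat.zero_le _) j2, fun j j2 => ?_⟩
  · have := b4 j j1 j2
    rwa [Complex.zero_re, zero_add] at this
  · have := b6 j (Nat.zero_le _) j2
    rwa [sub_zero] at this

lemma BL.le {L L' : ℝ} {m : ℕ} {b : Fin m → Fin 3} (h : BL L b) (hL : L ≤ L') : BL L' b :=
  ⟨h.1, h.2.1, h.2.2.1, h.2.2.2.1, h.2.2.2.2.1, fun j hj => (h.2.2.2.2.2 j hj).trans hL⟩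

/-- **insertion of a block** -/
lemma ins_sawB {N k m : ℕ} {r L ρ : ℝ} (hk : Even k) (hkm : k + m < N) {v : Fin (N - m) → Fin 3} {b : Fin m → Fin 3}
    (hv : v ∈ saw (N - m)) (hb : b ∈ saw m) (hl : ∀ i : ℕ, i ≤ k → (pos v i).re ≤ (pos v k).re)
    (hr : ∀ i : ℕ, i ≤ k → ‖pos v i - pos v k‖ ≤ r) (hc : GC ρ v k) (hB : BL L b) (hρ : r + 2 * L ≤ ρ) :
    ins N v b k ∈ saw N ∧ GC ρ (ins N v b k) (k + m) := by
  obtain ⟨b1, b2, b3, b4, b5, b6⟩ := hB
  have hr0 : 0 ≤ r := (norm_nonneg _).trans (hr k le_rfl)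
  have hL0 : 0 ≤ L := (norm_nonneg _).trans (b6 0 (Nat.zero_le _))
  have pl : ∀ t : ℕ, t ≤ k → pos (ins N v b k) t = pos v t := fun t ht => pos_ins_left hkm.le v b ht
  have pm : ∀ t : ℕ, t ≤ m → pos (ins N v b k) (k + t) = pos v k + pos b t := fun t ht => pos_ins_mid hk hkm.le v b ht
  have pr : ∀ t : ℕ, k + m + t ≤ N → pos (ins N v b k) (k + m + t) = pos v (k + t) + pos b m :=
    fun t ht => pos_ins_right hk b2 hkm.le v b ht
  have z0 : pos b 0 = 0 := pos_zero _
  obtain ⟨c1, c2, c3⟩ := hc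
  have hGC : GC ρ (ins N v b k) (k + m) := by
    refine ⟨hkm, ?_, fun j j1 j2 j3 => ?_⟩
    · rw [pr 1 (by omega), pm m le_rfl, c2]
      ring
    · obtain ⟨t, rfl⟩ := Nat.exists_eq_add_of_le j1.le
      rw [pr t j2, pm m le_rfl] at j3 ⊢
      have := c3 (k + t) (by omega) (by omega) (by
        rwa [show pos v (k + t) + pos b m - (pos v k + pos b m) = pos v (k + t) - pos v k by ring] at j3)
      rw [Complex.add_re, Complex.add_re]
      linarith
  refine ⟨?_, hGC⟩
  obtain ⟨s, hs⟩ : ∃ s, s = ins N v b k := ⟨_, rfl⟩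
  rw [← hs] at pl pm pr hGC ⊢
  obtain ⟨-, -, g3⟩ := hGC
  rw [mem_saw] at hv hb ⊢
  have key : ∀ i t : ℕ, i ≤ k + m → 0 < t → k + m + t ≤ N → pos s i ≠ pos s (k + m + t) := by
    intro i t hi ht ht' he
    have e2 : ‖pos s (k + m + t) - pos s (k + m)‖ ≤ ρ := by
      rw [← he]
      have a1 := b6 m le_rfl
      rcases le_or_gt i k with h4 | h4
      · rw [pl i h4, pm m le_rfl]
        calc ‖pos v i - (pos v k + pos b m)‖ = ‖(pos v i - pos v k) - pos b m‖ := by ring_nf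
          _ ≤ ‖pos v i - pos v k‖ + ‖pos b m‖ := norm_sub_le _ _
          _ ≤ r + L := add_le_add (hr i h4) a1
          _ ≤ ρ := by linarith
      · obtain ⟨u, rfl⟩ := Nat.exists_eq_add_of_le h4.le
        rw [pm u (by omega), pm m le_rfl]
        have a2 := b6 u (by omega)
        calc ‖pos v k + pos b u - (pos v k + pos b m)‖ = ‖pos b u - pos b m‖ := by ring_nf
          _ ≤ ‖pos b u‖ + ‖pos b m‖ := norm_sub_le _ _
          _ ≤ L + L := add_le_add a2 a1
          _ ≤ ρ := by linarith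
    have e4 := g3 (k + m + t) (by omega) ht' e2
    have e5 : (pos s i).re ≤ (pos s (k + m)).re := by
      rw [pm m le_rfl, Complex.add_re]
      have a0 := b5 0 (by omega)
      rw [z0, Complex.zero_re] at a0
      rcases le_or_gt i k with h4 | h4
      · have := hl i h4
        rw [pl i h4]
        linarith
      · obtain ⟨u, rfl⟩ := Nat.exists_eq_add_of_le h4.le
        have := b5 u (by omega)
        rw [pm u (by omega), Complex.add_re]
        linarith
    rw [he] at e5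
    linarith
  have key2 : ∀ i j : ℕ, i ≤ k → k < j → j ≤ k + m → pos s i ≠ pos s j := by
    intro i j hi hj hj' he
    obtain ⟨u, rfl⟩ := Nat.exists_eq_add_of_le hj.le
    rw [pl i hi, pm u (by omega)] at he
    have e1 := hl i hi
    have e2 := b4 u (by omega) (by omega)
    rw [he, Complex.add_re] at e1
    linarith
  intro i j hi hj hij
  rcases le_or_gt i (k + m) with h4 | h4 <;> rcases le_or_gt j (k + m) with h5 | h5
  · rcases le_or_gt i k with h6 | h6 <;> rcases le_or_gt j k with h7 | h7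
    · refine hv i j (by omega) (by omega) ?_
      rw [← pl i h6, ← pl j h7, hij]
    · exact absurd hij (key2 i j h6 h7 h5)
    · exact absurd hij.symm (key2 j i h7 h6 h4)
    · obtain ⟨t, rfl⟩ := Nat.exists_eq_add_of_le h6.le
      obtain ⟨u, rfl⟩ := Nat.exists_eq_add_of_le h7.le
      rw [pm t (by omega), pm u (by omega)] at hij
      have := hb t u (by omega) (by omega) (add_left_cancel hij)
      omega
  · exfalso
    obtain ⟨t, rfl⟩ := Nat.exists_eq_add_of_le h5.le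
    exact key i t h4 (by omega) hj hij
  · exfalso
    obtain ⟨t, rfl⟩ := Nat.exists_eq_add_of_le h4.le
    exact key j t h5 (by omega) hi hij.symm
  · obtain ⟨t, rfl⟩ := Nat.exists_eq_add_of_le h4.le
    obtain ⟨u, rfl⟩ := Nat.exists_eq_add_of_le h5.le
    rw [pr t hi, pr u hj] at hij
    have := hv (k + t) (k + u) (by omega) (by omega) (add_right_cancel hij)
    omega

/-- the two walks have the same first `k` steps -/
def Agr {n n' : ℕ} (s : Fin n → Fin 3) (s' : Fin n' → Fin 3) (k : ℕ) : Prop :=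
  ∀ (t : ℕ) (h : t < n) (h' : t < n'), t < k → s' ⟨t, h'⟩ = s ⟨t, h⟩

lemma Agr.pos_eq {n n' : ℕ} {s : Fin n → Fin 3} {s' : Fin n' → Fin 3} {k : ℕ} (h : Agr s s' k) (hn : k ≤ n) (hn' : k ≤ n') :
    ∀ t : ℕ, t ≤ k → pos s' t = pos s t := by
  intro t
  induction t with
  | zero => intro _; rw [pos_zero, pos_zero]
  | succ t ih =>
    intro ht
    rw [pos_succ s' t (by omega), pos_succ s t (by omega), ih (by omega), h t (by omega) (by omega) (by omega)]

lemma Agr.le {n n' : ℕ} {s : Fin n → Fin 3} {s' : Fin n' → Fin 3} {k l : ℕ} (h : Agr s s' k) (hl : l ≤ k) : Agr s s' l :=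
  fun t h1 h2 h3 => h t h1 h2 (by omega)

lemma Agr.md_eq {n n' : ℕ} {s : Fin n → Fin 3} {s' : Fin n' → Fin 3} {k m : ℕ} (h : Agr s s' (k + m)) (hn : k + m ≤ n)
    (hn' : k + m ≤ n') : md s' k m = md s k m := by
  funext i
  unfold md
  rw [dif_pos (by omega : k + (i : ℕ) < n'), dif_pos (by omega : k + (i : ℕ) < n)]
  exact h _ _ _ (by omega)

lemma agr_ins {N k m : ℕ} (v : Fin (N - m) → Fin 3) (b : Fin m → Fin 3) : Agr v (ins N v b k) k := by
  intro t h1 h2 h3
  unfold ins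
  rw [dif_pos ⟨h3, h1⟩]

/-- a weight on prefixes with marks -/
structure PW {ι : Type} (w : ∀ n : ℕ, (Fin n → Fin 3) → ι → ℝ) (last : ι → ℕ) (r : ℝ) : Prop where
  nn : ∀ (n : ℕ) (s : Fin n → Fin 3) (i : ι), 0 ≤ w n s i
  even : ∀ (n : ℕ) (s : Fin n → Fin 3) (i : ι), last i ≤ n → w n s i ≠ 0 → Even (last i)
  left : ∀ (n : ℕ) (s : Fin n → Fin 3) (i : ι), last i ≤ n → w n s i ≠ 0 → ∀ j : ℕ, j ≤ last i →
    (pos s j).re ≤ (pos s (last i)).re
  ball : ∀ (n : ℕ) (s : Fin n → Fin 3) (i : ι), last i ≤ n → w n s i ≠ 0 → ∀ j : ℕ, j ≤ last i →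
    ‖pos s j - pos s (last i)‖ ≤ r
  congr : ∀ (n n' : ℕ) (s : Fin n → Fin 3) (s' : Fin n' → Fin 3) (i : ι), last i ≤ n → last i ≤ n' → Agr s s' (last i) →
    w n' s' i = w n s i

/-- a weight on blocks, given the prefix -/
structure PB {ι : Type} (w : ∀ n : ℕ, (Fin n → Fin 3) → ι → ℝ) (last : ι → ℕ)
    (γ : ∀ n : ℕ, (Fin n → Fin 3) → ι → ∀ m : ℕ, (Fin m → Fin 3) → ℝ) (L : ℝ) : Prop where
  nn : ∀ (n : ℕ) (s : Fin n → Fin 3) (i : ι) (m : ℕ) (b : Fin m → Fin 3), 0 ≤ γ n s i m b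
  blk : ∀ (n : ℕ) (s : Fin n → Fin 3) (i : ι) (m : ℕ) (b : Fin m → Fin 3), last i ≤ n → w n s i ≠ 0 → γ n s i m b ≠ 0 → BL L b
  congr : ∀ (n n' : ℕ) (s : Fin n → Fin 3) (s' : Fin n' → Fin 3) (i : ι) (m : ℕ) (b : Fin m → Fin 3), last i ≤ n →
    last i ≤ n' → Agr s s' (last i) → w n s i ≠ 0 → γ n' s' i m b = γ n s i m b

/-- one more block -/
noncomputable def Nw {ι : Type} (w : ∀ n : ℕ, (Fin n → Fin 3) → ι → ℝ) (last : ι → ℕ)
    (γ : ∀ n : ℕ, (Fin n → Fin 3) → ι → ∀ m : ℕ, (Fin m → Fin 3) → ℝ) : ∀ n : ℕ, (Fin n → Fin 3) → ι × ℕ → ℝ :=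
  fun n s p => w n s p.1 * (if last p.1 ≤ p.2 then γ n s p.1 (p.2 - last p.1) (md s (last p.1) (p.2 - last p.1)) else 0)

lemma nw_ne {ι : Type} {w : ∀ n : ℕ, (Fin n → Fin 3) → ι → ℝ} {last : ι → ℕ}
    {γ : ∀ n : ℕ, (Fin n → Fin 3) → ι → ∀ m : ℕ, (Fin m → Fin 3) → ℝ} {n : ℕ} {s : Fin n → Fin 3} {p : ι × ℕ}
    (h : Nw w last γ n s p ≠ 0) : w n s p.1 ≠ 0 ∧ last p.1 ≤ p.2 ∧
      γ n s p.1 (p.2 - last p.1) (md s (last p.1) (p.2 - last p.1)) ≠ 0 := by
  unfold Nw at h
  split_ifs at h with h1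
  · exact ⟨left_ne_zero_of_mul h, h1, right_ne_zero_of_mul h⟩
  · rw [mul_zero] at h
    exact absurd rfl h

lemma pw_nx {ι : Type} {w : ∀ n : ℕ, (Fin n → Fin 3) → ι → ℝ} {last : ι → ℕ}
    {γ : ∀ n : ℕ, (Fin n → Fin 3) → ι → ∀ m : ℕ, (Fin m → Fin 3) → ℝ} {r L : ℝ} (hP : PW w last r) (hB : PB w last γ L)
    (hr : 0 ≤ r) : PW (Nw w last γ) Prod.snd (r + 2 * L) := by
  have key : ∀ (n : ℕ) (s : Fin n → Fin 3) (p : ι × ℕ), p.2 ≤ n → Nw w last γ n s p ≠ 0 →
      ∃ m : ℕ, p.2 = last p.1 + m ∧ w n s p.1 ≠ 0 ∧ BL L (md s (last p.1) m) ∧ Even (last p.1) := by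
    intro n s p hp h
    obtain ⟨h1, h2, h3⟩ := nw_ne h
    obtain ⟨m, hm⟩ := Nat.exists_eq_add_of_le h2
    refine ⟨m, hm, h1, ?_, hP.even n s p.1 (by omega) h1⟩
    have e : p.2 - last p.1 = m := by omega
    rw [e] at h3
    exact hB.blk n s p.1 m _ (by omega) h1 h3
  refine ⟨fun n s p => ?_, fun n s p hp h => ?_, fun n s p hp h j hj => ?_, fun n s p hp h j hj => ?_,
    fun n n' s s' p hp hp' he => ?_⟩
  · unfold Nw
    refine mul_nonneg (hP.nn _ _ _) ?_
    split_ifs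
    · exact hB.nn _ _ _ _ _
    · exact le_rfl
  · obtain ⟨m, hm, h1, h2, h3⟩ := key n s p hp h
    rw [hm]
    exact h3.add h2.2.1
  · obtain ⟨m, hm, h1, h2, h3⟩ := key n s p hp h
    obtain ⟨b1, b2, b3, b4, b5, b6⟩ := h2
    have hkm : last p.1 + m ≤ n := by omega
    have pm : ∀ t : ℕ, t ≤ m → pos s (last p.1 + t) = pos s (last p.1) + pos (md s (last p.1) m) t := by
      intro t ht
      rw [pos_md s h3 hkm t ht]
      ring
    show (pos s j).re ≤ (pos s p.2).re
    rw [hm, pm m le_rfl, Complex.add_re]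
    have a0 := b5 0 (by omega)
    rw [pos_zero, Complex.zero_re] at a0
    rcases le_or_gt j (last p.1) with h4 | h4
    · have := hP.left n s p.1 (by omega) h1 j h4
      linarith
    · obtain ⟨u, hu⟩ := Nat.exists_eq_add_of_le h4.le
      rw [hu, pm u (by omega), Complex.add_re]
      have := b5 u (by omega)
      linarith
  · obtain ⟨m, hm, h1, h2, h3⟩ := key n s p hp h
    obtain ⟨b1, b2, b3, b4, b5, b6⟩ := h2
    have hkm : last p.1 + m ≤ n := by omega
    have pm : ∀ t : ℕ, t ≤ m → pos s (last p.1 + t) = pos s (last p.1) + pos (md s (last p.1) m) t := by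
      intro t ht
      rw [pos_md s h3 hkm t ht]
      ring
    have a1 := b6 m le_rfl
    have hL0 : 0 ≤ L := (norm_nonneg _).trans a1
    show ‖pos s j - pos s p.2‖ ≤ _
    rw [hm, pm m le_rfl]
    rcases le_or_gt j (last p.1) with h4 | h4
    · have a2 := hP.ball n s p.1 (by omega) h1 j h4
      calc ‖pos s j - (pos s (last p.1) + pos (md s (last p.1) m) m)‖ =
            ‖(pos s j - pos s (last p.1)) - pos (md s (last p.1) m) m‖ := by ring_nf
        _ ≤ ‖pos s j - pos s (last p.1)‖ + ‖pos (md s (last p.1) m) m‖ := norm_sub_le _ _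
        _ ≤ r + 2 * L := by linarith
    · obtain ⟨u, hu⟩ := Nat.exists_eq_add_of_le h4.le
      rw [hu, pm u (by omega)]
      have a2 := b6 u (by omega)
      calc ‖pos s (last p.1) + pos (md s (last p.1) m) u - (pos s (last p.1) + pos (md s (last p.1) m) m)‖ =
            ‖pos (md s (last p.1) m) u - pos (md s (last p.1) m) m‖ := by ring_nf
        _ ≤ ‖pos (md s (last p.1) m) u‖ + ‖pos (md s (last p.1) m) m‖ := norm_sub_le _ _
        _ ≤ r + 2 * L := by linarith
  · unfold Nw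
    by_cases h2 : last p.1 ≤ p.2
    · obtain ⟨m, hm⟩ := Nat.exists_eq_add_of_le h2
      have e : p.2 - last p.1 = m := by omega
      rw [if_pos h2, if_pos h2, e, hP.congr n n' s s' p.1 (by omega) (by omega) (he.le h2)]
      by_cases h3 : w n s p.1 = 0
      · rw [h3, zero_mul, zero_mul]
      · rw [hB.congr n n' s s' p.1 m _ (by omega) (by omega) (he.le h2) h3]
        rw [hm] at he
        rw [he.md_eq (by omega) (by omega)]
    · rw [if_neg h2, if_neg h2, mul_zero, mul_zero]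

open Classical in
/-- the weighted mass of the walks with `N` steps and marks -/
noncomputable def Cw {ι : Type} (w : ∀ n : ℕ, (Fin n → Fin 3) → ι → ℝ) (last : ι → ℕ) (S : ℕ → Finset ι) (ρ : ℝ) (N : ℕ) : ℝ :=
  (∑ i ∈ S N, ∑ s ∈ saw N, if GC ρ s (last i) then w N s i else 0) * fug ^ N

open Classical in
/-- the words with an inserted block of `m` steps, fixed marks -/
lemma ins_sum {ι : Type} {w : ∀ n : ℕ, (Fin n → Fin 3) → ι → ℝ} {last : ι → ℕ}
    {γ : ∀ n : ℕ, (Fin n → Fin 3) → ι → ∀ m : ℕ, (Fin m → Fin 3) → ℝ} {r L ρ : ℝ} (hP : PW w last r) (hB : PB w last γ L)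
    (hρ : r + 2 * L ≤ ρ) (hr : 0 ≤ r) {N m : ℕ} (hm : m ≤ N) (i : ι) :
    ∑ v ∈ saw (N - m), (if GC ρ v (last i) then w (N - m) v i * ∑ b ∈ saw m, γ (N - m) v i m b else 0) ≤
      ∑ s ∈ saw N, (if GC ρ s (last i + m) then Nw w last γ N s (i, last i + m) else 0) := by
  obtain ⟨F, hF⟩ : ∃ F : (Fin (N - m) → Fin 3) × (Fin m → Fin 3) → ℝ, F = fun p =>
    if GC ρ p.1 (last i) then w (N - m) p.1 i * γ (N - m) p.1 i m p.2 else 0 := ⟨_, rfl⟩
  obtain ⟨G, hG⟩ : ∃ G : (Fin N → Fin 3) → ℝ, G = fun s =>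
    if GC ρ s (last i + m) then Nw w last γ N s (i, last i + m) else 0 := ⟨_, rfl⟩
  have hG0 : ∀ s, 0 ≤ G s := by
    intro s
    rw [hG]
    simp only
    split_ifs
    · exact (pw_nx hP hB hr).nn _ _ _
    · exact le_rfl
  have e1 : ∑ v ∈ saw (N - m), (if GC ρ v (last i) then w (N - m) v i * ∑ b ∈ saw m, γ (N - m) v i m b else 0) =
      ∑ p ∈ (saw (N - m) ×ˢ saw m).filter (fun p => F p ≠ 0), F p := by
    rw [Finset.sum_filter_ne_zero, Finset.sum_product, hF]
    refine Finset.sum_congr rfl fun v _ => ?_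
    by_cases h : GC ρ v (last i)
    · simp only [if_pos h]
      rw [Finset.mul_sum]
    · simp only [if_neg h, Finset.sum_const_zero]
  have key : ∀ p ∈ (saw (N - m) ×ˢ saw m).filter (fun p => F p ≠ 0), last i + m < N ∧ ins N p.1 p.2 (last i) ∈ saw N ∧
      F p = G (ins N p.1 p.2 (last i)) := by
    rintro ⟨v, b⟩ hp
    rw [Finset.mem_filter, Finset.mem_product] at hp
    obtain ⟨⟨h1, h2⟩, h3⟩ := hp
    rw [hF] at h3 ⊢
    simp only [ne_eq, ite_eq_right_iff, Classical.not_imp] at h3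
    obtain ⟨h4, h5⟩ := h3
    have h6 : w (N - m) v i ≠ 0 := left_ne_zero_of_mul h5
    have h7 : γ (N - m) v i m b ≠ 0 := right_ne_zero_of_mul h5
    have hkm : last i + m < N := by
      have := h4.1
      omega
    have hle : last i ≤ N - m := by omega
    have hbl := hB.blk _ _ _ _ _ hle h6 h7
    have hk := hP.even _ _ _ hle h6
    obtain ⟨g1, g2⟩ := ins_sawB hk hkm h1 h2 (hP.left _ _ _ hle h6) (hP.ball _ _ _ hle h6) h4 hbl hρ
    refine ⟨hkm, g1, ?_⟩
    rw [hG]
    simp only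
    rw [if_pos h4, if_pos g2]
    unfold Nw
    simp only
    have e : last i + m - last i = m := by omega
    have hag := agr_ins (k := last i) v b
    rw [if_pos (by omega), e, md_ins hkm.le, hP.congr _ _ _ _ _ hle (by omega) hag, hB.congr _ _ _ _ _ _ _ hle (by omega) hag h6]
  rw [e1, Finset.sum_congr rfl fun p hp => (key p hp).2.2]
  have hinj : ∀ p ∈ (saw (N - m) ×ˢ saw m).filter (fun p => F p ≠ 0), ∀ q ∈ (saw (N - m) ×ˢ saw m).filter (fun p => F p ≠ 0),
      ins N p.1 p.2 (last i) = ins N q.1 q.2 (last i) → p = q := by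
    rintro ⟨v, b⟩ hp ⟨v', b'⟩ _ he
    have hkm := (key _ hp).1.le
    have e1 := congrArg (fun s => dl s (last i) m) he
    have e2 := congrArg (fun s => md s (last i) m) he
    simp only [dl_ins hkm, md_ins hkm] at e1 e2
    rw [e1, e2]
  rw [← Finset.sum_image (f := G) hinj]
  refine (Finset.sum_le_sum_of_subset_of_nonneg ?_ fun s _ _ => hG0 s).trans (le_of_eq (by rw [hG]))
  intro s hs
  obtain ⟨p, hp, rfl⟩ := Finset.mem_image.1 hs
  exact (key p hp).2.1

open Classical in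
/-- **one more block, with weights** -/
theorem step_massW {ι : Type} {w : ∀ n : ℕ, (Fin n → Fin 3) → ι → ℝ} {last : ι → ℕ}
    {γ : ∀ n : ℕ, (Fin n → Fin 3) → ι → ∀ m : ℕ, (Fin m → Fin 3) → ℝ} {S : ℕ → Finset ι}
    (hS : ∀ N N' : ℕ, N ≤ N' → S N ⊆ S N') {r L ρ t : ℝ} {M : ℕ} (hP : PW w last r) (hB : PB w last γ L) (hρ : r + 2 * L ≤ ρ)
    (hr : 0 ≤ r) (ht : ∀ (n : ℕ) (s : Fin n → Fin 3) (i : ι), last i ≤ n → w n s i ≠ 0 →
      t ≤ ∑ m ∈ Finset.range (M + 1), (∑ b ∈ saw m, γ n s i m b) * fug ^ m) (N1 N2 : ℕ) :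
    t * ∑ N ∈ Finset.Icc N1 N2, Cw w last S ρ N ≤
      ∑ N ∈ Finset.Icc N1 (N2 + M), Cw (Nw w last γ) Prod.snd (fun N => S N ×ˢ Finset.range (N + 1)) ρ N := by
  have hfug : (0 : ℝ) ≤ fug := by
    unfold fug
    positivity
  have hnn := (pw_nx hP hB hr).nn
  -- the number of words with an inserted block
  obtain ⟨f, hf⟩ : ∃ f : ℕ → ℕ → ℝ, f = fun N' m => (∑ i ∈ S N', ∑ v ∈ saw N',
    (if GC ρ v (last i) then w N' v i * ∑ b ∈ saw m, γ N' v i m b else 0)) * fug ^ (N' + m) := ⟨_, rfl⟩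
  have hf0 : ∀ N' m : ℕ, 0 ≤ f N' m := by
    intro N' m
    rw [hf]
    refine mul_nonneg (Finset.sum_nonneg fun i _ => Finset.sum_nonneg fun v _ => ?_) (pow_nonneg hfug _)
    split_ifs
    · exact mul_nonneg (hP.nn _ _ _) (Finset.sum_nonneg fun b _ => hB.nn _ _ _ _ _)
    · exact le_rfl
  have h1 : ∀ N' : ℕ, t * Cw w last S ρ N' ≤ ∑ m ∈ Finset.range (M + 1), f N' m := by
    intro N'
    have e : ∑ m ∈ Finset.range (M + 1), f N' m =
        (∑ i ∈ S N', ∑ v ∈ saw N', (if GC ρ v (last i) then w N' v i *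
          ∑ m ∈ Finset.range (M + 1), (∑ b ∈ saw m, γ N' v i m b) * fug ^ m else 0)) * fug ^ N' := by
      rw [hf]
      simp only
      rw [Finset.sum_mul]
      have e1 : ∀ m : ℕ, (∑ i ∈ S N', ∑ v ∈ saw N', (if GC ρ v (last i) then w N' v i * ∑ b ∈ saw m, γ N' v i m b else 0)) *
          fug ^ (N' + m) = ∑ i ∈ S N', (∑ v ∈ saw N', (if GC ρ v (last i) then w N' v i *
            ((∑ b ∈ saw m, γ N' v i m b) * fug ^ m) else 0)) * fug ^ N' := by
        intro m
        rw [Finset.sum_mul]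
        refine Finset.sum_congr rfl fun i _ => ?_
        rw [Finset.sum_mul, Finset.sum_mul]
        refine Finset.sum_congr rfl fun v _ => ?_
        split_ifs
        · rw [pow_add]
          ring
        · rw [zero_mul, zero_mul]
      rw [Finset.sum_congr rfl fun m _ => e1 m, Finset.sum_comm]
      refine Finset.sum_congr rfl fun i _ => ?_
      rw [← Finset.sum_mul, Finset.sum_comm]
      congr 1
      refine Finset.sum_congr rfl fun v _ => ?_
      split_ifs
      · rw [Finset.mul_sum]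
      · rw [Finset.sum_const_zero]
    rw [e]
    unfold Cw
    rw [← mul_assoc]
    refine mul_le_mul_of_nonneg_right ?_ (pow_nonneg hfug _)
    rw [Finset.mul_sum]
    refine Finset.sum_le_sum fun i _ => ?_
    rw [Finset.mul_sum]
    refine Finset.sum_le_sum fun v _ => ?_
    split_ifs with h
    · by_cases h0 : w N' v i = 0
      · rw [h0, mul_zero, zero_mul]
      · rw [mul_comm]
        exact mul_le_mul_of_nonneg_left (ht _ _ _ h.1.le h0) (hP.nn _ _ _)
    · rw [mul_zero]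
  have h2 : ∀ N : ℕ, ∑ m ∈ Finset.range (N + 1), f (N - m) m ≤
      Cw (Nw w last γ) Prod.snd (fun N => S N ×ˢ Finset.range (N + 1)) ρ N := by
    intro N
    unfold Cw
    rw [hf]
    simp only
    have e1 : ∑ m ∈ Finset.range (N + 1), (∑ i ∈ S (N - m), ∑ v ∈ saw (N - m),
        (if GC ρ v (last i) then w (N - m) v i * ∑ b ∈ saw m, γ (N - m) v i m b else 0)) * fug ^ (N - m + m) ≤
        ∑ m ∈ Finset.range (N + 1), (∑ i ∈ S N, ∑ s ∈ saw N,
          (if GC ρ s (last i + m) then Nw w last γ N s (i, last i + m) else 0)) * fug ^ N := by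
      refine Finset.sum_le_sum fun m hm => ?_
      have hmN : m ≤ N := by
        have := Finset.mem_range.1 hm
        omega
      rw [Nat.sub_add_cancel hmN]
      refine mul_le_mul_of_nonneg_right ?_ (pow_nonneg hfug _)
      refine (Finset.sum_le_sum fun i _ => ins_sum hP hB hρ hr hmN i).trans ?_
      refine Finset.sum_le_sum_of_subset_of_nonneg (hS _ _ (Nat.sub_le _ _)) fun i _ _ => Finset.sum_nonneg fun s _ => ?_
      split_ifs
      · exact hnn _ _ _
      · exact le_rfl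
    refine e1.trans ?_
    rw [← Finset.sum_mul]
    refine mul_le_mul_of_nonneg_right ?_ (pow_nonneg hfug _)
    rw [Finset.sum_comm, Finset.sum_product]
    refine Finset.sum_le_sum fun i _ => ?_
    -- the marks behind N give nothing
    have e2 : ∑ m ∈ Finset.range (N + 1), ∑ s ∈ saw N,
        (if GC ρ s (last i + m) then Nw w last γ N s (i, last i + m) else 0) =
        ∑ m ∈ (Finset.range (N + 1)).filter (fun m => last i + m < N), ∑ s ∈ saw N,
          (if GC ρ s (last i + m) then Nw w last γ N s (i, last i + m) else 0) := by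
      rw [Finset.sum_filter]
      refine Finset.sum_congr rfl fun m _ => ?_
      split_ifs with h3
      · rfl
      · exact Finset.sum_eq_zero fun s _ => if_neg fun h4 => h3 h4.1
    rw [e2]
    refine le_trans (le_of_eq ?_) (Finset.sum_le_sum_of_subset_of_nonneg
      (s := ((Finset.range (N + 1)).filter (fun m => last i + m < N)).image fun m => last i + m) ?_ fun k' _ _ =>
        Finset.sum_nonneg fun s _ => ?_)
    · rw [Finset.sum_image fun a _ b _ hab => by simpa using hab]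
    · intro k' hk'
      obtain ⟨m, hm, rfl⟩ := Finset.mem_image.1 hk'
      rw [Finset.mem_filter] at hm
      rw [Finset.mem_range]
      omega
    · split_ifs
      · exact hnn _ _ _
      · exact le_rfl
  have h3 : ∑ N' ∈ Finset.Icc N1 N2, ∑ m ∈ Finset.range (M + 1), f N' m ≤
      ∑ N ∈ Finset.Icc N1 (N2 + M), ∑ m ∈ Finset.range (N + 1), f (N - m) m := by
    rw [Finset.sum_sigma', Finset.sum_sigma']
    refine le_trans (le_of_eq ?_) (Finset.sum_le_sum_of_subset_of_nonneg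
      (s := ((Finset.Icc N1 N2).sigma fun _ => Finset.range (M + 1)).image fun p => (⟨p.1 + p.2, p.2⟩ : (_ : ℕ) × ℕ)) ?_
      fun p _ _ => hf0 _ _)
    · rw [Finset.sum_image]
      · refine Finset.sum_congr rfl fun p _ => ?_
        simp only [Nat.add_sub_cancel]
      · rintro ⟨a, b⟩ _ ⟨c, d⟩ _ he
        simp only [Sigma.mk.injEq, heq_eq_eq] at he ⊢
        omega
    · intro p hp
      obtain ⟨q, hq, rfl⟩ := Finset.mem_image.1 hp
      rw [Finset.mem_sigma, Finset.mem_Icc, Finset.mem_range] at hq ⊢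
      simp only
      obtain ⟨⟨q1, q2⟩, q3⟩ := hq
      omega
  calc t * ∑ N ∈ Finset.Icc N1 N2, Cw w last S ρ N = ∑ N ∈ Finset.Icc N1 N2, t * Cw w last S ρ N := Finset.mul_sum _ _ _
    _ ≤ ∑ N ∈ Finset.Icc N1 N2, ∑ m ∈ Finset.range (M + 1), f N m := Finset.sum_le_sum fun N _ => h1 N
    _ ≤ ∑ N ∈ Finset.Icc N1 (N2 + M), ∑ m ∈ Finset.range (N + 1), f (N - m) m := h3
    _ ≤ _ := Finset.sum_le_sum fun N _ => h2 N

end Pool.Agent.SCF.Z
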