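import Pool.Agent.SCF.MDefs
import Pool.Agent.CRT.RSplit
import Pool.Agent.SIM.LimS
import Pool.Agent.NTS.LevyLow

/-!
# ScaleFlow, row MAC, part (B) (helper28): stability of the start cuts

* `SC ρ s k` : the start cuts (all the beginning to the left, behind `k` to the right in the ball of radius `ρ`);
* `Four` : four start cuts `x0 ≤ x1 ≤ x2 ≤ x3` with gaps `≥ G`, in `[T, W]`, `≥ G`, in a ball of radius `b`;
* **`stabB`** : if the curves of two walks are close, the first walk has four start cuts and the second one is not in `BadW`, then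
  the second one has a start cut near them, with a slightly smaller radius.
-/

set_option autoImplicit false

open Set Filter Topology MeasureTheory

namespace Pool.Agent.SCF.M

open Pool.Agent.NTS.Res
open Pool.Agent.SCF.Z
open Pool.Agent.CRT.R (WC)
open NTSF (pos_succ)

/-- the pinch, seen in the ball of radius `ρ` -/
def PnW (ρ : ℝ) {n : ℕ} (s : Fin n → Fin 3) (p1 k0 k1 p2 : ℕ) (y m E h w : ℝ) : Prop :=
  p1 ≤ k0 ∧ k0 ≤ k1 ∧ k1 ≤ p2 ∧ p2 ≤ n ∧
    (∀ i, i ≤ p1 → ‖pos s i - pos s k0‖ ≤ ρ → (pos s i).re ≤ y - m) ∧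
    (∀ i, p1 ≤ i → i ≤ p2 → |(pos s i).re - y| ≤ E) ∧
    (∀ i, p2 ≤ i → i ≤ n → ‖pos s i - pos s k0‖ ≤ ρ → y + m ≤ (pos s i).re) ∧
    (∀ i, i ≤ k0 → ‖pos s i - pos s k0‖ ≤ ρ → (pos s i).re ≤ y - h) ∧
    (∀ i, k0 ≤ i → i ≤ k1 → |(pos s i).re - y| ≤ w) ∧
    ∀ i, k1 ≤ i → i ≤ n → ‖pos s i - pos s k0‖ ≤ ρ → y + h ≤ (pos s i).re

/-- a pinch of the walk, without a cut near it, in the ball of radius `K` about the start of the walk -/
def BadK (K ρ b E m h w : ℝ) {n : ℕ} (s : Fin n → Fin 3) : Prop :=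
  ∃ (p1 k0 k1 p2 : ℕ) (y : ℝ), (∀ i, i ≤ p2 → ‖pos s i‖ ≤ K) ∧ PnW ρ s p1 k0 k1 p2 y m E h w ∧
    (∃ j, j ≤ p1 ∧ b ≤ ‖pos s j - pos s p1‖) ∧ (∃ j, p2 ≤ j ∧ j ≤ n ∧ b ≤ ‖pos s j - pos s p2‖) ∧
    ∀ i, WC (ρ / 2) s i → ‖pos s i - pos s k0‖ ≤ ρ / 4 → m < |(pos s i).re - y|

/-- the index of the second walk at the time of the index `i` of the first one -/
noncomputable def fl (n n' i : ℕ) : ℕ := ⌊(i : ℝ) / n * n'⌋₊

section fl

variable {n n' : ℕ}

lemma fl_mono {i j : ℕ} (h : i ≤ j) : fl n n' i ≤ fl n n' j := by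
  refine Nat.floor_mono ?_
  have : (i : ℝ) ≤ j := by exact_mod_cast h
  gcongr

lemma fl_le (hn : 1 ≤ n) {i : ℕ} (h : i ≤ n) : fl n n' i ≤ n' := by
  have hn0 : (0 : ℝ) < n := by exact_mod_cast hn
  have h1 : (i : ℝ) / n ≤ 1 := by
    rw [div_le_one hn0]
    exact_mod_cast h
  calc fl n n' i ≤ ⌊(n' : ℝ)⌋₊ := Nat.floor_mono (by nlinarith [Nat.cast_nonneg (α := ℝ) n'])
    _ = n' := Nat.floor_natCast n'

lemma fl_lt (hn : 1 ≤ n) (hn' : 1 ≤ n') {i : ℕ} (h : i < n) : fl n n' i < n' := by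
  have hn0 : (0 : ℝ) < n := by exact_mod_cast hn
  have hn0' : (0 : ℝ) < n' := by exact_mod_cast hn'
  have h1 : (i : ℝ) / n < 1 := by
    rw [div_lt_one hn0]
    exact_mod_cast h
  unfold fl
  rw [Nat.floor_lt (by positivity)]
  nlinarith

/-- back, before -/
lemma fl_before (hn : 1 ≤ n) (hn' : 1 ≤ n') {i p : ℕ} (h : i ≤ fl n n' p) : fl n' n i ≤ p := by
  have hn0 : (0 : ℝ) < n := by exact_mod_cast hn
  have hn0' : (0 : ℝ) < n' := by exact_mod_cast hn'
  have h1 : (i : ℝ) ≤ (p : ℝ) / n * n' := by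
    have h2 : ((fl n n' p : ℕ) : ℝ) ≤ (p : ℝ) / n * n' := Nat.floor_le (by positivity)
    have h3 : (i : ℝ) ≤ ((fl n n' p : ℕ) : ℝ) := by exact_mod_cast h
    linarith
  have h2 : (i : ℝ) / n' * n ≤ p := by
    rw [div_mul_eq_mul_div, div_le_iff₀ hn0']
    calc (i : ℝ) * n ≤ (p : ℝ) / n * n' * n := mul_le_mul_of_nonneg_right h1 hn0.le
      _ = p * n' := by field_simp
  calc fl n' n i ≤ ⌊(p : ℝ)⌋₊ := Nat.floor_mono h2
    _ = p := Nat.floor_natCast p

/-- back, behind -/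
lemma fl_behind (hn : 1 ≤ n) (hn' : 1 ≤ n') {i p : ℕ} (h : fl n n' p < i) : p ≤ fl n' n i := by
  have hn0 : (0 : ℝ) < n := by exact_mod_cast hn
  have hn0' : (0 : ℝ) < n' := by exact_mod_cast hn'
  have h1 : (p : ℝ) / n * n' < i := by
    have h2 : (p : ℝ) / n * n' < (fl n n' p : ℝ) + 1 := Nat.lt_floor_add_one _
    have h3 : ((fl n n' p : ℕ) : ℝ) + 1 ≤ i := by exact_mod_cast h
    linarith
  have h2 : (p : ℝ) ≤ (i : ℝ) / n' * n := by
    rw [div_mul_eq_mul_div, le_div_iff₀ hn0']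
    calc (p : ℝ) * n' = (p : ℝ) / n * n' * n := by field_simp
      _ ≤ i * n := mul_le_mul_of_nonneg_right h1.le hn0.le
  exact Nat.le_floor h2

end fl

section close

variable {n n' : ℕ} {s : Fin n → Fin 3} {s' : Fin n' → Fin 3} {δ η : ℝ}

lemma curve_nd {n : ℕ} (hn : 1 ≤ n) (s : Fin n → Fin 3) {i : ℕ} (hi : i ≤ n) :
    ∃ u : unitInterval, (u : ℝ) = (i : ℝ) / n ∧ curve s u = pos s i / (size n : ℂ) := by
  have hn0 : (0 : ℝ) < n := by exact_mod_cast hn
  have hu : (i : ℝ) / n ∈ unitInterval := ⟨by positivity, by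
    rw [div_le_one hn0]
    exact_mod_cast hi⟩
  exact ⟨⟨(i : ℝ) / n, hu⟩, rfl, NTSF.Mod.curve_node hn s (a := i) (u := ⟨(i : ℝ) / n, hu⟩) rfl⟩

lemma norm_st (s : Fin n → Fin 3) {i : ℕ} (h : i < n) : ‖pos s (i + 1) - pos s i‖ = 1 := by
  rw [pos_succ s i h, add_sub_cancel_left]
  exact Pool.Agent.CRT.R.norm_step _ _

/-- the vertices at the same time -/
lemma cl_fw (hn : 1 ≤ n) (hn' : 1 ≤ n') (hcl : ∀ t, ‖curve s t - curve s' t‖ ≤ δ) (h2 : δ + 1 / size n' ≤ η) {i : ℕ} (hi : i ≤ n) :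
    ‖pos s i / size n - pos s' (fl n n' i) / size n'‖ ≤ η := by
  have hn0 : (0 : ℝ) < n := by exact_mod_cast hn
  have hs' := NTSF.size_pos hn'
  obtain ⟨u, hu, he⟩ := curve_nd hn s hi
  have h3 := HexObs.SIM.curve_fl hn' s' u
  rw [hu] at h3
  have h4 : ‖curve s' u - pos s' (fl n n' i) / size n'‖ ≤ 1 / size n' := by
    have e : curve s' u - pos s' (fl n n' i) / size n' = (curve s' u * size n' - pos s' (fl n n' i)) / size n' := by
      have : ((size n' : ℝ) : ℂ) ≠ 0 := by exact_mod_cast hs'.ne'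
      field_simp
    rw [e, norm_div, Complex.norm_of_nonneg hs'.le]
    exact div_le_div_of_nonneg_right h3 hs'.le
  have h5 := hcl u
  rw [he] at h5
  calc ‖pos s i / size n - pos s' (fl n n' i) / size n'‖
      = ‖(pos s i / size n - curve s' u) + (curve s' u - pos s' (fl n n' i) / size n')‖ := by ring_nf
    _ ≤ δ + 1 / size n' := (norm_add_le _ _).trans (add_le_add h5 h4)
    _ ≤ η := h2

/-- the vertices of the second walk in a time interval -/
lemma cl_mid (hn : 1 ≤ n) (hn' : 1 ≤ n') (hcl : ∀ t, ‖curve s t - curve s' t‖ ≤ δ) (h1 : δ + 1 / size n ≤ η)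
    (h2 : δ + 2 / size n' ≤ η) {p q : ℕ} (hpq : p ≤ q) (hq : q < n) {i : ℕ} (hi1 : fl n n' p ≤ i) (hi2 : i ≤ fl n n' q + 1) :
    ∃ j, p ≤ j ∧ j ≤ q ∧ ‖pos s j / size n - pos s' i / size n'‖ ≤ η := by
  have hs' := NTSF.size_pos hn'
  have h2' : δ + 1 / size n' ≤ η := by
    refine le_trans ?_ h2
    have : 1 / size n' ≤ 2 / size n' := div_le_div_of_nonneg_right (by norm_num) hs'.le
    linarith
  rcases Nat.eq_or_lt_of_le hi1 with h3 | h3
  · exact ⟨p, le_rfl, hpq, by rw [← h3]; exact cl_fw hn hn' hcl h2' (by omega)⟩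
  · rcases Nat.eq_or_lt_of_le hi2 with h4 | h4
    · refine ⟨q, hpq, le_rfl, ?_⟩
      have hlt := fl_lt hn hn' hq
      have h5 := cl_fw hn hn' hcl (η := δ + 1 / size n') le_rfl hq.le
      have h6 : ‖pos s' (fl n n' q) / size n' - pos s' i / size n'‖ ≤ 1 / size n' := by
        rw [← sub_div, norm_div, Complex.norm_of_nonneg hs'.le, h4, norm_sub_rev, norm_st s' hlt]
      calc ‖pos s q / size n - pos s' i / size n'‖
          = ‖(pos s q / size n - pos s' (fl n n' q) / size n') + (pos s' (fl n n' q) / size n' - pos s' i / size n')‖ := by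
            ring_nf
        _ ≤ (δ + 1 / size n') + 1 / size n' := (norm_add_le _ _).trans (add_le_add h5 h6)
        _ = δ + 2 / size n' := by ring
        _ ≤ η := h2
    · have h5 : i ≤ fl n n' q := by omega
      have h6 : i ≤ n' := h5.trans (fl_le hn hq.le)
      refine ⟨fl n' n i, fl_behind hn hn' h3, fl_before hn hn' h5, ?_⟩
      have h7 := cl_fw (s := s') (s' := s) hn' hn (fun t => by rw [norm_sub_rev]; exact hcl t) h1 h6
      rwa [norm_sub_rev] at h7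

end close

/-- **stability of the start cuts** -/
theorem stabB {n n' : ℕ} (hn : 1 ≤ n) (hn' : 1 ≤ n') {s : Fin n → Fin 3} {s' : Fin n' → Fin 3} {δ η ρ ρB bB G T W b a0 κ0 K : ℝ}
    (hcl : ∀ t, ‖curve s t - curve s' t‖ ≤ δ) (h1 : δ + 1 / size n ≤ η) (h2 : δ + 2 / size n' ≤ η) (hηG : 4 * η ≤ G)
    (hηT : 4 * η ≤ T) (hηb : η ≤ b) (hρ1 : 10 * b ≤ ρB) (hρ2 : ρB + 4 * b ≤ ρ) (ha : 2 * bB + 4 * b ≤ a0) (hbB : 0 ≤ bB) {x0 x1 x2 x3 : ℕ}
    (F : Four s (ρ * size n) (G * size n) (T * size n) (W * size n) (b * size n) x0 x1 x2 x3)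
    (hs0 : ∃ j j' : ℕ, j ≤ x0 ∧ j' ≤ x0 ∧ a0 * size n ≤ ‖pos s j - pos s j'‖)
    (hs1 : ∃ j : ℕ, x3 ≤ j ∧ j ≤ n ∧ a0 * size n ≤ ‖pos s j - pos s x3‖)
    (hc0 : ∀ i : ℕ, i ≤ x3 → ‖pos s i‖ ≤ κ0 * size n) (hcK : κ0 + b ≤ K)
    (hB : ¬ BadK (K * size n') (ρB * size n') (bB * size n') (3 * b * size n') (G / 2 * size n') (T / 4 * size n')
      (W * size n') s') :
    ∃ c' : ℕ, fl n n' x0 < c' ∧ c' ≤ fl n n' x3 ∧ SC ((ρ - 8 * b) * size n') s' c' ∧
      ‖pos s' c' / size n' - pos s x0 / size n‖ ≤ 3 * b := by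
  obtain ⟨S, hS⟩ : ∃ S, S = size n := ⟨_, rfl⟩
  obtain ⟨S', hS'⟩ : ∃ S', S' = size n' := ⟨_, rfl⟩
  have hSp : 0 < S := hS ▸ NTSF.size_pos hn
  have hSp' : 0 < S' := hS' ▸ NTSF.size_pos hn'
  have hδ0 : 0 ≤ δ := (norm_nonneg _).trans (hcl 0)
  have hi2 : 0 < 2 / S' := by positivity
  rw [← hS'] at h2
  have hη0 : 0 < η := by linarith
  have hηS : 2 ≤ η * S' := by
    have h3 : 2 / S' ≤ η := by linarith
    rwa [div_le_iff₀ hSp'] at h3
  have h2' : δ + 1 / size n' ≤ η := by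
    rw [← hS']
    have : 1 / S' ≤ 2 / S' := div_le_div_of_nonneg_right (by norm_num) hSp'.le
    linarith
  have h2'' : δ + 2 / size n' ≤ η := by rwa [← hS']
  have hb0 : 0 < b := by linarith
  -- scaled vertices
  obtain ⟨P, hP⟩ : ∃ P : ℕ → ℂ, P = fun i => pos s i / size n := ⟨_, rfl⟩
  obtain ⟨P', hP'⟩ : ∃ P' : ℕ → ℂ, P' = fun i => pos s' i / size n' := ⟨_, rfl⟩
  have eP : ∀ i, pos s i = P i * S := by
    intro i
    have : ((size n : ℝ) : ℂ) ≠ 0 := by rw [← hS]; exact_mod_cast hSp.ne'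
    rw [hP, hS]
    field_simp
  have eP' : ∀ i, pos s' i = P' i * S' := by
    intro i
    have : ((size n' : ℝ) : ℂ) ≠ 0 := by rw [← hS']; exact_mod_cast hSp'.ne'
    rw [hP', hS']
    field_simp
  have reP : ∀ i, (pos s i).re = (P i).re * S := fun i => by rw [eP, Complex.re_mul_ofReal]
  have reP' : ∀ i, (pos s' i).re = (P' i).re * S' := fun i => by rw [eP', Complex.re_mul_ofReal]
  have nP : ∀ i j, ‖pos s i - pos s j‖ = ‖P i - P j‖ * S := by
    intro i j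
    rw [eP i, eP j, ← sub_mul, norm_mul, Complex.norm_of_nonneg hSp.le]
  have nP' : ∀ i j, ‖pos s' i - pos s' j‖ = ‖P' i - P' j‖ * S' := by
    intro i j
    rw [eP' i, eP' j, ← sub_mul, norm_mul, Complex.norm_of_nonneg hSp'.le]
  have fw : ∀ i, i ≤ n → ‖P i - P' (fl n n' i)‖ ≤ η := by
    intro i hi
    rw [hP, hP']
    exact cl_fw hn hn' hcl h2' hi
  have bk : ∀ i, i ≤ n' → ‖P (fl n' n i) - P' i‖ ≤ η := by
    intro i hi
    rw [hP, hP', norm_sub_rev]
    exact cl_fw (s := s') (s' := s) hn' hn (fun t => by rw [norm_sub_rev]; exact hcl t) h1 hi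
  have mid : ∀ p q : ℕ, p ≤ q → q < n → ∀ i, fl n n' p ≤ i → i ≤ fl n n' q + 1 → ∃ j, p ≤ j ∧ j ≤ q ∧ ‖P j - P' i‖ ≤ η := by
    intro p q hpq hq i hi1 hi2
    rw [hP, hP']
    exact cl_mid hn hn' hcl h1 h2'' hpq hq hi1 hi2
  have reab : ∀ z w : ℂ, |z.re - w.re| ≤ ‖z - w‖ := fun z w => by
    rw [← Complex.sub_re]
    exact Complex.abs_re_le_norm _
  have tri : ∀ x y z : ℂ, ‖x - z‖ ≤ ‖x - y‖ + ‖y - z‖ := fun x y z => norm_sub_le_norm_sub_add_norm_sub x y z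
  -- the hypotheses in the scaled form
  obtain ⟨q01, q12, q23, ⟨-, a0l, a0c⟩, ⟨-, a1l, a1c⟩, ⟨-, a2l, a2c⟩, ⟨-, a3l, a3c⟩, g0, g1, g2, g3, near⟩ := F
  rw [← hS] at g0 g1 g2 g3 a0c a1c a2c a3c near hs0 hs1
  have hx3 : x3 < n := a3c.1
  have G0 : (P x0).re + G ≤ (P x1).re := by
    rw [reP, reP, ← add_mul] at g0
    exact le_of_mul_le_mul_right g0 hSp
  have G1 : (P x1).re + T ≤ (P x2).re := by
    rw [reP, reP, ← add_mul] at g1
    exact le_of_mul_le_mul_right g1 hSp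
  have G2 : (P x2).re ≤ (P x1).re + W := by
    rw [reP, reP, ← add_mul] at g2
    exact le_of_mul_le_mul_right g2 hSp
  have G3 : (P x2).re + G ≤ (P x3).re := by
    rw [reP, reP, ← add_mul] at g3
    exact le_of_mul_le_mul_right g3 hSp
  have N0 : ∀ i, x0 ≤ i → i ≤ x3 → ‖P i - P x0‖ ≤ b := by
    intro i hi1 hi2
    have := near i hi1 hi2
    rw [nP] at this
    exact le_of_mul_le_mul_right this hSp
  have L0 : ∀ x, (∀ i, i ≤ x → (pos s i).re ≤ (pos s x).re) → ∀ i, i ≤ x → (P i).re ≤ (P x).re := by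
    intro x hx i hi
    have := hx i hi
    rw [reP, reP] at this
    exact le_of_mul_le_mul_right this hSp
  have R0 : ∀ x, GC (ρ * S) s x → ∀ i, x ≤ i → i ≤ n → ‖P i - P x‖ ≤ ρ → (P x).re ≤ (P i).re := by
    intro x hx i hi1 hi2 hi3
    rcases Nat.eq_or_lt_of_le hi1 with h3 | h3
    · rw [h3]
    · have h4 := hx.2.2 i h3 hi2 (by rw [nP]; exact mul_le_mul_of_nonneg_right hi3 hSp.le)
      rw [reP, reP] at h4
      have h5 : (P x).re * S ≤ (P i).re * S := by linarith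
      exact le_of_mul_le_mul_right h5 hSp
  -- the level of the pinch
  obtain ⟨y, hy⟩ : ∃ y : ℝ, y = ((P x1).re + (P x2).re) / 2 := ⟨_, rfl⟩
  have hGp : 0 < G := by linarith
  have hTp : 0 < T := by linarith
  have hflm : ∀ {i j : ℕ}, i ≤ j → fl n n' i ≤ fl n n' j := fun h => fl_mono h
  have hk0 : fl n n' x0 ≤ fl n n' x1 := hflm q01
  have hk1 : fl n n' x1 ≤ fl n n' x2 := hflm q12
  have hk2 : fl n n' x2 ≤ fl n n' x3 := hflm q23
  have hlt := fl_lt hn hn' hx3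
  -- the outer part of the second walk
  have out1 : ∀ i, i ≤ fl n n' x0 → (P' i).re ≤ y - (G + T / 2 - η) := by
    intro i hi
    have hin : i ≤ n' := hi.trans (fl_le hn (by omega))
    have h3 := L0 x0 a0l _ (fl_before hn hn' hi)
    have h4 := abs_le.1 ((reab _ _).trans (bk i hin))
    rw [hy]
    linarith [h4.1]
  have hxk : ‖P' (fl n n' x1) - P x0‖ ≤ b + η := by
    have h3 := N0 x1 q01 (by omega)
    have h4 := fw x1 (by omega)
    rw [norm_sub_rev] at h4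
    calc _ ≤ ‖P' (fl n n' x1) - P x1‖ + ‖P x1 - P x0‖ := tri _ _ _
      _ ≤ b + η := by linarith
  have out2 : ∀ i, fl n n' x3 < i → i ≤ n' → ‖P' i - P' (fl n n' x1)‖ ≤ ρ - 4 * b → y + (G + T / 2 - η) ≤ (P' i).re := by
    intro i hi hin hd
    have h3 := bk i hin
    have h4 := fl_behind hn hn' hi
    have h5 : fl n' n i ≤ n := fl_le hn' hin
    have h6 : ‖P (fl n' n i) - P x3‖ ≤ ρ := by
      have e1 := tri (P (fl n' n i)) (P' i) (P x3)
      have e2 := tri (P' i) (P' (fl n n' x1)) (P x3)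
      have e3 := tri (P' (fl n n' x1)) (P x0) (P x3)
      have e4 := N0 x3 (by omega) le_rfl
      rw [norm_sub_rev] at e4
      linarith
    have h7 := R0 x3 a3c _ h4 h5 h6
    have h8 := abs_le.1 ((reab _ _).trans h3)
    rw [hy]
    linarith [h8.2]
  have inn : ∀ i, fl n n' x0 ≤ i → i ≤ fl n n' x3 + 1 → ‖P' i - P x0‖ ≤ b + η := by
    intro i hi1 hi2
    obtain ⟨j, j1, j2, j3⟩ := mid x0 x3 (by omega) hx3 i hi1 hi2
    have h3 := N0 j j1 j2
    rw [norm_sub_rev] at j3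
    calc _ ≤ ‖P' i - P j‖ + ‖P j - P x0‖ := tri _ _ _
      _ ≤ b + η := by linarith
  have cnf : ∀ i, i ≤ fl n n' x3 + 1 → ‖pos s' i‖ ≤ K * S' := by
    intro i hi
    have hfl0 : fl n n' 0 = 0 := by simp [fl]
    obtain ⟨j, -, j2, j3⟩ := mid 0 x3 (Nat.zero_le _) hx3 i (by omega) hi
    have h3 := hc0 j j2
    rw [← hS, eP, norm_mul, Complex.norm_of_nonneg hSp.le] at h3
    have h4 := le_of_mul_le_mul_right h3 hSp
    rw [eP', norm_mul, Complex.norm_of_nonneg hSp'.le]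
    refine mul_le_mul_of_nonneg_right ?_ hSp'.le
    have h5 : ‖P' i‖ ≤ ‖P j‖ + ‖P j - P' i‖ := by
      have h6 := norm_add_le (P j) (-(P j - P' i))
      rw [norm_neg] at h6
      calc ‖P' i‖ = ‖P j + -(P j - P' i)‖ := by ring_nf
        _ ≤ _ := h6
    linarith
  -- the pinch
  have hpin : PnW (ρB * S') s' (fl n n' x0) (fl n n' x1) (fl n n' x2 + 1) (fl n n' x3 + 1) (y * S') (G / 2 * S')
      (3 * b * S') (T / 4 * S') (W * S') := by
    refine ⟨hk0, by omega, by omega, by omega, ?_, ?_, ?_, ?_, ?_, ?_⟩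
    · intro i hi _
      have h3 := out1 i hi
      rw [reP', ← sub_mul]
      exact mul_le_mul_of_nonneg_right (by linarith) hSp'.le
    · intro i hi1 hi2
      have h3 := inn i hi1 hi2
      have h4 := abs_le.1 ((reab _ _).trans h3)
      have h5 := abs_le.1 ((reab _ _).trans (N0 x1 q01 (by omega)))
      have h6 := abs_le.1 ((reab _ _).trans (N0 x2 (by omega) q23))
      rw [reP', ← sub_mul, abs_mul, abs_of_pos hSp']
      refine mul_le_mul_of_nonneg_right ?_ hSp'.le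
      rw [abs_le, hy]
      constructor <;> linarith [h4.1, h4.2, h5.1, h5.2, h6.1, h6.2]
    · intro i hi1 hi2 hd
      rw [nP'] at hd
      have h3 := out2 i (by omega) hi2 ((le_of_mul_le_mul_right hd hSp').trans (by linarith))
      rw [reP', ← add_mul]
      exact mul_le_mul_of_nonneg_right (by linarith) hSp'.le
    · intro i hi _
      have hin : i ≤ n' := hi.trans (fl_le hn (by omega))
      have h3 := L0 x1 a1l _ (fl_before hn hn' hi)
      have h4 := abs_le.1 ((reab _ _).trans (bk i hin))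
      rw [reP', ← sub_mul]
      refine mul_le_mul_of_nonneg_right ?_ hSp'.le
      rw [hy]
      linarith [h4.1]
    · intro i hi1 hi2
      obtain ⟨j, j1, j2, j3⟩ := mid x1 x2 q12 (by omega) i hi1 hi2
      have h3 : ‖P j - P x1‖ ≤ ρ := by
        have e1 := tri (P j) (P x0) (P x1)
        have e2 := N0 j (by omega) (by omega)
        have e3 := N0 x1 q01 (by omega)
        rw [norm_sub_rev] at e3
        linarith
      have h4 := R0 x1 a1c j j1 (by omega) h3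
      have h5 := L0 x2 a2l j j2
      have h6 := abs_le.1 ((reab _ _).trans j3)
      rw [reP', ← sub_mul, abs_mul, abs_of_pos hSp']
      refine mul_le_mul_of_nonneg_right ?_ hSp'.le
      rw [abs_le, hy]
      constructor <;> linarith [h6.1, h6.2]
    · intro i hi1 hi2 hd
      rw [nP'] at hd
      have hd' := le_of_mul_le_mul_right hd hSp'
      have h3 := bk i hi2
      have h4 := fl_behind hn hn' (show fl n n' x2 < i by omega)
      have h5 : fl n' n i ≤ n := fl_le hn' hi2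
      have h6 : ‖P (fl n' n i) - P x2‖ ≤ ρ := by
        have e1 := tri (P (fl n' n i)) (P' i) (P x2)
        have e2 := tri (P' i) (P' (fl n n' x1)) (P x2)
        have e3 := tri (P' (fl n n' x1)) (P x0) (P x2)
        have e4 := N0 x2 (by omega) q23
        rw [norm_sub_rev] at e4
        linarith
      have h7 := R0 x2 a2c _ h4 h5 h6
      have h8 := abs_le.1 ((reab _ _).trans h3)
      rw [reP', ← add_mul]
      refine mul_le_mul_of_nonneg_right ?_ hSp'.le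
      rw [hy]
      linarith [h8.2]
  -- the beginning
  have hbeg : ∃ j : ℕ, j ≤ fl n n' x0 ∧ bB * S' ≤ ‖pos s' j - pos s' (fl n n' x0)‖ := by
    obtain ⟨j, j', e1, e2, e3⟩ := hs0
    rw [nP] at e3
    have e3' := le_of_mul_le_mul_right e3 hSp
    have e4 := tri (P j) (P x0) (P j')
    have key : ∀ i, i ≤ x0 → a0 / 2 ≤ ‖P i - P x0‖ → ∃ j : ℕ, j ≤ fl n n' x0 ∧ bB * S' ≤ ‖pos s' j - pos s' (fl n n' x0)‖ := by
      intro i hi hd
      refine ⟨fl n n' i, hflm hi, ?_⟩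
      rw [nP']
      refine mul_le_mul_of_nonneg_right ?_ hSp'.le
      have f1 := fw i (by omega)
      have f2 := fw x0 (by omega)
      rw [norm_sub_rev] at f2
      have e5 := tri (P i) (P' (fl n n' i)) (P x0)
      have e6 := tri (P' (fl n n' i)) (P' (fl n n' x0)) (P x0)
      linarith
    rcases le_or_gt (a0 / 2) ‖P j - P x0‖ with h3 | h3
    · exact key j e1 h3
    · refine key j' e2 ?_
      rw [norm_sub_rev]
      linarith
  -- the end
  have hend : ∃ j : ℕ, fl n n' x3 + 1 ≤ j ∧ j ≤ n' ∧ bB * S' ≤ ‖pos s' j - pos s' (fl n n' x3 + 1)‖ := by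
    obtain ⟨j, e1, e2, e3⟩ := hs1
    rw [nP] at e3
    have e3' := le_of_mul_le_mul_right e3 hSp
    have f1 := fw j e2
    have f2 : ‖P x3 - P' (fl n n' x3 + 1)‖ ≤ η := by
      obtain ⟨i, i1, i2, i3⟩ := mid x3 x3 le_rfl hx3 (fl n n' x3 + 1) (by omega) le_rfl
      have : i = x3 := by omega
      rwa [this] at i3
    have f3 := fw x3 hx3.le
    have e5 := tri (P j) (P' (fl n n' j)) (P x3)
    refine ⟨fl n n' j, ?_, fl_le hn e2, ?_⟩
    · rcases Nat.eq_or_lt_of_le (hflm e1) with h3 | h3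
      · exfalso
        rw [← h3] at f1 e5
        rw [norm_sub_rev] at f3
        linarith
      · exact h3
    · rw [nP']
      refine mul_le_mul_of_nonneg_right ?_ hSp'.le
      have e6 := tri (P' (fl n n' j)) (P' (fl n n' x3 + 1)) (P x3)
      rw [norm_sub_rev] at f2
      linarith
  -- the cut
  rw [← hS'] at hB
  have hcut : ∃ i, WC (ρB * S' / 2) s' i ∧ ‖pos s' i - pos s' (fl n n' x1)‖ ≤ ρB * S' / 4 ∧
      |(pos s' i).re - y * S'| ≤ G / 2 * S' := by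
    by_contra hcon
    refine hB ⟨_, _, _, _, _, cnf, hpin, hbeg, ?_, fun i h3 h4 => ?_⟩
    · obtain ⟨j, j1, j2, j3⟩ := hend
      exact ⟨j, j1, j2, j3⟩
    · by_contra h5
      exact hcon ⟨i, h3, h4, not_lt.1 h5⟩
  obtain ⟨c, hc, hcd, hcl2⟩ := hcut
  obtain ⟨w1, w2, w3, w4, w5⟩ := hc
  rw [nP'] at hcd
  have hcd' : ‖P' c - P' (fl n n' x1)‖ ≤ ρB / 4 := by
    have : ‖P' c - P' (fl n n' x1)‖ * S' ≤ ρB / 4 * S' := by linarith
    exact le_of_mul_le_mul_right this hSp'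
  have hcl3 : |(P' c).re - y| ≤ G / 2 := by
    rw [reP', ← sub_mul, abs_mul, abs_of_pos hSp'] at hcl2
    exact le_of_mul_le_mul_right hcl2 hSp'
  have hcl4 := abs_le.1 hcl3
  have hc1 : fl n n' x0 < c := by
    by_contra h3
    have := out1 c (not_lt.1 h3)
    linarith [hcl4.1]
  have hc2 : c ≤ fl n n' x3 := by
    by_contra h3
    have := out2 c (not_le.1 h3) w1.le (by linarith)
    linarith [hcl4.2]
  have hcn := inn c hc1.le (by omega)
  -- near vertices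
  have hnear : ∀ i, fl n n' x0 ≤ i → i ≤ fl n n' x3 + 1 → ‖pos s' i - (pos s' c + 1 / 2)‖ ≤ ρB * S' / 2 := by
    intro i hi1 hi2
    have h3 := inn i hi1 hi2
    have h4 : ‖P' i - P' c‖ ≤ 2 * b + 2 * η := by
      have e1 := tri (P' i) (P x0) (P' c)
      rw [norm_sub_rev (P x0) (P' c)] at e1
      linarith
    calc ‖pos s' i - (pos s' c + 1 / 2)‖ = ‖(pos s' i - pos s' c) - 1 / 2‖ := by ring_nf
      _ ≤ ‖pos s' i - pos s' c‖ + ‖(1 / 2 : ℂ)‖ := norm_sub_le _ _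
      _ ≤ (2 * b + 2 * η) * S' + 1 / 2 := by
          rw [Pool.Agent.CRT.R.norm_half, nP']
          have := mul_le_mul_of_nonneg_right h4 hSp'.le
          linarith
      _ ≤ ρB * S' / 2 := by
          have h5 : (2 * b + 2 * η) * S' + η * S' ≤ ρB / 2 * S' := by
            rw [← add_mul]
            exact mul_le_mul_of_nonneg_right (by linarith) hSp'.le
          linarith
  refine ⟨c, hc1, hc2, ⟨w2, ?_, w1, w3, ?_⟩, ?_⟩
  · intro i hi
    rcases le_or_gt i (fl n n' x0) with h3 | h3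
    · rw [reP', reP']
      refine mul_le_mul_of_nonneg_right ?_ hSp'.le
      have := out1 i h3
      linarith [hcl4.1]
    · exact w4 i hi (hnear i h3.le (by omega))
  · intro i hi hin hd
    rcases le_or_gt i (fl n n' x3) with h3 | h3
    · exact w5 i hi hin (hnear i (by omega) (by omega))
    · rw [← hS', nP'] at hd
      have hd' := le_of_mul_le_mul_right hd hSp'
      have h4 := out2 i h3 hin (by
        have e1 := tri (P' i) (P' c) (P' (fl n n' x1))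
        have e2 := tri (P' c) (P x0) (P' (fl n n' x1))
        rw [norm_sub_rev (P x0)] at e2
        linarith)
      have h5 : (P' c).re + η ≤ (P' i).re := by linarith [hcl4.2]
      have h6 := mul_le_mul_of_nonneg_right h5 hSp'.le
      rw [add_mul] at h6
      rw [reP', reP']
      linarith
  · have : ‖P' c - P x0‖ ≤ 3 * b := by linarith
    rw [hP, hP'] at this
    exact this

lemma sc_mono {n : ℕ} {s : Fin n → Fin 3} {ρ ρ' : ℝ} {k : ℕ} (h : SC ρ s k) (hρ : ρ' ≤ ρ) : SC ρ' s k :=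
  ⟨h.1, h.2.1, h.2.2.1, h.2.2.2.1, fun j h1 h2 h3 => h.2.2.2.2 j h1 h2 (h3.trans hρ)⟩

/-- the four start cuts around `c`, with the beginning, the end and the confinement (lengths in units of the size) -/
def FourAt {n : ℕ} (s : Fin n → Fin 3) (ρ G T W b a0 κ0 : ℝ) (c : ℕ) : Prop :=
  ∃ x0 x1 x2 x3 : ℕ, Four s (ρ * size n) (G * size n) (T * size n) (W * size n) (b * size n) x0 x1 x2 x3 ∧ x0 ≤ c ∧ c ≤ x3 ∧
    DmG (a0 * size n) s x0 ∧ (∃ j : ℕ, x3 ≤ j ∧ j ≤ n ∧ a0 * size n ≤ ‖pos s j - pos s x3‖) ∧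
    ∀ i : ℕ, i ≤ x3 → ‖pos s i‖ ≤ κ0 * size n

/-- **stability of all start cuts** -/
theorem stb_of {n n' : ℕ} (hn : 1 ≤ n) (hn' : 1 ≤ n') {s : Fin n → Fin 3} {s' : Fin n' → Fin 3}
    {δ η R θ d ρB bB G T W b a0 κ0 K : ℝ}
    (hcl : ∀ t, ‖curve s t - curve s' t‖ ≤ δ) (h1 : δ + 1 / size n ≤ η) (h2 : δ + 2 / size n' ≤ η) (hηG : 4 * η ≤ G)
    (hηT : 4 * η ≤ T) (hηb : η ≤ b) (hρ1 : 10 * b ≤ ρB) (hρ2 : ρB + 4 * b + d ≤ 40 * R) (ha : 2 * bB + 4 * b ≤ a0) (hbB : 0 ≤ bB) (hcK : κ0 + b ≤ K)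
    (hθ : d + 8 * b ≤ θ) (hd : 0 ≤ d)
    (hA : ∀ (ρ : ℝ) (c : ℕ), 40 * R ≤ ρ → ρ ≤ 130 * R → SC (ρ * size n) s c → (∀ i : ℕ, i ≤ c → ‖pos s i‖ ≤ 4 * R * size n) →
      DmG (R / 8 * size n) s c → FourAt s (ρ - d) G T W b a0 κ0 c)
    (hT : Tms θ b s)
    (hB : ¬ BadK (K * size n') (ρB * size n') (bB * size n') (3 * b * size n') (G / 2 * size n') (T / 4 * size n')
      (W * size n') s') : Stb R θ s s' := by
  intro ρ c hρ hρ' hc hcf hdm
  obtain ⟨x0, x1, x2, x3, F, hx0, hx3, hs0, hs1, hc0⟩ := hA ρ c hρ hρ' hc hcf hdm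
  have hδ0 : 0 ≤ δ := (norm_nonneg _).trans (hcl 0)
  have hSp := NTSF.size_pos hn
  have hSp' := NTSF.size_pos hn'
  have hb0 : 0 < b := by
    have : 0 < 2 / size n' := by positivity
    linarith
  obtain ⟨c', c1, c2, c3, c4⟩ := stabB hn hn' hcl h1 h2 hηG hηT hηb hρ1 (by linarith) ha hbB F
    (by obtain ⟨i, j, a1, a2, a3⟩ := hs0; exact ⟨i, j, a1, a2, a3⟩) hs1 hc0 hcK hB
  have hn0 : (0 : ℝ) < n := by exact_mod_cast hn
  have hn0' : (0 : ℝ) < n' := by exact_mod_cast hn'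
  have hx3n : x3 < n := F.c3.2.2.1
  have hcn : c ≤ n := by omega
  refine ⟨c', sc_mono c3 (mul_le_mul_of_nonneg_right (by linarith) hSp'.le), ?_, ?_⟩
  · have t1 : ((x3 : ℕ) : ℝ) - x0 ≤ θ * n := by
      refine hT x0 x3 (by omega) hx3n.le fun l l1 l2 => ?_
      rw [← Complex.sub_re]
      exact (Complex.abs_re_le_norm _).trans (F.near l l1 l2)
    have t2 : (x0 : ℝ) / n ≤ (c' : ℝ) / n' := by
      have e1 : (x0 : ℝ) / n * n' < (fl n n' x0 : ℝ) + 1 := Nat.lt_floor_add_one _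
      have e2 : ((fl n n' x0 : ℕ) : ℝ) + 1 ≤ c' := by exact_mod_cast c1
      rw [le_div_iff₀ hn0']
      linarith
    have t3 : (c' : ℝ) / n' ≤ (x3 : ℝ) / n := by
      have e1 : ((fl n n' x3 : ℕ) : ℝ) ≤ (x3 : ℝ) / n * n' := Nat.floor_le (by positivity)
      have e2 : (c' : ℝ) ≤ ((fl n n' x3 : ℕ) : ℝ) := by exact_mod_cast c2
      rw [div_le_iff₀ hn0']
      linarith
    have t4 : (x0 : ℝ) / n ≤ (c : ℝ) / n := by
      have : (x0 : ℝ) ≤ c := by exact_mod_cast hx0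
      gcongr
    have t5 : (c : ℝ) / n ≤ (x3 : ℝ) / n := by
      have : (c : ℝ) ≤ x3 := by exact_mod_cast hx3
      gcongr
    have t6 : (x3 : ℝ) / n - (x0 : ℝ) / n ≤ θ := by
      rw [← sub_div, div_le_iff₀ hn0]
      exact t1
    rw [abs_le]
    constructor <;> linarith
  · have e1 : ‖pos s c / (size n : ℂ) - pos s x0 / (size n : ℂ)‖ ≤ b := by
      rw [← sub_div, norm_div, Complex.norm_of_nonneg hSp.le, div_le_iff₀ hSp]
      exact F.near c hx0 hx3
    rw [norm_sub_rev] at c4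
    calc ‖pos s c / (size n : ℂ) - pos s' c' / (size n' : ℂ)‖
        ≤ ‖pos s c / (size n : ℂ) - pos s x0 / (size n : ℂ)‖ + ‖pos s x0 / (size n : ℂ) - pos s' c' / (size n' : ℂ)‖ :=
          norm_sub_le_norm_sub_add_norm_sub _ _ _
      _ ≤ θ := by linarith

end Pool.Agent.SCF.M
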