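import Pool.Agent.SCF.ExIso
import Pool.Agent.SCF.StabB

/-!
# ScaleFlow, row EXN (helper16): the pinches `BadK` near the start are local
-/

set_option autoImplicit false

open Set Filter Topology MeasureTheory
open scoped Classical

namespace Pool.Agent.SCF.K

open Pool.Agent.NTS.Res
open Pool.Agent.CRT.R (WC)
open Pool.Agent.SCF (Loc exn_zc)
open Pool.Agent.SCF.M (PnW BadK)
open Pool.Agent.CRT.V (msum)
open Pool.Agent.CRT.V.VC (pr)

/-- a pinch near the start is decided by the first `j` steps -/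
theorem badK_tk {n : ℕ} {C K ρ b E m h w : ℝ} {s : Fin n → Fin 3} {j : ℕ} (hj : j ≤ n) (hO : Out C s j) (hK : 0 ≤ K)
    (hρ : 0 ≤ ρ) (hC : K + ρ + 1 ≤ C) (hb : K + b ≤ C) : BadK K ρ b E m h w (tk s j) ↔ BadK K ρ b E m h w s := by
  have hp : ∀ i, i ≤ j → pos (tk s j) i = pos s i := fun i hi => pos_tk s hj hi
  -- a time near `w_k0` is before `j`
  have near : ∀ i k0 : ℕ, i ≤ n → ‖pos s k0‖ ≤ K → ‖pos s i - pos s k0‖ ≤ ρ → i < j := by
    intro i k0 hi hk hd
    refine hO.lt (R := K + ρ) hi ?_ (by linarith)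
    calc ‖pos s i‖ = ‖(pos s i - pos s k0) + pos s k0‖ := by ring_nf
      _ ≤ ‖pos s i - pos s k0‖ + ‖pos s k0‖ := norm_add_le _ _
      _ ≤ K + ρ := by linarith
  constructor
  · rintro ⟨p1, k0, k1, p2, y, hK1, ⟨a1, a2, a3, a4, a5, a6, a7, a8, a9, a10⟩, ⟨i1, hi1, hi1'⟩, ⟨i2, hi2, hi2', hi2''⟩, hW⟩
    have hk0 : ‖pos s k0‖ ≤ K := by
      have := hK1 k0 (by omega)
      rwa [hp k0 (by omega)] at this
    refine ⟨p1, k0, k1, p2, y, fun i hi => ?_, ⟨a1, a2, a3, by omega, fun i hi hn => ?_, fun i h1 h2 => ?_, fun i h1 h2 hn => ?_,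
      fun i hi hn => ?_, fun i h1 h2 => ?_, fun i h1 h2 hn => ?_⟩, ⟨i1, hi1, ?_⟩, ⟨i2, hi2, by omega, ?_⟩, fun i hi hd => ?_⟩
    · have := hK1 i hi
      rwa [hp i (by omega)] at this
    · have := a5 i hi
      rw [hp i (by omega), hp k0 (by omega)] at this
      exact this hn
    · have := a6 i h1 h2
      rwa [hp i (by omega)] at this
    · have hij := near i k0 h2 hk0 hn
      have := a7 i h1 hij.le
      rw [hp i hij.le, hp k0 (by omega)] at this
      exact this hn
    · have := a8 i hi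
      rw [hp i (by omega), hp k0 (by omega)] at this
      exact this hn
    · have := a9 i h1 h2
      rwa [hp i (by omega)] at this
    · have hij := near i k0 h2 hk0 hn
      have := a10 i h1 hij.le
      rw [hp i hij.le, hp k0 (by omega)] at this
      exact this hn
    · rwa [hp i1 (by omega), hp p1 (by omega)] at hi1'
    · rwa [hp i2 (by omega), hp p2 (by omega)] at hi2''
    · have hij : i < j := near i k0 hi.1.le hk0 (hd.trans (by linarith))
      have hni : ‖pos s i‖ ≤ K + ρ / 4 := by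
        calc ‖pos s i‖ = ‖(pos s i - pos s k0) + pos s k0‖ := by ring_nf
          _ ≤ ‖pos s i - pos s k0‖ + ‖pos s k0‖ := norm_add_le _ _
          _ ≤ K + ρ / 4 := by linarith
      have := hW i ((wc_tk hj hO hij (by linarith)).2 hi)
      rw [hp i hij.le, hp k0 (by omega)] at this
      exact this hd
  · rintro ⟨p1, k0, k1, p2, y, hK1, ⟨a1, a2, a3, a4, a5, a6, a7, a8, a9, a10⟩, ⟨i1, hi1, hi1'⟩, ⟨i2, hi2, hi2', hi2''⟩, hW⟩
    have hk0 : ‖pos s k0‖ ≤ K := hK1 k0 (by omega)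
    have hp2 : p2 < j := hO.lt a4 (hK1 p2 le_rfl) (by linarith)
    refine ⟨p1, k0, k1, p2, y, fun i hi => ?_, ⟨a1, a2, a3, hp2.le, fun i hi hn => ?_, fun i h1 h2 => ?_, fun i h1 h2 hn => ?_,
      fun i hi hn => ?_, fun i h1 h2 => ?_, fun i h1 h2 hn => ?_⟩, ⟨i1, hi1, ?_⟩, ⟨j, hp2.le, le_rfl, ?_⟩, fun i hi hd => ?_⟩
    · rw [hp i (by omega)]
      exact hK1 i hi
    · rw [hp i (by omega), hp k0 (by omega)] at hn
      rw [hp i (by omega)]
      exact a5 i hi hn
    · rw [hp i (by omega)]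
      exact a6 i h1 h2
    · rw [hp i h2, hp k0 (by omega)] at hn
      rw [hp i h2]
      exact a7 i h1 (by omega) hn
    · rw [hp i (by omega), hp k0 (by omega)] at hn
      rw [hp i (by omega)]
      exact a8 i hi hn
    · rw [hp i (by omega)]
      exact a9 i h1 h2
    · rw [hp i h2, hp k0 (by omega)] at hn
      rw [hp i h2]
      exact a10 i h1 (by omega) hn
    · rw [hp i1 (by omega), hp p1 (by omega)]
      exact hi1'
    · rw [hp j le_rfl, hp p2 hp2.le]
      have h1 := hO j le_rfl hj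
      have h2 := hK1 p2 le_rfl
      have h3 := norm_sub_norm_le (pos s j) (pos s p2)
      linarith
    · have hij : i < j := hi.1
      rw [hp i hij.le, hp k0 (by omega)] at hd
      rw [hp i hij.le]
      have hni : ‖pos s i‖ ≤ K + ρ / 4 := by
        calc ‖pos s i‖ = ‖(pos s i - pos s k0) + pos s k0‖ := by ring_nf
          _ ≤ ‖pos s i - pos s k0‖ + ‖pos s k0‖ := norm_add_le _ _
          _ ≤ K + ρ / 4 := by linarith
      exact hW i ((wc_tk hj hO hij (by linarith)).1 hi) hd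

/-- the pinches near the start are local -/
theorem badK_loc {D K ρ b E m h w : ℝ} {j : ℕ} (hK : 0 ≤ K) (hρ : 0 ≤ ρ) (hC : K + ρ + 1 ≤ D) (hb : K + b ≤ D) :
    Loc (fun _ s => BadK K ρ b E m h w s) D j := by
  intro m' s h _ hfar
  show BadK K ρ b E m _ w s ↔ BadK K ρ b E m _ w (Pool.Agent.SCF.tk s j h)
  rw [tk_eq s h]
  exact (badK_tk h (fun i h1 h2 => (hfar i h1 h2).le) hK hρ hC hb).symm

/-- **from the mean to every exact number of steps, for the pinches near the start**; `d`, `ε'` only depend on `κ`, `c`, `ε` -/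
theorem badK_exact {κ c ε : ℝ} (hκ : 0 < κ) (hκ1 : κ < 1) (hc : 0 < c) (hε : 0 < ε) : ∃ d ε' : ℝ, 0 < d ∧ 0 < ε' ∧
    ∀ K ρ b E m h w : ℝ, 0 ≤ K → 0 < ρ → b ≤ ρ → 4 * (K + ρ) < c →
      (∃ N0 : ℕ, ∀ N : ℕ, N0 ≤ N → msum (fun _ s => BadK (K * size N) (ρ * size N) (b * size N) (E * size N) (m * size N)
        (h * size N) (w * size N) s) 1 (1 + d) N ≤ ε' * N) →
        ∃ N0 : ℕ, ∀ N : ℕ, N0 ≤ N → pr N (fun s => BadK (K * size N) (ρ * size N) (b * size N) (E * size N) (m * size N)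
          (h * size N) (w * size N) s ∧ 0 < Z.zc κ c (curve s)) ≤ ε := by
  obtain ⟨d, ε', hd, hε', h1⟩ := exact_fam hκ hκ1 hc hε
  refine ⟨d, ε', hd, hε', fun K ρ b E m h w hK hρ hbρ hcc hm => ?_⟩
  refine h1 (fun N _ s => BadK (K * size N) (ρ * size N) (b * size N) (E * size N) (m * size N) (h * size N) (w * size N) s) hm ?_
  obtain ⟨η, hη⟩ : ∃ η : ℝ, η = c / 4 - (K + ρ) := ⟨_, rfl⟩
  have hη0 : 0 < η := by linarith
  obtain ⟨N1, hN1⟩ := size_big hη0 1
  refine ⟨max N1 1, fun N hN j => ?_⟩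
  have hs := NTSF.size_pos ((le_max_right _ _).trans hN)
  have h1 := hN1 N ((le_max_left _ _).trans hN)
  have h3 : c / 4 * size N = η * size N + K * size N + ρ * size N := by rw [hη]; ring
  have h4 : b * size N ≤ ρ * size N := mul_le_mul_of_nonneg_right hbρ hs.le
  exact badK_loc (by positivity) (by positivity) (by linarith) (by linarith)

end Pool.Agent.SCF.K
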