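import Pool.Agent.SCF.TkLoc
import Pool.Agent.SCF.ExZ

/-!
# ScaleFlow, rows VPerfV + EXN (helper16): **`isoN`**, no window cut near the start is isolated, every EXACT number of steps
-/

set_option autoImplicit false

open Set Filter Topology MeasureTheory
open scoped Classical

namespace Pool.Agent.SCF.K

open Pool.Agent.NTS.Res
open Pool.Agent.CRT.V (msum)
open Pool.Agent.CRT.V.VC (pr)
open Pool.Agent.CRT.R (WC)
open Pool.Agent.CRT.R.G (IsoG)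
open Pool.Agent.SCF (Loc exn_zc)

lemma tk_eq {n : ℕ} (s : Fin n → Fin 3) {j : ℕ} (h : j ≤ n) : Pool.Agent.SCF.tk s j h = tk s j := by
  funext i
  unfold Pool.Agent.SCF.tk tk
  rw [dif_pos (show (i : ℕ) < n by omega)]

/-- the isolated window cuts near the start are local -/
theorem iso_loc {D R ρ ρ1 cc E T : ℝ} {j : ℕ} (hR : 0 ≤ R) (hcc : 0 ≤ cc) (hρ : 0 ≤ ρ) (hρ1 : 0 ≤ ρ1) (hC : R + ρ + 1 ≤ D)
    (hC1 : R + cc + ρ1 + 1 ≤ D) : Loc (fun _ s => IsoR R ρ ρ1 cc E T s) D j := by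
  intro m s h _ hfar
  show IsoR R ρ ρ1 cc E T s ↔ IsoR R ρ ρ1 cc E T (Pool.Agent.SCF.tk s j h)
  rw [tk_eq s h]
  exact (isoR_tk h (fun i h1 h2 => (hfar i h1 h2).le) hR hcc hC hC1 hρ1 hρ).symm

lemma msum_mono {B B' : ∀ n : ℕ, (Fin n → Fin 3) → Prop} (h : ∀ n s, B n s → B' n s) (x1 x2 : ℝ) (N : ℕ) :
    msum B x1 x2 N ≤ msum B' x1 x2 N := by
  unfold msum
  refine Finset.sum_le_sum fun n _ => div_le_div_of_nonneg_right ?_ (Nat.cast_nonneg _)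
  refine Nat.cast_le.2 (Finset.card_le_card fun s hs => ?_)
  rw [Finset.mem_filter] at hs ⊢
  exact ⟨hs.1, h n s hs.2⟩

/-- from the mean to every exact number of steps, for families of local events; `d`, `ε'` do not depend on the family -/
theorem exact_fam {κ c ε : ℝ} (hκ : 0 < κ) (hκ1 : κ < 1) (hc : 0 < c) (hε : 0 < ε) : ∃ d ε' : ℝ, 0 < d ∧ 0 < ε' ∧
    ∀ Q : ℕ → ∀ n : ℕ, (Fin n → Fin 3) → Prop, (∃ N0 : ℕ, ∀ N : ℕ, N0 ≤ N → msum (Q N) 1 (1 + d) N ≤ ε' * N) →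
      (∃ N0 : ℕ, ∀ N : ℕ, N0 ≤ N → ∀ j : ℕ, Loc (Q N) (c / 4 * size N) j) →
        ∃ N0 : ℕ, ∀ N : ℕ, N0 ≤ N → pr N (fun s => Q N N s ∧ 0 < Z.zc κ c (curve s)) ≤ ε := by
  obtain ⟨d, hd, h1⟩ := exn_zc (ε := ε / 2) (by positivity) hκ hκ1 hc
  obtain ⟨N1, hN1⟩ := h1 d hd le_rfl
  refine ⟨d, ε / 2 * d, hd, by positivity, ?_⟩
  rintro Q ⟨N2, h2⟩ ⟨N3, h3⟩
  refine ⟨max (max N1 N2) (max N3 1), fun N hN => ?_⟩
  have hNa : N1 ≤ N := (le_max_left _ _).trans ((le_max_left _ _).trans hN)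
  have hNb : N2 ≤ N := (le_max_right _ _).trans ((le_max_left _ _).trans hN)
  have hNc : N3 ≤ N := (le_max_left _ _).trans ((le_max_right _ _).trans hN)
  have hNd : 1 ≤ N := (le_max_right _ _).trans ((le_max_right _ _).trans hN)
  have hNr : (0 : ℝ) < N := by exact_mod_cast hNd
  refine (hN1 N (Q N) hNa (fun j _ => h3 N hNc j)).trans ?_
  have h4 := h2 N hNb
  have h5 : msum (Q N) 1 (1 + d) N / (d * N) ≤ ε / 2 := by
    rw [div_le_iff₀ (by positivity)]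
    linarith
  linarith

/-- the same, with one parameter -/
theorem exact_of {P : ℝ → ℕ → ∀ n : ℕ, (Fin n → Fin 3) → Prop} {κ c : ℝ} (hκ : 0 < κ) (hκ1 : κ < 1) (hc : 0 < c)
    (hm : ∀ ε x2 : ℝ, 0 < ε → 1 < x2 → ∃ t : ℝ, 0 < t ∧ ∃ N0 : ℕ, ∀ N : ℕ, N0 ≤ N → msum (P t N) 1 x2 N ≤ ε * N)
    (hl : ∀ t : ℝ, 0 < t → ∃ N0 : ℕ, ∀ N : ℕ, N0 ≤ N → ∀ j : ℕ, Loc (P t N) (c / 4 * size N) j) {ε : ℝ} (hε : 0 < ε) :
    ∃ t : ℝ, 0 < t ∧ ∃ N0 : ℕ, ∀ N : ℕ, N0 ≤ N → pr N (fun s => P t N N s ∧ 0 < Z.zc κ c (curve s)) ≤ ε := by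
  obtain ⟨d, ε', hd, hε', h⟩ := exact_fam hκ hκ1 hc hε
  obtain ⟨t, ht, h2⟩ := hm ε' (1 + d) hε' (by linarith)
  exact ⟨t, ht, h (P t) h2 (hl t ht)⟩

/-- `η * size N` is large -/
lemma size_big {η : ℝ} (hη : 0 < η) (A : ℝ) : ∃ N0 : ℕ, ∀ N : ℕ, N0 ≤ N → A ≤ η * size N := by
  obtain ⟨cs, Cs, hcs, hsz, -⟩ := NTSF.finE
  have hlim : Filter.Tendsto (fun N : ℕ => (N : ℝ) ^ (3 / 4 : ℝ)) Filter.atTop Filter.atTop :=
    (tendsto_rpow_atTop (by norm_num : (0 : ℝ) < 3 / 4)).comp tendsto_natCast_atTop_atTop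
  obtain ⟨N1, hN1⟩ := Filter.eventually_atTop.1 (hlim.eventually_ge_atTop (A / (η * cs)))
  refine ⟨max N1 1, fun N hN => ?_⟩
  have hNa : N1 ≤ N := (le_max_left _ _).trans hN
  have hN1' : 1 ≤ N := (le_max_right _ _).trans hN
  have h2 := hN1 N hNa
  rw [div_le_iff₀ (by positivity)] at h2
  calc A ≤ (N : ℝ) ^ (3 / 4 : ℝ) * (η * cs) := h2
    _ = η * (cs * (N : ℝ) ^ (3 / 4 : ℝ)) := by ring
    _ ≤ _ := mul_le_mul_of_nonneg_left (hsz N hN1').1 hη.le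

/-- **no window cut near the start is isolated**, exact number of steps -/
theorem isoN {ε κ c R' r b e : ℝ} (hε : 0 < ε) (hκ : 0 < κ) (hκ1 : κ < 1) (hb : 0 < b) (hbr : 2 * b ≤ r) (he : 0 < e)
    (hR : 0 ≤ R') (hc : 4 * (R' + r) < c) : ∃ t : ℝ, 0 < t ∧ ∃ N0 : ℕ, ∀ N : ℕ, N0 ≤ N →
      pr N (fun s => IsoR (R' * size N) (r * size N) (r * size N - b * size N) (b * size N / 2) (e * size N) (t * size N) s ∧
        0 < Z.zc κ c (curve s)) ≤ ε := by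
  have hc0 : 0 < c := by linarith
  refine exact_of (P := fun t N _ s => IsoR (R' * size N) (r * size N) (r * size N - b * size N) (b * size N / 2) (e * size N)
    (t * size N) s) hκ hκ1 hc0 (fun ε' x2 hε' hx2 => ?_) (fun t ht => ?_) hε
  · obtain ⟨t, ht, N0, h⟩ := Pool.Agent.CRT.R.G.vPerfV (r := r) hε' hb hbr he one_pos hx2
    refine ⟨t, ht, N0, fun N hN => le_trans (msum_mono (fun n s hs => ?_) _ _ _) (h N hN)⟩
    obtain ⟨k, -, -, h1, h2⟩ := hs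
    exact ⟨k, h1, h2⟩
  · obtain ⟨η, hη⟩ : ∃ η : ℝ, η = c / 4 - (R' + r) := ⟨_, rfl⟩
    have hη0 : 0 < η := by linarith
    obtain ⟨N1, hN1⟩ := size_big hη0 1
    refine ⟨max N1 1, fun N hN j => ?_⟩
    have hs := NTSF.size_pos ((le_max_right _ _).trans hN)
    have h1 := hN1 N ((le_max_left _ _).trans hN)
    have h3 : c / 4 * size N = η * size N + R' * size N + r * size N := by rw [hη]; ring
    have hr : 0 < r := by linarith
    have h4 : 0 < b * size N := by positivity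
    have h5 : 2 * b * size N ≤ r * size N := mul_le_mul_of_nonneg_right hbr hs.le
    exact iso_loc (by positivity) (by positivity) (by positivity) (by linarith) (by linarith) (by linarith)

end Pool.Agent.SCF.K
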