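import Pool.Agent.TSW.BC1F
import Pool.Agent.CRT.VDefs4

/-!
# ScaleFlow, row EXN (helper11): exact numbers of steps from the mean

* `exn`: if an event is decided by the first `j ≤ (1 - κ) n` steps as soon as a Lipschitz factor of the curve does not vanish then its
  probability (with the factor) at `n` is at most its mean over the numbers of steps in `[n, n + d N]` up to `ε`.
-/

set_option autoImplicit false

open Set Filter Topology MeasureTheory
open scoped Classical

namespace Pool.Agent.SCF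

open Pool.Agent.NTS.Res
open Pool.Agent.IW.Res (mean)
open Pool.Agent.CRT.V (msum)

lemma mean_eq (n : ℕ) (f : (Fin n → Fin 3) → ℝ) : mean n f = (∑ s ∈ saw n, f s) / ((saw n).card : ℝ) := rfl

lemma mean_mono {n : ℕ} {f g : (Fin n → Fin 3) → ℝ} (h : ∀ s ∈ saw n, f s ≤ g s) : mean n f ≤ mean n g := by
  rw [mean_eq, mean_eq]
  exact div_le_div_of_nonneg_right (Finset.sum_le_sum h) (Nat.cast_nonneg _)

lemma mean_ite {n : ℕ} (P : (Fin n → Fin 3) → Prop) :
    mean n (fun s => if P s then (1 : ℝ) else 0) = (((saw n).filter fun s => P s).card : ℝ) / ((saw n).card : ℝ) := by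
  rw [mean_eq, Finset.sum_ite, Finset.sum_const_zero, add_zero, Finset.sum_const, nsmul_eq_mul, mul_one]

lemma mean_smul {n : ℕ} (c : ℝ) (f : (Fin n → Fin 3) → ℝ) : mean n (fun s => c * f s) = c * mean n f := by
  rw [mean_eq, mean_eq, ← Finset.mul_sum, mul_div_assoc]

/-- **exact numbers of steps from the mean** -/
theorem exn {ε κ L : ℝ} (hε : 0 < ε) (hκ : 0 < κ) (_hL : 0 < L) : ∃ d0 : ℝ, 0 < d0 ∧ ∀ d x1 x2 : ℝ, 0 < d → d ≤ d0 → 0 < x1 →
    ∃ N0 : ℕ, ∀ (N n j : ℕ) (B : ∀ m : ℕ, (Fin m → Fin 3) → Prop) (ζ : C(unitInterval, ℂ) → ℝ) (Φ : List (Fin 3) → ℝ),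
      N0 ≤ N → x1 * N ≤ n → (n : ℝ) ≤ x2 * N → (j : ℝ) ≤ (1 - κ) * n →
      (∀ γ, 0 ≤ ζ γ) → (∀ γ, ζ γ ≤ 1) → (∀ γ γ', |ζ γ - ζ γ'| ≤ L * dist γ γ') → (∀ x, 0 ≤ Φ x) → (∀ x, Φ x ≤ 1) →
      (∀ s ∈ saw n, B n s → 0 < ζ (curve s) → Φ ((List.ofFn s).take j) = 1) →
      (∀ m : ℕ, n ≤ m → (m : ℝ) ≤ n + d * x1 * N → ∀ s ∈ saw m, 0 < ζ (curve s) → Φ ((List.ofFn s).take j) ≠ 0 → B m s) →
        mean n (fun s => if B n s then ζ (curve s) else 0) ≤ msum B x1 (x2 + d * x1) N / (d * x1 * N) + ε := by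
  obtain ⟨K, hK⟩ : ∃ K : ℝ, K = max L 1 := ⟨_, rfl⟩
  have hK1 : 1 ≤ K := by rw [hK]; exact le_max_right _ _
  have hKL : L ≤ K := by rw [hK]; exact le_max_left _ _
  have hK0 : 0 < K := by linarith
  obtain ⟨δ, hδ, n0, hbc⟩ := TSW.bc1 (min κ (ε / K)) (lt_min hκ (by positivity))
  refine ⟨δ, hδ, fun d x1 x2 hd hdδ hx1 => ?_⟩
  obtain ⟨N0, hN0⟩ := exists_nat_ge ((n0 : ℝ) / x1 + 1 / x1 + 1)
  refine ⟨N0, fun N n j B ζ Φ hN hn1 hn2 hj hζ0 hζ1 hζL hΦ0 hΦ1 hB1 hB2 => ?_⟩
  have hNr : (n0 : ℝ) / x1 + 1 / x1 + 1 ≤ N := hN0.trans (by exact_mod_cast hN)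
  have hNx : (n0 : ℝ) + 1 ≤ x1 * N := by
    have h1 : ((n0 : ℝ) + 1) / x1 ≤ N := by
      rw [add_div]
      linarith
    rwa [div_le_iff₀ hx1, mul_comm] at h1
  have hnn0 : n0 ≤ n := by
    have : (n0 : ℝ) ≤ n := by linarith
    exact_mod_cast this
  have hn0 : (0 : ℝ) < n := by
    have : (0 : ℝ) ≤ n0 := Nat.cast_nonneg _
    linarith
  have hdN : 0 < d * x1 * N := by
    have h1 : 0 < x1 * N := by
      have : (0 : ℝ) ≤ n0 := Nat.cast_nonneg _
      linarith
    calc 0 < d * (x1 * N) := mul_pos hd h1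
      _ = _ := by ring
  obtain ⟨h0, hh0⟩ : ∃ h0 : ℕ, h0 = ⌊d * x1 * N⌋₊ := ⟨_, rfl⟩
  have hh1 : (h0 : ℝ) ≤ d * x1 * N := by
    rw [hh0]
    exact Nat.floor_le hdN.le
  have hh2 : d * x1 * N < h0 + 1 := by
    rw [hh0]
    exact Nat.lt_floor_add_one _
  -- one number of steps
  have hone : ∀ h : ℕ, h ≤ h0 → mean n (fun s => if B n s then ζ (curve s) else 0) ≤
      (((saw (n + h)).filter fun s => B (n + h) s).card : ℝ) / ((saw (n + h)).card : ℝ) + ε := by
    intro h hh
    have hhr : (h : ℝ) ≤ d * x1 * N := le_trans (by exact_mod_cast hh) hh1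
    have hhδ : (h : ℝ) ≤ δ * n := by
      refine hhr.trans ?_
      calc d * x1 * N = d * (x1 * N) := by ring
        _ ≤ δ * n := mul_le_mul hdδ hn1 (by positivity) hδ.le
    have hj' : (j : ℝ) ≤ (1 - min κ (ε / K)) * n := by
      refine hj.trans (mul_le_mul_of_nonneg_right ?_ hn0.le)
      have := min_le_left κ (ε / K)
      linarith
    have hΦa : ∀ x, |Φ x| ≤ 1 := fun x => by rw [abs_of_nonneg (hΦ0 x)]; exact hΦ1 x
    have hG1 : ∀ γ, |ζ γ / K| ≤ 1 := fun γ => by
      rw [abs_of_nonneg (div_nonneg (hζ0 γ) hK0.le), div_le_one hK0]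
      exact (hζ1 γ).trans hK1
    have hGL : LipschitzWith 1 (fun γ => ζ γ / K) := by
      refine LipschitzWith.of_dist_le_mul fun γ γ' => ?_
      rw [Real.dist_eq, ← sub_div, abs_div, abs_of_pos hK0, NNReal.coe_one, one_mul, div_le_iff₀ hK0]
      refine (hζL γ γ').trans ?_
      rw [mul_comm]
      exact mul_le_mul_of_nonneg_left hKL dist_nonneg
    have h1 := hbc n h j hnn0 hhδ hj' Φ hΦa (fun γ => ζ γ / K) hG1 hGL
    have h2 : ∀ m : ℕ, mean m (fun s => Φ ((List.ofFn s).take j) * (ζ (curve s) / K)) =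
        (1 / K) * mean m (fun s => Φ ((List.ofFn s).take j) * ζ (curve s)) := by
      intro m
      rw [← mean_smul]
      unfold mean
      congr 1
      refine Finset.sum_congr rfl fun s _ => ?_
      ring
    rw [h2, h2, ← mul_sub, abs_mul, abs_of_pos (by positivity : 0 < 1 / K)] at h1
    have h3 : |mean (n + h) (fun s => Φ ((List.ofFn s).take j) * ζ (curve s)) -
        mean n (fun s => Φ ((List.ofFn s).take j) * ζ (curve s))| ≤ ε := by
      have h4 := h1.trans (min_le_right _ _)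
      rw [one_div, inv_mul_eq_div, div_le_div_iff_of_pos_right hK0] at h4
      exact h4
    have h4 : mean n (fun s => if B n s then ζ (curve s) else 0) ≤
        mean n (fun s => Φ ((List.ofFn s).take j) * ζ (curve s)) := by
      refine mean_mono fun s hs => ?_
      split_ifs with hb
      · rcases eq_or_lt_of_le (hζ0 (curve s)) with h5 | h5
        · rw [← h5, mul_zero]
        · rw [hB1 s hs hb h5, one_mul]
      · exact mul_nonneg (hΦ0 _) (hζ0 _)
    have h5 : mean (n + h) (fun s => Φ ((List.ofFn s).take j) * ζ (curve s)) ≤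
        mean (n + h) (fun s => if B (n + h) s then (1 : ℝ) else 0) := by
      refine mean_mono fun s hs => ?_
      split_ifs with hb
      · calc Φ ((List.ofFn s).take j) * ζ (curve s) ≤ 1 * 1 := mul_le_mul (hΦ1 _) (hζ1 _) (hζ0 _) zero_le_one
          _ = 1 := one_mul 1
      · rcases eq_or_lt_of_le (hζ0 (curve s)) with h6 | h6
        · rw [← h6, mul_zero]
        · have h7 : Φ ((List.ofFn s).take j) = 0 := by
            by_contra h8
            exact hb (hB2 (n + h) (Nat.le_add_right _ _) (by push_cast; linarith) s hs h6 h8)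
          rw [h7, zero_mul]
    rw [mean_ite] at h5
    have h6 := abs_le.1 h3
    linarith [h6.1, h6.2]
  -- the mean over the numbers of steps
  obtain ⟨M, hM⟩ : ∃ M : ℝ, M = mean n (fun s => if B n s then ζ (curve s) else 0) := ⟨_, rfl⟩
  rw [← hM] at hone ⊢
  have hsum : ((h0 : ℝ) + 1) * (M - ε) ≤ msum B x1 (x2 + d * x1) N := by
    have h1 : ((h0 : ℝ) + 1) * (M - ε) ≤ ∑ h ∈ Finset.range (h0 + 1),
        (((saw (n + h)).filter fun s => B (n + h) s).card : ℝ) / ((saw (n + h)).card : ℝ) := by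
      calc ((h0 : ℝ) + 1) * (M - ε) = ∑ _h ∈ Finset.range (h0 + 1), (M - ε) := by
            rw [Finset.sum_const, Finset.card_range, nsmul_eq_mul]
            push_cast
            ring
        _ ≤ _ := Finset.sum_le_sum fun h hh => by
            have := hone h (by rw [Finset.mem_range] at hh; omega)
            linarith
    refine h1.trans ?_
    unfold msum
    rw [← Finset.sum_image (s := Finset.range (h0 + 1)) (g := fun h => n + h)
      (f := fun m => (((saw m).filter fun s => B m s).card : ℝ) / ((saw m).card : ℝ)) (fun a _ b _ hab => by simpa using hab)]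
    refine Finset.sum_le_sum_of_subset_of_nonneg (fun m hm => ?_) fun m _ _ => by positivity
    rw [Finset.mem_image] at hm
    obtain ⟨h, hh, rfl⟩ := hm
    rw [Finset.mem_range] at hh
    rw [Finset.mem_filter, Finset.mem_range, Nat.lt_succ_iff]
    refine ⟨Nat.le_floor ?_, ?_⟩
    · push_cast
      have : (h : ℝ) ≤ h0 := by
        have : h ≤ h0 := by omega
        exact_mod_cast this
      linarith
    · push_cast
      have : (0 : ℝ) ≤ h := Nat.cast_nonneg _
      linarith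
  rcases le_or_gt M ε with h1 | h1
  · have h2 : 0 ≤ msum B x1 (x2 + d * x1) N := by
      unfold msum
      exact Finset.sum_nonneg fun m _ => by positivity
    have h3 : 0 ≤ msum B x1 (x2 + d * x1) N / (d * x1 * N) := div_nonneg h2 hdN.le
    linarith
  · have h2 : d * x1 * N * (M - ε) ≤ msum B x1 (x2 + d * x1) N :=
      (mul_le_mul_of_nonneg_right hh2.le (by linarith)).trans hsum
    have h3 : M - ε ≤ msum B x1 (x2 + d * x1) N / (d * x1 * N) := by
      rw [le_div_iff₀ hdN]
      linarith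
    linarith

end Pool.Agent.SCF
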