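import Pool.Agent.SCF.Del
import Pool.Agent.NTS.MergeC

/-!
# ScaleFlow, row FIN, part F1 (helper86): the curve of the deleted walk

`tl b γ` : the curve `γ` behind the time `b`, in its own time and from its own start. `f1`: the curve of the walk with the
middle piece deleted is close to `tl b` of the curve of the walk. `zc1`: if the deleted walk is far from the start behind the time
`κ'` then `zc` has the value 1.
-/

set_option autoImplicit false

open Set Filter Topology MeasureTheory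

namespace Pool.Agent.SCF.Z

open Pool.Agent.NTS.Res
open Pool.Agent.CRT (CI)
open NTSF (pos_zero pos_succ mem_saw curve_eq)
open NTSF.Mg (poly_near poly_smul)

/-- the time `b + (1 - b) t` -/
noncomputable def tm (b : ℝ) (t : unitInterval) : unitInterval := Set.projIcc (0 : ℝ) 1 zero_le_one (b + (1 - b) * t)

/-- the curve behind the time `b` -/
noncomputable def tl (b : ℝ) (γ : CI) : CI where
  toFun t := γ (tm b t) - γ (tm b 0)
  continuous_toFun := by
    have : Continuous (tm b) := continuous_projIcc.comp (by fun_prop)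
    exact (γ.continuous.comp this).sub continuous_const

lemma tm_val {b : ℝ} (hb : 0 ≤ b) (hb1 : b ≤ 1) (t : unitInterval) : (tm b t : ℝ) = b + (1 - b) * t := by
  have h0 : (0 : ℝ) ≤ t := t.2.1
  have h1 : (t : ℝ) ≤ 1 := t.2.2
  unfold tm
  rw [Set.projIcc_of_mem zero_le_one (show b + (1 - b) * (t : ℝ) ∈ Set.Icc (0 : ℝ) 1 by
    constructor <;> nlinarith)]

lemma tl_lip (b : ℝ) (γ γ' : CI) : ‖tl b γ - tl b γ'‖ ≤ 2 * ‖γ - γ'‖ := by
  rw [ContinuousMap.norm_le _ (by positivity)]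
  intro t
  have e : (tl b γ - tl b γ') t = (γ - γ') (tm b t) - (γ - γ') (tm b 0) := by
    show (γ (tm b t) - γ (tm b 0)) - (γ' (tm b t) - γ' (tm b 0)) = (γ (tm b t) - γ' (tm b t)) - (γ (tm b 0) - γ' (tm b 0))
    ring
  rw [e]
  calc _ ≤ ‖(γ - γ') (tm b t)‖ + ‖(γ - γ') (tm b 0)‖ := norm_sub_le _ _
    _ ≤ ‖γ - γ'‖ + ‖γ - γ'‖ := add_le_add (ContinuousMap.norm_coe_le_norm _ _) (ContinuousMap.norm_coe_le_norm _ _)
    _ = _ := by ring

lemma norm_step (i : ℕ) (a : Fin 3) : ‖step i a‖ = 1 := by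
  unfold step
  rw [norm_mul, norm_pow, norm_neg, norm_one, one_pow, one_mul,
    show 2 * (Real.pi : ℂ) * Complex.I * ((a : ℕ) : ℂ) / 3 = ((2 * Real.pi * (a : ℕ) / 3 : ℝ) : ℂ) * Complex.I by
      push_cast
      ring, Complex.norm_exp_ofReal_mul_I]

lemma pos_stable {n : ℕ} (s : Fin n → Fin 3) {k : ℕ} (hk : n ≤ k) : pos s (k + 1) = pos s k := by
  unfold pos
  congr 1
  ext i
  have := i.2
  simp only [Finset.mem_filter, Finset.mem_univ, true_and]
  constructor <;> intro _ <;> omega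

lemma pos_unit {n : ℕ} (s : Fin n → Fin 3) (k : ℕ) : ‖pos s (k + 1) - pos s k‖ ≤ 1 := by
  rcases lt_or_ge k n with h | h
  · rw [pos_succ s k h, add_sub_cancel_left, norm_step]
  · rw [pos_stable s h, sub_self, norm_zero]
    exact zero_le_one

/-- the curve at the time `u` and the walk at the step number near `u n` -/
lemma curve_near {n : ℕ} (hn : 1 ≤ n) (hs : 0 < size n) (s : Fin n → Fin 3) (u : unitInterval) :
    ∃ i < n, (i : ℝ) ≤ u * n ∧ (u : ℝ) * n ≤ i + 1 ∧ ‖(size n : ℂ) * curve s u - pos s i‖ ≤ 1 := by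
  obtain ⟨i, hi, h1, h2, h3⟩ := poly_near (z := fun k => pos s k) (pos_unit s) hn u
  refine ⟨i, hi, h1, h2, ?_⟩
  have e : (size n : ℂ) * curve s u = Tight.poly (fun k => pos s k) n u := by
    have e1 : size n • Tight.poly (fun k => pos s k / size n) n = Tight.poly (fun k => pos s k) n := by
      rw [poly_smul]
      congr 1
      funext k
      have : (size n : ℂ) ≠ 0 := by exact_mod_cast hs.ne'
      field_simp
    rw [curve_eq, ← e1]
    exact (Complex.real_smul (x := size n)).symm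
  rw [e]
  exact h3

/-- **the curve of the deleted walk** -/
theorem tl_del {N k m D : ℕ} (s : Fin N → Fin 3) (hm : Even m) (hkm : k + m < N) {r L b η : ℝ} (hb : 0 ≤ b) (hb1 : b ≤ 1)
    (hs : 0 < size N) (hs' : 0 < size (N - m))
    (hr : ∀ i : ℕ, i ≤ k → ‖pos s i - pos s k‖ ≤ r) (hL : ∀ i : ℕ, k ≤ i → i ≤ k + m → ‖pos s i - pos s k‖ ≤ L)
    (hbm : |b * N - m| ≤ D)
    (hη : ∀ i j : ℕ, i ≤ N - m → j ≤ N - m → i ≤ j + (D + 2) → j ≤ i + (D + 2) →
      ‖pos (dl s k m) i - pos (dl s k m) j‖ ≤ η) :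
    ‖(size (N - m) / size N) • curve (dl s k m) - tl b (curve s)‖ ≤ (2 * η + 4 * (r + L) + 3) / size N := by
  obtain ⟨v, hv⟩ : ∃ v, v = dl s k m := ⟨_, rfl⟩
  rw [← hv] at hη ⊢
  have pl : ∀ t : ℕ, t ≤ k → pos v t = pos s t := fun t ht => by
    rw [hv]
    exact pos_dl_left s hkm.le t ht
  have pr : ∀ t : ℕ, k + m + t ≤ N → pos v (k + t) = pos s (k + m + t) - pos s (k + m) + pos s k := fun t ht => by
    rw [hv]
    exact pos_dl_right s hm hkm.le t ht
  have hr0 : 0 ≤ r := (norm_nonneg _).trans (hr k le_rfl)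
  have hL0 : 0 ≤ L := (norm_nonneg _).trans (hL k le_rfl (by omega))
  have hη0 : 0 ≤ η := (norm_nonneg _).trans (hη 0 0 (Nat.zero_le _) (Nat.zero_le _) (Nat.zero_le _) (Nat.zero_le _))
  obtain ⟨c, hc⟩ : ∃ c, c = pos s (k + m) - pos s k := ⟨_, rfl⟩
  have hc0 : ‖c‖ ≤ L := by
    rw [hc]
    exact hL _ (by omega) le_rfl
  -- the walk and the deleted walk
  have key : ∀ i : ℕ, i ≤ N → ‖pos v (i - m) + c - pos s i‖ ≤ 2 * (r + L) := by
    intro i hi
    rcases le_or_gt (k + m) i with h | h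
    · obtain ⟨t, rfl⟩ := Nat.exists_eq_add_of_le h
      rw [show k + m + t - m = k + t by omega, pr t hi, hc,
        show pos s (k + m + t) - pos s (k + m) + pos s k + (pos s (k + m) - pos s k) - pos s (k + m + t) = 0 by ring, norm_zero]
      linarith
    · have h1 : ‖pos v (i - m) - pos s k‖ ≤ r := by
        rw [pl _ (by omega)]
        exact hr _ (by omega)
      have h2 : ‖pos s i - pos s k‖ ≤ r + L := by
        rcases le_or_gt i k with h3 | h3
        · linarith [hr i h3]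
        · linarith [hL i h3.le h.le]
      calc _ = ‖(pos v (i - m) - pos s k) + c - (pos s i - pos s k)‖ := by ring_nf
        _ ≤ ‖(pos v (i - m) - pos s k) + c‖ + ‖pos s i - pos s k‖ := norm_sub_le _ _
        _ ≤ ‖pos v (i - m) - pos s k‖ + ‖c‖ + ‖pos s i - pos s k‖ := by
            gcongr
            exact norm_add_le _ _
        _ ≤ _ := by linarith
  have hN1 : 1 ≤ N := by omega
  have hl1 : 1 ≤ N - m := by omega
  have hlN : ((N - m : ℕ) : ℝ) = N - m := by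
    rw [Nat.cast_sub (by omega)]
  have hbm' := abs_le.1 hbm
  -- the start
  obtain ⟨i0, hi0, a1, a2, a3⟩ := curve_near hN1 hs s (tm b 0)
  rw [tm_val hb hb1, show b + (1 - b) * ((0 : unitInterval) : ℝ) = b by simp] at a1 a2
  have a4 : i0 - m ≤ D := by
    have : (i0 : ℝ) ≤ m + D := by linarith [hbm'.2]
    have : i0 ≤ m + D := by exact_mod_cast this
    omega
  have a5 : ‖pos v (i0 - m)‖ ≤ η := by
    have := hη (i0 - m) 0 (by omega) (Nat.zero_le _) (by omega) (by omega)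
    rwa [pos_zero, sub_zero] at this
  have a6 := key i0 hi0.le
  rw [ContinuousMap.norm_le _ (by positivity)]
  intro u
  have hu0 : (0 : ℝ) ≤ u := u.2.1
  have hu1 : (u : ℝ) ≤ 1 := u.2.2
  obtain ⟨i, hi, b1, b2, b3⟩ := curve_near hN1 hs s (tm b u)
  rw [tm_val hb hb1] at b1 b2
  have b4 := key i hi.le
  obtain ⟨j, hj, c1, c2, c3⟩ := curve_near hl1 hs' v u
  rw [hlN] at c1 c2
  have d1 : ‖pos v j - pos v (i - m)‖ ≤ η := by
    have e1 : (b + (1 - b) * (u : ℝ)) * N - m - u * (N - m) = (b * N - m) * (1 - u) := by ring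
    have e2 : |(b * N - m) * (1 - u)| ≤ D := by
      rw [abs_mul, abs_of_nonneg (by linarith : (0 : ℝ) ≤ 1 - u)]
      calc |b * N - m| * (1 - u) ≤ |b * N - m| * 1 := mul_le_mul_of_nonneg_left (by linarith) (abs_nonneg _)
        _ ≤ D := by rw [mul_one]; exact hbm
    rw [← e1] at e2
    obtain ⟨e3, e4⟩ := abs_le.1 e2
    have f1 : (j : ℝ) + m ≤ i + 1 + D := by linarith
    have f2 : (i : ℝ) ≤ j + 1 + m + D := by linarith
    have f3 : j + m ≤ i + 1 + D := by exact_mod_cast f1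
    have f4 : i ≤ j + 1 + m + D := by exact_mod_cast f2
    exact hη j (i - m) hj.le (by omega) (by omega) (by omega)
  -- the sum
  have hsN : (size N : ℂ) ≠ 0 := by exact_mod_cast hs.ne'
  have e : ((size (N - m) / size N) • curve v - tl b (curve s)) u =
      (((size (N - m) : ℂ) * curve v u - pos v j) + (pos v j - pos v (i - m)) + (pos v (i - m) + c - pos s i) -
        ((size N : ℂ) * curve s (tm b u) - pos s i) + ((size N : ℂ) * curve s (tm b 0) - pos s i0) -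
        (pos v (i0 - m) + c - pos s i0) + pos v (i0 - m)) / size N := by
    show ((size (N - m) / size N : ℝ)) • curve v u - (curve s (tm b u) - curve s (tm b 0)) = _
    rw [Complex.real_smul]
    push_cast
    field_simp
    ring
  rw [e, norm_div, Complex.norm_of_nonneg hs.le]
  gcongr
  refine (norm_add_le _ _).trans ?_
  refine (add_le_add (norm_sub_le _ _) a5).trans ?_
  refine (add_le_add (add_le_add (norm_add_le _ _) a6) le_rfl).trans ?_
  refine (add_le_add (add_le_add (add_le_add (norm_sub_le _ _) a3) le_rfl) le_rfl).trans ?_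
  refine (add_le_add (add_le_add (add_le_add (add_le_add (norm_add₃_le) b3) le_rfl) le_rfl) le_rfl).trans ?_
  linarith

/-- what is used of `T1` -/
lemma t1_use {N k k2 : ℕ} {a r h L ρ : ℝ} {s : Fin N → Fin 3} (ht : T1 a r h L ρ s k k2) :
    Even k ∧ Even (k2 - k) ∧ k < k2 ∧ k + (k2 - k) < N ∧ (∀ i : ℕ, i ≤ k → ‖pos s i - pos s k‖ ≤ r) ∧
      ∀ i : ℕ, k ≤ i → i ≤ k + (k2 - k) → ‖pos s i - pos s k‖ ≤ L := by
  obtain ⟨⟨g1, -, g3, -, -⟩, ⟨b1, b2, -, -, -, b6, -, -⟩, ⟨c1, -, -⟩⟩ := ht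
  have e : k + (k2 - k) = k2 := by omega
  refine ⟨g1, ?_, b1, by omega, fun i hi => g3 i k hi le_rfl, fun i hi hi' => b6 i hi (by omega)⟩
  rw [Nat.even_sub b1.le]
  exact ⟨fun _ => g1, fun _ => b2⟩

/-- **F1** -/
theorem f1 {N k k2 w : ℕ} {a r h L ρ b q : ℝ} {s : Fin N → Fin 3} (ht : T1 a r h L ρ s k k2) (hb : 0 ≤ b) (hb1 : b ≤ 1)
    (hs : 0 < size N) (hs' : 0 < size (N - (k2 - k))) (hbm : |((k2 - k : ℕ) : ℝ) - b * N| ≤ w)
    (hq : ∀ i j : ℕ, i ≤ j → j ≤ N - (k2 - k) → j ≤ i + (w + 2) → ‖pos (del s k k2) i - pos (del s k k2) j‖ ≤ q) :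
    ‖(size (N - (k2 - k)) / size N) • curve (del s k k2) - tl b (curve s)‖ ≤ (2 * q + 4 * (r + L) + 3) / size N := by
  obtain ⟨-, h2, -, h4, h5, h6⟩ := t1_use ht
  refine tl_del s h2 h4 hb hb1 hs hs' h5 h6 (D := w) (by rw [abs_sub_comm]; exact hbm) fun i j hi hj h7 h8 => ?_
  rcases le_total i j with h9 | h9
  · exact hq i j h9 hj h8
  · rw [norm_sub_rev]
    exact hq j i h9 hi h7

lemma tr_one {x : ℝ} (hx : 1 ≤ x) : tr x = 1 := by
  unfold tr
  rw [min_eq_left hx, max_eq_right zero_le_one]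

/-- **F1b** -/
theorem zc1 {N k k2 : ℕ} {a r h L ρ κ κ' c δ : ℝ} {s : Fin N → Fin 3} (ht : T1 a r h L ρ s k k2) (hs : 0 < size N)
    (hκ : 0 ≤ κ) (hc : 0 < c)
    (hf : ∀ j : ℕ, κ' * ((N - (k2 - k) : ℕ) : ℝ) ≤ j → j ≤ N - (k2 - k) → δ * size (N - (k2 - k)) < ‖pos (del s k k2) j‖)
    (hr : r < δ * size (N - (k2 - k)))
    (h1 : κ' * ((N - (k2 - k) : ℕ) : ℝ) + 1 ≤ (1 - κ) * N - ((k2 - k : ℕ) : ℝ))
    (h2 : 2 * c * size N + L + 1 ≤ δ * size (N - (k2 - k))) :
    (k : ℝ) ≤ κ' * ((N - (k2 - k) : ℕ) : ℝ) ∧ zc κ c (curve s) = 1 := by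
  obtain ⟨-, g2, g3, g4, g5, g6⟩ := t1_use ht
  obtain ⟨m, hm⟩ : ∃ m, m = k2 - k := ⟨_, rfl⟩
  have pl : ∀ t : ℕ, t ≤ k → pos (del s k k2) t = pos s t := fun t ht => pos_dl_left s g4.le t ht
  have pr : ∀ t : ℕ, k + (k2 - k) + t ≤ N →
      pos (del s k k2) (k + t) = pos s (k + (k2 - k) + t) - pos s (k + (k2 - k)) + pos s k := fun t ht =>
    pos_dl_right s g2 g4.le t ht
  have hk : (k : ℝ) ≤ κ' * ((N - (k2 - k) : ℕ) : ℝ) := by
    by_contra hcon
    have e1 := hf k (by linarith) (by omega)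
    rw [pl k le_rfl] at e1
    have e2 := g5 0 (Nat.zero_le _)
    rw [pos_zero, zero_sub, norm_neg] at e2
    linarith
  refine ⟨hk, ?_⟩
  unfold zc
  refine tr_one ?_
  have hN1 : 1 ≤ N := by omega
  have h3 : 2 * c ≤ sInf ((fun t : unitInterval => ‖curve s t‖) '' {t : unitInterval | 1 - κ ≤ (t : ℝ)}) := by
    refine le_csInf ⟨_, ⟨1, by show 1 - κ ≤ ((1 : unitInterval) : ℝ); simpa using hκ, rfl⟩⟩ ?_
    rintro _ ⟨t, ht1, rfl⟩
    have ht1 : 1 - κ ≤ (t : ℝ) := ht1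
    obtain ⟨i, hi, a1, a2, a3⟩ := curve_near hN1 hs s t
    have hN0 : (0 : ℝ) ≤ N := Nat.cast_nonneg N
    have e1 : (1 - κ) * N ≤ t * N := mul_le_mul_of_nonneg_right ht1 hN0
    have e2 : κ' * ((N - (k2 - k) : ℕ) : ℝ) + ((k2 - k : ℕ) : ℝ) ≤ i := by linarith
    have e3 : k + (k2 - k) ≤ i := by
      have : (k : ℝ) + ((k2 - k : ℕ) : ℝ) ≤ i := by linarith
      exact_mod_cast this
    obtain ⟨u, hu⟩ := Nat.exists_eq_add_of_le e3
    have e4 := pr u (by omega)
    have e5 : κ' * ((N - (k2 - k) : ℕ) : ℝ) ≤ (k + u : ℕ) := by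
      have : (i : ℝ) = (k : ℝ) + ((k2 - k : ℕ) : ℝ) + u := by
        rw [hu]
        push_cast
        ring
      push_cast
      linarith
    have e6 := hf (k + u) e5 (by omega)
    rw [e4, ← hu] at e6
    have e7 := g6 (k + (k2 - k)) (by omega) le_rfl
    have e8 : ‖pos s i - pos s (k + (k2 - k)) + pos s k‖ ≤ ‖pos s i‖ + L := by
      calc _ = ‖pos s i - (pos s (k + (k2 - k)) - pos s k)‖ := by ring_nf
        _ ≤ ‖pos s i‖ + ‖pos s (k + (k2 - k)) - pos s k‖ := norm_sub_le _ _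
        _ ≤ _ := add_le_add le_rfl e7
    have e9 : ‖pos s i‖ ≤ ‖(size N : ℂ) * curve s t‖ + 1 := by
      calc ‖pos s i‖ = ‖(size N : ℂ) * curve s t - ((size N : ℂ) * curve s t - pos s i)‖ := by ring_nf
        _ ≤ ‖(size N : ℂ) * curve s t‖ + ‖(size N : ℂ) * curve s t - pos s i‖ := norm_sub_le _ _
        _ ≤ _ := add_le_add le_rfl a3
    rw [norm_mul, Complex.norm_of_nonneg hs.le] at e9
    have e10 : 2 * c * size N ≤ ‖curve s t‖ * size N := by linarith
    exact le_of_mul_le_mul_right e10 hs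
  rw [le_sub_iff_add_le, le_div_iff₀ hc]
  linarith

end Pool.Agent.SCF.Z
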