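import Pool.Agent.SCF.ZDefs
import Pool.Agent.CRT.WinK
import Pool.Agent.CRT.Mass

/-!
# ScaleFlow, FIN, analytic lemmas (helper29)

* `slowE` : the means of `f ((size l / size N) • γ)` over the walks with `l` steps, `l` near `lam N`, are close to each other;
* `aRatio` : the numbers of walks times `fug ^ n` at comparable numbers of steps.
-/

set_option autoImplicit false

open Filter Topology MeasureTheory Set

namespace Pool.Agent.SCF

open Pool.Agent.NTS.Res
open Pool.Agent.CRT (CI norm_tight slow_lip aN)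

/-- a bounded Lipschitz function of a scaled curve is integrable -/
lemma int_sc {f : CI → ℝ} {K : NNReal} (hK : LipschitzWith K f) (hf : ∀ γ, |f γ| ≤ 1) (a : ℝ) (n : ℕ) :
    Integrable (fun γ : CI => f (a • γ)) (law n) := by
  haveI : IsProbabilityMeasure (law n) := NTSF.law_prob n
  have hc : Continuous fun γ : CI => f (a • γ) := hK.continuous.comp (continuous_const_smul a)
  exact Integrable.of_bound hc.aestronglyMeasurable 1 (Eventually.of_forall fun x => hf _)

lemma norm_sc (a b : ℝ) (γ : CI) : ‖a • γ - b • γ‖ = |a - b| * ‖γ‖ := by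
  have e : a • γ - b • γ = (a - b) • γ := by
    ext t
    rw [ContinuousMap.sub_apply, ContinuousMap.smul_apply, ContinuousMap.smul_apply, ContinuousMap.smul_apply, ← sub_smul]
  rw [e, norm_smul, Real.norm_eq_abs]

lemma norm_sc2 (a : ℝ) (x y : CI) : ‖a • x - a • y‖ = |a| * ‖x - y‖ := by
  have e : a • x - a • y = a • (x - y) := by
    ext t
    rw [ContinuousMap.sub_apply, ContinuousMap.smul_apply, ContinuousMap.smul_apply, ContinuousMap.smul_apply,
      ContinuousMap.sub_apply, ← smul_sub]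
  rw [e, norm_smul, Real.norm_eq_abs]

/-- the factor of the scaling -/
lemma sc_diff {f : CI → ℝ} {K : NNReal} (hK : LipschitzWith K f) (hf : ∀ γ, |f γ| ≤ 1) {A e : ℝ} (hA : 0 ≤ A) (he : 0 ≤ e) {n : ℕ}
    (h : law n {γ | A < ‖γ‖} ≤ ENNReal.ofReal e) (a b : ℝ) :
    |∫ γ, f (a • γ) ∂(law n) - ∫ γ, f (b • γ) ∂(law n)| ≤ K * (|a - b| * A) + 2 * e := by
  haveI : IsProbabilityMeasure (law n) := NTSF.law_prob n
  have hms : MeasurableSet {γ : CI | A < ‖γ‖} := measurableSet_lt measurable_const (by fun_prop)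
  have hAe : (law n).real {γ : CI | A < ‖γ‖} ≤ e := ENNReal.toReal_le_of_le_ofReal he h
  rw [← integral_sub (int_sc hK hf a n) (int_sc hK hf b n)]
  have iH : Integrable (fun γ : CI => K * (|a - b| * A) + {γ : CI | A < ‖γ‖}.indicator (fun _ => (2 : ℝ)) γ) (law n) :=
    (integrable_const _).add ((integrable_const 2).indicator hms)
  have h1 : |∫ γ, (f (a • γ) - f (b • γ)) ∂(law n)| ≤
      ∫ γ : CI, (K * (|a - b| * A) + {γ : CI | A < ‖γ‖}.indicator (fun _ => (2 : ℝ)) γ) ∂(law n) := by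
    refine (abs_integral_le_integral_abs).trans (integral_mono_ae ((int_sc hK hf a n).sub (int_sc hK hf b n)).abs iH ?_)
    refine Eventually.of_forall fun γ => ?_
    show |f (a • γ) - f (b • γ)| ≤ K * (|a - b| * A) + {γ : CI | A < ‖γ‖}.indicator (fun _ => (2 : ℝ)) γ
    by_cases hγ : A < ‖γ‖
    · rw [indicator_of_mem (show γ ∈ {γ : CI | A < ‖γ‖} from hγ)]
      have h2 := abs_le.1 (hf (a • γ))
      have h3 := abs_le.1 (hf (b • γ))
      have h4 : (0 : ℝ) ≤ K * (|a - b| * A) := by positivity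
      rw [abs_le]
      constructor <;> linarith [h2.1, h2.2, h3.1, h3.2]
    · rw [indicator_of_notMem (show γ ∉ {γ : CI | A < ‖γ‖} from hγ), add_zero]
      have h2 := hK.dist_le_mul (a • γ) (b • γ)
      rw [Real.dist_eq, dist_eq_norm, norm_sc] at h2
      refine h2.trans ?_
      have h3 : |a - b| * ‖γ‖ ≤ |a - b| * A := mul_le_mul_of_nonneg_left (not_lt.1 hγ) (abs_nonneg _)
      exact mul_le_mul_of_nonneg_left h3 K.2
  refine h1.trans ?_
  rw [integral_add (integrable_const _) ((integrable_const 2).indicator hms), integral_const, integral_indicator_const _ hms]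
  simp only [probReal_univ, smul_eq_mul, one_mul]
  linarith

/-- **slow change of the means of the scaled curves** -/
theorem slowE : ∀ (lam : ℝ), 0 < lam → lam < 1 → ∀ (f : CI → ℝ) (K : NNReal), LipschitzWith K f → (∀ γ, |f γ| ≤ 1) →
    ∀ e : ℝ, 0 < e → ∃ η : ℝ, 0 < η ∧ ∃ N0 : ℕ, ∀ N : ℕ, N0 ≤ N → ∀ l l' : ℕ, |(l : ℝ) - lam * N| ≤ η * N →
      |(l' : ℝ) - lam * N| ≤ η * N →
      |∫ γ, f ((size l / size N : ℝ) • γ) ∂(law l) - ∫ γ, f ((size l' / size N : ℝ) • γ) ∂(law l')| ≤ e := by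
  intro lam h0 h1 f K hK hf e he
  obtain ⟨cs, Cs, hcs, hsz, -⟩ := NTSF.finE
  have hCs : 0 < Cs := by
    have h1 := (hsz 1 le_rfl).2
    have h2 := NTSF.size_pos (n := 1) le_rfl
    rw [Nat.cast_one, Real.one_rpow, mul_one] at h1
    linarith
  obtain ⟨A, hA1, hA⟩ := norm_tight (ε := e / 8) (by positivity)
  obtain ⟨C, hC⟩ : ∃ C : ℝ, C = Cs / cs + 1 := ⟨_, rfl⟩
  have hC0 : 1 ≤ C := by
    rw [hC]
    have : 0 < Cs / cs := by positivity
    linarith
  obtain ⟨D, hD⟩ : ∃ D : ℝ, D = 1 + K * C := ⟨_, rfl⟩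
  have hD1 : 1 ≤ D := by
    rw [hD]
    have : (0 : ℝ) ≤ K * C := by positivity
    linarith
  obtain ⟨ε', hε'⟩ : ∃ ε' : ℝ, ε' = e / (4 * (D * (A + 1))) := ⟨_, rfl⟩
  have hε0 : 0 < ε' := by rw [hε']; positivity
  have hDA : D * (A + 1) * ε' = e / 4 := by
    rw [hε']
    have : D * (A + 1) ≠ 0 := by positivity
    field_simp
  obtain ⟨δ, hδ, hs⟩ := slow_lip hε0
  obtain ⟨η, hη⟩ : ∃ η : ℝ, η = min (min (lam / 2) ((1 - lam) / 2)) (δ * lam / 4) := ⟨_, rfl⟩
  have hη0 : 0 < η := by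
    rw [hη]
    refine lt_min (lt_min (by positivity) (by linarith)) (by positivity)
  have hη1 : η ≤ lam / 2 := by rw [hη]; exact (min_le_left _ _).trans (min_le_left _ _)
  have hη2 : η ≤ (1 - lam) / 2 := by rw [hη]; exact (min_le_left _ _).trans (min_le_right _ _)
  have hη3 : η ≤ δ * lam / 4 := by rw [hη]; exact min_le_right _ _
  obtain ⟨N0, hN0⟩ := exists_nat_ge ((1 / δ + 1) / (lam / 2))
  have hlam2 : 0 < lam / 2 := by positivity
  -- one of the two orders
  have key : ∀ N : ℕ, N0 + 1 ≤ N → ∀ l l' : ℕ, l ≤ l' → |(l : ℝ) - lam * N| ≤ η * N → |(l' : ℝ) - lam * N| ≤ η * N →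
      |∫ γ, f ((size l' / size N : ℝ) • γ) ∂(law l') - ∫ γ, f ((size l / size N : ℝ) • γ) ∂(law l)| ≤ e := by
    intro N hN l l' hll h2 h3
    have hN1 : (1 : ℝ) ≤ N := by exact_mod_cast (by omega : 1 ≤ N)
    have hNp : (0 : ℝ) < N := by linarith
    have hN2 : (1 / δ + 1) / (lam / 2) ≤ N := hN0.trans (by exact_mod_cast (by omega : N0 ≤ N))
    rw [div_le_iff₀ hlam2] at hN2
    rw [abs_le] at h2 h3
    have e1 : η * N ≤ lam / 2 * N := mul_le_mul_of_nonneg_right hη1 hNp.le
    have e2 : η * N ≤ (1 - lam) / 2 * N := mul_le_mul_of_nonneg_right hη2 hNp.le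
    have e3 : η * N ≤ δ * lam / 4 * N := mul_le_mul_of_nonneg_right hη3 hNp.le
    have hl : lam / 2 * N ≤ l := by linarith [h2.1]
    have hl1 : 1 / δ ≤ l := by linarith [mul_comm (N : ℝ) (lam / 2)]
    have hl0 : 1 ≤ l := by
      have h4 : (0 : ℝ) < 1 / δ := by positivity
      have h5 : (0 : ℝ) < l := by linarith
      exact_mod_cast h5
    have hlN' : (l' : ℝ) ≤ N := by
      have h4 : 0 ≤ (1 - lam) / 2 * N := by
        have : 0 ≤ 1 - lam := by linarith
        positivity
      linarith [h3.2]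
    have hlN : (l : ℝ) ≤ N := le_trans (by exact_mod_cast hll) hlN'
    have hlδ : (l' : ℝ) ≤ (1 + δ) * l := by
      have h4 : δ * (lam / 2 * N) ≤ δ * l := mul_le_mul_of_nonneg_left hl hδ.le
      have h5 : δ * lam / 4 * N = δ * (lam / 2 * N) / 2 := by ring
      linarith [h2.1, h3.2]
    obtain ⟨-, s1, s2⟩ := hs l l' hl1 hll hlδ
    have hl0' : 1 ≤ l' := hl0.trans hll
    have zN := NTSF.size_pos (n := N) (by omega)
    have zl := NTSF.size_pos hl0
    have rb : ∀ i : ℕ, 1 ≤ i → (i : ℝ) ≤ N → size i / size N ≤ C := by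
      intro i hi hiN
      rw [div_le_iff₀ zN]
      have g1 := (hsz i hi).2
      have g2 := (hsz N (by omega)).1
      have g3 : (i : ℝ) ^ (3 / 4 : ℝ) ≤ (N : ℝ) ^ (3 / 4 : ℝ) := Real.rpow_le_rpow (Nat.cast_nonneg _) hiN (by norm_num)
      calc size i ≤ Cs * (i : ℝ) ^ (3 / 4 : ℝ) := g1
        _ ≤ Cs * (N : ℝ) ^ (3 / 4 : ℝ) := by gcongr
        _ = Cs / cs * (cs * (N : ℝ) ^ (3 / 4 : ℝ)) := by field_simp
        _ ≤ Cs / cs * size N := by gcongr
        _ ≤ C * size N := by
            rw [hC]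
            exact mul_le_mul_of_nonneg_right (by linarith) zN.le
    have r1 := rb l hl0 hlN
    have r1' := rb l' hl0' hlN'
    have r0 : 0 < size l / size N := by positivity
    have r0' : 0 < size l' / size N := div_pos (NTSF.size_pos hl0') zN
    -- the change of the measure
    have t1 : |∫ γ, f ((size l' / size N : ℝ) • γ) ∂(law l') - ∫ γ, f ((size l' / size N : ℝ) • γ) ∂(law l)| ≤ D * ε' := by
      obtain ⟨a, ha⟩ : ∃ a : ℝ, a = size l' / size N := ⟨_, rfl⟩
      rw [← ha] at r1' r0' ⊢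
      have hg1 : LipschitzWith 1 fun γ : CI => f (a • γ) / D := by
        refine LipschitzWith.of_dist_le_mul fun x y => ?_
        rw [Real.dist_eq, ← sub_div, abs_div, abs_of_pos (by linarith : 0 < D), NNReal.coe_one, one_mul,
          div_le_iff₀ (by linarith)]
        have h4 := hK.dist_le_mul (a • x) (a • y)
        rw [Real.dist_eq, dist_eq_norm, norm_sc2, abs_of_pos r0'] at h4
        refine h4.trans ?_
        rw [dist_eq_norm]
        have h5 : (K : ℝ) * (a * ‖x - y‖) ≤ K * C * ‖x - y‖ := by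
          rw [← mul_assoc]
          exact mul_le_mul_of_nonneg_right (mul_le_mul_of_nonneg_left r1' K.2) (norm_nonneg _)
        have h6 : (K : ℝ) * C * ‖x - y‖ ≤ D * ‖x - y‖ := by
          rw [hD]
          exact mul_le_mul_of_nonneg_right (by linarith) (norm_nonneg _)
        linarith [mul_comm D ‖x - y‖]
      have hg2 : ∀ γ : CI, |f (a • γ) / D| ≤ 1 := by
        intro γ
        rw [abs_div, abs_of_pos (by linarith : 0 < D), div_le_one (by linarith)]
        exact (hf _).trans hD1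
      have h4 := s2 _ hg1 hg2
      have e4 : ∀ n : ℕ, ∫ γ, f (a • γ) / D ∂(law n) = (∫ γ, f (a • γ) ∂(law n)) / D := fun n => integral_div _ _
      rw [e4, e4, ← sub_div, abs_div, abs_of_pos (by linarith : 0 < D), div_le_iff₀ (by linarith)] at h4
      linarith [mul_comm D ε']
    -- the change of the factor
    have t2 := sc_diff hK hf (by linarith : 0 ≤ A) (by positivity : 0 ≤ e / 8) (hA l hl0) (size l' / size N) (size l / size N)
    have t3 : |size l' / size N - size l / size N| ≤ C * ε' := by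
      have e5 : size l' / size N - size l / size N = size l / size N * (size l' / size l - 1) := by
        field_simp
      rw [e5, abs_mul, abs_of_pos r0]
      exact mul_le_mul r1 s1 (abs_nonneg _) (by linarith)
    have t4 : (K : ℝ) * (|size l' / size N - size l / size N| * A) ≤ D * A * ε' := by
      calc (K : ℝ) * (|size l' / size N - size l / size N| * A) ≤ K * (C * ε' * A) := by
            refine mul_le_mul_of_nonneg_left ?_ K.2
            exact mul_le_mul_of_nonneg_right t3 (by linarith)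
        _ = K * C * (A * ε') := by ring
        _ ≤ D * (A * ε') := by
            refine mul_le_mul_of_nonneg_right (by rw [hD]; linarith) ?_
            have : 0 ≤ A := by linarith
            positivity
        _ = D * A * ε' := by ring
    have t5 := abs_sub_le (∫ γ, f ((size l' / size N : ℝ) • γ) ∂(law l')) (∫ γ, f ((size l' / size N : ℝ) • γ) ∂(law l))
      (∫ γ, f ((size l / size N : ℝ) • γ) ∂(law l))
    have t6 : D * A * ε' + D * ε' = D * (A + 1) * ε' := by ring
    linarith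
  refine ⟨η, hη0, N0 + 1, fun N hN l l' h2 h3 => ?_⟩
  rcases le_total l l' with h | h
  · rw [abs_sub_comm]
    exact key N hN l l' h h2 h3
  · exact key N hN l' l h h3 h2

/-- **the masses at comparable numbers of steps** -/
theorem aRatio : ∀ x : ℝ, 0 < x → x < 1 → ∃ c : ℝ, 0 < c ∧ ∃ N0 : ℕ, ∀ N : ℕ, N0 ≤ N → ∀ l : ℕ, x * N ≤ l → l ≤ N →
    c * (((saw N).card : ℝ) * fug ^ N) ≤ ((saw l).card : ℝ) * fug ^ l := by
  intro x hx _
  obtain ⟨c, C, hc, hC, h⟩ := _root_.CRT.Mass.aN_bounds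
  refine ⟨c * x ^ (11 / 32 : ℝ) / C, by positivity, 1, fun N hN l h1 h2 => ?_⟩
  have hNp : (0 : ℝ) < N := by exact_mod_cast hN
  have hl : 1 ≤ l := by
    have h3 : (0 : ℝ) < x * N := by positivity
    have h4 : (0 : ℝ) < l := by linarith
    exact_mod_cast h4
  have g1 : ((saw N).card : ℝ) * fug ^ N ≤ C * (N : ℝ) ^ (11 / 32 : ℝ) := (h N hN).2
  have g2 : c * (l : ℝ) ^ (11 / 32 : ℝ) ≤ ((saw l).card : ℝ) * fug ^ l := (h l hl).1
  have g3 : x ^ (11 / 32 : ℝ) * (N : ℝ) ^ (11 / 32 : ℝ) ≤ (l : ℝ) ^ (11 / 32 : ℝ) := by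
    rw [← Real.mul_rpow hx.le hNp.le]
    exact Real.rpow_le_rpow (by positivity) h1 (by norm_num)
  calc c * x ^ (11 / 32 : ℝ) / C * (((saw N).card : ℝ) * fug ^ N) ≤ c * x ^ (11 / 32 : ℝ) / C * (C * (N : ℝ) ^ (11 / 32 : ℝ)) := by
        gcongr
    _ = c * (x ^ (11 / 32 : ℝ) * (N : ℝ) ^ (11 / 32 : ℝ)) := by field_simp
    _ ≤ c * (l : ℝ) ^ (11 / 32 : ℝ) := by gcongr
    _ ≤ ((saw l).card : ℝ) * fug ^ l := g2

end Pool.Agent.SCF
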