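import Pool.Agent.SCF.Fin2D
import Pool.Agent.SCF.Fin2A

/-!
# ScaleFlow, FIN, the core (helper15)

`core_of` : the core of the half `lam < 1` from the rows `Del, MacT1, Ind, Far1, P0, PosB` and two facts on slow variation.
-/

set_option autoImplicit false

open Filter Topology MeasureTheory Set

namespace Pool.Agent.SCF

open Pool.Agent.NTS.Res
open Pool.Agent.CRT (CI)
open Pool.Agent.CRT.R (mod_card)
open Pool.Agent.SCF.Z
open NTSF.Mg (oneFacts)

lemma card_or {α : Type*} {S : Finset α} {p q r : α → Prop} [DecidablePred p] [DecidablePred q] [DecidablePred r]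
    (h : ∀ x ∈ S, r x → p x ∨ q x) {a b c : ℝ} (h1 : ((S.filter p).card : ℝ) ≤ a) (h2 : ((S.filter q).card : ℝ) ≤ b)
    (h3 : a + b ≤ c) : ((S.filter r).card : ℝ) ≤ c := by
  classical
  have hsub : S.filter r ⊆ S.filter p ∪ S.filter q := by
    intro x hx
    rw [Finset.mem_filter] at hx
    rw [Finset.mem_union, Finset.mem_filter, Finset.mem_filter]
    rcases h x hx.1 hx.2 with h' | h'
    · exact Or.inl ⟨hx.1, h'⟩
    · exact Or.inr ⟨hx.1, h'⟩
  have e1 : ((S.filter r).card : ℝ) ≤ ((S.filter p).card : ℝ) + ((S.filter q).card : ℝ) := by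
    exact_mod_cast (Finset.card_le_card hsub).trans (Finset.card_union_le _ _)
  linarith

/-- the constants which are divided by the number of the levels -/
lemma lvl_num {M0 : ℕ} {p x : ℝ} (hp : 0 < p) (hx : 0 ≤ x) : (M0 : ℝ) * (p * x / (M0 + 1)) / p ≤ x := by
  have h : (0 : ℝ) < (M0 : ℝ) + 1 := by positivity
  rw [div_le_iff₀ hp, ← mul_div_assoc, div_le_iff₀ h]
  have := mul_nonneg hp.le hx
  nlinarith

lemma lvl_num' {M0 : ℕ} {x : ℝ} (hx : 0 ≤ x) : (M0 : ℝ) * (x / (M0 + 1)) ≤ x := by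
  have h : (0 : ℝ) < (M0 : ℝ) + 1 := by positivity
  rw [← mul_div_assoc, div_le_iff₀ h]
  nlinarith

lemma norm_smul_ci (a : ℝ) (x : C(unitInterval, ℂ)) : ‖a • x‖ = |a| * ‖x‖ := by
  rw [norm_smul, Real.norm_eq_abs]

lemma lip_smul {K : NNReal} {f : CI → ℝ} (hK : LipschitzWith K f) {a C : ℝ} (ha : 0 ≤ a) (haC : a ≤ C) :
    LipschitzWith (K * C.toNNReal) fun γ : CI => f (a • γ) := by
  refine LipschitzWith.of_dist_le_mul fun x y => ?_
  have h1 := hK.dist_le_mul (a • x) (a • y)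
  have h2 : dist (a • x) (a • y) = a * dist x y := by
    have h3 : a • x - a • y = a • (x - y) := by
      ext t
      show (a • x t - a • y t : ℂ) = a • (x t - y t)
      rw [smul_sub]
    rw [dist_eq_norm, dist_eq_norm, h3, norm_smul_ci, abs_of_nonneg ha]
  rw [h2] at h1
  rw [NNReal.coe_mul, Real.coe_toNNReal _ (ha.trans haC)]
  refine h1.trans ?_
  rw [mul_assoc]
  exact mul_le_mul_of_nonneg_left (mul_le_mul_of_nonneg_right haC dist_nonneg) K.2

open Classical in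
/-- **the core** -/
theorem core_of (hD : Del) (hM : MacT1) (hI : Ind) (hF : Far1) (hP : P0) (hB : PosB) (hA : ARatio) {lam : ℝ} (h0 : 0 < lam)
    (h1 : lam < 1) (hS : SlowE lam) : Core lam := by
  intro f K hK hf ε hε
  obtain ⟨M0, p, δ0, hp, hδ0, hP⟩ := hP
  have hm0 : (0 : ℝ) < (M0 : ℝ) + 1 := by positivity
  obtain ⟨b0, hb0⟩ : ∃ b0 : ℝ, b0 = 1 - lam := ⟨_, rfl⟩
  have hb0p : 0 < b0 := by linarith
  -- the small numbers
  obtain ⟨ε1, hε1⟩ : ∃ x : ℝ, x = p * (ε / 24) / (M0 + 1) := ⟨_, rfl⟩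
  have hε1p : 0 < ε1 := by rw [hε1]; positivity
  obtain ⟨ε5, hε5⟩ : ∃ x : ℝ, x = ε / (12 * ((K : ℝ) + 1)) := ⟨_, rfl⟩
  have hK0 : (0 : ℝ) ≤ K := K.2
  have hε5p : 0 < ε5 := by rw [hε5]; positivity
  have hKε : (K : ℝ) * ε5 ≤ ε / 12 := by
    rw [hε5, ← mul_div_assoc, div_le_div_iff₀ (by positivity) (by norm_num)]
    nlinarith
  obtain ⟨c2, hc2⟩ : ∃ x : ℝ, x = p * (min (1 / 4) (ε / 24)) / (M0 + 1) := ⟨_, rfl⟩
  have hmin : 0 < min (1 / 4 : ℝ) (ε / 24) := lt_min (by norm_num) (by positivity)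
  have hc2p : 0 < c2 := by rw [hc2]; positivity
  obtain ⟨cS, CS, hcS, hCS, hsz⟩ := szR (x := lam / 2) (by positivity)
  obtain ⟨bm, hbm⟩ : ∃ x : ℝ, x = ε5 / (6 * CS) := ⟨_, rfl⟩
  have hbmp : 0 < bm := by rw [hbm]; positivity
  obtain ⟨δm, hδm, hmod⟩ := mod_card (ε := c2 / 2) (b := bm) (by positivity) hbmp
  obtain ⟨ηs, hηs, nS, hslow⟩ := hS f K hK hf ε1 hε1p
  -- the window
  obtain ⟨w0, hw0⟩ : ∃ x : ℝ, x = min (min (b0 / 2) (lam / 2)) (min ηs (δm * lam / 4)) := ⟨_, rfl⟩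
  have hw0p : 0 < w0 := by
    rw [hw0]
    exact lt_min (lt_min (by positivity) (by positivity)) (lt_min hηs (by positivity))
  have hw1 : w0 ≤ b0 / 2 := by rw [hw0]; exact (min_le_left _ _).trans (min_le_left _ _)
  have hw2 : w0 ≤ lam / 2 := by rw [hw0]; exact (min_le_left _ _).trans (min_le_right _ _)
  have hw3 : w0 ≤ ηs := by rw [hw0]; exact (min_le_right _ _).trans (min_le_left _ _)
  have hw4 : w0 ≤ δm * lam / 4 := by rw [hw0]; exact (min_le_right _ _).trans (min_le_right _ _)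
  obtain ⟨x1, hx1⟩ : ∃ x : ℝ, x = b0 - w0 := ⟨_, rfl⟩
  obtain ⟨x2, hx2⟩ : ∃ x : ℝ, x = b0 + w0 := ⟨_, rfl⟩
  have hx1p : 0 < x1 := by linarith
  have hx12 : x1 < x2 := by linarith
  have hx2l : x2 ≤ 1 - lam / 2 := by linarith
  -- the far end
  obtain ⟨δF, hδF, nF, hFar⟩ := hF (1 / 2) (c2 / 2) (by norm_num) (by norm_num) (by positivity)
  obtain ⟨κ, hκ⟩ : ∃ x : ℝ, x = lam / 8 := ⟨_, rfl⟩
  have hκ0 : 0 < κ := by rw [hκ]; positivity
  have hκ1 : κ < 1 := by rw [hκ]; linarith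
  -- the scales
  obtain ⟨δi, hδi, hInd⟩ := hI (K * CS.toNNReal) ε1 hε1p
  obtain ⟨R, hR⟩ : ∃ x : ℝ, x = min (min (δ0 * cS) (δi * cS)) (min (ε5 / 48) (δF * cS / 8000)) := ⟨_, rfl⟩
  have hRp : 0 < R := by
    rw [hR]
    exact lt_min (lt_min (by positivity) (by positivity)) (lt_min (by positivity) (by positivity))
  have hR1 : R ≤ δ0 * cS := by rw [hR]; exact (min_le_left _ _).trans (min_le_left _ _)
  have hR2 : R ≤ δi * cS := by rw [hR]; exact (min_le_left _ _).trans (min_le_right _ _)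
  have hR3 : R ≤ ε5 / 48 := by rw [hR]; exact (min_le_right _ _).trans (min_le_left _ _)
  have hR4 : R ≤ δF * cS / 8000 := by rw [hR]; exact (min_le_right _ _).trans (min_le_right _ _)
  obtain ⟨L, hL⟩ : ∃ x : ℝ, x = R / 2 ^ (M0 + 3) := ⟨_, rfl⟩
  have hLp : 0 < L := by rw [hL]; positivity
  have hLR : ∀ j < M0, L ≤ R / 2 ^ j / 8 := by
    intro j hj
    rw [hL, div_div]
    refine div_le_div_of_nonneg_left hRp.le (by positivity) ?_
    have : (2 : ℝ) ^ j ≤ 2 ^ M0 := pow_le_pow_right₀ (by norm_num) hj.le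
    rw [pow_add]
    linarith
  have hRj : ∀ j : ℕ, R / 2 ^ j ≤ R := fun j => div_le_self hRp.le (one_le_pow₀ (by norm_num))
  have hLR1 : L ≤ R := by
    rw [hL]
    exact div_le_self hRp.le (one_le_pow₀ (by norm_num))
  obtain ⟨nP, hP⟩ := hP (R / CS) (by positivity)
  obtain ⟨nI, hInd⟩ := hInd (R / 2 ^ M0 / CS) (by positivity)
  obtain ⟨cB, nB, hcB, hPos⟩ := hB L (x1 + (x2 - x1) / 4) (x2 - (x2 - x1) / 4) hLp (by linarith) (by linarith) (by linarith)
  obtain ⟨q, hq, nA, hAr⟩ := hA (lam / 2) (by positivity) (by linarith)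
  obtain ⟨p1, hp1⟩ : ∃ x : ℝ, x = p * q * cB := ⟨_, rfl⟩
  have hp1p : 0 < p1 := by rw [hp1]; positivity
  have hmin' : 0 < min (1 / 4 : ℝ) (ε / 16) := lt_min (by norm_num) (by positivity)
  obtain ⟨ε', hε'⟩ : ∃ x : ℝ, x = p1 * (min (1 / 4) (ε / 16)) / (M0 + 1) := ⟨_, rfl⟩
  have hε'p : 0 < ε' := by rw [hε']; positivity
  -- the functionals
  have mac1 : ∀ j : ℕ, ∃ M1 : ℕ, j < M0 → ∀ M : ℕ, M1 ≤ M → 1 ≤ M → ∃ (φ : CI → ℝ) (K : NNReal), LipschitzWith K φ ∧
      (∀ γ, |φ γ| ≤ 1) ∧ ∃ n0 : ℕ, ∀ n : ℕ, n0 ≤ n →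
        ∑ s ∈ saw n, |ps1 M (R / 2 ^ j * size n) (L * size n) x1 x2 s * zc κ (1000 * (R / 2 ^ j)) (curve s) - φ (curve s)| ≤
          ε' * ((saw n).card : ℝ) := by
    intro j
    by_cases hj : j < M0
    · obtain ⟨M1, h⟩ := hM (R / 2 ^ j) L κ x1 x2 (by positivity) hLp (hLR j hj) hκ0 hκ1 hx1p hx12 (by linarith) ε' hε'p
      exact ⟨M1, fun _ => h⟩
    · exact ⟨0, fun h => absurd h hj⟩
  choose M1 hM1 using mac1
  obtain ⟨M, hMM⟩ : ∃ M : ℕ, M = 1 + ∑ j ∈ Finset.range M0, M1 j := ⟨_, rfl⟩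
  have hM2 : 1 ≤ M := by omega
  have hM3 : ∀ j < M0, M1 j ≤ M := fun j hj => by
    have := Finset.single_le_sum (f := M1) (fun i _ => Nat.zero_le _) (Finset.mem_range.2 hj)
    omega
  have mac2 : ∀ j : ℕ, ∃ (φ : CI → ℝ) (n0 : ℕ), Continuous φ ∧ (∀ γ, |φ γ| ≤ 1) ∧ (j < M0 → ∀ n : ℕ, n0 ≤ n →
        ∑ s ∈ saw n, |ps1 M (R / 2 ^ j * size n) (L * size n) x1 x2 s * zc κ (1000 * (R / 2 ^ j)) (curve s) - φ (curve s)| ≤
          ε' * ((saw n).card : ℝ)) := by
    intro j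
    by_cases hj : j < M0
    · obtain ⟨φ, K', g1, g2, n0, g3⟩ := hM1 j hj M (hM3 j hj) hM2
      exact ⟨φ, n0, g1.continuous, g2, fun _ => g3⟩
    · exact ⟨fun _ => 0, 0, continuous_const, fun _ => by rw [abs_zero]; exact zero_le_one, fun h => absurd h hj⟩
  choose φ nφ hφc hφ1 hφ using mac2
  obtain ⟨nM, hnM⟩ : ∃ n : ℕ, n = ∑ j ∈ Finset.range M0, nφ j := ⟨_, rfl⟩
  have hnM' : ∀ j < M0, nφ j ≤ nM := fun j hj => by
    rw [hnM]
    exact Finset.single_le_sum (f := nφ) (fun i _ => Nat.zero_le _) (Finset.mem_range.2 hj)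
  have hsum : ∀ γ, |∑ j ∈ Finset.range M0, φ j γ| ≤ M0 := by
    intro γ
    refine (Finset.abs_sum_le_sum_abs _ _).trans ?_
    have : ∑ j ∈ Finset.range M0, |φ j γ| ≤ ∑ _j ∈ Finset.range M0, (1 : ℝ) := Finset.sum_le_sum fun j _ => hφ1 j γ
    rwa [Finset.sum_const, Finset.card_range, nsmul_eq_mul, mul_one] at this
  have htl : Continuous (tl b0) := by
    have : LipschitzWith 2 (tl b0) := LipschitzWith.of_dist_le_mul fun x y => by
      rw [dist_eq_norm, dist_eq_norm]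
      exact tl_lip b0 x y
    exact this.continuous
  have hcΘ : Continuous fun γ : CI => ∑ j ∈ Finset.range M0, φ j γ := continuous_finsetSum _ fun j _ => hφc j
  have hcΨ : Continuous fun γ : CI => (∑ j ∈ Finset.range M0, φ j γ) * f (tl b0 γ) := hcΘ.mul (hK.continuous.comp htl)
  obtain ⟨nZ, hnZ⟩ := szInf (max (9 / ε5) (2 / (δF * cS)))
  obtain ⟨nR, hnR⟩ := exists_nat_ge (max (max (8 / lam) (1 / ηs)) (max (13 / (δm * lam)) (2 * (nP + nI + nF + 1) / lam)))
  refine ⟨BoundedContinuousFunction.ofNormedAddCommGroup (fun γ : CI => (∑ j ∈ Finset.range M0, φ j γ) * f (tl b0 γ)) hcΨ (M0 : ℝ)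
      (fun γ => by
        rw [Real.norm_eq_abs, abs_mul]
        calc _ ≤ (M0 : ℝ) * 1 := mul_le_mul (hsum γ) (hf _) (abs_nonneg _) (Nat.cast_nonneg _)
          _ = _ := mul_one _),
    BoundedContinuousFunction.ofNormedAddCommGroup (fun γ : CI => ∑ j ∈ Finset.range M0, φ j γ) hcΘ (M0 : ℝ)
      (fun γ => by
        rw [Real.norm_eq_abs]
        exact hsum γ),
    p1 / 2, nS + nB + nA + nM + nZ + nR + 1, by positivity, fun N hN => ?_⟩
  -- one number of steps
  have hN1 : 1 ≤ N := by omega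
  have hNr : (1 : ℝ) ≤ N := by exact_mod_cast hN1
  have hNp : (0 : ℝ) < N := by linarith
  have hnRN : (nR : ℝ) ≤ N := by exact_mod_cast (by omega : nR ≤ N)
  have a1 : 8 / lam ≤ N := ((le_max_left _ _).trans ((le_max_left _ _).trans hnR)).trans hnRN
  have a2 : 1 / ηs ≤ N := ((le_max_right _ _).trans ((le_max_left _ _).trans hnR)).trans hnRN
  have a3 : 13 / (δm * lam) ≤ N := ((le_max_left _ _).trans ((le_max_right _ _).trans hnR)).trans hnRN
  have a4 : 2 * (nP + nI + nF + 1) / lam ≤ N := ((le_max_right _ _).trans ((le_max_right _ _).trans hnR)).trans hnRN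
  rw [div_le_iff₀ h0] at a1 a4
  rw [div_le_iff₀ hηs] at a2
  rw [div_le_iff₀ (by positivity)] at a3
  have hsN : 0 < size N := NTSF.size_pos hN1
  have hsz1 := hnZ N (by omega)
  have a5 : 9 ≤ ε5 * size N := by
    have := (le_max_left _ _).trans hsz1
    rw [div_le_iff₀ hε5p] at this
    linarith
  have a6 : 2 ≤ δF * cS * size N := by
    have := (le_max_right _ _).trans hsz1
    rw [div_le_iff₀ (by positivity)] at this
    linarith
  obtain ⟨A, hAA⟩ : ∃ A : ℝ, A = ((saw N).card : ℝ) := ⟨_, rfl⟩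
  have hA0 : 0 < A := by rw [hAA]; exact NTSF.saw_card_pos N
  obtain ⟨l', hl'⟩ : ∃ l' : ℕ, l' = ⌊lam * (N : ℝ)⌋₊ := ⟨_, rfl⟩
  have hl'1 : |(l' : ℝ) - lam * N| ≤ ηs * N := by
    have e1 : (l' : ℝ) ≤ lam * N := by rw [hl']; exact Nat.floor_le (by positivity)
    have e2 : lam * N < l' + 1 := by rw [hl']; exact Nat.lt_floor_add_one _
    rw [abs_le]
    constructor <;> linarith
  obtain ⟨e, he⟩ : ∃ e : ℝ, e = ∫ γ, f ((size l' / size N : ℝ) • γ) ∂(law l') := ⟨_, rfl⟩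
  have he1 : |e| ≤ 1 := by
    rw [he, NTSF.integral_law, abs_div, Nat.abs_cast, div_le_one (NTSF.saw_card_pos l')]
    refine (Finset.abs_sum_le_sum_abs _ _).trans ?_
    have : ∑ s ∈ saw l', |f ((size l' / size N : ℝ) • curve s)| ≤ ∑ _s ∈ saw l', (1 : ℝ) := Finset.sum_le_sum fun s _ => hf _
    rwa [Finset.sum_const, nsmul_eq_mul, mul_one] at this
  -- the window for `N`
  have win : ∀ m ≤ N, 0 < wt1 x1 x2 N m → (((N - m : ℕ) : ℝ) = N - m) ∧ lam / 2 * N ≤ ((N - m : ℕ) : ℝ) ∧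
      |((N - m : ℕ) : ℝ) - lam * N| ≤ w0 * N ∧ nP ≤ N - m ∧ nI ≤ N - m ∧ nF ≤ N - m ∧ 1 ≤ N - m := by
    intro m hm hw
    obtain ⟨g1, g2⟩ := wt1_pos hx12 hN1 hw
    have e1 : ((N - m : ℕ) : ℝ) = N - m := Nat.cast_sub hm
    have e2 : lam / 2 * N ≤ ((N - m : ℕ) : ℝ) := by
      rw [e1]
      have := mul_le_mul_of_nonneg_right hx2l hNp.le
      linarith
    have e3 : ((nP + nI + nF + 1 : ℕ) : ℝ) ≤ ((N - m : ℕ) : ℝ) := by
      push_cast
      linarith
    have e4 : nP + nI + nF + 1 ≤ N - m := by exact_mod_cast e3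
    refine ⟨e1, e2, ?_, by omega, by omega, by omega, by omega⟩
    rw [e1, abs_le]
    rw [hx1, hb0] at g1
    rw [hx2, hb0] at g2
    constructor <;> nlinarith
  obtain ⟨F, hFd⟩ : ∃ F : ∀ l : ℕ, (Fin l → Fin 3) → ℝ, ∀ l v, F l v = f ((size l / size N : ℝ) • curve v) :=
    ⟨fun l v => f ((size l / size N : ℝ) • curve v), fun _ _ => rfl⟩
  obtain ⟨B, hBd⟩ : ∃ B : ∀ l : ℕ, (Fin l → Fin 3) → Prop, ∀ l v, B l v ↔
      (∃ i j : ℕ, i ≤ j ∧ j ≤ l ∧ (j : ℝ) - i < δm * l ∧ bm * size l ≤ ‖pos v j - pos v i‖) ∨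
        ∃ j : ℕ, 1 / 2 * (l : ℝ) ≤ j ∧ j ≤ l ∧ ‖pos v j‖ ≤ δF * size l :=
    ⟨fun l v => (∃ i j : ℕ, i ≤ j ∧ j ≤ l ∧ (j : ℝ) - i < δm * l ∧ bm * size l ≤ ‖pos v j - pos v i‖) ∨
        ∃ j : ℕ, 1 / 2 * (l : ℝ) ≤ j ∧ j ≤ l ∧ ‖pos v j‖ ≤ δF * size l, fun _ _ => Iff.rfl⟩
  obtain ⟨J, hJ⟩ : ∃ J : Finset ℕ, J = (Finset.range (N + 1)).filter
    (fun m : ℕ => (x1 + (x2 - x1) / 4) * N ≤ m ∧ (m : ℝ) ≤ (x2 - (x2 - x1) / 4) * N) := ⟨_, rfl⟩
  have hJg : ∀ m ∈ J, wt1 x1 x2 N m = 1 := by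
    intro m hm
    rw [hJ, Finset.mem_filter] at hm
    exact wt1_one hx12 hN1 hm.2.1 hm.2.2
  have hJm : ∀ m ∈ J, m ≤ N := by
    intro m hm
    rw [hJ, Finset.mem_filter, Finset.mem_range] at hm
    omega
  obtain ⟨D, w1, w2, w3⟩ := fixN (hD := hD) (M0 := M0) (M := M) (N := N) (R := R) (L := L) (κ := κ) (x1 := x1) (x2 := x2)
    (e := e) (p := p) (q := q) (c := cB) (c1 := ε1 + ε1) (c2 := c2) (c3 := ε / 12) (ε' := ε') (F := F)
    (f := fun γ => f (tl b0 γ)) (B := B) (J := J) (φ := φ) hM2 hsN hRp hLp hLR hp hq.le (by positivity) hc2p.le (by positivity)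
    (fun l v => by rw [hFd]; exact hf _) (fun γ => hf _)
    (by
      intro m hm hw j hj a r ρ ha1 ha2 hr1 hr2 hρ1 hρ2
      obtain ⟨e1, e2, e3, e4, e5, e6, e7⟩ := win m hm hw
      obtain ⟨s1, s2⟩ := hsz N (N - m) e7 e2 (Nat.sub_le _ _)
      have hRjp : 0 < R / 2 ^ j * size N := by positivity
      have hlip : LipschitzWith (K * CS.toNNReal) fun γ : CI => f ((size (N - m) / size N : ℝ) • γ) :=
        lip_smul hK (div_nonneg (NTSF.size_nonneg _) hsN.le) ((div_le_iff₀ hsN).2 s2)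
      have g2 := hInd (N - m) e5 (R / 2 ^ j * size N) a r ρ
        (by
          have h2 : R / 2 ^ M0 ≤ R / 2 ^ j := by
            refine div_le_div_of_nonneg_left hRp.le (by positivity) ?_
            exact pow_le_pow_right₀ (by norm_num) hj.le
          calc R / 2 ^ M0 / CS * size (N - m) ≤ R / 2 ^ M0 / CS * (CS * size N) :=
                mul_le_mul_of_nonneg_left s2 (by positivity)
            _ = R / 2 ^ M0 * size N := by field_simp
            _ ≤ R / 2 ^ j * size N := mul_le_mul_of_nonneg_right h2 hsN.le)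
        (by
          calc R / 2 ^ j * size N ≤ R * size N := mul_le_mul_of_nonneg_right (hRj j) hsN.le
            _ ≤ δi * cS * size N := mul_le_mul_of_nonneg_right hR2 hsN.le
            _ = δi * (cS * size N) := by ring
            _ ≤ δi * size (N - m) := mul_le_mul_of_nonneg_left s1 hδi.le)
        (by linarith) (by linarith) hr1 hr2 hρ1 hρ2 _ hlip (fun γ => hf _)
      have g3 := hslow N (by omega) (N - m) l' (e3.trans (mul_le_mul_of_nonneg_right hw3 hNp.le)) hl'1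
      rw [← he, NTSF.integral_law] at g3
      have g4 : ∑ v ∈ saw (N - m), th0 a r ρ v ≤ ((saw (N - m)).card : ℝ) := by
        have : ∑ v ∈ saw (N - m), th0 a r ρ v ≤ ∑ _v ∈ saw (N - m), (1 : ℝ) :=
          Finset.sum_le_sum fun v _ => th0_le (by linarith) v
        rwa [Finset.sum_const, nsmul_eq_mul, mul_one] at this
      have g5 := ind_num (NTSF.saw_card_pos (N - m)) g2 g3 (Finset.sum_nonneg fun v _ => th0_nn a r ρ v) g4
      have g6 : ∑ v ∈ saw (N - m), th0 a r ρ v * F (N - m) v =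
          ∑ v ∈ saw (N - m), f ((size (N - m) / size N : ℝ) • curve v) * th0 a r ρ v :=
        Finset.sum_congr rfl fun v _ => by rw [hFd, mul_comm]
      rw [g6]
      exact g5)
    (by
      intro m hm hw u1 u2 u3 k1 k2 k3 k4 k5 k6
      obtain ⟨e1, e2, e3, e4, e5, e6, e7⟩ := win m hm hw
      obtain ⟨s1, s2⟩ := hsz N (N - m) e7 e2 (Nat.sub_le _ _)
      refine hP (N - m) e4 (R * size N) ?_ ?_ u1 u2 u3 k1 k2 k3 k4 k5 k6
      · calc R / CS * size (N - m) ≤ R / CS * (CS * size N) := mul_le_mul_of_nonneg_left s2 (by positivity)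
          _ = R * size N := by field_simp
      · calc R * size N ≤ δ0 * cS * size N := mul_le_mul_of_nonneg_right hR1 hsN.le
          _ = δ0 * (cS * size N) := by ring
          _ ≤ δ0 * size (N - m) := mul_le_mul_of_nonneg_left s1 hδ0.le)
    (by
      intro m hm hw
      obtain ⟨e1, e2, e3, e4, e5, e6, e7⟩ := win m hm hw
      have f1 := hmod (N - m) e7
      have f2 := hFar (N - m) e6
      refine card_or ?_ f1 f2 ?_
      · intro v _ hv
        exact (hBd _ _).1 hv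
      · rw [← add_mul]
        exact le_of_eq (by ring))
    (by
      intro j hj s hs k k2 a r h L' ρ ht hr hL' hw hb
      obtain ⟨m, hm⟩ : ∃ m, m = k2 - k := ⟨_, rfl⟩
      obtain ⟨t1, t2, t3, t4, t5, t6⟩ := t1_use ht
      have hmN : k2 - k ≤ N := by omega
      obtain ⟨e1, e2, e3, e4, e5, e6, e7⟩ := win (k2 - k) hmN hw
      obtain ⟨s1, s2⟩ := hsz N (N - (k2 - k)) e7 e2 (Nat.sub_le _ _)
      have hs' : 0 < size (N - (k2 - k)) := NTSF.size_pos e7
      have hnb := fun h => hb ((hBd _ _).2 h)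
      have hr' : r ≤ 2 * R * size N := by
        have := mul_le_mul_of_nonneg_right (hRj j) hsN.le
        linarith
      have hL'' : L' ≤ 2 * R * size N := by
        have := mul_le_mul_of_nonneg_right hLR1 hsN.le
        linarith
      have q1 : 2000 * R * size N ≤ δF * cS * size N / 4 := by
        have := mul_le_mul_of_nonneg_right hR4 hsN.le
        linarith
      have q0 : 0 < R * size N := by positivity
      have q2 : δF * cS * size N ≤ δF * size (N - (k2 - k)) := by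
        rw [mul_assoc]
        exact mul_le_mul_of_nonneg_left s1 hδF.le
      constructor
      · refine (zc1 (κ := κ) (κ' := 1 / 2) (c := 1000 * (R / 2 ^ j)) (δ := δF) ht hsN hκ0.le (by positivity) ?_ ?_ ?_ ?_).2
        · intro i hi1 hi2
          by_contra hcon
          exact hnb (Or.inr ⟨i, hi1, hi2, not_lt.1 hcon⟩)
        · linarith
        · rw [e1] at e2 ⊢
          rw [hκ]
          linarith
        · have q3 : 1000 * (R / 2 ^ j) * size N ≤ 1000 * R * size N := by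
            have := mul_le_mul_of_nonneg_right (hRj j) hsN.le
            linarith
          linarith
      · have hwc : w0 * N ≤ ((⌈w0 * N⌉₊ : ℕ) : ℝ) := Nat.le_ceil _
        have hwc' : ((⌈w0 * N⌉₊ : ℕ) : ℝ) < w0 * N + 1 := Nat.ceil_lt_add_one (by positivity)
        have g1 := f1 (w := ⌈w0 * N⌉₊) (b := b0) (q := bm * size (N - (k2 - k))) ht hb0p.le (by linarith) hsN hs'
          (by
            rw [e1] at e3
            have : ((k2 - k : ℕ) : ℝ) - b0 * N = -((N : ℝ) - ((k2 - k : ℕ) : ℝ) - lam * N) := by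
              rw [hb0]
              ring
            rw [this, abs_neg]
            exact e3.trans hwc)
          (by
            intro i i' hi1 hi2 hi3
            by_contra hcon
            refine hnb (Or.inl ⟨i, i', hi1, hi2, ?_, ?_⟩)
            · have h3 : (i' : ℝ) ≤ i + (((⌈w0 * N⌉₊ : ℕ) : ℝ) + 2) := by exact_mod_cast hi3
              have h4 := mul_le_mul_of_nonneg_right hw4 hNp.le
              have h5 := mul_le_mul_of_nonneg_left e2 hδm.le
              nlinarith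
            · rw [norm_sub_rev]
              exact (not_le.1 hcon).le)
        have g2 : (2 * (bm * size (N - (k2 - k))) + 4 * (r + L') + 3) / size N ≤ ε5 := by
          rw [div_le_iff₀ hsN]
          have h3 : 2 * (bm * size (N - (k2 - k))) ≤ ε5 * size N / 3 := by
            have : bm * size (N - (k2 - k)) ≤ bm * (CS * size N) := mul_le_mul_of_nonneg_left s2 hbmp.le
            have h4 : bm * (CS * size N) = ε5 * size N / 6 := by
              rw [hbm]
              field_simp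
            linarith
          have h4 : 48 * R * size N ≤ ε5 * size N := by
            have := mul_le_mul_of_nonneg_right hR3 hsN.le
            linarith
          linarith
        have g3 := hK.dist_le_mul (tl b0 (curve s)) ((size (N - (k2 - k)) / size N : ℝ) • curve (del s k k2))
        rw [Real.dist_eq, dist_eq_norm, norm_sub_rev] at g3
        rw [hFd]
        refine g3.trans (le_trans (mul_le_mul_of_nonneg_left (g1.trans g2) hK0) hKε))
    (by rw [hJ]; exact Finset.filter_subset _ _) hJg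
    (by
      intro m hm
      obtain ⟨e1, e2, e3, e4, e5, e6, e7⟩ := win m (hJm m hm) (by rw [hJg m hm]; exact zero_lt_one)
      exact hAr N (by omega) (N - m) e2 (Nat.sub_le _ _))
    (by
      intro h L' k1 k2 k3
      rw [hJ]
      exact hPos N (by omega) h L' k1 k2 k3)
    (fun j hj => hφ j hj N ((hnM' j hj).trans (by omega)))
  rw [← hAA] at w1 w2 w3
  have hfin := end_num (A := A) (D := D) (P := ∑ s ∈ saw N, (∑ j ∈ Finset.range M0, φ j (curve s)) * f (tl b0 (curve s)))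
    (T := ∑ s ∈ saw N, ∑ j ∈ Finset.range M0, φ j (curve s)) (e := e) (p1 := p1) (ε := ε)
    (a1 := M0 * (ε1 + ε1) / p + ε / 12 + 2 * (M0 * c2 / p)) (a2 := M0 * c2 / p) (a3 := M0 * ε') hA0 hp1p hε he1
    (by rw [hp1]; exact w1) (by rw [mul_assoc (M0 : ℝ) ε' A]; exact w2) (by rw [mul_assoc (M0 : ℝ) ε' A]; exact w3)
    (by
      have h3 : (M0 : ℝ) * ε1 / p ≤ ε / 24 := by rw [hε1]; exact lvl_num hp (by positivity)
      have h4 : (M0 : ℝ) * c2 / p ≤ ε / 24 := by
        rw [hc2]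
        exact (lvl_num hp hmin.le).trans (min_le_right _ _)
      have h5 : (M0 : ℝ) * (ε1 + ε1) / p = M0 * ε1 / p + M0 * ε1 / p := by ring
      linarith)
    (by
      have h4 : (M0 : ℝ) * c2 / p ≤ ε / 24 := by
        rw [hc2]
        exact (lvl_num hp hmin.le).trans (min_le_right _ _)
      linarith)
    (by rw [hc2]; exact (lvl_num hp hmin.le).trans (min_le_left _ _))
    (by
      rw [hε']
      exact (lvl_num' (by positivity)).trans (mul_le_mul_of_nonneg_left (min_le_left _ _) hp1p.le))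
    (by
      rw [hε']
      exact (lvl_num' (by positivity)).trans (mul_le_mul_of_nonneg_left (min_le_right _ _) hp1p.le))
  have i1 : ∀ g : CI → ℝ, ∫ γ, g γ ∂(law N) = (∑ s ∈ saw N, g (curve s)) / A := fun g => by
    rw [NTSF.integral_law, hAA]
  rw [← hl', ← he]
  rw [i1, i1]
  exact hfin

/-- the core, with the two facts on slow variation -/
theorem core_of' (hD : Del) (hM : MacT1) (hI : Ind) (hF : Far1) (hP : P0) (hB : PosB) {lam : ℝ} (h0 : 0 < lam) (h1 : lam < 1) :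
    Core lam :=
  core_of hD hM hI hF hP hB aRatio h0 h1 (slowE lam h0 h1)

end Pool.Agent.SCF
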