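import Pool.Agent.SCF.ZDefs

/-!
# ScaleFlow, MAC: the grid (helper78)

Real analysis only. `count_jumps`: a monotone sequence has few increments over `q` steps above `η`. `grid_mono` (G1): two functions,
one of them monotone, which are sandwiched with a displacement `d`, are within `η + d` of each other at all but
`(2 d M / (y - x) + 1) B / η` points of the grid. `grid_thr` (G2): two close thresholds are separated by few points of the grid.
`S5_close`: two nested averages over a grid with five parameters.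
-/

set_option autoImplicit false

open Finset

namespace Pool.Agent.SCF.Z

/-- increments over `q` steps of a sequence with values in `[0, B]` -/
theorem sum_incr (M q : ℕ) (u : ℕ → ℝ) {B : ℝ} (h0 : ∀ i, 0 ≤ u i) (hB : ∀ i, u i ≤ B) :
    ∑ i ∈ range M, (u (i + q) - u i) ≤ q * B := by
  have e1 : ∑ i ∈ range M, (u (i + q) - u i) = ∑ j ∈ range q, u (M + j) - ∑ j ∈ range q, u j := by
    have a1 := Finset.sum_range_add u M q
    have a2 := Finset.sum_range_add u q M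
    rw [add_comm q M] at a2
    rw [sum_sub_distrib]
    have a3 : ∑ i ∈ range M, u (i + q) = ∑ i ∈ range M, u (q + i) := sum_congr rfl fun i _ => by rw [add_comm]
    rw [a3]
    linarith
  rw [e1]
  have e2 : ∑ j ∈ range q, u (M + j) ≤ ∑ _j ∈ range q, B := sum_le_sum fun j _ => hB _
  have e3 : 0 ≤ ∑ j ∈ range q, u j := sum_nonneg fun j _ => h0 _
  rw [sum_const, card_range, nsmul_eq_mul] at e2
  linarith

/-- **few jumps** -/
theorem count_jumps {M q : ℕ} {lo hi : ℕ → ℝ} {B η : ℝ} (h0 : ∀ i, 0 ≤ lo i) (hB : ∀ i, lo i ≤ B)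
    (hle : ∀ i, i < M → lo i ≤ hi i) (h : ∀ i, i < M → hi i ≤ lo (i + q)) :
    (((range M).filter fun i => η < hi i - lo i).card : ℝ) * η ≤ q * B := by
  have e1 : (((range M).filter fun i => η < hi i - lo i).card : ℝ) * η ≤
      ∑ i ∈ (range M).filter (fun i => η < hi i - lo i), (hi i - lo i) := by
    rw [← nsmul_eq_mul, ← sum_const]
    exact sum_le_sum fun i hi' => (mem_filter.1 hi').2.le
  have e2 : ∑ i ∈ (range M).filter (fun i => η < hi i - lo i), (hi i - lo i) ≤ ∑ i ∈ range M, (hi i - lo i) :=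
    sum_le_sum_of_subset_of_nonneg (filter_subset _ _) fun i hi' _ => sub_nonneg.2 (hle i (mem_range.1 hi'))
  have e3 : ∑ i ∈ range M, (hi i - lo i) ≤ ∑ i ∈ range M, (lo (i + q) - lo i) :=
    sum_le_sum fun i hi' => sub_le_sub_right (h i (mem_range.1 hi')) _
  exact (e1.trans e2).trans (e3.trans (sum_incr M q lo h0 hB))

/-- **G1**, monotone functions: few points of the grid with an increment above `η` over `[- d, d]` -/
theorem grid_jumps {M : ℕ} {x y d B η : ℝ} {κ : ℝ → ℝ} (hM : 0 < M) (hxy : x < y) (hd : 0 ≤ d) (hκ : Monotone κ)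
    (h0 : ∀ a, 0 ≤ κ a) (hB : ∀ a, κ a ≤ B) :
    (((range M).filter fun i => η < κ (gp M x y i + d) - κ (gp M x y i - d)).card : ℝ) * η ≤ (2 * d * M / (y - x) + 1) * B := by
  have hM' : (0 : ℝ) < M := by exact_mod_cast hM
  have hy : 0 < y - x := sub_pos.2 hxy
  have hB0 : 0 ≤ B := (h0 0).trans (hB 0)
  have hz : 0 ≤ 2 * d * M / (y - x) := by positivity
  obtain ⟨q, hq⟩ : ∃ q : ℕ, q = ⌈2 * d * M / (y - x)⌉₊ := ⟨_, rfl⟩
  have hq1 : 2 * d * M / (y - x) ≤ q := by rw [hq]; exact Nat.le_ceil _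
  have hq2 : (q : ℝ) ≤ 2 * d * M / (y - x) + 1 := by rw [hq]; exact (Nat.ceil_lt_add_one hz).le
  have h1 : ∀ i, i < M → κ (gp M x y i + d) ≤ κ (gp M x y (i + q) - d) := by
    intro i _
    refine hκ ?_
    have : gp M x y (i + q) = gp M x y i + (y - x) * q / M := by
      unfold gp
      push_cast
      ring
    rw [this]
    have h2 : 2 * d ≤ (y - x) * q / M := by
      rw [le_div_iff₀ hM']
      have := (div_le_iff₀ hy).1 hq1
      linarith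
    linarith
  have h2 := count_jumps (M := M) (q := q) (lo := fun i => κ (gp M x y i - d)) (hi := fun i => κ (gp M x y i + d)) (B := B)
    (η := η) (fun i => h0 _) (fun i => hB _) (fun i _ => hκ (by linarith)) h1
  exact h2.trans (mul_le_mul_of_nonneg_right hq2 hB0)

/-- **G1**, two functions sandwiched with a displacement -/
theorem grid_mono {M : ℕ} {x y d B η : ℝ} {κ κ' : ℝ → ℝ} (hM : 0 < M) (hxy : x < y) (hd : 0 ≤ d) (hη : 0 ≤ η) (hκ : Monotone κ)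
    (h0 : ∀ a, 0 ≤ κ a) (hB : ∀ a, κ a ≤ B) (hlo : ∀ a, x ≤ a → a ≤ y → κ (a - d) - d ≤ κ' a)
    (hhi : ∀ a, x ≤ a → a ≤ y → κ' a ≤ κ (a + d) + d) :
    (((range M).filter fun i => η + d < |κ' (gp M x y i) - κ (gp M x y i)|).card : ℝ) * η ≤ (2 * d * M / (y - x) + 1) * B := by
  refine le_trans (mul_le_mul_of_nonneg_right ?_ hη) (grid_jumps (η := η) hM hxy hd hκ h0 hB)
  have hsub : ((range M).filter fun i => η + d < |κ' (gp M x y i) - κ (gp M x y i)|) ⊆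
      (range M).filter fun i => η < κ (gp M x y i + d) - κ (gp M x y i - d) := by
    intro i hi
    obtain ⟨h1, h2⟩ := mem_filter.1 hi
    have hM' : (0 : ℝ) < M := by exact_mod_cast hM
    have g1 : x ≤ gp M x y i ∧ gp M x y i ≤ y := by
      have a1 : ((i + 1 : ℕ) : ℝ) ≤ M := by exact_mod_cast mem_range.1 h1
      have a2 : (0 : ℝ) ≤ ((i + 1 : ℕ) : ℝ) := Nat.cast_nonneg _
      have hy : 0 ≤ y - x := (sub_pos.2 hxy).le
      unfold gp
      constructor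
      · have : 0 ≤ (y - x) * ((i + 1 : ℕ) : ℝ) / (M : ℝ) := div_nonneg (mul_nonneg hy a2) hM'.le
        linarith
      · have : (y - x) * ((i + 1 : ℕ) : ℝ) / (M : ℝ) ≤ y - x := by
          rw [div_le_iff₀ hM']
          exact mul_le_mul_of_nonneg_left a1 hy
        linarith
    refine mem_filter.2 ⟨h1, ?_⟩
    have b1 := hlo _ g1.1 g1.2
    have b2 := hhi _ g1.1 g1.2
    have b3 : κ (gp M x y i - d) ≤ κ (gp M x y i) := hκ (by linarith)
    have b4 : κ (gp M x y i) ≤ κ (gp M x y i + d) := hκ (by linarith)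
    rcases abs_cases (κ' (gp M x y i) - κ (gp M x y i)) with ⟨h3, _⟩ | ⟨h3, _⟩
    · rw [h3] at h2; linarith
    · rw [h3] at h2; linarith
  exact_mod_cast card_le_card hsub

/-- the number of the points of the grid in a half open interval -/
theorem grid_Ico {M : ℕ} {x y u v : ℝ} (hM : 0 < M) (hxy : x < y) (huv : u ≤ v) :
    (((range M).filter fun i => u ≤ gp M x y i ∧ gp M x y i < v).card : ℝ) ≤ M * (v - u) / (y - x) + 1 := by
  have hM' : (0 : ℝ) < M := by exact_mod_cast hM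
  have hy : 0 < y - x := sub_pos.2 hxy
  obtain ⟨A, hA⟩ : ∃ A : ℝ, A = M * (u - x) / (y - x) := ⟨_, rfl⟩
  obtain ⟨B, hB⟩ : ∃ B : ℝ, B = M * (v - x) / (y - x) := ⟨_, rfl⟩
  have hAB : B - A = M * (v - u) / (y - x) := by rw [hA, hB]; field_simp; ring
  have hAB' : A ≤ B := by
    have : 0 ≤ M * (v - u) / (y - x) := div_nonneg (mul_nonneg hM'.le (sub_nonneg.2 huv)) hy.le
    linarith
  have key : ∀ i : ℕ, (u ≤ gp M x y i ↔ A ≤ ((i + 1 : ℕ) : ℝ)) ∧ (gp M x y i < v ↔ ((i + 1 : ℕ) : ℝ) < B) := by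
    intro i
    have e : gp M x y i - x = (y - x) * ((i + 1 : ℕ) : ℝ) / M := by unfold gp; ring
    constructor
    · rw [hA, div_le_iff₀ hy]
      constructor
      · intro h
        have h1 : u - x ≤ (y - x) * ((i + 1 : ℕ) : ℝ) / M := by rw [← e]; linarith
        have := (le_div_iff₀ hM').1 h1
        linarith
      · intro h
        have h1 : u - x ≤ (y - x) * ((i + 1 : ℕ) : ℝ) / M := by
          rw [le_div_iff₀ hM']
          linarith
        rw [← e] at h1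
        linarith
    · rw [hB, lt_div_iff₀ hy]
      constructor
      · intro h
        have h1 : (y - x) * ((i + 1 : ℕ) : ℝ) / M < v - x := by rw [← e]; linarith
        have := (div_lt_iff₀ hM').1 h1
        linarith
      · intro h
        have h1 : (y - x) * ((i + 1 : ℕ) : ℝ) / M < v - x := by
          rw [div_lt_iff₀ hM']
          linarith
        rw [← e] at h1
        linarith
  rcases le_or_gt B 0 with hB0 | hB0
  · have : ((range M).filter fun i => u ≤ gp M x y i ∧ gp M x y i < v) = ∅ := by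
      refine filter_eq_empty_iff.2 fun i _ h => ?_
      have h1 := (key i).2.1 h.2
      have h2 : (0 : ℝ) ≤ ((i + 1 : ℕ) : ℝ) := Nat.cast_nonneg _
      linarith
    rw [this, card_empty, ← hAB]
    push_cast
    linarith
  · have hsub : (((range M).filter fun i => u ≤ gp M x y i ∧ gp M x y i < v).image fun i => i + 1) ⊆ Ico ⌈A⌉₊ ⌈B⌉₊ := by
      intro j hj
      obtain ⟨i, hi, rfl⟩ := mem_image.1 hj
      obtain ⟨_, h1, h2⟩ := mem_filter.1 hi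
      refine mem_Ico.2 ⟨Nat.ceil_le.2 ((key i).1.1 h1), Nat.lt_ceil.2 ((key i).2.1 h2)⟩
    have hc : ((range M).filter fun i => u ≤ gp M x y i ∧ gp M x y i < v).card ≤ ⌈B⌉₊ - ⌈A⌉₊ := by
      rw [← card_image_of_injective _ (add_left_injective 1), ← Nat.card_Ico]
      exact card_le_card hsub
    have h1 : (⌈B⌉₊ : ℝ) < B + 1 := Nat.ceil_lt_add_one hB0.le
    have h2 : A ≤ (⌈A⌉₊ : ℝ) := Nat.le_ceil _
    have h3 : ⌈A⌉₊ ≤ ⌈B⌉₊ := Nat.ceil_mono hAB'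
    have h4 : (((range M).filter fun i => u ≤ gp M x y i ∧ gp M x y i < v).card : ℝ) ≤ (⌈B⌉₊ : ℝ) - (⌈A⌉₊ : ℝ) := by
      rw [← Nat.cast_sub h3]
      exact_mod_cast hc
    linarith

/-- **G2**, thresholds (`u ≤ grid point`) -/
theorem grid_thr {M : ℕ} {x y u u' d : ℝ} (hM : 0 < M) (hxy : x < y) (hu : |u - u'| ≤ d) :
    (((range M).filter fun i => ¬ (u ≤ gp M x y i ↔ u' ≤ gp M x y i)).card : ℝ) ≤ M * d / (y - x) + 1 := by
  have hM' : (0 : ℝ) < M := by exact_mod_cast hM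
  have hy : 0 < y - x := sub_pos.2 hxy
  have hmm : max u u' - min u u' ≤ d := by rwa [max_sub_min_eq_abs']
  have h1 := grid_Ico (M := M) (x := x) (y := y) (u := min u u') (v := max u u') hM hxy min_le_max
  have h2 : (M : ℝ) * (max u u' - min u u') / (y - x) ≤ M * d / (y - x) :=
    div_le_div_of_nonneg_right (mul_le_mul_of_nonneg_left hmm hM'.le) hy.le
  have h3 : ((range M).filter fun i => ¬ (u ≤ gp M x y i ↔ u' ≤ gp M x y i)) ⊆
      (range M).filter fun i => min u u' ≤ gp M x y i ∧ gp M x y i < max u u' := by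
    intro i hi
    obtain ⟨a1, a2⟩ := mem_filter.1 hi
    refine mem_filter.2 ⟨a1, ?_⟩
    by_cases b : u ≤ gp M x y i
    · have b' : ¬ u' ≤ gp M x y i := fun h => a2 ⟨fun _ => h, fun _ => b⟩
      exact ⟨(min_le_left _ _).trans b, lt_of_lt_of_le (not_le.1 b') (le_max_right _ _)⟩
    · have b' : u' ≤ gp M x y i := by
        by_contra h
        exact a2 ⟨fun h' => absurd h' b, fun h' => absurd h' h⟩
      exact ⟨(min_le_right _ _).trans b', lt_of_lt_of_le (not_le.1 b) (le_max_left _ _)⟩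
  have h4 : (((range M).filter fun i => ¬ (u ≤ gp M x y i ↔ u' ≤ gp M x y i)).card : ℝ) ≤
      (((range M).filter fun i => min u u' ≤ gp M x y i ∧ gp M x y i < max u u').card : ℝ) := by
    exact_mod_cast card_le_card h3
  linarith

/-- **G2**, thresholds (`grid point ≤ u`) -/
theorem grid_thr' {M : ℕ} {x y u u' d : ℝ} (hM : 0 < M) (hxy : x < y) (hu : |u - u'| ≤ d) :
    (((range M).filter fun i => ¬ (gp M x y i ≤ u ↔ gp M x y i ≤ u')).card : ℝ) ≤ M * d / (y - x) + 2 := by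
  have hM' : (0 : ℝ) < M := by exact_mod_cast hM
  have hy : 0 < y - x := sub_pos.2 hxy
  have hmm : max u u' - min u u' ≤ d := by rwa [max_sub_min_eq_abs']
  have h2 : (M : ℝ) * (max u u' - min u u') / (y - x) ≤ M * d / (y - x) :=
    div_le_div_of_nonneg_right (mul_le_mul_of_nonneg_left hmm hM'.le) hy.le
  have h1 := grid_Ico (M := M) (x := x) (y := y) (u := min u u') (v := max u u') hM hxy min_le_max
  -- the points in the open interval, and at most one at the right end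
  have hinj : ((range M).filter fun i => gp M x y i = max u u').card ≤ 1 := by
    refine card_le_one.2 fun i hi j hj => ?_
    have e1 := (mem_filter.1 hi).2
    have e2 := (mem_filter.1 hj).2
    have e3 : (y - x) * ((i + 1 : ℕ) : ℝ) / M = (y - x) * ((j + 1 : ℕ) : ℝ) / M := by
      have : gp M x y i = gp M x y j := e1.trans e2.symm
      unfold gp at this
      linarith
    rw [div_left_inj' hM'.ne', mul_right_inj' hy.ne'] at e3
    have e4 : i + 1 = j + 1 := by exact_mod_cast e3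
    omega
  have h3 : ((range M).filter fun i => ¬ (gp M x y i ≤ u ↔ gp M x y i ≤ u')) ⊆
      ((range M).filter fun i => min u u' ≤ gp M x y i ∧ gp M x y i < max u u') ∪
        (range M).filter fun i => gp M x y i = max u u' := by
    intro i hi
    obtain ⟨a1, a2⟩ := mem_filter.1 hi
    have b : min u u' ≤ gp M x y i ∧ gp M x y i ≤ max u u' := by
      by_cases b : gp M x y i ≤ u
      · have b' : ¬ gp M x y i ≤ u' := fun h => a2 ⟨fun _ => h, fun _ => b⟩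
        exact ⟨(min_le_right _ _).trans (not_le.1 b').le, b.trans (le_max_left _ _)⟩
      · have b' : gp M x y i ≤ u' := by
          by_contra h
          exact a2 ⟨fun h' => absurd h' b, fun h' => absurd h' h⟩
        exact ⟨(min_le_left _ _).trans (not_le.1 b).le, b'.trans (le_max_right _ _)⟩
    rcases b.2.lt_or_eq with c | c
    · exact mem_union_left _ (mem_filter.2 ⟨a1, b.1, c⟩)
    · exact mem_union_right _ (mem_filter.2 ⟨a1, c⟩)
  have h4 : (((range M).filter fun i => ¬ (gp M x y i ≤ u ↔ gp M x y i ≤ u')).card : ℝ) ≤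
      (((range M).filter fun i => min u u' ≤ gp M x y i ∧ gp M x y i < max u u').card : ℝ) +
        (((range M).filter fun i => gp M x y i = max u u').card : ℝ) := by
    exact_mod_cast (card_le_card h3).trans (card_union_le _ _)
  have h5 : (((range M).filter fun i => gp M x y i = max u u').card : ℝ) ≤ 1 := by exact_mod_cast hinj
  linarith

/-- nested sum with five parameters -/
noncomputable def S5 (M : ℕ) (G : ℕ → ℕ → ℕ → ℕ → ℕ → ℝ) : ℝ :=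
  ∑ i1 ∈ range M, ∑ i2 ∈ range M, ∑ i3 ∈ range M, ∑ i4 ∈ range M, ∑ i5 ∈ range M, G i1 i2 i3 i4 i5

theorem S5_mono {M : ℕ} {F G : ℕ → ℕ → ℕ → ℕ → ℕ → ℝ}
    (h : ∀ i1 i2 i3 i4 i5, i1 < M → i2 < M → i3 < M → i4 < M → i5 < M → F i1 i2 i3 i4 i5 ≤ G i1 i2 i3 i4 i5) :
    S5 M F ≤ S5 M G :=
  sum_le_sum fun i1 h1 => sum_le_sum fun i2 h2 => sum_le_sum fun i3 h3 => sum_le_sum fun i4 h4 => sum_le_sum fun i5 h5 =>
    h i1 i2 i3 i4 i5 (mem_range.1 h1) (mem_range.1 h2) (mem_range.1 h3) (mem_range.1 h4) (mem_range.1 h5)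

theorem S5_add (M : ℕ) (F G : ℕ → ℕ → ℕ → ℕ → ℕ → ℝ) :
    S5 M (fun i1 i2 i3 i4 i5 => F i1 i2 i3 i4 i5 + G i1 i2 i3 i4 i5) = S5 M F + S5 M G := by
  simp only [S5, sum_add_distrib]

theorem S5_sub (M : ℕ) (F G : ℕ → ℕ → ℕ → ℕ → ℕ → ℝ) :
    S5 M (fun i1 i2 i3 i4 i5 => F i1 i2 i3 i4 i5 - G i1 i2 i3 i4 i5) = S5 M F - S5 M G := by
  simp only [S5, sum_sub_distrib]

theorem S5_const (M : ℕ) (e : ℝ) : S5 M (fun _ _ _ _ _ => e) = e * (M : ℝ) ^ 5 := by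
  simp only [S5, sum_const, card_range, nsmul_eq_mul]
  ring

theorem S5_abs (M : ℕ) (F G : ℕ → ℕ → ℕ → ℕ → ℕ → ℝ) :
    |S5 M F - S5 M G| ≤ S5 M (fun i1 i2 i3 i4 i5 => |F i1 i2 i3 i4 i5 - G i1 i2 i3 i4 i5|) := by
  rw [← S5_sub]
  unfold S5
  refine (abs_sum_le_sum_abs _ _).trans (sum_le_sum fun i1 _ => ?_)
  refine (abs_sum_le_sum_abs _ _).trans (sum_le_sum fun i2 _ => ?_)
  refine (abs_sum_le_sum_abs _ _).trans (sum_le_sum fun i3 _ => ?_)
  refine (abs_sum_le_sum_abs _ _).trans (sum_le_sum fun i4 _ => ?_)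
  exact abs_sum_le_sum_abs _ _

/-- the innermost parameter -/
theorem S5_le5 {M : ℕ} {G : ℕ → ℕ → ℕ → ℕ → ℕ → ℝ} {b : ℝ}
    (h : ∀ i1 i2 i3 i4, i1 < M → i2 < M → i3 < M → i4 < M → ∑ i5 ∈ range M, G i1 i2 i3 i4 i5 ≤ b) : S5 M G ≤ b * (M : ℝ) ^ 4 := by
  have h1 : S5 M G ≤ ∑ _i1 ∈ range M, ∑ _i2 ∈ range M, ∑ _i3 ∈ range M, ∑ _i4 ∈ range M, b :=
    sum_le_sum fun i1 h1 => sum_le_sum fun i2 h2 => sum_le_sum fun i3 h3 => sum_le_sum fun i4 h4 =>
      h i1 i2 i3 i4 (mem_range.1 h1) (mem_range.1 h2) (mem_range.1 h3) (mem_range.1 h4)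
  refine h1.trans (le_of_eq ?_)
  simp only [sum_const, card_range, nsmul_eq_mul]
  ring

theorem S5_swap45 (M : ℕ) (G : ℕ → ℕ → ℕ → ℕ → ℕ → ℝ) : S5 M G = S5 M fun i1 i2 i3 i5 i4 => G i1 i2 i3 i4 i5 :=
  sum_congr rfl fun _ _ => sum_congr rfl fun _ _ => sum_congr rfl fun _ _ => sum_comm

theorem S5_swap34 (M : ℕ) (G : ℕ → ℕ → ℕ → ℕ → ℕ → ℝ) : S5 M G = S5 M fun i1 i2 i4 i3 i5 => G i1 i2 i3 i4 i5 :=
  sum_congr rfl fun _ _ => sum_congr rfl fun _ _ => sum_comm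

theorem S5_swap23 (M : ℕ) (G : ℕ → ℕ → ℕ → ℕ → ℕ → ℝ) : S5 M G = S5 M fun i1 i3 i2 i4 i5 => G i1 i2 i3 i4 i5 :=
  sum_congr rfl fun _ _ => sum_comm

theorem S5_swap12 (M : ℕ) (G : ℕ → ℕ → ℕ → ℕ → ℕ → ℝ) : S5 M G = S5 M fun i2 i1 i3 i4 i5 => G i1 i2 i3 i4 i5 := sum_comm

theorem S5_le4 {M : ℕ} {G : ℕ → ℕ → ℕ → ℕ → ℕ → ℝ} {b : ℝ}
    (h : ∀ i1 i2 i3 i5, i1 < M → i2 < M → i3 < M → i5 < M → ∑ i4 ∈ range M, G i1 i2 i3 i4 i5 ≤ b) : S5 M G ≤ b * (M : ℝ) ^ 4 := by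
  rw [S5_swap45]
  exact S5_le5 h

theorem S5_le3 {M : ℕ} {G : ℕ → ℕ → ℕ → ℕ → ℕ → ℝ} {b : ℝ}
    (h : ∀ i1 i2 i4 i5, i1 < M → i2 < M → i4 < M → i5 < M → ∑ i3 ∈ range M, G i1 i2 i3 i4 i5 ≤ b) : S5 M G ≤ b * (M : ℝ) ^ 4 := by
  rw [S5_swap34]
  exact S5_le4 h

theorem S5_le2 {M : ℕ} {G : ℕ → ℕ → ℕ → ℕ → ℕ → ℝ} {b : ℝ}
    (h : ∀ i1 i3 i4 i5, i1 < M → i3 < M → i4 < M → i5 < M → ∑ i2 ∈ range M, G i1 i2 i3 i4 i5 ≤ b) : S5 M G ≤ b * (M : ℝ) ^ 4 := by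
  rw [S5_swap23]
  exact S5_le3 h

theorem S5_le1 {M : ℕ} {G : ℕ → ℕ → ℕ → ℕ → ℕ → ℝ} {b : ℝ}
    (h : ∀ i2 i3 i4 i5, i2 < M → i3 < M → i4 < M → i5 < M → ∑ i1 ∈ range M, G i1 i2 i3 i4 i5 ≤ b) : S5 M G ≤ b * (M : ℝ) ^ 4 := by
  rw [S5_swap12]
  exact S5_le2 h

open Classical in
/-- the number of bad values as a sum -/
theorem sum_ind {M : ℕ} (P : ℕ → Prop) : ∑ i ∈ range M, (if P i then (1 : ℝ) else 0) = (((range M).filter P).card : ℝ) := by
  rw [sum_ite, sum_const_zero, add_zero, sum_const, nsmul_eq_mul, mul_one]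

open Classical in
/-- **two nested averages are close** if their terms are close outside of five families of bad values of one parameter -/
theorem S5_close {M : ℕ} {F G : ℕ → ℕ → ℕ → ℕ → ℕ → ℝ} {e b1 b2 b3 b4 b5 : ℝ} (hM : 0 < M)
    (B1 B2 B3 B4 B5 : ℕ → ℕ → ℕ → ℕ → ℕ → Prop)
    (hF : ∀ i1 i2 i3 i4 i5, i1 < M → i2 < M → i3 < M → i4 < M → i5 < M → 0 ≤ F i1 i2 i3 i4 i5 ∧ F i1 i2 i3 i4 i5 ≤ 1)
    (hG : ∀ i1 i2 i3 i4 i5, i1 < M → i2 < M → i3 < M → i4 < M → i5 < M → 0 ≤ G i1 i2 i3 i4 i5 ∧ G i1 i2 i3 i4 i5 ≤ 1)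
    (he : 0 ≤ e)
    (h : ∀ i1 i2 i3 i4 i5, i1 < M → i2 < M → i3 < M → i4 < M → i5 < M → ¬ B1 i1 i2 i3 i4 i5 → ¬ B2 i1 i2 i3 i4 i5 →
      ¬ B3 i1 i2 i3 i4 i5 → ¬ B4 i1 i2 i3 i4 i5 → ¬ B5 i1 i2 i3 i4 i5 → |F i1 i2 i3 i4 i5 - G i1 i2 i3 i4 i5| ≤ e)
    (h1 : ∀ i2 i3 i4 i5, i2 < M → i3 < M → i4 < M → i5 < M → (((range M).filter fun i => B1 i i2 i3 i4 i5).card : ℝ) ≤ b1)
    (h2 : ∀ i1 i3 i4 i5, i1 < M → i3 < M → i4 < M → i5 < M → (((range M).filter fun i => B2 i1 i i3 i4 i5).card : ℝ) ≤ b2)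
    (h3 : ∀ i1 i2 i4 i5, i1 < M → i2 < M → i4 < M → i5 < M → (((range M).filter fun i => B3 i1 i2 i i4 i5).card : ℝ) ≤ b3)
    (h4 : ∀ i1 i2 i3 i5, i1 < M → i2 < M → i3 < M → i5 < M → (((range M).filter fun i => B4 i1 i2 i3 i i5).card : ℝ) ≤ b4)
    (h5 : ∀ i1 i2 i3 i4, i1 < M → i2 < M → i3 < M → i4 < M → (((range M).filter fun i => B5 i1 i2 i3 i4 i).card : ℝ) ≤ b5) :
    |S5 M F / (M : ℝ) ^ 5 - S5 M G / (M : ℝ) ^ 5| ≤ e + (b1 + b2 + b3 + b4 + b5) / M := by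
  have hM' : (0 : ℝ) < M := by exact_mod_cast hM
  have k1 : S5 M (fun i1 i2 i3 i4 i5 => if B1 i1 i2 i3 i4 i5 then (1 : ℝ) else 0) ≤ b1 * (M : ℝ) ^ 4 :=
    S5_le1 fun i2 i3 i4 i5 a2 a3 a4 a5 => by
      rw [sum_ind fun i => B1 i i2 i3 i4 i5]
      exact h1 i2 i3 i4 i5 a2 a3 a4 a5
  have k2 : S5 M (fun i1 i2 i3 i4 i5 => if B2 i1 i2 i3 i4 i5 then (1 : ℝ) else 0) ≤ b2 * (M : ℝ) ^ 4 :=
    S5_le2 fun i1 i3 i4 i5 a1 a3 a4 a5 => by
      rw [sum_ind fun i => B2 i1 i i3 i4 i5]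
      exact h2 i1 i3 i4 i5 a1 a3 a4 a5
  have k3 : S5 M (fun i1 i2 i3 i4 i5 => if B3 i1 i2 i3 i4 i5 then (1 : ℝ) else 0) ≤ b3 * (M : ℝ) ^ 4 :=
    S5_le3 fun i1 i2 i4 i5 a1 a2 a4 a5 => by
      rw [sum_ind fun i => B3 i1 i2 i i4 i5]
      exact h3 i1 i2 i4 i5 a1 a2 a4 a5
  have k4 : S5 M (fun i1 i2 i3 i4 i5 => if B4 i1 i2 i3 i4 i5 then (1 : ℝ) else 0) ≤ b4 * (M : ℝ) ^ 4 :=
    S5_le4 fun i1 i2 i3 i5 a1 a2 a3 a5 => by
      rw [sum_ind fun i => B4 i1 i2 i3 i i5]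
      exact h4 i1 i2 i3 i5 a1 a2 a3 a5
  have k5 : S5 M (fun i1 i2 i3 i4 i5 => if B5 i1 i2 i3 i4 i5 then (1 : ℝ) else 0) ≤ b5 * (M : ℝ) ^ 4 :=
    S5_le5 fun i1 i2 i3 i4 a1 a2 a3 a4 => by
      rw [sum_ind fun i => B5 i1 i2 i3 i4 i]
      exact h5 i1 i2 i3 i4 a1 a2 a3 a4
  have k : |S5 M F - S5 M G| ≤ e * (M : ℝ) ^ 5 + (b1 + b2 + b3 + b4 + b5) * (M : ℝ) ^ 4 := by
    refine (S5_abs M F G).trans ?_
    have hs : S5 M (fun i1 i2 i3 i4 i5 => |F i1 i2 i3 i4 i5 - G i1 i2 i3 i4 i5|) ≤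
        S5 M (fun i1 i2 i3 i4 i5 => e + (if B1 i1 i2 i3 i4 i5 then (1 : ℝ) else 0) + (if B2 i1 i2 i3 i4 i5 then (1 : ℝ) else 0) +
          (if B3 i1 i2 i3 i4 i5 then (1 : ℝ) else 0) + (if B4 i1 i2 i3 i4 i5 then (1 : ℝ) else 0) +
          (if B5 i1 i2 i3 i4 i5 then (1 : ℝ) else 0)) := by
      refine S5_mono fun i1 i2 i3 i4 i5 a1 a2 a3 a4 a5 => ?_
      have q0 : |F i1 i2 i3 i4 i5 - G i1 i2 i3 i4 i5| ≤ 1 := by
        obtain ⟨f0, f1⟩ := hF i1 i2 i3 i4 i5 a1 a2 a3 a4 a5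
        obtain ⟨g0, g1⟩ := hG i1 i2 i3 i4 i5 a1 a2 a3 a4 a5
        rw [abs_le]
        constructor <;> linarith
      have n1 : (0 : ℝ) ≤ if B1 i1 i2 i3 i4 i5 then (1 : ℝ) else 0 := by split_ifs <;> norm_num
      have n2 : (0 : ℝ) ≤ if B2 i1 i2 i3 i4 i5 then (1 : ℝ) else 0 := by split_ifs <;> norm_num
      have n3 : (0 : ℝ) ≤ if B3 i1 i2 i3 i4 i5 then (1 : ℝ) else 0 := by split_ifs <;> norm_num
      have n4 : (0 : ℝ) ≤ if B4 i1 i2 i3 i4 i5 then (1 : ℝ) else 0 := by split_ifs <;> norm_num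
      have n5 : (0 : ℝ) ≤ if B5 i1 i2 i3 i4 i5 then (1 : ℝ) else 0 := by split_ifs <;> norm_num
      by_cases c1 : B1 i1 i2 i3 i4 i5
      · rw [if_pos c1]; linarith
      by_cases c2 : B2 i1 i2 i3 i4 i5
      · rw [if_pos c2]; linarith
      by_cases c3 : B3 i1 i2 i3 i4 i5
      · rw [if_pos c3]; linarith
      by_cases c4 : B4 i1 i2 i3 i4 i5
      · rw [if_pos c4]; linarith
      by_cases c5 : B5 i1 i2 i3 i4 i5
      · rw [if_pos c5]; linarith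
      have := h i1 i2 i3 i4 i5 a1 a2 a3 a4 a5 c1 c2 c3 c4 c5
      linarith
    refine hs.trans ?_
    have e0 : S5 M (fun i1 i2 i3 i4 i5 => e + (if B1 i1 i2 i3 i4 i5 then (1 : ℝ) else 0) +
          (if B2 i1 i2 i3 i4 i5 then (1 : ℝ) else 0) +
          (if B3 i1 i2 i3 i4 i5 then (1 : ℝ) else 0) + (if B4 i1 i2 i3 i4 i5 then (1 : ℝ) else 0) +
          (if B5 i1 i2 i3 i4 i5 then (1 : ℝ) else 0)) = e * (M : ℝ) ^ 5 +
        S5 M (fun i1 i2 i3 i4 i5 => if B1 i1 i2 i3 i4 i5 then (1 : ℝ) else 0) +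
        S5 M (fun i1 i2 i3 i4 i5 => if B2 i1 i2 i3 i4 i5 then (1 : ℝ) else 0) +
        S5 M (fun i1 i2 i3 i4 i5 => if B3 i1 i2 i3 i4 i5 then (1 : ℝ) else 0) +
        S5 M (fun i1 i2 i3 i4 i5 => if B4 i1 i2 i3 i4 i5 then (1 : ℝ) else 0) +
        S5 M (fun i1 i2 i3 i4 i5 => if B5 i1 i2 i3 i4 i5 then (1 : ℝ) else 0) := by
      rw [← S5_const M e, ← S5_add, ← S5_add, ← S5_add, ← S5_add, ← S5_add]
    rw [e0]
    linarith
  rw [← sub_div, abs_div, abs_of_pos (pow_pos hM' 5), div_le_iff₀ (pow_pos hM' 5)]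
  refine k.trans (le_of_eq ?_)
  field_simp

end Pool.Agent.SCF.Z
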