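import Pool.Agent.SCF.Fin1
import Pool.Agent.SCF.Uniq
import Pool.Agent.SCF.Grid

/-!
# ScaleFlow, FIN, the sums for one number of steps (helper15)

`XX` : the sum over the levels, the walks and the middle pieces of a functional `G`; `XX_del` : by `Del` the functional of the deleted
walk; `XX_near`, `XX_small`, `XX_low` : comparison by the parts with a fixed number of steps of the middle piece.
-/

set_option autoImplicit false

open Set Filter Topology MeasureTheory Finset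

namespace Pool.Agent.SCF.Z

open Pool.Agent.NTS.Res
open Pool.Agent.CRT (CI)

open Classical in
/-- the sum over the levels, the walks and the middle pieces -/
noncomputable def XX (M0 : ℕ) (a r ρ : ℕ → ℝ) (h L : ℝ) (g : ℕ → ℝ) {N : ℕ} (G : ℕ → (Fin N → Fin 3) → ℕ → ℕ → ℝ) : ℝ :=
  ∑ j ∈ range M0, ∑ s ∈ saw N, ∑ k ∈ range (N + 1), ∑ k2 ∈ range (N + 1),
    if T1 (a j) (r j) h L (ρ j) s k k2 then g (k2 - k) * G j s k k2 else 0

lemma num3 {p : ℝ} (hp : p ≠ 0) (x y w : ℝ) : x * (y * w) = p * w * (x * y / p) := by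
  field_simp

section

variable {M0 : ℕ} {a r ρ : ℕ → ℝ} {h L : ℝ} {g : ℕ → ℝ} {N : ℕ}

lemma XX_add (G G' : ℕ → (Fin N → Fin 3) → ℕ → ℕ → ℝ) :
    XX M0 a r ρ h L g (fun j s k k2 => G j s k k2 + G' j s k k2) = XX M0 a r ρ h L g G + XX M0 a r ρ h L g G' := by
  classical
  unfold XX
  simp only [← sum_add_distrib]
  refine sum_congr rfl fun j _ => sum_congr rfl fun s _ => sum_congr rfl fun k _ => sum_congr rfl fun k2 _ => ?_
  split_ifs
  · ring
  · ring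

lemma XX_smul (c : ℝ) (G : ℕ → (Fin N → Fin 3) → ℕ → ℕ → ℝ) :
    XX M0 a r ρ h L g (fun j s k k2 => c * G j s k k2) = c * XX M0 a r ρ h L g G := by
  classical
  unfold XX
  simp only [mul_sum]
  refine sum_congr rfl fun j _ => sum_congr rfl fun s _ => sum_congr rfl fun k _ => sum_congr rfl fun k2 _ => ?_
  split_ifs
  · ring
  · ring

lemma XX_mono (hg : ∀ m, 0 ≤ g m) {G G' : ℕ → (Fin N → Fin 3) → ℕ → ℕ → ℝ}
    (hG : ∀ j < M0, ∀ s ∈ saw N, ∀ k k2 : ℕ, T1 (a j) (r j) h L (ρ j) s k k2 → 0 < g (k2 - k) → G j s k k2 ≤ G' j s k k2) :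
    XX M0 a r ρ h L g G ≤ XX M0 a r ρ h L g G' := by
  classical
  unfold XX
  refine sum_le_sum fun j hj => sum_le_sum fun s hs => sum_le_sum fun k _ => sum_le_sum fun k2 _ => ?_
  split_ifs with ht
  · rcases (hg (k2 - k)).eq_or_lt with h0 | h0
    · rw [← h0, zero_mul, zero_mul]
    · exact mul_le_mul_of_nonneg_left (hG j (mem_range.1 hj) s hs k k2 ht h0) h0.le
  · exact le_rfl

/-- the difference of two functionals -/
lemma XX_abs (hg : ∀ m, 0 ≤ g m) {G G' H : ℕ → (Fin N → Fin 3) → ℕ → ℕ → ℝ}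
    (hG : ∀ j < M0, ∀ s ∈ saw N, ∀ k k2 : ℕ, T1 (a j) (r j) h L (ρ j) s k k2 → 0 < g (k2 - k) →
      |G j s k k2 - G' j s k k2| ≤ H j s k k2) :
    |XX M0 a r ρ h L g G - XX M0 a r ρ h L g G'| ≤ XX M0 a r ρ h L g H := by
  rw [abs_sub_le_iff]
  constructor
  · have := XX_mono (M0 := M0) (a := a) (r := r) (ρ := ρ) (h := h) (L := L) (g := g) hg (G := G)
      (G' := fun j s k k2 => G' j s k k2 + H j s k k2) (fun j hj s hs k k2 ht h0 => by
        have := (abs_le.1 (hG j hj s hs k k2 ht h0)).2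
        linarith)
    rw [XX_add] at this
    linarith
  · have := XX_mono (M0 := M0) (a := a) (r := r) (ρ := ρ) (h := h) (L := L) (g := g) hg (G := G')
      (G' := fun j s k k2 => G j s k k2 + H j s k k2) (fun j hj s hs k k2 ht h0 => by
        have := (abs_le.1 (hG j hj s hs k k2 ht h0)).1
        linarith)
    rw [XX_add] at this
    linarith

/-- **deletion** -/
lemma XX_del (hD : Del) (ha : ∀ j < M0, 0 < a j) (hh : 0 < h) (hL : 0 ≤ L) (hρ : ∀ j < M0, 2 * (r j + L) ≤ ρ j)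
    (F : ∀ l : ℕ, (Fin l → Fin 3) → ℝ) :
    XX M0 a r ρ h L g (fun _ s k k2 => F (N - (k2 - k)) (del s k k2)) * fug ^ N =
      ∑ m ∈ range (N + 1), g m * bw h L m * ((∑ j ∈ range M0, ∑ v ∈ saw (N - m), th0 (a j) (r j) (ρ j) v * F (N - m) v) *
        fug ^ (N - m)) := by
  classical
  have e : ∀ j ∈ range M0, (∑ s ∈ saw N, ∑ k ∈ range (N + 1), ∑ k2 ∈ range (N + 1),
      if T1 (a j) (r j) h L (ρ j) s k k2 then g (k2 - k) * F (N - (k2 - k)) (del s k k2) else 0) * fug ^ N =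
      ∑ m ∈ range (N + 1), g m * bw h L m * ((∑ v ∈ saw (N - m), th0 (a j) (r j) (ρ j) v * F (N - m) v) * fug ^ (N - m)) :=
    fun j hj => hD (a j) (r j) h L (ρ j) (ha j (mem_range.1 hj)) hh hL (hρ j (mem_range.1 hj)) N g F
  unfold XX
  rw [sum_mul, sum_congr rfl e, sum_comm]
  refine sum_congr rfl fun m _ => ?_
  rw [sum_mul, mul_sum]

lemma fug_pow_pos (n : ℕ) : (0 : ℝ) < fug ^ n := by
  have : 0 < fug := by
    unfold fug
    positivity
  positivity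

open Classical in
lemma bw_nn (h L : ℝ) (m : ℕ) : 0 ≤ bw h L m := by
  unfold bw
  have := fug_pow_pos m
  positivity

/-- comparison by the number of steps -/
lemma XX_near (hD : Del) (ha : ∀ j < M0, 0 < a j) (hh : 0 < h) (hL : 0 ≤ L) (hρ : ∀ j < M0, 2 * (r j + L) ≤ ρ j)
    (hg : ∀ m, 0 ≤ g m) (F F' H : ∀ l : ℕ, (Fin l → Fin 3) → ℝ)
    (hF : ∀ m ≤ N, 0 < g m → |(∑ j ∈ range M0, ∑ v ∈ saw (N - m), th0 (a j) (r j) (ρ j) v * F (N - m) v) -
      ∑ j ∈ range M0, ∑ v ∈ saw (N - m), th0 (a j) (r j) (ρ j) v * F' (N - m) v| ≤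
      ∑ j ∈ range M0, ∑ v ∈ saw (N - m), th0 (a j) (r j) (ρ j) v * H (N - m) v) :
    |XX M0 a r ρ h L g (fun _ (s : Fin N → Fin 3) k k2 => F (N - (k2 - k)) (del s k k2)) -
      XX M0 a r ρ h L g (fun _ (s : Fin N → Fin 3) k k2 => F' (N - (k2 - k)) (del s k k2))| ≤
      XX M0 a r ρ h L g (fun _ (s : Fin N → Fin 3) k k2 => H (N - (k2 - k)) (del s k k2)) := by
  refine le_of_mul_le_mul_right ?_ (fug_pow_pos N)
  rw [← abs_of_pos (fug_pow_pos N), ← abs_mul, sub_mul, abs_of_pos (fug_pow_pos N), XX_del hD ha hh hL hρ, XX_del hD ha hh hL hρ,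
    XX_del hD ha hh hL hρ, ← sum_sub_distrib]
  refine (abs_sum_le_sum_abs _ _).trans (sum_le_sum fun m hm => ?_)
  rw [← mul_sub, ← sub_mul, abs_mul, abs_of_nonneg (mul_nonneg (hg m) (bw_nn h L m)), abs_mul, abs_of_pos (fug_pow_pos (N - m))]
  rcases (hg m).eq_or_lt with h0 | h0
  · rw [← h0, zero_mul, zero_mul, zero_mul]
  · exact mul_le_mul_of_nonneg_left (mul_le_mul_of_nonneg_right (hF m (Nat.lt_succ_iff.1 (mem_range.1 hm)) h0)
      (fug_pow_pos _).le) (mul_nonneg (hg m) (bw_nn h L m))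

/-- comparison by the number of steps, upper bound -/
lemma XX_small (hD : Del) (ha : ∀ j < M0, 0 < a j) (hh : 0 < h) (hL : 0 ≤ L) (hρ : ∀ j < M0, 2 * (r j + L) ≤ ρ j)
    (hg : ∀ m, 0 ≤ g m) (F H : ∀ l : ℕ, (Fin l → Fin 3) → ℝ)
    (hF : ∀ m ≤ N, 0 < g m → (∑ j ∈ range M0, ∑ v ∈ saw (N - m), th0 (a j) (r j) (ρ j) v * F (N - m) v) ≤
      ∑ j ∈ range M0, ∑ v ∈ saw (N - m), th0 (a j) (r j) (ρ j) v * H (N - m) v) :
    XX M0 a r ρ h L g (fun _ (s : Fin N → Fin 3) k k2 => F (N - (k2 - k)) (del s k k2)) ≤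
      XX M0 a r ρ h L g (fun _ (s : Fin N → Fin 3) k k2 => H (N - (k2 - k)) (del s k k2)) := by
  refine le_of_mul_le_mul_right ?_ (fug_pow_pos N)
  rw [XX_del hD ha hh hL hρ, XX_del hD ha hh hL hρ]
  refine sum_le_sum fun m hm => ?_
  rcases (hg m).eq_or_lt with h0 | h0
  · rw [← h0, zero_mul, zero_mul, zero_mul]
  · exact mul_le_mul_of_nonneg_left (mul_le_mul_of_nonneg_right (hF m (Nat.lt_succ_iff.1 (mem_range.1 hm)) h0)
      (fug_pow_pos _).le) (mul_nonneg (hg m) (bw_nn h L m))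

/-- lower bound -/
lemma XX_low (hD : Del) (ha : ∀ j < M0, 0 < a j) (hh : 0 < h) (hL : 0 ≤ L) (hρ : ∀ j < M0, 2 * (r j + L) ≤ ρ j)
    (hg : ∀ m, 0 ≤ g m) {p q c : ℝ} {J : Finset ℕ} (hJ : J ⊆ range (N + 1)) (hg1 : ∀ m ∈ J, g m = 1)
    (hp0 : 0 ≤ p) (hq0 : 0 ≤ q)
    (hp : ∀ m ∈ J, p * ((saw (N - m)).card : ℝ) ≤ ∑ j ∈ range M0, ∑ v ∈ saw (N - m), th0 (a j) (r j) (ρ j) v)
    (hq : ∀ m ∈ J, q * (((saw N).card : ℝ) * fug ^ N) ≤ ((saw (N - m)).card : ℝ) * fug ^ (N - m))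
    (hc : c ≤ ∑ m ∈ J, bw h L m) :
    p * q * c * ((saw N).card : ℝ) ≤ XX M0 a r ρ h L g (fun _ (_ : Fin N → Fin 3) _ _ => 1) := by
  refine le_of_mul_le_mul_right ?_ (fug_pow_pos N)
  have e := XX_del (M0 := M0) (a := a) (r := r) (ρ := ρ) (h := h) (L := L) (g := g) (N := N) hD ha hh hL hρ (fun _ _ => 1)
  rw [e]
  have e1 : ∑ m ∈ J, g m * bw h L m * ((∑ j ∈ range M0, ∑ v ∈ saw (N - m), th0 (a j) (r j) (ρ j) v * 1) * fug ^ (N - m)) ≤
      ∑ m ∈ range (N + 1), g m * bw h L m * ((∑ j ∈ range M0, ∑ v ∈ saw (N - m), th0 (a j) (r j) (ρ j) v * 1) *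
        fug ^ (N - m)) := by
    refine sum_le_sum_of_subset_of_nonneg hJ fun m _ _ => ?_
    refine mul_nonneg (mul_nonneg (hg m) (bw_nn h L m)) (mul_nonneg ?_ (fug_pow_pos _).le)
    exact sum_nonneg fun j _ => sum_nonneg fun v _ => mul_nonneg (th0_nn _ _ _ _) zero_le_one
  refine le_trans ?_ e1
  have e2 : ∑ m ∈ J, bw h L m * (p * (q * (((saw N).card : ℝ) * fug ^ N))) ≤
      ∑ m ∈ J, g m * bw h L m * ((∑ j ∈ range M0, ∑ v ∈ saw (N - m), th0 (a j) (r j) (ρ j) v * 1) * fug ^ (N - m)) := by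
    refine sum_le_sum fun m hm => ?_
    rw [hg1 m hm, one_mul]
    refine mul_le_mul_of_nonneg_left ?_ (bw_nn h L m)
    have f1 := hp m hm
    have f2 := hq m hm
    have f3 : ∑ j ∈ range M0, ∑ v ∈ saw (N - m), th0 (a j) (r j) (ρ j) v * 1 =
        ∑ j ∈ range M0, ∑ v ∈ saw (N - m), th0 (a j) (r j) (ρ j) v := by simp only [mul_one]
    rw [f3]
    calc p * (q * (((saw N).card : ℝ) * fug ^ N)) ≤ p * (((saw (N - m)).card : ℝ) * fug ^ (N - m)) :=
          mul_le_mul_of_nonneg_left f2 hp0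
      _ = p * ((saw (N - m)).card : ℝ) * fug ^ (N - m) := by ring
      _ ≤ _ := mul_le_mul_of_nonneg_right f1 (fug_pow_pos _).le
  refine le_trans ?_ e2
  rw [← sum_mul]
  have h1 := fug_pow_pos N
  calc p * q * c * ((saw N).card : ℝ) * fug ^ N = c * (p * (q * (((saw N).card : ℝ) * fug ^ N))) := by ring
    _ ≤ _ := mul_le_mul_of_nonneg_right hc (by positivity)

open Classical in
/-- **one tuple of parameters** -/
lemma XX_tuple (hD : Del) (ha : ∀ j < M0, 0 < a j) (hh : 0 < h) (hL : 0 ≤ L) (hrρ : ∀ j < M0, r j ≤ ρ j)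
    (hρ : ∀ j < M0, 2 * (r j + L) ≤ ρ j) (hg : ∀ m, 0 ≤ g m) {F : ∀ l : ℕ, (Fin l → Fin 3) → ℝ} {z : ℕ → CI → ℝ} {f : CI → ℝ}
    {B : ∀ l : ℕ, (Fin l → Fin 3) → Prop} {e p c1 c2 c3 : ℝ} (hp : 0 < p) (hc1 : 0 ≤ c1) (hc2 : 0 ≤ c2) (hc3 : 0 ≤ c3)
    (hF : ∀ l v, |F l v| ≤ 1) (hf : ∀ γ, |f γ| ≤ 1) (hz : ∀ j γ, 0 ≤ z j γ ∧ z j γ ≤ 1)
    (hI : ∀ m ≤ N, 0 < g m → ∀ j < M0, |(∑ v ∈ saw (N - m), th0 (a j) (r j) (ρ j) v * F (N - m) v) -
      e * ∑ v ∈ saw (N - m), th0 (a j) (r j) (ρ j) v| ≤ c1 * ((saw (N - m)).card : ℝ))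
    (hP : ∀ m ≤ N, 0 < g m → p * ((saw (N - m)).card : ℝ) ≤ ∑ j ∈ range M0, ∑ v ∈ saw (N - m), th0 (a j) (r j) (ρ j) v)
    (hB : ∀ m ≤ N, 0 < g m → (((saw (N - m)).filter fun v => B (N - m) v).card : ℝ) ≤ c2 * ((saw (N - m)).card : ℝ))
    (hG : ∀ j < M0, ∀ s ∈ saw N, ∀ k k2 : ℕ, T1 (a j) (r j) h L (ρ j) s k k2 → 0 < g (k2 - k) →
      ¬ B (N - (k2 - k)) (del s k k2) →
      z j (curve s) = 1 ∧ |f (curve s) - F (N - (k2 - k)) (del s k k2)| ≤ c3) :
    |XX M0 a r ρ h L g (fun j (s : Fin N → Fin 3) _ _ => z j (curve s) * f (curve s)) -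
        e * XX M0 a r ρ h L g (fun _ (_ : Fin N → Fin 3) _ _ => 1)| ≤
      (M0 * c1 / p + c3 + 2 * (M0 * c2 / p)) * XX M0 a r ρ h L g (fun _ (_ : Fin N → Fin 3) _ _ => 1) ∧
    |XX M0 a r ρ h L g (fun j (s : Fin N → Fin 3) _ _ => z j (curve s)) -
        XX M0 a r ρ h L g (fun _ (_ : Fin N → Fin 3) _ _ => 1)| ≤
      (M0 * c2 / p) * XX M0 a r ρ h L g (fun _ (_ : Fin N → Fin 3) _ _ => 1) := by
  obtain ⟨X1, hX1⟩ : ∃ X1, X1 = XX M0 a r ρ h L g (fun _ (_ : Fin N → Fin 3) _ _ => 1) := ⟨_, rfl⟩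
  have cst : ∀ c : ℝ, XX M0 a r ρ h L g (fun _ (_ : Fin N → Fin 3) _ _ => c) = c * X1 := by
    intro c
    rw [hX1, ← XX_smul]
    simp only [mul_one]
  obtain ⟨XB, hXB⟩ : ∃ XB, XB = XX M0 a r ρ h L g (fun _ (s : Fin N → Fin 3) k k2 =>
    if B (N - (k2 - k)) (del s k k2) then (1 : ℝ) else 0) := ⟨_, rfl⟩
  have t1 : ∀ m j, j < M0 → ∀ v : Fin (N - m) → Fin 3, 0 ≤ th0 (a j) (r j) (ρ j) v ∧ th0 (a j) (r j) (ρ j) v ≤ 1 :=
    fun m j hj v => ⟨th0_nn _ _ _ _, th0_le (hrρ j hj) v⟩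
  have mulc : ∀ (m : ℕ) (c : ℝ), ∑ j ∈ range M0, ∑ v ∈ saw (N - m), th0 (a j) (r j) (ρ j) v * c =
      (∑ j ∈ range M0, ∑ v ∈ saw (N - m), th0 (a j) (r j) (ρ j) v) * c := by
    intro m c
    rw [sum_mul]
    exact sum_congr rfl fun j _ => (sum_mul _ _ _).symm
  -- the bad walks
  have hBd : XB ≤ (M0 * c2 / p) * X1 := by
    rw [← cst, hXB]
    refine XX_small hD ha hh hL hρ hg (fun l v => if B l v then (1 : ℝ) else 0) (fun _ _ => M0 * c2 / p) fun m hm h0 => ?_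
    rw [mulc m (M0 * c2 / p)]
    have e1 : ∑ j ∈ range M0, ∑ v ∈ saw (N - m), th0 (a j) (r j) (ρ j) v * (if B (N - m) v then (1 : ℝ) else 0) ≤
        ∑ _j ∈ range M0, (((saw (N - m)).filter fun v => B (N - m) v).card : ℝ) := by
      refine sum_le_sum fun j hj => ?_
      rw [Finset.card_filter]
      push_cast
      refine sum_le_sum fun v _ => ?_
      have := t1 m j (mem_range.1 hj) v
      split_ifs
      · rw [mul_one]; exact this.2
      · rw [mul_zero]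
    rw [sum_const, card_range, nsmul_eq_mul] at e1
    have e2 := hB m hm h0
    have e3 := hP m hm h0
    have e4 : (M0 : ℝ) * (((saw (N - m)).filter fun v => B (N - m) v).card : ℝ) ≤ M0 * (c2 * ((saw (N - m)).card : ℝ)) :=
      mul_le_mul_of_nonneg_left e2 (Nat.cast_nonneg _)
    have e5 : (M0 : ℝ) * (c2 * ((saw (N - m)).card : ℝ)) = p * ((saw (N - m)).card : ℝ) * (M0 * c2 / p) :=
      num3 hp.ne' _ _ _
    have e6 : p * ((saw (N - m)).card : ℝ) * (M0 * c2 / p) ≤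
        (∑ j ∈ range M0, ∑ v ∈ saw (N - m), th0 (a j) (r j) (ρ j) v) * (M0 * c2 / p) :=
      mul_le_mul_of_nonneg_right e3 (by positivity)
    linarith
  -- the independence
  have hId : |XX M0 a r ρ h L g (fun _ (s : Fin N → Fin 3) k k2 => F (N - (k2 - k)) (del s k k2)) - e * X1| ≤
      (M0 * c1 / p) * X1 := by
    rw [← cst, ← cst]
    refine XX_near hD ha hh hL hρ hg F (fun _ _ => e) (fun _ _ => M0 * c1 / p) fun m hm h0 => ?_
    rw [mulc m e, mulc m (M0 * c1 / p)]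
    have e1 : |(∑ j ∈ range M0, ∑ v ∈ saw (N - m), th0 (a j) (r j) (ρ j) v * F (N - m) v) -
        (∑ j ∈ range M0, ∑ v ∈ saw (N - m), th0 (a j) (r j) (ρ j) v) * e| ≤ ∑ _j ∈ range M0, c1 * ((saw (N - m)).card : ℝ) := by
      rw [sum_mul, ← sum_sub_distrib]
      refine (abs_sum_le_sum_abs _ _).trans (sum_le_sum fun j hj => ?_)
      have := hI m hm h0 j (mem_range.1 hj)
      rwa [mul_comm e] at this
    rw [sum_const, card_range, nsmul_eq_mul] at e1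
    have e3 := hP m hm h0
    have e5 : (M0 : ℝ) * (c1 * ((saw (N - m)).card : ℝ)) = p * ((saw (N - m)).card : ℝ) * (M0 * c1 / p) :=
      num3 hp.ne' _ _ _
    have e6 : p * ((saw (N - m)).card : ℝ) * (M0 * c1 / p) ≤
        (∑ j ∈ range M0, ∑ v ∈ saw (N - m), th0 (a j) (r j) (ρ j) v) * (M0 * c1 / p) :=
      mul_le_mul_of_nonneg_right e3 (by positivity)
    linarith
  -- the functional of the walk
  have hfd : |XX M0 a r ρ h L g (fun j (s : Fin N → Fin 3) _ _ => z j (curve s) * f (curve s)) -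
      XX M0 a r ρ h L g (fun _ (s : Fin N → Fin 3) k k2 => F (N - (k2 - k)) (del s k k2))| ≤ c3 * X1 + 2 * XB := by
    have e1 := XX_abs (M0 := M0) (a := a) (r := r) (ρ := ρ) (h := h) (L := L) (g := g) hg
      (G := fun j (s : Fin N → Fin 3) _ _ => z j (curve s) * f (curve s))
      (G' := fun _ (s : Fin N → Fin 3) k k2 => F (N - (k2 - k)) (del s k k2))
      (H := fun _ (s : Fin N → Fin 3) k k2 => c3 + 2 * (if B (N - (k2 - k)) (del s k k2) then (1 : ℝ) else 0))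
      (fun j hj s hs k k2 ht h0 => by
        by_cases hb : B (N - (k2 - k)) (del s k k2)
        · rw [if_pos hb]
          have f1 := abs_le.1 (hf (curve s))
          have f2 := abs_le.1 (hF (N - (k2 - k)) (del s k k2))
          have f3 := hz j (curve s)
          have f4 : |z j (curve s) * f (curve s)| ≤ 1 := by
            rw [abs_mul, abs_of_nonneg f3.1]
            exact mul_le_one₀ f3.2 (abs_nonneg _) (hf _)
          have f5 := abs_le.1 f4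
          rw [abs_le]
          constructor <;> linarith [f1.1, f1.2, f2.1, f2.2, f5.1, f5.2]
        · obtain ⟨f1, f2⟩ := hG j hj s hs k k2 ht h0 hb
          rw [if_neg hb, f1, one_mul, mul_zero, add_zero]
          exact f2)
    rw [XX_add (fun _ _ _ _ => c3), cst, XX_smul] at e1
    rw [hXB]
    exact e1
  have hzd : |XX M0 a r ρ h L g (fun j (s : Fin N → Fin 3) _ _ => z j (curve s)) - X1| ≤ XB := by
    rw [hX1, hXB]
    refine XX_abs (M0 := M0) (a := a) (r := r) (ρ := ρ) (h := h) (L := L) (g := g) hg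
      (G := fun j (s : Fin N → Fin 3) _ _ => z j (curve s)) (G' := fun _ _ _ _ => 1)
      (H := fun _ (s : Fin N → Fin 3) k k2 => (if B (N - (k2 - k)) (del s k k2) then (1 : ℝ) else 0))
      (fun j hj s hs k k2 ht h0 => ?_)
    by_cases hb : B (N - (k2 - k)) (del s k k2)
    · rw [if_pos hb]
      have f3 := hz j (curve s)
      rw [abs_le]
      constructor <;> linarith [f3.1, f3.2]
    · obtain ⟨f1, f2⟩ := hG j hj s hs k k2 ht h0 hb
      rw [if_neg hb, f1, sub_self, abs_zero]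
  rw [← hX1]
  refine ⟨?_, hzd.trans hBd⟩
  have g1 := abs_le.1 hfd
  have g2 := abs_le.1 hId
  have g3 : (M0 * c1 / p + c3 + 2 * (M0 * c2 / p)) * X1 = (M0 * c1 / p) * X1 + c3 * X1 + 2 * ((M0 * c2 / p) * X1) := by ring
  rw [g3, abs_le]
  constructor <;> linarith [g1.1, g1.2, g2.1, g2.2]

end

/-- a nested sum of sums -/
lemma S5_sum {ι : Type*} (M : ℕ) (J : Finset ι) (F : ι → ℕ → ℕ → ℕ → ℕ → ℕ → ℝ) :
    S5 M (fun i1 i2 i3 i4 i5 => ∑ x ∈ J, F x i1 i2 i3 i4 i5) = ∑ x ∈ J, S5 M (F x) := by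
  classical
  induction J using Finset.induction_on with
  | empty =>
    simp only [sum_empty]
    rw [S5_const, zero_mul]
  | insert x J hx ih =>
    simp only [sum_insert hx]
    rw [S5_add, ih]

lemma S5_mul (M : ℕ) (c : ℝ) (F : ℕ → ℕ → ℕ → ℕ → ℕ → ℝ) :
    S5 M (fun i1 i2 i3 i4 i5 => F i1 i2 i3 i4 i5 * c) = S5 M F * c := by
  simp only [S5, sum_mul]

end Pool.Agent.SCF.Z
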