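import Pool.Agent.SCF.Fin2B

/-!
# ScaleFlow, FIN, the grid for one number of steps (helper15)

`fixN` : all the estimates for one number `N` of steps, the parameters on the grid.
-/

set_option autoImplicit false

open Set Filter Topology MeasureTheory Finset

namespace Pool.Agent.SCF.Z

open Pool.Agent.NTS.Res
open Pool.Agent.CRT (CI)

/-- the average over the grid as a sum over the tuples -/
lemma ps_XX (M0 M : ℕ) (R L : ℕ → ℝ) (x1 x2 : ℝ) (hL : ∀ j, L j = L 0) {N : ℕ} (Φ : ℕ → (Fin N → Fin 3) → ℝ) :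
    ∑ j ∈ range M0, ∑ s ∈ saw N, ps1 M (R j) (L j) x1 x2 s * Φ j s =
      S5 M (fun i1 i2 i3 i4 i5 => XX M0 (fun j => gp M (R j / 4) (R j / 2) i1) (fun j => gp M (R j) (2 * R j) i2)
        (fun j => gp M (64 * R j) (128 * R j) i5) (gp M (L 0 / 32) (L 0 / 16) i3) (gp M (L 0) (2 * L 0) i4) (wt1 x1 x2 N)
        (fun j (s : Fin N → Fin 3) _ _ => Φ j s)) / (M : ℝ) ^ 5 := by
  classical
  have e : ∀ (j : ℕ) (s : Fin N → Fin 3), ps1 M (R j) (L j) x1 x2 s * Φ j s = S5 M (fun i1 i2 i3 i4 i5 =>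
      ∑ k ∈ range (N + 1), ∑ k2 ∈ range (N + 1), if T1 (gp M (R j / 4) (R j / 2) i1) (gp M (R j) (2 * R j) i2)
        (gp M (L 0 / 32) (L 0 / 16) i3) (gp M (L 0) (2 * L 0) i4) (gp M (64 * R j) (128 * R j) i5) s k k2 then
        wt1 x1 x2 N (k2 - k) * Φ j s else 0) / (M : ℝ) ^ 5 := by
    intro j s
    rw [ps1_def, hL j, div_mul_eq_mul_div]
    congr 1
    show S5 M _ * Φ j s = _
    rw [← S5_mul]
    refine sum_congr rfl fun i1 _ => sum_congr rfl fun i2 _ => sum_congr rfl fun i3 _ => sum_congr rfl fun i4 _ =>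
      sum_congr rfl fun i5 _ => ?_
    unfold in1
    beta_reduce
    rw [sum_mul]
    refine sum_congr rfl fun k _ => ?_
    rw [sum_mul]
    refine sum_congr rfl fun k2 _ => ?_
    split_ifs
    · rfl
    · rw [zero_mul]
  simp only [e, ← sum_div]
  congr 1
  unfold XX
  rw [S5_sum]
  refine sum_congr rfl fun j _ => ?_
  rw [S5_sum]

/-- the difference of two sums over the grid -/
lemma S5_rel {M : ℕ} {F G : ℕ → ℕ → ℕ → ℕ → ℕ → ℝ} {e c : ℝ}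
    (h : ∀ i1 i2 i3 i4 i5, i1 < M → i2 < M → i3 < M → i4 < M → i5 < M →
      |F i1 i2 i3 i4 i5 - e * G i1 i2 i3 i4 i5| ≤ c * G i1 i2 i3 i4 i5) : |S5 M F - e * S5 M G| ≤ c * S5 M G := by
  have e1 : ∀ x : ℝ, x * S5 M G = S5 M (fun i1 i2 i3 i4 i5 => x * G i1 i2 i3 i4 i5) := by
    intro x
    rw [mul_comm, ← S5_mul]
    simp only [mul_comm]
  rw [e1 e, e1 c]
  exact (S5_abs M _ _).trans (S5_mono h)

/-- the parameters of the grid as the parameters of `P0` -/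
lemma gp_u {M i : ℕ} (hi : i < M) (x : ℝ) : ∃ u : ℝ, 0 ≤ u ∧ u ≤ 1 ∧ gp M x (2 * x) i = (1 + u) * x := by
  have hM : (0 : ℝ) < M := by exact_mod_cast lt_of_le_of_lt (Nat.zero_le _) hi
  have h1 : ((i + 1 : ℕ) : ℝ) ≤ M := by exact_mod_cast hi
  have h2 : (0 : ℝ) ≤ ((i + 1 : ℕ) : ℝ) := Nat.cast_nonneg _
  refine ⟨((i + 1 : ℕ) : ℝ) / M, by positivity, (div_le_one hM).2 h1, ?_⟩
  unfold gp
  ring

open Classical in
/-- **all the estimates for one number of steps** -/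
theorem fixN (hD : Del) {M0 M N : ℕ} {R L κ x1 x2 e p q c c1 c2 c3 ε' : ℝ} (hM : 1 ≤ M) (hN : 0 < size N) (hR : 0 < R) (hL : 0 < L)
    (hLR : ∀ j < M0, L ≤ R / 2 ^ j / 8) {F : ∀ l : ℕ, (Fin l → Fin 3) → ℝ} {f : CI → ℝ}
    {B : ∀ l : ℕ, (Fin l → Fin 3) → Prop} (hp : 0 < p) (hq0 : 0 ≤ q) (hc1 : 0 ≤ c1) (hc2 : 0 ≤ c2) (hc3 : 0 ≤ c3)
    (hF : ∀ l v, |F l v| ≤ 1) (hf : ∀ γ, |f γ| ≤ 1)
    (hI : ∀ m ≤ N, 0 < wt1 x1 x2 N m → ∀ j < M0, ∀ a r ρ : ℝ, R / 2 ^ j * size N / 4 ≤ a → a ≤ R / 2 ^ j * size N / 2 →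
      R / 2 ^ j * size N ≤ r → r ≤ 2 * (R / 2 ^ j * size N) → 64 * (R / 2 ^ j * size N) ≤ ρ → ρ ≤ 128 * (R / 2 ^ j * size N) →
      |(∑ v ∈ saw (N - m), th0 a r ρ v * F (N - m) v) - e * ∑ v ∈ saw (N - m), th0 a r ρ v| ≤ c1 * ((saw (N - m)).card : ℝ))
    (hP : ∀ m ≤ N, 0 < wt1 x1 x2 N m → ∀ u1 u2 u3 : ℝ, 0 ≤ u1 → u1 ≤ 1 → 0 ≤ u2 → u2 ≤ 1 → 0 ≤ u3 → u3 ≤ 1 →
      p * ((saw (N - m)).card : ℝ) ≤ ∑ i ∈ range M0, ∑ v ∈ saw (N - m),
        th0 ((1 + u1) * (R * size N / 2 ^ i) / 4) ((1 + u2) * (R * size N / 2 ^ i)) (64 * (1 + u3) * (R * size N / 2 ^ i)) v)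
    (hB : ∀ m ≤ N, 0 < wt1 x1 x2 N m → (((saw (N - m)).filter fun v => B (N - m) v).card : ℝ) ≤ c2 * ((saw (N - m)).card : ℝ))
    (hG : ∀ j < M0, ∀ s ∈ saw N, ∀ (k k2 : ℕ) (a r h L' ρ : ℝ), T1 a r h L' ρ s k k2 → r ≤ 2 * (R / 2 ^ j * size N) →
      L' ≤ 2 * (L * size N) → 0 < wt1 x1 x2 N (k2 - k) → ¬ B (N - (k2 - k)) (del s k k2) →
      zc κ (1000 * (R / 2 ^ j)) (curve s) = 1 ∧ |f (curve s) - F (N - (k2 - k)) (del s k k2)| ≤ c3)
    {J : Finset ℕ} (hJ : J ⊆ range (N + 1)) (hg1 : ∀ m ∈ J, wt1 x1 x2 N m = 1)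
    (hq : ∀ m ∈ J, q * (((saw N).card : ℝ) * fug ^ N) ≤ ((saw (N - m)).card : ℝ) * fug ^ (N - m))
    (hc : ∀ h L' : ℝ, L * size N / 32 ≤ h → h ≤ L * size N / 16 → L * size N ≤ L' → c ≤ ∑ m ∈ J, bw h L' m)
    {φ : ℕ → CI → ℝ} (hφ : ∀ j < M0, ∑ s ∈ saw N, |ps1 M (R / 2 ^ j * size N) (L * size N) x1 x2 s *
      zc κ (1000 * (R / 2 ^ j)) (curve s) - φ j (curve s)| ≤ ε' * ((saw N).card : ℝ)) :
    ∃ D : ℝ, p * q * c * ((saw N).card : ℝ) ≤ D ∧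
      |(∑ s ∈ saw N, (∑ j ∈ range M0, φ j (curve s)) * f (curve s)) - e * D| ≤
        (M0 * c1 / p + c3 + 2 * (M0 * c2 / p)) * D + M0 * (ε' * ((saw N).card : ℝ)) ∧
      |(∑ s ∈ saw N, ∑ j ∈ range M0, φ j (curve s)) - D| ≤ (M0 * c2 / p) * D + M0 * (ε' * ((saw N).card : ℝ)) := by
  obtain ⟨RR, hRR⟩ : ∃ RR : ℕ → ℝ, RR = fun j => R / 2 ^ j * size N := ⟨_, rfl⟩
  obtain ⟨LL, hLL⟩ : ∃ LL : ℕ → ℝ, LL = fun _ => L * size N := ⟨_, rfl⟩
  have hRR' : ∀ j, RR j = R / 2 ^ j * size N := fun j => by rw [hRR]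
  have hLL' : ∀ j, LL j = L * size N := fun j => by rw [hLL]
  have hRRp : ∀ j, 0 < RR j := fun j => by
    rw [hRR']
    positivity
  have hLLp : 0 < LL 0 := by
    rw [hLL']
    positivity
  have hLR' : ∀ j < M0, LL 0 ≤ RR j / 8 := fun j hj => by
    rw [hLL', hRR']
    have := mul_le_mul_of_nonneg_right (hLR j hj) hN.le
    linarith
  have hM' : (0 : ℝ) < (M : ℝ) ^ 5 := by
    have : (0 : ℝ) < M := by exact_mod_cast hM
    positivity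
  have hz : ∀ (j : ℕ) (γ : CI), 0 ≤ zc κ (1000 * (R / 2 ^ j)) γ ∧ zc κ (1000 * (R / 2 ^ j)) γ ≤ 1 :=
    fun j γ => ⟨tr_nn _, tr_le _⟩
  have hg : ∀ m, 0 ≤ wt1 x1 x2 N m := fun m => wt1_nn _ _ _ _
  -- the parameters
  have ga : ∀ {i : ℕ}, i < M → ∀ j, RR j / 4 ≤ gp M (RR j / 4) (RR j / 2) i ∧ gp M (RR j / 4) (RR j / 2) i ≤ RR j / 2 :=
    fun hi j => gp_mem hi (by have := hRRp j; linarith)
  have gr : ∀ {i : ℕ}, i < M → ∀ j, RR j ≤ gp M (RR j) (2 * RR j) i ∧ gp M (RR j) (2 * RR j) i ≤ 2 * RR j :=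
    fun hi j => gp_mem hi (by have := hRRp j; linarith)
  have gρ : ∀ {i : ℕ}, i < M → ∀ j, 64 * RR j ≤ gp M (64 * RR j) (128 * RR j) i ∧ gp M (64 * RR j) (128 * RR j) i ≤ 128 * RR j :=
    fun hi j => gp_mem hi (by have := hRRp j; linarith)
  have gh : ∀ {i : ℕ}, i < M → LL 0 / 32 ≤ gp M (LL 0 / 32) (LL 0 / 16) i ∧ gp M (LL 0 / 32) (LL 0 / 16) i ≤ LL 0 / 16 :=
    fun hi => gp_mem hi (by linarith)
  have gL : ∀ {i : ℕ}, i < M → LL 0 ≤ gp M (LL 0) (2 * LL 0) i ∧ gp M (LL 0) (2 * LL 0) i ≤ 2 * LL 0 :=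
    fun hi => gp_mem hi (by linarith)
  have hPg : ∀ i1 i2 i5, i1 < M → i2 < M → i5 < M → ∀ m ≤ N, 0 < wt1 x1 x2 N m → p * ((saw (N - m)).card : ℝ) ≤
      ∑ j ∈ range M0, ∑ v ∈ saw (N - m), th0 (gp M (RR j / 4) (RR j / 2) i1) (gp M (RR j) (2 * RR j) i2)
        (gp M (64 * RR j) (128 * RR j) i5) v := by
    intro i1 i2 i5 h1 h2 h5 m hm h0
    obtain ⟨u, hu⟩ : ∃ u : ℕ → ℝ, ∀ i, u i = ((i + 1 : ℕ) : ℝ) / M := ⟨fun i => ((i + 1 : ℕ) : ℝ) / M, fun _ => rfl⟩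
    have hMp : (0 : ℝ) < M := by exact_mod_cast hM
    have u0 : ∀ i, i < M → 0 ≤ u i ∧ u i ≤ 1 := by
      intro i hi
      rw [hu]
      exact ⟨by positivity, (div_le_one hMp).2 (by exact_mod_cast hi)⟩
    have := hP m hm h0 (u i1) (u i2) (u i5) (u0 _ h1).1 (u0 _ h1).2 (u0 _ h2).1 (u0 _ h2).2 (u0 _ h5).1 (u0 _ h5).2
    refine this.trans (le_of_eq (sum_congr rfl fun j _ => sum_congr rfl fun v _ => ?_))
    have e0 : R * size N / 2 ^ j = RR j := by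
      rw [hRR']
      ring
    rw [e0, hu, hu, hu]
    have e1 : (1 + ((i1 + 1 : ℕ) : ℝ) / M) * RR j / 4 = gp M (RR j / 4) (RR j / 2) i1 := by
      unfold gp
      ring
    have e2 : (1 + ((i2 + 1 : ℕ) : ℝ) / M) * RR j = gp M (RR j) (2 * RR j) i2 := by
      unfold gp
      ring
    have e3 : 64 * (1 + ((i5 + 1 : ℕ) : ℝ) / M) * RR j = gp M (64 * RR j) (128 * RR j) i5 := by
      unfold gp
      ring
    rw [e1, e2, e3]
  -- one tuple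
  have tup : ∀ i1 i2 i3 i4 i5, i1 < M → i2 < M → i3 < M → i4 < M → i5 < M →
      |XX M0 (fun j => gp M (RR j / 4) (RR j / 2) i1) (fun j => gp M (RR j) (2 * RR j) i2)
        (fun j => gp M (64 * RR j) (128 * RR j) i5) (gp M (LL 0 / 32) (LL 0 / 16) i3) (gp M (LL 0) (2 * LL 0) i4) (wt1 x1 x2 N)
        (fun j (s : Fin N → Fin 3) _ _ => zc κ (1000 * (R / 2 ^ j)) (curve s) * f (curve s)) -
        e * XX M0 (fun j => gp M (RR j / 4) (RR j / 2) i1) (fun j => gp M (RR j) (2 * RR j) i2)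
        (fun j => gp M (64 * RR j) (128 * RR j) i5) (gp M (LL 0 / 32) (LL 0 / 16) i3) (gp M (LL 0) (2 * LL 0) i4) (wt1 x1 x2 N)
        (fun _ (_ : Fin N → Fin 3) _ _ => 1)| ≤
      (M0 * c1 / p + c3 + 2 * (M0 * c2 / p)) *
        XX M0 (fun j => gp M (RR j / 4) (RR j / 2) i1) (fun j => gp M (RR j) (2 * RR j) i2)
        (fun j => gp M (64 * RR j) (128 * RR j) i5) (gp M (LL 0 / 32) (LL 0 / 16) i3) (gp M (LL 0) (2 * LL 0) i4) (wt1 x1 x2 N)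
        (fun _ (_ : Fin N → Fin 3) _ _ => 1) ∧
      |XX M0 (fun j => gp M (RR j / 4) (RR j / 2) i1) (fun j => gp M (RR j) (2 * RR j) i2)
        (fun j => gp M (64 * RR j) (128 * RR j) i5) (gp M (LL 0 / 32) (LL 0 / 16) i3) (gp M (LL 0) (2 * LL 0) i4) (wt1 x1 x2 N)
        (fun j (s : Fin N → Fin 3) _ _ => zc κ (1000 * (R / 2 ^ j)) (curve s)) -
        XX M0 (fun j => gp M (RR j / 4) (RR j / 2) i1) (fun j => gp M (RR j) (2 * RR j) i2)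
        (fun j => gp M (64 * RR j) (128 * RR j) i5) (gp M (LL 0 / 32) (LL 0 / 16) i3) (gp M (LL 0) (2 * LL 0) i4) (wt1 x1 x2 N)
        (fun _ (_ : Fin N → Fin 3) _ _ => 1)| ≤
      (M0 * c2 / p) *
        XX M0 (fun j => gp M (RR j / 4) (RR j / 2) i1) (fun j => gp M (RR j) (2 * RR j) i2)
        (fun j => gp M (64 * RR j) (128 * RR j) i5) (gp M (LL 0 / 32) (LL 0 / 16) i3) (gp M (LL 0) (2 * LL 0) i4) (wt1 x1 x2 N)
        (fun _ (_ : Fin N → Fin 3) _ _ => 1) := by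
    intro i1 i2 i3 i4 i5 h1 h2 h3 h4 h5
    refine XX_tuple (M0 := M0) (N := N) (B := B) hD (fun j _ => ?_) ?_ ?_ (fun j hj => ?_) (fun j hj => ?_) hg hp hc1 hc2 hc3
      hF hf hz (fun m hm h0 j hj => ?_) (hPg i1 i2 i5 h1 h2 h5) hB (fun j hj s hs k k2 ht h0 hb => ?_)
    · have := hRRp j
      linarith [(ga h1 j).1]
    · linarith [(gh h3).1]
    · linarith [(gL h4).1]
    · have := hRRp j
      linarith [(gr h2 j).2, (gρ h5 j).1]
    · exact grid_cond (hRRp j).le hLLp.le (hLR' j hj) h2 h4 h5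
    · have a1 := ga h1 j
      have a2 := gr h2 j
      have a3 := gρ h5 j
      have b1 := hRR' j
      refine hI m hm h0 j hj _ _ _ ?_ ?_ ?_ ?_ ?_ ?_
      · rw [← b1]; exact a1.1
      · rw [← b1]; exact a1.2
      · rw [← b1]; exact a2.1
      · rw [← b1]; exact a2.2
      · rw [← b1]; exact a3.1
      · rw [← b1]; exact a3.2
    · refine hG j hj s hs k k2 _ _ _ _ _ ht ?_ ?_ h0 hb
      · rw [← hRR' j]; exact (gr h2 j).2
      · rw [← hLL' 0]; exact (gL h4).2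
  have tlow : ∀ i1 i2 i3 i4 i5, i1 < M → i2 < M → i3 < M → i4 < M → i5 < M → p * q * c * ((saw N).card : ℝ) ≤
      XX M0 (fun j => gp M (RR j / 4) (RR j / 2) i1) (fun j => gp M (RR j) (2 * RR j) i2)
        (fun j => gp M (64 * RR j) (128 * RR j) i5) (gp M (LL 0 / 32) (LL 0 / 16) i3) (gp M (LL 0) (2 * LL 0) i4) (wt1 x1 x2 N)
        (fun _ (_ : Fin N → Fin 3) _ _ => 1) := by
    intro i1 i2 i3 i4 i5 h1 h2 h3 h4 h5
    refine XX_low (M0 := M0) (N := N) hD (fun j _ => ?_) ?_ ?_ (fun j hj => ?_) hg hJ hg1 hp.le hq0 (fun m hm => ?_) hq ?_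
    · have := hRRp j
      linarith [(ga h1 j).1]
    · linarith [(gh h3).1]
    · linarith [(gL h4).1]
    · exact grid_cond (hRRp j).le hLLp.le (hLR' j hj) h2 h4 h5
    · exact hPg i1 i2 i5 h1 h2 h5 m (Nat.lt_succ_iff.1 (mem_range.1 (hJ hm))) (by rw [hg1 m hm]; exact zero_lt_one)
    · refine hc _ _ ?_ ?_ ?_
      · rw [← hLL' 0]; exact (gh h3).1
      · rw [← hLL' 0]; exact (gh h3).2
      · rw [← hLL' 0]; exact (gL h4).1
  -- the average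
  have cLL : ∀ j, LL j = LL 0 := fun j => by rw [hLL', hLL']
  have v1 := ps_XX M0 M RR LL x1 x2 cLL (N := N) (fun _ _ => 1)
  have v2 := ps_XX M0 M RR LL x1 x2 cLL (N := N) (fun j s => zc κ (1000 * (R / 2 ^ j)) (curve s) * f (curve s))
  have v3 := ps_XX M0 M RR LL x1 x2 cLL (N := N) (fun j s => zc κ (1000 * (R / 2 ^ j)) (curve s))
  obtain ⟨D, hDD⟩ : ∃ D, D = ∑ j ∈ range M0, ∑ s ∈ saw N, ps1 M (RR j) (LL j) x1 x2 s * 1 := ⟨_, rfl⟩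
  obtain ⟨V2, hV2⟩ : ∃ D, D = ∑ j ∈ range M0, ∑ s ∈ saw N, ps1 M (RR j) (LL j) x1 x2 s *
    (zc κ (1000 * (R / 2 ^ j)) (curve s) * f (curve s)) := ⟨_, rfl⟩
  obtain ⟨V3, hV3⟩ : ∃ D, D = ∑ j ∈ range M0, ∑ s ∈ saw N, ps1 M (RR j) (LL j) x1 x2 s *
    zc κ (1000 * (R / 2 ^ j)) (curve s) := ⟨_, rfl⟩
  rw [← hDD] at v1
  rw [← hV2] at v2
  rw [← hV3] at v3
  have w2 : |V2 - e * D| ≤ (M0 * c1 / p + c3 + 2 * (M0 * c2 / p)) * D := by
    rw [v1, v2, ← mul_div_assoc, ← sub_div, abs_div, abs_of_pos hM', ← mul_div_assoc, div_le_div_iff_of_pos_right hM']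
    exact S5_rel fun i1 i2 i3 i4 i5 h1 h2 h3 h4 h5 => (tup i1 i2 i3 i4 i5 h1 h2 h3 h4 h5).1
  have w3 : |V3 - D| ≤ (M0 * c2 / p) * D := by
    have w3' : |V3 - 1 * D| ≤ (M0 * c2 / p) * D := by
      rw [v1, v3, ← mul_div_assoc, ← sub_div, abs_div, abs_of_pos hM', ← mul_div_assoc, div_le_div_iff_of_pos_right hM']
      refine S5_rel fun i1 i2 i3 i4 i5 h1 h2 h3 h4 h5 => ?_
      rw [one_mul]
      exact (tup i1 i2 i3 i4 i5 h1 h2 h3 h4 h5).2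
    rwa [one_mul] at w3'
  have w1 : p * q * c * ((saw N).card : ℝ) ≤ D := by
    rw [v1, le_div_iff₀ hM', ← S5_const]
    exact S5_mono fun i1 i2 i3 i4 i5 h1 h2 h3 h4 h5 => tlow i1 i2 i3 i4 i5 h1 h2 h3 h4 h5
  -- the functionals of the curve
  have y : ∀ u : CI → ℝ, (∀ γ, |u γ| ≤ 1) → |(∑ s ∈ saw N, (∑ j ∈ range M0, φ j (curve s)) * u (curve s)) -
      ∑ j ∈ range M0, ∑ s ∈ saw N, ps1 M (RR j) (LL j) x1 x2 s * (zc κ (1000 * (R / 2 ^ j)) (curve s) * u (curve s))| ≤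
      M0 * (ε' * ((saw N).card : ℝ)) := by
    intro u hu
    have e1 : ∑ s ∈ saw N, (∑ j ∈ range M0, φ j (curve s)) * u (curve s) =
        ∑ j ∈ range M0, ∑ s ∈ saw N, φ j (curve s) * u (curve s) := by
      rw [sum_comm]
      exact sum_congr rfl fun s _ => sum_mul _ _ _
    rw [e1, ← sum_sub_distrib]
    refine (abs_sum_le_sum_abs _ _).trans ?_
    have e2 : ∑ j ∈ range M0, |∑ s ∈ saw N, φ j (curve s) * u (curve s) -
        ∑ s ∈ saw N, ps1 M (RR j) (LL j) x1 x2 s * (zc κ (1000 * (R / 2 ^ j)) (curve s) * u (curve s))| ≤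
        ∑ _j ∈ range M0, ε' * ((saw N).card : ℝ) := by
      refine sum_le_sum fun j hj => ?_
      rw [← sum_sub_distrib]
      refine (abs_sum_le_sum_abs _ _).trans (le_trans (sum_le_sum fun s _ => ?_) (hφ j (mem_range.1 hj)))
      rw [hRR' j, hLL' j]
      have e3 : φ j (curve s) * u (curve s) - ps1 M (R / 2 ^ j * size N) (L * size N) x1 x2 s *
          (zc κ (1000 * (R / 2 ^ j)) (curve s) * u (curve s)) =
          -((ps1 M (R / 2 ^ j * size N) (L * size N) x1 x2 s * zc κ (1000 * (R / 2 ^ j)) (curve s) - φ j (curve s)) *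
            u (curve s)) := by ring
      rw [e3, abs_neg, abs_mul]
      calc _ ≤ |ps1 M (R / 2 ^ j * size N) (L * size N) x1 x2 s * zc κ (1000 * (R / 2 ^ j)) (curve s) - φ j (curve s)| * 1 :=
            mul_le_mul_of_nonneg_left (hu _) (abs_nonneg _)
        _ = _ := mul_one _
    rw [sum_const, card_range, nsmul_eq_mul] at e2
    exact e2
  refine ⟨D, w1, ?_, ?_⟩
  · have y1 := abs_le.1 (y f hf)
    rw [← hV2] at y1
    have y2 := abs_le.1 w2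
    rw [abs_le]
    constructor <;> linarith [y1.1, y1.2, y2.1, y2.2]
  · have y1 := y (fun _ => 1) (fun _ => by rw [abs_one])
    simp only [mul_one] at y1
    rw [← hV3] at y1
    have y1 := abs_le.1 y1
    have y2 := abs_le.1 w3
    rw [abs_le]
    constructor <;> linarith [y1.1, y1.2, y2.1, y2.2]

end Pool.Agent.SCF.Z
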