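import Pool.Agent.SCF.TwoPub
import Pool.Agent.NTA.FinXAll
import Pool.Agent.NTS.MergeF

/-!
# ScaleFlow, FIN, the last step (helper15): from the core estimate to the convergence along `⌊lam φ⌋`

* `Core lam` : the mean of a Lipschitz function of the walk with `l = ⌊lam N⌋` steps in the unit `size N` is, up to `ε`, the
  quotient of the means of two fixed functionals of the walk with `N` steps;
* **`sc_core`** : `Core lam` implies the convergence of the laws along `⌊lam φ⌋` and of the ratio of the sizes; `scAt_of_core`.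
-/

set_option autoImplicit false

open Filter Topology MeasureTheory Set

namespace Pool.Agent.SCF

open Pool.Agent.NTS.Res
open NTSF (PM lawTo_iff eq_of_lip tendsto_integral_smul bddc)
open NTSF.Mg (oneFacts exists_K)

/-- **the core of the half `lam < 1`** -/
def Core (lam : ℝ) : Prop := ∀ (f : C(unitInterval, ℂ) → ℝ) (K : NNReal), LipschitzWith K f → (∀ γ, |f γ| ≤ 1) →
  ∀ ε : ℝ, 0 < ε → ∃ (Ψ Θ : BoundedContinuousFunction C(unitInterval, ℂ) ℝ) (p : ℝ) (N0 : ℕ), 0 < p ∧ ∀ N : ℕ, N0 ≤ N →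
    p ≤ ∫ γ, Θ γ ∂(law N) ∧
    |∫ γ, Ψ γ ∂(law N) - (∫ γ, f ((size ⌊lam * N⌋₊ / size N : ℝ) • γ) ∂(law ⌊lam * N⌋₊)) * ∫ γ, Θ γ ∂(law N)| ≤
      ε * ∫ γ, Θ γ ∂(law N)

/-- the means of the scaled curves converge -/
lemma core_lim {lam : ℝ} (hC : Core lam) {φ : ℕ → ℕ} {ν : Measure C(unitInterval, ℂ)} (hφ : Tendsto φ atTop atTop)
    (hlim : LawTo φ ν) {f : C(unitInterval, ℂ) → ℝ} {K : NNReal} (hK : LipschitzWith K f) (hf : ∀ γ, |f γ| ≤ 1) :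
    ∃ y : ℝ, Tendsto (fun j => ∫ γ, f ((size ⌊lam * φ j⌋₊ / size (φ j) : ℝ) • γ) ∂(law ⌊lam * φ j⌋₊)) atTop (𝓝 y) := by
  obtain ⟨x, hx⟩ : ∃ x : ℕ → ℝ, x = fun j => ∫ γ, f ((size ⌊lam * φ j⌋₊ / size (φ j) : ℝ) • γ) ∂(law ⌊lam * φ j⌋₊) := ⟨_, rfl⟩
  have key : ∀ ε : ℝ, 0 < ε → ∃ (A : ℝ) (N : ℕ), ∀ j, N ≤ j → |x j - A| ≤ 2 * ε := by
    intro ε hε
    obtain ⟨Ψ, Θ, p, N0, hp, h⟩ := hC f K hK hf ε hε
    have a1 := hlim Ψ
    have a2 := hlim Θ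
    have a3 : p ≤ ∫ γ, Θ γ ∂ν := by
      refine ge_of_tendsto a2 ?_
      filter_upwards [hφ.eventually_ge_atTop N0] with j hj
      exact (h _ hj).1
    have a4 := a1.div a2 (by linarith : (0 : ℝ) < ∫ γ, Θ γ ∂ν).ne'
    obtain ⟨N1, h1⟩ := Metric.tendsto_atTop.1 a4 ε hε
    obtain ⟨N2, h2⟩ := eventually_atTop.1 (hφ.eventually_ge_atTop N0)
    refine ⟨(∫ γ, Ψ γ ∂ν) / ∫ γ, Θ γ ∂ν, max N1 N2, fun j hj => ?_⟩
    have b1 := h1 j ((le_max_left _ _).trans hj)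
    obtain ⟨b2, b3⟩ := h _ (h2 j ((le_max_right _ _).trans hj))
    rw [Real.dist_eq] at b1
    have b4 : 0 < ∫ γ, Θ γ ∂(law (φ j)) := lt_of_lt_of_le hp b2
    have b5 : |(∫ γ, Ψ γ ∂(law (φ j))) / (∫ γ, Θ γ ∂(law (φ j))) - x j| ≤ ε := by
      rw [hx]
      rw [show (∫ γ, Ψ γ ∂(law (φ j))) / (∫ γ, Θ γ ∂(law (φ j))) -
          ∫ γ, f ((size ⌊lam * φ j⌋₊ / size (φ j) : ℝ) • γ) ∂(law ⌊lam * φ j⌋₊) =
          ((∫ γ, Ψ γ ∂(law (φ j))) - (∫ γ, f ((size ⌊lam * φ j⌋₊ / size (φ j) : ℝ) • γ) ∂(law ⌊lam * φ j⌋₊)) *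
            ∫ γ, Θ γ ∂(law (φ j))) / ∫ γ, Θ γ ∂(law (φ j)) by field_simp]
      rw [abs_div, abs_of_pos b4, div_le_iff₀ b4]
      exact b3
    have b6 := abs_le.1 b5
    have b7 := abs_lt.1 b1
    have b8 : (∫ γ, Ψ γ ∂(law (φ j))) / (∫ γ, Θ γ ∂(law (φ j))) =
        ((fun k => ∫ γ, Ψ γ ∂(law (φ k))) / fun k => ∫ γ, Θ γ ∂(law (φ k))) j := rfl
    rw [b8] at b6
    rw [abs_le]
    constructor <;> linarith [b6.1, b6.2, b7.1, b7.2]
  have hcau : CauchySeq x := by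
    rw [Metric.cauchySeq_iff]
    intro ε hε
    obtain ⟨A, N, h⟩ := key (ε / 8) (by positivity)
    refine ⟨N, fun m hm n hn => ?_⟩
    rw [Real.dist_eq]
    have h1 := abs_le.1 (h m hm)
    have h2 := abs_le.1 (h n hn)
    rw [abs_lt]
    constructor <;> linarith [h1.1, h1.2, h2.1, h2.2]
  obtain ⟨y, hy⟩ := cauchySeq_tendsto_of_complete hcau
  exact ⟨y, by rw [hx] at hy; exact hy⟩

/-- the scaled law determines the law and the factor -/
lemma scaled_uniq {ν ν' : ProbabilityMeasure C(unitInterval, ℂ)} {s s' : ℝ} (hs : 0 < s) (hs' : 0 < s')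
    (h : ∀ f : C(unitInterval, ℂ) → ℝ, (∀ x, 0 ≤ f x ∧ f x ≤ 1) → (∃ L, LipschitzWith L f) →
      ∫ z, f (s • z) ∂(ν : Measure C(unitInterval, ℂ)) = ∫ z, f (s' • z) ∂(ν' : Measure C(unitInterval, ℂ)))
    (h1 : ∫ z : C(unitInterval, ℂ), ‖z 1‖ ^ 2 ∂(ν : Measure C(unitInterval, ℂ)) = 1)
    (h2 : ∫ z : C(unitInterval, ℂ), ‖z 1‖ ^ 2 ∂(ν' : Measure C(unitInterval, ℂ)) = 1) : ν = ν' ∧ s = s' := by
  have hcont : ∀ a : ℝ, Continuous fun z : C(unitInterval, ℂ) => a • z := fun a => continuous_const_smul a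
  have hmeas : ∀ a : ℝ, Measurable fun z : C(unitInterval, ℂ) => a • z := fun a => (hcont a).measurable
  have eqm : ν.map (hmeas s).aemeasurable = ν'.map (hmeas s').aemeasurable := by
    refine eq_of_lip fun f hf hL => ?_
    have hfc : Continuous f := hL.choose_spec.continuous
    have i1 : ∀ (ρ : ProbabilityMeasure C(unitInterval, ℂ)) (a : ℝ),
        ∫ z, f z ∂((ρ.map (hmeas a).aemeasurable : ProbabilityMeasure C(unitInterval, ℂ)) : Measure C(unitInterval, ℂ)) =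
        ∫ z, f (a • z) ∂(ρ : Measure C(unitInterval, ℂ)) := by
      intro ρ a
      rw [ProbabilityMeasure.toMeasure_map, integral_map (hmeas a).aemeasurable hfc.aestronglyMeasurable]
    rw [i1, i1]
    exact h f hf hL
  have hqc : Continuous fun z : C(unitInterval, ℂ) => ‖z 1‖ ^ 2 := (NTF.cont_eval 1).norm.pow 2
  have hq : ∀ (a : ℝ) (z : C(unitInterval, ℂ)), ‖(a • z) 1‖ ^ 2 = a ^ 2 * ‖z 1‖ ^ 2 := by
    intro a z
    rw [ContinuousMap.smul_apply, norm_smul, mul_pow, Real.norm_eq_abs, sq_abs]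
  have q1 : ∀ (ρ : ProbabilityMeasure C(unitInterval, ℂ)) (a : ℝ),
      ∫ z : C(unitInterval, ℂ), ‖z 1‖ ^ 2 ∂((ρ.map (hmeas a).aemeasurable : ProbabilityMeasure C(unitInterval, ℂ)) :
        Measure C(unitInterval, ℂ)) = a ^ 2 * ∫ z : C(unitInterval, ℂ), ‖z 1‖ ^ 2 ∂(ρ : Measure C(unitInterval, ℂ)) := by
    intro ρ a
    rw [ProbabilityMeasure.toMeasure_map, integral_map (hmeas a).aemeasurable hqc.aestronglyMeasurable]
    simp_rw [hq]
    rw [integral_const_mul]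
  have hss : s = s' := by
    have b1 := q1 ν s
    have b2 := q1 ν' s'
    rw [eqm, b2, h1, h2] at b1
    have b3 : s' ^ 2 = s ^ 2 := by linarith
    exact ((sq_eq_sq₀ hs'.le hs.le).1 b3).symm
  refine ⟨?_, hss⟩
  have b1 : ∀ ρ : ProbabilityMeasure C(unitInterval, ℂ), (ρ.map (hmeas s).aemeasurable).map (hmeas s⁻¹).aemeasurable = ρ := by
    intro ρ
    apply Subtype.ext
    show ((ρ.map (hmeas s).aemeasurable).map (hmeas s⁻¹).aemeasurable : Measure C(unitInterval, ℂ)) =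
      (ρ : Measure C(unitInterval, ℂ))
    rw [ProbabilityMeasure.toMeasure_map, ProbabilityMeasure.toMeasure_map, Measure.map_map (hmeas s⁻¹) (hmeas s)]
    have e : ((fun z : C(unitInterval, ℂ) => s⁻¹ • z) ∘ fun z : C(unitInterval, ℂ) => s • z) = id := by
      funext z
      show s⁻¹ • (s • z) = z
      rw [smul_smul, inv_mul_cancel₀ hs.ne', one_smul]
    rw [e, Measure.map_id]
  rw [← b1 ν, ← b1 ν']
  congr 1
  rw [eqm, hss]

/-- the ratio of the sizes is bounded above and below -/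
lemma ratio_bd {lam : ℝ} (h0 : 0 < lam) (h1 : lam ≤ 1) : ∃ c C : ℝ, 0 < c ∧ ∃ N0 : ℕ, ∀ N : ℕ, N0 ≤ N →
    1 ≤ ⌊lam * N⌋₊ ∧ c ≤ size ⌊lam * N⌋₊ / size N ∧ size ⌊lam * N⌋₊ / size N ≤ C := by
  obtain ⟨c, C, hc, hsz⟩ := (oneFacts NTSF.finE).sz
  have hcC : c ≤ C := by
    have := hsz 1 le_rfl
    rw [Nat.cast_one, Real.one_rpow, mul_one, mul_one] at this
    exact this.1.trans this.2
  have hC : 0 < C := lt_of_lt_of_le hc hcC
  obtain ⟨N0, hN0⟩ := exists_nat_ge (2 / lam)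
  refine ⟨c * (lam / 2) ^ (3 / 4 : ℝ) / C, C / c, by positivity, N0 + 1, fun N hN => ?_⟩
  have hN1 : (1 : ℝ) ≤ N := by exact_mod_cast (by omega : 1 ≤ N)
  have hN2 : 2 / lam ≤ N := hN0.trans (by exact_mod_cast (by omega : N0 ≤ N))
  have hl : 2 ≤ lam * N := by
    rw [div_le_iff₀ h0] at hN2
    linarith
  obtain ⟨l, hl1⟩ : ∃ l : ℕ, l = ⌊lam * N⌋₊ := ⟨_, rfl⟩
  have hfl : lam * N < l + 1 := by rw [hl1]; exact Nat.lt_floor_add_one _
  have hfl2 : (l : ℝ) ≤ lam * N := by rw [hl1]; exact Nat.floor_le (by linarith)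
  have hl2 : 1 ≤ l := by
    have : (1 : ℝ) < l + 0 := by linarith
    have : (1 : ℝ) < l := by linarith
    exact_mod_cast this.le
  rw [← hl1]
  have hN0' : (0 : ℝ) < N := by linarith
  have s1 := hsz l hl2
  have s2 := hsz N (by omega)
  have p2 : 0 < (N : ℝ) ^ (3 / 4 : ℝ) := by positivity
  have hsN : 0 < size N := lt_of_lt_of_le (by positivity) s2.1
  have e1 : (l : ℝ) ^ (3 / 4 : ℝ) ≤ (N : ℝ) ^ (3 / 4 : ℝ) :=
    Real.rpow_le_rpow (Nat.cast_nonneg _) (hfl2.trans (by nlinarith)) (by norm_num)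
  have e2 : (lam / 2) ^ (3 / 4 : ℝ) * (N : ℝ) ^ (3 / 4 : ℝ) ≤ (l : ℝ) ^ (3 / 4 : ℝ) := by
    rw [← Real.mul_rpow (by positivity) hN0'.le]
    exact Real.rpow_le_rpow (by positivity) (by linarith) (by norm_num)
  refine ⟨hl2, ?_, ?_⟩
  · rw [div_le_div_iff₀ hC hsN]
    calc c * (lam / 2) ^ (3 / 4 : ℝ) * size N ≤ c * (lam / 2) ^ (3 / 4 : ℝ) * (C * (N : ℝ) ^ (3 / 4 : ℝ)) :=
          mul_le_mul_of_nonneg_left s2.2 (by positivity)
      _ = c * ((lam / 2) ^ (3 / 4 : ℝ) * (N : ℝ) ^ (3 / 4 : ℝ)) * C := by ring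
      _ ≤ c * (l : ℝ) ^ (3 / 4 : ℝ) * C := by gcongr
      _ ≤ size l * C := mul_le_mul_of_nonneg_right s1.1 hC.le
  · rw [div_le_div_iff₀ hsN hc]
    calc size l * c ≤ C * (l : ℝ) ^ (3 / 4 : ℝ) * c := mul_le_mul_of_nonneg_right s1.2 hc.le
      _ ≤ C * (N : ℝ) ^ (3 / 4 : ℝ) * c := by gcongr
      _ = C * (c * (N : ℝ) ^ (3 / 4 : ℝ)) := by ring
      _ ≤ C * size N := mul_le_mul_of_nonneg_left s2.1 hC.le

/-- **the last step**: the laws and the ratio of the sizes converge -/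
theorem sc_core {lam : ℝ} (h0 : 0 < lam) (h1 : lam ≤ 1) (hC : Core lam) {φ : ℕ → ℕ} {ν : Measure C(unitInterval, ℂ)}
    (hφ : Tendsto φ atTop atTop) (hlim : LawTo φ ν) : ∃ (ν' : ProbabilityMeasure C(unitInterval, ℂ)) (r : ℝ), 0 < r ∧
      LawTo (fun j => ⌊lam * φ j⌋₊) (ν' : Measure C(unitInterval, ℂ)) ∧
      Tendsto (fun j => size ⌊lam * φ j⌋₊ / size (φ j)) atTop (𝓝 r) := by
  obtain ⟨c, C, hc, N0, hb⟩ := ratio_bd h0 h1
  obtain ⟨KK, hKK, hPK⟩ := exists_K (oneFacts NTSF.finE)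
  have hL : Tendsto (fun j => ⌊lam * (φ j : ℝ)⌋₊) atTop atTop :=
    tendsto_nat_floor_atTop.comp ((tendsto_natCast_atTop_atTop.comp hφ).const_mul_atTop h0)
  -- subsequences
  have sub : ∀ ns : ℕ → ℕ, Tendsto ns atTop atTop → ∃ ψ : ℕ → ℕ, StrictMono ψ ∧
      ∃ (μ : ProbabilityMeasure C(unitInterval, ℂ)) (r : ℝ), 0 < r ∧
        Tendsto (fun k => PM ⌊lam * φ (ns (ψ k))⌋₊) atTop (𝓝 μ) ∧
        Tendsto (fun k => size ⌊lam * φ (ns (ψ k))⌋₊ / size (φ (ns (ψ k)))) atTop (𝓝 r) := by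
    intro ns hns
    obtain ⟨n1, hn1⟩ := eventually_atTop.1 ((hφ.comp hns).eventually_ge_atTop N0)
    obtain ⟨μ, -, ψ1, m1, l1⟩ := hKK.tendsto_subseq (x := fun k => PM ⌊lam * φ (ns k)⌋₊) (fun k => hPK _)
    obtain ⟨r, hr, ψ2, m2, l2⟩ := (isCompact_Icc (a := c) (b := C)).tendsto_subseq
      (x := fun k => size ⌊lam * φ (ns (ψ1 (k + n1)))⌋₊ / size (φ (ns (ψ1 (k + n1))))) (fun k => by
        have h2 := hb (φ (ns (ψ1 (k + n1)))) (hn1 _ ((Nat.le_add_left n1 k).trans (m1.id_le _)))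
        exact ⟨h2.2.1, h2.2.2⟩)
    have m3 : StrictMono fun k => ψ1 (ψ2 k + n1) := fun a b hab => m1 (Nat.add_lt_add_right (m2 hab) n1)
    refine ⟨fun k => ψ1 (ψ2 k + n1), m3, μ, r, lt_of_lt_of_le hc hr.1, ?_, l2⟩
    exact l1.comp ((tendsto_add_atTop_nat n1).comp m2.tendsto_atTop)
  obtain ⟨ψ, mψ, μ, r, hr, l1, l2⟩ := sub id tendsto_id
  -- uniqueness
  have uniq : ∀ ns : ℕ → ℕ, Tendsto ns atTop atTop → ∃ ψ' : ℕ → ℕ,
      Tendsto (fun k => PM ⌊lam * φ (ns (ψ' k))⌋₊) atTop (𝓝 μ) ∧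
        Tendsto (fun k => size ⌊lam * φ (ns (ψ' k))⌋₊ / size (φ (ns (ψ' k)))) atTop (𝓝 r) := by
    intro ns hns
    obtain ⟨ψ', mψ', μ', r', hr', l1', l2'⟩ := sub ns hns
    have t1 : Tendsto (fun k => φ (id (ψ k))) atTop atTop := hφ.comp mψ.tendsto_atTop
    have t2 : Tendsto (fun k => φ (ns (ψ' k))) atTop atTop := hφ.comp (hns.comp mψ'.tendsto_atTop)
    obtain ⟨g1, g2⟩ := scaled_uniq (ν := μ) (ν' := μ') hr hr' (fun f hf hL' => by
      obtain ⟨K, hK⟩ := hL'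
      have hfc : Continuous f := hK.continuous
      have habs : ∀ γ, |f γ| ≤ 1 := fun γ => by
        rw [abs_of_nonneg (hf γ).1]
        exact (hf γ).2
      obtain ⟨y, hy⟩ := core_lim hC hφ hlim hK habs
      have a1 := tendsto_integral_smul l1 l2 (BoundedContinuousFunction.mkOfBound ⟨f, hfc⟩ 1 (bddc hf))
      have a2 := tendsto_integral_smul l1' l2' (BoundedContinuousFunction.mkOfBound ⟨f, hfc⟩ 1 (bddc hf))
      have b1 := hy.comp mψ.tendsto_atTop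
      have b2 := hy.comp (hns.comp mψ'.tendsto_atTop)
      have c1 := tendsto_nhds_unique a1 b1
      have c2 := tendsto_nhds_unique a2 b2
      exact c1.trans c2.symm)
      ((oneFacts NTSF.finE).sec _ _ (hL.comp mψ.tendsto_atTop) inferInstance ((lawTo_iff μ).2 l1))
      ((oneFacts NTSF.finE).sec _ _ (hL.comp (hns.comp mψ'.tendsto_atTop)) inferInstance ((lawTo_iff μ').2 l1'))
    refine ⟨ψ', ?_, ?_⟩
    · rw [g1]
      exact l1'
    · rw [g2]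
      exact l2'
  refine ⟨μ, r, hr, ?_, ?_⟩
  · refine (lawTo_iff μ).2 (tendsto_of_subseq_tendsto fun ns hns => ?_)
    obtain ⟨ψ', g1, -⟩ := uniq ns hns
    exact ⟨ψ', g1⟩
  · refine tendsto_of_subseq_tendsto fun ns hns => ?_
    obtain ⟨ψ', -, g2⟩ := uniq ns hns
    exact ⟨ψ', g2⟩

/-- the factor `lam` -/
theorem scAt_of_core {lam : ℝ} (h0 : 0 < lam) (h1 : lam ≤ 1) (hC : Core lam) : ScAt lam := by
  intro φ ν hφ _ hlim
  obtain ⟨ν', r, -, h2, -⟩ := sc_core h0 h1 hC hφ hlim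
  exact ⟨ν', inferInstance, h2⟩

/-- **ScX1 from the core** -/
theorem scX1_of_core (h : ∀ lam : ℝ, 0 < lam → lam < 1 → Core lam) : ScX1 := by
  intro lam h0 h1
  rcases lt_or_eq_of_le h1 with h2 | h2
  · exact scAt_of_core h0 h1 (h lam h0 h2)
  · intro φ ν hφ hν hlim
    refine ⟨ν, hν, ?_⟩
    have e : (fun j => ⌊lam * φ j⌋₊) = φ := by
      funext j
      rw [h2, one_mul, Nat.floor_natCast]
    rw [e]
    exact hlim

end Pool.Agent.SCF
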