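import Pool.Agent.SCF.Fin2C
import Pool.Agent.SCF.Fin3
import Pool.Agent.CRT.RPerfA

/-!
# ScaleFlow, FIN, the core (helper15)

`core_of` : the core of the half `lam < 1` from the rows `Del, MacT1, Ind, Far1, P0, PosB` and two facts on slow variation.
-/

set_option autoImplicit false

open Filter Topology MeasureTheory Set

namespace Pool.Agent.SCF

open Pool.Agent.NTS.Res
open Pool.Agent.CRT (CI)
open Pool.Agent.SCF.Z
open NTSF.Mg (oneFacts)

/-- slow variation of the law and of the size -/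
def SlowE (lam : ℝ) : Prop := ∀ (f : CI → ℝ) (K : NNReal), LipschitzWith K f → (∀ γ, |f γ| ≤ 1) → ∀ e : ℝ, 0 < e →
  ∃ η : ℝ, 0 < η ∧ ∃ N0 : ℕ, ∀ N : ℕ, N0 ≤ N → ∀ l l' : ℕ, |(l : ℝ) - lam * N| ≤ η * N → |(l' : ℝ) - lam * N| ≤ η * N →
    |∫ γ, f ((size l / size N : ℝ) • γ) ∂(law l) - ∫ γ, f ((size l' / size N : ℝ) • γ) ∂(law l')| ≤ e

/-- the numbers of walks -/
def ARatio : Prop := ∀ x : ℝ, 0 < x → x < 1 → ∃ c : ℝ, 0 < c ∧ ∃ N0 : ℕ, ∀ N : ℕ, N0 ≤ N → ∀ l : ℕ, x * N ≤ l → l ≤ N →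
  c * (((saw N).card : ℝ) * fug ^ N) ≤ ((saw l).card : ℝ) * fug ^ l

/-- the ratio of the sizes -/
lemma szR {x : ℝ} (hx : 0 < x) : ∃ c C : ℝ, 0 < c ∧ 0 < C ∧ ∀ N l : ℕ, 1 ≤ l → x * N ≤ l → l ≤ N →
    c * size N ≤ size l ∧ size l ≤ C * size N := by
  obtain ⟨c, C, hc, hsz⟩ := (oneFacts NTSF.finE).sz
  have hcC : c ≤ C := by
    have := hsz 1 le_rfl
    rw [Nat.cast_one, Real.one_rpow, mul_one, mul_one] at this
    exact this.1.trans this.2
  have hC : 0 < C := lt_of_lt_of_le hc hcC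
  refine ⟨c * x ^ (3 / 4 : ℝ) / C, C / c, by positivity, by positivity, fun N l hl h1 h2 => ?_⟩
  have hN : 1 ≤ N := hl.trans h2
  have hN0 : (0 : ℝ) < N := by exact_mod_cast hN
  have s1 := hsz l hl
  have s2 := hsz N hN
  have hsN : 0 < size N := lt_of_lt_of_le (by positivity) s2.1
  have e1 : (l : ℝ) ^ (3 / 4 : ℝ) ≤ (N : ℝ) ^ (3 / 4 : ℝ) :=
    Real.rpow_le_rpow (Nat.cast_nonneg _) (by exact_mod_cast h2) (by norm_num)
  have e2 : x ^ (3 / 4 : ℝ) * (N : ℝ) ^ (3 / 4 : ℝ) ≤ (l : ℝ) ^ (3 / 4 : ℝ) := by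
    rw [← Real.mul_rpow hx.le hN0.le]
    exact Real.rpow_le_rpow (by positivity) h1 (by norm_num)
  constructor
  · rw [div_mul_eq_mul_div, div_le_iff₀ hC]
    calc c * x ^ (3 / 4 : ℝ) * size N ≤ c * x ^ (3 / 4 : ℝ) * (C * (N : ℝ) ^ (3 / 4 : ℝ)) :=
          mul_le_mul_of_nonneg_left s2.2 (by positivity)
      _ = c * (x ^ (3 / 4 : ℝ) * (N : ℝ) ^ (3 / 4 : ℝ)) * C := by ring
      _ ≤ c * (l : ℝ) ^ (3 / 4 : ℝ) * C := by gcongr
      _ ≤ size l * C := mul_le_mul_of_nonneg_right s1.1 hC.le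
  · rw [div_mul_eq_mul_div, le_div_iff₀ hc]
    calc size l * c ≤ C * (l : ℝ) ^ (3 / 4 : ℝ) * c := mul_le_mul_of_nonneg_right s1.2 hc.le
      _ ≤ C * (N : ℝ) ^ (3 / 4 : ℝ) * c := by gcongr
      _ = C * (c * (N : ℝ) ^ (3 / 4 : ℝ)) := by ring
      _ ≤ C * size N := mul_le_mul_of_nonneg_left s2.1 hC.le

/-- the size tends to infinity -/
lemma szInf (A : ℝ) : ∃ N0 : ℕ, ∀ N : ℕ, N0 ≤ N → A ≤ size N := by
  obtain ⟨c, C, hc, hsz⟩ := (oneFacts NTSF.finE).sz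
  have h1 : Tendsto (fun N : ℕ => c * (N : ℝ) ^ (3 / 4 : ℝ)) atTop atTop :=
    ((tendsto_rpow_atTop (by norm_num : (0 : ℝ) < 3 / 4)).comp tendsto_natCast_atTop_atTop).const_mul_atTop hc
  obtain ⟨N0, hN0⟩ := eventually_atTop.1 (h1.eventually_ge_atTop A)
  exact ⟨max N0 1, fun N hN => (hN0 N ((le_max_left _ _).trans hN)).trans (hsz N ((le_max_right _ _).trans hN)).1⟩

/-- the weight is positive only in the window -/
lemma wt1_pos {x1 x2 : ℝ} (hx : x1 < x2) {N m : ℕ} (hN : 1 ≤ N) (h : 0 < wt1 x1 x2 N m) : x1 * N < m ∧ (m : ℝ) < x2 * N := by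
  have hN0 : (0 : ℝ) < N := by exact_mod_cast hN
  have hd : 0 < x2 - x1 := sub_pos.2 hx
  have tp : ∀ y : ℝ, 0 < tr y → 0 < y := by
    intro y hy
    by_contra hcon
    have : tr y = 0 := by
      unfold tr
      exact max_eq_left ((min_le_right _ _).trans (not_lt.1 hcon))
    rw [this] at hy
    exact lt_irrefl _ hy
  unfold wt1 at h
  have h1 : 0 < tr (4 * ((m : ℝ) / N - x1) / (x2 - x1)) := by
    rcases (tr_nn (4 * ((m : ℝ) / N - x1) / (x2 - x1))).eq_or_lt with h0 | h0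
    · rw [← h0, zero_mul] at h
      exact absurd h (lt_irrefl _)
    · exact h0
  have h2 : 0 < tr (4 * (x2 - (m : ℝ) / N) / (x2 - x1)) := by
    rcases (tr_nn (4 * (x2 - (m : ℝ) / N) / (x2 - x1))).eq_or_lt with h0 | h0
    · rw [← h0, mul_zero] at h
      exact absurd h (lt_irrefl _)
    · exact h0
  have h3 := (div_pos_iff_of_pos_right hd).1 (tp _ h1)
  have h4 := (div_pos_iff_of_pos_right hd).1 (tp _ h2)
  constructor
  · rw [← lt_div_iff₀ hN0]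
    linarith
  · rw [← div_lt_iff₀ hN0]
    linarith

/-- the weight is `1` in the middle of the window -/
lemma wt1_one {x1 x2 : ℝ} (hx : x1 < x2) {N m : ℕ} (hN : 1 ≤ N) (h1 : (x1 + (x2 - x1) / 4) * N ≤ m)
    (h2 : (m : ℝ) ≤ (x2 - (x2 - x1) / 4) * N) : wt1 x1 x2 N m = 1 := by
  have hN0 : (0 : ℝ) < N := by exact_mod_cast hN
  have hd : 0 < x2 - x1 := sub_pos.2 hx
  rw [← le_div_iff₀ hN0] at h1
  rw [← div_le_iff₀ hN0] at h2
  unfold wt1
  rw [tr_one, tr_one, one_mul]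
  · rw [le_div_iff₀ hd]
    linarith
  · rw [le_div_iff₀ hd]
    linarith

/-- the product of the independence and the slow variation -/
lemma ind_num {A S T U e ε1 ε2 : ℝ} (hA : 0 < A) (h1 : |T / A - S / A * (U / A)| ≤ ε1) (h2 : |S / A - e| ≤ ε2) (hU : 0 ≤ U)
    (hU1 : U ≤ A) : |T - e * U| ≤ (ε1 + ε2) * A := by
  have e1 : T - e * U = (T / A - S / A * (U / A)) * A + (S / A - e) * U := by
    field_simp
    ring
  rw [e1]
  have e2 : |(T / A - S / A * (U / A)) * A| ≤ ε1 * A := by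
    rw [abs_mul, abs_of_pos hA]
    exact mul_le_mul_of_nonneg_right h1 hA.le
  have e3 : |(S / A - e) * U| ≤ ε2 * A := by
    rw [abs_mul, abs_of_nonneg hU]
    exact mul_le_mul h2 hU1 hU ((abs_nonneg _).trans h2)
  calc _ ≤ |(T / A - S / A * (U / A)) * A| + |(S / A - e) * U| := abs_add_le _ _
    _ ≤ _ := by linarith

/-- the numbers at the end -/
lemma end_num {A D P T e p1 ε a1 a2 a3 : ℝ} (hA : 0 < A) (hp1 : 0 < p1) (hε : 0 < ε) (he : |e| ≤ 1)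
    (hD : p1 * A ≤ D) (h1 : |P - e * D| ≤ a1 * D + a3 * A) (h2 : |T - D| ≤ a2 * D + a3 * A)
    (ha1 : a1 ≤ ε / 4) (ha2 : a2 ≤ ε / 8) (ha2' : a2 ≤ 1 / 4) (ha3 : a3 ≤ p1 * (1 / 4)) (ha3' : a3 ≤ p1 * (ε / 16)) :
    p1 / 2 ≤ T / A ∧ |P / A - e * (T / A)| ≤ ε * (T / A) := by
  have hD0 : 0 < D := lt_of_lt_of_le (by positivity) hD
  have b1 : a3 * A ≤ D / 4 := by
    have := mul_le_mul_of_nonneg_right ha3 hA.le
    nlinarith
  have b2 : a3 * A ≤ ε / 16 * D := by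
    have h3 := mul_le_mul_of_nonneg_right ha3' hA.le
    have h4 := mul_le_mul_of_nonneg_left hD (by positivity : 0 ≤ ε / 16)
    nlinarith
  have b3 : a2 * D ≤ D / 4 := by
    have := mul_le_mul_of_nonneg_right ha2' hD0.le
    linarith
  have b4 : a2 * D ≤ ε / 8 * D := mul_le_mul_of_nonneg_right ha2 hD0.le
  have b5 : a1 * D ≤ ε / 4 * D := mul_le_mul_of_nonneg_right ha1 hD0.le
  have h2' := abs_le.1 h2
  have hT : D / 2 ≤ T := by linarith [h2'.1]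
  refine ⟨?_, ?_⟩
  · rw [le_div_iff₀ hA]
    linarith
  · have e1 : P / A - e * (T / A) = (P - e * T) / A := by
      field_simp
    rw [e1, abs_div, abs_of_pos hA, ← mul_div_assoc, div_le_div_iff_of_pos_right hA]
    have e2 : P - e * T = (P - e * D) + e * (D - T) := by ring
    have e3 : |e * (D - T)| ≤ |T - D| := by
      rw [abs_mul, abs_sub_comm D T]
      calc |e| * |T - D| ≤ 1 * |T - D| := mul_le_mul_of_nonneg_right he (abs_nonneg _)
        _ = _ := one_mul _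
    have e4 : ε / 2 * D ≤ ε * T := by
      have := mul_le_mul_of_nonneg_left hT hε.le
      linarith
    rw [e2]
    refine (abs_add_le _ _).trans ?_
    linarith

end Pool.Agent.SCF
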