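import Pool.Agent.SCF.FlowPub3

/-!
# ScaleFlow: fixed points and closed orbits of the flow (helper66)

For `T`, `c` as in `flow_pub3`:
* `c_bounds` : `c t ν` is of the order `t ^ (3 / 4)`, uniformly in `t` and `ν`;
* **`size_fixed`** : if `T t ν = ν` then `c t ν = t ^ (3 / 4)`;
* **`per_pow`** : if the laws converge to `ν` along the powers of `p`, then `T p ν = ν` and the set of the limits is the closed orbit
  of `ν`.
-/

set_option autoImplicit false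

open Filter Topology MeasureTheory Set

namespace Pool.Agent.SCF

open Pool.Agent.NTS.Res
open NTSF (PM lawTo_iff)
open NTSF.Mg (WL)

section

variable {T : ℝ → ProbabilityMeasure C(unitInterval, ℂ) → ProbabilityMeasure C(unitInterval, ℂ)}
  {c : ℝ → ProbabilityMeasure C(unitInterval, ℂ) → ℝ}

/-- the order of the factor of the sizes -/
lemma c_bounds (hlim : ∀ (t : ℝ) (φ : ℕ → ℕ) (ν : ProbabilityMeasure C(unitInterval, ℂ)), 0 < t → Tendsto φ atTop atTop →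
    LawTo φ (ν : Measure C(unitInterval, ℂ)) → LawTo (fun j => ⌊t * φ j⌋₊) (T t ν : Measure C(unitInterval, ℂ)) ∧
      Tendsto (fun j => size ⌊t * φ j⌋₊ / size (φ j)) atTop (𝓝 (c t ν)) ∧ 0 < c t ν) :
    ∃ a b : ℝ, 0 < a ∧ ∀ (t : ℝ) (ν : ProbabilityMeasure C(unitInterval, ℂ)), 0 < t → ν ∈ WL →
      a * t ^ (3 / 4 : ℝ) ≤ c t ν ∧ c t ν ≤ b * t ^ (3 / 4 : ℝ) := by
  obtain ⟨c0, C0, hc0, hsz, -⟩ := NTSF.finE
  have hC0 : 0 < C0 := by
    have h1 := (hsz 1 le_rfl).2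
    have h2 := NTSF.size_pos (n := 1) le_rfl
    rw [Nat.cast_one, Real.one_rpow, mul_one] at h1
    linarith
  refine ⟨c0 / C0, C0 / c0, by positivity, fun t ν t0 hν => ?_⟩
  obtain ⟨φ, hφ, hl⟩ := hν
  have hφ' := hφ.tendsto_atTop
  obtain ⟨-, h2, -⟩ := hlim t φ ν t0 hφ' hl
  have h3 := floor_ratio t0 hφ'
  have h4 : Tendsto (fun k => (((⌊t * φ k⌋₊ : ℕ) : ℝ) / φ k) ^ (3 / 4 : ℝ)) atTop (𝓝 (t ^ (3 / 4 : ℝ))) :=
    h3.rpow_const (Or.inl t0.ne')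
  have hev : ∀ᶠ k in atTop, c0 / C0 * (((⌊t * φ k⌋₊ : ℕ) : ℝ) / φ k) ^ (3 / 4 : ℝ) ≤ size ⌊t * φ k⌋₊ / size (φ k) ∧
      size ⌊t * φ k⌋₊ / size (φ k) ≤ C0 / c0 * (((⌊t * φ k⌋₊ : ℕ) : ℝ) / φ k) ^ (3 / 4 : ℝ) := by
    filter_upwards [hφ'.eventually_ge_atTop 1, (floor_top t0 hφ').eventually_ge_atTop 1] with k k1 k2
    obtain ⟨l, hl⟩ : ∃ l : ℕ, l = ⌊t * φ k⌋₊ := ⟨_, rfl⟩
    rw [← hl] at k2 ⊢
    have a1 := hsz l k2
    have a2 := hsz (φ k) k1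
    have p1 := NTSF.size_pos k1
    have p2 : (0 : ℝ) < φ k := by exact_mod_cast k1
    have p3 : (0 : ℝ) < (φ k : ℝ) ^ (3 / 4 : ℝ) := by positivity
    rw [Real.div_rpow (Nat.cast_nonneg _) p2.le]
    constructor
    · rw [div_mul_div_comm, div_le_div_iff₀ (by positivity) p1]
      exact mul_le_mul a1.1 a2.2 p1.le (NTSF.size_pos k2).le
    · rw [div_mul_div_comm, div_le_div_iff₀ p1 (by positivity)]
      exact mul_le_mul a1.2 a2.1 (by positivity) (by positivity)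
  exact ⟨le_of_tendsto_of_tendsto (h4.const_mul _) h2 (hev.mono fun _ h => h.1),
    le_of_tendsto_of_tendsto h2 (h4.const_mul _) (hev.mono fun _ h => h.2)⟩

/-- **at a fixed point of `T t` the factor of the sizes is `t ^ (3 / 4)`** -/
theorem size_fixed (hlim : ∀ (t : ℝ) (φ : ℕ → ℕ) (ν : ProbabilityMeasure C(unitInterval, ℂ)), 0 < t → Tendsto φ atTop atTop →
    LawTo φ (ν : Measure C(unitInterval, ℂ)) → LawTo (fun j => ⌊t * φ j⌋₊) (T t ν : Measure C(unitInterval, ℂ)) ∧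
      Tendsto (fun j => size ⌊t * φ j⌋₊ / size (φ j)) atTop (𝓝 (c t ν)) ∧ 0 < c t ν)
    (hgrp : ∀ (s t : ℝ) (ν : ProbabilityMeasure C(unitInterval, ℂ)), 0 < s → 0 < t → ν ∈ WL →
      T 1 ν = ν ∧ T s (T t ν) = T (s * t) ν ∧ c s (T t ν) * c t ν = c (s * t) ν)
    {t : ℝ} {ν : ProbabilityMeasure C(unitInterval, ℂ)} (t0 : 0 < t) (hν : ν ∈ WL) (h : T t ν = ν) :
    c t ν = t ^ (3 / 4 : ℝ) := by
  obtain ⟨a, b, ha, hab⟩ := c_bounds hlim
  have hpow : ∀ k : ℕ, T (t ^ k) ν = ν ∧ c (t ^ k) ν * 1 = c t ν ^ k * c 1 ν := by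
    intro k
    induction k with
    | zero =>
      rw [pow_zero, pow_zero, one_mul, mul_one]
      exact ⟨(hgrp 1 1 ν one_pos one_pos hν).1, rfl⟩
    | succ k ih =>
      obtain ⟨-, g1, g2⟩ := hgrp t (t ^ k) ν t0 (pow_pos t0 k) hν
      rw [ih.1] at g1 g2
      rw [pow_succ' t k, ← g1, ← g2, h]
      refine ⟨rfl, ?_⟩
      rw [mul_assoc, ih.2, pow_succ']
      ring
  have hc1 : c 1 ν = 1 := by
    obtain ⟨φ, hφ, hl⟩ := hν
    obtain ⟨-, h2, -⟩ := hlim 1 φ ν one_pos hφ.tendsto_atTop hl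
    refine tendsto_nhds_unique h2 ?_
    have e2 : ∀ᶠ j in atTop, size ⌊(1 : ℝ) * φ j⌋₊ / size (φ j) = 1 := by
      filter_upwards [hφ.tendsto_atTop.eventually_ge_atTop 1] with j hj
      rw [one_mul, Nat.floor_natCast, div_self (NTSF.size_pos hj).ne']
    exact (tendsto_congr' e2).2 tendsto_const_nhds
  have hp0 : 0 < t ^ (3 / 4 : ℝ) := by positivity
  obtain ⟨g, hg⟩ : ∃ g : ℝ, g = c t ν / t ^ (3 / 4 : ℝ) := ⟨_, rfl⟩
  have hb : ∀ k : ℕ, a ≤ g ^ k ∧ g ^ k ≤ b := by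
    intro k
    have h1 := hab (t ^ k) ν (pow_pos t0 k) hν
    have h2 : c (t ^ k) ν = c t ν ^ k := by
      have := (hpow k).2
      rw [mul_one, hc1, mul_one] at this
      exact this
    have h3 : (t ^ k) ^ (3 / 4 : ℝ) = (t ^ (3 / 4 : ℝ)) ^ k := by
      rw [← Real.rpow_natCast, ← Real.rpow_natCast, ← Real.rpow_mul t0.le, ← Real.rpow_mul t0.le, mul_comm]
    rw [h2, h3] at h1
    rw [hg, div_pow, le_div_iff₀ (pow_pos hp0 k), div_le_iff₀ (pow_pos hp0 k)]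
    exact h1
  have hg0 : 0 ≤ g := by
    rw [hg]
    obtain ⟨φ, hφ, hl⟩ := hν
    exact div_nonneg (hlim t φ ν t0 hφ.tendsto_atTop hl).2.2.le hp0.le
  have hg1 : g = 1 := by
    rcases lt_trichotomy g 1 with h1 | h1 | h1
    · obtain ⟨k, hk⟩ := exists_pow_lt_of_lt_one ha h1
      linarith [(hb k).1]
    · exact h1
    · obtain ⟨k, hk⟩ := pow_unbounded_of_one_lt b h1
      linarith [(hb k).2]
  rw [hg, div_eq_one_iff_eq hp0.ne'] at hg1
  exact hg1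

/-- **if the laws converge along the powers of `p`, the set of the limits is one closed orbit** -/
theorem per_pow (hlim : ∀ (t : ℝ) (φ : ℕ → ℕ) (ν : ProbabilityMeasure C(unitInterval, ℂ)), 0 < t → Tendsto φ atTop atTop →
    LawTo φ (ν : Measure C(unitInterval, ℂ)) → LawTo (fun j => ⌊t * φ j⌋₊) (T t ν : Measure C(unitInterval, ℂ)) ∧
      Tendsto (fun j => size ⌊t * φ j⌋₊ / size (φ j)) atTop (𝓝 (c t ν)) ∧ 0 < c t ν)
    (hgrp : ∀ (s t : ℝ) (ν : ProbabilityMeasure C(unitInterval, ℂ)), 0 < s → 0 < t → ν ∈ WL →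
      T 1 ν = ν ∧ T s (T t ν) = T (s * t) ν ∧ c s (T t ν) * c t ν = c (s * t) ν)
    {p : ℕ} (hp : 2 ≤ p) {ν : ProbabilityMeasure C(unitInterval, ℂ)} (h : LawTo (fun j => p ^ j) (ν : Measure C(unitInterval, ℂ))) :
    T p ν = ν ∧ c p ν = (p : ℝ) ^ (3 / 4 : ℝ) ∧ WL = (fun t => T t ν) '' Icc 1 (p : ℝ) := by
  have hp0 : (0 : ℝ) < p := by exact_mod_cast (by omega : 0 < p)
  have hp1 : (1 : ℝ) < p := by exact_mod_cast (by omega : 1 < p)
  have hmono : StrictMono fun j : ℕ => p ^ j := pow_mono hp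
  have hνW : ν ∈ WL := ⟨_, hmono, h⟩
  have hX : ScX1 := by
    intro t t0 _ φ ν1 hφ hν1 hl
    exact ⟨_, inferInstance, (hlim t φ ⟨ν1, hν1⟩ t0 hφ hl).1⟩
  have hT : T p ν = ν := by
    obtain ⟨h1, -, -⟩ := hlim p _ ν hp0 hmono.tendsto_atTop h
    have e : (fun j => ⌊(p : ℝ) * ((p ^ j : ℕ) : ℝ)⌋₊) = fun j => p ^ (j + 1) := by
      funext j
      rw [← Nat.cast_mul, Nat.floor_natCast, pow_succ']
    rw [e] at h1
    have h2 : LawTo (fun j => p ^ (j + 1)) (ν : Measure C(unitInterval, ℂ)) := fun f => (h f).comp (tendsto_add_atTop_nat 1)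
    exact tendsto_nhds_unique ((lawTo_iff _).1 h1) ((lawTo_iff _).1 h2)
  have hTk : ∀ k : ℕ, T ((p : ℝ) ^ k) ν = ν := by
    intro k
    induction k with
    | zero =>
      rw [pow_zero]
      exact (hgrp 1 1 ν one_pos one_pos hνW).1
    | succ k ih =>
      obtain ⟨-, g1, -⟩ := hgrp (p : ℝ) ((p : ℝ) ^ k) ν hp0 (pow_pos hp0 k) hνW
      rw [ih, hT] at g1
      rw [pow_succ', ← g1]
  refine ⟨hT, size_fixed hlim hgrp hp0 hνW hT, Subset.antisymm (fun μ hμ => ?_) ?_⟩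
  · obtain ⟨φ, hφ, hl⟩ := hμ
    obtain ⟨r, r0, r1, hr⟩ := orbit_pub hX hp (ν := ν) inferInstance h hφ.tendsto_atTop inferInstance hl
    obtain ⟨h1, -, -⟩ := hlim r _ ν r0 hmono.tendsto_atTop h
    have e1 : T r ν = μ := tendsto_nhds_unique ((lawTo_iff _).1 h1) ((lawTo_iff _).1 hr)
    -- the power
    have hex : ∃ k : ℕ, 1 ≤ r * (p : ℝ) ^ k := by
      obtain ⟨k, hk⟩ := pow_unbounded_of_one_lt (1 / r) hp1
      exact ⟨k, by rw [div_lt_iff₀ r0] at hk; nlinarith⟩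
    obtain ⟨k, hk, hk'⟩ : ∃ k : ℕ, 1 ≤ r * (p : ℝ) ^ k ∧ r * (p : ℝ) ^ k ≤ p := by
      refine ⟨Nat.find hex, Nat.find_spec hex, ?_⟩
      rcases Nat.eq_zero_or_pos (Nat.find hex) with h0 | h0
      · rw [h0, pow_zero, mul_one]
        linarith
      · have h2 := Nat.find_min hex (Nat.sub_lt h0 one_pos)
        obtain ⟨m, hm⟩ : ∃ m, Nat.find hex = m + 1 := ⟨Nat.find hex - 1, by omega⟩
        rw [hm, Nat.add_sub_cancel, not_le] at h2
        rw [hm, pow_succ]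
        nlinarith
    refine ⟨r * (p : ℝ) ^ k, ⟨hk, hk'⟩, ?_⟩
    show T (r * (p : ℝ) ^ k) ν = μ
    obtain ⟨-, g1, -⟩ := hgrp r ((p : ℝ) ^ k) ν r0 (pow_pos hp0 k) hνW
    rw [← g1, hTk, e1]
  · rintro μ ⟨t, ⟨t1, -⟩, rfl⟩
    have t0 : 0 < t := lt_of_lt_of_le one_pos t1
    obtain ⟨h1, -, -⟩ := hlim t _ ν t0 hmono.tendsto_atTop h
    have h2 : Tendsto (fun k => xs ⌊t * ((p ^ k : ℕ) : ℝ)⌋₊) atTop (𝓝 (LevyProkhorov.ofMeasure (T t ν))) :=
      (lim_iff (φ := fun j => ⌊t * ((p ^ j : ℕ) : ℝ)⌋₊) (T t ν)).1 h1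
    exact mem_Lm_iff.1 ⟨_, floor_top t0 hmono.tendsto_atTop, h2⟩

end

end Pool.Agent.SCF
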