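import Pool.Agent.SCF.Two
import Pool.Agent.CRT.Defs

/-!
# ScaleFlow, the soft end, for the laws (helper5)

* `ScX1` : if the laws converge along `φ` then they converge along `⌊lam φ⌋`, `0 < lam ≤ 1`;
* `scX_unique` : the limit along `⌊lam φ⌋` depends only on the limit along `φ`;
* **`q1_two (h : ScX1)`** : Q1 if and only if the laws converge along the powers of `p` and along the powers of `q`;
  `q1_two_three`.
-/

set_option autoImplicit false

open Filter Topology MeasureTheory Set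

namespace Pool.Agent.SCF

open Pool.Agent.NTS.Res
open Pool.Agent.CRT (Q1)
open NTSF (PM lawTo_iff)
open NTSF.Mg (toLP_cont slow_curves)

/-- the factor `lam` -/
def ScAt (lam : ℝ) : Prop := ∀ (φ : ℕ → ℕ) (ν : Measure C(unitInterval, ℂ)), Tendsto φ atTop atTop →
  IsProbabilityMeasure ν → LawTo φ ν →
    ∃ ν' : Measure C(unitInterval, ℂ), IsProbabilityMeasure ν' ∧ LawTo (fun j => ⌊lam * φ j⌋₊) ν'

/-- the factors at most one -/
def ScX1 : Prop := ∀ lam : ℝ, 0 < lam → lam ≤ 1 → ScAt lam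

/-- the sequence of the laws -/
noncomputable def xs (n : ℕ) : LevyProkhorov (ProbabilityMeasure C(unitInterval, ℂ)) := LevyProkhorov.ofMeasure (PM n)

lemma lim_iff {φ : ℕ → ℕ} (ν : ProbabilityMeasure C(unitInterval, ℂ)) :
    LawTo φ (ν : Measure C(unitInterval, ℂ)) ↔ Tendsto (fun k => xs (φ k)) atTop (𝓝 (LevyProkhorov.ofMeasure ν)) := by
  rw [lawTo_iff]
  constructor
  · intro h
    exact (toLP_cont.tendsto ν).comp h
  · intro h
    exact (LevyProkhorov.continuous_toMeasure_probabilityMeasure.tendsto (LevyProkhorov.ofMeasure ν)).comp h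

lemma lim_iff' {φ : ℕ → ℕ} (y : LevyProkhorov (ProbabilityMeasure C(unitInterval, ℂ))) :
    Tendsto (fun k => xs (φ k)) atTop (𝓝 y) ↔ LawTo φ (y.toMeasure : Measure C(unitInterval, ℂ)) :=
  (lim_iff y.toMeasure).symm

lemma slow_xs : Slow xs := by
  intro ε hε
  obtain ⟨δ, hδ, h⟩ := slow_curves.1 ε hε
  exact ⟨δ, hδ, fun n m hn hm => (h n m hn hm).2⟩

lemma flowAt_xs {lam : ℝ} (h : ScAt lam) : FlowAt xs lam := by
  intro θ y hθ hy
  obtain ⟨ν', hν', h2⟩ := h θ _ hθ inferInstance ((lim_iff' y).1 hy)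
  exact ⟨LevyProkhorov.ofMeasure ⟨ν', hν'⟩, (lim_iff ⟨ν', hν'⟩).1 h2⟩

/-- **the limit depends only on the limit** -/
theorem scX_unique {lam : ℝ} (h : ScAt lam) {φ φ' : ℕ → ℕ} {ν μ μ' : Measure C(unitInterval, ℂ)}
    (hφ : Tendsto φ atTop atTop) (hφ' : Tendsto φ' atTop atTop) (hν : IsProbabilityMeasure ν) (hμ : IsProbabilityMeasure μ)
    (hμ' : IsProbabilityMeasure μ') (h1 : LawTo φ ν) (h2 : LawTo φ' ν) (h3 : LawTo (fun j => ⌊lam * φ j⌋₊) μ)
    (h4 : LawTo (fun j => ⌊lam * φ' j⌋₊) μ') : μ = μ' := by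
  have e := flow_unique (flowAt_xs h) hφ hφ' ((lim_iff ⟨ν, hν⟩).1 h1) ((lim_iff ⟨ν, hν⟩).1 h2)
    ((lim_iff (φ := fun j => ⌊lam * φ j⌋₊) ⟨μ, hμ⟩).1 h3) ((lim_iff (φ := fun j => ⌊lam * φ' j⌋₊) ⟨μ', hμ'⟩).1 h4)
  have e2 : (⟨μ, hμ⟩ : ProbabilityMeasure C(unitInterval, ℂ)) = ⟨μ', hμ'⟩ := by
    have := congrArg LevyProkhorov.toMeasure e
    exact this
  exact congrArg Subtype.val e2

/-- the laws stay in a compact set -/
lemma compact_xs : ∃ K : Set (LevyProkhorov (ProbabilityMeasure C(unitInterval, ℂ))), IsCompact K ∧ ∀ n, xs n ∈ K := by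
  obtain ⟨K, hK, hPK⟩ := NTSF.Mg.exists_K (NTSF.Mg.oneFacts NTSF.finE)
  exact ⟨_, hK.image toLP_cont, fun n => mem_image_of_mem _ (hPK n)⟩

/-- **two geometric sequences** -/
theorem q1_two (h : ScX1) {p q : ℕ} (hp : 2 ≤ p) (hq : 2 ≤ q) (hirr : Irrational (Real.log q / Real.log p)) :
    Q1 ↔ (∃ ν : Measure C(unitInterval, ℂ), IsProbabilityMeasure ν ∧ LawTo (fun j => p ^ j) ν) ∧
      ∃ ν : Measure C(unitInterval, ℂ), IsProbabilityMeasure ν ∧ LawTo (fun j => q ^ j) ν := by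
  constructor
  · rintro ⟨ν, hν, h1⟩
    have ht : ∀ p : ℕ, 2 ≤ p → Tendsto (fun j : ℕ => p ^ j) atTop atTop := fun p hp =>
      tendsto_pow_atTop_atTop_of_one_lt (by omega)
    exact ⟨⟨ν, hν, fun f => (h1 f).comp (ht p hp)⟩, ⟨ν, hν, fun f => (h1 f).comp (ht q hq)⟩⟩
  · rintro ⟨⟨ν, hν, h1⟩, ⟨ν', hν', h2⟩⟩
    obtain ⟨K, hK, hx⟩ := compact_xs
    have h3 := two_pow slow_xs (fun lam h4 h5 => flowAt_xs (h lam h4 h5)) hK hx hp hq hirr
      ((lim_iff (φ := fun j => p ^ j) ⟨ν, hν⟩).1 h1) ((lim_iff (φ := fun j => q ^ j) ⟨ν', hν'⟩).1 h2)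
    exact ⟨ν', hν', (lim_iff (φ := fun n => n) ⟨ν', hν'⟩).2 h3⟩

/-- **the powers of 2 and of 3** -/
theorem q1_two_three (h : ScX1) :
    Q1 ↔ (∃ ν : Measure C(unitInterval, ℂ), IsProbabilityMeasure ν ∧ LawTo (fun j => 2 ^ j) ν) ∧
      ∃ ν : Measure C(unitInterval, ℂ), IsProbabilityMeasure ν ∧ LawTo (fun j => 3 ^ j) ν :=
  q1_two h le_rfl (by norm_num) irr_two_three

end Pool.Agent.SCF
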