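import Pool.Agent.NPR.FinPub
import Pool.Agent.NPR.KapAll
import Pool.Agent.SCF.TwoPub

/-!
# ScaleFlow, the soft end: traces along a sequence (helper5)

* `trace_seq`, `frac_seq` : along every strictly increasing sequence `θ` the laws converge if and only if the laws of the traces do,
  if and only if the proportions `frac (θ j) F t` do;
* `q1_two_frac (h : ScX1)` : Q1 if and only if these proportions converge along the powers of `p` and along the powers of `q`.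
-/

set_option autoImplicit false

open Set Filter Topology MeasureTheory

namespace Pool.Agent.SCF

open Pool.Agent.NTS.Res Pool.Agent.NPR
open Pool.Agent.CRT (Q1)

/-- the laws of the traces along a sequence -/
theorem trace_seq {θ : ℕ → ℕ} (hθ : StrictMono θ) :
    (∀ F : BoundedContinuousFunction (TopologicalSpace.NonemptyCompacts ℂ) ℝ, ∃ l : ℝ,
      Tendsto (fun j => ∫ γ, F (tr γ) ∂(law (θ j))) atTop (𝓝 l)) ↔
    ∃ ν : Measure C(unitInterval, ℂ), IsProbabilityMeasure ν ∧ LawTo θ ν := by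
  obtain ⟨ρ, hρ⟩ := exists_scl (clk_of HexObs.NPR.mainN)
  obtain ⟨-, hsub, hinj⟩ := HexObs.SIM.simple_final
  constructor
  · intro h
    have good : ∀ (φ : ℕ → ℕ) (ν : Measure C(unitInterval, ℂ)), Tendsto φ atTop atTop → IsProbabilityMeasure ν →
        LawTo φ ν → ∀ᵐ γ ∂ν, γ ∈ Gd ρ := by
      intro φ ν hφ hν hlim
      filter_upwards [hinj φ ν hφ hν hlim, NTSF.limit_zeroQ hν hlim, clk_lim hρ hφ hν hlim] with γ h1 h2 h3
      exact ⟨h1, h2, h3⟩
    obtain ⟨ψ0, hψ0, ν0, hν0, hl0⟩ := hsub θ hθ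
    refine ⟨ν0, hν0, fun f => ?_⟩
    refine tendsto_of_subseq_tendsto fun ns hns => ?_
    obtain ⟨φ1, hφ1, hφ2⟩ := strictMono_subseq_of_tendsto_atTop hns
    obtain ⟨ψ, hψ, ν, hν, hl⟩ := hsub (fun k => θ ((ns ∘ φ1) k)) (hθ.comp hφ2)
    have t0 : Tendsto (fun k => ψ0 k) atTop atTop := hψ0.tendsto_atTop
    have t1 : Tendsto (fun k => (ns ∘ φ1) (ψ k)) atTop atTop := (hφ2.comp hψ).tendsto_atTop
    have e : ν = ν0 := by
      refine eq_of_trace hρ.pos hν hν0 (good _ ν (hθ.tendsto_atTop.comp t1) hν hl) (good _ ν0 (hθ.tendsto_atTop.comp t0) hν0 hl0)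
        fun F => ?_
      obtain ⟨l, hF⟩ := h F
      rw [tendsto_nhds_unique (lawTo_trace hl F) (hF.comp t1), tendsto_nhds_unique (lawTo_trace hl0 F) (hF.comp t0)]
    refine ⟨fun k => φ1 (ψ k), ?_⟩
    have := hl f
    rwa [e] at this
  · rintro ⟨ν, -, h⟩ F
    exact ⟨_, lawTo_trace h F⟩

/-- the proportions along a sequence -/
theorem frac_seq {θ : ℕ → ℕ} (hθ : StrictMono θ) :
    (∀ F : Finset ℂ, F.Nonempty → ∃ S : Set ℝ, S.Countable ∧ ∀ t : ℝ, 0 < t → t ∉ S →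
      ∃ l : ℝ, Tendsto (fun j => frac (θ j) F t) atTop (𝓝 l)) ↔
    ∃ ν : Measure C(unitInterval, ℂ), IsProbabilityMeasure ν ∧ LawTo θ ν := by
  obtain ⟨ρ, hρ⟩ := exists_scl (clk_of HexObs.NPR.mainN)
  obtain ⟨-, hsub, hinj⟩ := HexObs.SIM.simple_final
  have hsz := size_top
  constructor
  · intro h
    have good : ∀ (φ : ℕ → ℕ) (ν : Measure C(unitInterval, ℂ)), Tendsto φ atTop atTop → IsProbabilityMeasure ν →
        LawTo φ ν → ∀ᵐ γ ∂ν, γ ∈ Gd ρ := by
      intro φ ν hφ hν hlim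
      filter_upwards [hinj φ ν hφ hν hlim, NTSF.limit_zeroQ hν hlim, clk_lim hρ hφ hν hlim] with γ h1 h2 h3
      exact ⟨h1, h2, h3⟩
    obtain ⟨ψ0, hψ0, ν0, hν0, hl0⟩ := hsub θ hθ
    refine ⟨ν0, hν0, fun f => ?_⟩
    refine tendsto_of_subseq_tendsto fun ns hns => ?_
    obtain ⟨φ1, hφ1, hφ2⟩ := strictMono_subseq_of_tendsto_atTop hns
    obtain ⟨ψ, hψ, ν, hν, hl⟩ := hsub (fun k => θ ((ns ∘ φ1) k)) (hθ.comp hφ2)
    have t0 : Tendsto (fun k => ψ0 k) atTop atTop := hψ0.tendsto_atTop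
    have t1 : Tendsto (fun k => (ns ∘ φ1) (ψ k)) atTop atTop := (hφ2.comp hψ).tendsto_atTop
    have u0 := hθ.tendsto_atTop.comp t0
    have u1 := hθ.tendsto_atTop.comp t1
    have e : ν = ν0 := by
      refine eq_of_dist hρ.pos hν hν0 (good _ ν u1 hν hl) (good _ ν0 u0 hν0 hl0) fun F hF g => ?_
      have hm : Measurable (dF F) := (dF_cont hF).measurable
      obtain ⟨S, hS, hS2⟩ := h F hF
      have c1 : {s : ℝ | 0 < ν {γ | dF F γ = s}}.Countable := Measure.countable_meas_level_set_pos hm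
      have c2 : {s : ℝ | 0 < ν0 {γ | dF F γ = s}}.Countable := Measure.countable_meas_level_set_pos hm
      refine int_eq hν hν0 hF ((hS.union c1).union c2) (fun t ht hts => ?_) g
      have s1 : t ∉ S := fun hh => hts (Or.inl (Or.inl hh))
      have s2 : ν {γ | dF F γ = t} = 0 := by
        by_contra hcon
        exact hts (Or.inl (Or.inr (pos_iff_ne_zero.2 hcon)))
      have s3 : ν0 {γ | dF F γ = t} = 0 := by
        by_contra hcon
        exact hts (Or.inr (pos_iff_ne_zero.2 hcon))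
      obtain ⟨l, hl1⟩ := hS2 t ht s1
      rw [tendsto_nhds_unique (frac_lim hsz u1 hν hl hF s2) (hl1.comp t1),
        tendsto_nhds_unique (frac_lim hsz u0 hν0 hl0 hF s3) (hl1.comp t0)]
    refine ⟨fun k => φ1 (ψ k), ?_⟩
    have := hl f
    rwa [e] at this
  · rintro ⟨ν, hν, h⟩ F hF
    have hm : Measurable (dF F) := (dF_cont hF).measurable
    refine ⟨{s : ℝ | 0 < ν {γ | dF F γ = s}}, Measure.countable_meas_level_set_pos hm, fun t _ ht => ?_⟩
    have s2 : ν {γ | dF F γ = t} = 0 := by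
      by_contra hcon
      exact ht (pos_iff_ne_zero.2 hcon)
    exact ⟨_, frac_lim hsz hθ.tendsto_atTop hν h hF s2⟩

lemma pow_mono {p : ℕ} (hp : 2 ≤ p) : StrictMono fun j : ℕ => p ^ j := fun _ _ h => Nat.pow_lt_pow_right (by omega) h

/-- **two geometric sequences, proportions** -/
theorem q1_two_frac (h : ScX1) {p q : ℕ} (hp : 2 ≤ p) (hq : 2 ≤ q) (hpq : ∀ a b : ℕ, 1 ≤ a → p ^ b ≠ q ^ a) :
    Q1 ↔ ∀ F : Finset ℂ, F.Nonempty → ∃ S : Set ℝ, S.Countable ∧ ∀ t : ℝ, 0 < t → t ∉ S →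
      (∃ l : ℝ, Tendsto (fun j => frac (p ^ j) F t) atTop (𝓝 l)) ∧ ∃ l : ℝ, Tendsto (fun j => frac (q ^ j) F t) atTop (𝓝 l) := by
  rw [q1_two h hp hq (irr_pow hp hq hpq), ← frac_seq (pow_mono hp), ← frac_seq (pow_mono hq)]
  constructor
  · rintro ⟨h1, h2⟩ F hF
    obtain ⟨S1, c1, e1⟩ := h1 F hF
    obtain ⟨S2, c2, e2⟩ := h2 F hF
    exact ⟨S1 ∪ S2, c1.union c2, fun t ht hS => ⟨e1 t ht fun hh => hS (Or.inl hh), e2 t ht fun hh => hS (Or.inr hh)⟩⟩
  · intro h1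
    constructor
    · intro F hF
      obtain ⟨S, c, e⟩ := h1 F hF
      exact ⟨S, c, fun t ht hS => (e t ht hS).1⟩
    · intro F hF
      obtain ⟨S, c, e⟩ := h1 F hF
      exact ⟨S, c, fun t ht hS => (e t ht hS).2⟩

end Pool.Agent.SCF
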