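import Pool.Agent.SCF.Fin3
import Pool.Agent.SCF.TraceSeq

/-!
# ScaleFlow: the public form from the core (helper5)

* `sc_all` : the limit of the laws along `⌊lam φ⌋` and the limit of the ratios of the sizes depend only on the limit along `φ`;
* `orbit_pub` : if the laws converge along the powers of `p`, every weak limit is the limit along `⌊r p ^ j⌋` for some `r`;
* **`flow_pub`** : the statement of the result, from `Core`.
-/

set_option autoImplicit false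

open Filter Topology MeasureTheory Set

namespace Pool.Agent.SCF

open Pool.Agent.NTS.Res
open Pool.Agent.CRT (Q1)
open Pool.Agent.NPR (frac size_top)
open NTSF (PM lawTo_iff)

/-- the laws and the ratio of the sizes, one sequence -/
lemma sc_one (hC : ∀ lam : ℝ, 0 < lam → lam < 1 → Core lam) {lam : ℝ} (h0 : 0 < lam) (h1 : lam ≤ 1) {φ : ℕ → ℕ}
    {ν : Measure C(unitInterval, ℂ)} (hφ : Tendsto φ atTop atTop) (hν : IsProbabilityMeasure ν) (hlim : LawTo φ ν) :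
    ∃ (ν' : ProbabilityMeasure C(unitInterval, ℂ)) (r : ℝ), 0 < r ∧
      LawTo (fun j => ⌊lam * φ j⌋₊) (ν' : Measure C(unitInterval, ℂ)) ∧
      Tendsto (fun j => size ⌊lam * φ j⌋₊ / size (φ j)) atTop (𝓝 r) := by
  rcases lt_or_eq_of_le h1 with h2 | h2
  · exact sc_core h0 h1 (hC lam h0 h2) hφ hlim
  · have e : (fun j => ⌊lam * φ j⌋₊) = φ := by
      funext j
      rw [h2, one_mul, Nat.floor_natCast]
    refine ⟨⟨ν, hν⟩, 1, one_pos, by rw [e]; exact hlim, ?_⟩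
    have e2 : ∀ᶠ j in atTop, size ⌊lam * φ j⌋₊ / size (φ j) = 1 := by
      filter_upwards [hφ.eventually_ge_atTop 1] with j hj
      rw [h2, one_mul, Nat.floor_natCast, div_self (NTSF.size_pos hj).ne']
    exact (tendsto_congr' e2).2 tendsto_const_nhds

/-- two sequences as one -/
lemma mix_lim {α : Type*} {l : Filter α} {f g : ℕ → α} (hf : Tendsto f atTop l) (hg : Tendsto g atTop l) :
    Tendsto (fun k => if Even k then f (k / 2) else g (k / 2)) atTop l := by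
  have hhalf : Tendsto (fun k : ℕ => k / 2) atTop atTop := Nat.tendsto_div_const_atTop (by norm_num)
  exact Tendsto.if' (hf.comp hhalf) (hg.comp hhalf)

/-- **the limits along `⌊lam φ⌋` depend only on the limit along `φ`** -/
theorem sc_all (hC : ∀ lam : ℝ, 0 < lam → lam < 1 → Core lam) {lam : ℝ} (h0 : 0 < lam) (h1 : lam ≤ 1) {φ : ℕ → ℕ}
    {ν : Measure C(unitInterval, ℂ)} (hφ : Tendsto φ atTop atTop) (hν : IsProbabilityMeasure ν) (hlim : LawTo φ ν) :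
    ∃ (ν' : Measure C(unitInterval, ℂ)) (r : ℝ), IsProbabilityMeasure ν' ∧ 0 < r ∧ ∀ φ' : ℕ → ℕ, Tendsto φ' atTop atTop →
      LawTo φ' ν → LawTo (fun j => ⌊lam * φ' j⌋₊) ν' ∧ Tendsto (fun j => size ⌊lam * φ' j⌋₊ / size (φ' j)) atTop (𝓝 r) := by
  obtain ⟨ν', r, hr, h2, h3⟩ := sc_one hC h0 h1 hφ hν hlim
  refine ⟨ν', r, inferInstance, hr, fun φ' hφ' hlim' => ?_⟩
  obtain ⟨ω, hω⟩ : ∃ ω : ℕ → ℕ, ω = fun k => if Even k then φ (k / 2) else φ' (k / 2) := ⟨_, rfl⟩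
  have o1 : Tendsto ω atTop atTop := by
    rw [hω]
    exact mix_lim hφ hφ'
  have o2 : LawTo ω ν := by
    intro f
    refine (mix_lim (hlim f) (hlim' f)).congr fun k => ?_
    rw [hω]
    by_cases h : Even k
    · simp only [if_pos h]
    · simp only [if_neg h]
  obtain ⟨μ, x, hx, g2, g3⟩ := sc_one hC h0 h1 o1 hν o2
  have e1 : ∀ k, ω (2 * k) = φ k := fun k => by
    rw [hω]
    simp
  have e2 : ∀ k, ω (2 * k + 1) = φ' k := fun k => by
    rw [hω]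
    have h5 : ¬ Even (2 * k + 1) := by
      rw [Nat.not_even_iff_odd]
      exact odd_two_mul_add_one k
    have h6 : (2 * k + 1) / 2 = k := by omega
    simp only [if_neg h5, h6]
  have t1 : Tendsto (fun k : ℕ => 2 * k) atTop atTop := tendsto_id.const_mul_atTop' (by norm_num)
  have t2 : Tendsto (fun k : ℕ => 2 * k + 1) atTop atTop :=
    tendsto_atTop_mono (f := fun k : ℕ => k) (fun k => by omega) tendsto_id
  have a1 : LawTo (fun j => ⌊lam * φ j⌋₊) (μ : Measure C(unitInterval, ℂ)) := by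
    intro f
    refine ((g2 f).comp t1).congr fun k => ?_
    show ∫ γ, f γ ∂(law ⌊lam * (ω (2 * k) : ℝ)⌋₊) = _
    rw [e1]
  have a2 : LawTo (fun j => ⌊lam * φ' j⌋₊) (μ : Measure C(unitInterval, ℂ)) := by
    intro f
    refine ((g2 f).comp t2).congr fun k => ?_
    show ∫ γ, f γ ∂(law ⌊lam * (ω (2 * k + 1) : ℝ)⌋₊) = _
    rw [e2]
  have b1 : Tendsto (fun j => size ⌊lam * φ j⌋₊ / size (φ j)) atTop (𝓝 x) := by
    refine (g3.comp t1).congr fun k => ?_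
    show size ⌊lam * (ω (2 * k) : ℝ)⌋₊ / size (ω (2 * k)) = _
    rw [e1]
  have b2 : Tendsto (fun j => size ⌊lam * φ' j⌋₊ / size (φ' j)) atTop (𝓝 x) := by
    refine (g3.comp t2).congr fun k => ?_
    show size ⌊lam * (ω (2 * k + 1) : ℝ)⌋₊ / size (ω (2 * k + 1)) = _
    rw [e2]
  have c1 : μ = ν' := tendsto_nhds_unique ((lawTo_iff μ).1 a1) ((lawTo_iff ν').1 h2)
  have c2 : x = r := tendsto_nhds_unique b1 h3
  rw [← c1, ← c2]
  exact ⟨a2, b2⟩

/-- **the limits are one orbit** -/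
theorem orbit_pub (h : ScX1) {p : ℕ} (hp : 2 ≤ p) {ν : Measure C(unitInterval, ℂ)} (hν : IsProbabilityMeasure ν)
    (hlim : LawTo (fun j => p ^ j) ν) {φ : ℕ → ℕ} {μ : Measure C(unitInterval, ℂ)} (hφ : Tendsto φ atTop atTop)
    (hμ : IsProbabilityMeasure μ) (hlim' : LawTo φ μ) :
    ∃ r : ℝ, 0 < r ∧ r ≤ 1 ∧ LawTo (fun j => ⌊r * (p ^ j : ℕ)⌋₊) μ := by
  obtain ⟨r, h1, h2, h3⟩ := orbit slow_xs (fun lam h4 h5 => flowAt_xs (h lam h4 h5)) hp
    ((lim_iff (φ := fun j => p ^ j) ⟨ν, hν⟩).1 hlim) hφ ((lim_iff ⟨μ, hμ⟩).1 hlim')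
  exact ⟨r, h1, h2, (lim_iff (φ := fun j => ⌊r * (p ^ j : ℕ)⌋₊) ⟨μ, hμ⟩).2 h3⟩

/-- **ScaleFlow, from the core** -/
theorem flow_pub (hC : ∀ lam : ℝ, 0 < lam → lam < 1 → Core lam) :
    (∀ φ : ℕ → ℕ, StrictMono φ → ∃ ψ : ℕ → ℕ, StrictMono ψ ∧ ∃ ν : Measure C(unitInterval, ℂ),
      IsProbabilityMeasure ν ∧ LawTo (fun k => φ (ψ k)) ν) ∧
    (∀ (lam : ℝ) (φ : ℕ → ℕ) (ν : Measure C(unitInterval, ℂ)), 0 < lam → lam ≤ 1 → Tendsto φ atTop atTop →
      IsProbabilityMeasure ν → LawTo φ ν →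
      ∃ (ν' : Measure C(unitInterval, ℂ)) (r : ℝ), IsProbabilityMeasure ν' ∧ 0 < r ∧ ∀ φ' : ℕ → ℕ, Tendsto φ' atTop atTop →
        LawTo φ' ν → LawTo (fun j => ⌊lam * φ' j⌋₊) ν' ∧
          Tendsto (fun j => size ⌊lam * φ' j⌋₊ / size (φ' j)) atTop (𝓝 r)) ∧
    (∀ p : ℕ, 2 ≤ p → ∀ ν : Measure C(unitInterval, ℂ), IsProbabilityMeasure ν → LawTo (fun j => p ^ j) ν →
      ∀ (φ : ℕ → ℕ) (μ : Measure C(unitInterval, ℂ)), Tendsto φ atTop atTop → IsProbabilityMeasure μ → LawTo φ μ →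
        ∃ r : ℝ, 0 < r ∧ r ≤ 1 ∧ LawTo (fun j => ⌊r * (p ^ j : ℕ)⌋₊) μ) ∧
    ∀ p q : ℕ, 2 ≤ p → 2 ≤ q → (∀ a b : ℕ, 1 ≤ a → p ^ b ≠ q ^ a) → List.TFAE [
      ∃ ν : Measure C(unitInterval, ℂ), IsProbabilityMeasure ν ∧ LawTo (fun n => n) ν,
      (∃ ν : Measure C(unitInterval, ℂ), IsProbabilityMeasure ν ∧ LawTo (fun j => p ^ j) ν) ∧
        ∃ ν : Measure C(unitInterval, ℂ), IsProbabilityMeasure ν ∧ LawTo (fun j => q ^ j) ν,
      ∀ F : Finset ℂ, F.Nonempty → ∃ S : Set ℝ, S.Countable ∧ ∀ t : ℝ, 0 < t → t ∉ S →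
        (∃ l : ℝ, Tendsto (fun j => frac (p ^ j) F t) atTop (𝓝 l)) ∧
          ∃ l : ℝ, Tendsto (fun j => frac (q ^ j) F t) atTop (𝓝 l)] := by
  have hX := scX1_of_core hC
  refine ⟨HexObs.SIM.simple_final.2.1, fun lam φ ν h0 h1 hφ hν hlim => sc_all hC h0 h1 hφ hν hlim,
    fun p hp ν hν hlim φ μ hφ hμ hl => orbit_pub hX hp hν hlim hφ hμ hl, fun p q hp hq hpq => ?_⟩
  tfae_have 1 ↔ 2 := q1_two hX hp hq (irr_pow hp hq hpq)
  tfae_have 1 ↔ 3 := q1_two_frac hX hp hq hpq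
  tfae_finish

end Pool.Agent.SCF
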