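import Pool.Agent.SCF.FlowPub
import Pool.Agent.SCF.Semi

/-!
# ScaleFlow: the semiflow on the set of the weak limits (helper5)

`flow_pub2` : the set `WL` of the weak limits is compact and connected; the change of the scale is a continuous semiflow of `WL` onto
itself, with a size factor which is a continuous cocycle; the laws converge if and only if they converge along the powers of `p` and
of `q`, if and only if some weak limit attracts a neighbourhood in `WL`.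
-/

set_option autoImplicit false

open Filter Topology MeasureTheory Set

namespace Pool.Agent.SCF

open Pool.Agent.NTS.Res
open Pool.Agent.CRT (Q1)
open Pool.Agent.NPR (frac size_top)
open NTSF (PM lawTo_iff)
open NTSF.Mg (WL toLP_cont slow_curves)

/-! ### the sizes -/

lemma slow_log : Slow fun n : ℕ => Real.log (size n) := by
  intro ε hε
  obtain ⟨δ, hδ, h⟩ := slow_curves.1 (min (ε / 2) (1 / 2)) (by positivity)
  refine ⟨δ, hδ, fun n m hn hm => ?_⟩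
  have hn1 : 1 ≤ n := by
    have h1 : (0 : ℝ) < n := lt_of_lt_of_le (by positivity) hn
    exact_mod_cast h1
  have h1 := (h n m hn hm).1
  have p1 := NTSF.size_pos hn1
  have p2 := NTSF.size_pos (by omega : 1 ≤ n + m)
  obtain ⟨r, hr⟩ : ∃ r : ℝ, r = size (n + m) / size n := ⟨_, rfl⟩
  rw [← hr] at h1
  have hr0 : 0 < r := by rw [hr]; positivity
  have e : Real.log (size (n + m)) - Real.log (size n) = Real.log r := by
    rw [hr, Real.log_div p2.ne' p1.ne']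
  rw [Real.dist_eq, e]
  have h2 := h1.trans (min_le_left _ _)
  have h3 := h1.trans (min_le_right _ _)
  rw [abs_le] at h2 h3 ⊢
  constructor
  · have h4 := Real.log_le_sub_one_of_pos (inv_pos.2 hr0)
    rw [Real.log_inv] at h4
    have h5 : r⁻¹ - 1 ≤ ε := by
      rw [inv_eq_one_div, sub_le_iff_le_add, div_le_iff₀ hr0]
      nlinarith
    linarith
  · have h4 := Real.log_le_sub_one_of_pos hr0
    linarith

lemma size_near {a b : ℕ → ℕ} (hb : Tendsto b atTop atTop) (h : Tendsto (fun k => (a k : ℝ) / b k) atTop (𝓝 1)) :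
    Tendsto (fun k => size (a k) / size (b k)) atTop (𝓝 1) := by
  have h1 := near slow_log hb h
  have h2 : Tendsto (fun k => Real.log (size (a k)) - Real.log (size (b k))) atTop (𝓝 0) := by
    rw [tendsto_zero_iff_abs_tendsto_zero]
    exact h1
  have h3 := (Real.continuous_exp.tendsto 0).comp h2
  rw [Real.exp_zero] at h3
  have hbr : Tendsto (fun k => (b k : ℝ)) atTop atTop := tendsto_natCast_atTop_atTop.comp hb
  refine (tendsto_congr' ?_).1 h3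
  filter_upwards [hb.eventually_ge_atTop 1, hbr.eventually_gt_atTop 0, (tendsto_order.1 h).1 (1 / 2) (by norm_num)]
    with k k1 k2 k3
  have k4 : 1 ≤ a k := by
    rw [lt_div_iff₀ k2] at k3
    have : (0 : ℝ) < a k := by linarith
    exact_mod_cast this
  show Real.exp (Real.log (size (a k)) - Real.log (size (b k))) = _
  rw [Real.exp_sub, Real.exp_log (NTSF.size_pos k4), Real.exp_log (NTSF.size_pos k1)]

/-- the sizes of smaller walks -/
lemma size_le_mul : ∃ C : ℝ, 0 < C ∧ ∀ a n : ℕ, 1 ≤ a → a ≤ n → size a ≤ C * size n := by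
  obtain ⟨c, C, hc, hsz, -⟩ := NTSF.finE
  have hC : 0 < C := by
    have h1 := (hsz 1 le_rfl).2
    have h2 := NTSF.size_pos (n := 1) le_rfl
    rw [Nat.cast_one, Real.one_rpow, mul_one] at h1
    linarith
  refine ⟨C / c, by positivity, fun a n ha han => ?_⟩
  have h1 := (hsz a ha).2
  have h2 := (hsz n (ha.trans han)).1
  have h3 : (a : ℝ) ^ (3 / 4 : ℝ) ≤ (n : ℝ) ^ (3 / 4 : ℝ) :=
    Real.rpow_le_rpow (Nat.cast_nonneg _) (by exact_mod_cast han) (by norm_num)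
  calc size a ≤ C * (n : ℝ) ^ (3 / 4 : ℝ) := h1.trans (mul_le_mul_of_nonneg_left h3 hC.le)
    _ = C / c * (c * (n : ℝ) ^ (3 / 4 : ℝ)) := by field_simp
    _ ≤ C / c * size n := mul_le_mul_of_nonneg_left h2 (by positivity)

/-- the pair of the law and the size ratio -/
noncomputable def ys (t : ℝ) (n : ℕ) : LevyProkhorov (ProbabilityMeasure C(unitInterval, ℂ)) × ℝ :=
  (xs ⌊t * n⌋₊, size ⌊t * n⌋₊ / size n)

lemma slow_pair {ε τ : ℝ} (hε : 0 < ε) (hτ : 0 < τ) : ∃ δ : ℝ, 0 < δ ∧ ∃ n0 : ℕ, ∀ n a b : ℕ, n0 ≤ n → τ * n ≤ a → a ≤ b →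
    (b : ℝ) ≤ a + δ * n → b ≤ n → dist (xs b) (xs a) ≤ ε ∧ |size b / size n - size a / size n| ≤ ε := by
  obtain ⟨C, hC, hCs⟩ := size_le_mul
  obtain ⟨δ, hδ, h⟩ := slow_curves.1 (min ε (ε / C)) (by positivity)
  refine ⟨δ * τ, by positivity, ⌈1 / (δ * τ)⌉₊ + 1, fun n a b hn ha hab hb hbn => ?_⟩
  have h1 : 1 / (δ * τ) ≤ n := (Nat.le_ceil _).trans (by exact_mod_cast (by omega))
  have h2 : 1 / δ ≤ a := by
    refine le_trans ?_ ha
    rw [div_le_iff₀ (by positivity)] at h1 ⊢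
    nlinarith
  have ha1 : 1 ≤ a := by
    have h3 : (0 : ℝ) < a := lt_of_lt_of_le (by positivity) h2
    exact_mod_cast h3
  obtain ⟨m, rfl⟩ := Nat.exists_eq_add_of_le hab
  have hm : (m : ℝ) ≤ δ * a := by
    push_cast at hb
    have : δ * τ * n = δ * (τ * n) := by ring
    have h3 : δ * (τ * n) ≤ δ * a := mul_le_mul_of_nonneg_left ha hδ.le
    linarith
  obtain ⟨h3, h4⟩ := h a m h2 hm
  refine ⟨h4.trans (min_le_left _ _), ?_⟩
  have p1 := NTSF.size_pos ha1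
  have p2 := NTSF.size_pos (by omega : 1 ≤ n)
  have h5 : size (a + m) / size n - size a / size n = (size (a + m) / size a - 1) * (size a / size n) := by
    field_simp
  have h6 : size a / size n ≤ C := by
    rw [div_le_iff₀ p2]
    exact hCs a n ha1 (by omega)
  rw [h5, abs_mul, abs_of_nonneg (by positivity : 0 ≤ size a / size n)]
  calc |size (a + m) / size a - 1| * (size a / size n) ≤ ε / C * C :=
        mul_le_mul (h3.trans (min_le_right _ _)) h6 (by positivity) (by positivity)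
    _ = ε := div_mul_cancel₀ _ hC.ne'

lemma ys_slow : ∀ t : ℝ, 0 < t → t ≤ 1 → ∀ ε : ℝ, 0 < ε → ∃ δ : ℝ, 0 < δ ∧ ∃ n0 : ℕ, ∀ n : ℕ, n0 ≤ n → ∀ s : ℝ, 0 < s → s ≤ 1 →
    |s - t| ≤ δ → dist (ys s n) (ys t n) ≤ ε := by
  intro t t0 t1 ε hε
  obtain ⟨δ, hδ, n0, h⟩ := slow_pair hε (by positivity : (0 : ℝ) < t / 4)
  refine ⟨min (t / 2) (δ / 2), by positivity, max n0 (⌈4 / t⌉₊ + ⌈2 / δ⌉₊), fun n hn s s0 s1 hst => ?_⟩
  have n1 : n0 ≤ n := le_of_max_le_left hn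
  have n2 : 4 / t ≤ n := (Nat.le_ceil _).trans (by exact_mod_cast (by omega))
  have n3 : 2 / δ ≤ n := (Nat.le_ceil _).trans (by exact_mod_cast (by omega))
  rw [div_le_iff₀ t0] at n2
  rw [div_le_iff₀ hδ] at n3
  have hn0 : (0 : ℝ) ≤ n := Nat.cast_nonneg n
  have key : ∀ u v : ℝ, 0 < u → t / 2 ≤ u → u ≤ v → v ≤ 1 → v - u ≤ δ / 2 → dist (ys v n) (ys u n) ≤ ε := by
    intro u v hu hut huv hv1 hvu
    have f1 : (⌊u * n⌋₊ : ℝ) ≤ u * n := Nat.floor_le (by positivity)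
    have f2 : u * n - 1 < (⌊u * n⌋₊ : ℝ) := Nat.sub_one_lt_floor _
    have f3 : (⌊v * n⌋₊ : ℝ) ≤ v * n := Nat.floor_le (mul_nonneg (hu.le.trans huv) hn0)
    obtain ⟨g1, g2⟩ := h n ⌊u * n⌋₊ ⌊v * n⌋₊ n1 (by nlinarith) (Nat.floor_le_floor (mul_le_mul_of_nonneg_right huv hn0))
      (by nlinarith) (by
        have : (⌊v * n⌋₊ : ℝ) ≤ n := f3.trans (by nlinarith)
        exact_mod_cast this)
    show max (dist (xs ⌊v * n⌋₊) (xs ⌊u * n⌋₊)) (dist (size ⌊v * n⌋₊ / size n) (size ⌊u * n⌋₊ / size n)) ≤ ε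
    rw [Real.dist_eq]
    exact max_le g1 g2
  have h1 := hst.trans (min_le_left _ _)
  have h2 := hst.trans (min_le_right _ _)
  rw [abs_le] at h1 h2
  rcases le_total s t with h3 | h3
  · rw [dist_comm]
    exact key s t s0 (by linarith) h3 t1 (by linarith)
  · exact key t s t0 (by linarith) h3 s1 (by linarith)

/-! ### the semiflow -/

/-- the weak limits as limits of the sequence `xs` -/
lemma mem_Lm_iff {ν : ProbabilityMeasure C(unitInterval, ℂ)} : LevyProkhorov.ofMeasure ν ∈ Lm xs ↔ ν ∈ WL := by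
  constructor
  · rintro ⟨θ, hθ, h⟩
    obtain ⟨ψ, hψ, h1⟩ := strictMono_subseq_of_tendsto_atTop hθ
    exact ⟨θ ∘ ψ, h1, (lim_iff (φ := θ ∘ ψ) ν).2 (h.comp hψ.tendsto_atTop)⟩
  · rintro ⟨φ, hφ, h⟩
    exact ⟨φ, hφ.tendsto_atTop, (lim_iff ν).1 h⟩

/-- **the semiflow**, in the metric space -/
theorem flow_lp (hC : ∀ lam : ℝ, 0 < lam → lam < 1 → Core lam) :
    ∃ F : ℝ → LevyProkhorov (ProbabilityMeasure C(unitInterval, ℂ)) → LevyProkhorov (ProbabilityMeasure C(unitInterval, ℂ)) × ℝ,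
      (∀ (t : ℝ) (θ : ℕ → ℕ) (ν : LevyProkhorov (ProbabilityMeasure C(unitInterval, ℂ))), 0 < t → t ≤ 1 → Tendsto θ atTop atTop →
        Tendsto (fun k => xs (θ k)) atTop (𝓝 ν) → Tendsto (fun k => ys t (θ k)) atTop (𝓝 (F t ν)) ∧ 0 < (F t ν).2) ∧
      ContinuousOn (fun p : ℝ × LevyProkhorov (ProbabilityMeasure C(unitInterval, ℂ)) => F p.1 p.2) (Ioc 0 1 ×ˢ Lm xs) := by
  have hne : Nonempty (LevyProkhorov (ProbabilityMeasure C(unitInterval, ℂ)) × ℝ) := ⟨(xs 1, 0)⟩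
  have one : ∀ t : ℝ, 0 < t → t ≤ 1 → ∀ (θ : ℕ → ℕ) (ν : LevyProkhorov (ProbabilityMeasure C(unitInterval, ℂ))),
      Tendsto θ atTop atTop → Tendsto (fun k => xs (θ k)) atTop (𝓝 ν) →
      ∃ z, Tendsto (fun k => ys t (θ k)) atTop (𝓝 z) ∧ 0 < z.2 := by
    intro t t0 t1 θ ν hθ hν
    obtain ⟨ν', r, hr, h1, h2⟩ := sc_one hC t0 t1 hθ (ν := (ν.toMeasure : Measure C(unitInterval, ℂ))) inferInstance
      ((lim_iff' ν).1 hν)
    exact ⟨(LevyProkhorov.ofMeasure ν', r), ((lim_iff (φ := fun k => ⌊t * θ k⌋₊) ν').1 h1).prodMk_nhds h2, hr⟩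
  obtain ⟨F, hF, hFc⟩ := semi_exists (x := xs) (y := ys) (fun t t0 t1 θ ν hθ hν =>
    let ⟨z, hz, _⟩ := one t t0 t1 θ ν hθ hν
    ⟨z, hz⟩) ys_slow
  refine ⟨F, fun t θ ν t0 t1 hθ hν => ⟨hF t θ ν t0 t1 hθ hν, ?_⟩, hFc⟩
  obtain ⟨z, hz, hz0⟩ := one t t0 t1 θ ν hθ hν
  rw [tendsto_nhds_unique (hF t θ ν t0 t1 hθ hν) hz]
  exact hz0

lemma floor_top {t : ℝ} (ht : 0 < t) {θ : ℕ → ℕ} (hθ : Tendsto θ atTop atTop) : Tendsto (fun k => ⌊t * θ k⌋₊) atTop atTop :=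
  tendsto_nat_floor_atTop.comp ((tendsto_natCast_atTop_atTop.comp hθ).const_mul_atTop ht)

/-- the rounding does not matter -/
lemma floor_floor {s t : ℝ} (hs : 0 < s) (ht : 0 < t) {θ : ℕ → ℕ} (hθ : Tendsto θ atTop atTop) :
    Tendsto (fun k => ((⌊s * (⌊t * θ k⌋₊ : ℕ)⌋₊ : ℕ) : ℝ) / (⌊s * t * θ k⌋₊ : ℕ)) atTop (𝓝 1) := by
  have h1 := floor_ratio hs (floor_top ht hθ)
  have h2 := floor_ratio ht hθ
  have h3 := floor_ratio (mul_pos hs ht) hθ
  have h4 := (h1.mul h2).div h3 (mul_pos hs ht).ne'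
  rw [div_self (mul_pos hs ht).ne'] at h4
  have hr : Tendsto (fun k => (θ k : ℝ)) atTop atTop := tendsto_natCast_atTop_atTop.comp hθ
  have hr2 : Tendsto (fun k => ((⌊t * θ k⌋₊ : ℕ) : ℝ)) atTop atTop := tendsto_natCast_atTop_atTop.comp (floor_top ht hθ)
  refine (tendsto_congr' ?_).1 h4
  filter_upwards [hr.eventually_gt_atTop 0, hr2.eventually_gt_atTop 0] with k hk hk2
  show ((⌊s * (⌊t * θ k⌋₊ : ℕ)⌋₊ : ℕ) : ℝ) / (⌊t * θ k⌋₊ : ℕ) * (((⌊t * θ k⌋₊ : ℕ) : ℝ) / θ k) /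
    (((⌊s * t * θ k⌋₊ : ℕ) : ℝ) / θ k) = _
  rw [div_mul_div_cancel₀ hk2.ne', div_div_div_cancel_right₀ hk.ne']

/-- **ScaleFlow, the semiflow form, from the core** -/
theorem flow_pub2 (hC : ∀ lam : ℝ, 0 < lam → lam < 1 → Core lam) :
    IsCompact WL ∧ IsConnected WL ∧
    ∃ (T : ℝ → ProbabilityMeasure C(unitInterval, ℂ) → ProbabilityMeasure C(unitInterval, ℂ))
      (c : ℝ → ProbabilityMeasure C(unitInterval, ℂ) → ℝ),
      (∀ (t : ℝ) (φ : ℕ → ℕ) (ν : ProbabilityMeasure C(unitInterval, ℂ)), 0 < t → t ≤ 1 → Tendsto φ atTop atTop →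
        LawTo φ (ν : Measure C(unitInterval, ℂ)) →
          LawTo (fun j => ⌊t * φ j⌋₊) (T t ν : Measure C(unitInterval, ℂ)) ∧
          Tendsto (fun j => size ⌊t * φ j⌋₊ / size (φ j)) atTop (𝓝 (c t ν)) ∧ 0 < c t ν) ∧
      ContinuousOn (fun p : ℝ × ProbabilityMeasure C(unitInterval, ℂ) => (T p.1 p.2, c p.1 p.2)) (Ioc 0 1 ×ˢ WL) ∧
      (∀ t : ℝ, 0 < t → t ≤ 1 → T t '' WL = WL) ∧
      (∀ (s t : ℝ) (ν : ProbabilityMeasure C(unitInterval, ℂ)), 0 < s → s ≤ 1 → 0 < t → t ≤ 1 → ν ∈ WL →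
        T s (T t ν) = T (s * t) ν ∧ c s (T t ν) * c t ν = c (s * t) ν) ∧
      ∀ p q : ℕ, 2 ≤ p → 2 ≤ q → (∀ a b : ℕ, 1 ≤ a → p ^ b ≠ q ^ a) → List.TFAE [
        ∃ ν : ProbabilityMeasure C(unitInterval, ℂ), LawTo (fun n => n) (ν : Measure C(unitInterval, ℂ)),
        (∃ ν : ProbabilityMeasure C(unitInterval, ℂ), LawTo (fun j => p ^ j) (ν : Measure C(unitInterval, ℂ))) ∧
          ∃ ν : ProbabilityMeasure C(unitInterval, ℂ), LawTo (fun j => q ^ j) (ν : Measure C(unitInterval, ℂ)),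
        ∀ F : Finset ℂ, F.Nonempty → ∃ S : Set ℝ, S.Countable ∧ ∀ r : ℝ, 0 < r → r ∉ S →
          (∃ l : ℝ, Tendsto (fun j => frac (p ^ j) F r) atTop (𝓝 l)) ∧
            ∃ l : ℝ, Tendsto (fun j => frac (q ^ j) F r) atTop (𝓝 l),
        ∃ ν ∈ WL, ∃ U ∈ 𝓝 ν, ∀ V ∈ 𝓝 ν, ∃ t0 : ℝ, 0 < t0 ∧ ∀ t : ℝ, 0 < t → t ≤ t0 → t ≤ 1 → ∀ μ ∈ U ∩ WL, T t μ ∈ V] := by
  have hX := scX1_of_core hC
  obtain ⟨F, hF, hFc⟩ := flow_lp hC
  obtain ⟨K, hK, hxK⟩ := compact_xs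
  obtain ⟨-, -, hWc, hWn, -⟩ := slow_curves
  obtain ⟨T, hT⟩ : ∃ T : ℝ → ProbabilityMeasure C(unitInterval, ℂ) → ProbabilityMeasure C(unitInterval, ℂ),
      ∀ t ν, T t ν = (F t (LevyProkhorov.ofMeasure ν)).1.toMeasure := ⟨_, fun _ _ => rfl⟩
  obtain ⟨c, hc⟩ : ∃ c : ℝ → ProbabilityMeasure C(unitInterval, ℂ) → ℝ,
      ∀ t ν, c t ν = (F t (LevyProkhorov.ofMeasure ν)).2 := ⟨_, fun _ _ => rfl⟩
  have hTo : ∀ t ν, LevyProkhorov.ofMeasure (T t ν) = (F t (LevyProkhorov.ofMeasure ν)).1 := fun t ν => by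
    rw [hT]
  -- convergence in the metric space
  have cv : ∀ (t : ℝ) (φ : ℕ → ℕ) (ν : ProbabilityMeasure C(unitInterval, ℂ)), 0 < t → t ≤ 1 → Tendsto φ atTop atTop →
      Tendsto (fun k => xs (φ k)) atTop (𝓝 (LevyProkhorov.ofMeasure ν)) →
      Tendsto (fun k => xs ⌊t * φ k⌋₊) atTop (𝓝 (LevyProkhorov.ofMeasure (T t ν))) ∧
      Tendsto (fun j => size ⌊t * φ j⌋₊ / size (φ j)) atTop (𝓝 (c t ν)) ∧ 0 < c t ν := by
    intro t φ ν t0 t1 hφ h
    obtain ⟨h1, h2⟩ := hF t φ _ t0 t1 hφ h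
    rw [hTo, hc]
    exact ⟨(continuous_fst.tendsto _).comp h1, (continuous_snd.tendsto _).comp h1, h2⟩
  refine ⟨hWc, hWn, T, c, fun t φ ν t0 t1 hφ hlim => ?_, ?_, fun t t0 t1 => ?_, fun s t ν s0 s1 t0 t1 hν => ?_,
    fun p q hp hq hpq => ?_⟩
  · obtain ⟨h1, h2, h3⟩ := cv t φ ν t0 t1 hφ ((lim_iff ν).1 hlim)
    exact ⟨(lim_iff (φ := fun j => ⌊t * φ j⌋₊) (T t ν)).2 h1, h2, h3⟩
  · have e : (fun p : ℝ × ProbabilityMeasure C(unitInterval, ℂ) => (T p.1 p.2, c p.1 p.2)) =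
        (fun z : LevyProkhorov (ProbabilityMeasure C(unitInterval, ℂ)) × ℝ => (z.1.toMeasure, z.2)) ∘
          (fun p : ℝ × LevyProkhorov (ProbabilityMeasure C(unitInterval, ℂ)) => F p.1 p.2) ∘
          fun p : ℝ × ProbabilityMeasure C(unitInterval, ℂ) => (p.1, LevyProkhorov.ofMeasure p.2) := by
      funext p
      show (T p.1 p.2, c p.1 p.2) = ((F p.1 (LevyProkhorov.ofMeasure p.2)).1.toMeasure, (F p.1 (LevyProkhorov.ofMeasure p.2)).2)
      rw [hT, hc]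
    rw [e]
    have g1 : Continuous fun z : LevyProkhorov (ProbabilityMeasure C(unitInterval, ℂ)) × ℝ => (z.1.toMeasure, z.2) :=
      (LevyProkhorov.continuous_toMeasure_probabilityMeasure.comp continuous_fst).prodMk continuous_snd
    have g2 : Continuous fun p : ℝ × ProbabilityMeasure C(unitInterval, ℂ) => (p.1, LevyProkhorov.ofMeasure p.2) :=
      continuous_fst.prodMk (toLP_cont.comp continuous_snd)
    refine g1.comp_continuousOn (hFc.comp g2.continuousOn ?_)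
    rintro ⟨t, ν⟩ ⟨h1, h2⟩
    exact ⟨h1, mem_Lm_iff.2 h2⟩
  · apply Subset.antisymm
    · rintro _ ⟨ν, hν, rfl⟩
      obtain ⟨θ, hθ, h⟩ := mem_Lm_iff.2 hν
      exact mem_Lm_iff.1 ⟨_, floor_top t0 hθ, (cv t θ ν t0 t1 hθ h).1⟩
    · intro μ hμ
      obtain ⟨θ, hθ, h⟩ := mem_Lm_iff.2 hμ
      obtain ⟨m, hm⟩ : ∃ m : ℕ → ℕ, ∀ k, m k = ⌈(θ k : ℝ) / t⌉₊ := ⟨_, fun _ => rfl⟩
      have hθr : Tendsto (fun k => (θ k : ℝ)) atTop atTop := tendsto_natCast_atTop_atTop.comp hθ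
      have mt : Tendsto m atTop atTop := by
        have : m = fun k => ⌈(θ k : ℝ) / t⌉₊ := funext hm
        rw [this]
        exact tendsto_nat_ceil_atTop.comp (hθr.atTop_div_const t0)
      obtain ⟨y, -, ψ, hψ, h1⟩ := hK.tendsto_subseq (x := fun k => xs (m k)) (fun k => hxK _)
      have hy : LevyProkhorov.ofMeasure y.toMeasure = y := rfl
      have hyW : y.toMeasure ∈ WL := mem_Lm_iff.1 ⟨_, mt.comp hψ.tendsto_atTop, by rw [hy]; exact h1⟩
      refine ⟨y.toMeasure, hyW, ?_⟩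
      have h2 := (cv t _ y.toMeasure t0 t1 (mt.comp hψ.tendsto_atTop) (by rw [hy]; exact h1)).1
      have h3 : Tendsto (fun k => xs ⌊t * (m (ψ k) : ℝ)⌋₊) atTop (𝓝 (LevyProkhorov.ofMeasure μ)) := by
        refine near_lim slow_xs (hθ.comp hψ.tendsto_atTop) ?_ (h.comp hψ.tendsto_atTop)
        have r0 : Tendsto (fun k => (θ (ψ k) : ℝ)) atTop atTop := hθr.comp hψ.tendsto_atTop
        have r1 : Tendsto (fun k => 1 - 1 / (θ (ψ k) : ℝ)) atTop (𝓝 (1 - 0)) :=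
          tendsto_const_nhds.sub (tendsto_const_nhds.div_atTop r0)
        have r2 : Tendsto (fun k => 1 + t / (θ (ψ k) : ℝ)) atTop (𝓝 (1 + 0)) :=
          tendsto_const_nhds.add (tendsto_const_nhds.div_atTop r0)
        rw [sub_zero] at r1
        rw [add_zero] at r2
        refine tendsto_of_tendsto_of_tendsto_of_le_of_le' r1 r2 ?_ ?_
        · filter_upwards [r0.eventually_gt_atTop 0] with k hk
          show 1 - 1 / (θ (ψ k) : ℝ) ≤ ((⌊t * (m (ψ k) : ℝ)⌋₊ : ℕ) : ℝ) / (θ (ψ k) : ℝ)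
          rw [le_div_iff₀ hk, sub_mul, one_div_mul_cancel hk.ne', one_mul]
          have e1 : (θ (ψ k) : ℝ) ≤ t * m (ψ k) := by
            rw [hm]
            have := Nat.le_ceil ((θ (ψ k) : ℝ) / t)
            rw [div_le_iff₀ t0] at this
            linarith
          have e2 := Nat.sub_one_lt_floor (t * (m (ψ k) : ℝ))
          linarith
        · filter_upwards [r0.eventually_gt_atTop 0] with k hk
          show ((⌊t * (m (ψ k) : ℝ)⌋₊ : ℕ) : ℝ) / (θ (ψ k) : ℝ) ≤ 1 + t / (θ (ψ k) : ℝ)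
          rw [div_le_iff₀ hk, add_mul, div_mul_cancel₀ _ hk.ne', one_mul]
          have e1 : t * (m (ψ k) : ℝ) ≤ θ (ψ k) + t := by
            rw [hm]
            have := Nat.ceil_lt_add_one (show (0 : ℝ) ≤ (θ (ψ k) : ℝ) / t by positivity)
            have h9 := mul_lt_mul_of_pos_left this t0
            rw [mul_add, mul_one, mul_div_cancel₀ _ t0.ne'] at h9
            exact h9.le
          exact (Nat.floor_le (by positivity)).trans e1
      have h4 := tendsto_nhds_unique h2 h3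
      exact congrArg LevyProkhorov.toMeasure h4
  · obtain ⟨θ, hθ, h⟩ := mem_Lm_iff.2 hν
    obtain ⟨a1, a2, a3⟩ := cv t θ ν t0 t1 hθ h
    obtain ⟨b1, b2, b3⟩ := cv s _ (T t ν) s0 s1 (floor_top t0 hθ) a1
    have st0 : 0 < s * t := by positivity
    have st1 : s * t ≤ 1 := by nlinarith
    obtain ⟨d1, d2, d3⟩ := cv (s * t) θ ν st0 st1 hθ h
    have ff := floor_floor s0 t0 hθ
    constructor
    · have h1 := near_lim slow_xs (floor_top st0 hθ) ff d1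
      exact congrArg LevyProkhorov.toMeasure (tendsto_nhds_unique b1 h1)
    · have h1 := (b2.mul a2)
      have h2 := (size_near (floor_top st0 hθ) ff).mul d2
      rw [one_mul] at h2
      refine tendsto_nhds_unique h1 ((tendsto_congr' ?_).1 h2)
      filter_upwards [(floor_top st0 hθ).eventually_ge_atTop 1, (floor_top t0 hθ).eventually_ge_atTop 1] with k k1 k2
      have p1 := NTSF.size_pos k1
      have p2 := NTSF.size_pos k2
      rw [div_mul_div_cancel₀ p1.ne', div_mul_div_cancel₀ p2.ne']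
  · have c1 : ∀ φ : ℕ → ℕ, (∃ ν : ProbabilityMeasure C(unitInterval, ℂ), LawTo φ (ν : Measure C(unitInterval, ℂ))) ↔
        ∃ ν : Measure C(unitInterval, ℂ), IsProbabilityMeasure ν ∧ LawTo φ ν :=
      fun φ => ⟨fun ⟨ν, h⟩ => ⟨ν, inferInstance, h⟩, fun ⟨ν, hν, h⟩ => ⟨⟨ν, hν⟩, h⟩⟩
    rw [c1, c1, c1]
    tfae_have 1 ↔ 2 := q1_two hX hp hq (irr_pow hp hq hpq)
    tfae_have 1 ↔ 3 := q1_two_frac hX hp hq hpq
    tfae_have 1 → 4 := by
      rintro ⟨ν, hν, h⟩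
      have h' : Tendsto (fun n => xs n) atTop (𝓝 (LevyProkhorov.ofMeasure (⟨ν, hν⟩ : ProbabilityMeasure C(unitInterval, ℂ)))) :=
        (lim_iff (φ := fun n => n) ⟨ν, hν⟩).1 h
      have hu : ∀ μ ∈ WL, μ = (⟨ν, hν⟩ : ProbabilityMeasure C(unitInterval, ℂ)) := by
        intro μ hμ
        obtain ⟨θ, hθ, h1⟩ := mem_Lm_iff.2 hμ
        exact congrArg LevyProkhorov.toMeasure (tendsto_nhds_unique h1 (h'.comp hθ))
      have hνW : (⟨ν, hν⟩ : ProbabilityMeasure C(unitInterval, ℂ)) ∈ WL := mem_Lm_iff.1 ⟨fun n => n, tendsto_id, h'⟩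
      refine ⟨⟨ν, hν⟩, hνW, univ, univ_mem, fun V hV => ⟨1, one_pos, fun t t0 _ t1 μ hμ => ?_⟩⟩
      have h1 : T t μ ∈ WL := by
        obtain ⟨θ, hθ, h2⟩ := mem_Lm_iff.2 hμ.2
        exact mem_Lm_iff.1 ⟨_, floor_top t0 hθ, (cv t θ μ t0 t1 hθ h2).1⟩
      rw [hu _ h1]
      exact mem_of_mem_nhds hV
    tfae_have 4 → 1 := by
      rintro ⟨ν, hνW, U, hU, hatt⟩
      have h1 : Tendsto xs atTop (𝓝 (LevyProkhorov.ofMeasure ν)) := by
        refine attract slow_xs hK hxK (T := fun t y => (F t y).1) (fun t θ y t0 t1 hθ hy =>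
          (continuous_fst.tendsto _).comp (hF t θ y t0 t1 hθ hy).1) (mem_Lm_iff.2 hνW)
          (U := LevyProkhorov.toMeasure ⁻¹' U)
          (LevyProkhorov.continuous_toMeasure_probabilityMeasure.continuousAt.preimage_mem_nhds hU) ?_
        intro V hV
        obtain ⟨t2, ht2, h2⟩ := hatt (LevyProkhorov.ofMeasure ⁻¹' V) (toLP_cont.continuousAt.preimage_mem_nhds hV)
        refine ⟨t2, ht2, fun t t0 ht t1 y hy => ?_⟩
        have h3 := h2 t t0 ht t1 y.toMeasure ⟨hy.1, mem_Lm_iff.1 hy.2⟩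
        rw [mem_preimage, hTo] at h3
        exact h3
      exact ⟨ν, inferInstance, (lim_iff (φ := fun n => n) ν).2 h1⟩
    tfae_finish

end Pool.Agent.SCF
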