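import Pool.Agent.RMP.LimDefs

/-!
# The full flow (helper66), 1: the renormalisation map is homogeneous

* `conc_hom`, `gaps_hom`, `rmap_hom` : if the sizes of one family are `c` times those of another one, with the same laws below `x0`,
  the maps agree up to the dilation by `c`;
* **`fix_unique`** : two families with the same laws and proportional sizes below `x0 > 1 / 2`: the laws at `1` agree up to a dilation.
-/

set_option autoImplicit false

open MeasureTheory Filter Topology Set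
open scoped Classical Pointwise

namespace Pool.Agent.SCF.Full

open Pool.Agent.NTS.Res
open Pool.Agent.RMP

lemma conc_hom (c t α β : ℝ) (a b : C(unitInterval, ℂ)) : conc t (c * α) (c * β) a b = c • conc t α β a b := by
  ext u
  show ((c * α : ℝ) : ℂ) * _ + ((c * β : ℝ) : ℂ) * _ = c • ((α : ℂ) * _ + (β : ℂ) * _)
  rw [Complex.real_smul]
  push_cast
  ring

lemma gaps_hom {c : ℝ} (hc : 0 < c) (r α β : ℝ) (a b : C(unitInterval, ℂ)) :
    gaps r (c * α) (c * β) a b = c • gaps (r / c) α β a b := by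
  ext z
  rw [mem_smul_set_iff_inv_smul_mem₀ hc.ne']
  have hcC : (c : ℂ) ≠ 0 := by exact_mod_cast hc.ne'
  show (‖z‖ ≤ r ∧ _) ↔ (‖c⁻¹ • z‖ ≤ r / c ∧ _)
  refine and_congr ?_ (forall_congr' fun u => forall_congr' fun v => not_congr ?_)
  · rw [norm_smul, norm_inv, Real.norm_eq_abs, abs_of_pos hc, inv_mul_le_iff₀ hc, mul_div_cancel₀ _ hc.ne']
  · rw [Complex.real_smul]
    push_cast
    constructor
    · intro h
      have : z = (c : ℂ) * α * (a u - a 1) - (c : ℂ) * β * (b v - b 1) := by rw [h]; ring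
      rw [this]
      field_simp
      ring
    · intro h
      have : (c : ℂ) * ((α : ℂ) * (a u - a 1)) = (c : ℂ) * ((c : ℂ)⁻¹ * z + (β : ℂ) * (b v - b 1)) := by rw [h]
      rw [mul_add, mul_inv_cancel_left₀ hcC] at this
      linear_combination this

lemma vol_gaps_hom {c : ℝ} (hc : 0 < c) (r α β : ℝ) (a b : C(unitInterval, ℂ)) :
    (volume (gaps r (c * α) (c * β) a b)).toReal = c ^ 2 * (volume (gaps (r / c) α β a b)).toReal := by
  rw [gaps_hom hc, Measure.addHaar_smul, ENNReal.toReal_mul, Complex.finrank_real_complex,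
    ENNReal.toReal_ofReal (abs_nonneg _), abs_of_nonneg (by positivity)]

/-- **homogeneity** -/
lemma rmap_hom {μ μ' : ℝ → Measure C(unitInterval, ℂ)} {ρ ρ' : ℝ → ℝ} {c x0 s d : ℝ} (hc : 0 < c) (hd : 0 ≤ d) (hs : 0 < s)
    (hs1 : s < 1) (h1 : (1 + d) * s ≤ x0) (h2 : (1 + d) * (1 - s) ≤ x0) (hμ : ∀ x : ℝ, 0 < x → x ≤ x0 → μ x = μ' x)
    (hρ : ∀ x : ℝ, 0 < x → x ≤ x0 → ρ x = c * ρ' x) (r : ℝ) (F : C(unitInterval, ℂ) → ℝ) :
    rmap μ ρ s d r F = c ^ 2 * rmap μ' ρ' s d (r / c) (fun γ => F (c • γ)) := by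
  unfold Pool.Agent.RMP.rmap
  rw [← intervalIntegral.integral_const_mul]
  refine intervalIntegral.integral_congr fun x hx => ?_
  rw [uIcc_of_le (by nlinarith)] at hx
  have hx0 : 0 < x := lt_of_lt_of_le hs hx.1
  have hx1 : x ≤ x0 := hx.2.trans h1
  show _ = c ^ 2 * _
  rw [← intervalIntegral.integral_const_mul]
  refine intervalIntegral.integral_congr fun y hy => ?_
  rw [uIcc_of_le (by nlinarith)] at hy
  have hy0 : 0 < y := lt_of_lt_of_le (by linarith) hy.1
  have hy1 : y ≤ x0 := hy.2.trans h2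
  show _ = c ^ 2 * _
  rw [hμ x hx0 hx1, hμ y hy0 hy1, hρ x hx0 hx1, hρ y hy0 hy1, ← integral_const_mul]
  refine integral_congr_ae (Eventually.of_forall fun a => ?_)
  show _ = c ^ 2 * _
  rw [← integral_const_mul]
  refine integral_congr_ae (Eventually.of_forall fun b => ?_)
  show _ = c ^ 2 * _
  simp only [vol_gaps_hom hc, conc_hom]
  ring

/-- **the laws at `1` are determined by those below `x0 > 1 / 2`, up to a dilation** -/
theorem fix_unique (hR : RMLim) {φ φ' : ℕ → ℕ} {μ μ' : ℝ → Measure C(unitInterval, ℂ)} {ρ ρ' : ℝ → ℝ} (hF : Fam φ μ ρ)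
    (hF' : Fam φ' μ' ρ') {c x0 : ℝ} (hc : 0 < c) (hx0 : 1 / 2 < x0) (hμ : ∀ x : ℝ, 0 < x → x ≤ x0 → μ x = μ' x)
    (hρ : ∀ x : ℝ, 0 < x → x ≤ x0 → ρ x = c * ρ' x) {F : C(unitInterval, ℂ) → ℝ} (h01 : ∀ γ, 0 ≤ F γ ∧ F γ ≤ 1)
    {K : NNReal} (hK : LipschitzWith K F) : ∫ γ, F γ ∂(μ 1) = ∫ γ, F (c • γ) ∂(μ' 1) := by
  obtain ⟨M, hM⟩ : ∃ M : ℝ, M = max 1 (max (K : ℝ) ((K : ℝ) * c)) := ⟨_, rfl⟩
  have hM1 : 1 ≤ M := by
    rw [hM]
    exact le_max_left _ _
  have hM2 : (K : ℝ) ≤ M := by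
    rw [hM]
    exact (le_max_left _ _).trans (le_max_right _ _)
  have hM3 : (K : ℝ) * c ≤ M := by
    rw [hM]
    exact (le_max_right _ _).trans (le_max_right _ _)
  have hM0 : 0 < M := by linarith
  have l1 : LipschitzWith 1 fun γ => F γ / M := by
    refine LipschitzWith.of_dist_le_mul fun γ γ' => ?_
    rw [Real.dist_eq, ← sub_div, abs_div, abs_of_pos hM0, div_le_iff₀ hM0, NNReal.coe_one, one_mul, ← Real.dist_eq]
    refine (hK.dist_le_mul γ γ').trans ?_
    rw [mul_comm]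
    exact mul_le_mul_of_nonneg_left hM2 dist_nonneg
  have l2 : LipschitzWith 1 fun γ => F (c • γ) / M := by
    refine LipschitzWith.of_dist_le_mul fun γ γ' => ?_
    rw [Real.dist_eq, ← sub_div, abs_div, abs_of_pos hM0, div_le_iff₀ hM0, NNReal.coe_one, one_mul, ← Real.dist_eq]
    refine (hK.dist_le_mul _ _).trans ?_
    have e : dist (c • γ) (c • γ') = c * dist γ γ' := by
      have e0 : c • γ - c • γ' = c • (γ - γ') := (smul_sub c γ γ').symm
      rw [dist_eq_norm, dist_eq_norm, e0, norm_smul, Real.norm_eq_abs, abs_of_pos hc]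
    rw [e, ← mul_assoc, mul_comm]
    exact mul_le_mul_of_nonneg_left hM3 dist_nonneg
  have b1 : ∀ γ, 0 ≤ F γ / M ∧ F γ / M ≤ 1 := fun γ =>
    ⟨div_nonneg (h01 γ).1 hM0.le, by
      rw [div_le_one hM0]
      exact (h01 γ).2.trans hM1⟩
  have key : ∀ ε : ℝ, 0 < ε → |∫ γ, F γ / M ∂(μ 1) - ∫ γ, F (c • γ) / M ∂(μ' 1)| ≤ ε := by
    intro ε hε
    obtain ⟨e, he⟩ : ∃ e : ℝ, e = min (ε / 2) (1 / 2) := ⟨_, rfl⟩
    have he0 : 0 < e := by
      rw [he]
      exact lt_min (by positivity) (by norm_num)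
    have he1 : e ≤ 1 / 2 := by
      rw [he]
      exact min_le_right _ _
    have he2 : e ≤ ε / 2 := by
      rw [he]
      exact min_le_left _ _
    obtain ⟨d0, hd0, h1⟩ := hR e he0
    obtain ⟨d, hd⟩ : ∃ d : ℝ, d = min d0 (2 * x0 - 1) := ⟨_, rfl⟩
    have hdp : 0 < d := by
      rw [hd]
      exact lt_min hd0 (by linarith)
    have hdd : d ≤ d0 := by
      rw [hd]
      exact min_le_left _ _
    have hdx : d ≤ 2 * x0 - 1 := by
      rw [hd]
      exact min_le_right _ _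
    obtain ⟨_, _, r0, _, hr0, h2⟩ := h1 d hdp hdd
    obtain ⟨r, hr⟩ : ∃ r : ℝ, r = min r0 (c * r0) := ⟨_, rfl⟩
    have hrp : 0 < r := by
      rw [hr]
      exact lt_min hr0 (by positivity)
    have hr1 : r ≤ r0 := by
      rw [hr]
      exact min_le_left _ _
    have hr2 : r / c ≤ r0 := by
      rw [div_le_iff₀ hc, hr, mul_comm r0]
      exact min_le_right _ _
    have g1 := (h2 φ μ ρ hF r (1 / 2) hrp hr1 he1 (by linarith)).2.2 _ b1 l1
    have g2 := (h2 φ' μ' ρ' hF' (r / c) (1 / 2) (by positivity) hr2 he1 (by linarith)).2.2 _ (fun γ => b1 (c • γ)) l2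
    have e1 := rmap_hom (s := 1 / 2) hc hdp.le (by norm_num) (by norm_num) (by linarith) (by linarith) hμ hρ r
      (fun γ => F γ / M)
    have e2 := rmap_hom (s := 1 / 2) hc hdp.le (by norm_num) (by norm_num) (by linarith) (by linarith) hμ hρ r
      (fun _ => (1 : ℝ))
    rw [e1, e2, mul_div_mul_left _ _ (by positivity : c ^ 2 ≠ 0)] at g1
    rw [abs_le] at g1 g2 ⊢
    constructor <;> linarith [g1.1, g1.2, g2.1, g2.2]
  have h3 : ∫ γ, F γ / M ∂(μ 1) - ∫ γ, F (c • γ) / M ∂(μ' 1) = 0 := by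
    by_contra hne
    have hp : 0 < |∫ γ, F γ / M ∂(μ 1) - ∫ γ, F (c • γ) / M ∂(μ' 1)| := abs_pos.2 hne
    have := key _ (half_pos hp)
    linarith
  rw [integral_div, integral_div, ← sub_div, div_eq_zero_iff] at h3
  rcases h3 with h3 | h3
  · linarith
  · exact absurd h3 hM0.ne'

end Pool.Agent.SCF.Full
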