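import Pool.Agent.SCF.FullA
import Pool.Agent.SCF.FlowPub

/-!
# The full flow (helper66), 2: all factors

* `FlU lam` : the limits of the laws and of the ratio of the sizes along `⌊lam φ⌋` are determined by the limit along `φ`;
* `flU_comp` : the group law;
* `up_uniq`, `flU_up` : the factors between `1` and `2`, from the renormalisation map `RMLim` and the factors at most `1`;
* **`full_all`** : all positive factors.
-/

set_option autoImplicit false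

open MeasureTheory Filter Topology Set
open scoped Classical

namespace Pool.Agent.SCF.Full

open Pool.Agent.NTS.Res
open Pool.Agent.RMP
open NTSF (PM lawTo_iff)
open NTSF.Mg (oneFacts exists_K)

/-- the factor `lam` -/
def FlAt (lam : ℝ) : Prop := ∀ (φ : ℕ → ℕ) (ν : Measure C(unitInterval, ℂ)), Tendsto φ atTop atTop →
  IsProbabilityMeasure ν → LawTo φ ν → ∃ (ν' : Measure C(unitInterval, ℂ)) (r : ℝ), IsProbabilityMeasure ν' ∧ 0 < r ∧
    LawTo (fun j => ⌊lam * φ j⌋₊) ν' ∧ Tendsto (fun j => size ⌊lam * φ j⌋₊ / size (φ j)) atTop (𝓝 r)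

/-- the factor `lam`, the same limits for all sequences with the same limit -/
def FlU (lam : ℝ) : Prop := ∀ (φ : ℕ → ℕ) (ν : Measure C(unitInterval, ℂ)), Tendsto φ atTop atTop →
  IsProbabilityMeasure ν → LawTo φ ν → ∃ (ν' : Measure C(unitInterval, ℂ)) (r : ℝ), IsProbabilityMeasure ν' ∧ 0 < r ∧
    ∀ φ' : ℕ → ℕ, Tendsto φ' atTop atTop → LawTo φ' ν → LawTo (fun j => ⌊lam * φ' j⌋₊) ν' ∧
      Tendsto (fun j => size ⌊lam * φ' j⌋₊ / size (φ' j)) atTop (𝓝 r)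

/-- limits are unique -/
lemma law_unique {φ : ℕ → ℕ} {μ μ' : Measure C(unitInterval, ℂ)} (hμ : IsProbabilityMeasure μ) (hμ' : IsProbabilityMeasure μ')
    (h : LawTo φ μ) (h' : LawTo φ μ') : μ = μ' := by
  obtain ⟨a, ha⟩ : ∃ a : ProbabilityMeasure C(unitInterval, ℂ), a = ⟨μ, hμ⟩ := ⟨_, rfl⟩
  obtain ⟨b, hb⟩ : ∃ b : ProbabilityMeasure C(unitInterval, ℂ), b = ⟨μ', hμ'⟩ := ⟨_, rfl⟩
  have e : a = b := tendsto_nhds_unique ((lawTo_iff a).1 (by rw [ha]; exact h)) ((lawTo_iff b).1 (by rw [hb]; exact h'))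
  rw [ha, hb] at e
  exact congrArg Subtype.val e

lemma flU_of {lam : ℝ} (h : FlAt lam) : FlU lam := by
  intro φ ν hφ hν hlim
  obtain ⟨ν', r, hν', hr, h2, h3⟩ := h φ ν hφ hν hlim
  refine ⟨ν', r, hν', hr, fun φ' hφ' hlim' => ?_⟩
  obtain ⟨ω, hω⟩ : ∃ ω : ℕ → ℕ, ω = fun k => if Even k then φ (k / 2) else φ' (k / 2) := ⟨_, rfl⟩
  have o1 : Tendsto ω atTop atTop := by
    rw [hω]
    exact mix_lim hφ hφ'
  have o2 : LawTo ω ν := by
    intro f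
    refine (mix_lim (hlim f) (hlim' f)).congr fun k => ?_
    rw [hω]
    by_cases h : Even k
    · simp only [if_pos h]
    · simp only [if_neg h]
  obtain ⟨μ, x, hμ, hx, g2, g3⟩ := h ω ν o1 hν o2
  have e1 : ∀ k, ω (2 * k) = φ k := fun k => by
    rw [hω]
    simp
  have e2 : ∀ k, ω (2 * k + 1) = φ' k := fun k => by
    rw [hω]
    have h5 : ¬ Even (2 * k + 1) := by
      rw [Nat.not_even_iff_odd]
      exact odd_two_mul_add_one k
    have h6 : (2 * k + 1) / 2 = k := by omega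
    simp only [if_neg h5, h6]
  have t1 : Tendsto (fun k : ℕ => 2 * k) atTop atTop := tendsto_id.const_mul_atTop' (by norm_num)
  have t2 : Tendsto (fun k : ℕ => 2 * k + 1) atTop atTop :=
    tendsto_atTop_mono (f := fun k : ℕ => k) (fun k => by omega) tendsto_id
  have a1 : LawTo (fun j => ⌊lam * φ j⌋₊) μ := by
    intro f
    refine ((g2 f).comp t1).congr fun k => ?_
    show ∫ γ, f γ ∂(law ⌊lam * (ω (2 * k) : ℝ)⌋₊) = _
    rw [e1]
  have a2 : LawTo (fun j => ⌊lam * φ' j⌋₊) μ := by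
    intro f
    refine ((g2 f).comp t2).congr fun k => ?_
    show ∫ γ, f γ ∂(law ⌊lam * (ω (2 * k + 1) : ℝ)⌋₊) = _
    rw [e2]
  have b1 : Tendsto (fun j => size ⌊lam * φ j⌋₊ / size (φ j)) atTop (𝓝 x) := by
    refine (g3.comp t1).congr fun k => ?_
    show size ⌊lam * (ω (2 * k) : ℝ)⌋₊ / size (ω (2 * k)) = _
    rw [e1]
  have b2 : Tendsto (fun j => size ⌊lam * φ' j⌋₊ / size (φ' j)) atTop (𝓝 x) := by
    refine (g3.comp t2).congr fun k => ?_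
    show size ⌊lam * (ω (2 * k + 1) : ℝ)⌋₊ / size (ω (2 * k + 1)) = _
    rw [e2]
  have c1 : μ = ν' := law_unique hμ hν' a1 h2
  have c2 : x = r := tendsto_nhds_unique b1 h3
  rw [← c1, ← c2]
  exact ⟨a2, b2⟩

/-- the laws along equivalent sequences -/
lemma law_equiv {θ θ' : ℕ → ℕ} (hθ : Tendsto θ atTop atTop) (h : Tendsto (fun k => (θ' k : ℝ) / θ k) atTop (𝓝 1))
    {ν : Measure C(unitInterval, ℂ)} (hν : IsProbabilityMeasure ν) (hl : LawTo θ ν) : LawTo θ' ν :=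
  (lim_iff (φ := θ') ⟨ν, hν⟩).2 (near_lim slow_xs hθ h ((lim_iff (φ := θ) ⟨ν, hν⟩).1 hl))

lemma slow_log : Slow (fun n : ℕ => Real.log (size (n + 1))) := by
  intro ε hε
  obtain ⟨e, he⟩ : ∃ e : ℝ, e = min (1 / 2) (ε / 2) := ⟨_, rfl⟩
  have he0 : 0 < e := by
    rw [he]
    exact lt_min (by norm_num) (by positivity)
  have he1 : e ≤ 1 / 2 := by
    rw [he]
    exact min_le_left _ _
  have he2 : e ≤ ε / 2 := by
    rw [he]
    exact min_le_right _ _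
  obtain ⟨δ, hδ, h⟩ := NTSF.Mg.slow_curves.1 e he0
  refine ⟨δ, hδ, fun n m hn hm => ?_⟩
  have hp1 : 0 < size (n + 1) := NTSF.size_pos (by omega)
  have hp2 : 0 < size (n + m + 1) := NTSF.size_pos (by omega)
  have h1 := (h (n + 1) m (by push_cast; linarith) (by push_cast; nlinarith)).1
  rw [show n + 1 + m = n + m + 1 by ring, abs_le] at h1
  show dist (Real.log (size (n + m + 1))) (Real.log (size (n + 1))) ≤ ε
  rw [Real.dist_eq, ← Real.log_div hp2.ne' hp1.ne']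
  obtain ⟨t, ht⟩ : ∃ t : ℝ, t = size (n + m + 1) / size (n + 1) := ⟨_, rfl⟩
  rw [← ht] at h1 ⊢
  have ht0 : 0 < t := by linarith [h1.1]
  have u1 := Real.log_le_sub_one_of_pos ht0
  have u2 := Real.one_sub_inv_le_log_of_pos ht0
  have u3 : -(2 * e) ≤ 1 - t⁻¹ := by
    have : t⁻¹ ≤ 1 + 2 * e := by
      rw [inv_le_iff_one_le_mul₀ ht0]
      nlinarith [h1.1]
    linarith
  rw [abs_le]
  constructor <;> linarith [h1.2]

lemma size_equiv {θ θ' : ℕ → ℕ} (hθ : Tendsto θ atTop atTop) (h : Tendsto (fun k => (θ' k : ℝ) / θ k) atTop (𝓝 1)) :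
    Tendsto (fun k => size (θ' k) / size (θ k)) atTop (𝓝 1) := by
  have hθr : Tendsto (fun k => (θ k : ℝ)) atTop atTop := tendsto_natCast_atTop_atTop.comp hθ
  have h' : Tendsto (fun k => (θ' k : ℝ)) atTop atTop := by
    have e : (fun k => (θ k : ℝ) * ((θ' k : ℝ) / θ k)) =ᶠ[atTop] fun k => (θ' k : ℝ) := by
      filter_upwards [hθr.eventually_gt_atTop 0] with k hk
      rw [mul_div_cancel₀ _ hk.ne']
    exact (hθr.atTop_mul_pos one_pos h).congr' e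
  have hθ' : Tendsto θ' atTop atTop := tendsto_natCast_atTop_iff.1 h'
  have s1 : Tendsto (fun k => θ k - 1) atTop atTop := (tendsto_sub_atTop_nat 1).comp hθ
  have s2 : Tendsto (fun k => ((θ' k - 1 : ℕ) : ℝ) / ((θ k - 1 : ℕ) : ℝ)) atTop (𝓝 1) := by
    have v1 : Tendsto (fun k => (1 : ℝ) / θ k) atTop (𝓝 0) := tendsto_const_nhds.div_atTop hθr
    have v2 : Tendsto (fun k => ((θ' k : ℝ) / θ k - 1 / θ k) / (1 - 1 / θ k)) atTop (𝓝 ((1 - 0) / (1 - 0))) :=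
      (h.sub v1).div (tendsto_const_nhds.sub v1) (by norm_num)
    rw [sub_zero, div_one] at v2
    refine v2.congr' ?_
    filter_upwards [hθr.eventually_gt_atTop 1, hθ.eventually_ge_atTop 2, hθ'.eventually_ge_atTop 1] with k k1 k2 k3
    rw [Nat.cast_sub k3, Nat.cast_sub (by omega : 1 ≤ θ k), Nat.cast_one]
    have : (θ k : ℝ) - 1 ≠ 0 := by linarith
    have : (θ k : ℝ) ≠ 0 := by linarith
    field_simp
  have h1 := near slow_log s1 s2
  have h2 : Tendsto (fun k => Real.log (size (θ' k - 1 + 1)) - Real.log (size (θ k - 1 + 1))) atTop (𝓝 0) := by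
    rw [tendsto_zero_iff_abs_tendsto_zero]
    exact h1
  have h3 := (Real.continuous_exp.tendsto 0).comp h2
  rw [Real.exp_zero] at h3
  refine h3.congr' ?_
  filter_upwards [hθ.eventually_ge_atTop 1, hθ'.eventually_ge_atTop 1] with k k1 k2
  show Real.exp (Real.log (size (θ' k - 1 + 1)) - Real.log (size (θ k - 1 + 1))) = _
  rw [Nat.sub_add_cancel k1, Nat.sub_add_cancel k2, Real.exp_sub, Real.exp_log (NTSF.size_pos k2),
    Real.exp_log (NTSF.size_pos k1)]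

lemma floor_top {lam : ℝ} (h : 0 < lam) {φ : ℕ → ℕ} (hφ : Tendsto φ atTop atTop) : Tendsto (fun j => ⌊lam * φ j⌋₊) atTop atTop :=
  tendsto_nat_floor_atTop.comp ((tendsto_natCast_atTop_atTop.comp hφ).const_mul_atTop h)

/-- two floors -/
lemma floor_floor {a b : ℝ} (ha : 0 < a) (hb : 0 < b) {φ : ℕ → ℕ} (hφ : Tendsto φ atTop atTop) :
    Tendsto (fun j => ((⌊b * (⌊a * φ j⌋₊ : ℕ)⌋₊ : ℕ) : ℝ) / ((⌊b * a * φ j⌋₊ : ℕ) : ℝ)) atTop (𝓝 1) := by
  have h1 := floor_ratio hb (floor_top ha hφ)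
  have h2 := floor_ratio ha hφ
  have h3 := floor_ratio (mul_pos hb ha) hφ
  have h4 := (h1.mul h2).div h3 (mul_pos hb ha).ne'
  rw [div_self (mul_pos hb ha).ne'] at h4
  refine h4.congr' ?_
  filter_upwards [hφ.eventually_gt_atTop 0, (floor_top ha hφ).eventually_gt_atTop 0,
    (floor_top (mul_pos hb ha) hφ).eventually_gt_atTop 0] with j j1 j2 j3
  have k1 : (φ j : ℝ) ≠ 0 := by exact_mod_cast j1.ne'
  have k2 : ((⌊a * φ j⌋₊ : ℕ) : ℝ) ≠ 0 := by exact_mod_cast j2.ne'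
  have k3 : ((⌊b * a * φ j⌋₊ : ℕ) : ℝ) ≠ 0 := by exact_mod_cast j3.ne'
  show ((⌊b * (⌊a * φ j⌋₊ : ℕ)⌋₊ : ℕ) : ℝ) / ((⌊a * φ j⌋₊ : ℕ) : ℝ) * (((⌊a * φ j⌋₊ : ℕ) : ℝ) / φ j) /
    (((⌊b * a * φ j⌋₊ : ℕ) : ℝ) / φ j) = _
  field_simp

lemma floor_floor' {a b : ℝ} (ha : 0 < a) (hb : 0 < b) {φ : ℕ → ℕ} (hφ : Tendsto φ atTop atTop) :
    Tendsto (fun j => ((⌊b * a * φ j⌋₊ : ℕ) : ℝ) / ((⌊b * (⌊a * φ j⌋₊ : ℕ)⌋₊ : ℕ) : ℝ)) atTop (𝓝 1) := by
  have h := (floor_floor ha hb hφ).inv₀ one_ne_zero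
  rw [inv_one] at h
  refine h.congr fun j => ?_
  rw [inv_div]

/-- **the group law** -/
lemma comp_lim {a b r s : ℝ} (ha : 0 < a) (hb : 0 < b) {φ : ℕ → ℕ} (hφ : Tendsto φ atTop atTop) {ν : Measure C(unitInterval, ℂ)}
    (hν : IsProbabilityMeasure ν) (h1 : LawTo (fun j => ⌊b * (⌊a * φ j⌋₊ : ℕ)⌋₊) ν)
    (h2 : Tendsto (fun j => size ⌊a * φ j⌋₊ / size (φ j)) atTop (𝓝 r))
    (h3 : Tendsto (fun j => size ⌊b * (⌊a * φ j⌋₊ : ℕ)⌋₊ / size ⌊a * φ j⌋₊) atTop (𝓝 s)) :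
    LawTo (fun j => ⌊b * a * φ j⌋₊) ν ∧ Tendsto (fun j => size ⌊b * a * φ j⌋₊ / size (φ j)) atTop (𝓝 (s * r)) := by
  have t1 := floor_top ha hφ
  have t2 := floor_top hb t1
  have t3 := floor_top (mul_pos hb ha) hφ
  refine ⟨law_equiv t2 (floor_floor' ha hb hφ) hν h1, ?_⟩
  have h4 := ((size_equiv t2 (floor_floor' ha hb hφ)).mul h3).mul h2
  rw [one_mul] at h4
  refine h4.congr' ?_
  filter_upwards [hφ.eventually_ge_atTop 1, t1.eventually_ge_atTop 1, t2.eventually_ge_atTop 1] with j j1 j2 j3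
  have k1 := (NTSF.size_pos j1).ne'
  have k2 := (NTSF.size_pos j2).ne'
  have k3 := (NTSF.size_pos j3).ne'
  field_simp

lemma flU_comp {a b : ℝ} (ha : 0 < a) (hb : 0 < b) (h1 : FlU a) (h2 : FlU b) : FlU (b * a) := by
  intro φ ν hφ hν hlim
  obtain ⟨ν1, r1, p1, q1, g1⟩ := h1 φ ν hφ hν hlim
  obtain ⟨ν2, r2, p2, q2, g2⟩ := h2 _ ν1 (floor_top ha hφ) p1 (g1 φ hφ hlim).1
  refine ⟨ν2, r2 * r1, p2, mul_pos q2 q1, fun φ' hφ' hlim' => ?_⟩
  obtain ⟨l1, l2⟩ := g1 φ' hφ' hlim'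
  obtain ⟨l3, l4⟩ := g2 _ (floor_top ha hφ') l1
  exact comp_lim ha hb hφ' p2 l3 l2 l4

lemma flU_one : FlU 1 := by
  intro φ ν hφ hν hlim
  refine ⟨ν, 1, hν, one_pos, fun φ' hφ' hlim' => ?_⟩
  have e : (fun j => ⌊(1 : ℝ) * φ' j⌋₊) = φ' := by
    funext j
    rw [one_mul, Nat.floor_natCast]
  refine ⟨by rw [e]; exact hlim', ?_⟩
  have e2 : ∀ᶠ j in atTop, size ⌊(1 : ℝ) * φ' j⌋₊ / size (φ' j) = 1 := by
    filter_upwards [hφ'.eventually_ge_atTop 1] with j hj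
    rw [one_mul, Nat.floor_natCast, div_self (NTSF.size_pos hj).ne']
  exact (tendsto_congr' e2).2 tendsto_const_nhds

lemma flU_pow {a : ℝ} (ha : 0 < a) (h : FlU a) (k : ℕ) : FlU (a ^ k) := by
  induction k with
  | zero => rw [pow_zero]; exact flU_one
  | succ k ih =>
    rw [pow_succ']
    exact flU_comp (pow_pos ha k) ha ih h

/-- the family of a limit -/
lemma exists_fam (h : ∀ x : ℝ, 0 < x → x ≤ 1 → FlU x) {φ : ℕ → ℕ} {ν : Measure C(unitInterval, ℂ)} (hφ : Tendsto φ atTop atTop)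
    (hν : IsProbabilityMeasure ν) (hlim : LawTo φ ν) : ∃ (N : ℝ → Measure C(unitInterval, ℂ)) (S : ℝ → ℝ),
      ∀ x : ℝ, 0 < x → x ≤ 1 → IsProbabilityMeasure (N x) ∧ 0 < S x ∧ ∀ φ' : ℕ → ℕ, Tendsto φ' atTop atTop → LawTo φ' ν →
        LawTo (fun j => ⌊x * φ' j⌋₊) (N x) ∧ Tendsto (fun j => size ⌊x * φ' j⌋₊ / size (φ' j)) atTop (𝓝 (S x)) := by
  have h1 : ∀ x : ℝ, ∃ (m : Measure C(unitInterval, ℂ)) (r : ℝ), 0 < x → x ≤ 1 → IsProbabilityMeasure m ∧ 0 < r ∧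
      ∀ φ' : ℕ → ℕ, Tendsto φ' atTop atTop → LawTo φ' ν →
        LawTo (fun j => ⌊x * φ' j⌋₊) m ∧ Tendsto (fun j => size ⌊x * φ' j⌋₊ / size (φ' j)) atTop (𝓝 r) := by
    intro x
    by_cases hx : 0 < x ∧ x ≤ 1
    · obtain ⟨m, r, g⟩ := h x hx.1 hx.2 φ ν hφ hν hlim
      exact ⟨m, r, fun _ _ => g⟩
    · exact ⟨ν, 1, fun a b => absurd ⟨a, b⟩ hx⟩
  choose N S hNS using h1
  exact ⟨N, S, hNS⟩

/-- the family along `⌊lam θ⌋`: below `1 / lam` it is the family of the limit along `θ` -/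
lemma fam_up (h : ∀ x : ℝ, 0 < x → x ≤ 1 → FlU x) {lam : ℝ} (h1 : 1 < lam) {θ : ℕ → ℕ} {ν μ : Measure C(unitInterval, ℂ)}
    (hθ : Tendsto θ atTop atTop) (hl : LawTo θ ν) (hμ : IsProbabilityMeasure μ)
    (hm : LawTo (fun j => ⌊lam * θ j⌋₊) μ) {r : ℝ} (hr : 0 < r)
    (hs : Tendsto (fun j => size ⌊lam * θ j⌋₊ / size (θ j)) atTop (𝓝 r)) {N : ℝ → Measure C(unitInterval, ℂ)} {S : ℝ → ℝ}
    (hN : ∀ x : ℝ, 0 < x → x ≤ 1 → IsProbabilityMeasure (N x) ∧ 0 < S x ∧ ∀ φ' : ℕ → ℕ, Tendsto φ' atTop atTop →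
      LawTo φ' ν → LawTo (fun j => ⌊x * φ' j⌋₊) (N x) ∧
        Tendsto (fun j => size ⌊x * φ' j⌋₊ / size (φ' j)) atTop (𝓝 (S x))) :
    ∃ (M : ℝ → Measure C(unitInterval, ℂ)) (R : ℝ → ℝ), Fam (fun j => ⌊lam * θ j⌋₊) M R ∧ M 1 = μ ∧
      ∀ x : ℝ, 0 < x → x ≤ 1 / lam → M x = N (lam * x) ∧ R x = S (lam * x) / r := by
  have h0 : 0 < lam := by linarith
  have hb := floor_top h0 hθ
  obtain ⟨N1, S1, hN1⟩ := exists_fam h hb hμ hm
  have hx1 : 1 / lam < 1 := by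
    rw [div_lt_one h0]
    exact h1
  have hle : ∀ x : ℝ, x ≤ 1 / lam → lam * x ≤ 1 := fun x hx => by
    rw [le_div_iff₀ h0] at hx
    linarith
  refine ⟨fun x => if x ≤ 1 / lam then N (lam * x) else N1 x, fun x => if x ≤ 1 / lam then S (lam * x) / r else S1 x,
    ⟨hb, fun x x0 x1 => ?_, fun x x0 x1 => ?_, fun x x0 x1 => ?_⟩, ?_, fun x x0 hx => ⟨if_pos hx, if_pos hx⟩⟩
  · show IsProbabilityMeasure (if x ≤ 1 / lam then N (lam * x) else N1 x)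
    split_ifs with hx
    · exact (hN _ (mul_pos h0 x0) (hle x hx)).1
    · exact (hN1 x x0 x1).1
  · show LawTo _ (if x ≤ 1 / lam then N (lam * x) else N1 x)
    split_ifs with hx
    · obtain ⟨p1, -, g⟩ := hN _ (mul_pos h0 x0) (hle x hx)
      have g1 := (g θ hθ hl).1
      rw [mul_comm lam x] at g1 p1 ⊢
      exact law_equiv (floor_top (mul_pos x0 h0) hθ) (floor_floor h0 x0 hθ) p1 g1
    · exact ((hN1 x x0 x1).2.2 _ hb hm).1
  · show Tendsto _ _ (𝓝 (if x ≤ 1 / lam then S (lam * x) / r else S1 x))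
    split_ifs with hx
    · obtain ⟨-, -, g⟩ := hN _ (mul_pos h0 x0) (hle x hx)
      have g1 := (g θ hθ hl).2
      rw [mul_comm lam x] at g1 ⊢
      have g2 := (size_equiv (floor_top (mul_pos x0 h0) hθ) (floor_floor h0 x0 hθ)).mul (g1.div hs hr.ne')
      rw [one_mul] at g2
      refine g2.congr' ?_
      filter_upwards [hθ.eventually_ge_atTop 1, hb.eventually_ge_atTop 1,
        (floor_top (mul_pos x0 h0) hθ).eventually_ge_atTop 1] with j j1 j2 j3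
      have k1 := (NTSF.size_pos j1).ne'
      have k2 := (NTSF.size_pos j2).ne'
      have k3 := (NTSF.size_pos j3).ne'
      show size ⌊x * (⌊lam * θ j⌋₊ : ℕ)⌋₊ / size ⌊x * lam * θ j⌋₊ *
        (size ⌊x * lam * θ j⌋₊ / size (θ j) / (size ⌊lam * θ j⌋₊ / size (θ j))) = _
      field_simp
    · exact ((hN1 x x0 x1).2.2 _ hb hm).2
  · show (if (1 : ℝ) ≤ 1 / lam then N (lam * 1) else N1 1) = μ
    rw [if_neg (not_le.2 hx1)]
    have g := ((hN1 1 one_pos le_rfl).2.2 _ hb hm).1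
    have e : (fun j => ⌊(1 : ℝ) * ((⌊lam * θ j⌋₊ : ℕ) : ℝ)⌋₊) = fun j => ⌊lam * θ j⌋₊ := by
      funext j
      rw [one_mul, Nat.floor_natCast]
    rw [e] at g
    exact law_unique (hN1 1 one_pos le_rfl).1 hμ g hm

/-- **uniqueness above `1`** -/
theorem up_uniq (hR : RMLim) (h : ∀ x : ℝ, 0 < x → x ≤ 1 → FlU x) {lam : ℝ} (h1 : 1 < lam) (h2 : lam < 2) {θ θ' : ℕ → ℕ}
    {ν μ μ' : Measure C(unitInterval, ℂ)} (hν : IsProbabilityMeasure ν) (hθ : Tendsto θ atTop atTop)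
    (hθ' : Tendsto θ' atTop atTop) (hl : LawTo θ ν) (hl' : LawTo θ' ν) (hμ : IsProbabilityMeasure μ)
    (hμ' : IsProbabilityMeasure μ') (hm : LawTo (fun j => ⌊lam * θ j⌋₊) μ) (hm' : LawTo (fun j => ⌊lam * θ' j⌋₊) μ') {r r' : ℝ}
    (hr : 0 < r) (hr' : 0 < r') (hs : Tendsto (fun j => size ⌊lam * θ j⌋₊ / size (θ j)) atTop (𝓝 r))
    (hs' : Tendsto (fun j => size ⌊lam * θ' j⌋₊ / size (θ' j)) atTop (𝓝 r')) : μ = μ' ∧ r = r' := by
  have h0 : 0 < lam := by linarith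
  obtain ⟨N, S, hN⟩ := exists_fam h hθ hν hl
  obtain ⟨M, R, hF, hM1, hM⟩ := fam_up h h1 hθ hl hμ hm hr hs hN
  obtain ⟨M', R', hF', hM1', hM'⟩ := fam_up h h1 hθ' hl' hμ' hm' hr' hs' hN
  have hx0 : 1 / 2 < 1 / lam := one_div_lt_one_div_of_lt h0 h2
  have key : ∀ F : C(unitInterval, ℂ) → ℝ, (∀ γ, 0 ≤ F γ ∧ F γ ≤ 1) → (∃ K, LipschitzWith K F) →
      ∫ γ, F γ ∂μ = ∫ γ, F ((r' / r) • γ) ∂μ' := by
    rintro F hF0 ⟨K, hK⟩
    have := fix_unique hR hF hF' (c := r' / r) (div_pos hr' hr) hx0 (fun x x0 x1 => by rw [(hM x x0 x1).1, (hM' x x0 x1).1])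
      (fun x x0 x1 => by
        rw [(hM x x0 x1).2, (hM' x x0 x1).2]
        field_simp) hF0 hK
    rw [hM1, hM1'] at this
    exact this
  obtain ⟨g1, g2⟩ := scaled_uniq (ν := ⟨μ, hμ⟩) (ν' := ⟨μ', hμ'⟩) hr hr' (fun f hf hL => by
    obtain ⟨K, hK⟩ := hL
    have g := key (fun γ => f (r • γ)) (fun γ => hf _) ⟨K * Real.toNNReal r, by
      refine LipschitzWith.of_dist_le_mul fun γ γ' => ?_
      have e0 : r • γ - r • γ' = r • (γ - γ') := (smul_sub r γ γ').symm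
      have e : dist (r • γ) (r • γ') = r * dist γ γ' := by
        rw [dist_eq_norm, dist_eq_norm, e0, norm_smul, Real.norm_eq_abs, abs_of_pos hr]
      refine (hK.dist_le_mul _ _).trans ?_
      rw [e, NNReal.coe_mul, Real.coe_toNNReal r hr.le, mul_assoc]⟩
    refine g.trans (integral_congr_ae (Eventually.of_forall fun γ => ?_))
    show f (r • (r' / r) • γ) = f (r' • γ)
    rw [smul_smul, mul_div_cancel₀ _ hr.ne'])
    ((oneFacts NTSF.finE).sec _ _ (floor_top h0 hθ) hμ hm) ((oneFacts NTSF.finE).sec _ _ (floor_top h0 hθ') hμ' hm')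
  exact ⟨congrArg Subtype.val g1, g2⟩

end Pool.Agent.SCF.Full
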