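import Pool.Agent.SCF.FullB

/-!
# The full flow (helper66), 3: existence

* `ratio_up` : the ratio of the sizes is bounded above and below;
* `flAt_up` : the factors between `1` and `2`;
* **`full_of`**, **`full_all`** : all positive factors, from the factors at most `1` and the renormalisation map `RMLim`.
-/

set_option autoImplicit false

open MeasureTheory Filter Topology Set
open scoped Classical

namespace Pool.Agent.SCF.Full

open Pool.Agent.NTS.Res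
open Pool.Agent.RMP
open NTSF (PM lawTo_iff)
open NTSF.Mg (oneFacts exists_K)

lemma ratio_up {lam : ℝ} (h1 : 1 ≤ lam) (h2 : lam ≤ 2) : ∃ c C : ℝ, 0 < c ∧ ∀ N : ℕ, 1 ≤ N →
    c ≤ size ⌊lam * N⌋₊ / size N ∧ size ⌊lam * N⌋₊ / size N ≤ C := by
  obtain ⟨c, C, hc, hsz⟩ := (oneFacts NTSF.finE).sz
  have hcC : c ≤ C := by
    have := hsz 1 le_rfl
    rw [Nat.cast_one, Real.one_rpow, mul_one, mul_one] at this
    exact this.1.trans this.2
  have hC : 0 < C := lt_of_lt_of_le hc hcC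
  refine ⟨c / C, C * (2 : ℝ) ^ (3 / 4 : ℝ) / c, by positivity, fun N hN => ?_⟩
  have hN1 : (1 : ℝ) ≤ N := by exact_mod_cast hN
  obtain ⟨l, hl⟩ : ∃ l : ℕ, l = ⌊lam * N⌋₊ := ⟨_, rfl⟩
  have hlN : N ≤ l := by
    rw [hl]
    exact Nat.le_floor (by nlinarith)
  have hl2 : (l : ℝ) ≤ 2 * N := by
    rw [hl]
    exact (Nat.floor_le (by positivity)).trans (by nlinarith)
  rw [← hl]
  have s1 := hsz l (hN.trans hlN)
  have s2 := hsz N hN
  have p2 : 0 < (N : ℝ) ^ (3 / 4 : ℝ) := by positivity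
  have hsN : 0 < size N := lt_of_lt_of_le (by positivity) s2.1
  have e1 : (N : ℝ) ^ (3 / 4 : ℝ) ≤ (l : ℝ) ^ (3 / 4 : ℝ) :=
    Real.rpow_le_rpow (Nat.cast_nonneg _) (by exact_mod_cast hlN) (by norm_num)
  have e2 : (l : ℝ) ^ (3 / 4 : ℝ) ≤ (2 : ℝ) ^ (3 / 4 : ℝ) * (N : ℝ) ^ (3 / 4 : ℝ) := by
    rw [← Real.mul_rpow (by norm_num) (by linarith)]
    exact Real.rpow_le_rpow (Nat.cast_nonneg _) hl2 (by norm_num)
  refine ⟨?_, ?_⟩
  · rw [div_le_div_iff₀ hC hsN]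
    calc c * size N ≤ c * (C * (N : ℝ) ^ (3 / 4 : ℝ)) := mul_le_mul_of_nonneg_left s2.2 hc.le
      _ ≤ c * (C * (l : ℝ) ^ (3 / 4 : ℝ)) := by gcongr
      _ = c * (l : ℝ) ^ (3 / 4 : ℝ) * C := by ring
      _ ≤ size l * C := mul_le_mul_of_nonneg_right s1.1 hC.le
  · rw [div_le_div_iff₀ hsN hc]
    calc size l * c ≤ C * (l : ℝ) ^ (3 / 4 : ℝ) * c := mul_le_mul_of_nonneg_right s1.2 hc.le
      _ ≤ C * ((2 : ℝ) ^ (3 / 4 : ℝ) * (N : ℝ) ^ (3 / 4 : ℝ)) * c := by gcongr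
      _ = C * (2 : ℝ) ^ (3 / 4 : ℝ) * (c * (N : ℝ) ^ (3 / 4 : ℝ)) := by ring
      _ ≤ C * (2 : ℝ) ^ (3 / 4 : ℝ) * size N := mul_le_mul_of_nonneg_left s2.1 (by positivity)

/-- **the factors between `1` and `2`** -/
theorem flAt_up (hR : RMLim) (h : ∀ x : ℝ, 0 < x → x ≤ 1 → FlU x) {lam : ℝ} (h1 : 1 < lam) (h2 : lam < 2) : FlAt lam := by
  intro φ ν hφ hν hlim
  have h0 : 0 < lam := by linarith
  obtain ⟨c, C, hc, hb⟩ := ratio_up h1.le h2.le
  obtain ⟨KK, hKK, hPK⟩ := exists_K (oneFacts NTSF.finE)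
  -- subsequences
  have sub : ∀ ns : ℕ → ℕ, Tendsto ns atTop atTop → ∃ ψ : ℕ → ℕ, StrictMono ψ ∧
      ∃ (μ : ProbabilityMeasure C(unitInterval, ℂ)) (r : ℝ), 0 < r ∧
        Tendsto (fun k => PM ⌊lam * φ (ns (ψ k))⌋₊) atTop (𝓝 μ) ∧
        Tendsto (fun k => size ⌊lam * φ (ns (ψ k))⌋₊ / size (φ (ns (ψ k)))) atTop (𝓝 r) := by
    intro ns hns
    obtain ⟨n1, hn1⟩ := eventually_atTop.1 ((hφ.comp hns).eventually_ge_atTop 1)
    obtain ⟨μ, -, ψ1, m1, l1⟩ := hKK.tendsto_subseq (x := fun k => PM ⌊lam * φ (ns k)⌋₊) (fun k => hPK _)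
    obtain ⟨r, hr, ψ2, m2, l2⟩ := (isCompact_Icc (a := c) (b := C)).tendsto_subseq
      (x := fun k => size ⌊lam * φ (ns (ψ1 (k + n1)))⌋₊ / size (φ (ns (ψ1 (k + n1))))) (fun k => by
        have h2 := hb (φ (ns (ψ1 (k + n1)))) (hn1 _ ((Nat.le_add_left n1 k).trans (m1.id_le _)))
        exact ⟨h2.1, h2.2⟩)
    have m3 : StrictMono fun k => ψ1 (ψ2 k + n1) := fun a b hab => m1 (Nat.add_lt_add_right (m2 hab) n1)
    refine ⟨fun k => ψ1 (ψ2 k + n1), m3, μ, r, lt_of_lt_of_le hc hr.1, ?_, l2⟩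
    exact l1.comp ((tendsto_add_atTop_nat n1).comp m2.tendsto_atTop)
  have lsub : ∀ ω : ℕ → ℕ, Tendsto ω atTop atTop → LawTo (fun k => φ (ω k)) ν := fun ω hω f => (hlim f).comp hω
  obtain ⟨ψ, mψ, μ, r, hr, l1, l2⟩ := sub id tendsto_id
  -- uniqueness
  have uniq : ∀ ns : ℕ → ℕ, Tendsto ns atTop atTop → ∃ ψ' : ℕ → ℕ,
      Tendsto (fun k => PM ⌊lam * φ (ns (ψ' k))⌋₊) atTop (𝓝 μ) ∧
        Tendsto (fun k => size ⌊lam * φ (ns (ψ' k))⌋₊ / size (φ (ns (ψ' k)))) atTop (𝓝 r) := by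
    intro ns hns
    obtain ⟨ψ', mψ', μ', r', hr', l1', l2'⟩ := sub ns hns
    obtain ⟨g1, g2⟩ := up_uniq hR h h1 h2 hν (hφ.comp mψ.tendsto_atTop) (hφ.comp (hns.comp mψ'.tendsto_atTop))
      (lsub _ mψ.tendsto_atTop) (lsub _ (hns.comp mψ'.tendsto_atTop)) (inferInstance) (inferInstance)
      ((lawTo_iff μ).2 l1) ((lawTo_iff μ').2 l1') hr hr' l2 l2'
    refine ⟨ψ', ?_, ?_⟩
    · rw [show μ = μ' from Subtype.ext g1]
      exact l1'
    · rw [g2]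
      exact l2'
  refine ⟨μ, r, inferInstance, hr, ?_, ?_⟩
  · refine (lawTo_iff μ).2 (tendsto_of_subseq_tendsto fun ns hns => ?_)
    obtain ⟨ψ', g1, -⟩ := uniq ns hns
    exact ⟨ψ', g1⟩
  · refine tendsto_of_subseq_tendsto fun ns hns => ?_
    obtain ⟨ψ', -, g2⟩ := uniq ns hns
    exact ⟨ψ', g2⟩

/-- **all factors** -/
theorem full_of (hR : RMLim) (h : ∀ x : ℝ, 0 < x → x ≤ 1 → FlU x) {lam : ℝ} (h0 : 0 < lam) : FlU lam := by
  rcases le_or_gt lam 1 with h1 | h1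
  · exact h lam h0 h1
  · obtain ⟨n, hn⟩ := exists_nat_gt lam
    have hn2 : lam < 2 ^ (n + 1) := by
      have : (n : ℝ) < 2 ^ n := by exact_mod_cast Nat.lt_two_pow_self
      have h3 : (2 : ℝ) ^ n ≤ 2 ^ (n + 1) := pow_le_pow_right₀ (by norm_num) (by omega)
      linarith
    obtain ⟨a, ha⟩ : ∃ a : ℝ, a = lam ^ ((((n + 1 : ℕ) : ℝ))⁻¹) := ⟨_, rfl⟩
    have ha0 : 0 < a := by
      rw [ha]
      positivity
    have hpow : a ^ (n + 1) = lam := by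
      rw [ha]
      exact Real.rpow_inv_natCast_pow h0.le (by omega)
    have ha1 : 1 < a := by
      by_contra hcon
      have := pow_le_one₀ (n := n + 1) ha0.le (not_lt.1 hcon)
      linarith
    have ha2 : a < 2 := by
      by_contra hcon
      have := pow_le_pow_left₀ (by norm_num) (not_lt.1 hcon) (n + 1)
      linarith
    rw [← hpow]
    exact flU_pow ha0 (flU_of (flAt_up hR h ha1 ha2)) (n + 1)

/-- the factors at most `1`, from the core -/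
lemma flU_core (hC : ∀ lam : ℝ, 0 < lam → lam < 1 → Core lam) {lam : ℝ} (h0 : 0 < lam) (h1 : lam ≤ 1) : FlU lam :=
  fun _ _ hφ hν hlim => sc_all hC h0 h1 hφ hν hlim

/-- **the full flow**: the limit along `φ` determines the limits along `⌊lam φ⌋`, for every positive `lam` -/
theorem full_all (hC : ∀ lam : ℝ, 0 < lam → lam < 1 → Core lam) (hR : RMLim) {lam : ℝ} (h0 : 0 < lam) : FlU lam :=
  full_of hR (fun _ hx0 hx1 => flU_core hC hx0 hx1) h0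

end Pool.Agent.SCF.Full
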