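import Mathlib

/-!
# ScaleFlow, the abstract end (helper5, after next/46f0ca_11S)

* `sum_near`, `cross_one`, **`cross_lim`**: from the masses with a middle piece to the cross ratios;
* **`kap_end`**: two probability measures whose restrictions to countably many sets have the same cross ratios are equal.
-/

set_option autoImplicit false

open Filter Topology MeasureTheory Set

namespace Pool.Agent.SCF

/-- a sum with nearly constant factor -/
theorem sum_near {ι : Type*} {s : Finset ι} {β θ : ι → ℝ} {t ε : ℝ} (hβ : ∀ b ∈ s, 0 ≤ β b) (h : ∀ b ∈ s, |θ b - t| ≤ ε) :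
    |∑ b ∈ s, β b * θ b - t * ∑ b ∈ s, β b| ≤ ε * ∑ b ∈ s, β b := by
  rw [Finset.mul_sum, ← Finset.sum_sub_distrib, Finset.mul_sum]
  refine (Finset.abs_sum_le_sum_abs _ _).trans (Finset.sum_le_sum fun b hb => ?_)
  have e : β b * θ b - t * β b = β b * (θ b - t) := by ring
  rw [e, abs_mul, abs_of_nonneg (hβ b hb), mul_comm ε]
  exact mul_le_mul_of_nonneg_left (h b hb) (hβ b hb)

/-- one pair -/
theorem cross_one {M1 M2 M1' M2' β β' t1 t2 t1' t2' ε η c T : ℝ} (hc : 0 < c) (hβ : c ≤ β) (hβ' : c ≤ β') (hε : 0 ≤ ε)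
    (hη : 0 ≤ η) (ht1 : |t1| ≤ T) (ht2 : |t2| ≤ T) (ht1' : |t1'| ≤ T) (ht2' : |t2'| ≤ T) (h1 : |M1 - t1 * β| ≤ ε * β)
    (h2 : |M2 - t2 * β| ≤ ε * β) (h1' : |M1' - t1' * β'| ≤ ε * β') (h2' : |M2' - t2' * β'| ≤ ε * β')
    (h3 : |M1 - M1'| ≤ η) (h4 : |M2 - M2'| ≤ η) :
    |t1 * t2' - t1' * t2| ≤ 2 * ε * (2 * T + ε) + 2 * η * (T + ε) / c := by
  have hβ0 : 0 < β := hc.trans_le hβ
  have hβ'0 : 0 < β' := hc.trans_le hβ'
  have hT : 0 ≤ T := (abs_nonneg _).trans ht1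
  have m1 : |M1| ≤ (T + ε) * β := by
    have e : M1 = (M1 - t1 * β) + t1 * β := by ring
    rw [e]
    refine (abs_add_le _ _).trans ?_
    rw [abs_mul, abs_of_pos hβ0]
    have := mul_le_mul_of_nonneg_right ht1 hβ0.le
    linarith
  have m2 : |M2| ≤ (T + ε) * β := by
    have e : M2 = (M2 - t2 * β) + t2 * β := by ring
    rw [e]
    refine (abs_add_le _ _).trans ?_
    rw [abs_mul, abs_of_pos hβ0]
    have := mul_le_mul_of_nonneg_right ht2 hβ0.le
    linarith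
  -- the products
  have p1 : |t1 * β * (t2' * β') - M1 * M2'| ≤ β * β' * (ε * (2 * T + ε)) := by
    have e : t1 * β * (t2' * β') - M1 * M2' = -((M1 - t1 * β) * (t2' * β')) - M1 * (M2' - t2' * β') := by ring
    rw [e]
    refine (abs_sub _ _).trans ?_
    rw [abs_neg, abs_mul, abs_mul, abs_mul, abs_of_pos hβ'0]
    have a1 : |M1 - t1 * β| * (|t2'| * β') ≤ ε * β * (T * β') := by gcongr
    have a2 : |M1| * |M2' - t2' * β'| ≤ (T + ε) * β * (ε * β') := by gcongr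
    nlinarith
  have p2 : |t1' * β' * (t2 * β) - M1' * M2| ≤ β * β' * (ε * (2 * T + ε)) := by
    have e : t1' * β' * (t2 * β) - M1' * M2 = -((M2 - t2 * β) * (t1' * β')) - M2 * (M1' - t1' * β') := by ring
    rw [e]
    refine (abs_sub _ _).trans ?_
    rw [abs_neg, abs_mul, abs_mul, abs_mul, abs_of_pos hβ'0]
    have a1 : |M2 - t2 * β| * (|t1'| * β') ≤ ε * β * (T * β') := by gcongr
    have a2 : |M2| * |M1' - t1' * β'| ≤ (T + ε) * β * (ε * β') := by gcongr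
    nlinarith
  have p3 : |M1 * M2' - M1' * M2| ≤ 2 * ((T + ε) * β) * η := by
    have e : M1 * M2' - M1' * M2 = -(M1 * (M2 - M2')) + M2 * (M1 - M1') := by ring
    rw [e]
    refine (abs_add_le _ _).trans ?_
    rw [abs_neg, abs_mul, abs_mul]
    have a1 : |M1| * |M2 - M2'| ≤ (T + ε) * β * η := by gcongr
    have a2 : |M2| * |M1 - M1'| ≤ (T + ε) * β * η := by gcongr
    linarith
  have key : β * β' * |t1 * t2' - t1' * t2| ≤ β * β' * (2 * ε * (2 * T + ε)) + 2 * ((T + ε) * β) * η := by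
    have e : β * β' * |t1 * t2' - t1' * t2| = |t1 * β * (t2' * β') - t1' * β' * (t2 * β)| := by
      have e3 : t1 * β * (t2' * β') - t1' * β' * (t2 * β) = β * β' * (t1 * t2' - t1' * t2) := by ring
      rw [e3, abs_mul, abs_of_pos (mul_pos hβ0 hβ'0)]
    rw [e]
    have e2 : t1 * β * (t2' * β') - t1' * β' * (t2 * β) = (t1 * β * (t2' * β') - M1 * M2') + (M1 * M2' - M1' * M2) -
        (t1' * β' * (t2 * β) - M1' * M2) := by ring
    rw [e2]
    refine (abs_sub _ _).trans ((add_le_add (abs_add_le _ _) le_rfl).trans ?_)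
    linarith
  have h5 : 2 * ((T + ε) * β) * η ≤ β * β' * (2 * η * (T + ε) / c) := by
    have a1 : 0 ≤ 2 * η * (T + ε) := by positivity
    have a2 : 2 * η * (T + ε) ≤ β' * (2 * η * (T + ε) / c) := by
      rw [mul_div_assoc', le_div_iff₀ hc, mul_comm]
      exact mul_le_mul_of_nonneg_right hβ' a1
    calc 2 * ((T + ε) * β) * η = β * (2 * η * (T + ε)) := by ring
      _ ≤ β * (β' * (2 * η * (T + ε) / c)) := mul_le_mul_of_nonneg_left a2 hβ0.le
      _ = _ := by ring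
  have h6 : β * β' * |t1 * t2' - t1' * t2| ≤ β * β' * (2 * ε * (2 * T + ε) + 2 * η * (T + ε) / c) := by
    rw [mul_add]
    linarith
  exact le_of_mul_le_mul_left h6 (mul_pos hβ0 hβ'0)

/-- **the cross ratios** -/
theorem cross_lim {T : ℝ} {t1 t2 t1' t2' : ℕ → ℝ} (ht1 : ∀ᶠ j in atTop, |t1 j| ≤ T) (ht2 : ∀ᶠ j in atTop, |t2 j| ≤ T)
    (ht1' : ∀ᶠ j in atTop, |t1' j| ≤ T) (ht2' : ∀ᶠ j in atTop, |t2' j| ≤ T)
    (H : ∀ ε : ℝ, 0 < ε → ∃ (c : ℝ) (β β' M1 M2 M1' M2' : ℕ → ℝ), 0 < c ∧ (∀ᶠ j in atTop, c ≤ β j) ∧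
      (∀ᶠ j in atTop, c ≤ β' j) ∧ (∀ᶠ j in atTop, |M1 j - t1 j * β j| ≤ ε * β j) ∧
      (∀ᶠ j in atTop, |M2 j - t2 j * β j| ≤ ε * β j) ∧ (∀ᶠ j in atTop, |M1' j - t1' j * β' j| ≤ ε * β' j) ∧
      (∀ᶠ j in atTop, |M2' j - t2' j * β' j| ≤ ε * β' j) ∧ (∀ᶠ j in atTop, |M1 j - M1' j| ≤ ε * c) ∧
      ∀ᶠ j in atTop, |M2 j - M2' j| ≤ ε * c) :
    Tendsto (fun j => t1 j * t2' j - t1' j * t2 j) atTop (𝓝 0) := by
  have hT : 0 ≤ T := by
    obtain ⟨j, hj⟩ := ht1.exists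
    exact (abs_nonneg _).trans hj
  rw [Metric.tendsto_nhds]
  intro δ hδ
  obtain ⟨ε, hε⟩ : ∃ ε : ℝ, ε = min 1 (δ / (8 * T + 8)) := ⟨_, rfl⟩
  have hε0 : 0 < ε := by
    rw [hε]
    exact lt_min one_pos (by positivity)
  have hε1 : ε ≤ 1 := by
    rw [hε]
    exact min_le_left _ _
  have hε2 : ε * (8 * T + 8) ≤ δ := by
    rw [← le_div_iff₀ (by positivity), hε]
    exact min_le_right _ _
  obtain ⟨c, β, β', M1, M2, M1', M2', hc, h1, h2, h3, h4, h5, h6, h7, h8⟩ := H ε hε0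
  filter_upwards [ht1, ht2, ht1', ht2', h1, h2, h3, h4, h5, h6, h7, h8] with j a1 a2 a3 a4 b1 b2 b3 b4 b5 b6 b7 b8
  have h9 := cross_one hc b1 b2 hε0.le (by positivity : 0 ≤ ε * c) a1 a2 a3 a4 b3 b4 b5 b6 b7 b8
  rw [Real.dist_eq, sub_zero]
  have e : 2 * (ε * c) * (T + ε) / c = 2 * ε * (T + ε) := by
    field_simp
  rw [e] at h9
  nlinarith

/-- **the end** -/
theorem kap_end {E : Type*} [TopologicalSpace E] [MeasurableSpace E] [BorelSpace E] [HasOuterApproxClosed E]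
    {μ μ' : Measure E} [IsProbabilityMeasure μ] [IsProbabilityMeasure μ'] {ι : Type*} [Countable ι] {K : ι → Set E}
    (hμ : ∀ᵐ x ∂μ, x ∈ ⋃ i, K i) (hμ' : ∀ᵐ x ∂μ', x ∈ ⋃ i, K i)
    (h : ∀ (i i' : ι) (G : BoundedContinuousFunction E ℝ),
      (∫ x in K i, G x ∂μ) * μ'.real (K i') = (∫ x in K i, G x ∂μ') * μ.real (K i')) : μ = μ' := by
  obtain ⟨i0, hi0⟩ : ∃ i, μ (K i) ≠ 0 := by
    by_contra hcon
    push Not at hcon
    have h1 : μ (⋃ i, K i) = 0 := measure_iUnion_null hcon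
    have h2 : μ (⋃ i, K i) = 1 := by
      rw [← measure_univ (μ := μ)]
      exact measure_congr (eventuallyEq_univ.2 hμ)
    rw [h1] at h2
    exact zero_ne_one h2
  have hp : 0 < μ.real (K i0) := ENNReal.toReal_pos hi0 (measure_ne_top _ _)
  obtain ⟨κ, hκ⟩ : ∃ κ : NNReal, κ = ⟨μ'.real (K i0) / μ.real (K i0), by positivity⟩ := ⟨_, rfl⟩
  have hκ' : (κ : ℝ) * μ.real (K i0) = μ'.real (K i0) := by
    rw [hκ]
    show μ'.real (K i0) / μ.real (K i0) * μ.real (K i0) = μ'.real (K i0)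
    field_simp
  have h1 : ∀ i, μ'.restrict (K i) = (κ • μ).restrict (K i) := by
    intro i
    rw [Measure.restrict_smul]
    refine ext_of_forall_integral_eq_of_IsFiniteMeasure fun G => ?_
    rw [integral_smul_nnreal_measure]
    have h2 := h i i0 G
    show (∫ x in K i, G x ∂μ') = (κ : ℝ) * ∫ x in K i, G x ∂μ
    have h3 : (∫ x in K i, G x ∂μ') * μ.real (K i0) = (κ : ℝ) * (∫ x in K i, G x ∂μ) * μ.real (K i0) := by
      rw [← h2, ← hκ']
      ring
    exact mul_right_cancel₀ hp.ne' h3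
  have h2 := Measure.restrict_iUnion_congr.2 h1
  rw [Measure.restrict_eq_self_of_ae_mem hμ', Measure.restrict_smul, Measure.restrict_eq_self_of_ae_mem hμ] at h2
  have h3 : (κ : ENNReal) = 1 := by
    have h4 : μ' Set.univ = (κ • μ) Set.univ := by rw [← h2]
    rw [measure_univ, Measure.smul_apply, measure_univ] at h4
    rw [ENNReal.smul_def, smul_eq_mul, mul_one] at h4
    exact h4.symm
  have h5 : κ = 1 := by exact_mod_cast h3
  rw [h2, h5, one_smul]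

end Pool.Agent.SCF
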