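import Pool.Agent.PMA.LongBr
import Pool.Agent.PHW.IterQ
import Pool.Agent.TIP.Free

/-!
# ScaleFlow, row (P) (helper94, literal of helper11): first passage bridges with a prescribed number of letters

* `fp_one`: tight first passages (from `longBr`);
* `fp_iter`: `n` of them;
* **`longB`**: first passages over the height `m` in a small box whose number of letters is `b` up to `e * ml k`, with a mass
  bounded from below; `b` can be any multiple of `ml k`.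
-/

set_option autoImplicit false

namespace HexObs

namespace SCF

open Finset TIW TS SDN NTA TIP ARM AR ARM.NB PMA

open scoped ENNReal

/-- row (P) of ScaleFlow -/
def LongB : Prop := ∀ ρ : ℝ, 0 < ρ → ρ ≤ 1 → ∃ R0 : ℝ, 0 < R0 ∧ ∀ η e A : ℝ, 0 < η → 0 < e → 0 < A →
  ∃ (c : ℝ) (k0 : ℕ), 0 < c ∧ ∀ k b m : ℕ, k0 ≤ k → (b : ℝ) ≤ A * ml k → η * 2 ^ k ≤ m → (m : ℝ) ≤ R0 * 2 ^ k →
    ENNReal.ofReal c ≤ gf {W | W ∈ TIP.FP m ∧ b ≤ W.length ∧ (W.length : ℝ) ≤ b + e * ml k ∧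
      ∀ i, i ≤ W.length → (hn (vx oo up W i) : ℝ) ≤ ρ * 2 ^ k}

/-- box of a concatenation -/
lemma box_app {X Y : List Bool} (hX : X ∈ BU) {B1 B2 : ℝ} (h1 : ∀ i, i ≤ X.length → (hn (vx oo up X i) : ℝ) ≤ B1)
    (h2 : ∀ i, i ≤ Y.length → (hn (vx oo up Y i) : ℝ) ≤ B2) (h0 : 0 ≤ B2) :
    ∀ i, i ≤ (X ++ Y).length → (hn (vx oo up (X ++ Y) i) : ℝ) ≤ B1 + B2 := by
  intro i hi
  rw [List.length_append] at hi
  rcases Nat.le_total i X.length with h3 | h3
  · rw [vx_append (by omega)]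
    have := h1 i h3
    linarith
  · obtain ⟨j, rfl⟩ : ∃ j, i = X.length + j := ⟨i - X.length, by omega⟩
    rw [vx_cat (FreeA.dx_BU hX)]
    have h4 : (hn (vx oo up X X.length + vx oo up Y j) : ℝ) ≤ (hn (vx oo up X X.length) : ℝ) + hn (vx oo up Y j) := by
      exact_mod_cast hn_add _ _
    have h5 := h1 X.length le_rfl
    have h6 := h2 j (by omega)
    linarith

/-- a bridge in a box is low -/
lemma hgt_box {X : List Bool} (hX : X ∈ BU) {B : ℕ} (h : hn (vx oo up X X.length) ≤ B) : hgt X ≤ B := by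
  have h1 := FreeA.lev_BU hX
  have h2 : lev X X.length ≤ hn (vx oo up X X.length) := ip_le_hn _ upd'
  omega

/-- a first passage over a lower height, continued -/
lemma FP_app2 {m1 m : ℕ} {X V : List Bool} (hX : X ∈ TIP.FP m1) (hm : m1 ≤ m) (hV : V ∈ TIP.FP (m - hgt X)) :
    X ++ V ∈ TIP.FP m := by
  rcases Nat.le_total (hgt X) m with h | h
  · exact FP_app hX.1 h hV
  · have h0 : m - hgt X = 0 := by omega
    rw [h0] at hV
    have hVn : V = [] := by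
      by_contra hne
      have := hV.2.2 [] V FPA.nil_BU hV.1 rfl hne
      omega
    subst hVn
    rw [List.append_nil]
    refine ⟨hX.1, h, fun A B hA hB he hne => ?_⟩
    have := hX.2.2 A B hA hB he hne
    omega

lemma ac_FP (m : ℕ) : AC (TIP.FP m) := by
  intro W hW X hX Y hY he
  by_contra hne
  have := hW.2.2 X Y hX.1 hY he hne
  have := hX.2.1
  omega

lemma ac_mono {S T : Set (List Bool)} (h : S ⊆ T) (hT : AC T) : AC S := fun W hW X hX Y hY he => hT W (h hW) X (h hX) Y hY he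

/-- tight first passages -/
def FT (m : ℕ) (l B : ℝ) : Set (List Bool) := {W | W ∈ TIP.FP m ∧ (W.length : ℝ) ≤ l ∧
  ∀ i, i ≤ W.length → (hn (vx oo up W i) : ℝ) ≤ B}

/-- **tight first passages over a height small with respect to the scale** -/
theorem fp_one : ∃ (c : ℝ) (s k0 : ℕ), 0 < c ∧ s ≤ k0 ∧ ∀ k m : ℕ, k0 ≤ k → m ≤ 2 ^ (k - s) →
    ENNReal.ofReal c ≤ gf (FT m (4 * ml k) (2 ^ k)) := by
  obtain ⟨c, k0, hc, h⟩ := longBr 2 (by norm_num)
  have hC := CW_pos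
  have hθ : 0 < 1 / (6 + CW) := by positivity
  obtain ⟨s, hs⟩ : ∃ s : ℕ, 4 / c ≤ ((2 : ℝ) ^ s) ^ (1 / (6 + CW)) := by
    have h1 : Filter.Tendsto (fun n : ℕ => ((2 : ℝ) ^ n) ^ (1 / (6 + CW))) Filter.atTop Filter.atTop :=
      (tendsto_rpow_atTop hθ).comp (tendsto_pow_atTop_atTop_of_one_lt (by norm_num))
    exact (h1.eventually_ge_atTop _).exists
  refine ⟨c / 2, s, max k0 s, by positivity, le_max_right _ _, fun k m hk hm => ?_⟩
  have hk1 := (le_max_left _ _).trans hk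
  have hk2 := (le_max_right _ _).trans hk
  have hml := ml_ge k
  have h2k : (1 : ℝ) ≤ 2 ^ k := one_le_pow₀ (by norm_num)
  obtain ⟨L, hL⟩ : ∃ L : ℕ, L = ⌈ml k⌉₊ := ⟨_, rfl⟩
  have hL1 : ml k ≤ L := by
    rw [hL]
    exact Nat.le_ceil _
  have hL2 : (L : ℝ) ≤ ml k + 1 := by
    rw [hL]
    exact (Nat.ceil_lt_add_one (ml_pos k).le).le
  have h3 := h k L hk1 hL1 (by linarith)
  obtain ⟨S, hS⟩ : ∃ S : Set (List Bool), S = {Z | Z ∈ BU ∧ (∀ i, i ≤ Z.length → hn (vx oo up Z i) ≤ 2 ^ k) ∧ L ≤ Z.length ∧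
      (Z.length : ℝ) ≤ L + ml k} := ⟨_, rfl⟩
  rw [← hS] at h3
  have hUk := Ub_pos k
  -- the low ones
  have hlow : gf {V | V ∈ BU ∧ hgt V ≤ 2 ^ (k - s)} ≤ ENNReal.ofReal (c / 2 * Ub k) := by
    refine (gf_low _).trans (ENNReal.ofReal_le_ofReal ?_)
    have h4 := IterQ.UU_down hk2
    have h5 : UU (2 ^ (k - s)) * (4 / c) ≤ 2 * UU (2 ^ k) :=
      le_trans (mul_le_mul_of_nonneg_left hs (Num2Aux.UU_pos _).le) h4
    have h6 : UU (2 ^ (k - s)) * 4 ≤ 2 * UU (2 ^ k) * c := by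
      rw [mul_div_assoc', div_le_iff₀ hc] at h5
      exact h5
    show UU (2 ^ (k - s)) ≤ c / 2 * UU (2 ^ k)
    linarith
  have hsub : S ⊆ {V | V ∈ BU ∧ hgt V ≤ 2 ^ (k - s)} ∪ {Z | Z ∈ S ∧ m ≤ hgt Z} := by
    intro Z hZ
    rcases Nat.le_total (hgt Z) (2 ^ (k - s)) with h5 | h5
    · left
      rw [hS] at hZ
      exact ⟨hZ.1, h5⟩
    · right
      exact ⟨hZ, hm.trans h5⟩
  have hhi : ENNReal.ofReal (c / 2 * Ub k) ≤ gf {Z | Z ∈ S ∧ m ≤ hgt Z} := by
    have h5 : ENNReal.ofReal (c / 2 * Ub k) + ENNReal.ofReal (c / 2 * Ub k) ≤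
        ENNReal.ofReal (c / 2 * Ub k) + gf {Z | Z ∈ S ∧ m ≤ hgt Z} := by
      rw [← ENNReal.ofReal_add (by positivity) (by positivity)]
      have e1 : c / 2 * Ub k + c / 2 * Ub k = c * Ub k := by ring
      rw [e1]
      refine h3.trans ((gf_mono hsub).trans ((gf_union_le _ _).trans ?_))
      gcongr
    exact (ENNReal.add_le_add_iff_left ENNReal.ofReal_ne_top).1 h5
  have hdec : gf {Z | Z ∈ S ∧ m ≤ hgt Z} ≤ gf (FT m (4 * ml k) (2 ^ k)) * ENNReal.ofReal (Ub k) := by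
    refine le_trans ?_ (mul_le_mul' le_rfl (gf_low (2 ^ k)))
    refine gf_le_mul fun Z hZ => ?_
    obtain ⟨hZS, hZm⟩ := hZ
    rw [hS] at hZS
    obtain ⟨z1, z2, z3, z4⟩ := hZS
    obtain ⟨W, hW, Y, hY, he⟩ := fpDec m Z z1 hZm
    have hlen : Z.length = W.length + Y.length := by rw [he, List.length_append]
    have hZh : hgt Z ≤ 2 ^ k := hgt_box z1 (by push_cast; exact z2 _ le_rfl)
    refine ⟨W, ⟨hW, ?_, fun i hi => ?_⟩, Y, ⟨hY, ?_⟩, he⟩
    · have : (Z.length : ℝ) = W.length + Y.length := by exact_mod_cast hlen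
      have : (0 : ℝ) ≤ Y.length := Nat.cast_nonneg _
      linarith
    · have h6 := z2 i (by omega)
      rw [he, vx_append (by omega)] at h6
      exact_mod_cast h6
    · rw [he, FPA.hgt_app hW.1 hY] at hZh
      omega
  have hfin := hhi.trans hdec
  rw [ENNReal.ofReal_mul (by positivity)] at hfin
  exact (ENNReal.mul_le_mul_iff_left (by simpa using hUk) ENNReal.ofReal_ne_top).1 hfin

/-- **iteration** -/
theorem fp_iter {c l B : ℝ} {m0 : ℕ} (hc : 0 ≤ c) (hB : 0 ≤ B)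
    (h : ∀ m, m ≤ m0 → ENNReal.ofReal c ≤ gf (FT m l B)) :
    ∀ n m : ℕ, m ≤ n * m0 → ENNReal.ofReal (c ^ n) ≤ gf (FT m (n * l) (n * B)) := by
  intro n
  induction n with
  | zero =>
    intro m hm
    have h0 : m = 0 := by omega
    subst h0
    have h1 : ({[]} : Set (List Bool)) ⊆ FT 0 ((0 : ℕ) * l) ((0 : ℕ) * B) := by
      intro W hW
      rw [Set.mem_singleton_iff] at hW
      subst hW
      refine ⟨⟨FPA.nil_BU, Nat.zero_le _, fun X Y _ _ he hne => absurd (List.append_eq_nil_iff.1 he.symm).2 hne⟩, by simp,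
        fun i hi => ?_⟩
      have hi0 : i = 0 := by simpa using hi
      subst hi0
      have : hn (vx oo up [] 0) = 0 := by decide
      rw [this]
      simp
    refine le_trans ?_ (gf_mono h1)
    unfold gf
    rw [tsum_singleton (f := wE) []]
    simp [wE]
  | succ n ih =>
    intro m hm
    obtain ⟨m1, hm1⟩ : ∃ m1, m1 = min m m0 := ⟨_, rfl⟩
    have h1 : m1 ≤ m0 := by omega
    have h2 : m1 ≤ m := by omega
    have h3 := acMul (FT m1 l B) (fun X => FT (m - hgt X) (n * l) (n * B)) (ENNReal.ofReal (c ^ n)) (fun X hX => hX.1.1)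
      (ac_mono (fun X hX => hX.1) (ac_FP m1)) (fun X _ W hW => hW.1.1) (fun X hX => ih _ (by
        have h4 := hX.1.2.1
        have h5 : (n + 1) * m0 = n * m0 + m0 := by ring
        rcases Nat.le_total m m0 with h6 | h6
        · have : m1 = m := by omega
          omega
        · have : m1 = m0 := by omega
          omega))
    have e1 : ENNReal.ofReal (c ^ (n + 1)) = ENNReal.ofReal c * ENNReal.ofReal (c ^ n) := by
      rw [pow_succ', ENNReal.ofReal_mul hc]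
    rw [e1]
    refine (mul_le_mul' (h m1 h1) le_rfl).trans (h3.trans (gf_mono ?_))
    rintro W ⟨X, hX, Y, hY, rfl⟩
    refine ⟨FP_app2 hX.1 h2 hY.1, ?_, ?_⟩
    · rw [List.length_append]
      push_cast
      have := hX.2.1
      have := hY.2.1
      linarith
    · have h4 := box_app hX.1.1 hX.2.2 hY.2.2 (by positivity)
      intro i hi
      have h5 := h4 i hi
      push_cast
      linarith

/-- **row (P) of ScaleFlow** -/
theorem longB : LongB := by
  intro ρ hρ hρ1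
  obtain ⟨c1, s, k1, hc1, hsk, h1⟩ := fp_one
  refine ⟨ρ / 4 / 2 ^ s, by positivity, fun η e A hη he hA => ?_⟩
  -- the scale of the short pieces
  obtain ⟨u, hu⟩ : ∃ u : ℕ, 32 / e + 4 / ρ + 1 ≤ (2 : ℝ) ^ u := by
    obtain ⟨u, hu⟩ := exists_nat_ge (32 / e + 4 / ρ + 1)
    refine ⟨u, hu.trans ?_⟩
    have : u ≤ 2 ^ u := Nat.lt_two_pow_self.le
    exact_mod_cast this
  -- the scale of the long piece
  obtain ⟨v, hv⟩ : ∃ v : ℕ, 8 / e + 4 / ρ + 2 / η + 1 ≤ (2 : ℝ) ^ v := by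
    obtain ⟨v, hv⟩ := exists_nat_ge (8 / e + 4 / ρ + 2 / η + 1)
    refine ⟨v, hv.trans ?_⟩
    have : v ≤ 2 ^ v := Nat.lt_two_pow_self.le
    exact_mod_cast this
  obtain ⟨c2, k2, hc2, h2⟩ := longBr (A * (2 ^ v) ^ 4 + 2) (by
    have : 0 < A * (2 ^ v) ^ 4 := by positivity
    linarith)
  obtain ⟨n, hn'⟩ : ∃ n : ℕ, n = ⌈ρ / 4 * 2 ^ (3 * u)⌉₊ := ⟨_, rfl⟩
  have hn1 : ρ / 4 * 2 ^ (3 * u) ≤ n := by
    rw [hn']
    exact Nat.le_ceil _
  have hn2 : (n : ℝ) ≤ ρ / 4 * 2 ^ (3 * u) + 1 := by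
    rw [hn']
    exact (Nat.ceil_lt_add_one (by positivity)).le
  refine ⟨c2 * c1 ^ n, max (k1 + 3 * u) (k2 + 3 * v), by positivity, fun k b m hk hb hm1 hm2 => ?_⟩
  have hka := (le_max_left _ _).trans hk
  have hkb := (le_max_right _ _).trans hk
  have h2u : (0 : ℝ) < 2 ^ u := by positivity
  have h2v : (0 : ℝ) < 2 ^ v := by positivity
  have u1 : 1 ≤ (2 : ℝ) ^ u := one_le_pow₀ (by norm_num)
  have v1 : 1 ≤ (2 : ℝ) ^ v := one_le_pow₀ (by norm_num)
  have hX1 : (0 : ℝ) < 32 / e := by positivity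
  have hX2 : (0 : ℝ) < 4 / ρ := by positivity
  have hX3 : (0 : ℝ) < 8 / e := by positivity
  have hX4 : (0 : ℝ) < 2 / η := by positivity
  have ue : 32 ≤ e * 2 ^ u := by
    have : 32 / e ≤ (2 : ℝ) ^ u := by linarith
    rw [div_le_iff₀ he] at this
    linarith
  have uρ : 4 ≤ ρ * 2 ^ u := by
    have : 4 / ρ ≤ (2 : ℝ) ^ u := by linarith
    rw [div_le_iff₀ hρ] at this
    linarith
  have ve : 8 ≤ e * 2 ^ v := by
    have : 8 / e ≤ (2 : ℝ) ^ v := by linarith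
    rw [div_le_iff₀ he] at this
    linarith
  have vρ : 4 ≤ ρ * 2 ^ v := by
    have : 4 / ρ ≤ (2 : ℝ) ^ v := by linarith
    rw [div_le_iff₀ hρ] at this
    linarith
  have vη : 2 ≤ η * 2 ^ v := by
    have : 2 / η ≤ (2 : ℝ) ^ v := by linarith
    rw [div_le_iff₀ hη] at this
    linarith
  have u3 : (2 : ℝ) ^ (3 * u) = 2 ^ u * 2 ^ u * 2 ^ u := by ring
  have v3 : (2 : ℝ) ^ (3 * v) = 2 ^ v * 2 ^ v * 2 ^ v := by ring
  have u3' : (2 : ℝ) ^ u ≤ 2 ^ (3 * u) := pow_le_pow_right₀ (by norm_num) (by omega)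
  have v3' : (2 : ℝ) ^ v ≤ 2 ^ (3 * v) := pow_le_pow_right₀ (by norm_num) (by omega)
  -- the short pieces
  have hshort : ∀ m', m' ≤ m → ENNReal.ofReal (c1 ^ n) ≤ gf (FT m' (e / 4 * ml k) (ρ / 2 * 2 ^ k)) := by
    intro m' hm'
    obtain ⟨l, rfl⟩ : ∃ l, k = l + 3 * u := ⟨k - 3 * u, by omega⟩
    have hmk : ml (l + 3 * u) = ml l * (2 ^ u) ^ 4 := ARM.NB.ml_add l u
    have hmlp := ml_pos l
    have h2l : (0 : ℝ) < 2 ^ l := by positivity
    have h3 := fp_iter (c := c1) (l := 4 * ml l) (B := 2 ^ l) (m0 := 2 ^ (l - s)) hc1.le (by positivity)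
      (fun m hm => h1 l m (by omega) hm) n m' (by
        have g1 : (m' : ℝ) ≤ n * 2 ^ (l - s) := by
          have g2 : (m' : ℝ) ≤ m := by exact_mod_cast hm'
          have g3 : (2 : ℝ) ^ l = 2 ^ (l - s) * 2 ^ s := by
            rw [← pow_add]
            congr 1
            omega
          have g4 : ρ / 4 / 2 ^ s * 2 ^ (l + 3 * u) = ρ / 4 * 2 ^ (3 * u) * 2 ^ (l - s) := by
            rw [pow_add, g3]
            field_simp
          have g5 : ρ / 4 * 2 ^ (3 * u) * 2 ^ (l - s) ≤ n * 2 ^ (l - s) :=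
            mul_le_mul_of_nonneg_right hn1 (by positivity)
          linarith
        exact_mod_cast g1)
    refine h3.trans (gf_mono ?_)
    rintro W ⟨w1, w2, w3⟩
    refine ⟨w1, w2.trans ?_, fun i hi => (w3 i hi).trans ?_⟩
    · rw [hmk]
      have g1 : (n : ℝ) ≤ 2 * 2 ^ (3 * u) := by
        have : (1 : ℝ) ≤ 2 ^ (3 * u) := one_le_pow₀ (by norm_num)
        have : ρ / 4 * 2 ^ (3 * u) ≤ 1 * 2 ^ (3 * u) := mul_le_mul_of_nonneg_right (by linarith) (by positivity)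
        linarith
      have g2 : (n : ℝ) * (4 * ml l) ≤ 2 * 2 ^ (3 * u) * (4 * ml l) := mul_le_mul_of_nonneg_right g1 (by positivity)
      have g3 : e / 4 * (ml l * (2 ^ u) ^ 4) = (e * 2 ^ u) / 4 * (2 ^ (3 * u) * ml l) := by
        rw [u3]
        ring
      have g4 : 32 / 4 * (2 ^ (3 * u) * ml l) ≤ (e * 2 ^ u) / 4 * (2 ^ (3 * u) * ml l) :=
        mul_le_mul_of_nonneg_right (by linarith) (by positivity)
      rw [g3]
      linarith
    · rw [pow_add]
      have g1 : (n : ℝ) ≤ ρ / 2 * 2 ^ (3 * u) := by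
        have : ρ * 2 ^ u ≤ ρ * 2 ^ (3 * u) := mul_le_mul_of_nonneg_left u3' hρ.le
        linarith
      have g2 := mul_le_mul_of_nonneg_right g1 h2l.le
      linarith
  -- the long piece
  have hlong : ∃ S : Set (List Bool), S ⊆ BU ∧ AC S ∧ ENNReal.ofReal c2 ≤ gf S ∧ ∀ X ∈ S, hgt X ≤ m ∧ b ≤ X.length ∧
      (X.length : ℝ) ≤ b + 3 * e / 8 * ml k ∧ ∀ i, i ≤ X.length → (hn (vx oo up X i) : ℝ) ≤ ρ / 4 * 2 ^ k := by
    obtain ⟨l, rfl⟩ : ∃ l, k = l + 3 * v := ⟨k - 3 * v, by omega⟩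
    have hmk : ml (l + 3 * v) = ml l * (2 ^ v) ^ 4 := ARM.NB.ml_add l v
    have hmlp := ml_pos l
    have hml1 : 1 ≤ ml l := (one_le_pow₀ (by norm_num)).trans (ml_ge l)
    obtain ⟨L, hL⟩ : ∃ L : ℕ, L = max b ⌈ml l⌉₊ := ⟨_, rfl⟩
    have hL0 : b ≤ L := by
      rw [hL]
      exact le_max_left _ _
    have hL1 : ml l ≤ L := by
      have : ⌈ml l⌉₊ ≤ L := by
        rw [hL]
        exact le_max_right _ _
      exact (Nat.le_ceil _).trans (by exact_mod_cast this)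
    have hL2 : (L : ℝ) ≤ b + (ml l + 1) := by
      have g1 : L ≤ b + ⌈ml l⌉₊ := by omega
      have g2 : (L : ℝ) ≤ b + (⌈ml l⌉₊ : ℝ) := by exact_mod_cast g1
      have g3 := (Nat.ceil_lt_add_one hmlp.le).le
      linarith
    have hL3 : (L : ℝ) ≤ (A * (2 ^ v) ^ 4 + 2) * ml l := by
      rw [hmk] at hb
      linarith
    have h3 := h2 l L (by omega) hL1 hL3
    obtain ⟨S, hS⟩ : ∃ S : Set (List Bool), S = {Z | Z ∈ BU ∧ (∀ i, i ≤ Z.length → hn (vx oo up Z i) ≤ 2 ^ l) ∧ L ≤ Z.length ∧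
      (Z.length : ℝ) ≤ L + ml l} := ⟨_, rfl⟩
    rw [← hS] at h3
    have hSB : S ⊆ BU := by
      rw [hS]
      exact fun Z hZ => hZ.1
    have hSh : ∀ Z ∈ S, hgt Z ≤ 2 ^ l := by
      intro Z hZ
      rw [hS] at hZ
      exact hgt_box hZ.1 (by push_cast; exact hZ.2.1 _ le_rfl)
    have h4 := miMass (2 ^ l) S hSB hSh
    have h5 : ENNReal.ofReal c2 ≤ gf (Mi S) := by
      have h6 := h3.trans h4
      rw [ENNReal.ofReal_mul hc2.le] at h6
      have hUk := Ub_pos l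
      exact (ENNReal.mul_le_mul_iff_left (by simpa using hUk) ENNReal.ofReal_ne_top).1 h6
    refine ⟨Mi S, (Mi_sub S).trans hSB, acMi S, h5, fun X hX => ?_⟩
    have hXS := Mi_sub S hX
    have g0 := hSh X hXS
    rw [hS] at hXS
    obtain ⟨g1, g2, g3, g4⟩ := hXS
    refine ⟨?_, hL0.trans g3, ?_, fun i hi => ?_⟩
    · have g5 : (hgt X : ℝ) ≤ 2 ^ l := by exact_mod_cast g0
      have g6 : η * 2 ^ (l + 3 * v) = (η * 2 ^ (3 * v)) * 2 ^ l := by
        rw [pow_add]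
        ring
      have g7 : 2 ≤ η * 2 ^ (3 * v) := by
        have := mul_le_mul_of_nonneg_left v3' hη.le
        linarith
      have g8 : 2 * (2 : ℝ) ^ l ≤ (η * 2 ^ (3 * v)) * 2 ^ l := mul_le_mul_of_nonneg_right g7 (by positivity)
      have g9 : (0 : ℝ) < 2 ^ l := by positivity
      have : (hgt X : ℝ) ≤ m := by linarith
      exact_mod_cast this
    · rw [hmk]
      have g5 : (1 : ℝ) ≤ (2 ^ v) ^ 3 := one_le_pow₀ v1
      have g6 : 3 * e / 8 * (ml l * (2 ^ v) ^ 4) = 3 / 8 * (e * 2 ^ v) * (2 ^ v) ^ 3 * ml l := by ring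
      have g7 : 3 * ml l ≤ 3 / 8 * (e * 2 ^ v) * (2 ^ v) ^ 3 * ml l := by
        refine mul_le_mul_of_nonneg_right ?_ hmlp.le
        nlinarith
      rw [g6]
      linarith
    · have g5 : (hn (vx oo up X i) : ℝ) ≤ 2 ^ l := by exact_mod_cast g2 i hi
      have g6 : ρ / 4 * 2 ^ (l + 3 * v) = (ρ * 2 ^ (3 * v)) / 4 * 2 ^ l := by
        rw [pow_add]
        ring
      have g7 : 4 ≤ ρ * 2 ^ (3 * v) := by
        have := mul_le_mul_of_nonneg_left v3' hρ.le
        linarith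
      have g8 : 4 / 4 * (2 : ℝ) ^ l ≤ (ρ * 2 ^ (3 * v)) / 4 * 2 ^ l := mul_le_mul_of_nonneg_right (by linarith) (by positivity)
      rw [g6]
      linarith
  obtain ⟨S, s1, s2, s3, s4⟩ := hlong
  have h3 := acMul S (fun X => FT (m - hgt X) (e / 4 * ml k) (ρ / 2 * 2 ^ k)) (ENNReal.ofReal (c1 ^ n)) s1 s2
    (fun X _ W hW => hW.1.1) (fun X _ => hshort _ (Nat.sub_le _ _))
  have hml := ml_pos k
  rw [ENNReal.ofReal_mul hc2.le]
  refine (mul_le_mul' s3 le_rfl).trans (h3.trans (gf_mono ?_))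
  rintro W ⟨X, hX, Y, hY, rfl⟩
  obtain ⟨x1, x2, x3, x4⟩ := s4 X hX
  obtain ⟨y1, y2, y3⟩ := hY
  refine ⟨FP_app (s1 hX) x1 y1, ?_, ?_, fun i hi => ?_⟩
  · rw [List.length_append]
    omega
  · rw [List.length_append]
    push_cast
    have : 0 < e * ml k := by positivity
    linarith
  · have h4 := box_app (s1 hX) x4 y3 (by positivity) i hi
    have : 0 < ρ * 2 ^ k := by positivity
    linarith

end SCF

end HexObs
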