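import Pool.Agent.SCF.LongB
import Pool.Agent.HexLim.Tube
import Pool.Agent.PHW.Mirror
import Pool.Agent.PHW.Kill

/-!
# ScaleFlow, row (P), strong form (helper94): narrow first passages

The steps are steered (mirror symmetry), so the first passage over the height `m` stays in a box of radius comparable to `m`:
**`longC`** is `LongB` with the explicit condition `4 * m ≤ ρ * 2 ^ k`.
-/

set_option autoImplicit false

namespace HexObs

namespace SCF

open Finset TIW TS SDN NTA TIP ARM AR ARM.NB PMA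

open scoped ENNReal

/-- `hn` from the level and the lateral coordinate -/
lemma hn_lev_lat (W : List Bool) (i : ℕ) : hn (vx oo up W i) ≤ |lev W i| + 2 * |lat W i| := by
  obtain ⟨p, hp⟩ : ∃ p : Pt, p = vx oo up W i := ⟨_, rfl⟩
  have e1 : lev W i = ip p up := by rw [hp]; rfl
  have e2 : lat W i = -(cross up p) := by rw [hp]; rfl
  rw [e1, e2, ← hp]
  clear e1 e2 hp
  obtain ⟨x, y⟩ := p
  have h1 : ip ((x, y) : Pt) up = x + 2 * y := by
    simp only [ip, up]
    ring
  have h2 : -(cross up ((x, y) : Pt)) = x := by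
    simp only [cross, up]
    ring
  rw [h1, h2]
  have b1 := le_abs_self (x + 2 * y)
  have b2 := neg_abs_le (x + 2 * y)
  have b3 := le_abs_self x
  have b4 := neg_abs_le x
  refine hn_le fun d hd => ?_
  rcases dir_cases upd' hd with rfl | rfl | rfl | rfl | rfl | rfl
  · simp only [ip, up]; linarith
  · rw [ip_neg_right]; simp only [ip, up]; linarith
  · simp only [ip, rotL, up]; linarith
  · rw [ip_neg_right]; simp only [ip, rotL, up]; linarith
  · simp only [ip, rotR, up]; linarith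
  · rw [ip_neg_right]; simp only [ip, rotR, up]; linarith

lemma lat_le_hn (W : List Bool) (i : ℕ) : |lat W i| ≤ hn (vx oo up W i) := by
  obtain ⟨p, hp⟩ : ∃ p : Pt, p = vx oo up W i := ⟨_, rfl⟩
  have e2 : lat W i = -(cross up p) := by rw [hp]; rfl
  rw [e2, ← hp]
  clear e2 hp
  obtain ⟨x, y⟩ := p
  have h2 : -(cross up ((x, y) : Pt)) = x := by
    simp only [cross, up]
    ring
  rw [h2]
  have a1 := ip_le_hn ((x, y) : Pt) (d := up) (by decide)
  have a2 := ip_le_hn ((x, y) : Pt) (d := -up) (by decide)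
  have a3 := ip_le_hn ((x, y) : Pt) (d := rotR up) (by decide)
  have a4 := ip_le_hn ((x, y) : Pt) (d := -(rotR up)) (by decide)
  have a5 := ip_le_hn ((x, y) : Pt) (d := rotL up) (by decide)
  have a6 := ip_le_hn ((x, y) : Pt) (d := -(rotL up)) (by decide)
  rw [ip_neg_right] at a2 a4 a6
  simp only [ip, up, rotR, rotL] at a1 a2 a3 a4 a5 a6
  rw [abs_le]
  constructor <;> linarith

/-- mirror image of a first passage -/
lemma FP_not {m : ℕ} {W : List Bool} (h : W ∈ TIP.FP m) : W.map not ∈ TIP.FP m := by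
  obtain ⟨h1, h2, h3⟩ := h
  have e1 := Brd_not (FreeA.Brd_hgt h1)
  refine ⟨⟨_, e1⟩, by rw [hgt_eq e1]; exact h2, fun X Y hX hY he hne => ?_⟩
  have a1 := Brd_not (FreeA.Brd_hgt hX)
  have a2 := Brd_not (FreeA.Brd_hgt hY)
  have he' : W = X.map not ++ Y.map not := by
    rw [← List.map_append, ← he, map_not_not]
  have h4 := h3 _ _ ⟨_, a1⟩ ⟨_, a2⟩ he' (fun h => hne (by
    have := congrArg List.length h
    rw [List.length_map] at this
    exact List.length_eq_zero_iff.1 this))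
  rwa [hgt_eq a1] at h4

/-- tight first passages, in coordinates; the lateral coordinate of the end has the sign `b` -/
def FS (b : Bool) (m : ℕ) (l B : ℝ) : Set (List Bool) := {W | W ∈ TIP.FP m ∧ (W.length : ℝ) ≤ l ∧
  (∀ i, i ≤ W.length → (lev W i : ℝ) ≤ B ∧ |(lat W i : ℝ)| ≤ B) ∧ if b then 0 ≤ latE W else latE W ≤ 0}

lemma fs_of {m : ℕ} {l B c : ℝ} (hc : 0 ≤ c) (h : ENNReal.ofReal c ≤ gf (FT m l B)) (b : Bool) :
    ENNReal.ofReal (c / 2) ≤ gf (FS b m l B) := by
  have hsub : FT m l B ⊆ FS true m l B ∪ FS false m l B := by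
    rintro W ⟨h1, h2, h3⟩
    have h4 : ∀ i, i ≤ W.length → (lev W i : ℝ) ≤ B ∧ |(lat W i : ℝ)| ≤ B := by
      intro i hi
      have a1 : lev W i ≤ hn (vx oo up W i) := ip_le_hn _ upd'
      have a2 := lat_le_hn W i
      have a3 := h3 i hi
      have a4 : (lev W i : ℝ) ≤ (hn (vx oo up W i) : ℝ) := by exact_mod_cast a1
      have a5 : |(lat W i : ℝ)| ≤ (hn (vx oo up W i) : ℝ) := by exact_mod_cast a2
      exact ⟨a4.trans a3, a5.trans a3⟩
    rcases le_total 0 (latE W) with h5 | h5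
    · exact Or.inl ⟨h1, h2, h4, h5⟩
    · exact Or.inr ⟨h1, h2, h4, h5⟩
  have hmir : ∀ b : Bool, gf (FS b m l B) = gf (FS (!b) m l B) := by
    intro b
    have e1 : FS (!b) m l B = Ex.mir (FS b m l B) := by
      have key : ∀ (b : Bool) (W : List Bool), W ∈ FS b m l B → W.map not ∈ FS (!b) m l B := by
        rintro b W ⟨h1, h2, h3, h4⟩
        refine ⟨FP_not h1, by rwa [List.length_map], fun i hi => ?_, ?_⟩
        · rw [List.length_map] at hi
          rw [lev_not W (by omega), lat_not W (by omega)]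
          push_cast
          rw [abs_neg]
          exact h3 i hi
        · rw [latE_not]
          cases b
          · simp only [Bool.not_false, if_true]
            simp only [Bool.false_eq_true, if_false] at h4
            linarith
          · simp only [Bool.not_true, Bool.false_eq_true, if_false]
            simp only [if_true] at h4
            linarith
      ext W
      constructor
      · intro h
        have := key _ W h
        rw [Bool.not_not] at this
        exact this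
      · intro h
        have := key b _ h
        rwa [map_not_not] at this
    rw [e1, Ex.gf_mir]
  have h2 : ENNReal.ofReal c ≤ gf (FS b m l B) + gf (FS b m l B) := by
    refine h.trans ((gf_mono hsub).trans ((gf_union_le _ _).trans ?_))
    have h3 := hmir true
    simp only [Bool.not_true] at h3
    cases b
    · rw [h3]
    · rw [← h3]
  have h3 : ENNReal.ofReal c = ENNReal.ofReal (c / 2) + ENNReal.ofReal (c / 2) := by
    rw [← ENNReal.ofReal_add (by positivity) (by positivity)]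
    congr 1
    ring
  rw [h3] at h2
  by_contra hcon
  rw [not_le] at hcon
  exact absurd h2 (not_le.2 (ENNReal.add_lt_add hcon hcon))

/-- steered first passages: start at the lateral coordinate `x` -/
def TT (m : ℕ) (l B : ℝ) (x : ℤ) : Set (List Bool) := {W | W ∈ TIP.FP m ∧ (W.length : ℝ) ≤ l ∧
  (∀ i, i ≤ W.length → (lev W i : ℝ) ≤ 3 * m + B ∧ |(x : ℝ) + lat W i| ≤ 2 * B) ∧ |(x : ℝ) + latE W| ≤ B}

lemma FP_zero {W : List Bool} (h : W ∈ TIP.FP 0) : W = [] := by
  by_contra hne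
  have := h.2.2 [] W FPA.nil_BU h.1 rfl hne
  omega

lemma steer {x y B : ℝ} {b : Bool} (hx : |x| ≤ B) (hy : |y| ≤ B) (h : if b then 0 ≤ y else y ≤ 0) (hb : b = decide (x ≤ 0)) :
    |x + y| ≤ B := by
  rw [abs_le] at hx hy ⊢
  subst hb
  by_cases h0 : x ≤ 0
  · rw [decide_eq_true h0, if_pos rfl] at h
    constructor <;> linarith
  · rw [decide_eq_false h0] at h
    simp only [Bool.false_eq_true, if_false] at h
    push Not at h0
    constructor <;> linarith

/-- **iteration with steering** -/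
theorem tt_iter {c l B : ℝ} {m0 : ℕ} (hc : 0 ≤ c) (hB : 0 ≤ B)
    (h : ∀ m, m ≤ m0 → ENNReal.ofReal c ≤ gf (FT m l B)) :
    ∀ n m : ℕ, m ≤ n * m0 → ∀ x : ℤ, |(x : ℝ)| ≤ B → ENNReal.ofReal ((c / 2) ^ n) ≤ gf (TT m (n * l) B x) := by
  intro n
  induction n with
  | zero =>
    intro m hm x hx
    have h0 : m = 0 := by omega
    subst h0
    have h1 : ({[]} : Set (List Bool)) ⊆ TT 0 ((0 : ℕ) * l) B x := by
      intro W hW
      rw [Set.mem_singleton_iff] at hW
      subst hW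
      have e0 : lat [] 0 = 0 := by decide
      have e1 : lev [] 0 = 0 := by decide
      refine ⟨⟨FPA.nil_BU, Nat.zero_le _, fun X Y _ _ he hne => absurd (List.append_eq_nil_iff.1 he.symm).2 hne⟩, by simp,
        fun i hi => ?_, ?_⟩
      · have hi0 : i = 0 := by simpa using hi
        subst hi0
        rw [e0, e1]
        simp only [Int.cast_zero, add_zero, Nat.cast_zero, mul_zero, zero_add]
        exact ⟨hB, by linarith⟩
      · show |(x : ℝ) + (lat [] 0 : ℤ)| ≤ B
        rw [e0]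
        simpa using hx
    refine le_trans ?_ (gf_mono h1)
    unfold gf
    rw [tsum_singleton (f := wE) []]
    simp [wE]
  | succ n ih =>
    intro m hm x hx
    obtain ⟨m1, hm1⟩ : ∃ m1, m1 = min m m0 := ⟨_, rfl⟩
    have h1 : m1 ≤ m0 := by omega
    have h2 : m1 ≤ m := by omega
    obtain ⟨b, hb⟩ : ∃ b : Bool, b = decide ((x : ℝ) ≤ 0) := ⟨_, rfl⟩
    have hsteer : ∀ X ∈ FS b m1 l B, |(x : ℝ) + latE X| ≤ B := by
      intro X hX
      refine steer hx (hX.2.2.1 X.length le_rfl).2 ?_ hb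
      have h3 := hX.2.2.2
      cases b
      · simp only [Bool.false_eq_true, if_false] at h3 ⊢
        exact_mod_cast h3
      · simp only [if_true] at h3 ⊢
        exact_mod_cast h3
    have h3 := acMul (FS b m1 l B) (fun X => TT (m - hgt X) (n * l) B (x + latE X)) (ENNReal.ofReal ((c / 2) ^ n))
      (fun X hX => hX.1.1) (ac_mono (fun X hX => hX.1) (ac_FP m1)) (fun X _ W hW => hW.1.1) (fun X hX => ih _ (by
        have h4 := hX.1.2.1
        have h5 : (n + 1) * m0 = n * m0 + m0 := by ring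
        rcases Nat.le_total m m0 with h6 | h6
        · have : m1 = m := by omega
          omega
        · have : m1 = m0 := by omega
          omega) _ (by
        push_cast
        exact hsteer X hX))
    have e1 : ENNReal.ofReal ((c / 2) ^ (n + 1)) = ENNReal.ofReal (c / 2) * ENNReal.ofReal ((c / 2) ^ n) := by
      rw [pow_succ', ENNReal.ofReal_mul (by positivity)]
    rw [e1]
    refine (mul_le_mul' (fs_of hc (h m1 h1) b) le_rfl).trans (h3.trans (gf_mono ?_))
    rintro W ⟨X, hX, Y, hY, rfl⟩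
    obtain ⟨x1, x2, x3, x4⟩ := hX
    obtain ⟨y1, y2, y3, y4⟩ := hY
    have hm0' : (0 : ℝ) ≤ m := Nat.cast_nonneg _
    have hcat : latE (X ++ Y) = latE X + latE Y := FreeA.latE_app x1.1 Y
    push_cast at y3 y4
    refine ⟨FP_app2 x1 h2 y1, ?_, fun i hi => ?_, ?_⟩
    · rw [List.length_append]
      push_cast
      linarith
    · rw [List.length_append] at hi
      rcases Nat.le_total i X.length with h4 | h4
      · obtain ⟨a1, a2⟩ := x3 i h4
        rw [lev_append (by omega), lat_append (by omega)]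
        refine ⟨by linarith, ?_⟩
        have := abs_add_le (x : ℝ) (lat X i)
        linarith
      · obtain ⟨j, rfl⟩ : ∃ j, i = X.length + j := ⟨i - X.length, by omega⟩
        rw [lev_cat (FreeA.dx_BU x1.1), lat_cat (FreeA.dx_BU x1.1), FreeA.lev_BU x1.1]
        obtain ⟨a1, a2⟩ := y3 j (by omega)
        constructor
        · rcases Nat.le_total (hgt X) m with h5 | h5
          · rw [Nat.cast_sub h5] at a1
            push_cast
            linarith
          · have h6 : m - hgt X = 0 := by omega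
            rw [h6] at y1
            have hY0 := FP_zero y1
            have hj0 : j = 0 := by
              rw [hY0] at hi
              simp only [List.length_nil] at hi
              omega
            subst hj0
            have h7 := (x3 X.length le_rfl).1
            rw [FreeA.lev_BU x1.1] at h7
            rw [lev_zero]
            push_cast at h7 ⊢
            linarith
        · have e2 : (x : ℝ) + ((latE X + lat Y j : ℤ) : ℝ) = x + latE X + lat Y j := by
            push_cast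
            ring
          rw [e2]
          exact a2
    · rw [hcat]
      push_cast
      have e2 : (x : ℝ) + (latE X + latE Y) = x + latE X + latE Y := by ring
      rw [e2]
      exact y4

/-- **row (P), strong form** -/
theorem longC (ρ η e A : ℝ) (hρ : 0 < ρ) (hη : 0 < η) (he : 0 < e) (hA : 0 < A) : ∃ (c : ℝ) (k0 : ℕ), 0 < c ∧
    ∀ k b m : ℕ, k0 ≤ k → (b : ℝ) ≤ A * ml k → η * 2 ^ k ≤ m → 4 * (m : ℝ) ≤ ρ * 2 ^ k →
      ENNReal.ofReal c ≤ gf {W | W ∈ TIP.FP m ∧ b ≤ W.length ∧ (W.length : ℝ) ≤ b + e * ml k ∧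
        ∀ i, i ≤ W.length → (hn (vx oo up W i) : ℝ) ≤ ρ * 2 ^ k} := by
  obtain ⟨c1, s, k1, hc1, hsk, h1⟩ := fp_one
  -- the scale of the short pieces
  obtain ⟨u, hu⟩ : ∃ u : ℕ, 4 * (ρ * 2 ^ s + 4) / e + 40 / ρ + 1 ≤ (2 : ℝ) ^ u := by
    obtain ⟨u, hu⟩ := exists_nat_ge (4 * (ρ * 2 ^ s + 4) / e + 40 / ρ + 1)
    refine ⟨u, hu.trans ?_⟩
    have : u ≤ 2 ^ u := Nat.lt_two_pow_self.le
    exact_mod_cast this
  -- the scale of the long piece
  obtain ⟨v, hv⟩ : ∃ v : ℕ, 8 / e + 8 / ρ + 2 / η + 1 ≤ (2 : ℝ) ^ v := by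
    obtain ⟨v, hv⟩ := exists_nat_ge (8 / e + 8 / ρ + 2 / η + 1)
    refine ⟨v, hv.trans ?_⟩
    have : v ≤ 2 ^ v := Nat.lt_two_pow_self.le
    exact_mod_cast this
  obtain ⟨c2, k2, hc2, h2⟩ := longBr (A * (2 ^ v) ^ 4 + 2) (by
    have : 0 < A * (2 ^ v) ^ 4 := by positivity
    linarith)
  obtain ⟨n, hn'⟩ : ∃ n : ℕ, n = ⌈ρ / 4 * 2 ^ s * 2 ^ (3 * u)⌉₊ := ⟨_, rfl⟩
  have hn1 : ρ / 4 * 2 ^ s * 2 ^ (3 * u) ≤ n := by
    rw [hn']
    exact Nat.le_ceil _
  have hn2 : (n : ℝ) ≤ ρ / 4 * 2 ^ s * 2 ^ (3 * u) + 1 := by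
    rw [hn']
    exact (Nat.ceil_lt_add_one (by positivity)).le
  refine ⟨c2 * (c1 / 2) ^ n, max (k1 + 3 * u) (k2 + 3 * v), by positivity, fun k b m hk hb hm1 hm2 => ?_⟩
  have hka := (le_max_left _ _).trans hk
  have hkb := (le_max_right _ _).trans hk
  have h2u : (0 : ℝ) < 2 ^ u := by positivity
  have h2v : (0 : ℝ) < 2 ^ v := by positivity
  have h2s : (0 : ℝ) < 2 ^ s := by positivity
  have u1 : 1 ≤ (2 : ℝ) ^ u := one_le_pow₀ (by norm_num)
  have v1 : 1 ≤ (2 : ℝ) ^ v := one_le_pow₀ (by norm_num)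
  have hX1 : (0 : ℝ) < 4 * (ρ * 2 ^ s + 4) / e := by positivity
  have hX2 : (0 : ℝ) < 40 / ρ := by positivity
  have hX3 : (0 : ℝ) < 8 / e := by positivity
  have hX4 : (0 : ℝ) < 2 / η := by positivity
  have hX5 : (0 : ℝ) < 8 / ρ := by positivity
  have ue : 4 * (ρ * 2 ^ s + 4) ≤ e * 2 ^ u := by
    have : 4 * (ρ * 2 ^ s + 4) / e ≤ (2 : ℝ) ^ u := by linarith
    rw [div_le_iff₀ he] at this
    linarith
  have uρ : 40 ≤ ρ * 2 ^ u := by
    have : 40 / ρ ≤ (2 : ℝ) ^ u := by linarith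
    rw [div_le_iff₀ hρ] at this
    linarith
  have ve : 8 ≤ e * 2 ^ v := by
    have : 8 / e ≤ (2 : ℝ) ^ v := by linarith
    rw [div_le_iff₀ he] at this
    linarith
  have vρ : 8 ≤ ρ * 2 ^ v := by
    have : 8 / ρ ≤ (2 : ℝ) ^ v := by linarith
    rw [div_le_iff₀ hρ] at this
    linarith
  have vη : 2 ≤ η * 2 ^ v := by
    have : 2 / η ≤ (2 : ℝ) ^ v := by linarith
    rw [div_le_iff₀ hη] at this
    linarith
  have u3 : (2 : ℝ) ^ (3 * u) = 2 ^ u * 2 ^ u * 2 ^ u := by ring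
  have v3 : (2 : ℝ) ^ (3 * v) = 2 ^ v * 2 ^ v * 2 ^ v := by ring
  have u3' : (2 : ℝ) ^ u ≤ 2 ^ (3 * u) := pow_le_pow_right₀ (by norm_num) (by omega)
  have v3' : (2 : ℝ) ^ v ≤ 2 ^ (3 * v) := pow_le_pow_right₀ (by norm_num) (by omega)
  -- the short pieces
  have hshort : ∀ m', m' ≤ m → ENNReal.ofReal ((c1 / 2) ^ n) ≤ gf {W | W ∈ TIP.FP m' ∧ (W.length : ℝ) ≤ e / 4 * ml k ∧
      ∀ i, i ≤ W.length → (hn (vx oo up W i) : ℝ) ≤ 7 * ρ / 8 * 2 ^ k} := by
    intro m' hm'
    obtain ⟨l, rfl⟩ : ∃ l, k = l + 3 * u := ⟨k - 3 * u, by omega⟩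
    have hmk : ml (l + 3 * u) = ml l * (2 ^ u) ^ 4 := ARM.NB.ml_add l u
    have hmlp := ml_pos l
    have h2l : (0 : ℝ) < 2 ^ l := by positivity
    have g0 : (m' : ℝ) ≤ m := by exact_mod_cast hm'
    have h3 := tt_iter (c := c1) (l := 4 * ml l) (B := 2 ^ l) (m0 := 2 ^ (l - s)) hc1.le (by positivity)
      (fun m hm => h1 l m (by omega) hm) n m' (by
        have g1 : (m' : ℝ) ≤ n * 2 ^ (l - s) := by
          have g3 : (2 : ℝ) ^ l = 2 ^ (l - s) * 2 ^ s := by
            rw [← pow_add]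
            congr 1
            omega
          have g4 : ρ / 4 * 2 ^ (l + 3 * u) = ρ / 4 * 2 ^ s * 2 ^ (3 * u) * 2 ^ (l - s) := by
            rw [pow_add, g3]
            ring
          have g5 : ρ / 4 * 2 ^ s * 2 ^ (3 * u) * 2 ^ (l - s) ≤ n * 2 ^ (l - s) :=
            mul_le_mul_of_nonneg_right hn1 (by positivity)
          linarith
        exact_mod_cast g1) 0 (by simp)
    refine h3.trans (gf_mono ?_)
    rintro W ⟨w1, w2, w3, w4⟩
    refine ⟨w1, w2.trans ?_, fun i hi => ?_⟩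
    · rw [hmk]
      have g1 : (n : ℝ) ≤ (ρ * 2 ^ s + 4) / 4 * 2 ^ (3 * u) := by
        have : (1 : ℝ) ≤ 2 ^ (3 * u) := one_le_pow₀ (by norm_num)
        linarith
      have g2 : (n : ℝ) * (4 * ml l) ≤ (ρ * 2 ^ s + 4) / 4 * 2 ^ (3 * u) * (4 * ml l) :=
        mul_le_mul_of_nonneg_right g1 (by positivity)
      have g3 : e / 4 * (ml l * (2 ^ u) ^ 4) = (e * 2 ^ u) / 4 * (2 ^ (3 * u) * ml l) := by
        rw [u3]
        ring
      have g4 : 4 * (ρ * 2 ^ s + 4) / 4 * (2 ^ (3 * u) * ml l) ≤ (e * 2 ^ u) / 4 * (2 ^ (3 * u) * ml l) :=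
        mul_le_mul_of_nonneg_right (by linarith) (by positivity)
      rw [g3]
      linarith
    · obtain ⟨a1, a2⟩ := w3 i hi
      rw [Int.cast_zero, zero_add] at a2
      have a3 := hn_lev_lat W i
      have a4 : (hn (vx oo up W i) : ℝ) ≤ |(lev W i : ℝ)| + 2 * |(lat W i : ℝ)| := by exact_mod_cast a3
      have a5 : (0 : ℝ) ≤ lev W i := by exact_mod_cast (FreeA.lev_BU_le w1.1 hi).1
      rw [abs_of_nonneg a5] at a4
      have g6 : 40 * (2 : ℝ) ^ l ≤ ρ * 2 ^ (l + 3 * u) := by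
        rw [pow_add]
        have : 40 ≤ ρ * 2 ^ (3 * u) := by
          have := mul_le_mul_of_nonneg_left u3' hρ.le
          linarith
        have := mul_le_mul_of_nonneg_right this h2l.le
        linarith
      linarith
  -- the long piece
  have hlong : ∃ S : Set (List Bool), S ⊆ BU ∧ AC S ∧ ENNReal.ofReal c2 ≤ gf S ∧ ∀ X ∈ S, hgt X ≤ m ∧ b ≤ X.length ∧
      (X.length : ℝ) ≤ b + 3 * e / 8 * ml k ∧ ∀ i, i ≤ X.length → (hn (vx oo up X i) : ℝ) ≤ ρ / 8 * 2 ^ k := by
    obtain ⟨l, rfl⟩ : ∃ l, k = l + 3 * v := ⟨k - 3 * v, by omega⟩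
    have hmk : ml (l + 3 * v) = ml l * (2 ^ v) ^ 4 := ARM.NB.ml_add l v
    have hmlp := ml_pos l
    have hml1 : 1 ≤ ml l := (one_le_pow₀ (by norm_num)).trans (ml_ge l)
    obtain ⟨L, hL⟩ : ∃ L : ℕ, L = max b ⌈ml l⌉₊ := ⟨_, rfl⟩
    have hL0 : b ≤ L := by
      rw [hL]
      exact le_max_left _ _
    have hL1 : ml l ≤ L := by
      have : ⌈ml l⌉₊ ≤ L := by
        rw [hL]
        exact le_max_right _ _
      exact (Nat.le_ceil _).trans (by exact_mod_cast this)
    have hL2 : (L : ℝ) ≤ b + (ml l + 1) := by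
      have g1 : L ≤ b + ⌈ml l⌉₊ := by omega
      have g2 : (L : ℝ) ≤ b + (⌈ml l⌉₊ : ℝ) := by exact_mod_cast g1
      have g3 := (Nat.ceil_lt_add_one hmlp.le).le
      linarith
    have hL3 : (L : ℝ) ≤ (A * (2 ^ v) ^ 4 + 2) * ml l := by
      rw [hmk] at hb
      linarith
    have h3 := h2 l L (by omega) hL1 hL3
    obtain ⟨S, hS⟩ : ∃ S : Set (List Bool), S = {Z | Z ∈ BU ∧ (∀ i, i ≤ Z.length → hn (vx oo up Z i) ≤ 2 ^ l) ∧ L ≤ Z.length ∧
      (Z.length : ℝ) ≤ L + ml l} := ⟨_, rfl⟩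
    rw [← hS] at h3
    have hSB : S ⊆ BU := by
      rw [hS]
      exact fun Z hZ => hZ.1
    have hSh : ∀ Z ∈ S, hgt Z ≤ 2 ^ l := by
      intro Z hZ
      rw [hS] at hZ
      exact hgt_box hZ.1 (by push_cast; exact hZ.2.1 _ le_rfl)
    have h4 := miMass (2 ^ l) S hSB hSh
    have h5 : ENNReal.ofReal c2 ≤ gf (Mi S) := by
      have h6 := h3.trans h4
      rw [ENNReal.ofReal_mul hc2.le] at h6
      have hUk := Ub_pos l
      exact (ENNReal.mul_le_mul_iff_left (by simpa using hUk) ENNReal.ofReal_ne_top).1 h6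
    refine ⟨Mi S, (Mi_sub S).trans hSB, acMi S, h5, fun X hX => ?_⟩
    have hXS := Mi_sub S hX
    have g0 := hSh X hXS
    rw [hS] at hXS
    obtain ⟨g1, g2, g3, g4⟩ := hXS
    refine ⟨?_, hL0.trans g3, ?_, fun i hi => ?_⟩
    · have g5 : (hgt X : ℝ) ≤ 2 ^ l := by exact_mod_cast g0
      have g6 : η * 2 ^ (l + 3 * v) = (η * 2 ^ (3 * v)) * 2 ^ l := by
        rw [pow_add]
        ring
      have g7 : 2 ≤ η * 2 ^ (3 * v) := by
        have := mul_le_mul_of_nonneg_left v3' hη.le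
        linarith
      have g8 : 2 * (2 : ℝ) ^ l ≤ (η * 2 ^ (3 * v)) * 2 ^ l := mul_le_mul_of_nonneg_right g7 (by positivity)
      have g9 : (0 : ℝ) < 2 ^ l := by positivity
      have : (hgt X : ℝ) ≤ m := by linarith
      exact_mod_cast this
    · rw [hmk]
      have g5 : (1 : ℝ) ≤ (2 ^ v) ^ 3 := one_le_pow₀ v1
      have g6 : 3 * e / 8 * (ml l * (2 ^ v) ^ 4) = 3 / 8 * (e * 2 ^ v) * (2 ^ v) ^ 3 * ml l := by ring
      have g7 : 3 * ml l ≤ 3 / 8 * (e * 2 ^ v) * (2 ^ v) ^ 3 * ml l := by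
        refine mul_le_mul_of_nonneg_right ?_ hmlp.le
        nlinarith
      rw [g6]
      linarith
    · have g5 : (hn (vx oo up X i) : ℝ) ≤ 2 ^ l := by exact_mod_cast g2 i hi
      have g6 : ρ / 8 * 2 ^ (l + 3 * v) = (ρ * 2 ^ (3 * v)) / 8 * 2 ^ l := by
        rw [pow_add]
        ring
      have g7 : 8 ≤ ρ * 2 ^ (3 * v) := by
        have := mul_le_mul_of_nonneg_left v3' hρ.le
        linarith
      have g8 : 8 / 8 * (2 : ℝ) ^ l ≤ (ρ * 2 ^ (3 * v)) / 8 * 2 ^ l := mul_le_mul_of_nonneg_right (by linarith) (by positivity)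
      rw [g6]
      linarith
  obtain ⟨S, s1, s2, s3, s4⟩ := hlong
  have h3 := acMul S (fun X => {W | W ∈ TIP.FP (m - hgt X) ∧ (W.length : ℝ) ≤ e / 4 * ml k ∧
      ∀ i, i ≤ W.length → (hn (vx oo up W i) : ℝ) ≤ 7 * ρ / 8 * 2 ^ k}) (ENNReal.ofReal ((c1 / 2) ^ n)) s1 s2
    (fun X _ W hW => hW.1.1) (fun X _ => hshort _ (Nat.sub_le _ _))
  have hml := ml_pos k
  rw [ENNReal.ofReal_mul hc2.le]
  refine (mul_le_mul' s3 le_rfl).trans (h3.trans (gf_mono ?_))
  rintro W ⟨X, hX, Y, hY, rfl⟩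
  obtain ⟨x1, x2, x3, x4⟩ := s4 X hX
  obtain ⟨y1, y2, y3⟩ := hY
  refine ⟨FP_app (s1 hX) x1 y1, ?_, ?_, fun i hi => ?_⟩
  · rw [List.length_append]
    omega
  · rw [List.length_append]
    push_cast
    have : 0 < e * ml k := by positivity
    linarith
  · have h4 := box_app (s1 hX) x4 y3 (by positivity) i hi
    linarith

/-- the form for `PosB` (literal of helper87) -/
theorem longD (η e A : ℝ) (hη : 0 < η) (he : 0 < e) (hA : 0 < A) : ∃ (c : ℝ) (k0 : ℕ), 0 < c ∧
    ∀ k b m : ℕ, k0 ≤ k → (b : ℝ) ≤ A * ml k → η * 2 ^ k ≤ (m : ℝ) → 10 * m ≤ 2 ^ k →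
      ENNReal.ofReal c ≤ gf {W | W ∈ TIP.FP m ∧ b ≤ W.length ∧ (W.length : ℝ) ≤ b + e * ml k ∧
        ∀ i, i ≤ W.length → TIW.hn (vx oo up W i) ≤ 2 ^ k} := by
  obtain ⟨c, k0, hc, h⟩ := longC 1 η e A one_pos hη he hA
  refine ⟨c, k0, hc, fun k b m hk hb hm1 hm2 => (h k b m hk hb hm1 ?_).trans (gf_mono ?_)⟩
  · have h1 : (10 : ℝ) * m ≤ 2 ^ k := by exact_mod_cast hm2
    have h2 : (0 : ℝ) ≤ m := Nat.cast_nonneg _
    linarith
  · rintro W ⟨w1, w2, w3, w4⟩
    refine ⟨w1, w2, w3, fun i hi => ?_⟩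
    have := w4 i hi
    rw [one_mul] at this
    exact_mod_cast this

end SCF

end HexObs
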