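import Pool.Agent.SCF.MDefs
import Pool.Agent.CRT.VCom

/-!
# ScaleFlow, row MAC: literals 2 (helper66)

* `MdP` : modulus of continuity; `TmP` : time in a slab; **`StbP`** : stability for good pairs; **`Ps1C`** : comparison of `ps1`.
-/

set_option autoImplicit false

open Set Filter Topology MeasureTheory

namespace Pool.Agent.SCF.M

open Pool.Agent.NTS.Res
open Pool.Agent.CRT (CI)
open Pool.Agent.CRT.V.VC (pr)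
open Pool.Agent.SCF.Z

/-- modulus of continuity, every number of steps -/
def MdP : Prop := ∀ ε ω : ℝ, 0 < ε → 0 < ω → ∃ η : ℝ, 0 < η ∧ ∀ n : ℕ, 1 ≤ n → pr n (fun s => ¬ Md η ω s) ≤ ε

/-- no long time in a thin slab, every large number of steps -/
def TmP : Prop := ∀ ε η : ℝ, 0 < ε → 0 < η → ∃ τ : ℝ, 0 < τ ∧ ∃ n0 : ℕ, ∀ n : ℕ, n0 ≤ n → pr n (fun s => ¬ Tms η τ s) ≤ ε

/-- **stability of the start cuts for good pairs** -/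
def StbP : Prop := ∀ R κ θ ε : ℝ, 0 < R → 0 < κ → κ < 1 → 0 < θ → 0 < ε →
  ∃ (δ : ℝ) (n0 : ℕ) (Bad : ∀ n : ℕ, (Fin n → Fin 3) → Prop), 0 < δ ∧
    (∀ n : ℕ, n0 ≤ n → pr n (fun s => Bad n s ∧ 0 < zc κ (1000 * R) (curve s)) ≤ ε) ∧
    ∀ (n n' : ℕ) (s : Fin n → Fin 3) (s' : Fin n' → Fin 3), n0 ≤ n → n0 ≤ n' → s ∈ saw n → s' ∈ saw n' → ¬ Bad n s →
      ¬ Bad n' s' → 0 < zc κ (1000 * R) (curve s) → 0 < zc κ (1000 * R) (curve s') → dist (curve s) (curve s') ≤ δ → Stb R θ s s'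

/-- **comparison of `ps1`** for two close walks with stability -/
def Ps1C : Prop := ∀ R L x1 x2 : ℝ, 0 < R → 0 < L → L ≤ R / 8 → x1 < x2 → ∀ (ηf : ℝ → ℝ), (∀ ω : ℝ, 0 < ω → 0 < ηf ω) →
  ∀ ε : ℝ, 0 < ε → ∃ (ω1 ω2 : ℝ) (M1 : ℕ), 0 < ω1 ∧ 0 < ω2 ∧ ∀ M : ℕ, M1 ≤ M → 1 ≤ M →
    ∃ (ω3 θ : ℝ) (n0 : ℕ), 0 < ω3 ∧ 0 < θ ∧ ∀ (n n' : ℕ) (s : Fin n → Fin 3) (s' : Fin n' → Fin 3), n0 ≤ n → n0 ≤ n' →
      Md (ηf ω1) ω1 s' → Md (ηf ω2) ω2 s' → Md (ηf ω3) ω3 s' → Stb R θ s s' → Stb R θ s' s → dist (curve s) (curve s') ≤ θ →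
        ps1 M (R * size n) (L * size n) x1 x2 s ≤ ps1 M (R * size n') (L * size n') x1 x2 s' + ε

end Pool.Agent.SCF.M
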