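import Pool.Agent.SCF.MDefs
import Pool.Agent.CRT.RSplit

/-!
# ScaleFlow (R-), row MAC, half (A): four start cuts around a start cut (helper58)

The hypotheses on the isolated window cuts (in a ball of radius `Q'` about the start) are `¬ IsoR Q' r (r - b) (b / 2) E T s` for
`(E0, T0)`, `(E1, T1)` and the same with `r - b` for `(E2, T2)`, and `¬ Slb bs (2 * E0) s`, unfolded (`SCF.K.IsoR` of helper16).

* `drift` : a strand which is in a thin slab as long as it is near its start stays near its start;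
* `nbr` : a window cut near a start cut, at another level, is a start cut, and the strand between them is between the levels;
* **`stabA`** : four start cuts around a start cut; `dm_x0` : the start piece of the first one is not small; `away_x3`.
-/

set_option autoImplicit false

open Set Filter Topology MeasureTheory

namespace Pool.Agent.SCF.M

open Pool.Agent.NTS.Res
open Pool.Agent.SCF.Z
open Pool.Agent.CRT.R (WC norm_step norm_half)
open NTSF (pos_succ)

/-- a strand which is in a slab of width `E` as long as it is near its start stays near its start -/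
lemma drift {n : ℕ} {s : Fin n → Fin 3} {b E : ℝ} (hb : 1 ≤ b)
    (hsl : ∀ i j : ℕ, i ≤ j → j ≤ n → (∀ l : ℕ, i ≤ l → l ≤ j → |(pos s l).re - (pos s i).re| ≤ E) → ‖pos s j - pos s i‖ < b)
    {a m : ℕ} (hm : m ≤ n)
    (lev : ∀ l : ℕ, a ≤ l → l ≤ m → ‖pos s l - pos s a‖ ≤ b + 1 → |(pos s l).re - (pos s a).re| ≤ E) :
    ∀ l : ℕ, a ≤ l → l ≤ m → ‖pos s l - pos s a‖ < b := by
  have key : ∀ q : ℕ, a + q ≤ m → ∀ l : ℕ, a ≤ l → l ≤ a + q → ‖pos s l - pos s a‖ < b := by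
    intro q
    induction q with
    | zero =>
      intro _ l h1 h2
      have : l = a := by omega
      rw [this, sub_self, norm_zero]
      linarith
    | succ q ih =>
      intro hq l h1 h2
      rcases Nat.lt_or_ge l (a + (q + 1)) with h3 | h3
      · exact ih (by omega) l h1 (by omega)
      · have hl : l = a + q + 1 := by omega
        subst hl
        have h4 : ‖pos s (a + q + 1) - pos s a‖ ≤ b + 1 := by
          have h5 := ih (by omega) (a + q) (by omega) le_rfl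
          rw [pos_succ s (a + q) (by omega)]
          have h6 : ‖step (a + q) (s ⟨a + q, by omega⟩)‖ = 1 := norm_step _ _
          calc ‖pos s (a + q) + step (a + q) (s ⟨a + q, by omega⟩) - pos s a‖
              = ‖(pos s (a + q) - pos s a) + step (a + q) (s ⟨a + q, by omega⟩)‖ := by ring_nf
            _ ≤ ‖pos s (a + q) - pos s a‖ + ‖step (a + q) (s ⟨a + q, by omega⟩)‖ := norm_add_le _ _
            _ ≤ b + 1 := by rw [h6]; linarith
        refine hsl a (a + q + 1) (by omega) (by omega) fun l h6 h7 => ?_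
        refine lev l h6 (by omega) ?_
        rcases Nat.lt_or_ge l (a + q + 1) with h9 | h9
        · exact (ih (by omega) l h6 (by omega)).le.trans (by linarith)
        · have : l = a + q + 1 := by omega
          rw [this]
          exact h4
  intro l h1 h2
  exact key (m - a) (by omega) l h1 (by omega)

/-- a start cut is a window cut -/
lemma SC.wc {ρ ρ' : ℝ} {n : ℕ} {s : Fin n → Fin 3} {k : ℕ} (h : SC ρ s k) (hρ : ρ' + 1 / 2 ≤ ρ) : WC ρ' s k := by
  obtain ⟨h1, h2, h3, h4, h5⟩ := h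
  refine ⟨h3, h1, h4, fun i hi _ => h2 i hi, fun j hj hjn hd => h5 j hj hjn ?_⟩
  calc ‖pos s j - pos s k‖ = ‖(pos s j - (pos s k + 1 / 2)) + 1 / 2‖ := by ring_nf
    _ ≤ ‖pos s j - (pos s k + 1 / 2)‖ + ‖(1 / 2 : ℂ)‖ := norm_add_le _ _
    _ ≤ ρ := by rw [norm_half]; linarith

lemma sc_le {ρ ρ' : ℝ} {n : ℕ} {s : Fin n → Fin 3} {k : ℕ} (h : SC ρ s k) (hρ : ρ' ≤ ρ) : SC ρ' s k :=
  ⟨h.1, h.2.1, h.2.2.1, h.2.2.2.1, fun j h1 h2 h3 => h.2.2.2.2 j h1 h2 (h3.trans hρ)⟩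

/-- a window cut with a start piece weakly to its left is a start cut -/
lemma sc_of {ρ ρ' : ℝ} {n : ℕ} {s : Fin n → Fin 3} {k : ℕ} (h : WC ρ s k) (hρ : ρ' + 1 / 2 ≤ ρ)
    (hl : ∀ i : ℕ, i ≤ k → (pos s i).re ≤ (pos s k).re) : SC ρ' s k := by
  obtain ⟨h1, h2, h3, h4, h5⟩ := h
  refine ⟨h2, hl, h1, h3, fun j hj hjn hd => h5 j hj hjn ?_⟩
  calc ‖pos s j - (pos s k + 1 / 2)‖ = ‖(pos s j - pos s k) - 1 / 2‖ := by ring_nf
    _ ≤ ‖pos s j - pos s k‖ + ‖(1 / 2 : ℂ)‖ := norm_sub_le _ _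
    _ ≤ ρ := by rw [norm_half]; linarith

/-- the time order of the start cuts is the order of their levels -/
lemma lt_of_lev {n : ℕ} {s : Fin n → Fin 3} {x y : ℕ} (hx : ∀ i : ℕ, i ≤ x → (pos s i).re ≤ (pos s x).re)
    (h : (pos s x).re < (pos s y).re) : x < y := by
  by_contra hn
  exact absurd (hx y (by omega)) (not_le.2 h)

/-- **a window cut near a start cut is a start cut** -/
lemma nbr {n : ℕ} {s : Fin n → Fin 3} {ρ ρ' d b E Q : ℝ} {k i : ℕ} (hb : 1 ≤ b)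
    (hsl : ∀ i j : ℕ, i ≤ j → j ≤ n → (∀ l : ℕ, i ≤ l → l ≤ j → |(pos s l).re - (pos s i).re| ≤ E) → ‖pos s j - pos s i‖ < b)
    (hk : SC ρ s k) (hi : WC ρ' s i) (hd : ‖pos s i - pos s k‖ ≤ d) (hE : |(pos s i).re - (pos s k).re| ≤ E)
    (hQ : ∀ j : ℕ, j ≤ k → ‖pos s j‖ ≤ Q) (h1 : 2 * Q + 1 ≤ ρ') (h2 : b + d + 2 ≤ ρ') (h3 : b + 1 ≤ ρ) (h4 : d ≤ ρ) :
    ((pos s k).re < (pos s i).re → k < i ∧ SC (ρ' - 1) s i ∧
      ∀ l : ℕ, k ≤ l → l ≤ i → ‖pos s l - pos s k‖ < b ∧ (pos s k).re ≤ (pos s l).re ∧ (pos s l).re ≤ (pos s i).re) ∧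
    ((pos s i).re < (pos s k).re → i < k ∧ SC (ρ' - 1) s i ∧
      ∀ l : ℕ, i ≤ l → l ≤ k → ‖pos s l - pos s i‖ < b ∧ (pos s i).re ≤ (pos s l).re ∧ (pos s l).re ≤ (pos s k).re) := by
  obtain ⟨a1, a2, a3, a4, a5⟩ := hk
  have hi' := hi
  obtain ⟨b1, b2, b3, b4, b5⟩ := hi
  have hEi := abs_le.1 hE
  constructor
  · intro hlt
    have hki : k < i := lt_of_lev a2 hlt
    have lev : ∀ l : ℕ, k ≤ l → l ≤ i → ‖pos s l - pos s k‖ ≤ b + 1 →
        (pos s k).re ≤ (pos s l).re ∧ (pos s l).re ≤ (pos s i).re := by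
      intro l g1 g2 g3
      constructor
      · rcases eq_or_lt_of_le g1 with g4 | g4
        · rw [g4]
        · have := a5 l g4 (by omega) (by linarith)
          linarith
      · refine b4 l g2 ?_
        calc ‖pos s l - (pos s i + 1 / 2)‖ = ‖(pos s l - pos s k) - ((pos s i - pos s k) + 1 / 2)‖ := by ring_nf
          _ ≤ ‖pos s l - pos s k‖ + ‖(pos s i - pos s k) + 1 / 2‖ := norm_sub_le _ _
          _ ≤ ‖pos s l - pos s k‖ + (‖pos s i - pos s k‖ + ‖(1 / 2 : ℂ)‖) := by gcongr; exact norm_add_le _ _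
          _ ≤ ρ' := by rw [norm_half]; linarith
    have key : ∀ l : ℕ, k ≤ l → l ≤ i → ‖pos s l - pos s k‖ < b := by
      refine drift hb hsl (by omega) fun l g1 g2 g3 => ?_
      obtain ⟨g4, g5⟩ := lev l g1 g2 g3
      rw [abs_le]
      constructor <;> linarith
    refine ⟨hki, sc_of hi' (by linarith) fun l hl => ?_, fun l g1 g2 => ⟨key l g1 g2, lev l g1 g2 (by linarith [key l g1 g2])⟩⟩
    rcases Nat.lt_or_ge l k with g | g
    · exact (a2 l g.le).trans hlt.le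
    · exact (lev l g hl (by linarith [key l g hl])).2
  · intro hlt
    have hik : i < k := by
      by_contra hn
      rcases Nat.lt_or_ge k i with g | g
      · have := a5 i g (by omega) (hd.trans h4)
        linarith
      · have : i = k := by omega
        rw [this] at hlt
        exact lt_irrefl _ hlt
    have lev : ∀ l : ℕ, i ≤ l → l ≤ k → ‖pos s l - pos s i‖ ≤ b + 1 →
        (pos s i).re ≤ (pos s l).re ∧ (pos s l).re ≤ (pos s k).re := by
      intro l g1 g2 g3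
      refine ⟨?_, a2 l g2⟩
      rcases eq_or_lt_of_le g1 with g4 | g4
      · rw [g4]
      · have g5 : ‖pos s l - (pos s i + 1 / 2)‖ ≤ ρ' := by
          calc ‖pos s l - (pos s i + 1 / 2)‖ = ‖(pos s l - pos s i) - 1 / 2‖ := by ring_nf
            _ ≤ ‖pos s l - pos s i‖ + ‖(1 / 2 : ℂ)‖ := norm_sub_le _ _
            _ ≤ ρ' := by
              rw [norm_half]
              have := (norm_nonneg _).trans hd
              linarith
        have := b5 l g4 (by omega) g5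
        linarith
    have key : ∀ l : ℕ, i ≤ l → l ≤ k → ‖pos s l - pos s i‖ < b := by
      refine drift hb hsl (by omega) fun l g1 g2 g3 => ?_
      obtain ⟨g4, g5⟩ := lev l g1 g2 g3
      rw [abs_le]
      constructor <;> linarith
    refine ⟨hik, sc_of hi' (by linarith) fun l hl => ?_, fun l g1 g2 => ⟨key l g1 g2, lev l g1 g2 (by linarith [key l g1 g2])⟩⟩
    refine b4 l hl ?_
    calc ‖pos s l - (pos s i + 1 / 2)‖ ≤ ‖pos s l‖ + ‖pos s i + 1 / 2‖ := norm_sub_le _ _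
      _ ≤ ‖pos s l‖ + (‖pos s i‖ + ‖(1 / 2 : ℂ)‖) := by gcongr; exact norm_add_le _ _
      _ ≤ ρ' := by
        rw [norm_half]
        linarith [hQ l (by omega), hQ i hik.le]

/-- **(A): four start cuts around a start cut** -/
theorem stabA {n : ℕ} {s : Fin n → Fin 3} {ρ r b bs E0 T0 E1 T1 E2 T2 Q Q' : ℝ} {c : ℕ} (hc : SC ρ s c)
    (hQ : ∀ i : ℕ, i ≤ c → ‖pos s i‖ ≤ Q) (hQ' : Q + b ≤ Q')
    (i0 : ∀ k : ℕ, ‖pos s k‖ ≤ Q' → WC r s k → ∃ i : ℕ, WC (r - b) s i ∧ ‖pos s i - pos s k‖ ≤ b / 2 ∧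
      T0 ≤ |(pos s i).re - (pos s k).re| ∧ |(pos s i).re - (pos s k).re| ≤ E0)
    (i1 : ∀ k : ℕ, ‖pos s k‖ ≤ Q' → WC r s k → ∃ i : ℕ, WC (r - b) s i ∧ ‖pos s i - pos s k‖ ≤ b / 2 ∧
      T1 ≤ |(pos s i).re - (pos s k).re| ∧ |(pos s i).re - (pos s k).re| ≤ E1)
    (i2 : ∀ k : ℕ, ‖pos s k‖ ≤ Q' → WC (r - b) s k → ∃ i : ℕ, WC (r - b - b) s i ∧ ‖pos s i - pos s k‖ ≤ b / 2 ∧
      T2 ≤ |(pos s i).re - (pos s k).re| ∧ |(pos s i).re - (pos s k).re| ≤ E2)
    (hsl : ∀ i j : ℕ, i ≤ j → j ≤ n → (∀ l : ℕ, i ≤ l → l ≤ j → |(pos s l).re - (pos s i).re| ≤ 2 * E0) →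
      ‖pos s j - pos s i‖ < bs)
    (hbs : 1 ≤ bs) (hbb : bs ≤ b) (hr : r + 1 ≤ ρ) (hrQ : 2 * Q + 6 * b ≤ r) (hT2 : 0 < T2) (hE2 : 2 * E2 ≤ T1)
    (hE1 : 2 * E1 ≤ T0) (hb2 : 2 ≤ b) (hQ0 : 0 ≤ Q) :
    ∃ x0 x1 x2 x3 : ℕ, Four s (r - 2 * b - 1) (T1 - E2) T2 E2 bs x0 x1 x2 x3 ∧ x0 ≤ c ∧ c ≤ x3 ∧
      ∀ l : ℕ, x0 ≤ l → l ≤ x3 → (pos s x0).re ≤ (pos s l).re ∧ (pos s l).re ≤ (pos s x0).re + 2 * E0 := by
  have hcQ : ‖pos s c‖ ≤ Q' := (hQ c le_rfl).trans (by linarith)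
  obtain ⟨c1, w1, d1, t1, e1⟩ := i0 c hcQ (hc.wc (by linarith))
  obtain ⟨c2, w2, d2, t2, e2⟩ := i1 c hcQ (hc.wc (by linarith))
  have hc2Q : ‖pos s c2‖ ≤ Q' := by
    calc ‖pos s c2‖ = ‖(pos s c2 - pos s c) + pos s c‖ := by ring_nf
      _ ≤ ‖pos s c2 - pos s c‖ + ‖pos s c‖ := norm_add_le _ _
      _ ≤ Q' := by linarith [hQ c le_rfl]
  have hT2E : T2 ≤ E2 := by
    obtain ⟨i, _, _, g1, g2⟩ := i2 c hcQ (hc.wc (by linarith))
    exact g1.trans g2
  have hT1E : T1 ≤ E1 := t2.trans e2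
  have hT0E : T0 ≤ E0 := t1.trans e1
  -- the slab property at the smaller widths
  have slE : ∀ E : ℝ, E ≤ 2 * E0 → ∀ i j : ℕ, i ≤ j → j ≤ n →
      (∀ l : ℕ, i ≤ l → l ≤ j → |(pos s l).re - (pos s i).re| ≤ E) → ‖pos s j - pos s i‖ < bs :=
    fun E hE i j h1 h2 h3 => hsl i j h1 h2 fun l h4 h5 => (h3 l h4 h5).trans hE
  -- the four start cuts from their levels
  have mk : ∀ x0 x1 x2 x3 : ℕ, SC (r - 2 * b - 1) s x0 → SC (r - 2 * b - 1) s x1 → SC (r - 2 * b - 1) s x2 →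
      SC (r - 2 * b - 1) s x3 → (pos s x0).re + (T1 - E2) ≤ (pos s x1).re → (pos s x1).re + T2 ≤ (pos s x2).re →
      (pos s x2).re ≤ (pos s x1).re + E2 → (pos s x2).re + (T1 - E2) ≤ (pos s x3).re → x0 ≤ c → c ≤ x3 →
      (∀ l : ℕ, x0 ≤ l → l ≤ x3 → (pos s x0).re ≤ (pos s l).re ∧ (pos s l).re ≤ (pos s x3).re) →
      (pos s x3).re ≤ (pos s x0).re + 2 * E0 → ∃ x0 x1 x2 x3 : ℕ, Four s (r - 2 * b - 1) (T1 - E2) T2 E2 bs x0 x1 x2 x3 ∧
        x0 ≤ c ∧ c ≤ x3 ∧
        ∀ l : ℕ, x0 ≤ l → l ≤ x3 → (pos s x0).re ≤ (pos s l).re ∧ (pos s l).re ≤ (pos s x0).re + 2 * E0 := by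
    intro x0 x1 x2 x3 s0 s1 s2 s3 g1 g2 g3 g4 h1 h2 h3 h4
    have o1 : x0 < x1 := lt_of_lev s0.2.1 (by linarith)
    have o2 : x1 < x2 := lt_of_lev s1.2.1 (by linarith)
    have o3 : x2 < x3 := lt_of_lev s2.2.1 (by linarith)
    have hx3 : x3 ≤ n := s3.2.2.1.le
    refine ⟨x0, x1, x2, x3, ⟨o1.le, o2.le, o3.le, s0, s1, s2, s3, g1, g2, g3, g4, fun i a1 a2 => ?_⟩, h1, h2,
      fun l a1 a2 => ⟨(h3 l a1 a2).1, (h3 l a1 a2).2.trans h4⟩⟩
    refine (hsl x0 i a1 (a2.trans hx3) fun l b1 b2 => ?_).le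
    obtain ⟨u1, u2⟩ := h3 l b1 (b2.trans a2)
    rw [abs_le]
    constructor <;> linarith
  have hcs : SC (r - 2 * b - 1) s c := sc_le hc (by linarith)
  have n1 := nbr (b := bs) (E := E0) hbs (slE E0 (by linarith)) hc w1 d1 e1 hQ (by linarith) (by linarith) (by linarith)
    (by linarith)
  have n2 := nbr (b := bs) (E := E1) hbs (slE E1 (by linarith)) hc w2 d2 e2 hQ (by linarith) (by linarith) (by linarith)
    (by linarith)
  have n3 := fun (i : ℕ) (w : WC (r - b - b) s i) (d : ‖pos s i - pos s c‖ ≤ b / 2)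
      (e : |(pos s i).re - (pos s c).re| ≤ E2) =>
    nbr (b := bs) (E := E2) hbs (slE E2 (by linarith)) hc w d e hQ (by linarith) (by linarith) (by linarith) (by linarith)
  have a1 : T0 ≤ (pos s c1).re - (pos s c).re ∨ (pos s c1).re - (pos s c).re ≤ -T0 := by
    rcases le_abs'.1 t1 with h | h
    · exact Or.inr h
    · exact Or.inl h
  have a2 : T1 ≤ (pos s c2).re - (pos s c).re ∨ (pos s c2).re - (pos s c).re ≤ -T1 := by
    rcases le_abs'.1 t2 with h | h
    · exact Or.inr h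
    · exact Or.inl h
  have b1 := abs_le.1 e1
  have b2 := abs_le.1 e2
  rcases a1 with a1 | a1 <;> rcases a2 with a2 | a2
  · -- both to the right: the third one near c2
    obtain ⟨o1, s1, m1⟩ := n1.1 (by linarith)
    obtain ⟨o2, s2, m2⟩ := n2.1 (by linarith)
    have hQ2 : ∀ j : ℕ, j ≤ c2 → ‖pos s j‖ ≤ Q + b := by
      intro j hj
      rcases Nat.lt_or_ge j c with g | g
      · linarith [hQ j g.le]
      · have h5 := (m2 j g hj).1
        calc ‖pos s j‖ = ‖(pos s j - pos s c) + pos s c‖ := by ring_nf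
          _ ≤ ‖pos s j - pos s c‖ + ‖pos s c‖ := norm_add_le _ _
          _ ≤ Q + b := by linarith [hQ c le_rfl]
    obtain ⟨i, w3, d3, t3, e3⟩ := i2 c2 hc2Q w2
    have n4 := nbr (b := bs) (E := E2) hbs (slE E2 (by linarith)) s2 w3 d3 e3 hQ2 (by linarith) (by linarith) (by linarith)
      (by linarith)
    have b3 := abs_le.1 e3
    have s1' : SC (r - 2 * b - 1) s c1 := sc_le s1 (by linarith)
    have s2' : SC (r - 2 * b - 1) s c2 := sc_le s2 (by linarith)
    rcases le_abs'.1 t3 with h | h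
    · obtain ⟨o3, s3, m3⟩ := n4.2 (by linarith)
      exact mk c i c2 c1 hcs (sc_le s3 (by linarith)) s2' s1' (by linarith) (by linarith) (by linarith) (by linarith) le_rfl
        o1.le (fun l g1 g2 => (m1 l g1 g2).2) (by linarith)
    · obtain ⟨o3, s3, m3⟩ := n4.1 (by linarith)
      exact mk c c2 i c1 hcs s2' (sc_le s3 (by linarith)) s1' (by linarith) (by linarith) (by linarith) (by linarith) le_rfl
        o1.le (fun l g1 g2 => (m1 l g1 g2).2) (by linarith)
  · -- c1 to the right, c2 to the left: the third one near c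
    obtain ⟨o1, s1, m1⟩ := n1.1 (by linarith)
    obtain ⟨o2, s2, m2⟩ := n2.2 (by linarith)
    obtain ⟨i, w3, d3, t3, e3⟩ := i2 c hcQ (hc.wc (by linarith))
    have n4 := n3 i w3 d3 e3
    have b3 := abs_le.1 e3
    have s1' : SC (r - 2 * b - 1) s c1 := sc_le s1 (by linarith)
    have s2' : SC (r - 2 * b - 1) s c2 := sc_le s2 (by linarith)
    have hbt : ∀ l : ℕ, c2 ≤ l → l ≤ c1 → (pos s c2).re ≤ (pos s l).re ∧ (pos s l).re ≤ (pos s c1).re := by
      intro l g1 g2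
      rcases Nat.lt_or_ge l c with g | g
      · have := (m2 l g1 g.le).2
        exact ⟨this.1, by linarith [this.2]⟩
      · have := (m1 l g g2).2
        exact ⟨by linarith [this.1], this.2⟩
    rcases le_abs'.1 t3 with h | h
    · obtain ⟨o3, s3, m3⟩ := n4.2 (by linarith)
      exact mk c2 i c c1 s2' (sc_le s3 (by linarith)) hcs s1' (by linarith) (by linarith) (by linarith) (by linarith) o2.le
        o1.le hbt (by linarith)
    · obtain ⟨o3, s3, m3⟩ := n4.1 (by linarith)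
      exact mk c2 c i c1 s2' hcs (sc_le s3 (by linarith)) s1' (by linarith) (by linarith) (by linarith) (by linarith) o2.le
        o1.le hbt (by linarith)
  · -- c1 to the left, c2 to the right: the third one near c
    obtain ⟨o1, s1, m1⟩ := n1.2 (by linarith)
    obtain ⟨o2, s2, m2⟩ := n2.1 (by linarith)
    obtain ⟨i, w3, d3, t3, e3⟩ := i2 c hcQ (hc.wc (by linarith))
    have n4 := n3 i w3 d3 e3
    have b3 := abs_le.1 e3
    have s1' : SC (r - 2 * b - 1) s c1 := sc_le s1 (by linarith)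
    have s2' : SC (r - 2 * b - 1) s c2 := sc_le s2 (by linarith)
    have hbt : ∀ l : ℕ, c1 ≤ l → l ≤ c2 → (pos s c1).re ≤ (pos s l).re ∧ (pos s l).re ≤ (pos s c2).re := by
      intro l g1 g2
      rcases Nat.lt_or_ge l c with g | g
      · have := (m1 l g1 g.le).2
        exact ⟨this.1, by linarith [this.2]⟩
      · have := (m2 l g g2).2
        exact ⟨by linarith [this.1], this.2⟩
    rcases le_abs'.1 t3 with h | h
    · obtain ⟨o3, s3, m3⟩ := n4.2 (by linarith)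
      exact mk c1 i c c2 s1' (sc_le s3 (by linarith)) hcs s2' (by linarith) (by linarith) (by linarith) (by linarith) o1.le
        o2.le hbt (by linarith)
    · obtain ⟨o3, s3, m3⟩ := n4.1 (by linarith)
      exact mk c1 c i c2 s1' hcs (sc_le s3 (by linarith)) s2' (by linarith) (by linarith) (by linarith) (by linarith) o1.le
        o2.le hbt (by linarith)
  · -- both to the left: the third one near c2
    obtain ⟨o1, s1, m1⟩ := n1.2 (by linarith)
    obtain ⟨o2, s2, m2⟩ := n2.2 (by linarith)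
    obtain ⟨i, w3, d3, t3, e3⟩ := i2 c2 hc2Q w2
    have n4 := nbr (b := bs) (E := E2) (Q := Q) hbs (slE E2 (by linarith)) s2 w3 d3 e3 (fun j hj => hQ j (by omega))
      (by linarith) (by linarith) (by linarith) (by linarith)
    have b3 := abs_le.1 e3
    have s1' : SC (r - 2 * b - 1) s c1 := sc_le s1 (by linarith)
    have s2' : SC (r - 2 * b - 1) s c2 := sc_le s2 (by linarith)
    rcases le_abs'.1 t3 with h | h
    · obtain ⟨o3, s3, m3⟩ := n4.2 (by linarith)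
      exact mk c1 i c2 c s1' (sc_le s3 (by linarith)) s2' hcs (by linarith) (by linarith) (by linarith) (by linarith) o1.le
        le_rfl (fun l g1 g2 => (m1 l g1 g2).2) (by linarith)
    · obtain ⟨o3, s3, m3⟩ := n4.1 (by linarith)
      exact mk c1 c2 i c s1' s2' (sc_le s3 (by linarith)) hcs (by linarith) (by linarith) (by linarith) (by linarith) o1.le
        le_rfl (fun l g1 g2 => (m1 l g1 g2).2) (by linarith)

/-- the start piece of the first of the four cuts -/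
lemma dm_x0 {n : ℕ} {s : Fin n → Fin 3} {a b : ℝ} {x c y : ℕ} (hxc : x ≤ c) (hcy : c ≤ y) (hb : 2 * b < a)
    (near : ∀ i : ℕ, x ≤ i → i ≤ y → ‖pos s i - pos s x‖ ≤ b) (h : DmG a s c) : DmG (a - 2 * b) s x := by
  obtain ⟨i, j, hi, hj, hd⟩ := h
  have hb0 : 0 ≤ b := (norm_nonneg _).trans (near x le_rfl (by omega))
  rcases Nat.lt_or_ge x i with g1 | g1 <;> rcases Nat.lt_or_ge x j with g2 | g2
  · exfalso
    have h1 := near i g1.le (by omega)
    have h2 := near j g2.le (by omega)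
    have : ‖pos s i - pos s j‖ ≤ 2 * b := by
      calc ‖pos s i - pos s j‖ = ‖(pos s i - pos s x) - (pos s j - pos s x)‖ := by ring_nf
        _ ≤ ‖pos s i - pos s x‖ + ‖pos s j - pos s x‖ := norm_sub_le _ _
        _ ≤ 2 * b := by linarith
    linarith
  · refine ⟨x, j, le_rfl, g2, ?_⟩
    have h1 := near i g1.le (by omega)
    have : ‖pos s i - pos s j‖ ≤ ‖pos s x - pos s j‖ + b := by
      calc ‖pos s i - pos s j‖ = ‖(pos s i - pos s x) + (pos s x - pos s j)‖ := by ring_nf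
        _ ≤ ‖pos s i - pos s x‖ + ‖pos s x - pos s j‖ := norm_add_le _ _
        _ ≤ ‖pos s x - pos s j‖ + b := by linarith
    linarith
  · refine ⟨i, x, g1, le_rfl, ?_⟩
    have h1 := near j g2.le (by omega)
    have : ‖pos s i - pos s j‖ ≤ ‖pos s i - pos s x‖ + b := by
      calc ‖pos s i - pos s j‖ = ‖(pos s i - pos s x) - (pos s j - pos s x)‖ := by ring_nf
        _ ≤ ‖pos s i - pos s x‖ + ‖pos s j - pos s x‖ := norm_sub_le _ _
        _ ≤ ‖pos s i - pos s x‖ + b := by linarith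
    linarith
  · exact ⟨i, j, g1, g2, by linarith⟩

/-- the walk behind the last of the four cuts -/
lemma away_x3 {n : ℕ} {s : Fin n → Fin 3} {a b : ℝ} {x c y : ℕ} (hxc : x ≤ c) (hcy : c ≤ y) (hb : 2 * b < a)
    (near : ∀ i : ℕ, x ≤ i → i ≤ y → ‖pos s i - pos s x‖ ≤ b) (h : ∃ j : ℕ, c ≤ j ∧ j ≤ n ∧ a ≤ ‖pos s j - pos s c‖) :
    ∃ j : ℕ, y ≤ j ∧ j ≤ n ∧ a - 2 * b ≤ ‖pos s j - pos s y‖ := by
  obtain ⟨j, hj, hjn, hd⟩ := h
  have h1 := near c hxc hcy
  have h2 := near y (hxc.trans hcy) le_rfl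
  rcases Nat.lt_or_ge j y with g | g
  · exfalso
    have h3 := near j (by omega) g.le
    have : ‖pos s j - pos s c‖ ≤ 2 * b := by
      calc ‖pos s j - pos s c‖ = ‖(pos s j - pos s x) - (pos s c - pos s x)‖ := by ring_nf
        _ ≤ ‖pos s j - pos s x‖ + ‖pos s c - pos s x‖ := norm_sub_le _ _
        _ ≤ 2 * b := by linarith
    linarith
  · refine ⟨j, g, hjn, ?_⟩
    have : ‖pos s j - pos s c‖ ≤ ‖pos s j - pos s y‖ + 2 * b := by
      calc ‖pos s j - pos s c‖ = ‖(pos s j - pos s y) + ((pos s y - pos s x) - (pos s c - pos s x))‖ := by ring_nf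
        _ ≤ ‖pos s j - pos s y‖ + ‖(pos s y - pos s x) - (pos s c - pos s x)‖ := norm_add_le _ _
        _ ≤ ‖pos s j - pos s y‖ + (‖pos s y - pos s x‖ + ‖pos s c - pos s x‖) := by gcongr; exact norm_sub_le _ _
        _ ≤ ‖pos s j - pos s y‖ + 2 * b := by linarith
    linarith

end Pool.Agent.SCF.M
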