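import Pool.Agent.SCF.MDefs
import Pool.Agent.SCF.Uniq
import Pool.Agent.SCF.StabA
import Pool.Agent.CRT.RPerfA

/-!
# ScaleFlow, row MAC, geometry 1 (helper66): closeness of two walks, start cuts

* `Cl β ν s s'` : the positions at times within `β` are within `ν` (units of the sizes); `cl_of` : from the curves and a modulus;
* `SC.pre` : a cut of the start piece of a start cut is a start cut; `SC.scut` : conversely.
-/

set_option autoImplicit false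

open Set Filter Topology MeasureTheory

namespace Pool.Agent.SCF.M

open Pool.Agent.NTS.Res
open Pool.Agent.CRT (CI)
open Pool.Agent.SCF.Z

/-! ### times -/

lemma tm_mid {n n' k k2 k' k2' i : ℕ} (hn : 1 ≤ n) (hn' : 1 ≤ n') {β : ℝ} (hβ : 0 ≤ β) (hk : k' ≤ k2')
    (h1 : |(k : ℝ) / n - (k' : ℝ) / n'| ≤ β) (h2 : |(k2 : ℝ) / n - (k2' : ℝ) / n'| ≤ β) (hi1 : k ≤ i) (hi2 : i ≤ k2) :
    ∃ i' : ℕ, k' ≤ i' ∧ i' ≤ k2' ∧ |(i : ℝ) / n - (i' : ℝ) / n'| ≤ β + 1 / n' := by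
  have hn0 : (0 : ℝ) < n := by exact_mod_cast hn
  have hn0' : (0 : ℝ) < n' := by exact_mod_cast hn'
  have hp : (0 : ℝ) < 1 / n' := by positivity
  have g1 : (k : ℝ) / n ≤ (i : ℝ) / n := div_le_div_of_nonneg_right (by exact_mod_cast hi1) hn0.le
  have g2 : (i : ℝ) / n ≤ (k2 : ℝ) / n := div_le_div_of_nonneg_right (by exact_mod_cast hi2) hn0.le
  have h1' := abs_le.1 h1
  have h2' := abs_le.1 h2
  obtain ⟨f, hf⟩ : ∃ f : ℕ, f = ⌊(i : ℝ) / n * n'⌋₊ := ⟨_, rfl⟩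
  have f1 : (f : ℝ) ≤ (i : ℝ) / n * n' := by rw [hf]; exact Nat.floor_le (by positivity)
  have f2 : (i : ℝ) / n * n' < (f : ℝ) + 1 := by rw [hf]; exact Nat.lt_floor_add_one _
  have f3 : (f : ℝ) / n' ≤ (i : ℝ) / n := by rw [div_le_iff₀ hn0']; exact f1
  have f4 : (i : ℝ) / n < (f : ℝ) / n' + 1 / n' := by rw [← add_div, lt_div_iff₀ hn0']; exact f2
  rcases lt_or_ge f k' with c1 | c1
  · refine ⟨k', le_rfl, hk, ?_⟩
    have e1 : ((f : ℝ) + 1) / n' ≤ (k' : ℝ) / n' := div_le_div_of_nonneg_right (by exact_mod_cast c1) hn0'.le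
    rw [add_div] at e1
    rw [abs_le]
    constructor <;> linarith
  · rcases lt_or_ge k2' f with c2 | c2
    · refine ⟨k2', hk, le_rfl, ?_⟩
      have e1 : (k2' : ℝ) / n' ≤ (f : ℝ) / n' := div_le_div_of_nonneg_right (by exact_mod_cast c2.le) hn0'.le
      rw [abs_le]
      constructor <;> linarith
    · refine ⟨f, c1, c2, ?_⟩
      rw [abs_le]
      constructor <;> linarith

/-! ### closeness -/

/-- closeness of two walks, in units of their sizes -/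
def Cl (β ν : ℝ) {n n' : ℕ} (s : Fin n → Fin 3) (s' : Fin n' → Fin 3) : Prop :=
  ∀ i i' : ℕ, i ≤ n → i' ≤ n' → |(i : ℝ) / n - (i' : ℝ) / n'| ≤ β → ‖pos s i / (size n : ℂ) - pos s' i' / (size n' : ℂ)‖ ≤ ν

lemma Cl.symm {β ν : ℝ} {n n' : ℕ} {s : Fin n → Fin 3} {s' : Fin n' → Fin 3} (h : Cl β ν s s') : Cl β ν s' s :=
  fun i i' h1 h2 h3 => by
    rw [norm_sub_rev]
    exact h i' i h2 h1 (by rwa [abs_sub_comm])

lemma nrm_div {n : ℕ} (hn : 1 ≤ n) (z : ℂ) : ‖z / (size n : ℂ)‖ = ‖z‖ / size n := by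
  rw [norm_div, Complex.norm_real, Real.norm_eq_abs, abs_of_pos (NTSF.size_pos hn)]

lemma X_le {n : ℕ} (hn : 1 ≤ n) {z w : ℂ} {c : ℝ} : ‖z / (size n : ℂ) - w / (size n : ℂ)‖ ≤ c ↔ ‖z - w‖ ≤ c * size n := by
  rw [← sub_div, nrm_div hn, div_le_iff₀ (NTSF.size_pos hn)]

lemma X_ge {n : ℕ} (hn : 1 ≤ n) {z w : ℂ} {c : ℝ} : c ≤ ‖z / (size n : ℂ) - w / (size n : ℂ)‖ ↔ c * size n ≤ ‖z - w‖ := by
  rw [← sub_div, nrm_div hn, le_div_iff₀ (NTSF.size_pos hn)]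

lemma X_le0 {n : ℕ} (hn : 1 ≤ n) {z : ℂ} {c : ℝ} : ‖z / (size n : ℂ)‖ ≤ c ↔ ‖z‖ ≤ c * size n := by
  rw [nrm_div hn, div_le_iff₀ (NTSF.size_pos hn)]

lemma X_re {n : ℕ} (z : ℂ) : (z / (size n : ℂ)).re = z.re / size n := Complex.div_ofReal_re z (size n)

/-- a node near a time -/
lemma curve_flr {n : ℕ} (hn : 1 ≤ n) (s : Fin n → Fin 3) (u : unitInterval) :
    ∃ i : ℕ, i ≤ n ∧ |(u : ℝ) - (i : ℝ) / n| ≤ 1 / n ∧ ‖curve s u - pos s i / (size n : ℂ)‖ ≤ 1 / size n := by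
  obtain ⟨i, a, hi, h0, h1, h2, h3, h4⟩ := NTSF.curve_apply hn s u
  have hs := NTSF.size_pos hn
  have hn0 : (0 : ℝ) < n := by exact_mod_cast hn
  refine ⟨i, hi.le, ?_, ?_⟩
  · have e : (u : ℝ) - (i : ℝ) / n = ((u : ℝ) * n - i) / n := by field_simp
    rw [e, abs_div, abs_of_pos hn0, abs_of_nonneg (by linarith)]
    exact div_le_div_of_nonneg_right (by linarith) hn0.le
  · rw [h4, ← sub_div, nrm_div hn]
    refine div_le_div_of_nonneg_right ?_ hs.le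
    have e : ((1 - a : ℝ) : ℂ) * pos s i + (a : ℂ) * pos s (i + 1) - pos s i = (a : ℂ) * (pos s (i + 1) - pos s i) := by
      push_cast
      ring
    rw [e, norm_mul, NTSF.pos_succ s i hi, add_sub_cancel_left, Pool.Agent.CRT.R.norm_step, mul_one, Complex.norm_real,
      Real.norm_eq_abs, abs_of_nonneg h0]
    exact h1

/-- **closeness from the curves and a modulus** -/
theorem cl_of {n n' : ℕ} (hn : 1 ≤ n) (hn' : 1 ≤ n') {s : Fin n → Fin 3} {s' : Fin n' → Fin 3} {δ η ω β ν : ℝ}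
    (hd : dist (curve s) (curve s') ≤ δ) (hm : Md η ω s') (h1 : β + 1 / n' ≤ η) (h2 : δ + 1 / size n' + ω ≤ ν) :
    Cl β ν s s' := by
  intro i i' hi hi' h
  obtain ⟨u, hu, hcu⟩ := Pool.Agent.CRT.R.curve_at hn s hi
  obtain ⟨j, hj, hj1, hj2⟩ := curve_flr hn' s' u
  have hn0' : (0 : ℝ) < n' := by exact_mod_cast hn'
  rw [← hcu]
  have a1 : ‖curve s u - curve s' u‖ ≤ δ := by
    rw [← dist_eq_norm]
    exact (ContinuousMap.dist_apply_le_dist u).trans hd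
  have a3 : |(i' : ℝ) / n' - (j : ℝ) / n'| ≤ β + 1 / n' := by
    have : (i' : ℝ) / n' - (j : ℝ) / n' = -((u : ℝ) - (i' : ℝ) / n') + ((u : ℝ) - (j : ℝ) / n') := by ring
    rw [this]
    refine (abs_add_le _ _).trans ?_
    rw [abs_neg, hu] at *
    linarith
  have a4 : ‖pos s' j / (size n' : ℂ) - pos s' i' / (size n' : ℂ)‖ ≤ ω := by
    rw [X_le hn']
    rw [← sub_div, abs_div, abs_of_pos hn0', div_le_iff₀ hn0'] at a3
    have a5 := a3.trans (mul_le_mul_of_nonneg_right h1 hn0'.le)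
    rcases le_total i' j with h5 | h5
    · exact hm i' j h5 hj (by have := abs_le.1 a5; linarith)
    · rw [norm_sub_rev]
      exact hm j i' h5 hi' (by have := abs_le.1 a5; linarith)
  calc ‖curve s u - pos s' i' / (size n' : ℂ)‖ = ‖(curve s u - curve s' u) + (curve s' u - pos s' j / (size n' : ℂ)) +
        (pos s' j / (size n' : ℂ) - pos s' i' / (size n' : ℂ))‖ := by congr 1; ring
    _ ≤ δ + 1 / size n' + ω := (norm_add_le _ _).trans (add_le_add ((norm_add_le _ _).trans (add_le_add a1 hj2)) a4)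
    _ ≤ ν := h2

/-! ### start cuts -/

lemma SC.lt {ρ : ℝ} {n : ℕ} {s : Fin n → Fin 3} {k : ℕ} (h : SC ρ s k) : k < n := h.2.2.1

lemma SC.mono {ρ ρ' : ℝ} {n : ℕ} {s : Fin n → Fin 3} {k : ℕ} (h : SC ρ s k) (hρ : ρ' ≤ ρ) : SC ρ' s k :=
  ⟨h.1, h.2.1, h.2.2.1, h.2.2.2.1, fun j h1 h2 h3 => h.2.2.2.2 j h1 h2 (h3.trans hρ)⟩

lemma dmg_mono {a a' : ℝ} {n : ℕ} {s : Fin n → Fin 3} {k k' : ℕ} (h : DmG a s k) (ha : a' ≤ a) (hk : k ≤ k') : DmG a' s k' := by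
  obtain ⟨i, j, h1, h2, h3⟩ := h
  exact ⟨i, j, h1.trans hk, h2.trans hk, ha.trans h3⟩

/-- a cut of the start piece of a start cut is a start cut -/
lemma SC.pre {ρ D : ℝ} {n : ℕ} {s : Fin n → Fin 3} {k c : ℕ} (h : SC ρ s k) (hc : SCut s 0 c k)
    (hD : ∀ i : ℕ, i ≤ k → ‖pos s i‖ ≤ D) : SC (ρ - 2 * D) s c := by
  obtain ⟨-, h2, h3, h4, h5, h6⟩ := hc
  refine ⟨h3, fun i hi => h5 i (Nat.zero_le _) hi, h2.trans h.lt, h4, fun j hj hjn hd => ?_⟩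
  rcases le_or_gt j k with h7 | h7
  · exact h6 j hj h7
  · have h8 := h.2.2.2.2 j h7 hjn (by
      calc ‖pos s j - pos s k‖ = ‖(pos s j - pos s c) + (pos s c - pos s k)‖ := by congr 1; ring
        _ ≤ ‖pos s j - pos s c‖ + (‖pos s c‖ + ‖pos s k‖) := (norm_add_le _ _).trans (add_le_add le_rfl (norm_sub_le _ _))
        _ ≤ ρ := by linarith [hD c h2.le, hD k le_rfl])
    have h9 := h.2.1 c h2.le
    linarith

/-- a start cut is a cut of every longer start piece in its window -/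
lemma SC.scut {ρ D : ℝ} {n : ℕ} {s : Fin n → Fin 3} {k c : ℕ} (h : SC ρ s c) (hck : c < k) (hk : k ≤ n)
    (hD : ∀ i : ℕ, i ≤ k → ‖pos s i‖ ≤ D) (hρ : 2 * D ≤ ρ) : SCut s 0 c k :=
  ⟨Nat.zero_le _, hck, h.1, h.2.2.2.1, fun i _ hi => h.2.1 i hi, fun j hj hjk => h.2.2.2.2 j hj (hjk.trans hk) (by
    refine (norm_sub_le _ _).trans ?_
    linarith [hD j hjk, hD c hck.le])⟩

end Pool.Agent.SCF.M
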