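import Pool.Agent.SCF.MacA

/-!
# ScaleFlow, row MAC, geometry 2 (helper66): first cuts, far strands

* `IA R s c` : the start cuts which are used; `ft n P` : time of the first `c` with `P c` (2: none);
* `VS B w s c` : the squares of side `w` visited by the walk behind the cut `c` and to the left of it; monotone in `c`;
* `SC.of_vs` : a start cut with fewer squares has almost the radius.
-/

set_option autoImplicit false

open Set Filter Topology MeasureTheory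

namespace Pool.Agent.SCF.M

open Pool.Agent.NTS.Res
open Pool.Agent.CRT (CI)
open Pool.Agent.SCF.Z

/-! ### first times -/

open Classical in
/-- the first time -/
noncomputable def ft (n : ℕ) (P : ℕ → Prop) : ℝ := if h : ∃ c, P c then ((Nat.find h : ℕ) : ℝ) / n else 2

lemma ft_nn (n : ℕ) (P : ℕ → Prop) : 0 ≤ ft n P := by
  unfold ft
  split_ifs
  · positivity
  · norm_num

lemma ft_of {n : ℕ} {P : ℕ → Prop} {c : ℕ} (hc : P c) : ft n P ≤ (c : ℝ) / n := by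
  classical
  have h : ∃ c, P c := ⟨c, hc⟩
  unfold ft
  rw [dif_pos h]
  exact div_le_div_of_nonneg_right (by exact_mod_cast Nat.find_min' h hc) (Nat.cast_nonneg _)

lemma ft_le {n : ℕ} (hn : 1 ≤ n) {P : ℕ → Prop} (hP : ∀ c, P c → c ≤ n) : ft n P ≤ 2 := by
  by_cases h : ∃ c, P c
  · obtain ⟨c, hc⟩ := h
    have hn0 : (0 : ℝ) < n := by exact_mod_cast hn
    have h1 := ft_of (n := n) hc
    have h2 : (c : ℝ) / n ≤ 1 := by
      rw [div_le_one hn0]
      exact_mod_cast hP c hc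
    linarith
  · unfold ft
    rw [dif_neg h]

lemma ft_ex {n : ℕ} {P : ℕ → Prop} (h : ft n P < 2) : ∃ c, P c ∧ (∀ c', c' < c → ¬ P c') ∧ ft n P = (c : ℝ) / n := by
  classical
  by_cases h1 : ∃ c, P c
  · refine ⟨Nat.find h1, Nat.find_spec h1, fun c' hc' => Nat.find_min h1 hc', ?_⟩
    unfold ft
    rw [dif_pos h1]
  · unfold ft at h
    rw [dif_neg h1] at h
    exact absurd h (lt_irrefl _)

lemma le_ft {n : ℕ} {P : ℕ → Prop} {x : ℝ} (h : ∀ c, P c → x ≤ (c : ℝ) / n) (hx : x ≤ 2) : x ≤ ft n P := by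
  by_contra hc
  obtain ⟨c, h1, -, h2⟩ := ft_ex (lt_of_lt_of_le (not_le.1 hc) hx)
  rw [h2] at hc
  exact hc (h c h1)

lemma ft_mono {n : ℕ} (hn : 1 ≤ n) {P P' : ℕ → Prop} (h : ∀ c, P c → P' c) (hP : ∀ c, P' c → c ≤ n) : ft n P' ≤ ft n P :=
  le_ft (fun c hc => ft_of (h c hc)) (ft_le hn hP)

/-! ### the start cuts which are used -/

/-- start cuts near the start, with a large start piece; `R` absolute -/
def IA (R : ℝ) {n : ℕ} (s : Fin n → Fin 3) (c : ℕ) : Prop :=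
  SC (40 * R) s c ∧ (∀ i : ℕ, i ≤ c → ‖pos s i‖ ≤ 3 * R) ∧ DmG (R / 8) s c

lemma IA.le {R : ℝ} {n : ℕ} {s : Fin n → Fin 3} {c : ℕ} (h : IA R s c) : c ≤ n := h.1.lt.le

lemma IA.scut {R : ℝ} (hR : 0 < R) {n : ℕ} {s : Fin n → Fin 3} {c c' : ℕ} (h : IA R s c) (h' : IA R s c') (hc : c < c') :
    SCut s 0 c c' := h.1.scut hc h'.le h'.2.1 (by linarith)

/-- the square of side `w` -/
noncomputable def cell (w : ℝ) (z : ℂ) : ℤ × ℤ := (⌊z.re / w⌋, ⌊z.im / w⌋)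

lemma cell_close {w : ℝ} (hw : 0 < w) {z z' : ℂ} (h : cell w z = cell w z') : ‖z - z'‖ ≤ 2 * w := by
  have key : ∀ x y : ℝ, ⌊x / w⌋ = ⌊y / w⌋ → |x - y| ≤ w := by
    intro x y hxy
    have h1 := Int.abs_sub_lt_one_of_floor_eq_floor hxy
    rw [← sub_div, abs_div, abs_of_pos hw, div_lt_one hw] at h1
    exact h1.le
  have h1 := key _ _ (congrArg Prod.fst h)
  have h2 := key _ _ (congrArg Prod.snd h)
  refine (Complex.norm_le_abs_re_add_abs_im _).trans ?_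
  rw [Complex.sub_re, Complex.sub_im]
  linarith

open Classical in
/-- the squares of the far strands to the left of the cut `c` -/
noncomputable def VS (B w : ℝ) {n : ℕ} (s : Fin n → Fin 3) (c : ℕ) : Finset (ℤ × ℤ) :=
  ((Finset.range (n + 1)).filter fun j => c < j ∧ (pos s j).re < (pos s c).re + 1 ∧ ‖pos s j‖ ≤ B).image fun j => cell w (pos s j)

lemma mem_vs {B w : ℝ} {n : ℕ} {s : Fin n → Fin 3} {c : ℕ} {q : ℤ × ℤ} :
    q ∈ VS B w s c ↔ ∃ j, j ≤ n ∧ c < j ∧ (pos s j).re < (pos s c).re + 1 ∧ ‖pos s j‖ ≤ B ∧ cell w (pos s j) = q := by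
  unfold VS
  simp only [Finset.mem_image, Finset.mem_filter, Finset.mem_range, Nat.lt_succ_iff]
  constructor
  · rintro ⟨j, ⟨h1, h2, h3, h4⟩, h5⟩
    exact ⟨j, h1, h2, h3, h4, h5⟩
  · rintro ⟨j, h1, h2, h3, h4, h5⟩
    exact ⟨j, ⟨h1, h2, h3, h4⟩, h5⟩

lemma vs_mono {B w : ℝ} {n : ℕ} {s : Fin n → Fin 3} {c c' : ℕ} (h : c = c' ∨ SCut s 0 c c') : VS B w s c ⊆ VS B w s c' := by
  rcases h with rfl | h
  · exact Finset.Subset.refl _
  · intro q hq
    rw [mem_vs] at hq ⊢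
    obtain ⟨j, h1, h2, h3, h4, h5⟩ := hq
    have h6 : c' < j := by
      by_contra hc
      have := h.2.2.2.2.2 j h2 (not_lt.1 hc)
      linarith
    have h7 := h.2.2.2.2.2 c' h.2.1 le_rfl
    exact ⟨j, h1, h6, by linarith, h4, h5⟩

lemma vs_card {B w K : ℝ} (hw : 0 < w) (hK : B ≤ K * w) {n : ℕ} (s : Fin n → Fin 3) (c : ℕ) :
    (VS B w s c).card ≤ (2 * ⌈K⌉₊ + 1) ^ 2 := by
  have hsub : VS B w s c ⊆ Finset.Icc (-(⌈K⌉₊ : ℤ)) (⌈K⌉₊ : ℤ) ×ˢ Finset.Icc (-(⌈K⌉₊ : ℤ)) (⌈K⌉₊ : ℤ) := by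
    intro q hq
    rw [mem_vs] at hq
    obtain ⟨j, -, -, -, h4, rfl⟩ := hq
    have key : ∀ x : ℝ, |x| ≤ B → ⌊x / w⌋ ∈ Finset.Icc (-(⌈K⌉₊ : ℤ)) (⌈K⌉₊ : ℤ) := by
      intro x hx
      have h1 : |x / w| ≤ K := by
        rw [abs_div, abs_of_pos hw, div_le_iff₀ hw]
        exact hx.trans hK
      have h2 := abs_le.1 h1
      have h3 : K ≤ (⌈K⌉₊ : ℝ) := Nat.le_ceil K
      rw [Finset.mem_Icc]
      constructor
      · rw [Int.le_floor]
        push_cast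
        linarith
      · have h5 : (⌊x / w⌋ : ℝ) ≤ x / w := Int.floor_le _
        have h6 : (⌊x / w⌋ : ℝ) ≤ ((⌈K⌉₊ : ℤ) : ℝ) := by
          push_cast
          linarith
        exact_mod_cast h6
    rw [Finset.mem_product]
    exact ⟨key _ ((Complex.abs_re_le_norm _).trans h4), key _ ((Complex.abs_im_le_norm _).trans h4)⟩
  refine (Finset.card_le_card hsub).trans (le_of_eq ?_)
  rw [Finset.card_product, Int.card_Icc, sq]
  congr 1 <;> omega

/-- the radius of a start cut with fewer squares -/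
lemma SC.of_vs {ρ ρ' r0 B w D : ℝ} (hw : 0 < w) {n : ℕ} {s : Fin n → Fin 3} {c c' : ℕ} (h : SC ρ s c) (h' : SC r0 s c')
    (hV : VS B w s c' ⊆ VS B w s c) (hD : ‖pos s c'‖ ≤ D) (hB : ρ' + D ≤ B) (hρ : ρ' + 2 * w + ‖pos s c' - pos s c‖ ≤ ρ) :
    SC ρ' s c' := by
  refine ⟨h'.1, h'.2.1, h'.lt, h'.2.2.2.1, fun j hj hjn hd => ?_⟩
  by_contra hc
  have hjB : ‖pos s j‖ ≤ B := by
    calc ‖pos s j‖ = ‖(pos s j - pos s c') + pos s c'‖ := by congr 1; ring
      _ ≤ ρ' + D := (norm_add_le _ _).trans (add_le_add hd hD)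
      _ ≤ B := hB
  obtain ⟨l, h1, h2, h3, -, h5⟩ := mem_vs.1 (hV (mem_vs.2 ⟨j, hjn, hj, not_le.1 hc, hjB, rfl⟩))
  have h6 := cell_close hw h5
  have h7 := h.2.2.2.2 l h2 h1 (by
    calc ‖pos s l - pos s c‖ = ‖(pos s l - pos s j) + (pos s j - pos s c') + (pos s c' - pos s c)‖ := by congr 1; ring
      _ ≤ 2 * w + ρ' + ‖pos s c' - pos s c‖ :=
        (norm_add_le _ _).trans (add_le_add ((norm_add_le _ _).trans (add_le_add h6 hd)) le_rfl)
      _ ≤ ρ := by linarith)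
  linarith

end Pool.Agent.SCF.M
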