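import Pool.Agent.SCF.MacB

/-!
# ScaleFlow, row MAC, geometry 3 (helper66): a start gate with a middle piece of `s` gives one of `s'`

**`t1_close`**: `s`, `s'` close, stability both ways, `T1` for `s` at `(k, k2)`; if the first times of `s'` do not jump near the
parameters then `T1` holds for `s'` at `(k', k2')`, with almost the same radii, at almost the same times.
-/

set_option autoImplicit false

open Set Filter Topology MeasureTheory

namespace Pool.Agent.SCF.M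

open Pool.Agent.NTS.Res
open Pool.Agent.CRT (CI)
open Pool.Agent.SCF.Z

/-- the start cuts with a start piece of diameter at least `a` (units of the size) -/
def P1 (R a : ℝ) {n : ℕ} (s : Fin n → Fin 3) (c : ℕ) : Prop := IA (R * size n) s c ∧ DmG (a * size n) s c

/-- the start cuts at a level at least `x` (units of the size) -/
def P2 (R x : ℝ) {n : ℕ} (s : Fin n → Fin 3) (c : ℕ) : Prop := IA (R * size n) s c ∧ x * size n ≤ (pos s c).re

open Classical in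
/-- the number of squares at the first time -/
noncomputable def qf (Q : ℝ) (f : ℕ → ℝ) (P : ℕ → Prop) : ℝ := if h : ∃ c, P c then f (Nat.find h) else Q

lemma qf_of {Q : ℝ} {f : ℕ → ℝ} {P : ℕ → Prop} {c : ℕ} (hc : P c) (hm : ∀ c', c' < c → ¬ P c') : qf Q f P = f c := by
  classical
  have h : ∃ c, P c := ⟨c, hc⟩
  have h1 : Nat.find h = c := by
    refine le_antisymm (Nat.find_min' h hc) ?_
    by_contra h2
    exact hm _ (not_le.1 h2) (Nat.find_spec h)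
  unfold qf
  rw [dif_pos h, h1]

lemma qf_no {Q : ℝ} {f : ℕ → ℝ} {P : ℕ → Prop} (h : ¬ ∃ c, P c) : qf Q f P = Q := by
  unfold qf
  rw [dif_neg h]

/-! ### transfer -/

section

variable {n n' : ℕ} {s : Fin n → Fin 3} {s' : Fin n' → Fin 3} {β ν t : ℝ}

lemma conf_tr (hn : 1 ≤ n) (hn' : 1 ≤ n') (hC : Cl β ν s s') (ht : 0 ≤ t) (hb : t + 1 / n ≤ β) {c c' : ℕ} (hc : c ≤ n) (hc' : c' ≤ n')
    (h : |(c : ℝ) / n - (c' : ℝ) / n'| ≤ t) {D : ℝ} (hD : ∀ i : ℕ, i ≤ c → ‖pos s i‖ ≤ D * size n) :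
    ∀ i : ℕ, i ≤ c' → ‖pos s' i‖ ≤ (D + ν) * size n' := by
  intro i hi
  obtain ⟨j, -, h1, h2⟩ := tm_mid (k := 0) (k2 := c') (k' := 0) (k2' := c) (i := i) hn' hn ht (Nat.zero_le _) (by simpa using ht)
    (by rwa [abs_sub_comm] at h) (Nat.zero_le _) hi
  have h3 := hC j i (h1.trans hc) (hi.trans hc') (by rw [abs_sub_comm]; exact h2.trans hb)
  rw [← X_le0 hn']
  have h4 := (X_le0 hn).2 (hD j h1)
  calc ‖pos s' i / (size n' : ℂ)‖ = ‖pos s j / (size n : ℂ) - (pos s j / (size n : ℂ) - pos s' i / (size n' : ℂ))‖ := by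
        congr 1; ring
    _ ≤ D + ν := (norm_sub_le _ _).trans (add_le_add h4 h3)

lemma diam_tr (hn : 1 ≤ n) (hn' : 1 ≤ n') (hC : Cl β ν s s') (ht : 0 ≤ t) (hb : t + 1 / n ≤ β) {c c' : ℕ} (hc : c ≤ n) (hc' : c' ≤ n')
    (h : |(c : ℝ) / n - (c' : ℝ) / n'| ≤ t) {D : ℝ} (hD : ∀ i j : ℕ, i ≤ c → j ≤ c → ‖pos s i - pos s j‖ ≤ D * size n) :
    ∀ i j : ℕ, i ≤ c' → j ≤ c' → ‖pos s' i - pos s' j‖ ≤ (D + 2 * ν) * size n' := by
  intro i j hi hj
  obtain ⟨i1, -, h1, h2⟩ := tm_mid (k := 0) (k2 := c') (k' := 0) (k2' := c) (i := i) hn' hn ht (Nat.zero_le _) (by simpa using ht)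
    (by rwa [abs_sub_comm] at h) (Nat.zero_le _) hi
  obtain ⟨j1, -, g1, g2⟩ := tm_mid (k := 0) (k2 := c') (k' := 0) (k2' := c) (i := j) hn' hn ht (Nat.zero_le _) (by simpa using ht)
    (by rwa [abs_sub_comm] at h) (Nat.zero_le _) hj
  have h3 := hC i1 i (h1.trans hc) (hi.trans hc') (by rw [abs_sub_comm]; exact h2.trans hb)
  have g3 := hC j1 j (g1.trans hc) (hj.trans hc') (by rw [abs_sub_comm]; exact g2.trans hb)
  rw [← X_le hn']
  have h4 := (X_le hn).2 (hD i1 j1 h1 g1)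
  calc ‖pos s' i / (size n' : ℂ) - pos s' j / (size n' : ℂ)‖ = ‖(pos s i1 / (size n : ℂ) - pos s j1 / (size n : ℂ)) -
        (pos s i1 / (size n : ℂ) - pos s' i / (size n' : ℂ)) + (pos s j1 / (size n : ℂ) - pos s' j / (size n' : ℂ))‖ := by
        congr 1; ring
    _ ≤ D + ν + ν := (norm_add_le _ _).trans (add_le_add ((norm_sub_le _ _).trans (add_le_add h4 h3)) g3)
    _ = D + 2 * ν := by ring

lemma dm_tr (hn : 1 ≤ n) (hn' : 1 ≤ n') (hC : Cl β ν s s') (ht : 0 ≤ t) (hb : t + 1 / n' ≤ β) {c c' : ℕ} (hc : c ≤ n) (hc' : c' ≤ n')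
    (h : |(c : ℝ) / n - (c' : ℝ) / n'| ≤ t) {a : ℝ} (hD : DmG (a * size n) s c) : DmG ((a - 2 * ν) * size n') s' c' := by
  obtain ⟨i, j, hi, hj, hij⟩ := hD
  obtain ⟨i1, -, h1, h2⟩ := tm_mid (k := 0) (k2 := c) (k' := 0) (k2' := c') (i := i) hn hn' ht (Nat.zero_le _) (by simpa using ht)
    h (Nat.zero_le _) hi
  obtain ⟨j1, -, g1, g2⟩ := tm_mid (k := 0) (k2 := c) (k' := 0) (k2' := c') (i := j) hn hn' ht (Nat.zero_le _) (by simpa using ht)
    h (Nat.zero_le _) hj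
  have h3 := hC i i1 (hi.trans hc) (h1.trans hc') (h2.trans hb)
  have g3 := hC j j1 (hj.trans hc) (g1.trans hc') (g2.trans hb)
  refine ⟨i1, j1, h1, g1, ?_⟩
  rw [← X_ge hn']
  have h4 := (X_ge hn).2 hij
  have h5 : ‖pos s i / (size n : ℂ) - pos s j / (size n : ℂ)‖ ≤ ν + ‖pos s' i1 / (size n' : ℂ) - pos s' j1 / (size n' : ℂ)‖ + ν := by
    calc ‖pos s i / (size n : ℂ) - pos s j / (size n : ℂ)‖ = ‖(pos s i / (size n : ℂ) - pos s' i1 / (size n' : ℂ)) +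
          (pos s' i1 / (size n' : ℂ) - pos s' j1 / (size n' : ℂ)) - (pos s j / (size n : ℂ) - pos s' j1 / (size n' : ℂ))‖ := by
          congr 1; ring
      _ ≤ _ := (norm_sub_le _ _).trans (add_le_add ((norm_add_le _ _).trans (add_le_add h3 le_rfl)) g3)
  linarith

end

/-! ### the gate of `s` -/

section

variable {n : ℕ} {s : Fin n → Fin 3} {R a r h L ρ : ℝ} {k k2 : ℕ}

lemma t1_conf (hn : 1 ≤ n) (hr : r ≤ 2 * R) (hL : L ≤ R / 4)
    (ht : T1 (a * size n) (r * size n) (h * size n) (L * size n) (ρ * size n) s k k2) :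
    ∀ i : ℕ, i ≤ k2 → ‖pos s i‖ ≤ 9 / 4 * R * size n := by
  have hs := NTSF.size_pos hn
  have h0 : ∀ i : ℕ, i ≤ k → ‖pos s i‖ ≤ 2 * R * size n := by
    intro i hi
    have h1 := ht.1.2.2.1 i 0 hi (Nat.zero_le _)
    rw [NTSF.pos_zero, sub_zero] at h1
    exact h1.trans (mul_le_mul_of_nonneg_right hr hs.le)
  have hR : 0 ≤ R * size n := by
    have h1 := (norm_nonneg _).trans (h0 0 (Nat.zero_le _))
    linarith
  have hL' : L * size n ≤ R / 4 * size n := mul_le_mul_of_nonneg_right hL hs.le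
  intro i hi
  rcases le_or_gt i k with h1 | h1
  · have := h0 i h1
    linarith
  · have h2 := ht.2.1.2.2.2.2.2.1 i h1.le hi
    calc ‖pos s i‖ = ‖(pos s i - pos s k) + pos s k‖ := by congr 1; ring
      _ ≤ L * size n + 2 * R * size n := (norm_add_le _ _).trans (add_le_add h2 (h0 k le_rfl))
      _ ≤ 9 / 4 * R * size n := by linarith

lemma t1_sc2 {a r h L ρ : ℝ} (ht : T1 a r h L ρ s k k2) : SC ρ s k2 := by
  refine ⟨ht.2.1.2.1, fun i hi => ?_, ht.2.2⟩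
  rcases le_or_gt i k with h1 | h1
  · exact (ht.1.2.1 i h1).trans (ht.2.1.2.2.2.2.1 k le_rfl ht.2.1.1.le)
  · exact ht.2.1.2.2.2.2.1 i h1.le hi

lemma t1_cut {a r h L ρ : ℝ} (ht : T1 a r h L ρ s k k2) : SCut s 0 k k2 :=
  ⟨Nat.zero_le _, ht.2.1.1, ht.1.1, ht.2.1.2.2.1, fun i _ hi => ht.1.2.1 i hi, ht.2.1.2.2.2.1⟩

lemma t1_sc1 (hn : 1 ≤ n) (hr : r ≤ 2 * R) (hL : L ≤ R / 4)
    (ht : T1 (a * size n) (r * size n) (h * size n) (L * size n) (ρ * size n) s k k2) : SC ((ρ - 9 / 2 * R) * size n) s k := by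
  have h1 := (t1_sc2 ht).pre (t1_cut ht) (t1_conf hn hr hL ht)
  exact h1.mono (le_of_eq (by ring))

end

/-! ### from `s` to `s'` -/

section

variable {n n' : ℕ} {s : Fin n → Fin 3} {s' : Fin n' → Fin 3} {R θ βb νb a r h L ρ : ℝ} {k k2 : ℕ}

/-- a start cut of `s'` near a start cut of `s` -/
lemma mate (hn : 1 ≤ n) (hn' : 1 ≤ n') (hR : 0 < R) (hC : Cl βb νb s s') (hS : Stb R θ s s') (hθ : 0 < θ) (hθR : θ ≤ R / 8)
    (hν : νb ≤ R / 32) (hb : θ + 1 / n ≤ βb) (hb' : θ + 1 / n' ≤ βb) {ρc : ℝ} {c : ℕ} (hρ1 : 41 * R ≤ ρc) (hρ2 : ρc ≤ 130 * R)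
    (hc : SC (ρc * size n) s c) (hD : ∀ i : ℕ, i ≤ c → ‖pos s i‖ ≤ 9 / 4 * R * size n) (ha : R / 4 ≤ a) (hdm : DmG (a * size n) s c) :
    ∃ c' : ℕ, SC ((ρc - θ) * size n') s' c' ∧ P1 R (a - 2 * νb) s' c' ∧ |(c : ℝ) / n - (c' : ℝ) / n'| ≤ θ ∧
      ‖pos s c / (size n : ℂ) - pos s' c' / (size n' : ℂ)‖ ≤ θ := by
  have hs := NTSF.size_pos hn
  have hs' := NTSF.size_pos hn'
  obtain ⟨c', h1, h2, h3⟩ := hS ρc c (by linarith) hρ2 hc (fun i hi => (hD i hi).trans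
    (mul_le_mul_of_nonneg_right (by linarith) hs.le)) (dmg_mono hdm (mul_le_mul_of_nonneg_right (by linarith) hs.le) le_rfl)
  have h4 := conf_tr hn hn' hC hθ.le hb hc.lt.le h1.lt.le h2 hD
  have h5 := dm_tr hn hn' hC hθ.le hb' hc.lt.le h1.lt.le h2 hdm
  refine ⟨c', h1, ⟨⟨h1.mono ?_, fun i hi => (h4 i hi).trans ?_, dmg_mono h5 ?_ le_rfl⟩, h5⟩, h2, h3⟩
  · rw [← mul_assoc]
    exact mul_le_mul_of_nonneg_right (by linarith) hs'.le
  · rw [← mul_assoc]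
    exact mul_le_mul_of_nonneg_right (by linarith) hs'.le
  · have e : R * size n' / 8 = R / 8 * size n' := by ring
    rw [e]
    exact mul_le_mul_of_nonneg_right (by linarith) hs'.le

/-- back from `s'` to `s` below `k2s` -/
lemma back (hn' : 1 ≤ n') (hR : 0 < R) (hS : Stb R θ s' s) (hn : 1 ≤ n) (hθR : θ ≤ R / 8) (hρ : 64 * R ≤ ρ) {k2s c' : ℕ}
    (hk : SC ((ρ - θ) * size n') s' k2s) (hD : ∀ i : ℕ, i ≤ k2s → ‖pos s' i‖ ≤ 3 * R * size n') (hc' : IA (R * size n') s' c')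
    (hlt : c' < k2s) : ∃ c : ℕ, SC (56 * R * size n) s c ∧ |(c' : ℝ) / n' - (c : ℝ) / n| ≤ θ ∧
      ‖pos s' c' / (size n' : ℂ) - pos s c / (size n : ℂ)‖ ≤ θ := by
  have hs := NTSF.size_pos hn
  have hs' := NTSF.size_pos hn'
  have h1 : SCut s' 0 c' k2s := hc'.1.scut hlt hk.lt.le hD (by
    have : 0 ≤ R * size n' := mul_nonneg hR.le hs'.le
    linarith)
  have h2 := (hk.pre h1 hD).mono (ρ' := 57 * R * size n') (by
    have h3 : 57 * R * size n' ≤ (ρ - θ - 6 * R) * size n' := mul_le_mul_of_nonneg_right (by linarith) hs'.le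
    linarith)
  obtain ⟨c, g1, g2, g3⟩ := hS (57 * R) c' (by linarith) (by linarith) h2 (fun i hi => (hD i (hi.trans hlt.le)).trans
    (mul_le_mul_of_nonneg_right (by linarith) hs'.le)) (dmg_mono hc'.2.2 (le_of_eq (by ring)) le_rfl)
  exact ⟨c, g1.mono (mul_le_mul_of_nonneg_right (by linarith) hs.le), g2, g3⟩

end

end Pool.Agent.SCF.M
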