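import Pool.Agent.SCF.MacC

/-!
# ScaleFlow, row MAC, geometry 4 (helper66)

**`t1_close`**: `s`, `s'` close, stability both ways, `T1` for `s` at `(k, k2)`; if the first times of `s'` do not jump near the
parameters then `T1` holds for `s'` at `(k', k2')`, with almost the same radii, at almost the same times.
-/

set_option autoImplicit false

open Set Filter Topology MeasureTheory

namespace Pool.Agent.SCF.M

open Pool.Agent.NTS.Res
open Pool.Agent.CRT (CI)
open Pool.Agent.SCF.Z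

lemma re_close {n n' : ℕ} (hn : 1 ≤ n) (hn' : 1 ≤ n') {s : Fin n → Fin 3} {s' : Fin n' → Fin 3} {i i' : ℕ} {ν : ℝ}
    (h : ‖pos s i / (size n : ℂ) - pos s' i' / (size n' : ℂ)‖ ≤ ν) :
    |(pos s i).re / size n - (pos s' i').re / size n'| ≤ ν := by
  rw [← X_re, ← X_re, ← Complex.sub_re]
  exact (Complex.abs_re_le_norm _).trans h

/-- a gate from the first cuts -/
theorem t1_of_first {n : ℕ} {s : Fin n → Fin 3} {R a r h L ρ x : ℝ} {k k2 : ℕ} (hR : 0 < R) (hh : 0 < h) (ha : R / 8 ≤ a)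
    (hρ : 46 * R ≤ ρ) (hk : IA R s k) (hka : DmG a s k) (hkm : ∀ c, c < k → ¬ (IA R s c ∧ DmG a s c))
    (hx : x = (pos s k).re + h) (hk2 : IA R s k2) (hk2x : x ≤ (pos s k2).re) (hk2m : ∀ c, c < k2 → ¬ (IA R s c ∧ x ≤ (pos s c).re))
    (hrad : SC ρ s k2) (hr : ∀ i j : ℕ, i ≤ k → j ≤ k → ‖pos s i - pos s j‖ ≤ r)
    (hL : ∀ j : ℕ, k ≤ j → j ≤ k2 → ‖pos s j - pos s k‖ ≤ L) : T1 a r h L ρ s k k2 := by
  have hlt : k < k2 := by
    by_contra hc
    have := hk.1.2.1 k2 (not_lt.1 hc)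
    linarith
  have hcut : SCut s 0 k k2 := hk.scut hR hk2 hlt
  -- the cuts of the start piece of `k2`
  have key : ∀ c : ℕ, SCut s 0 c k2 → DmG (R / 8) s c → IA R s c := fun c hc hd =>
    ⟨(hrad.pre hc hk2.2.1).mono (by linarith), fun i hi => hk2.2.1 i (hi.trans hc.2.1.le), hd⟩
  refine ⟨⟨hk.1.1, hk.1.2.1, hr, hka, fun c hc hd => ?_⟩, ⟨hlt, hk2.1.1, hk.1.2.2.2.1, hcut.2.2.2.2.2, fun j _ hj => hk2.1.2.1 j hj,
    hL, by linarith, fun c hc => ?_⟩, hrad.2.2⟩
  · have h1 : SCut s 0 c k2 := ⟨Nat.zero_le _, hc.2.1.trans hlt, hc.2.2.1, hc.2.2.2.1, hc.2.2.2.2.1, fun j hj hj2 => by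
      rcases le_or_gt j k with h2 | h2
      · exact hc.2.2.2.2.2 j hj h2
      · have h3 := hcut.2.2.2.2.2 j h2 hj2
        have h4 := hk.1.2.1 c hc.2.1.le
        linarith⟩
    exact hkm c hc.2.1 ⟨key c h1 (dmg_mono hd ha le_rfl), hd⟩
  · by_contra hcc
    have h1 : SCut s 0 c k2 := ⟨Nat.zero_le _, hc.2.1, hc.2.2.1, hc.2.2.2.1, fun i _ hi => by
      rcases le_or_gt k i with h2 | h2
      · exact hc.2.2.2.2.1 i h2 hi
      · exact (hk.1.2.1 i h2.le).trans (hc.2.2.2.2.1 k le_rfl hc.1), hc.2.2.2.2.2⟩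
    exact hk2m c hc.2.1 ⟨key c h1 (dmg_mono hk.2.2 le_rfl hc.1), by rw [hx]; exact not_lt.1 hcc⟩

/-- **a start gate with a middle piece of `s` gives one of `s'`** -/
theorem t1_close {n n' : ℕ} {s : Fin n → Fin 3} {s' : Fin n' → Fin 3} {R θ βa νa β1 ν1 βb νb μ μ3 ω η η1 w Q a r h L ρ : ℝ}
    {k k2 : ℕ} (hn : 1 ≤ n) (hn' : 1 ≤ n') (hR : 0 < R) (hCa : Cl βa νa s s') (hC1 : Cl β1 ν1 s s') (hb1 : θ + η1 ≤ β1)
    (hCb : Cl βb νb s s') (hS : Stb R θ s s') (hS' : Stb R θ s' s)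
    (hθ : 0 < θ) (hθR : θ ≤ R / 8) (hν : νb ≤ R / 32) (hb : θ + 1 / n ≤ βb) (hb' : θ + 1 / n' ≤ βb) (hμ : 2 * νb ≤ μ) (hμ0 : 0 ≤ μ)
    (hη : 0 ≤ η) (hη1 : 0 ≤ η1) (hba : θ + η + η1 + 1 / n ≤ βa) (hω : ν1 + θ ≤ ω) (hω0 : 0 ≤ ω) (hw : 0 < w) (hμ3 : 2 * w + νa + 2 * θ ≤ μ3)
    (hμ3' : 2 * νa ≤ μ3) (hμ30 : 0 ≤ μ3) (hμ3R : μ3 ≤ R) (ha : R / 4 ≤ a) (hr : r ≤ 2 * R) (hh : 0 < h) (hL : L ≤ R / 4)
    (hρ : 64 * R ≤ ρ) (hρ2 : ρ ≤ 128 * R) (hlt : θ + η + η1 < 1)
    (ht : T1 (a * size n) (r * size n) (h * size n) (L * size n) (ρ * size n) s k k2)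
    (hQ : ∀ c : ℕ, ((VS (140 * R * size n') (w * size n') s' c).card : ℝ) ≤ Q)
    (g1 : ft n' (P1 R (a + μ) s') - ft n' (P1 R (a - μ) s') ≤ η1)
    (g2 : ∀ k' : ℕ, P1 R a s' k' → (∀ c, c < k' → ¬ P1 R a s' c) →
      ft n' (P2 R ((pos s' k').re / size n' + h + ω) s') - ft n' (P2 R ((pos s' k').re / size n' + h - ω) s') ≤ η ∧
      qf (Q + 1) (fun c => ((VS (140 * R * size n') (w * size n') s' c).card : ℝ)) (P2 R ((pos s' k').re / size n' + h + ω) s') -
        qf (Q + 1) (fun c => ((VS (140 * R * size n') (w * size n') s' c).card : ℝ)) (P2 R ((pos s' k').re / size n' + h - ω) s') < 1) :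
    ∃ k' k2' : ℕ, T1 (a * size n') ((r + μ3) * size n') (h * size n') ((L + μ3) * size n') ((ρ - μ3) * size n') s' k' k2' ∧
      |((k2 - k : ℕ) : ℝ) / n - ((k2' - k' : ℕ) : ℝ) / n'| ≤ 2 * θ + η + η1 := by
  have hs := NTSF.size_pos hn
  have hs' := NTSF.size_pos hn'
  have hn0 : (0 : ℝ) < n := by exact_mod_cast hn
  have hn0' : (0 : ℝ) < n' := by exact_mod_cast hn'
  have hRs' : 0 < R * size n' := mul_pos hR hs'
  have hkk : k < k2 := ht.2.1.1
  have hk2n : k2 < n := ht.2.2.1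
  have hconf := t1_conf hn hr hL ht
  have hfr : ∀ {P : ℕ → Prop}, (∀ c, P c → IA (R * size n') s' c) → ∀ c, P c → c ≤ n' := fun h c hc => (h c hc).le
  have tk1 : (k : ℝ) / n ≤ (k2 : ℝ) / n := div_le_div_of_nonneg_right (by exact_mod_cast hkk.le) hn0.le
  have tk2 : (k2 : ℝ) / n ≤ 1 := by
    rw [div_le_one hn0]
    exact_mod_cast hk2n.le
  -- the mates
  obtain ⟨k2s, m1, ⟨m2, m2'⟩, m3, m4⟩ := mate hn hn' hR hCb hS hθ hθR hν hb hb' (by linarith : 41 * R ≤ ρ) (by linarith)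
    (t1_sc2 ht) hconf ha (dmg_mono ht.1.2.2.2.1 le_rfl hkk.le)
  obtain ⟨ks, l1, ⟨l2, l2'⟩, l3, l4⟩ := mate hn hn' hR hCb hS hθ hθR hν hb hb' (by linarith : 41 * R ≤ ρ - 9 / 2 * R) (by linarith)
    (t1_sc1 hn hr hL ht) (fun i hi => hconf i (hi.trans hkk.le)) ha ht.1.2.2.2.1
  have m3' := abs_le.1 m3
  have l3' := abs_le.1 l3
  have hk2sD : ∀ i : ℕ, i ≤ k2s → ‖pos s' i‖ ≤ 3 * R * size n' := fun i hi => (m2.2.1 i hi).trans (le_of_eq (by ring))
  -- (i), (ii)
  have u1 : ft n' (P1 R (a - μ) s') ≤ (k : ℝ) / n + θ := by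
    refine (ft_of (c := ks) ⟨l2, dmg_mono l2' (mul_le_mul_of_nonneg_right (by linarith) hs'.le) le_rfl⟩).trans ?_
    linarith
  have u2 : (k : ℝ) / n - θ ≤ ft n' (P1 R (a + μ) s') := by
    refine le_ft (fun c' hc' => ?_) (by linarith)
    rcases le_or_gt k2s c' with h1 | h1
    · have h2 : (k2s : ℝ) / n' ≤ (c' : ℝ) / n' := div_le_div_of_nonneg_right (by exact_mod_cast h1) hn0'.le
      linarith
    · obtain ⟨c, c1, c2, c3⟩ := back hn' hR hS' hn hθR hρ m1 hk2sD hc'.1 h1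
      have c4 := dm_tr hn' hn hCb.symm hθ.le hb hc'.1.le c1.lt.le c2 hc'.2
      have h3 : k ≤ c := by
        by_contra hcc
        have hck : c < k := not_le.1 hcc
        have h4 : SCut s 0 c k := c1.scut hck (hkk.trans hk2n).le (fun i hi => hconf i (hi.trans hkk.le)) (by
          have : 0 ≤ R * size n := mul_nonneg hR.le hs.le
          linarith)
        exact ht.1.2.2.2.2 c h4 (dmg_mono c4 (mul_le_mul_of_nonneg_right (by linarith) hs.le) le_rfl)
      have h5 : (k : ℝ) / n ≤ (c : ℝ) / n := div_le_div_of_nonneg_right (by exact_mod_cast h3) hn0.le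
      have c2' := abs_le.1 c2
      linarith
  -- the first cut of `s'`
  have u3 : ft n' (P1 R a s') ≤ ft n' (P1 R (a + μ) s') :=
    ft_mono hn' (fun c hc => ⟨hc.1, dmg_mono hc.2 (mul_le_mul_of_nonneg_right (by linarith) hs'.le) le_rfl⟩) (hfr fun c hc => hc.1)
  have u4 : ft n' (P1 R (a - μ) s') ≤ ft n' (P1 R a s') :=
    ft_mono hn' (fun c hc => ⟨hc.1, dmg_mono hc.2 (mul_le_mul_of_nonneg_right (by linarith) hs'.le) le_rfl⟩) (hfr fun c hc => hc.1)
  obtain ⟨k', p1, p2, p3⟩ := ft_ex (show ft n' (P1 R a s') < 2 by linarith)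
  rw [p3] at u3 u4
  have za : |(k : ℝ) / n - (k' : ℝ) / n'| ≤ θ + η1 := by
    rw [abs_le]
    constructor <;> linarith
  have hinv : (0 : ℝ) < 1 / n := by positivity
  have zb := hCa k k' (hkk.trans hk2n).le p1.1.le (za.trans (by linarith))
  have zc := abs_le.1 (re_close hn hn' (hC1 k k' (hkk.trans hk2n).le p1.1.le (za.trans hb1)))
  obtain ⟨x', hx'⟩ : ∃ x', x' = (pos s' k').re / size n' + h := ⟨_, rfl⟩
  obtain ⟨q1, q2⟩ := g2 k' p1 p2
  rw [← hx'] at q1 q2
  -- (iii), (iv)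
  have hlev : (pos s k).re / size n + h ≤ (pos s k2).re / size n := by
    have h1 := ht.2.1.2.2.2.2.2.2.1
    rw [div_add' _ _ _ hs.ne']
    exact div_le_div_of_nonneg_right h1 hs.le
  have m4' := abs_le.1 (re_close hn hn' m4)
  have e2s : P2 R (x' - ω) s' k2s := by
    refine ⟨m2, ?_⟩
    rw [← le_div_iff₀ hs']
    linarith
  have v1 : ft n' (P2 R (x' - ω) s') ≤ (k2 : ℝ) / n + θ := by
    refine (ft_of e2s).trans ?_
    linarith
  have v2 : (k2 : ℝ) / n - θ ≤ ft n' (P2 R (x' + ω) s') := by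
    refine le_ft (fun c' hc' => ?_) (by linarith)
    rcases le_or_gt k2s c' with h1 | h1
    · have h2 : (k2s : ℝ) / n' ≤ (c' : ℝ) / n' := div_le_div_of_nonneg_right (by exact_mod_cast h1) hn0'.le
      linarith
    · obtain ⟨c, c1, c2, c3⟩ := back hn' hR hS' hn hθR hρ m1 hk2sD hc'.1 h1
      have c3' := abs_le.1 (re_close hn' hn c3)
      have h2 := hc'.2
      rw [← le_div_iff₀ hs'] at h2
      have h3 : k2 ≤ c := by
        by_contra hcc
        have hck : c < k2 := not_le.1 hcc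
        have h4 : SCut s 0 c k2 := c1.scut hck hk2n.le hconf (by
          have : 0 ≤ R * size n := mul_nonneg hR.le hs.le
          linarith)
        have h5 : (pos s k).re / size n + h ≤ (pos s c).re / size n := by linarith
        have h6 : (pos s k).re + h * size n ≤ (pos s c).re := by
          rw [div_add' _ _ _ hs.ne', div_le_div_iff_of_pos_right hs] at h5
          exact h5
        rcases le_or_gt c k with h7 | h7
        · have h8 := ht.1.2.1 c h7
          have h9 : 0 < h * size n := mul_pos hh hs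
          linarith
        · have h8 := ht.2.1.2.2.2.2.2.2.2 c ⟨h7.le, hck, h4.2.2.1, h4.2.2.2.1, fun i _ hi => h4.2.2.2.2.1 i (Nat.zero_le _) hi,
            h4.2.2.2.2.2⟩
          linarith
      have h5 : (k2 : ℝ) / n ≤ (c : ℝ) / n := div_le_div_of_nonneg_right (by exact_mod_cast h3) hn0.le
      have c2' := abs_le.1 c2
      linarith
  have v3 : ft n' (P2 R x' s') ≤ ft n' (P2 R (x' + ω) s') :=
    ft_mono hn' (fun c hc => ⟨hc.1, (mul_le_mul_of_nonneg_right (by linarith) hs'.le).trans hc.2⟩) (hfr fun c hc => hc.1)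
  have v4 : ft n' (P2 R (x' - ω) s') ≤ ft n' (P2 R x' s') :=
    ft_mono hn' (fun c hc => ⟨hc.1, (mul_le_mul_of_nonneg_right (by linarith) hs'.le).trans hc.2⟩) (hfr fun c hc => hc.1)
  obtain ⟨k2', r1, r2, r3⟩ := ft_ex (show ft n' (P2 R x' s') < 2 by linarith)
  rw [r3] at v3 v4
  have zd : |(k2 : ℝ) / n - (k2' : ℝ) / n'| ≤ θ + η := by
    rw [abs_le]
    constructor <;> linarith
  have ze := hCa k2 k2' hk2n.le r1.1.le (zd.trans (by linarith))
  -- the squares
  have hVS : VS (140 * R * size n') (w * size n') s' k2' ⊆ VS (140 * R * size n') (w * size n') s' k2s := by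
    obtain ⟨c1, d1, d2, -⟩ := ft_ex (show ft n' (P2 R (x' - ω) s') < 2 by linarith)
    have hex : ∃ c, P2 R (x' + ω) s' c := by
      by_contra hno
      rw [qf_no hno, qf_of d1 d2] at q2
      have := hQ c1
      linarith
    obtain ⟨c2, e1, e2⟩ : ∃ c, P2 R (x' + ω) s' c ∧ ∀ c', c' < c → ¬ P2 R (x' + ω) s' c' := by
      classical
      exact ⟨Nat.find hex, Nat.find_spec hex, fun c' hc' => Nat.find_min hex hc'⟩
    rw [qf_of d1 d2, qf_of e1 e2] at q2
    have f1 : P2 R (x' - ω) s' c2 := ⟨e1.1, (mul_le_mul_of_nonneg_right (by linarith) hs'.le).trans e1.2⟩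
    have f2 : P2 R x' s' c2 := ⟨e1.1, (mul_le_mul_of_nonneg_right (by linarith) hs'.le).trans e1.2⟩
    have om : ∀ {c c' : ℕ}, IA (R * size n') s' c → IA (R * size n') s' c' → c ≤ c' →
        VS (140 * R * size n') (w * size n') s' c ⊆ VS (140 * R * size n') (w * size n') s' c' := by
      intro c c' i1 i2 i3
      refine vs_mono ?_
      rcases eq_or_lt_of_le i3 with i4 | i4
      · exact Or.inl i4
      · exact Or.inr (i1.scut hRs' i2 i4)
    have o1 : c1 ≤ c2 := by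
      by_contra hc
      exact d2 c2 (not_le.1 hc) f1
    have o2 : c1 ≤ k2s := by
      by_contra hc
      exact d2 k2s (not_le.1 hc) e2s
    have o3 : k2' ≤ c2 := by
      by_contra hc
      exact r2 c2 (not_le.1 hc) f2
    have h1 := om d1.1 e1.1 o1
    have h2 : (VS (140 * R * size n') (w * size n') s' c2).card ≤ (VS (140 * R * size n') (w * size n') s' c1).card := by
      have : ((VS (140 * R * size n') (w * size n') s' c2).card : ℝ) < ((VS (140 * R * size n') (w * size n') s' c1).card : ℝ) + 1 := by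
        linarith
      have h3 : (VS (140 * R * size n') (w * size n') s' c2).card < (VS (140 * R * size n') (w * size n') s' c1).card + 1 := by
        exact_mod_cast this
      omega
    have h3 := Finset.eq_of_subset_of_card_le h1 h2
    refine (om r1.1 e1.1 o3).trans ?_
    rw [← h3]
    exact om d1.1 m2 o2
  -- the radius
  have hdist : ‖pos s' k2' - pos s' k2s‖ ≤ (νa + θ) * size n' := by
    rw [← X_le hn']
    calc ‖pos s' k2' / (size n' : ℂ) - pos s' k2s / (size n' : ℂ)‖ = ‖-(pos s k2 / (size n : ℂ) - pos s' k2' / (size n' : ℂ)) +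
          (pos s k2 / (size n : ℂ) - pos s' k2s / (size n' : ℂ))‖ := by congr 1; ring
      _ ≤ νa + θ := (norm_add_le _ _).trans (add_le_add (by rw [norm_neg]; exact ze) m4)
  have hrad : SC ((ρ - μ3) * size n') s' k2' := by
    refine m1.of_vs (mul_pos hw hs') r1.1.1 hVS (r1.1.2.1 k2' le_rfl) ?_ ?_
    · have h1 : (ρ - μ3 + 3 * R) * size n' ≤ 140 * R * size n' := mul_le_mul_of_nonneg_right (by linarith) hs'.le
      linarith
    · have h1 : (ρ - μ3 + 2 * w + (νa + θ)) * size n' ≤ (ρ - θ) * size n' := mul_le_mul_of_nonneg_right (by linarith) hs'.le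
      linarith
  -- the gate
  refine ⟨k', k2', t1_of_first (R := R * size n') (x := x' * size n') hRs' (mul_pos hh hs') ?_ ?_ p1.1 p1.2 p2 ?_ r1.1 r1.2 r2 hrad
    ?_ ?_, ?_⟩
  · have h1 : R / 8 * size n' ≤ a * size n' := mul_le_mul_of_nonneg_right (by linarith) hs'.le
    linarith
  · have h1 : 46 * R * size n' ≤ (ρ - μ3) * size n' := mul_le_mul_of_nonneg_right (by linarith) hs'.le
    linarith
  · rw [hx', add_mul, div_mul_cancel₀ _ hs'.ne']
  · intro i j hi hj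
    refine (diam_tr hn hn' hCa (by linarith : 0 ≤ θ + η1) (by linarith) (hkk.trans hk2n).le p1.1.le za ht.1.2.2.1 i j hi hj).trans ?_
    exact mul_le_mul_of_nonneg_right (by linarith) hs'.le
  · intro j hj1 hj2
    have hk'k2' : k' ≤ k2' := hj1.trans hj2
    obtain ⟨i, i1, i2, i3⟩ := tm_mid (k := k') (k2 := k2') (k' := k) (k2' := k2) (i := j) hn' hn (by linarith : 0 ≤ θ + η + η1)
      hkk.le (by rw [abs_sub_comm]; exact za.trans (by linarith)) (by rw [abs_sub_comm]; exact zd.trans (by linarith)) hj1 hj2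
    have j1 := hCa i j (i2.trans hk2n.le) (hj2.trans r1.1.le) (by rw [abs_sub_comm]; exact i3.trans hba)
    have j2 := (X_le hn).2 (ht.2.1.2.2.2.2.2.1 i i1 i2)
    rw [← X_le hn']
    calc ‖pos s' j / (size n' : ℂ) - pos s' k' / (size n' : ℂ)‖ = ‖(pos s i / (size n : ℂ) - pos s k / (size n : ℂ)) -
          (pos s i / (size n : ℂ) - pos s' j / (size n' : ℂ)) + (pos s k / (size n : ℂ) - pos s' k' / (size n' : ℂ))‖ := by
          congr 1; ring
      _ ≤ L + νa + νa := (norm_add_le _ _).trans (add_le_add ((norm_sub_le _ _).trans (add_le_add j2 j1)) zb)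
      _ ≤ L + μ3 := by linarith
  · have hk'k2' : k' ≤ k2' := by
      by_contra hc
      have h1 := p1.1.1.2.1 k2' (not_le.1 hc).le
      have h2 := r1.2
      rw [hx', add_mul, div_mul_cancel₀ _ hs'.ne'] at h2
      have h3 : 0 < h * size n' := mul_pos hh hs'
      linarith
    rw [Nat.cast_sub hkk.le, Nat.cast_sub hk'k2', sub_div, sub_div]
    have z1 := abs_le.1 za
    have z2 := abs_le.1 zd
    rw [abs_le]
    constructor <;> linarith

end Pool.Agent.SCF.M
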