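import Pool.Agent.SCF.Grid
import Pool.Agent.SCF.Uniq

/-!
# ScaleFlow, MAC: the grid, one-sided form (helper78)

`S5_shift`: a nested average is at most another one, shifted by `J` in the parameters number 2, 4 (up) and 5 (down), with few bad values
of the parameters number 1 and 3.
-/

set_option autoImplicit false

open Finset

namespace Pool.Agent.SCF.Z

theorem sum_up {M J : ℕ} {g : ℕ → ℝ} (hg : ∀ i, 0 ≤ g i) :
    ∑ i ∈ range M, (if i + J < M then g (i + J) else 0) ≤ ∑ i ∈ range M, g i := by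
  rw [← sum_filter]
  have e : ∑ i ∈ (range M).filter (fun i => i + J < M), g (i + J) =
      ∑ i ∈ ((range M).filter fun i => i + J < M).image (fun i => i + J), g i :=
    (sum_image fun a _ b _ h => Nat.add_right_cancel h).symm
  rw [e]
  refine sum_le_sum_of_subset_of_nonneg ?_ fun i _ _ => hg i
  intro i hi
  obtain ⟨j, hj, rfl⟩ := mem_image.1 hi
  exact mem_range.2 (mem_filter.1 hj).2

theorem sum_dn {M J : ℕ} {g : ℕ → ℝ} (hg : ∀ i, 0 ≤ g i) :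
    ∑ i ∈ range M, (if J ≤ i then g (i - J) else 0) ≤ ∑ i ∈ range M, g i := by
  rw [← sum_filter]
  have e : ∑ i ∈ (range M).filter (fun i => J ≤ i), g (i - J) =
      ∑ i ∈ ((range M).filter fun i => J ≤ i).image (fun i => i - J), g i :=
    (sum_image fun a ha b hb h => by
      have a1 := (mem_filter.1 ha).2
      have b1 := (mem_filter.1 hb).2
      have h' : a - J = b - J := h
      omega).symm
  rw [e]
  refine sum_le_sum_of_subset_of_nonneg ?_ fun i _ _ => hg i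
  intro i hi
  obtain ⟨j, hj, rfl⟩ := mem_image.1 hi
  have := mem_range.1 (mem_filter.1 hj).1
  exact mem_range.2 (lt_of_le_of_lt (Nat.sub_le _ _) this)

theorem S5_ax5 {M : ℕ} {F G : ℕ → ℕ → ℕ → ℕ → ℕ → ℝ}
    (h : ∀ i1 i2 i3 i4, ∑ i5 ∈ range M, F i1 i2 i3 i4 i5 ≤ ∑ i5 ∈ range M, G i1 i2 i3 i4 i5) : S5 M F ≤ S5 M G :=
  sum_le_sum fun i1 _ => sum_le_sum fun i2 _ => sum_le_sum fun i3 _ => sum_le_sum fun i4 _ => h i1 i2 i3 i4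

theorem S5_ax4 {M : ℕ} {F G : ℕ → ℕ → ℕ → ℕ → ℕ → ℝ}
    (h : ∀ i1 i2 i3 i5, ∑ i4 ∈ range M, F i1 i2 i3 i4 i5 ≤ ∑ i4 ∈ range M, G i1 i2 i3 i4 i5) : S5 M F ≤ S5 M G := by
  rw [S5_swap45 M F, S5_swap45 M G]
  exact S5_ax5 h

theorem S5_ax3 {M : ℕ} {F G : ℕ → ℕ → ℕ → ℕ → ℕ → ℝ}
    (h : ∀ i1 i2 i4 i5, ∑ i3 ∈ range M, F i1 i2 i3 i4 i5 ≤ ∑ i3 ∈ range M, G i1 i2 i3 i4 i5) : S5 M F ≤ S5 M G := by
  rw [S5_swap34 M F, S5_swap34 M G]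
  exact S5_ax4 h

theorem S5_ax2 {M : ℕ} {F G : ℕ → ℕ → ℕ → ℕ → ℕ → ℝ}
    (h : ∀ i1 i3 i4 i5, ∑ i2 ∈ range M, F i1 i2 i3 i4 i5 ≤ ∑ i2 ∈ range M, G i1 i2 i3 i4 i5) : S5 M F ≤ S5 M G := by
  rw [S5_swap23 M F, S5_swap23 M G]
  exact S5_ax3 h

/-- shifting the parameters 2 and 4 up and the parameter 5 down by `J` -/
theorem S5_sh {M J : ℕ} {G : ℕ → ℕ → ℕ → ℕ → ℕ → ℝ} (hG : ∀ i1 i2 i3 i4 i5, 0 ≤ G i1 i2 i3 i4 i5) :
    S5 M (fun i1 i2 i3 i4 i5 => if i2 + J < M then (if i4 + J < M then (if J ≤ i5 then G i1 (i2 + J) i3 (i4 + J) (i5 - J) else 0)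
      else 0) else 0) ≤ S5 M G := by
  refine (S5_ax5 (G := fun i1 i2 i3 i4 i5 => if i2 + J < M then (if i4 + J < M then G i1 (i2 + J) i3 (i4 + J) i5 else 0) else 0)
    fun i1 i2 i3 i4 => ?_).trans ?_
  · by_cases c2 : i2 + J < M
    · by_cases c4 : i4 + J < M
      · simp only [if_pos c2, if_pos c4]
        exact sum_dn (g := fun i5 => G i1 (i2 + J) i3 (i4 + J) i5) fun i => hG _ _ _ _ _
      · simp only [if_pos c2, if_neg c4]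
        exact le_rfl
    · simp only [if_neg c2]
      exact le_rfl
  refine (S5_ax4 (G := fun i1 i2 i3 i4 i5 => if i2 + J < M then G i1 (i2 + J) i3 i4 i5 else 0) fun i1 i2 i3 i5 => ?_).trans ?_
  · by_cases c2 : i2 + J < M
    · simp only [if_pos c2]
      exact sum_up (g := fun i4 => G i1 (i2 + J) i3 i4 i5) fun i => hG _ _ _ _ _
    · simp only [if_neg c2]
      exact le_rfl
  refine S5_ax2 fun i1 i3 i4 i5 => ?_
  exact sum_up (g := fun i2 => G i1 i2 i3 i4 i5) fun i => hG _ _ _ _ _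

theorem sum_top {M J : ℕ} : ∑ i ∈ range M, (if ¬ i + J < M then (1 : ℝ) else 0) ≤ J := by
  rw [sum_ite, sum_const_zero, add_zero, sum_const, nsmul_eq_mul, mul_one]
  have : ((range M).filter fun i => ¬ i + J < M).card ≤ J := by
    have h : ((range M).filter fun i => ¬ i + J < M) ⊆ Finset.Ico (M - J) M := by
      intro i hi
      obtain ⟨a, b⟩ := mem_filter.1 hi
      have := mem_range.1 a
      rw [Finset.mem_Ico]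
      omega
    refine (card_le_card h).trans ?_
    rw [Nat.card_Ico]
    omega
  exact_mod_cast this

theorem sum_bot {M J : ℕ} : ∑ i ∈ range M, (if ¬ J ≤ i then (1 : ℝ) else 0) ≤ J := by
  rw [sum_ite, sum_const_zero, add_zero, sum_const, nsmul_eq_mul, mul_one]
  have : ((range M).filter fun i => ¬ J ≤ i).card ≤ J := by
    have h : ((range M).filter fun i => ¬ J ≤ i) ⊆ range J := by
      intro i hi
      exact mem_range.2 (not_le.1 (mem_filter.1 hi).2)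
    refine (card_le_card h).trans ?_
    rw [card_range]
  exact_mod_cast this

open Classical in
/-- **one-sided comparison with shifts** -/
theorem S5_shift {M J : ℕ} {F G : ℕ → ℕ → ℕ → ℕ → ℕ → ℝ} {e b1 b3 : ℝ}
    (B1 B3 : ℕ → ℕ → ℕ → ℕ → ℕ → Prop)
    (hF : ∀ i1 i2 i3 i4 i5, i1 < M → i2 < M → i3 < M → i4 < M → i5 < M → F i1 i2 i3 i4 i5 ≤ 1)
    (hG : ∀ i1 i2 i3 i4 i5, 0 ≤ G i1 i2 i3 i4 i5) (he : 0 ≤ e)
    (h : ∀ i1 i2 i3 i4 i5, i1 < M → i2 < M → i3 < M → i4 < M → i5 < M → i2 + J < M → i4 + J < M → J ≤ i5 →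
      ¬ B1 i1 i2 i3 i4 i5 → ¬ B3 i1 i2 i3 i4 i5 → F i1 i2 i3 i4 i5 ≤ G i1 (i2 + J) i3 (i4 + J) (i5 - J) + e)
    (h1 : ∀ i2 i3 i4 i5, i2 < M → i3 < M → i4 < M → i5 < M → (((range M).filter fun i => B1 i i2 i3 i4 i5).card : ℝ) ≤ b1)
    (h3 : ∀ i1 i2 i4 i5, i1 < M → i2 < M → i4 < M → i5 < M → (((range M).filter fun i => B3 i1 i2 i i4 i5).card : ℝ) ≤ b3) :
    S5 M F ≤ S5 M G + e * (M : ℝ) ^ 5 + (3 * J + b1 + b3) * (M : ℝ) ^ 4 := by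
  have k1 : S5 M (fun i1 i2 i3 i4 i5 => if B1 i1 i2 i3 i4 i5 then (1 : ℝ) else 0) ≤ b1 * (M : ℝ) ^ 4 :=
    S5_le1 fun i2 i3 i4 i5 a2 a3 a4 a5 => by
      rw [sum_ind fun i => B1 i i2 i3 i4 i5]
      exact h1 i2 i3 i4 i5 a2 a3 a4 a5
  have k3 : S5 M (fun i1 i2 i3 i4 i5 => if B3 i1 i2 i3 i4 i5 then (1 : ℝ) else 0) ≤ b3 * (M : ℝ) ^ 4 :=
    S5_le3 fun i1 i2 i4 i5 a1 a2 a4 a5 => by
      rw [sum_ind fun i => B3 i1 i2 i i4 i5]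
      exact h3 i1 i2 i4 i5 a1 a2 a4 a5
  have k2 : S5 M (fun _ i2 _ _ _ => if ¬ i2 + J < M then (1 : ℝ) else 0) ≤ J * (M : ℝ) ^ 4 :=
    S5_le2 fun i1 i3 i4 i5 a1 a3 a4 a5 => sum_top
  have k4 : S5 M (fun _ _ _ i4 _ => if ¬ i4 + J < M then (1 : ℝ) else 0) ≤ J * (M : ℝ) ^ 4 :=
    S5_le4 fun i1 i2 i3 i5 a1 a2 a3 a5 => sum_top
  have k5 : S5 M (fun _ _ _ _ i5 => if ¬ J ≤ i5 then (1 : ℝ) else 0) ≤ J * (M : ℝ) ^ 4 :=
    S5_le5 fun i1 i2 i3 i4 a1 a2 a3 a4 => sum_bot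
  have hs : S5 M F ≤ S5 M (fun i1 i2 i3 i4 i5 =>
      (if i2 + J < M then (if i4 + J < M then (if J ≤ i5 then G i1 (i2 + J) i3 (i4 + J) (i5 - J) else 0) else 0) else 0) + e +
        (if B1 i1 i2 i3 i4 i5 then (1 : ℝ) else 0) + (if B3 i1 i2 i3 i4 i5 then (1 : ℝ) else 0) +
        (if ¬ i2 + J < M then (1 : ℝ) else 0) + (if ¬ i4 + J < M then (1 : ℝ) else 0) + (if ¬ J ≤ i5 then (1 : ℝ) else 0)) := by
    refine S5_mono fun i1 i2 i3 i4 i5 a1 a2 a3 a4 a5 => ?_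
    have q0 := hF i1 i2 i3 i4 i5 a1 a2 a3 a4 a5
    have n0 : 0 ≤ (if i2 + J < M then (if i4 + J < M then (if J ≤ i5 then G i1 (i2 + J) i3 (i4 + J) (i5 - J) else 0) else 0)
        else 0) := by
      split_ifs
      · exact hG _ _ _ _ _
      · exact le_rfl
      · exact le_rfl
      · exact le_rfl
    have n1 : (0 : ℝ) ≤ if B1 i1 i2 i3 i4 i5 then (1 : ℝ) else 0 := by split_ifs <;> norm_num
    have n3 : (0 : ℝ) ≤ if B3 i1 i2 i3 i4 i5 then (1 : ℝ) else 0 := by split_ifs <;> norm_num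
    have n2 : (0 : ℝ) ≤ if ¬ i2 + J < M then (1 : ℝ) else 0 := by split_ifs <;> norm_num
    have n4 : (0 : ℝ) ≤ if ¬ i4 + J < M then (1 : ℝ) else 0 := by split_ifs <;> norm_num
    have n5 : (0 : ℝ) ≤ if ¬ J ≤ i5 then (1 : ℝ) else 0 := by split_ifs <;> norm_num
    by_cases c1 : B1 i1 i2 i3 i4 i5
    · rw [if_pos c1]; linarith
    by_cases c3 : B3 i1 i2 i3 i4 i5
    · rw [if_pos c3]; linarith
    by_cases c2 : i2 + J < M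
    · by_cases c4 : i4 + J < M
      · by_cases c5 : J ≤ i5
        · have := h i1 i2 i3 i4 i5 a1 a2 a3 a4 a5 c2 c4 c5 c1 c3
          rw [if_pos c2, if_pos c4, if_pos c5]
          linarith
        · have c5' : ¬ J ≤ i5 := c5
          have m5 : (if ¬ J ≤ i5 then (1 : ℝ) else 0) = 1 := if_pos c5'
          rw [m5]
          linarith
      · have c4' : ¬ i4 + J < M := c4
        have m4 : (if ¬ i4 + J < M then (1 : ℝ) else 0) = 1 := if_pos c4'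
        rw [m4]
        linarith
    · have c2' : ¬ i2 + J < M := c2
      have m2 : (if ¬ i2 + J < M then (1 : ℝ) else 0) = 1 := if_pos c2'
      rw [m2]
      linarith
  refine hs.trans ?_
  have e0 : S5 M (fun i1 i2 i3 i4 i5 =>
      (if i2 + J < M then (if i4 + J < M then (if J ≤ i5 then G i1 (i2 + J) i3 (i4 + J) (i5 - J) else 0) else 0) else 0) + e +
        (if B1 i1 i2 i3 i4 i5 then (1 : ℝ) else 0) + (if B3 i1 i2 i3 i4 i5 then (1 : ℝ) else 0) +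
        (if ¬ i2 + J < M then (1 : ℝ) else 0) + (if ¬ i4 + J < M then (1 : ℝ) else 0) + (if ¬ J ≤ i5 then (1 : ℝ) else 0)) =
      S5 M (fun i1 i2 i3 i4 i5 =>
        if i2 + J < M then (if i4 + J < M then (if J ≤ i5 then G i1 (i2 + J) i3 (i4 + J) (i5 - J) else 0) else 0) else 0) +
      e * (M : ℝ) ^ 5 +
      S5 M (fun i1 i2 i3 i4 i5 => if B1 i1 i2 i3 i4 i5 then (1 : ℝ) else 0) +
      S5 M (fun i1 i2 i3 i4 i5 => if B3 i1 i2 i3 i4 i5 then (1 : ℝ) else 0) +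
      S5 M (fun _ i2 _ _ _ => if ¬ i2 + J < M then (1 : ℝ) else 0) +
      S5 M (fun _ _ _ i4 _ => if ¬ i4 + J < M then (1 : ℝ) else 0) +
      S5 M (fun _ _ _ _ i5 => if ¬ J ≤ i5 then (1 : ℝ) else 0) := by
    rw [← S5_const M e, ← S5_add, ← S5_add, ← S5_add, ← S5_add, ← S5_add, ← S5_add]
  have hsh := S5_sh (M := M) (J := J) hG
  rw [e0]
  linarith

/-- `count_jumps` with a weak inequality -/
theorem count_jumps' {M q : ℕ} {lo hi : ℕ → ℝ} {B η : ℝ} (h0 : ∀ i, 0 ≤ lo i) (hB : ∀ i, lo i ≤ B)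
    (hle : ∀ i, i < M → lo i ≤ hi i) (h : ∀ i, i < M → hi i ≤ lo (i + q)) :
    (((range M).filter fun i => η ≤ hi i - lo i).card : ℝ) * η ≤ q * B := by
  have e1 : (((range M).filter fun i => η ≤ hi i - lo i).card : ℝ) * η ≤
      ∑ i ∈ (range M).filter (fun i => η ≤ hi i - lo i), (hi i - lo i) := by
    rw [← nsmul_eq_mul, ← sum_const]
    exact sum_le_sum fun i hi' => (mem_filter.1 hi').2
  have e2 : ∑ i ∈ (range M).filter (fun i => η ≤ hi i - lo i), (hi i - lo i) ≤ ∑ i ∈ range M, (hi i - lo i) :=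
    sum_le_sum_of_subset_of_nonneg (filter_subset _ _) fun i hi' _ => sub_nonneg.2 (hle i (mem_range.1 hi'))
  have e3 : ∑ i ∈ range M, (hi i - lo i) ≤ ∑ i ∈ range M, (lo (i + q) - lo i) :=
    sum_le_sum fun i hi' => by
      have := h i (mem_range.1 hi')
      linarith
  exact e1.trans (e2.trans (e3.trans (sum_incr M q lo h0 hB)))

theorem gp_shift (M : ℕ) (x y : ℝ) (i J : ℕ) : gp M x y (i + J) = gp M x y i + (y - x) * J / M := by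
  unfold gp
  push_cast
  ring

theorem gp_shift' (M : ℕ) (x y : ℝ) {i J : ℕ} (h : J ≤ i) : gp M x y (i - J) = gp M x y i - (y - x) * J / M := by
  unfold gp
  push_cast [Nat.cast_sub h]
  ring

theorem gp_mul (M : ℕ) (x y c : ℝ) (i : ℕ) : gp M (c * x) (c * y) i = c * gp M x y i := by
  unfold gp
  ring

/-- `grid_jumps` with a weak inequality -/
theorem grid_jumps' {M : ℕ} {x y d B η : ℝ} {κ : ℝ → ℝ} (hM : 0 < M) (hxy : x < y) (hd : 0 ≤ d) (hκ : Monotone κ)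
    (h0 : ∀ a, 0 ≤ κ a) (hB : ∀ a, κ a ≤ B) :
    (((range M).filter fun i => η ≤ κ (gp M x y i + d) - κ (gp M x y i - d)).card : ℝ) * η ≤ (2 * d * M / (y - x) + 1) * B := by
  have hM' : (0 : ℝ) < M := by exact_mod_cast hM
  have hy : 0 < y - x := sub_pos.2 hxy
  have hB0 : 0 ≤ B := (h0 0).trans (hB 0)
  have hz : 0 ≤ 2 * d * M / (y - x) := by positivity
  obtain ⟨q, hq⟩ : ∃ q : ℕ, q = ⌈2 * d * M / (y - x)⌉₊ := ⟨_, rfl⟩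
  have hq1 : 2 * d * M / (y - x) ≤ q := by rw [hq]; exact Nat.le_ceil _
  have hq2 : (q : ℝ) ≤ 2 * d * M / (y - x) + 1 := by rw [hq]; exact (Nat.ceil_lt_add_one hz).le
  have h1 : ∀ i, i < M → κ (gp M x y i + d) ≤ κ (gp M x y (i + q) - d) := by
    intro i _
    refine hκ ?_
    rw [gp_shift]
    have h2 : 2 * d ≤ (y - x) * q / M := by
      rw [le_div_iff₀ hM']
      have := (div_le_iff₀ hy).1 hq1
      linarith
    linarith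
  have h2 := count_jumps' (M := M) (q := q) (lo := fun i => κ (gp M x y i - d)) (hi := fun i => κ (gp M x y i + d)) (B := B)
    (η := η) (fun i => h0 _) (fun i => hB _) (fun i _ => hκ (by linarith)) h1
  exact h2.trans (mul_le_mul_of_nonneg_right hq2 hB0)

open Classical in
/-- **one-sided comparison**, few bad values of the parameter 1 (jumps of `κ`) and, given all other parameters, of the parameter 3
(jumps of `lam` and `q`) -/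
theorem s5_shiftF {M J : ℕ} (hM : 0 < M) {F G : ℕ → ℕ → ℕ → ℕ → ℕ → ℝ} {e a0 a1 h0 h1 μ η1 ω η η' B1 B2 B3 : ℝ} {κ : ℝ → ℝ}
    {lam q : ℕ → ℕ → ℕ → ℕ → ℝ → ℝ}
    (hF : ∀ i1 i2 i3 i4 i5, i1 < M → i2 < M → i3 < M → i4 < M → i5 < M → F i1 i2 i3 i4 i5 ≤ 1)
    (hG : ∀ i1 i2 i3 i4 i5, i1 < M → i2 < M → i3 < M → i4 < M → i5 < M → 0 ≤ G i1 i2 i3 i4 i5) (he : 0 ≤ e) (ha : a0 < a1)
    (hh : h0 < h1) (hμ : 0 ≤ μ) (hω : 0 ≤ ω) (hη1 : 0 < η1) (hη : 0 < η) (hη' : 0 < η')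
    (hκ : Monotone κ) (hκ0 : ∀ x, 0 ≤ κ x) (hκ1 : ∀ x, κ x ≤ B1)
    (hl : ∀ i1 i2 i4 i5, Monotone (lam i1 i2 i4 i5)) (hl0 : ∀ i1 i2 i4 i5 x, 0 ≤ lam i1 i2 i4 i5 x)
    (hl1 : ∀ i1 i2 i4 i5 x, lam i1 i2 i4 i5 x ≤ B2)
    (hq : ∀ i1 i2 i4 i5, Monotone (q i1 i2 i4 i5)) (hq0 : ∀ i1 i2 i4 i5 x, 0 ≤ q i1 i2 i4 i5 x)
    (hq1 : ∀ i1 i2 i4 i5 x, q i1 i2 i4 i5 x ≤ B3)
    (H : ∀ i1 i2 i3 i4 i5, i1 < M → i2 < M → i3 < M → i4 < M → i5 < M →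
      κ (gp M a0 a1 i1 + μ) - κ (gp M a0 a1 i1 - μ) ≤ η1 →
      lam i1 i2 i4 i5 (gp M h0 h1 i3 + ω) - lam i1 i2 i4 i5 (gp M h0 h1 i3 - ω) ≤ η →
      q i1 i2 i4 i5 (gp M h0 h1 i3 + ω) - q i1 i2 i4 i5 (gp M h0 h1 i3 - ω) < η' →
      i2 + J < M → i4 + J < M → J ≤ i5 → F i1 i2 i3 i4 i5 ≤ G i1 (i2 + J) i3 (i4 + J) (i5 - J) + e) :
    S5 M F ≤ S5 M G + (e * M + (2 * μ * M / (a1 - a0) + 1) * B1 / η1 + (2 * ω * M / (h1 - h0) + 1) * (B2 / η + B3 / η') + 3 * J) *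
      (M : ℝ) ^ 4 := by
  have hM' : (0 : ℝ) < M := by exact_mod_cast hM
  have hGm : S5 M (fun i1 i2 i3 i4 i5 => max (G i1 i2 i3 i4 i5) 0) ≤ S5 M G :=
    S5_mono fun i1 i2 i3 i4 i5 a1 a2 a3 a4 a5 => max_le le_rfl (hG i1 i2 i3 i4 i5 a1 a2 a3 a4 a5)
  have main := S5_shift (M := M) (J := J) (F := F) (G := fun i1 i2 i3 i4 i5 => max (G i1 i2 i3 i4 i5) 0) (e := e)
    (b1 := (2 * μ * M / (a1 - a0) + 1) * B1 / η1) (b3 := (2 * ω * M / (h1 - h0) + 1) * (B2 / η + B3 / η'))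
    (fun i1 _ _ _ _ => η1 < κ (gp M a0 a1 i1 + μ) - κ (gp M a0 a1 i1 - μ))
    (fun i1 i2 i3 i4 i5 => η < lam i1 i2 i4 i5 (gp M h0 h1 i3 + ω) - lam i1 i2 i4 i5 (gp M h0 h1 i3 - ω) ∨
      η' ≤ q i1 i2 i4 i5 (gp M h0 h1 i3 + ω) - q i1 i2 i4 i5 (gp M h0 h1 i3 - ω))
    hF (fun _ _ _ _ _ => le_max_right _ _) he
    (fun i1 i2 i3 i4 i5 a1 a2 a3 a4 a5 b2 b4 b5 c1 c3 =>
      (H i1 i2 i3 i4 i5 a1 a2 a3 a4 a5 (not_lt.1 c1) (not_lt.1 fun h => c3 (Or.inl h)) (not_le.1 fun h => c3 (Or.inr h)) b2 b4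
        b5).trans (by gcongr; exact le_max_left _ _))
    (fun i2 i3 i4 i5 _ _ _ _ => by
      rw [le_div_iff₀ hη1]
      exact grid_jumps hM ha hμ hκ hκ0 hκ1)
    (fun i1 i2 i4 i5 _ _ _ _ => by
      have e2 : (((range M).filter fun i => η < lam i1 i2 i4 i5 (gp M h0 h1 i + ω) - lam i1 i2 i4 i5 (gp M h0 h1 i - ω)).card : ℝ) ≤
          (2 * ω * M / (h1 - h0) + 1) * B2 / η := by
        rw [le_div_iff₀ hη]
        exact grid_jumps hM hh hω (hl i1 i2 i4 i5) (hl0 i1 i2 i4 i5) (hl1 i1 i2 i4 i5)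
      have e3 : (((range M).filter fun i => η' ≤ q i1 i2 i4 i5 (gp M h0 h1 i + ω) - q i1 i2 i4 i5 (gp M h0 h1 i - ω)).card : ℝ) ≤
          (2 * ω * M / (h1 - h0) + 1) * B3 / η' := by
        rw [le_div_iff₀ hη']
        exact grid_jumps' hM hh hω (hq i1 i2 i4 i5) (hq0 i1 i2 i4 i5) (hq1 i1 i2 i4 i5)
      have e4 : (2 * ω * M / (h1 - h0) + 1) * B2 / η + (2 * ω * M / (h1 - h0) + 1) * B3 / η' =
          (2 * ω * M / (h1 - h0) + 1) * (B2 / η + B3 / η') := by ring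
      rw [← e4]
      refine le_trans ?_ (add_le_add e2 e3)
      rw [← Nat.cast_add]
      refine Nat.cast_le.2 (le_trans (card_le_card fun i hi => ?_) (card_union_le _ _))
      obtain ⟨hi1, hi2⟩ := (@mem_filter ℕ _ (fun _ => propDecidable _) _ _).1 hi
      rcases hi2 with h | h
      · exact mem_union_left _ (mem_filter.2 ⟨hi1, h⟩)
      · exact mem_union_right _ (mem_filter.2 ⟨hi1, h⟩))
  refine main.trans ?_
  have e5 : e * (M : ℝ) ^ 5 = e * M * (M : ℝ) ^ 4 := by ring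
  rw [e5]
  have : S5 M (fun i1 i2 i3 i4 i5 => max (G i1 i2 i3 i4 i5) 0) + e * M * (M : ℝ) ^ 4 +
      (3 * J + (2 * μ * M / (a1 - a0) + 1) * B1 / η1 + (2 * ω * M / (h1 - h0) + 1) * (B2 / η + B3 / η')) * (M : ℝ) ^ 4 =
      S5 M (fun i1 i2 i3 i4 i5 => max (G i1 i2 i3 i4 i5) 0) +
      (e * M + (2 * μ * M / (a1 - a0) + 1) * B1 / η1 + (2 * ω * M / (h1 - h0) + 1) * (B2 / η + B3 / η') + 3 * J) *
      (M : ℝ) ^ 4 := by ring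
  rw [this]
  linarith

/-- the same with one time of the level `y i1 + h` -/
theorem s5_shift {M J : ℕ} (hM : 0 < M) {F G : ℕ → ℕ → ℕ → ℕ → ℕ → ℝ} {e a0 a1 h0 h1 μ η1 ω η Q : ℝ} {κ lam q : ℝ → ℝ}
    {y : ℕ → ℝ}
    (hF : ∀ i1 i2 i3 i4 i5, i1 < M → i2 < M → i3 < M → i4 < M → i5 < M → F i1 i2 i3 i4 i5 ≤ 1)
    (hG : ∀ i1 i2 i3 i4 i5, i1 < M → i2 < M → i3 < M → i4 < M → i5 < M → 0 ≤ G i1 i2 i3 i4 i5) (he : 0 ≤ e) (ha : a0 < a1)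
    (hh : h0 < h1) (hμ : 0 ≤ μ) (hω : 0 ≤ ω) (hη1 : 0 < η1) (hη : 0 < η)
    (hκ : Monotone κ) (hκ0 : ∀ x, 0 ≤ κ x) (hκ1 : ∀ x, κ x ≤ 2) (hl : Monotone lam) (hl0 : ∀ x, 0 ≤ lam x) (hl1 : ∀ x, lam x ≤ 2)
    (hq : Monotone q) (hq0 : ∀ x, 0 ≤ q x) (hq1 : ∀ x, q x ≤ Q)
    (H : ∀ i1 i2 i3 i4 i5, i1 < M → i2 < M → i3 < M → i4 < M → i5 < M →
      κ (gp M a0 a1 i1 + μ) - κ (gp M a0 a1 i1 - μ) ≤ η1 →
      lam (y i1 + gp M h0 h1 i3 + ω) - lam (y i1 + gp M h0 h1 i3 - ω) ≤ η →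
      q (y i1 + gp M h0 h1 i3 + ω) - q (y i1 + gp M h0 h1 i3 - ω) < 1 →
      i2 + J < M → i4 + J < M → J ≤ i5 → F i1 i2 i3 i4 i5 ≤ G i1 (i2 + J) i3 (i4 + J) (i5 - J) + e) :
    S5 M F ≤ S5 M G + (e * M + (2 * μ * M / (a1 - a0) + 1) * 2 / η1 + (2 * ω * M / (h1 - h0) + 1) * (2 / η + Q) + 3 * J) *
      (M : ℝ) ^ 4 := by
  have main := s5_shiftF (M := M) (J := J) hM (F := F) (G := G) (e := e) (a0 := a0) (a1 := a1) (h0 := h0) (h1 := h1) (μ := μ)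
    (η1 := η1) (ω := ω) (η := η) (η' := 1) (B1 := 2) (B2 := 2) (B3 := Q) (κ := κ) (lam := fun i1 _ _ _ x => lam (y i1 + x))
    (q := fun i1 _ _ _ x => q (y i1 + x)) hF hG he ha hh hμ hω hη1 hη one_pos hκ hκ0 hκ1
    (fun i1 _ _ _ a b hab => hl (by linarith)) (fun _ _ _ _ _ => hl0 _) (fun _ _ _ _ _ => hl1 _)
    (fun i1 _ _ _ a b hab => hq (by linarith)) (fun _ _ _ _ _ => hq0 _) (fun _ _ _ _ _ => hq1 _)
    (fun i1 i2 i3 i4 i5 a1 a2 a3 a4 a5 c1 c2 c3 b2 b4 b5 => H i1 i2 i3 i4 i5 a1 a2 a3 a4 a5 c1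
      (by
        have e1 : y i1 + gp M h0 h1 i3 + ω = y i1 + (gp M h0 h1 i3 + ω) := by ring
        have e2 : y i1 + gp M h0 h1 i3 - ω = y i1 + (gp M h0 h1 i3 - ω) := by ring
        rw [e1, e2]
        exact c2)
      (by
        have e1 : y i1 + gp M h0 h1 i3 + ω = y i1 + (gp M h0 h1 i3 + ω) := by ring
        have e2 : y i1 + gp M h0 h1 i3 - ω = y i1 + (gp M h0 h1 i3 - ω) := by ring
        rw [e1, e2]
        exact c3) b2 b4 b5)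
  rw [div_one] at main
  exact main

/-- the constants of the one-sided comparison -/
theorem shift_const {ε a0 a1 h0 h1 η1 η η' ω c B1 B2 B3 : ℝ} (hε : 0 < ε) (ha : a0 < a1) (hh : h0 < h1) (hη1 : 0 < η1)
    (hη : 0 < η) (hη' : 0 < η') (hB1 : 0 ≤ B1) (hB2 : 0 ≤ B2) (hB3 : 0 ≤ B3) (hc0 : 0 ≤ c) (hc : c ≤ ε / 64)
    (hωε : 2 * ω / (h1 - h0) * (B2 / η + B3 / η') ≤ ε / 8) :
    ∃ M1 : ℕ, 1 ≤ M1 ∧ ∀ M : ℕ, M1 ≤ M → ∃ μ0 : ℝ, 0 < μ0 ∧ μ0 ≤ 1 / M ∧ ∀ μ : ℝ, 0 ≤ μ → μ ≤ μ0 → ∀ e : ℝ,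
      e * M + (2 * μ * M / (a1 - a0) + 1) * B1 / η1 + (2 * ω * M / (h1 - h0) + 1) * (B2 / η + B3 / η') + 3 * (⌈c * M⌉₊ : ℕ) ≤
        (e + ε) * M := by
  have hA : 0 < a1 - a0 := sub_pos.2 ha
  have hH : 0 < h1 - h0 := sub_pos.2 hh
  have hX : 0 ≤ B2 / η + B3 / η' := by positivity
  obtain ⟨M1, h1'⟩ := exists_nat_ge (max (max (16 * B1 / (ε * η1)) (8 * (B2 / η + B3 / η') / ε)) (max (24 / ε) 1))
  have k1 : 16 * B1 / (ε * η1) ≤ M1 := (le_max_left _ _).trans ((le_max_left _ _).trans h1')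
  have k2 : 8 * (B2 / η + B3 / η') / ε ≤ M1 := (le_max_right _ _).trans ((le_max_left _ _).trans h1')
  have k3 : 24 / ε ≤ M1 := (le_max_left _ _).trans ((le_max_right _ _).trans h1')
  have k4 : (1 : ℝ) ≤ M1 := (le_max_right _ _).trans ((le_max_right _ _).trans h1')
  refine ⟨M1, by exact_mod_cast k4, fun M hM => ?_⟩
  have hMM : (M1 : ℝ) ≤ M := by exact_mod_cast hM
  have hM' : (0 : ℝ) < M := lt_of_lt_of_le one_pos (k4.trans hMM)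
  refine ⟨min (1 / M) ((a1 - a0) / (2 * M)), lt_min (by positivity) (by positivity), min_le_left _ _, fun μ hμ hμ0 e => ?_⟩
  have m1 : 2 * μ * M / (a1 - a0) ≤ 1 := by
    rw [div_le_one hA]
    have := hμ0.trans (min_le_right _ _)
    rw [le_div_iff₀ (by positivity)] at this
    linarith
  have t1 : (2 * μ * M / (a1 - a0) + 1) * B1 / η1 ≤ ε / 8 * M := by
    have : (2 * μ * M / (a1 - a0) + 1) * B1 / η1 ≤ 2 * B1 / η1 :=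
      div_le_div_of_nonneg_right (mul_le_mul_of_nonneg_right (by linarith) hB1) hη1.le
    refine this.trans ?_
    rw [div_le_iff₀ hη1]
    have h2 := (div_le_iff₀ (by positivity : 0 < ε * η1)).1 (k1.trans hMM)
    nlinarith
  have t2 : (2 * ω * M / (h1 - h0) + 1) * (B2 / η + B3 / η') ≤ ε / 8 * M + ε / 8 * M := by
    have e1 : (2 * ω * M / (h1 - h0) + 1) * (B2 / η + B3 / η') =
        2 * ω / (h1 - h0) * (B2 / η + B3 / η') * M + (B2 / η + B3 / η') := by ring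
    rw [e1]
    have h2 := (div_le_iff₀ hε).1 (k2.trans hMM)
    have h3 := mul_le_mul_of_nonneg_right hωε hM'.le
    linarith
  have t3 : (3 : ℝ) * (⌈c * M⌉₊ : ℕ) ≤ 3 * (ε / 64) * M + ε / 8 * M := by
    have h2 := (Nat.ceil_lt_add_one (mul_nonneg hc0 hM'.le)).le
    have h3 := (div_le_iff₀ hε).1 (k3.trans hMM)
    have h4 := mul_le_mul_of_nonneg_right hc hM'.le
    linarith
  have t4 : 0 ≤ ε * M := by positivity
  linarith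

/-- **the one-sided comparison with constants** -/
theorem s5_shift' {ε a0 a1 h0 h1 η1 η ω c Q : ℝ} (hε : 0 < ε) (ha : a0 < a1) (hh : h0 < h1) (hη1 : 0 < η1)
    (hη : 0 < η) (hQ : 0 ≤ Q) (hω : 0 ≤ ω) (hc0 : 0 ≤ c) (hc : c ≤ ε / 64) (hωε : 2 * ω / (h1 - h0) * (2 / η + Q) ≤ ε / 8) :
    ∃ M1 : ℕ, 1 ≤ M1 ∧ ∀ M : ℕ, M1 ≤ M → ∃ μ0 : ℝ, 0 < μ0 ∧ μ0 ≤ 1 / M ∧ ∀ μ : ℝ, 0 ≤ μ → μ ≤ μ0 →
      ∀ {F G : ℕ → ℕ → ℕ → ℕ → ℕ → ℝ} {e : ℝ} {κ lam q : ℝ → ℝ} {y : ℕ → ℝ},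
        (∀ i1 i2 i3 i4 i5, i1 < M → i2 < M → i3 < M → i4 < M → i5 < M → F i1 i2 i3 i4 i5 ≤ 1) →
        (∀ i1 i2 i3 i4 i5, i1 < M → i2 < M → i3 < M → i4 < M → i5 < M → 0 ≤ G i1 i2 i3 i4 i5) → 0 ≤ e →
        Monotone κ → (∀ x, 0 ≤ κ x) → (∀ x, κ x ≤ 2) → Monotone lam → (∀ x, 0 ≤ lam x) → (∀ x, lam x ≤ 2) →
        Monotone q → (∀ x, 0 ≤ q x) → (∀ x, q x ≤ Q) →
        (∀ i1 i2 i3 i4 i5, i1 < M → i2 < M → i3 < M → i4 < M → i5 < M →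
          κ (gp M a0 a1 i1 + μ) - κ (gp M a0 a1 i1 - μ) ≤ η1 →
          lam (y i1 + gp M h0 h1 i3 + ω) - lam (y i1 + gp M h0 h1 i3 - ω) ≤ η →
          q (y i1 + gp M h0 h1 i3 + ω) - q (y i1 + gp M h0 h1 i3 - ω) < 1 →
          i2 + ⌈c * M⌉₊ < M → i4 + ⌈c * M⌉₊ < M → ⌈c * M⌉₊ ≤ i5 →
            F i1 i2 i3 i4 i5 ≤ G i1 (i2 + ⌈c * M⌉₊) i3 (i4 + ⌈c * M⌉₊) (i5 - ⌈c * M⌉₊) + e) →
        S5 M F ≤ S5 M G + (e + ε) * (M : ℝ) ^ 5 := by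
  obtain ⟨M1, hM1, hM⟩ := shift_const (η' := 1) (B1 := 2) (B2 := 2) (B3 := Q) hε ha hh hη1 hη one_pos (by norm_num) (by norm_num)
    hQ hc0 hc (by rw [div_one]; exact hωε)
  refine ⟨M1, hM1, fun M hMM => ?_⟩
  obtain ⟨μ0, hμ0, hμ1, hμ2⟩ := hM M hMM
  refine ⟨μ0, hμ0, hμ1, fun μ hμ hμμ F G e κ lam q y hF hG he hκ hκ0 hκ1 hl hl0 hl1 hq hq0 hq1 H => ?_⟩
  have main := s5_shift (M := M) (J := ⌈c * M⌉₊) (lt_of_lt_of_le Nat.one_pos (hM1.trans hMM)) hF hG he ha hh hμ hω hη1 hη hκ hκ0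
    hκ1 hl hl0 hl1 hq hq0 hq1 H
  have h2 := hμ2 μ hμ hμμ e
  rw [div_one] at h2
  refine main.trans ?_
  have h3 := mul_le_mul_of_nonneg_right h2 (by positivity : (0 : ℝ) ≤ (M : ℝ) ^ 4)
  have e5 : (e + ε) * (M : ℝ) ^ 5 = (e + ε) * M * (M : ℝ) ^ 4 := by ring
  rw [e5]
  linarith

/-- **the one-sided comparison with constants**, families of functions of the other parameters -/
theorem s5_shiftF' {ε a0 a1 h0 h1 η1 η η' ω c B1 B2 B3 : ℝ} (hε : 0 < ε) (ha : a0 < a1) (hh : h0 < h1) (hη1 : 0 < η1)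
    (hη : 0 < η) (hη' : 0 < η') (hB1 : 0 ≤ B1) (hB2 : 0 ≤ B2) (hB3 : 0 ≤ B3) (hω : 0 ≤ ω) (hc0 : 0 ≤ c) (hc : c ≤ ε / 64)
    (hωε : 2 * ω / (h1 - h0) * (B2 / η + B3 / η') ≤ ε / 8) :
    ∃ M1 : ℕ, 1 ≤ M1 ∧ ∀ M : ℕ, M1 ≤ M → ∃ μ0 : ℝ, 0 < μ0 ∧ μ0 ≤ 1 / M ∧ ∀ μ : ℝ, 0 ≤ μ → μ ≤ μ0 →
      ∀ {F G : ℕ → ℕ → ℕ → ℕ → ℕ → ℝ} {e : ℝ} {κ : ℝ → ℝ} {lam q : ℕ → ℕ → ℕ → ℕ → ℝ → ℝ},
        (∀ i1 i2 i3 i4 i5, i1 < M → i2 < M → i3 < M → i4 < M → i5 < M → F i1 i2 i3 i4 i5 ≤ 1) →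
        (∀ i1 i2 i3 i4 i5, i1 < M → i2 < M → i3 < M → i4 < M → i5 < M → 0 ≤ G i1 i2 i3 i4 i5) → 0 ≤ e →
        Monotone κ → (∀ x, 0 ≤ κ x) → (∀ x, κ x ≤ B1) →
        (∀ i1 i2 i4 i5, Monotone (lam i1 i2 i4 i5)) → (∀ i1 i2 i4 i5 x, 0 ≤ lam i1 i2 i4 i5 x) →
        (∀ i1 i2 i4 i5 x, lam i1 i2 i4 i5 x ≤ B2) →
        (∀ i1 i2 i4 i5, Monotone (q i1 i2 i4 i5)) → (∀ i1 i2 i4 i5 x, 0 ≤ q i1 i2 i4 i5 x) →
        (∀ i1 i2 i4 i5 x, q i1 i2 i4 i5 x ≤ B3) →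
        (∀ i1 i2 i3 i4 i5, i1 < M → i2 < M → i3 < M → i4 < M → i5 < M →
          κ (gp M a0 a1 i1 + μ) - κ (gp M a0 a1 i1 - μ) ≤ η1 →
          lam i1 i2 i4 i5 (gp M h0 h1 i3 + ω) - lam i1 i2 i4 i5 (gp M h0 h1 i3 - ω) ≤ η →
          q i1 i2 i4 i5 (gp M h0 h1 i3 + ω) - q i1 i2 i4 i5 (gp M h0 h1 i3 - ω) < η' →
          i2 + ⌈c * M⌉₊ < M → i4 + ⌈c * M⌉₊ < M → ⌈c * M⌉₊ ≤ i5 →
            F i1 i2 i3 i4 i5 ≤ G i1 (i2 + ⌈c * M⌉₊) i3 (i4 + ⌈c * M⌉₊) (i5 - ⌈c * M⌉₊) + e) →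
        S5 M F ≤ S5 M G + (e + ε) * (M : ℝ) ^ 5 := by
  obtain ⟨M1, hM1, hM⟩ := shift_const hε ha hh hη1 hη hη' hB1 hB2 hB3 hc0 hc hωε
  refine ⟨M1, hM1, fun M hMM => ?_⟩
  obtain ⟨μ0, hμ0, hμ1, hμ2⟩ := hM M hMM
  refine ⟨μ0, hμ0, hμ1, fun μ hμ hμμ F G e κ lam q hF hG he hκ hκ0 hκ1 hl hl0 hl1 hq hq0 hq1 H => ?_⟩
  have main := s5_shiftF (M := M) (J := ⌈c * M⌉₊) (lt_of_lt_of_le Nat.one_pos (hM1.trans hMM)) hF hG he ha hh hμ hω hη1 hη hη'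
    hκ hκ0 hκ1 hl hl0 hl1 hq hq0 hq1 H
  have h2 := hμ2 μ hμ hμμ e
  refine main.trans ?_
  have h3 := mul_le_mul_of_nonneg_right h2 (by positivity : (0 : ℝ) ≤ (M : ℝ) ^ 4)
  have e5 : (e + ε) * (M : ℝ) ^ 5 = (e + ε) * M * (M : ℝ) ^ 4 := by ring
  rw [e5]
  linarith

end Pool.Agent.SCF.Z
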