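import Pool.Agent.SCF.MacD
import Pool.Agent.SCF.MacG
import Pool.Agent.SCF.MDefs2

/-!
# ScaleFlow, row MAC (helper66): **`ps1C : Ps1C`**, comparison of the averages `ps1` of two close walks
-/

set_option autoImplicit false

open Set Filter Topology MeasureTheory

namespace Pool.Agent.SCF.M

open Pool.Agent.NTS.Res
open Pool.Agent.CRT (CI)
open Pool.Agent.SCF.Z

lemma gpS (M : ℕ) (x y S : ℝ) (i : ℕ) : gp M (x * S) (y * S) i = gp M x y i * S := by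
  rw [mul_comm x S, mul_comm y S, gp_mul, mul_comm]

/-- `T1` is monotone in the radii -/
lemma t1_mono {n : ℕ} {s : Fin n → Fin 3} {a r r' h L L' ρ ρ' : ℝ} {k k2 : ℕ} (ht : T1 a r h L ρ s k k2) (hr : r ≤ r')
    (hL : L ≤ L') (hρ : ρ' ≤ ρ) : T1 a r' h L' ρ' s k k2 :=
  ⟨⟨ht.1.1, ht.1.2.1, fun i j hi hj => (ht.1.2.2.1 i j hi hj).trans hr, ht.1.2.2.2⟩,
    ⟨ht.2.1.1, ht.2.1.2.1, ht.2.1.2.2.1, ht.2.1.2.2.2.1, ht.2.1.2.2.2.2.1, fun j h1 h2 => (ht.2.1.2.2.2.2.2.1 j h1 h2).trans hL,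
      ht.2.1.2.2.2.2.2.2⟩, ht.2.2.1, ht.2.2.2.1, fun j h1 h2 h3 => ht.2.2.2.2 j h1 h2 (h3.trans hρ)⟩

lemma in1_ge {a r h L ρ x1 x2 : ℝ} {n : ℕ} {s : Fin n → Fin 3} {k k2 : ℕ} (ht : T1 a r h L ρ s k k2) :
    wt1 x1 x2 n (k2 - k) ≤ in1 a r h L ρ x1 x2 s := by
  classical
  have hk2 : k2 < n := ht.2.2.1
  have hk : k < k2 := ht.2.1.1
  unfold in1
  have h1 : ∀ j ∈ Finset.range (n + 1), 0 ≤ ∑ j2 ∈ Finset.range (n + 1), if T1 a r h L ρ s j j2 then wt1 x1 x2 n (j2 - j) else 0 :=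
    fun j _ => Finset.sum_nonneg fun j2 _ => by
      split_ifs
      · exact wt1_nn _ _ _ _
      · exact le_rfl
  refine le_trans ?_ (Finset.single_le_sum h1 (Finset.mem_range.2 (by omega : k < n + 1)))
  have h2 : ∀ j2 ∈ Finset.range (n + 1), 0 ≤ if T1 a r h L ρ s k j2 then wt1 x1 x2 n (j2 - k) else 0 := fun j2 _ => by
    split_ifs
    · exact wt1_nn _ _ _ _
    · exact le_rfl
  refine le_trans ?_ (Finset.single_le_sum h2 (Finset.mem_range.2 (by omega : k2 < n + 1)))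
  rw [if_pos ht]

lemma inv_small {θ : ℝ} (hθ : 0 < θ) : ∃ n0 : ℕ, ∀ n : ℕ, n0 ≤ n → 1 ≤ n ∧ 1 / (n : ℝ) ≤ θ ∧ 1 / size n ≤ θ := by
  obtain ⟨cs, Cs, hcs, hsz, -⟩ := NTSF.finE
  obtain ⟨A, hA⟩ := exists_nat_ge ((1 / (θ * cs)) ^ (4 / 3 : ℝ))
  obtain ⟨B, hB⟩ := exists_nat_ge (1 / θ)
  refine ⟨max 1 (max A B), fun n hn => ?_⟩
  have h1 : 1 ≤ n := (le_max_left _ _).trans hn
  have h2 : A ≤ n := ((le_max_left _ _).trans (le_max_right _ _)).trans hn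
  have h3 : B ≤ n := ((le_max_right _ _).trans (le_max_right _ _)).trans hn
  have hn0 : (0 : ℝ) < n := by exact_mod_cast h1
  have h2' : (A : ℝ) ≤ n := by exact_mod_cast h2
  have h3' : (B : ℝ) ≤ n := by exact_mod_cast h3
  refine ⟨h1, ?_, ?_⟩
  · rw [div_le_iff₀ hn0]
    have := hB.trans h3'
    rwa [div_le_iff₀ hθ, mul_comm] at this
  · have hs := NTSF.size_pos h1
    have e1 : 1 / (θ * cs) ≤ (n : ℝ) ^ (3 / 4 : ℝ) := by
      have h4 : ((1 / (θ * cs)) ^ (4 / 3 : ℝ)) ^ (3 / 4 : ℝ) ≤ (n : ℝ) ^ (3 / 4 : ℝ) :=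
        Real.rpow_le_rpow (by positivity) (hA.trans h2') (by norm_num)
      rw [← Real.rpow_mul (by positivity)] at h4
      norm_num at h4
      rw [one_div]
      convert h4 using 1
      rw [mul_inv, mul_comm]
    have e2 := (hsz n h1).1
    rw [div_le_iff₀ hs]
    rw [div_le_iff₀ (by positivity)] at e1
    nlinarith

/-- the functions of the levels -/
lemma p1_mono {R : ℝ} {n : ℕ} (hn : 1 ≤ n) (s : Fin n → Fin 3) : Monotone fun a => ft n (P1 R a s) := fun a b hab =>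
  ft_mono hn (fun _ hc => ⟨hc.1, dmg_mono hc.2 (mul_le_mul_of_nonneg_right hab (NTSF.size_pos hn).le) le_rfl⟩) fun _ hc => hc.1.le

lemma p2_mono {R : ℝ} {n : ℕ} (hn : 1 ≤ n) (s : Fin n → Fin 3) : Monotone fun x => ft n (P2 R x s) := fun a b hab =>
  ft_mono hn (fun _ hc => ⟨hc.1, (mul_le_mul_of_nonneg_right hab (NTSF.size_pos hn).le).trans hc.2⟩) fun _ hc => hc.1.le

lemma qf_mono {R w Q : ℝ} (hR : 0 < R) {n : ℕ} (hn : 1 ≤ n) (s : Fin n → Fin 3)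
    (hQ : ∀ c : ℕ, ((VS (140 * R * size n) (w * size n) s c).card : ℝ) ≤ Q) :
    Monotone fun x => qf (Q + 1) (fun c => ((VS (140 * R * size n) (w * size n) s c).card : ℝ)) (P2 R x s) := by
  classical
  intro x y hxy
  have hs := NTSF.size_pos hn
  have hle : ∀ c, P2 R y s c → P2 R x s c := fun c hc => ⟨hc.1, (mul_le_mul_of_nonneg_right hxy hs.le).trans hc.2⟩
  show qf _ _ (P2 R x s) ≤ qf _ _ (P2 R y s)
  by_cases h : ∃ c, P2 R y s c
  · have h' : ∃ c, P2 R x s c := ⟨_, hle _ (Nat.find_spec h)⟩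
    rw [qf_of (Nat.find_spec h) fun c' hc' => Nat.find_min h hc', qf_of (Nat.find_spec h') fun c' hc' => Nat.find_min h' hc']
    have h1 : Nat.find h' ≤ Nat.find h := Nat.find_min' h' (hle _ (Nat.find_spec h))
    have h2 : Nat.find h' = Nat.find h ∨ SCut s 0 (Nat.find h') (Nat.find h) := by
      rcases eq_or_lt_of_le h1 with h3 | h3
      · exact Or.inl h3
      · exact Or.inr ((Nat.find_spec h').1.scut (mul_pos hR hs) (Nat.find_spec h).1 h3)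
    exact_mod_cast Finset.card_le_card (vs_mono h2)
  · rw [qf_no h]
    by_cases h' : ∃ c, P2 R x s c
    · rw [qf_of (Nat.find_spec h') fun c' hc' => Nat.find_min h' hc']
      have := hQ (Nat.find h')
      linarith
    · rw [qf_no h']

lemma qf_bd {R w Q : ℝ} (hQ0 : 0 ≤ Q) {n : ℕ} (s : Fin n → Fin 3)
    (hQ : ∀ c : ℕ, ((VS (140 * R * size n) (w * size n) s c).card : ℝ) ≤ Q) (x : ℝ) :
    0 ≤ qf (Q + 1) (fun c => ((VS (140 * R * size n) (w * size n) s c).card : ℝ)) (P2 R x s) ∧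
      qf (Q + 1) (fun c => ((VS (140 * R * size n) (w * size n) s c).card : ℝ)) (P2 R x s) ≤ Q + 1 := by
  classical
  by_cases h' : ∃ c, P2 R x s c
  · rw [qf_of (Nat.find_spec h') fun c' hc' => Nat.find_min h' hc']
    have := hQ (Nat.find h')
    exact ⟨Nat.cast_nonneg _, by linarith⟩
  · rw [qf_no h']
    exact ⟨by linarith, le_rfl⟩

end Pool.Agent.SCF.M
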