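import Pool.Agent.SCF.MDefs2
import Pool.Agent.SCF.McS
import Pool.Agent.SCF.Uniq

/-!
# ScaleFlow, row MAC (helper11): `MacT1` from the modulus of continuity, the stability and the comparison of `ps1`
-/

set_option autoImplicit false

open Set Filter Topology MeasureTheory

namespace Pool.Agent.SCF.M

open Pool.Agent.NTS.Res
open Pool.Agent.CRT (CI)
open Pool.Agent.CRT.V.VC (pr pr_or pr_mono)
open Pool.Agent.SCF.Z

/-- **MAC from `MdP`, `StbP`, `Ps1C`** -/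
theorem macT1_of (hMd : MdP) (hSt : StbP) (hPs : Ps1C) : MacT1 := by
  intro R L κ x1 x2 hR hL hLR hκ hκ1 hx1 hx12 hx2 ε hε
  have he : 0 < ε / 3 := by positivity
  have he4 : 0 < ε / 3 / 4 := by positivity
  choose! ηf hη0 hη1 using fun ω hω => hMd (ε / 3 / 4) ω he4 hω
  obtain ⟨ω1, ω2, M1, hω1, hω2, hM⟩ := hPs R L x1 x2 hR hL hLR hx12 ηf hη0 (ε / 3) he
  refine ⟨M1, fun M hM1 hM0 => ?_⟩
  obtain ⟨ω3, θ, n1, hω3, hθ, hcmp⟩ := hM M hM1 hM0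
  obtain ⟨δ, n2, Bad, hδ, hBad, hstb⟩ := hSt R κ θ (ε / 3 / 4) hR hκ hκ1 hθ he4
  obtain ⟨n0, hn0⟩ : ∃ n0 : ℕ, n0 = max (max n1 n2) 1 := ⟨_, rfl⟩
  have hsz : ∀ n : ℕ, 0 ≤ size n := fun n => by
    unfold size
    positivity
  have hn1 : ∀ n : ℕ, n0 ≤ n → n1 ≤ n := fun n h => by omega
  have hn2 : ∀ n : ℕ, n0 ≤ n → n2 ≤ n := fun n h => by omega
  have hn3 : ∀ n : ℕ, n0 ≤ n → 1 ≤ n := fun n h => by omega
  obtain ⟨φ, K, h1, h2, h3⟩ := mcs_zc (p := fun n s => ps1 M (R * size n) (L * size n) x1 x2 s)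
    (fun n s => ps1_nn _ _ _ _ _ s)
    (fun n s => ps1_le (mul_nonneg hR.le (hsz n)) (mul_nonneg hL.le (hsz n)) (by
      have := mul_le_mul_of_nonneg_right hLR (hsz n)
      linarith) s)
    (ζ := zc κ (1000 * R)) (fun γ => SCF.tr_nonneg _) (fun γ => SCF.tr_le _) (L := 1 / (1000 * R)) (by positivity)
    (fun γ γ' => zc_lip hκ (by positivity) γ γ') (ε := ε / 3) (δ := min δ θ) he (lt_min hδ hθ) (n0 := n0)
    (Bad := fun n s => ((¬ Md (ηf ω1) ω1 s ∨ ¬ Md (ηf ω2) ω2 s) ∨ ¬ Md (ηf ω3) ω3 s) ∨ Bad n s) (by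
      intro n hn
      have a1 := hη1 ω1 hω1 n (hn3 n hn)
      have a2 := hη1 ω2 hω2 n (hn3 n hn)
      have a3 := hη1 ω3 hω3 n (hn3 n hn)
      have a4 := hBad n (hn2 n hn)
      have b1 : pr n (fun s => (((¬ Md (ηf ω1) ω1 s ∨ ¬ Md (ηf ω2) ω2 s) ∨ ¬ Md (ηf ω3) ω3 s) ∨ Bad n s) ∧
          0 < zc κ (1000 * R) (curve s)) ≤
          pr n (fun s => (¬ Md (ηf ω1) ω1 s ∨ ¬ Md (ηf ω2) ω2 s) ∨ ¬ Md (ηf ω3) ω3 s) +
            pr n (fun s => Bad n s ∧ 0 < zc κ (1000 * R) (curve s)) :=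
        pr_or fun s _ h => by
          rcases h with ⟨h | h, h'⟩
          · exact Or.inl h
          · exact Or.inr ⟨h, h'⟩
      have b2 : pr n (fun s => (¬ Md (ηf ω1) ω1 s ∨ ¬ Md (ηf ω2) ω2 s) ∨ ¬ Md (ηf ω3) ω3 s) ≤
          pr n (fun s => ¬ Md (ηf ω1) ω1 s ∨ ¬ Md (ηf ω2) ω2 s) + pr n (fun s => ¬ Md (ηf ω3) ω3 s) :=
        pr_or fun s _ h => h
      have b3 : pr n (fun s => ¬ Md (ηf ω1) ω1 s ∨ ¬ Md (ηf ω2) ω2 s) ≤
          pr n (fun s => ¬ Md (ηf ω1) ω1 s) + pr n (fun s => ¬ Md (ηf ω2) ω2 s) :=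
        pr_or fun s _ h => h
      linarith) (by
      intro n n' s s' hn hn' hs hs' hB hB' hz hz' hd
      push Not at hB hB'
      obtain ⟨⟨⟨m1, m2⟩, m3⟩, hb⟩ := hB
      obtain ⟨⟨⟨m1', m2'⟩, m3'⟩, hb'⟩ := hB'
      have hd1 : dist (curve s) (curve s') ≤ δ := hd.trans (min_le_left _ _)
      have hd2 : dist (curve s) (curve s') ≤ θ := hd.trans (min_le_right _ _)
      exact hcmp n n' s s' (hn1 n hn) (hn1 n' hn') m1' m2' m3'
        (hstb n n' s s' (hn2 n hn) (hn2 n' hn') hs hs' hb hb' hz hz' hd1)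
        (hstb n' n s' s (hn2 n' hn') (hn2 n hn) hs' hs hb' hb hz' hz (by rwa [dist_comm])) hd2)
  refine ⟨φ, K, h1, h2, n0, fun n hn => ?_⟩
  have := h3 n hn
  calc _ ≤ _ := this
    _ = _ := by ring

end Pool.Agent.SCF.M
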