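import Pool.Agent.SCF.ZDefs

/-!
# ScaleFlow, row P0 (helper16), deterministic part: a gate near the start contains a start gate `T0` of its level
-/

set_option autoImplicit false

open Set Filter Topology MeasureTheory

namespace Pool.Agent.SCF.Z

open Pool.Agent.NTS.Res

lemma DmG.mono {n : ℕ} {a a' : ℝ} {s : Fin n → Fin 3} {k : ℕ} (h : DmG a s k) (ha : a' ≤ a) : DmG a' s k := by
  obtain ⟨i, j, hi, hj, h⟩ := h
  exact ⟨i, j, hi, hj, ha.trans h⟩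

lemma GU.mono {n : ℕ} {a r r' : ℝ} {s : Fin n → Fin 3} {k : ℕ} (h : GU a r s k) (hr : r ≤ r') : GU a r' s k :=
  ⟨h.1, h.2.1, fun i j hi hj => (h.2.2.1 i j hi hj).trans hr, h.2.2.2⟩

lemma GC.mono {n : ℕ} {ρ ρ' : ℝ} {s : Fin n → Fin 3} {k : ℕ} (h : GC ρ s k) (hρ : ρ' ≤ ρ) : GC ρ' s k :=
  ⟨h.1, h.2.1, fun j h1 h2 h3 => h.2.2 j h1 h2 (h3.trans hρ)⟩

/-- a gate: the walk is weakly to the left of `w_k` before `k`, and to the right of it behind `k` in the ball of radius `W` -/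
def Gate {n : ℕ} (W : ℝ) (s : Fin n → Fin 3) (k : ℕ) : Prop :=
  Even k ∧ (∀ i : ℕ, i ≤ k → (pos s i).re ≤ (pos s k).re) ∧ GC W s k

/-- **a gate contains a start gate** -/
theorem gate_T0 {n : ℕ} {s : Fin n → Fin 3} {k : ℕ} {a r ρ W : ℝ} (h : Gate W s k)
    (hd : ∀ i j : ℕ, i ≤ k → j ≤ k → ‖pos s i - pos s j‖ ≤ r) (hD : DmG a s k) (hW : r + ρ ≤ W) :
    ∃ k' : ℕ, k' ≤ k ∧ T0 a r ρ s k' := by
  classical
  obtain ⟨he, hl, hk, h1, hr⟩ := h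
  by_cases hex : ∃ k', SCut s 0 k' k ∧ DmG a s k'
  · obtain ⟨k', hk'⟩ : ∃ k', k' = Nat.find hex := ⟨_, rfl⟩
    have hf := Nat.find_spec hex
    rw [← hk'] at hf
    obtain ⟨⟨c1, c2, c3, c4, c5, c6⟩, c7⟩ := hf
    refine ⟨k', c2.le, ⟨c3, fun i hi => c5 i (Nat.zero_le i) hi, fun i j hi hj => hd i j (by omega) (by omega), c7,
      fun k'' hc hD' => ?_⟩, by omega, c4, fun j hj hjn hn => ?_⟩
    · obtain ⟨d1, d2, d3, d4, d5, d6⟩ := hc
      refine Nat.find_min hex (m := k'') (by rw [← hk']; exact d2) ⟨⟨d1, by omega, d3, d4, d5, fun j g1 g2 => ?_⟩, hD'⟩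
      rcases le_or_gt j k' with g3 | g3
      · exact d6 j g1 g3
      · have g4 := d6 k' d2 le_rfl
        have g5 := c6 j g3 g2
        linarith
    · rcases le_or_gt j k with g3 | g3
      · exact c6 j hj g3
      · have g4 : ‖pos s j - pos s k‖ ≤ W := by
          calc ‖pos s j - pos s k‖ = ‖(pos s j - pos s k') + (pos s k' - pos s k)‖ := by ring_nf
            _ ≤ ‖pos s j - pos s k'‖ + ‖pos s k' - pos s k‖ := norm_add_le _ _
            _ ≤ W := by linarith [hd k' k c2.le le_rfl]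
        have g5 := hr j g3 hjn g4
        have g6 := c6 k c2 le_rfl
        linarith
  · push Not at hex
    have hr0 : 0 ≤ r := (norm_nonneg _).trans (hd 0 0 (Nat.zero_le _) (Nat.zero_le _))
    exact ⟨k, le_rfl, ⟨he, hl, hd, hD, fun k' hc => hex k' hc⟩, (GC.mono ⟨hk, h1, hr⟩ (by linarith))⟩

lemma one_le_th0 {n : ℕ} {a r ρ : ℝ} {s : Fin n → Fin 3} {k : ℕ} (h : T0 a r ρ s k) : 1 ≤ th0 a r ρ s := by
  classical
  unfold th0
  have h1 : 1 ≤ ((Finset.range (n + 1)).filter fun k => T0 a r ρ s k).card := by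
    refine Finset.card_pos.2 ⟨k, ?_⟩
    rw [Finset.mem_filter, Finset.mem_range]
    have := h.2.1
    exact ⟨by omega, h⟩
  exact_mod_cast h1

lemma th0_nonneg {n : ℕ} (a r ρ : ℝ) (s : Fin n → Fin 3) : 0 ≤ th0 a r ρ s := by
  unfold th0
  exact Nat.cast_nonneg _

/-- **one level** -/
theorem level_th0 {n : ℕ} {s : Fin n → Fin 3} {k : ℕ} {W R : ℝ} (h : Gate W s k)
    (hd : ∀ i j : ℕ, i ≤ k → j ≤ k → ‖pos s i - pos s j‖ ≤ R) (hD : DmG (R / 2) s k) (hW : 129 * R ≤ W) {u1 u2 u3 : ℝ}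
    (h1 : u1 ≤ 1) (h2 : 0 ≤ u2) (h3 : u3 ≤ 1) : 1 ≤ th0 ((1 + u1) * R / 4) ((1 + u2) * R) (64 * (1 + u3) * R) s := by
  have hR : 0 ≤ R := (norm_nonneg _).trans (hd 0 0 (Nat.zero_le _) (Nat.zero_le _))
  obtain ⟨k', -, h4⟩ := gate_T0 (a := (1 + u1) * R / 4) (r := R) (ρ := 64 * (1 + u3) * R) h hd (hD.mono (by nlinarith)) (by nlinarith)
  exact one_le_th0 (k := k') ⟨h4.1.mono (by nlinarith), h4.2⟩

/-- the level of a diameter -/
lemma level_of {D R : ℝ} {M0 : ℕ} (hD1 : R / 2 ^ M0 < D) (hD2 : D ≤ R) (hM : 0 < M0) :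
    ∃ i : ℕ, i < M0 ∧ R / 2 ^ i / 2 < D ∧ D ≤ R / 2 ^ i := by
  classical
  have hex : ∃ i : ℕ, R / 2 ^ i / 2 < D := by
    refine ⟨M0 - 1, ?_⟩
    have : R / 2 ^ (M0 - 1) / 2 = R / 2 ^ M0 := by
      rw [div_div, ← pow_succ, Nat.sub_add_cancel hM]
    rwa [this]
  refine ⟨Nat.find hex, ?_, Nat.find_spec hex, ?_⟩
  · have : Nat.find hex ≤ M0 - 1 := Nat.find_min' hex (by
      have : R / 2 ^ (M0 - 1) / 2 = R / 2 ^ M0 := by
        rw [div_div, ← pow_succ, Nat.sub_add_cancel hM]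
      rwa [this])
    omega
  · rcases Nat.eq_zero_or_pos (Nat.find hex) with h | h
    · rw [h, pow_zero, div_one]
      exact hD2
    · have h1 := Nat.find_min hex (m := Nat.find hex - 1) (by omega)
      push Not at h1
      have : R / 2 ^ (Nat.find hex - 1) / 2 = R / 2 ^ Nat.find hex := by
        rw [div_div, ← pow_succ, Nat.sub_add_cancel h]
      rwa [this] at h1

open Classical in
/-- the diameter of the start piece -/
noncomputable def dm {n : ℕ} (s : Fin n → Fin 3) (k : ℕ) : ℝ :=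
  ((Finset.range (k + 1) ×ˢ Finset.range (k + 1)).image fun p => ‖pos s p.1 - pos s p.2‖).max' (by
    refine Finset.Nonempty.image ⟨(0, 0), ?_⟩ _
    simp)

lemma le_dm {n : ℕ} (s : Fin n → Fin 3) {k i j : ℕ} (hi : i ≤ k) (hj : j ≤ k) : ‖pos s i - pos s j‖ ≤ dm s k := by
  classical
  unfold dm
  refine Finset.le_max' _ _ ?_
  rw [Finset.mem_image]
  refine ⟨(i, j), ?_, rfl⟩
  simp only [Finset.mem_product, Finset.mem_range]
  omega

lemma dm_dmG {n : ℕ} (s : Fin n → Fin 3) {k : ℕ} {a : ℝ} (ha : a ≤ dm s k) : DmG a s k := by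
  classical
  have h := Finset.max'_mem ((Finset.range (k + 1) ×ˢ Finset.range (k + 1)).image fun p => ‖pos s p.1 - pos s p.2‖) (by
    refine Finset.Nonempty.image ⟨(0, 0), ?_⟩ _
    simp)
  obtain ⟨⟨i, j⟩, h1, h2⟩ := Finset.mem_image.1 h
  simp only [Finset.mem_product, Finset.mem_range] at h1
  exact ⟨i, j, by omega, by omega, ha.trans (le_of_eq h2.symm)⟩

open Classical in
/-- **the block of levels** : the walks with a gate of a diameter in `(R / 2 ^ M0, R]` and a window `258` times larger -/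
theorem block_th0 {n M0 : ℕ} {R : ℝ} (hM : 0 < M0) {u1 u2 u3 : ℝ} (h1 : u1 ≤ 1) (h2 : 0 ≤ u2) (h3 : u3 ≤ 1) :
    (((saw n).filter fun s => ∃ (k : ℕ) (W : ℝ), Gate W s k ∧ R / 2 ^ M0 < dm s k ∧ dm s k ≤ R ∧ 258 * dm s k ≤ W).card : ℝ) ≤
      ∑ i ∈ Finset.range M0, ∑ s ∈ saw n,
        th0 ((1 + u1) * (R / 2 ^ i) / 4) ((1 + u2) * (R / 2 ^ i)) (64 * (1 + u3) * (R / 2 ^ i)) s := by
  rw [Finset.sum_comm]
  have e : (((saw n).filter fun s => ∃ (k : ℕ) (W : ℝ), Gate W s k ∧ R / 2 ^ M0 < dm s k ∧ dm s k ≤ R ∧ 258 * dm s k ≤ W).card : ℝ) =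
      ∑ s ∈ saw n, if (∃ (k : ℕ) (W : ℝ), Gate W s k ∧ R / 2 ^ M0 < dm s k ∧ dm s k ≤ R ∧ 258 * dm s k ≤ W) then (1 : ℝ) else 0 := by
    rw [Finset.sum_ite, Finset.sum_const_zero, add_zero, Finset.sum_const, nsmul_eq_mul, mul_one]
  rw [e]
  refine Finset.sum_le_sum fun s _ => ?_
  split_ifs with hg
  · obtain ⟨k, W, hG, hD1, hD2, hW⟩ := hg
    obtain ⟨i, hi, hi1, hi2⟩ := level_of hD1 hD2 hM
    refine le_trans ?_ (Finset.single_le_sum (f := fun i => th0 ((1 + u1) * (R / 2 ^ i) / 4) ((1 + u2) * (R / 2 ^ i))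
      (64 * (1 + u3) * (R / 2 ^ i)) s) (fun i _ => th0_nonneg _ _ _ _) (Finset.mem_range.2 hi))
    exact level_th0 hG (fun i' j hi' hj => (le_dm s hi' hj).trans hi2) (dm_dmG s hi1.le) (by linarith) h1 h2 h3
  · exact Finset.sum_nonneg fun i _ => th0_nonneg _ _ _ _

/-- start gate: start piece weakly to the left, diameter in [d1, d2], the walk behind `k` to the right in the ball of radius `W`
about `w_k` -/
def SGt (d1 d2 W : ℝ) {n : ℕ} (s : Fin n → Fin 3) (k : ℕ) : Prop :=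
  k < n ∧ Even k ∧ pos s (k + 1) = pos s k + 1 ∧ (∀ i : ℕ, i ≤ k → (pos s i).re ≤ (pos s k).re) ∧
    (∀ i j : ℕ, i ≤ k → j ≤ k → ‖pos s i - pos s j‖ ≤ d2) ∧ DmG d1 s k ∧
    ∀ j : ℕ, k < j → j ≤ n → ‖pos s j - pos s k‖ ≤ W → (pos s k).re + 1 ≤ (pos s j).re

lemma dm_le {n : ℕ} (s : Fin n → Fin 3) {k : ℕ} {d : ℝ} (h : ∀ i j : ℕ, i ≤ k → j ≤ k → ‖pos s i - pos s j‖ ≤ d) : dm s k ≤ d := by
  classical
  unfold dm
  refine Finset.max'_le _ _ _ fun y hy => ?_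
  rw [Finset.mem_image] at hy
  obtain ⟨⟨i, j⟩, h1, rfl⟩ := hy
  simp only [Finset.mem_product, Finset.mem_range] at h1
  exact h i j (by omega) (by omega)

/-- **a start gate counts in one of the levels** -/
theorem one_le_sum {n : ℕ} {s : Fin n → Fin 3} {k M : ℕ} {R d1 d2 W u1 u2 u3 : ℝ} (h : SGt d1 d2 W s k) (hR : 0 < R)
    (h1 : R / 2 ^ M ≤ d1) (h2 : d2 ≤ R) (hW : 260 * d2 ≤ W) (hu : 0 ≤ u1 ∧ u1 ≤ 1 ∧ 0 ≤ u2 ∧ u2 ≤ 1 ∧ 0 ≤ u3 ∧ u3 ≤ 1) :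
    1 ≤ ∑ i ∈ Finset.range (M + 1), th0 ((1 + u1) * (R / 2 ^ i) / 4) ((1 + u2) * (R / 2 ^ i)) (64 * (1 + u3) * (R / 2 ^ i)) s := by
  obtain ⟨a1, a2, a3, a4, a5, ⟨i0, j0, hi0, hj0, a6⟩, a7⟩ := h
  have hD1 : d1 ≤ dm s k := a6.trans (le_dm s hi0 hj0)
  have hD2 : dm s k ≤ d2 := dm_le s a5
  have hd2 : 0 ≤ d2 := (norm_nonneg _).trans (a5 0 0 (Nat.zero_le _) (Nat.zero_le _))
  have hG : Gate W s k := ⟨a2, a4, a1, a3, a7⟩
  have hp : R / 2 ^ (M + 1) < dm s k := by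
    have e : R / 2 ^ (M + 1) = R / 2 ^ M / 2 := by rw [pow_succ, div_div]
    have : 0 < R / 2 ^ M := by positivity
    rw [e]
    linarith
  obtain ⟨i, hi, hi1, hi2⟩ := level_of hp (hD2.trans h2) (Nat.succ_pos M)
  refine le_trans ?_ (Finset.single_le_sum (f := fun i => th0 ((1 + u1) * (R / 2 ^ i) / 4) ((1 + u2) * (R / 2 ^ i))
    (64 * (1 + u3) * (R / 2 ^ i)) s) (fun i _ => th0_nonneg _ _ _ _) (Finset.mem_range.2 hi))
  exact level_th0 hG (fun i' j hi' hj => (le_dm s hi' hj).trans hi2) (dm_dmG s hi1.le) (by linarith) hu.2.1 hu.2.2.1 hu.2.2.2.2.2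

end Pool.Agent.SCF.Z
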