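import Pool.Agent.SCF.P0A
import Pool.Agent.SCF.P0Det
import Pool.Agent.SCF.FarZ
import Pool.Agent.NTS.MergeZ

/-!
# ScaleFlow (R-), row P0 (helper29): `p0_of : TipU → P0`

Start gates with a probability bounded below, uniformly in the scale: for odd `n` from the tip gates by reversal (`odd_sga`), for
even `n` from the walks with `n + 1` steps without their last step, and helper16's `one_le_sum` (a start gate counts in one of the
levels).
-/

set_option autoImplicit false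

open Set Filter Topology

namespace Pool.Agent.SCF.Z

open Pool.Agent.NTS.Res
open NTSF (pos_zero pos_succ mem_saw size_pos saw_card_pos)

lemma sga_sgt {d1 d2 W : ℝ} {n : ℕ} {s : Fin n → Fin 3} {k : ℕ} (h : SGa d1 d2 W s k) : SGt d1 d2 W s k := h

/-- the walks do not become fewer -/
lemma saw_le_succ : ∃ n0 : ℕ, ∀ n : ℕ, n0 ≤ n → ((saw n).card : ℝ) ≤ ((saw (n + 1)).card : ℝ) := by
  have h1 := NTSF.Mg.one_step_M.1
  have h2 : (1 : ℝ) < Real.sqrt (2 + Real.sqrt 2) := by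
    rw [Real.lt_sqrt zero_le_one]
    have := Real.sqrt_nonneg 2
    linarith
  obtain ⟨n0, hn0⟩ := Filter.eventually_atTop.1 (h1.eventually (lt_mem_nhds h2))
  refine ⟨n0, fun n hn => ?_⟩
  have h3 := hn0 n hn
  have h4 := saw_card_pos n
  rw [lt_div_iff₀ h4] at h3
  linarith

open Classical in
/-- **start gates for all numbers of steps** -/
theorem all_sga (h : TipU) : ∃ c : ℝ, 0 < c ∧ ∀ A : ℝ, 0 < A → ∃ (M : ℕ) (c0 δ0 : ℝ) (n0 : ℕ), 0 < c0 ∧ 0 < δ0 ∧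
    ∀ (n : ℕ) (R : ℝ), n0 ≤ n → c0 ≤ R → R ≤ δ0 * size n →
      ((saw n).card : ℝ) ≤ 36 * (((saw n).filter fun s => ∃ (k : ℕ) (D : ℝ), R / 2 ^ M ≤ D ∧ D ≤ R ∧
        SGa (c * D - 1) (2 * D) (A * D - 1) s k).card : ℝ) := by
  obtain ⟨c, hc, h⟩ := odd_sga h
  refine ⟨c, hc, fun A hA => ?_⟩
  obtain ⟨M, c0, δ0, hc0, hδ0, h⟩ := h A hA
  obtain ⟨cs, Cs, hcs, hsize, -⟩ := NTSF.finE
  have hCs : 0 < Cs := by
    have h1 := (hsize 1 le_rfl).2
    have h2 := NTSF.size_pos (n := 1) le_rfl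
    rw [Nat.cast_one, Real.one_rpow, mul_one] at h1
    linarith
  obtain ⟨δf, hδf, nf, hf⟩ := far1 (1 / 2) (1 / 36) (by norm_num) (by norm_num) (by norm_num)
  obtain ⟨n1, hn1⟩ := saw_le_succ
  refine ⟨M, c0, min δ0 (min (δ0 * cs / Cs) (δf / 2)), max (max n1 nf) 1, hc0, by positivity, fun n R hn h1 h2 => ?_⟩
  have q1 : n1 ≤ n := (le_max_left _ _).trans ((le_max_left _ _).trans hn)
  have qf : nf ≤ n := (le_max_right _ _).trans ((le_max_left _ _).trans hn)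
  have q0 : 1 ≤ n := (le_max_right _ _).trans hn
  have hz := size_pos q0
  have r1 : R ≤ δ0 * size n := h2.trans (mul_le_mul_of_nonneg_right (min_le_left _ _) hz.le)
  have r2 : R ≤ δ0 * cs / Cs * size n := h2.trans (mul_le_mul_of_nonneg_right ((min_le_right _ _).trans (min_le_left _ _)) hz.le)
  have r3 : R ≤ δf / 2 * size n := h2.trans (mul_le_mul_of_nonneg_right ((min_le_right _ _).trans (min_le_right _ _)) hz.le)
  obtain ⟨Q, hQ⟩ : ∃ Q : (Fin n → Fin 3) → Prop, Q = fun s => ∃ (k : ℕ) (D : ℝ), R / 2 ^ M ≤ D ∧ D ≤ R ∧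
    SGa (c * D - 1) (2 * D) (A * D - 1) s k := ⟨_, rfl⟩
  have eQ : ((saw n).filter fun s => ∃ (k : ℕ) (D : ℝ), R / 2 ^ M ≤ D ∧ D ≤ R ∧
    SGa (c * D - 1) (2 * D) (A * D - 1) s k) = (saw n).filter Q := by rw [hQ]
  rw [eQ]
  rcases Nat.even_or_odd n with he | ho
  · have ho : Odd (n + 1) := he.add_one
    have r4 : R ≤ δ0 * size (n + 1) := by
      refine r2.trans ?_
      have s1 := (hsize n q0).2
      have s2 := (hsize (n + 1) (by omega)).1
      have s3 : (n : ℝ) ^ (3 / 4 : ℝ) ≤ ((n + 1 : ℕ) : ℝ) ^ (3 / 4 : ℝ) :=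
        Real.rpow_le_rpow (Nat.cast_nonneg _) (by push_cast; linarith) (by norm_num)
      have s4 : size n ≤ Cs / cs * size (n + 1) := by
        calc size n ≤ Cs * (n : ℝ) ^ (3 / 4 : ℝ) := s1
          _ ≤ Cs * ((n + 1 : ℕ) : ℝ) ^ (3 / 4 : ℝ) := by gcongr
          _ = Cs / cs * (cs * ((n + 1 : ℕ) : ℝ) ^ (3 / 4 : ℝ)) := by field_simp
          _ ≤ Cs / cs * size (n + 1) := by gcongr
      calc δ0 * cs / Cs * size n ≤ δ0 * cs / Cs * (Cs / cs * size (n + 1)) := by gcongr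
        _ = δ0 * size (n + 1) := by field_simp
    have h3 := h (n + 1) R ho h1 r4
    obtain ⟨P, hP⟩ : ∃ P : (Fin (n + 1) → Fin 3) → Prop, P = fun s => ∃ (k : ℕ) (D : ℝ), R / 2 ^ M ≤ D ∧ D ≤ R ∧
      SGa (c * D - 1) (2 * D) (A * D - 1) s k := ⟨_, rfl⟩
    have eP : ((saw (n + 1)).filter fun s => ∃ (k : ℕ) (D : ℝ), R / 2 ^ M ≤ D ∧ D ≤ R ∧
      SGa (c * D - 1) (2 * D) (A * D - 1) s k) = (saw (n + 1)).filter P := by rw [hP]
    rw [eP] at h3
    obtain ⟨F, hF⟩ : ∃ F : (Fin n → Fin 3) → Prop, F = fun s => ∃ j : ℕ, 1 / 2 * (n : ℝ) ≤ j ∧ j ≤ n ∧ ‖pos s j‖ ≤ δf * size n :=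
      ⟨_, rfl⟩
    have hfar := hf n qf
    have eF : ((saw n).filter fun s => ∃ j : ℕ, 1 / 2 * (n : ℝ) ≤ j ∧ j ≤ n ∧ ‖pos s j‖ ≤ δf * size n) = (saw n).filter F := by
      rw [hF]
    rw [eF] at hfar
    obtain ⟨G, hG⟩ : ∃ G : (Fin n → Fin 3) → Prop, G = fun s => Q s ∨ F s := ⟨_, rfl⟩
    have h4 : ((saw (n + 1)).filter P).card ≤ 3 * ((saw n).filter G).card := by
      refine card_cutw _ _ fun s _ hs => ?_
      rw [hP] at hs
      rw [hG]
      obtain ⟨k, D, g1, g2, g3⟩ := hs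
      rcases Nat.lt_or_ge k n with hk | hk
      · left
        rw [hQ]
        exact ⟨k, D, g1, g2, sga_cutw g3 hk⟩
      · right
        rw [hF]
        refine ⟨n, by linarith [(Nat.cast_nonneg n : (0 : ℝ) ≤ n)], le_rfl, ?_⟩
        obtain ⟨-, -, -, -, g4, -⟩ := g3
        have g5 := g4 n 0 hk (Nat.zero_le _)
        rw [pos_zero, sub_zero] at g5
        rw [pos_cutw s le_rfl]
        linarith
    have h5 : ((saw n).filter G).card ≤ ((saw n).filter Q).card + ((saw n).filter F).card := by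
      refine (Finset.card_le_card ?_).trans (Finset.card_union_le _ _)
      intro s hs
      rw [Finset.mem_filter] at hs
      rw [Finset.mem_union, Finset.mem_filter, Finset.mem_filter]
      have h9 := hs.2
      rw [hG] at h9
      exact h9.imp (fun h => ⟨hs.1, h⟩) (fun h => ⟨hs.1, h⟩)
    have h6 : (((saw (n + 1)).filter P).card : ℝ) ≤ 3 * (((saw n).filter Q).card + ((saw n).filter F).card) := by
      exact_mod_cast h4.trans (Nat.mul_le_mul_left 3 h5)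
    have h7 := hn1 n q1
    linarith
  · have h3 := h n R ho h1 r1
    rw [eQ] at h3
    have : (0 : ℝ) ≤ (((saw n).filter Q).card : ℝ) := Nat.cast_nonneg _
    linarith

/-- **row P0** -/
theorem p0_of (h : TipU) : P0 := by
  classical
  obtain ⟨c, hc, h⟩ := all_sga h
  obtain ⟨M, c0, δ0, n0, hc0, hδ0, h⟩ := h 530 (by norm_num)
  obtain ⟨q, hq⟩ := pow_unbounded_of_one_lt (2 / c) (one_lt_two (α := ℝ))
  obtain ⟨cs, Cs, hcs, hsize, -⟩ := NTSF.finE
  refine ⟨M + 1 + q + 1, 1 / 36, 2 * δ0, by norm_num, by positivity, fun δ1 hδ1 => ?_⟩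
  -- the scale is large
  obtain ⟨B, hB⟩ : ∃ B : ℝ, B = 2 * c0 + 2 ^ (M + 1) * (2 / c + 1) := ⟨_, rfl⟩
  have hB0 : 0 < B := by rw [hB]; positivity
  have ht : Tendsto (fun n : ℕ => δ1 * (cs * (n : ℝ) ^ (3 / 4 : ℝ))) atTop atTop :=
    (((tendsto_rpow_atTop (by norm_num : (0 : ℝ) < 3 / 4)).comp tendsto_natCast_atTop_atTop).const_mul_atTop hcs).const_mul_atTop hδ1
  obtain ⟨n1, hn1⟩ := Filter.eventually_atTop.1 (ht.eventually_ge_atTop B)
  refine ⟨max (max n0 n1) 1, fun n hn R hR1 hR2 u1 u2 u3 a1 a2 a3 a4 a5 a6 => ?_⟩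
  have q1 : n1 ≤ n := (le_max_right _ _).trans ((le_max_left _ _).trans hn)
  have qn : n0 ≤ n := (le_max_left _ _).trans ((le_max_left _ _).trans hn)
  have q0 : 1 ≤ n := (le_max_right _ _).trans hn
  have hRB : B ≤ R := by
    refine (hn1 n q1).trans (le_trans ?_ hR1)
    exact mul_le_mul_of_nonneg_left (hsize n q0).1 hδ1.le
  have hR0 : 0 < R := hB0.trans_le hRB
  have h2M : (0 : ℝ) < 2 ^ (M + 1) := by positivity
  have hc2 : 0 < 2 / c := by positivity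
  have b1 : c0 ≤ R / 2 := by
    have : 0 ≤ 2 ^ (M + 1) * (2 / c + 1) := by positivity
    linarith
  have b2 : 2 / c + 1 ≤ R / 2 ^ (M + 1) := by
    rw [le_div_iff₀ h2M]
    have : 0 ≤ 2 * c0 := by positivity
    linarith [mul_comm (2 / c + 1) ((2 : ℝ) ^ (M + 1))]
  have h3 := h n (R / 2) qn b1 (by linarith)
  have key : ∀ s : Fin n → Fin 3, (∃ (k : ℕ) (D : ℝ), R / 2 / 2 ^ M ≤ D ∧ D ≤ R / 2 ∧
      SGa (c * D - 1) (2 * D) (530 * D - 1) s k) →
      1 ≤ ∑ i ∈ Finset.range (M + 1 + q + 1), th0 ((1 + u1) * (R / 2 ^ i) / 4) ((1 + u2) * (R / 2 ^ i)) (64 * (1 + u3) * (R / 2 ^ i)) s := by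
    rintro s ⟨k, D, g1, g2, g3⟩
    have g4 : R / 2 ^ (M + 1) ≤ D := by
      refine le_trans (le_of_eq ?_) g1
      rw [pow_succ, div_div, mul_comm]
    have g5 : 2 / c + 1 ≤ D := b2.trans g4
    have g6 : 2 ≤ c * D := by
      have : 2 / c ≤ D := by linarith
      rwa [div_le_iff₀ hc, mul_comm] at this
    have g7 : 1 ≤ D := by linarith
    refine one_le_sum (sga_sgt g3) hR0 ?_ (by linarith) (by linarith) ⟨a1, a2, a3, a4, a5, a6⟩
    have g8 : c * D / 2 ≤ c * D - 1 := by linarith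
    refine le_trans ?_ g8
    have g9 : R / 2 ^ (M + 1 + q) = R / 2 ^ (M + 1) / 2 ^ q := by rw [pow_add, div_div]
    rw [g9, div_le_iff₀ (by positivity)]
    have g10 : 2 / c < 2 ^ q := hq
    have g11 : 1 ≤ c / 2 * 2 ^ q := by
      have := mul_le_mul_of_nonneg_left g10.le (by positivity : 0 ≤ c / 2)
      have e : c / 2 * (2 / c) = 1 := by field_simp
      linarith
    calc R / 2 ^ (M + 1) ≤ D * 1 := by linarith
      _ ≤ D * (c / 2 * 2 ^ q) := by
          refine mul_le_mul_of_nonneg_left g11 (by linarith)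
      _ = c * D / 2 * 2 ^ q := by ring
  rw [Finset.sum_comm]
  have h4 : (((saw n).filter fun s => ∃ (k : ℕ) (D : ℝ), R / 2 / 2 ^ M ≤ D ∧ D ≤ R / 2 ∧
      SGa (c * D - 1) (2 * D) (530 * D - 1) s k).card : ℝ) ≤
      ∑ s ∈ saw n, ∑ i ∈ Finset.range (M + 1 + q + 1),
        th0 ((1 + u1) * (R / 2 ^ i) / 4) ((1 + u2) * (R / 2 ^ i)) (64 * (1 + u3) * (R / 2 ^ i)) s := by
    have e : (((saw n).filter fun s => ∃ (k : ℕ) (D : ℝ), R / 2 / 2 ^ M ≤ D ∧ D ≤ R / 2 ∧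
      SGa (c * D - 1) (2 * D) (530 * D - 1) s k).card : ℝ) =
      ∑ s ∈ saw n, if (∃ (k : ℕ) (D : ℝ), R / 2 / 2 ^ M ≤ D ∧ D ≤ R / 2 ∧
        SGa (c * D - 1) (2 * D) (530 * D - 1) s k) then (1 : ℝ) else 0 := by
      rw [Finset.sum_ite, Finset.sum_const_zero, add_zero, Finset.sum_const, nsmul_eq_mul, mul_one]
    rw [e]
    refine Finset.sum_le_sum fun s _ => ?_
    split_ifs with hg
    · exact key s hg
    · exact Finset.sum_nonneg fun i _ => th0_nonneg _ _ _ _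
  linarith

end Pool.Agent.SCF.Z
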