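import Pool.Agent.SCF.ZDefs
import Pool.Agent.SCF.LongC
import Pool.Agent.RMP.PlPU
import Pool.Agent.NTS.Fin
import Pool.Agent.CRT.Dic3

/-!
# ScaleFlow, row POS, part 1 (helper87): first passage bridges are middle pieces

`gb_of` : a word W of FP m0 in the ball of radius L' is a middle piece `GB h L'` if `3 / 2 * (m0 - 1) < h ≤ 3 / 2 * m0`.
-/

set_option autoImplicit false

open Set

namespace Pool.Agent.SCF.Z

open Pool.Agent.NTS.Res

open HexObs hiding pos curve

open HexObs.TS HexObs.SDN HexObs.ARM HexObs.ARM.G3 HexObs.RMP HexObs.RMP.G4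

open NTF (sw JJ)

open NTSF (pos_zero pos_succ mem_saw pos_sw)

/-- the real part of the position -/
lemma re_sw {m k : ℕ} (W : List Bool) (hk : k ≤ m) : (pos (sw m W) k).re = ((lev W k : ℤ) : ℝ) / 2 := by
  rw [pos_sw m W k hk, NTF.JJ_lvl]
  rfl

/-- the levels modulo 3 -/
lemma lev_mod (W : List Bool) {k : ℕ} (hk : k ≤ W.length) : ∃ m : ℤ, lev W k = 3 * m + (if Even k then 0 else 2) := by
  obtain ⟨m, hm⟩ := Pool.Agent.CRT.V.Dic.two_re (sw W.length W) hk
  refine ⟨m, ?_⟩
  rw [re_sw W hk] at hm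
  have h1 : ((lev W k : ℤ) : ℝ) = ((3 * m + (if Even k then 0 else 2) : ℤ) : ℝ) := by
    push_cast
    linarith
  exact_mod_cast h1

/-- the norm of the position -/
lemma norm_sw {m k : ℕ} (W : List Bool) (hk : k ≤ m) : ‖pos (sw m W) k‖ ≤ ((TIW.hn (vx oo up W k) : ℤ) : ℝ) := by
  rw [pos_sw m W k hk]
  have h1 := NTF.JJ_norm (vx oo up W k)
  have h2 := TIW.nrm_le_hn (vx oo up W k)
  have h3 : (0 : ℝ) ≤ ((TIW.hn (vx oo up W k) : ℤ) : ℝ) := by exact_mod_cast TIW.hn_nonneg _
  refine abs_le_of_sq_le_sq' ?_ h3 |>.2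
  rw [h1]
  exact_mod_cast h2

/-- a cut of the walk is a cut of the word -/
lemma cut_BU {W : List Bool} (hW : W ∈ BU) {k : ℕ} (hc : SCut (sw W.length W) 0 k W.length) :
    W.take k ∈ BU ∧ W.drop k ∈ BU ∧ W.drop k ≠ [] ∧ (pos (sw W.length W) k).re = 3 / 2 * (hgt (W.take k) : ℝ) := by
  obtain ⟨-, hk, hev, h1, h2, h3⟩ := hc
  obtain ⟨f1, f2, f3, f4⟩ := AR.BU_facts hW
  have hd0 : dx up W k = up := by
    rw [pos_sw _ _ _ hk, pos_sw _ _ _ hk.le] at h1
    have e1 : (1 : ℂ) = JJ up := by
      apply Complex.ext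
      · rw [NTF.JJ_re, Complex.one_re]
        simp only [up]
        norm_num
      · rw [NTF.JJ_im, Complex.one_im]
        simp only [up]
        norm_num
    rw [e1, ← NTF.JJ_add] at h1
    have h4 := NTF.JJ_inj h1
    have h5 : vx oo up W (k + 1) = vx oo up W k + dx up W k := rfl
    rw [h5] at h4
    exact add_left_cancel h4
  have hlen : dx up W W.length = up := f2
  have hlv : ∀ i, i ≤ W.length → ip (vx oo up W i) up = lev W i := fun i _ => rfl
  have g1 : ∀ i, i ≤ k → lev W i ≤ lev W k := by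
    intro i hi
    have h5 := h2 i (Nat.zero_le _) hi
    rw [re_sw W (by omega), re_sw W hk.le] at h5
    have h6 : ((lev W i : ℤ) : ℝ) ≤ ((lev W k : ℤ) : ℝ) := by linarith
    exact_mod_cast h6
  have g2 : ∀ i, k < i → i ≤ W.length → lev W k < lev W i := by
    intro i hi hi'
    have h5 := h3 i hi hi'
    rw [re_sw W hi', re_sw W hk.le] at h5
    have h6 : ((lev W k : ℤ) : ℝ) < ((lev W i : ℤ) : ℝ) := by linarith
    exact_mod_cast h6
  have hv0 : vx oo up W 0 = 0 := rfl
  have t1 : sl W 0 k ∈ BU := by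
    refine part_bu2 up_dirs f1 (Nat.zero_le _) hk.le rfl hd0 fun i _ hi => ⟨fun h0 => ?_, ?_⟩
    · rw [hv0, sub_zero]
      exact (f4 i (by omega) (by omega)).1
    · rw [ip_sub_left]
      have := g1 i hi
      rw [← hlv i (by omega), ← hlv k hk.le] at this
      linarith
  have t2 : sl W k W.length ∈ BU := by
    refine part_bu2 up_dirs f1 hk.le le_rfl hd0 hlen fun i hi hi' => ⟨fun h0 => ?_, ?_⟩
    · rw [ip_sub_left]
      have := g2 i h0 hi'
      rw [← hlv i hi', ← hlv k hk.le] at this
      linarith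
    · rw [ip_sub_left]
      rcases Nat.eq_zero_or_pos i with h5 | h5
      · rw [h5, hv0]
        have h6 : ip (0 : Pt) up = 0 := by decide
        rw [h6]
        have h7 : ip (vx oo up W W.length) up = 3 * hgt W := f3
        rw [h7]
        have : (0 : ℤ) ≤ 3 * (hgt W : ℤ) := by positivity
        linarith
      · have h6 := (f4 i h5 hi').2
        have h7 : ip (vx oo up W W.length) up = 3 * hgt W := f3
        linarith
  have e1 : sl W 0 k = W.take k := by
    unfold sl
    rw [List.drop_zero, Nat.sub_zero]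
  have e2 : sl W k W.length = W.drop k := by
    unfold sl
    exact List.take_of_length_le (by rw [List.length_drop])
  rw [e1] at t1
  rw [e2] at t2
  refine ⟨t1, t2, ?_, ?_⟩
  · intro h0
    have := congrArg List.length h0
    rw [List.length_drop, List.length_nil] at this
    omega
  · rw [re_sw W hk.le]
    obtain ⟨-, -, s3, -⟩ := AR.BU_facts t1
    have e3 : ip (TIW.en (W.take k)) up = lev W k := by
      unfold TIW.en lev
      have hl : (W.take k).length = k := by
        rw [List.length_take]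
        omega
      have e4 : vx oo up (W.take k) k = vx oo up W k := by
        have h5 := vx_append (v0 := oo) (d0 := up) (t := W.take k) (s := W.drop k) (i := k) (by omega)
        rw [List.take_append_drop] at h5
        exact h5.symm
      rw [hl, e4]
    rw [← e3, s3]
    push_cast
    ring

/-- **a first passage bridge is a middle piece** -/
theorem gb_of {W : List Bool} {m0 : ℕ} {h L' : ℝ} (hW : W ∈ TIP.FP m0) (hm0 : 1 ≤ m0) (h1 : h ≤ 3 / 2 * m0)
    (h2 : 3 / 2 * (m0 : ℝ) < h + 3 / 2) (hL : ∀ i, i ≤ W.length → ((TIW.hn (vx oo up W i) : ℤ) : ℝ) ≤ L') :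
    GB h L' (sw W.length W) 0 W.length := by
  obtain ⟨hB, hh, hfp⟩ := hW
  obtain ⟨f1, f2, f3, f4⟩ := AR.BU_facts hB
  have hend : lev W W.length = 3 * hgt W := f3
  have hpos : 0 < W.length := by
    rcases Nat.eq_zero_or_pos W.length with h0 | h0
    · exfalso
      rw [h0] at hend
      have h3 : lev W 0 = 0 := by
        unfold lev
        exact (by decide : ip (oo : Pt) up = 0)
      rw [h3] at hend
      omega
    · exact h0
  have hz : pos (sw W.length W) 0 = 0 := pos_zero _
  refine ⟨hpos, ?_, ?_, ?_, ?_, ?_, ?_, ?_⟩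
  · obtain ⟨m, hm⟩ := lev_mod W le_rfl
    by_contra hne
    rw [if_neg hne, hend] at hm
    omega
  · rw [hz, zero_add, zero_add, pos_sw _ _ _ (by omega)]
    have e1 : vx oo up W 1 = up := by
      have h3 : vx oo up W 1 = oo + up := rfl
      rw [h3]
      decide
    rw [e1]
    apply Complex.ext
    · rw [NTF.JJ_re, Complex.one_re]
      simp only [up]
      norm_num
    · rw [NTF.JJ_im, Complex.one_im]
      simp only [up]
      norm_num
  · intro j hj hjn
    rw [hz, Complex.zero_re, zero_add, re_sw W hjn]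
    have h3 := (f4 j (by omega) hjn).1
    obtain ⟨m, hm⟩ := lev_mod W hjn
    have h4 : ip (vx oo up W j) up = lev W j := rfl
    rw [h4] at h3
    have h5 : 2 ≤ lev W j := by
      split_ifs at hm <;> omega
    have h6 : (2 : ℝ) ≤ ((lev W j : ℤ) : ℝ) := by exact_mod_cast h5
    linarith
  · intro j _ hj
    rw [re_sw W hj, re_sw W le_rfl, hend]
    have h3 : lev W j ≤ 3 * hgt W := by
      rcases Nat.eq_zero_or_pos j with h0 | h0
      · rw [h0]
        have h3 : lev W 0 = 0 := by
          unfold lev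
          exact (by decide : ip (oo : Pt) up = 0)
        rw [h3]
        positivity
      · exact (f4 j h0 hj).2
    have h4 : ((lev W j : ℤ) : ℝ) ≤ ((3 * hgt W : ℤ) : ℝ) := by exact_mod_cast h3
    linarith
  · intro j _ hj
    rw [hz, sub_zero]
    exact (norm_sw W hj).trans (hL j hj)
  · rw [hz, Complex.zero_re, zero_add, re_sw W le_rfl, hend]
    have h3 : (m0 : ℝ) ≤ (hgt W : ℝ) := by exact_mod_cast hh
    push_cast
    linarith
  · intro k' hc
    rw [hz, Complex.zero_re, zero_add]
    obtain ⟨c1, c2, c3, c4⟩ := cut_BU hB hc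
    rw [c4]
    have h3 := hfp _ _ c1 c2 (List.take_append_drop k' W).symm c3
    have h4 : ((hgt (W.take k') : ℕ) : ℝ) + 1 ≤ (m0 : ℝ) := by exact_mod_cast h3
    linarith

end Pool.Agent.SCF.Z
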