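import Pool.Agent.SCF.StabA
import Pool.Agent.SCF.StabB

/-!
# ScaleFlow (R-), row MAC: from `stabA` to `FourAt` (helper58)

`NI Q' r β E T s` : every window cut of radius `r` in the ball of radius `Q'` has a window cut of radius `r - β` at a distance at most
`β / 2` and at a level between `T` and `E` from it (`= ¬ IsoR Q' r (r - β) (β / 2) E T s`: `ni_of`). **`fourAt`** is the hypothesis
`hA` of `stb_of`, with `d = 4 β`, `G = T1 - E2`, `T = T2`, `W = E2`, `κ0 = 4 R + 2 b`; the radii are `i * β` in `[36 R, 130 R]`.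
-/

set_option autoImplicit false

open Set Filter Topology MeasureTheory

namespace Pool.Agent.SCF.M

open Pool.Agent.NTS.Res
open Pool.Agent.SCF.Z
open Pool.Agent.CRT.R (WC)

/-- no isolated window cut of radius `r` in the ball of radius `Q'` -/
def NI (Q' r β E T : ℝ) {n : ℕ} (s : Fin n → Fin 3) : Prop :=
  ∀ k : ℕ, ‖pos s k‖ ≤ Q' → WC r s k → ∃ i : ℕ, WC (r - β) s i ∧ ‖pos s i - pos s k‖ ≤ β / 2 ∧
    T ≤ |(pos s i).re - (pos s k).re| ∧ |(pos s i).re - (pos s k).re| ≤ E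

lemma ni_of {Q' r ρ1 cc β E T : ℝ} {n : ℕ} {s : Fin n → Fin 3}
    (h : ¬ ∃ k : ℕ, k ≤ n ∧ ‖pos s k‖ ≤ Q' ∧ WC r s k ∧ ∀ i : ℕ, WC ρ1 s i → ‖pos s i - pos s k‖ ≤ cc →
      |(pos s i).re - (pos s k).re| < T ∨ E < |(pos s i).re - (pos s k).re|) (h1 : ρ1 = r - β) (h2 : cc = β / 2) :
    NI Q' r β E T s := by
  subst h1 h2
  intro k hk hw
  by_contra hcon
  refine h ⟨k, hw.1.le, hk, hw, fun i hi hd => ?_⟩
  by_contra hn
  push Not at hn
  exact hcon ⟨i, hi, hd, hn.1, hn.2⟩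

/-- **(A) in the form of `stb_of`** -/
theorem fourAt {n : ℕ} {s : Fin n → Fin 3} {R β b E0 T0 E1 T1 E2 T2 Q' A a0 : ℝ} (hn : 1 ≤ n) (hβ : 0 < β) (hβR : β ≤ R)
    (hb : 0 < b) (hbβ : b ≤ β) (hn1 : 2 ≤ β * size n) (hn2 : 1 ≤ b * size n) (hT2 : 0 < T2) (hE2 : 2 * E2 ≤ T1)
    (hE1 : 2 * E1 ≤ T0) (hQ' : 4 * R + β ≤ Q') (ha0 : a0 + 2 * b ≤ R / 8) (ha : 0 < a0) (hA : a0 + (4 * R + 2 * b) ≤ A)
    (hend : A * size n ≤ ‖pos s n‖)
    (hI0 : ∀ i : ℕ, 36 * R ≤ i * β → (i : ℝ) * β ≤ 130 * R → NI (Q' * size n) (i * β * size n) (β * size n) (E0 * size n)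
      (T0 * size n) s)
    (hI1 : ∀ i : ℕ, 36 * R ≤ i * β → (i : ℝ) * β ≤ 130 * R → NI (Q' * size n) (i * β * size n) (β * size n) (E1 * size n)
      (T1 * size n) s)
    (hI2 : ∀ i : ℕ, 36 * R ≤ i * β → (i : ℝ) * β ≤ 130 * R → NI (Q' * size n) (i * β * size n) (β * size n) (E2 * size n)
      (T2 * size n) s)
    (hsl : ∀ i j : ℕ, i ≤ j → j ≤ n → (∀ l : ℕ, i ≤ l → l ≤ j → |(pos s l).re - (pos s i).re| ≤ 2 * E0 * size n) →
      ‖pos s j - pos s i‖ < b * size n)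
    {ρ : ℝ} {c : ℕ} (hρ : 40 * R ≤ ρ) (hρ' : ρ ≤ 130 * R) (hc : SC (ρ * size n) s c)
    (hcf : ∀ i : ℕ, i ≤ c → ‖pos s i‖ ≤ 4 * R * size n) (hdm : DmG (R / 8 * size n) s c) :
    FourAt s (ρ - 4 * β) (T1 - E2) T2 E2 b a0 (4 * R + 2 * b) c := by
  have hS := NTSF.size_pos hn
  have hR : 0 < R := hβ.trans_le hβR
  obtain ⟨S, hSd⟩ : ∃ S : ℝ, S = size n := ⟨_, rfl⟩
  rw [← hSd] at hS hn1 hn2 hend hI0 hI1 hI2 hsl hc hcf hdm
  -- the radius of the grid
  obtain ⟨q, hq⟩ : ∃ q : ℕ, q = ⌊(ρ - β / 2) / β⌋₊ := ⟨_, rfl⟩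
  have hq1 : (q : ℝ) * β ≤ ρ - β / 2 := by
    have h := Nat.floor_le (a := (ρ - β / 2) / β) (div_nonneg (by linarith) hβ.le)
    rw [← hq, le_div_iff₀ hβ] at h
    exact h
  have hq2 : ρ - β / 2 < (q : ℝ) * β + β := by
    have h := Nat.lt_floor_add_one ((ρ - β / 2) / β)
    rw [← hq, div_lt_iff₀ hβ] at h
    linarith
  have hq3 : 1 ≤ q := by
    by_contra hcon
    have : q = 0 := by omega
    rw [this] at hq2
    push_cast at hq2
    linarith
  have hq4 : ((q - 1 : ℕ) : ℝ) = (q : ℝ) - 1 := by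
    rw [Nat.cast_sub hq3, Nat.cast_one]
  have i0 := hI0 q (by linarith) (by linarith)
  have i1 := hI1 q (by linarith) (by linarith)
  have i2 := hI2 (q - 1) (by rw [hq4]; linarith) (by rw [hq4]; linarith)
  rw [hq4] at i2
  have e1 : ((q : ℝ) - 1) * β * S = q * β * S - β * S := by ring
  rw [e1] at i2
  have hbS : b * S ≤ β * S := mul_le_mul_of_nonneg_right hbβ hS.le
  have hβS : β * S ≤ R * S := mul_le_mul_of_nonneg_right hβR hS.le
  have hqS : q * β * S ≤ (ρ - β / 2) * S := mul_le_mul_of_nonneg_right hq1 hS.le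
  have hqS2 : (ρ - β / 2 - β) * S ≤ q * β * S := mul_le_mul_of_nonneg_right (by linarith) hS.le
  have hρS : 40 * R * S ≤ ρ * S := mul_le_mul_of_nonneg_right hρ hS.le
  have hRS : 0 < R * S := mul_pos hR hS
  have x1 : (ρ - β / 2) * S = ρ * S - β * S / 2 := by ring
  have x2 : (ρ - β / 2 - β) * S = ρ * S - 3 / 2 * (β * S) := by ring
  rw [x1] at hqS
  rw [x2] at hqS2
  obtain ⟨x0, x1, x2, x3, F, f1, f2, f3⟩ := stabA (Q := 4 * R * S) (Q' := Q' * S) (b := β * S) (bs := b * S) (r := q * β * S)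
    (E0 := E0 * S) (T0 := T0 * S) (E1 := E1 * S) (T1 := T1 * S) (E2 := E2 * S) (T2 := T2 * S) hc hcf
    (by
      have := mul_le_mul_of_nonneg_right hQ' hS.le
      linarith) i0 i1 i2
    (fun i j h1 h2 h3 => hsl i j h1 h2 fun l h4 h5 => (h3 l h4 h5).trans (le_of_eq (by ring))) hn2 hbS
    (by linarith) (by linarith) (mul_pos hT2 hS)
    (by
      have := mul_le_mul_of_nonneg_right hE2 hS.le
      linarith)
    (by
      have := mul_le_mul_of_nonneg_right hE1 hS.le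
      linarith) hn1 (by positivity)
  have near := F.near
  have hx3n : x3 < n := F.c3.2.2.1
  have hx03 : x0 ≤ x3 := f1.trans f2
  have conf : ∀ i : ℕ, i ≤ x3 → ‖pos s i‖ ≤ (4 * R + 2 * b) * S := by
    intro i hi
    have e : (4 * R + 2 * b) * S = 4 * R * S + 2 * (b * S) := by ring
    have hb0 : 0 < b * S := mul_pos hb hS
    rw [e]
    rcases Nat.lt_or_ge i c with g | g
    · linarith [hcf i g.le]
    · calc ‖pos s i‖ = ‖(pos s i - pos s x0) - (pos s c - pos s x0) + pos s c‖ := by ring_nf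
        _ ≤ ‖(pos s i - pos s x0) - (pos s c - pos s x0)‖ + ‖pos s c‖ := norm_add_le _ _
        _ ≤ ‖pos s i - pos s x0‖ + ‖pos s c - pos s x0‖ + ‖pos s c‖ := by gcongr; exact norm_sub_le _ _
        _ ≤ _ := by linarith [near i (f1.trans g) hi, near c f1 f2, hcf c le_rfl]
  refine ⟨x0, x1, x2, x3, ?_, f1, f2, ?_, ⟨n, hx3n.le, le_rfl, ?_⟩, ?_⟩
  · rw [← hSd]
    have hle : (ρ - 4 * β) * S ≤ q * β * S - 2 * (β * S) - 1 := by
      have e : (ρ - 4 * β) * S = ρ * S - 4 * (β * S) := by ring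
      rw [e]
      linarith
    exact ⟨F.h01, F.h12, F.h23, sc_le F.c0 hle, sc_le F.c1 hle, sc_le F.c2 hle, sc_le F.c3 hle,
      by have := F.g01; rwa [show (T1 - E2) * S = T1 * S - E2 * S by ring], F.g12, F.w12,
      by have := F.g23; rwa [show (T1 - E2) * S = T1 * S - E2 * S by ring], F.near⟩
  · rw [← hSd]
    have h := dm_x0 (a := R / 8 * S) (b := b * S) f1 f2 (by nlinarith) near hdm
    obtain ⟨i, j, hi, hj, hd⟩ := h
    refine ⟨i, j, hi, hj, le_trans ?_ hd⟩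
    have := mul_le_mul_of_nonneg_right ha0 hS.le
    linarith
  · rw [← hSd]
    have h1 := conf x3 le_rfl
    have h2 : ‖pos s n‖ - ‖pos s x3‖ ≤ ‖pos s n - pos s x3‖ := norm_sub_norm_le _ _
    have := mul_le_mul_of_nonneg_right hA hS.le
    linarith
  · rw [← hSd]
    exact conf

end Pool.Agent.SCF.M
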