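import Pool.Agent.SCF.StbP
import Pool.Agent.SCF.VBadK

/-!
# ScaleFlow / ROT F3, row StbL (helper28): LOCAL stability of the start cuts

As `StbP`, but the curves need be close only at the times when one of them is in the ball of radius `400 R`:
* `Clo δ A s s'` : at every time the curves are `δ`-close, or both are outside of the ball of radius `A`;
* `stabB'`, `stb_of'`, `stb_good'` ;
* **`stbL_of : BadN → StbL`**, `stbL : StbL`.
-/

set_option autoImplicit false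

open Set Filter Topology MeasureTheory

namespace Pool.Agent.SCF.M

open Pool.Agent.NTS.Res
open Pool.Agent.SCF.Z
open Pool.Agent.CRT.R (WC Slb slab)
open Pool.Agent.CRT.V.VC (pr pr_mono pr_or pr_of_card pr_nonneg)
open Pool.Agent.SCF.K (IsoR isoN BadN)
open NTSF (pos_succ pos_zero)

/-- at every time the curves are `δ`-close, or both are outside of the ball of radius `A` -/
def Clo (δ A : ℝ) {n n' : ℕ} (s : Fin n → Fin 3) (s' : Fin n' → Fin 3) : Prop :=
  ∀ t, ‖curve s t - curve s' t‖ ≤ δ ∨ (A ≤ ‖curve s t‖ ∧ A ≤ ‖curve s' t‖)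

section clo

variable {n n' : ℕ} {s : Fin n → Fin 3} {s' : Fin n' → Fin 3} {δ A η : ℝ}

lemma Clo.symm (h : Clo δ A s s') : Clo δ A s' s := fun t => by
  rcases h t with h1 | h1
  · exact Or.inl (by rwa [norm_sub_rev])
  · exact Or.inr ⟨h1.2, h1.1⟩

lemma Clo.of_dist (h : dist (curve s) (curve s') ≤ δ) : Clo δ A s s' := fun t => by
  have h3 := ContinuousMap.dist_apply_le_dist (f := curve s) (g := curve s') t
  rw [dist_eq_norm] at h3
  exact Or.inl (h3.trans h)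

lemma Clo.nonneg (h : Clo δ A s s') (hA : 0 < A) (hn : 1 ≤ n) : 0 ≤ δ := by
  obtain ⟨u, -, he⟩ := curve_nd hn s (Nat.zero_le n)
  rcases h u with h1 | h1
  · exact (norm_nonneg _).trans h1
  · exfalso
    have h2 := h1.1
    rw [he, pos_zero, zero_div, norm_zero] at h2
    linarith

/-- the vertices at the same time -/
lemma cl_fw' (hn : 1 ≤ n) (hn' : 1 ≤ n') (hcl : Clo δ A s s') (hδ : 0 ≤ δ) (h2 : δ + 1 / size n' ≤ η) {i : ℕ} (hi : i ≤ n) :
    ‖pos s i / size n - pos s' (fl n n' i) / size n'‖ ≤ η ∨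
      (A ≤ ‖pos s i / (size n : ℂ)‖ ∧ A - η ≤ ‖pos s' (fl n n' i) / (size n' : ℂ)‖) := by
  have hn0 : (0 : ℝ) < n := by exact_mod_cast hn
  have hs' := NTSF.size_pos hn'
  obtain ⟨u, hu, he⟩ := curve_nd hn s hi
  have h3 := HexObs.SIM.curve_fl hn' s' u
  rw [hu] at h3
  have h4 : ‖curve s' u - pos s' (fl n n' i) / size n'‖ ≤ 1 / size n' := by
    have e : curve s' u - pos s' (fl n n' i) / size n' = (curve s' u * size n' - pos s' (fl n n' i)) / size n' := by
      have : ((size n' : ℝ) : ℂ) ≠ 0 := by exact_mod_cast hs'.ne'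
      field_simp
    rw [e, norm_div, Complex.norm_of_nonneg hs'.le]
    exact div_le_div_of_nonneg_right h3 hs'.le
  rcases hcl u with h5 | h5
  · left
    rw [he] at h5
    calc ‖pos s i / size n - pos s' (fl n n' i) / size n'‖
        = ‖(pos s i / size n - curve s' u) + (curve s' u - pos s' (fl n n' i) / size n')‖ := by ring_nf
      _ ≤ δ + 1 / size n' := (norm_add_le _ _).trans (add_le_add h5 h4)
      _ ≤ η := h2
  · right
    rw [he] at h5
    refine ⟨h5.1, ?_⟩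
    have h6 := norm_add_le (curve s' u - pos s' (fl n n' i) / size n') (pos s' (fl n n' i) / (size n' : ℂ))
    rw [sub_add_cancel] at h6
    linarith [h5.2]

/-- the vertices of the second walk in a time interval -/
lemma cl_mid' (hn : 1 ≤ n) (hn' : 1 ≤ n') (hcl : Clo δ A s s') (hδ : 0 ≤ δ) (h1 : δ + 1 / size n ≤ η)
    (h2 : δ + 2 / size n' ≤ η) {p q : ℕ} (hpq : p ≤ q) (hq : q < n) {i : ℕ} (hi1 : fl n n' p ≤ i) (hi2 : i ≤ fl n n' q + 1) :
    ∃ j, p ≤ j ∧ j ≤ q ∧ (‖pos s j / size n - pos s' i / size n'‖ ≤ η ∨ A - η ≤ ‖pos s j / (size n : ℂ)‖) := by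
  have hs' := NTSF.size_pos hn'
  have h2' : δ + 1 / size n' ≤ η := by
    refine le_trans ?_ h2
    have : 1 / size n' ≤ 2 / size n' := div_le_div_of_nonneg_right (by norm_num) hs'.le
    linarith
  have hη : 0 ≤ η := by
    have : 0 < 1 / size n' := by positivity
    linarith
  rcases Nat.eq_or_lt_of_le hi1 with h3 | h3
  · refine ⟨p, le_rfl, hpq, ?_⟩
    rw [← h3]
    rcases cl_fw' hn hn' hcl hδ h2' (i := p) (by omega) with h4 | h4
    · exact Or.inl h4
    · exact Or.inr (by linarith [h4.1])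
  · rcases Nat.eq_or_lt_of_le hi2 with h4 | h4
    · refine ⟨q, hpq, le_rfl, ?_⟩
      have hlt := fl_lt hn hn' hq
      have h6 : ‖pos s' (fl n n' q) / size n' - pos s' i / size n'‖ ≤ 1 / size n' := by
        rw [← sub_div, norm_div, Complex.norm_of_nonneg hs'.le, h4, norm_sub_rev, norm_st s' hlt]
      rcases cl_fw' hn hn' hcl hδ (η := δ + 1 / size n') le_rfl hq.le with h5 | h5
      · left
        calc ‖pos s q / size n - pos s' i / size n'‖
            = ‖(pos s q / size n - pos s' (fl n n' q) / size n') + (pos s' (fl n n' q) / size n' - pos s' i / size n')‖ := by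
              ring_nf
          _ ≤ (δ + 1 / size n') + 1 / size n' := (norm_add_le _ _).trans (add_le_add h5 h6)
          _ = δ + 2 / size n' := by ring
          _ ≤ η := h2
      · right
        linarith [h5.1]
    · have h5 : i ≤ fl n n' q := by omega
      have h6 : i ≤ n' := h5.trans (fl_le hn hq.le)
      refine ⟨fl n' n i, fl_behind hn hn' h3, fl_before hn hn' h5, ?_⟩
      rcases cl_fw' (s := s') (s' := s) hn' hn hcl.symm hδ h1 h6 with h7 | h7
      · left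
        rwa [norm_sub_rev] at h7
      · right
        exact h7.2

end clo

/-- **local stability of the start cuts** -/
theorem stabB' {n n' : ℕ} (hn : 1 ≤ n) (hn' : 1 ≤ n') {s : Fin n → Fin 3} {s' : Fin n' → Fin 3} {δ η ρ ρB bB G T W b a0 κ0 K A : ℝ}
    (hcl : Clo δ A s s') (hA0 : 0 < A) (h1 : δ + 1 / size n ≤ η) (h2 : δ + 2 / size n' ≤ η) (hηG : 4 * η ≤ G)
    (hηT : 4 * η ≤ T) (hηb : η ≤ b) (hρ1 : 10 * b ≤ ρB) (hρ2 : ρB + 4 * b ≤ ρ) (ha : 2 * bB + 4 * b ≤ a0) (hbB : 0 ≤ bB) {x0 x1 x2 x3 : ℕ}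
    (F : Four s (ρ * size n) (G * size n) (T * size n) (W * size n) (b * size n) x0 x1 x2 x3)
    (hs0 : ∃ j j' : ℕ, j ≤ x0 ∧ j' ≤ x0 ∧ a0 * size n ≤ ‖pos s j - pos s j'‖)
    (hs1 : ∃ j : ℕ, x3 ≤ j ∧ j ≤ n ∧ a0 * size n ≤ ‖pos s j - pos s x3‖)
    (hc0 : ∀ i : ℕ, i ≤ x3 → ‖pos s i‖ ≤ κ0 * size n) (hcK : κ0 + b ≤ K) (hA1 : κ0 + ρ + 2 * b < A) (hA2 : κ0 + 2 * b + bB ≤ A)
    (hB : ¬ BadK (K * size n') (ρB * size n') (bB * size n') (3 * b * size n') (G / 2 * size n') (T / 4 * size n')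
      (W * size n') s') :
    ∃ c' : ℕ, fl n n' x0 < c' ∧ c' ≤ fl n n' x3 ∧ SC ((ρ - 8 * b) * size n') s' c' ∧
      ‖pos s' c' / size n' - pos s x0 / size n‖ ≤ 3 * b := by
  obtain ⟨S, hS⟩ : ∃ S, S = size n := ⟨_, rfl⟩
  obtain ⟨S', hS'⟩ : ∃ S', S' = size n' := ⟨_, rfl⟩
  have hSp : 0 < S := hS ▸ NTSF.size_pos hn
  have hSp' : 0 < S' := hS' ▸ NTSF.size_pos hn'
  have hδ0 : 0 ≤ δ := hcl.nonneg hA0 hn
  have hi2 : 0 < 2 / S' := by positivity
  rw [← hS'] at h2
  have hη0 : 0 < η := by linarith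
  have hηS : 2 ≤ η * S' := by
    have h3 : 2 / S' ≤ η := by linarith
    rwa [div_le_iff₀ hSp'] at h3
  have h2' : δ + 1 / size n' ≤ η := by
    rw [← hS']
    have : 1 / S' ≤ 2 / S' := div_le_div_of_nonneg_right (by norm_num) hSp'.le
    linarith
  have h2'' : δ + 2 / size n' ≤ η := by rwa [← hS']
  have hb0 : 0 < b := by linarith
  -- scaled vertices
  obtain ⟨P, hP⟩ : ∃ P : ℕ → ℂ, P = fun i => pos s i / size n := ⟨_, rfl⟩
  obtain ⟨P', hP'⟩ : ∃ P' : ℕ → ℂ, P' = fun i => pos s' i / size n' := ⟨_, rfl⟩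
  have eP : ∀ i, pos s i = P i * S := by
    intro i
    have : ((size n : ℝ) : ℂ) ≠ 0 := by rw [← hS]; exact_mod_cast hSp.ne'
    rw [hP, hS]
    field_simp
  have eP' : ∀ i, pos s' i = P' i * S' := by
    intro i
    have : ((size n' : ℝ) : ℂ) ≠ 0 := by rw [← hS']; exact_mod_cast hSp'.ne'
    rw [hP', hS']
    field_simp
  have reP : ∀ i, (pos s i).re = (P i).re * S := fun i => by rw [eP, Complex.re_mul_ofReal]
  have reP' : ∀ i, (pos s' i).re = (P' i).re * S' := fun i => by rw [eP', Complex.re_mul_ofReal]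
  have nP : ∀ i j, ‖pos s i - pos s j‖ = ‖P i - P j‖ * S := by
    intro i j
    rw [eP i, eP j, ← sub_mul, norm_mul, Complex.norm_of_nonneg hSp.le]
  have nP' : ∀ i j, ‖pos s' i - pos s' j‖ = ‖P' i - P' j‖ * S' := by
    intro i j
    rw [eP' i, eP' j, ← sub_mul, norm_mul, Complex.norm_of_nonneg hSp'.le]
  have hκ : ∀ i, i ≤ x3 → ‖P i‖ ≤ κ0 := by
    intro i hi
    have h3 := hc0 i hi
    rw [← hS, eP, norm_mul, Complex.norm_of_nonneg hSp.le] at h3
    exact le_of_mul_le_mul_right h3 hSp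
  have fwA : ∀ i, i ≤ n → ‖P i - P' (fl n n' i)‖ ≤ η ∨ (A ≤ ‖P i‖ ∧ A - η ≤ ‖P' (fl n n' i)‖) := by
    intro i hi
    rw [hP, hP']
    exact cl_fw' hn hn' hcl hδ0 h2' hi
  have hρ0 : 0 < ρ := by linarith
  have fw : ∀ i, i ≤ n → i ≤ x3 → ‖P i - P' (fl n n' i)‖ ≤ η := by
    intro i hi hi3
    rcases fwA i hi with h3 | h3
    · exact h3
    · exfalso
      linarith [hκ i hi3, h3.1]
  have bkA : ∀ i, i ≤ n' → ‖P (fl n' n i) - P' i‖ ≤ η ∨ (A ≤ ‖P' i‖ ∧ A - η ≤ ‖P (fl n' n i)‖) := by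
    intro i hi
    rw [hP, hP']
    rcases cl_fw' (s := s') (s' := s) hn' hn hcl.symm hδ0 h1 hi with h3 | h3
    · left
      rw [norm_sub_rev]
      exact h3
    · exact Or.inr h3
  have bk : ∀ i, i ≤ n' → fl n' n i ≤ x3 → ‖P (fl n' n i) - P' i‖ ≤ η := by
    intro i hi hi3
    rcases bkA i hi with h3 | h3
    · exact h3
    · exfalso
      linarith [hκ _ hi3, h3.2]
  have bkn : ∀ i, i ≤ n' → ‖P' i‖ < A → ‖P (fl n' n i) - P' i‖ ≤ η := by
    intro i hi hi3
    rcases bkA i hi with h3 | h3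
    · exact h3
    · exfalso
      linarith [h3.1]
  have mid : ∀ p q : ℕ, p ≤ q → q < n → q ≤ x3 → ∀ i, fl n n' p ≤ i → i ≤ fl n n' q + 1 →
      ∃ j, p ≤ j ∧ j ≤ q ∧ ‖P j - P' i‖ ≤ η := by
    intro p q hpq hq hq3 i hi1 hi2
    obtain ⟨j, j1, j2, j3⟩ := cl_mid' hn hn' hcl hδ0 h1 h2'' hpq hq hi1 hi2
    refine ⟨j, j1, j2, ?_⟩
    rw [hP, hP']
    rcases j3 with h3 | h3
    · exact h3
    · exfalso
      have h4 := hκ j (by omega)
      rw [hP] at h4
      have h5 : ‖pos s j / (size n : ℂ)‖ ≤ κ0 := h4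
      linarith
  have reab : ∀ z w : ℂ, |z.re - w.re| ≤ ‖z - w‖ := fun z w => by
    rw [← Complex.sub_re]
    exact Complex.abs_re_le_norm _
  have tri : ∀ x y z : ℂ, ‖x - z‖ ≤ ‖x - y‖ + ‖y - z‖ := fun x y z => norm_sub_le_norm_sub_add_norm_sub x y z
  -- the hypotheses in the scaled form
  obtain ⟨q01, q12, q23, ⟨-, a0l, a0c⟩, ⟨-, a1l, a1c⟩, ⟨-, a2l, a2c⟩, ⟨-, a3l, a3c⟩, g0, g1, g2, g3, near⟩ := F
  rw [← hS] at g0 g1 g2 g3 a0c a1c a2c a3c near hs0 hs1
  have hx3 : x3 < n := a3c.1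
  have G0 : (P x0).re + G ≤ (P x1).re := by
    rw [reP, reP, ← add_mul] at g0
    exact le_of_mul_le_mul_right g0 hSp
  have G1 : (P x1).re + T ≤ (P x2).re := by
    rw [reP, reP, ← add_mul] at g1
    exact le_of_mul_le_mul_right g1 hSp
  have G2 : (P x2).re ≤ (P x1).re + W := by
    rw [reP, reP, ← add_mul] at g2
    exact le_of_mul_le_mul_right g2 hSp
  have G3 : (P x2).re + G ≤ (P x3).re := by
    rw [reP, reP, ← add_mul] at g3
    exact le_of_mul_le_mul_right g3 hSp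
  have N0 : ∀ i, x0 ≤ i → i ≤ x3 → ‖P i - P x0‖ ≤ b := by
    intro i hi1 hi2
    have := near i hi1 hi2
    rw [nP] at this
    exact le_of_mul_le_mul_right this hSp
  have L0 : ∀ x, (∀ i, i ≤ x → (pos s i).re ≤ (pos s x).re) → ∀ i, i ≤ x → (P i).re ≤ (P x).re := by
    intro x hx i hi
    have := hx i hi
    rw [reP, reP] at this
    exact le_of_mul_le_mul_right this hSp
  have R0 : ∀ x, GC (ρ * S) s x → ∀ i, x ≤ i → i ≤ n → ‖P i - P x‖ ≤ ρ → (P x).re ≤ (P i).re := by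
    intro x hx i hi1 hi2 hi3
    rcases Nat.eq_or_lt_of_le hi1 with h3 | h3
    · rw [h3]
    · have h4 := hx.2.2 i h3 hi2 (by rw [nP]; exact mul_le_mul_of_nonneg_right hi3 hSp.le)
      rw [reP, reP] at h4
      have h5 : (P x).re * S ≤ (P i).re * S := by linarith
      exact le_of_mul_le_mul_right h5 hSp
  -- the level of the pinch
  obtain ⟨y, hy⟩ : ∃ y : ℝ, y = ((P x1).re + (P x2).re) / 2 := ⟨_, rfl⟩
  have hGp : 0 < G := by linarith
  have hTp : 0 < T := by linarith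
  have hflm : ∀ {i j : ℕ}, i ≤ j → fl n n' i ≤ fl n n' j := fun h => fl_mono h
  have hk0 : fl n n' x0 ≤ fl n n' x1 := hflm q01
  have hk1 : fl n n' x1 ≤ fl n n' x2 := hflm q12
  have hk2 : fl n n' x2 ≤ fl n n' x3 := hflm q23
  have hlt := fl_lt hn hn' hx3
  -- the outer part of the second walk
  have out1 : ∀ i, i ≤ fl n n' x0 → (P' i).re ≤ y - (G + T / 2 - η) := by
    intro i hi
    have hin : i ≤ n' := hi.trans (fl_le hn (by omega))
    have h3 := L0 x0 a0l _ (fl_before hn hn' hi)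
    have h4 := abs_le.1 ((reab _ _).trans (bk i hin ((fl_before hn hn' hi).trans (by omega))))
    rw [hy]
    linarith [h4.1]
  have hxk : ‖P' (fl n n' x1) - P x0‖ ≤ b + η := by
    have h3 := N0 x1 q01 (by omega)
    have h4 := fw x1 (by omega) (by omega)
    rw [norm_sub_rev] at h4
    calc _ ≤ ‖P' (fl n n' x1) - P x1‖ + ‖P x1 - P x0‖ := tri _ _ _
      _ ≤ b + η := by linarith
  have out2 : ∀ i, fl n n' x3 < i → i ≤ n' → ‖P' i - P' (fl n n' x1)‖ ≤ ρ - 4 * b → y + (G + T / 2 - η) ≤ (P' i).re := by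
    intro i hi hin hd
    have h3 := bkn i hin (by
      have e1 := tri (P' i) (P' (fl n n' x1)) (P x0)
      have e2 := norm_add_le (P' i - P x0) (P x0)
      rw [sub_add_cancel] at e2
      linarith [hκ x0 (by omega)])
    have h4 := fl_behind hn hn' hi
    have h5 : fl n' n i ≤ n := fl_le hn' hin
    have h6 : ‖P (fl n' n i) - P x3‖ ≤ ρ := by
      have e1 := tri (P (fl n' n i)) (P' i) (P x3)
      have e2 := tri (P' i) (P' (fl n n' x1)) (P x3)
      have e3 := tri (P' (fl n n' x1)) (P x0) (P x3)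
      have e4 := N0 x3 (by omega) le_rfl
      rw [norm_sub_rev] at e4
      linarith
    have h7 := R0 x3 a3c _ h4 h5 h6
    have h8 := abs_le.1 ((reab _ _).trans h3)
    rw [hy]
    linarith [h8.2]
  have inn : ∀ i, fl n n' x0 ≤ i → i ≤ fl n n' x3 + 1 → ‖P' i - P x0‖ ≤ b + η := by
    intro i hi1 hi2
    obtain ⟨j, j1, j2, j3⟩ := mid x0 x3 (by omega) hx3 le_rfl i hi1 hi2
    have h3 := N0 j j1 j2
    rw [norm_sub_rev] at j3
    calc _ ≤ ‖P' i - P j‖ + ‖P j - P x0‖ := tri _ _ _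
      _ ≤ b + η := by linarith
  have cnf : ∀ i, i ≤ fl n n' x3 + 1 → ‖pos s' i‖ ≤ K * S' := by
    intro i hi
    have hfl0 : fl n n' 0 = 0 := by simp [fl]
    obtain ⟨j, -, j2, j3⟩ := mid 0 x3 (Nat.zero_le _) hx3 le_rfl i (by omega) hi
    have h3 := hc0 j j2
    rw [← hS, eP, norm_mul, Complex.norm_of_nonneg hSp.le] at h3
    have h4 := le_of_mul_le_mul_right h3 hSp
    rw [eP', norm_mul, Complex.norm_of_nonneg hSp'.le]
    refine mul_le_mul_of_nonneg_right ?_ hSp'.le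
    have h5 : ‖P' i‖ ≤ ‖P j‖ + ‖P j - P' i‖ := by
      have h6 := norm_add_le (P j) (-(P j - P' i))
      rw [norm_neg] at h6
      calc ‖P' i‖ = ‖P j + -(P j - P' i)‖ := by ring_nf
        _ ≤ _ := h6
    linarith
  -- the pinch
  have hpin : PnW (ρB * S') s' (fl n n' x0) (fl n n' x1) (fl n n' x2 + 1) (fl n n' x3 + 1) (y * S') (G / 2 * S')
      (3 * b * S') (T / 4 * S') (W * S') := by
    refine ⟨hk0, by omega, by omega, by omega, ?_, ?_, ?_, ?_, ?_, ?_⟩
    · intro i hi _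
      have h3 := out1 i hi
      rw [reP', ← sub_mul]
      exact mul_le_mul_of_nonneg_right (by linarith) hSp'.le
    · intro i hi1 hi2
      have h3 := inn i hi1 hi2
      have h4 := abs_le.1 ((reab _ _).trans h3)
      have h5 := abs_le.1 ((reab _ _).trans (N0 x1 q01 (by omega)))
      have h6 := abs_le.1 ((reab _ _).trans (N0 x2 (by omega) q23))
      rw [reP', ← sub_mul, abs_mul, abs_of_pos hSp']
      refine mul_le_mul_of_nonneg_right ?_ hSp'.le
      rw [abs_le, hy]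
      constructor <;> linarith [h4.1, h4.2, h5.1, h5.2, h6.1, h6.2]
    · intro i hi1 hi2 hd
      rw [nP'] at hd
      have h3 := out2 i (by omega) hi2 ((le_of_mul_le_mul_right hd hSp').trans (by linarith))
      rw [reP', ← add_mul]
      exact mul_le_mul_of_nonneg_right (by linarith) hSp'.le
    · intro i hi _
      have hin : i ≤ n' := hi.trans (fl_le hn (by omega))
      have h3 := L0 x1 a1l _ (fl_before hn hn' hi)
      have h4 := abs_le.1 ((reab _ _).trans (bk i hin ((fl_before hn hn' hi).trans (by omega))))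
      rw [reP', ← sub_mul]
      refine mul_le_mul_of_nonneg_right ?_ hSp'.le
      rw [hy]
      linarith [h4.1]
    · intro i hi1 hi2
      obtain ⟨j, j1, j2, j3⟩ := mid x1 x2 q12 (by omega) q23 i hi1 hi2
      have h3 : ‖P j - P x1‖ ≤ ρ := by
        have e1 := tri (P j) (P x0) (P x1)
        have e2 := N0 j (by omega) (by omega)
        have e3 := N0 x1 q01 (by omega)
        rw [norm_sub_rev] at e3
        linarith
      have h4 := R0 x1 a1c j j1 (by omega) h3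
      have h5 := L0 x2 a2l j j2
      have h6 := abs_le.1 ((reab _ _).trans j3)
      rw [reP', ← sub_mul, abs_mul, abs_of_pos hSp']
      refine mul_le_mul_of_nonneg_right ?_ hSp'.le
      rw [abs_le, hy]
      constructor <;> linarith [h6.1, h6.2]
    · intro i hi1 hi2 hd
      rw [nP'] at hd
      have hd' := le_of_mul_le_mul_right hd hSp'
      have h3 := bkn i hi2 (by
        have e1 := tri (P' i) (P' (fl n n' x1)) (P x0)
        have e2 := norm_add_le (P' i - P x0) (P x0)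
        rw [sub_add_cancel] at e2
        linarith [hκ x0 (by omega)])
      have h4 := fl_behind hn hn' (show fl n n' x2 < i by omega)
      have h5 : fl n' n i ≤ n := fl_le hn' hi2
      have h6 : ‖P (fl n' n i) - P x2‖ ≤ ρ := by
        have e1 := tri (P (fl n' n i)) (P' i) (P x2)
        have e2 := tri (P' i) (P' (fl n n' x1)) (P x2)
        have e3 := tri (P' (fl n n' x1)) (P x0) (P x2)
        have e4 := N0 x2 (by omega) q23
        rw [norm_sub_rev] at e4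
        linarith
      have h7 := R0 x2 a2c _ h4 h5 h6
      have h8 := abs_le.1 ((reab _ _).trans h3)
      rw [reP', ← add_mul]
      refine mul_le_mul_of_nonneg_right ?_ hSp'.le
      rw [hy]
      linarith [h8.2]
  -- the beginning
  have hbeg : ∃ j : ℕ, j ≤ fl n n' x0 ∧ bB * S' ≤ ‖pos s' j - pos s' (fl n n' x0)‖ := by
    obtain ⟨j, j', e1, e2, e3⟩ := hs0
    rw [nP] at e3
    have e3' := le_of_mul_le_mul_right e3 hSp
    have e4 := tri (P j) (P x0) (P j')
    have key : ∀ i, i ≤ x0 → a0 / 2 ≤ ‖P i - P x0‖ → ∃ j : ℕ, j ≤ fl n n' x0 ∧ bB * S' ≤ ‖pos s' j - pos s' (fl n n' x0)‖ := by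
      intro i hi hd
      refine ⟨fl n n' i, hflm hi, ?_⟩
      rw [nP']
      refine mul_le_mul_of_nonneg_right ?_ hSp'.le
      have f1 := fw i (by omega) (by omega)
      have f2 := fw x0 (by omega) (by omega)
      rw [norm_sub_rev] at f2
      have e5 := tri (P i) (P' (fl n n' i)) (P x0)
      have e6 := tri (P' (fl n n' i)) (P' (fl n n' x0)) (P x0)
      linarith
    rcases le_or_gt (a0 / 2) ‖P j - P x0‖ with h3 | h3
    · exact key j e1 h3
    · refine key j' e2 ?_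
      rw [norm_sub_rev]
      linarith
  -- the end
  have hend : ∃ j : ℕ, fl n n' x3 + 1 ≤ j ∧ j ≤ n' ∧ bB * S' ≤ ‖pos s' j - pos s' (fl n n' x3 + 1)‖ := by
    obtain ⟨j, e1, e2, e3⟩ := hs1
    rw [nP] at e3
    have e3' := le_of_mul_le_mul_right e3 hSp
    have f2 : ‖P x3 - P' (fl n n' x3 + 1)‖ ≤ η := by
      obtain ⟨i, i1, i2, i3⟩ := mid x3 x3 le_rfl hx3 le_rfl (fl n n' x3 + 1) (by omega) le_rfl
      have : i = x3 := by omega
      rwa [this] at i3
    have f3 := fw x3 hx3.le le_rfl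
    have f4 := hκ x3 le_rfl
    rcases fwA j e2 with f1 | f1
    · have e5 := tri (P j) (P' (fl n n' j)) (P x3)
      refine ⟨fl n n' j, ?_, fl_le hn e2, ?_⟩
      · rcases Nat.eq_or_lt_of_le (hflm e1) with h3 | h3
        · exfalso
          rw [← h3] at f1 e5
          rw [norm_sub_rev] at f3
          linarith
        · exact h3
      · rw [nP']
        refine mul_le_mul_of_nonneg_right ?_ hSp'.le
        have e6 := tri (P' (fl n n' j)) (P' (fl n n' x3 + 1)) (P x3)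
        rw [norm_sub_rev] at f2
        linarith
    · refine ⟨fl n n' j, ?_, fl_le hn e2, ?_⟩
      · rcases Nat.eq_or_lt_of_le (hflm e1) with h3 | h3
        · exfalso
          rw [← h3] at f1
          have e6 := norm_add_le (P' (fl n n' x3) - P x3) (P x3)
          rw [sub_add_cancel] at e6
          rw [norm_sub_rev] at f3
          linarith [f1.2]
        · exact h3
      · rw [nP']
        refine mul_le_mul_of_nonneg_right ?_ hSp'.le
        have e6 := norm_add_le (P' (fl n n' j) - P' (fl n n' x3 + 1)) (P' (fl n n' x3 + 1))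
        rw [sub_add_cancel] at e6
        have e7 := norm_add_le (P' (fl n n' x3 + 1) - P x3) (P x3)
        rw [sub_add_cancel] at e7
        rw [norm_sub_rev] at f2
        linarith [f1.2]
  -- the cut
  rw [← hS'] at hB
  have hcut : ∃ i, WC (ρB * S' / 2) s' i ∧ ‖pos s' i - pos s' (fl n n' x1)‖ ≤ ρB * S' / 4 ∧
      |(pos s' i).re - y * S'| ≤ G / 2 * S' := by
    by_contra hcon
    refine hB ⟨_, _, _, _, _, cnf, hpin, hbeg, ?_, fun i h3 h4 => ?_⟩
    · obtain ⟨j, j1, j2, j3⟩ := hend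
      exact ⟨j, j1, j2, j3⟩
    · by_contra h5
      exact hcon ⟨i, h3, h4, not_lt.1 h5⟩
  obtain ⟨c, hc, hcd, hcl2⟩ := hcut
  obtain ⟨w1, w2, w3, w4, w5⟩ := hc
  rw [nP'] at hcd
  have hcd' : ‖P' c - P' (fl n n' x1)‖ ≤ ρB / 4 := by
    have : ‖P' c - P' (fl n n' x1)‖ * S' ≤ ρB / 4 * S' := by linarith
    exact le_of_mul_le_mul_right this hSp'
  have hcl3 : |(P' c).re - y| ≤ G / 2 := by
    rw [reP', ← sub_mul, abs_mul, abs_of_pos hSp'] at hcl2
    exact le_of_mul_le_mul_right hcl2 hSp'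
  have hcl4 := abs_le.1 hcl3
  have hc1 : fl n n' x0 < c := by
    by_contra h3
    have := out1 c (not_lt.1 h3)
    linarith [hcl4.1]
  have hc2 : c ≤ fl n n' x3 := by
    by_contra h3
    have := out2 c (not_le.1 h3) w1.le (by linarith)
    linarith [hcl4.2]
  have hcn := inn c hc1.le (by omega)
  -- near vertices
  have hnear : ∀ i, fl n n' x0 ≤ i → i ≤ fl n n' x3 + 1 → ‖pos s' i - (pos s' c + 1 / 2)‖ ≤ ρB * S' / 2 := by
    intro i hi1 hi2
    have h3 := inn i hi1 hi2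
    have h4 : ‖P' i - P' c‖ ≤ 2 * b + 2 * η := by
      have e1 := tri (P' i) (P x0) (P' c)
      rw [norm_sub_rev (P x0) (P' c)] at e1
      linarith
    calc ‖pos s' i - (pos s' c + 1 / 2)‖ = ‖(pos s' i - pos s' c) - 1 / 2‖ := by ring_nf
      _ ≤ ‖pos s' i - pos s' c‖ + ‖(1 / 2 : ℂ)‖ := norm_sub_le _ _
      _ ≤ (2 * b + 2 * η) * S' + 1 / 2 := by
          rw [Pool.Agent.CRT.R.norm_half, nP']
          have := mul_le_mul_of_nonneg_right h4 hSp'.le
          linarith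
      _ ≤ ρB * S' / 2 := by
          have h5 : (2 * b + 2 * η) * S' + η * S' ≤ ρB / 2 * S' := by
            rw [← add_mul]
            exact mul_le_mul_of_nonneg_right (by linarith) hSp'.le
          linarith
  refine ⟨c, hc1, hc2, ⟨w2, ?_, w1, w3, ?_⟩, ?_⟩
  · intro i hi
    rcases le_or_gt i (fl n n' x0) with h3 | h3
    · rw [reP', reP']
      refine mul_le_mul_of_nonneg_right ?_ hSp'.le
      have := out1 i h3
      linarith [hcl4.1]
    · exact w4 i hi (hnear i h3.le (by omega))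
  · intro i hi hin hd
    rcases le_or_gt i (fl n n' x3) with h3 | h3
    · exact w5 i hi hin (hnear i (by omega) (by omega))
    · rw [← hS', nP'] at hd
      have hd' := le_of_mul_le_mul_right hd hSp'
      have h4 := out2 i h3 hin (by
        have e1 := tri (P' i) (P' c) (P' (fl n n' x1))
        have e2 := tri (P' c) (P x0) (P' (fl n n' x1))
        rw [norm_sub_rev (P x0)] at e2
        linarith)
      have h5 : (P' c).re + η ≤ (P' i).re := by linarith [hcl4.2]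
      have h6 := mul_le_mul_of_nonneg_right h5 hSp'.le
      rw [add_mul] at h6
      rw [reP', reP']
      linarith
  · have : ‖P' c - P x0‖ ≤ 3 * b := by linarith
    rw [hP, hP'] at this
    exact this


/-- **local stability of all start cuts** -/
theorem stb_of' {n n' : ℕ} (hn : 1 ≤ n) (hn' : 1 ≤ n') {s : Fin n → Fin 3} {s' : Fin n' → Fin 3}
    {δ η R θ d ρB bB G T W b a0 κ0 K A : ℝ}
    (hcl : Clo δ A s s') (hA0 : 0 < A) (hA1 : κ0 + 130 * R + 2 * b < A) (hA2 : κ0 + 2 * b + bB ≤ A) (h1 : δ + 1 / size n ≤ η) (h2 : δ + 2 / size n' ≤ η) (hηG : 4 * η ≤ G)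
    (hηT : 4 * η ≤ T) (hηb : η ≤ b) (hρ1 : 10 * b ≤ ρB) (hρ2 : ρB + 4 * b + d ≤ 40 * R) (ha : 2 * bB + 4 * b ≤ a0) (hbB : 0 ≤ bB) (hcK : κ0 + b ≤ K)
    (hθ : d + 8 * b ≤ θ) (hd : 0 ≤ d)
    (hA : ∀ (ρ : ℝ) (c : ℕ), 40 * R ≤ ρ → ρ ≤ 130 * R → SC (ρ * size n) s c → (∀ i : ℕ, i ≤ c → ‖pos s i‖ ≤ 4 * R * size n) →
      DmG (R / 8 * size n) s c → FourAt s (ρ - d) G T W b a0 κ0 c)
    (hT : Tms θ b s)
    (hB : ¬ BadK (K * size n') (ρB * size n') (bB * size n') (3 * b * size n') (G / 2 * size n') (T / 4 * size n')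
      (W * size n') s') : Stb R θ s s' := by
  intro ρ c hρ hρ' hc hcf hdm
  obtain ⟨x0, x1, x2, x3, F, hx0, hx3, hs0, hs1, hc0⟩ := hA ρ c hρ hρ' hc hcf hdm
  have hδ0 : 0 ≤ δ := hcl.nonneg hA0 hn
  have hSp := NTSF.size_pos hn
  have hSp' := NTSF.size_pos hn'
  have hb0 : 0 < b := by
    have : 0 < 2 / size n' := by positivity
    linarith
  obtain ⟨c', c1, c2, c3, c4⟩ := stabB' hn hn' hcl hA0 h1 h2 hηG hηT hηb hρ1 (by linarith) ha hbB F
    (by obtain ⟨i, j, a1, a2, a3⟩ := hs0; exact ⟨i, j, a1, a2, a3⟩) hs1 hc0 hcK (by linarith) hA2 hB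
  have hn0 : (0 : ℝ) < n := by exact_mod_cast hn
  have hn0' : (0 : ℝ) < n' := by exact_mod_cast hn'
  have hx3n : x3 < n := F.c3.2.2.1
  have hcn : c ≤ n := by omega
  refine ⟨c', sc_mono c3 (mul_le_mul_of_nonneg_right (by linarith) hSp'.le), ?_, ?_⟩
  · have t1 : ((x3 : ℕ) : ℝ) - x0 ≤ θ * n := by
      refine hT x0 x3 (by omega) hx3n.le fun l l1 l2 => ?_
      rw [← Complex.sub_re]
      exact (Complex.abs_re_le_norm _).trans (F.near l l1 l2)
    have t2 : (x0 : ℝ) / n ≤ (c' : ℝ) / n' := by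
      have e1 : (x0 : ℝ) / n * n' < (fl n n' x0 : ℝ) + 1 := Nat.lt_floor_add_one _
      have e2 : ((fl n n' x0 : ℕ) : ℝ) + 1 ≤ c' := by exact_mod_cast c1
      rw [le_div_iff₀ hn0']
      linarith
    have t3 : (c' : ℝ) / n' ≤ (x3 : ℝ) / n := by
      have e1 : ((fl n n' x3 : ℕ) : ℝ) ≤ (x3 : ℝ) / n * n' := Nat.floor_le (by positivity)
      have e2 : (c' : ℝ) ≤ ((fl n n' x3 : ℕ) : ℝ) := by exact_mod_cast c2
      rw [div_le_iff₀ hn0']
      linarith
    have t4 : (x0 : ℝ) / n ≤ (c : ℝ) / n := by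
      have : (x0 : ℝ) ≤ c := by exact_mod_cast hx0
      gcongr
    have t5 : (c : ℝ) / n ≤ (x3 : ℝ) / n := by
      have : (c : ℝ) ≤ x3 := by exact_mod_cast hx3
      gcongr
    have t6 : (x3 : ℝ) / n - (x0 : ℝ) / n ≤ θ := by
      rw [← sub_div, div_le_iff₀ hn0]
      exact t1
    rw [abs_le]
    constructor <;> linarith
  · have e1 : ‖pos s c / (size n : ℂ) - pos s x0 / (size n : ℂ)‖ ≤ b := by
      rw [← sub_div, norm_div, Complex.norm_of_nonneg hSp.le, div_le_iff₀ hSp]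
      exact F.near c hx0 hx3
    rw [norm_sub_rev] at c4
    calc ‖pos s c / (size n : ℂ) - pos s' c' / (size n' : ℂ)‖
        ≤ ‖pos s c / (size n : ℂ) - pos s x0 / (size n : ℂ)‖ + ‖pos s x0 / (size n : ℂ) - pos s' c' / (size n' : ℂ)‖ :=
          norm_sub_le_norm_sub_add_norm_sub _ _ _
      _ ≤ θ := by linarith


/-- **good walks with locally close curves are stable** -/
theorem stb_good' {n n' : ℕ} (hn : 1 ≤ n) (hn' : 1 ≤ n') {s : Fin n → Fin 3} {s' : Fin n' → Fin 3}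
    {δ η R θ β b E0 T0 E1 T1 E2 T2 : ℝ} {J : ℕ}
    (hcl : Clo δ (400 * R) s s') (hR0 : 0 < R) (h1 : δ + 1 / size n ≤ η) (h2 : δ + 2 / size n' ≤ η) (hη1 : 8 * η ≤ T1)
    (hη2 : 4 * η ≤ T2) (hηb : 2 * η ≤ b) (hθ : 20 * β ≤ θ) (hβR : 100 * β ≤ R) (hb : b ≤ β) (hJ : 130 * R < J * β)
    (hE2 : 2 * E2 ≤ T1) (hE1 : 2 * E1 ≤ T0) (hg : ¬ Bdd R θ β b E0 T0 E1 T1 E2 T2 J n s) (hfar : 1000 * R * size n ≤ ‖pos s n‖)
    (hg' : ¬ Bdd R θ β b E0 T0 E1 T1 E2 T2 J n' s') : Stb R θ s s' := by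
  have hδ0 : 0 ≤ δ := hcl.nonneg (by positivity) hn
  have hSp := NTSF.size_pos hn
  have hSp' := NTSF.size_pos hn'
  have hη0 : 0 < η := by
    have : 0 < 2 / size n' := by positivity
    linarith
  have hb0 : 0 < b := by linarith
  have hβ0 : 0 < β := by linarith
  have hbS : 2 ≤ b * size n := by
    have h3 : 1 / size n ≤ η := by linarith
    rw [div_le_iff₀ hSp] at h3
    have h4 : 2 * η * size n ≤ b * size n := mul_le_mul_of_nonneg_right hηb hSp.le
    linarith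
  have hβS : b * size n ≤ β * size n := mul_le_mul_of_nonneg_right hb hSp.le
  unfold Bdd at hg hg'
  push Not at hg hg'
  obtain ⟨g1, g2, -, g4, g5, g6⟩ := hg
  obtain ⟨-, -, g3, -, -, -⟩ := hg'
  have hni : ∀ e t : ℝ, (∀ j : ℕ, j < J → ¬ IsoJ R β e t j n s) → ∀ i : ℕ, 36 * R ≤ i * β → (i : ℝ) * β ≤ 130 * R →
      NI (5 * R * size n) (i * β * size n) (β * size n) (e * size n) (t * size n) s := by
    intro e t h i hi1 hi2
    have hiJ : i < J := by
      by_contra hcon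
      have h3 : (J : ℝ) ≤ i := by exact_mod_cast not_lt.1 hcon
      have h4 : (J : ℝ) * β ≤ i * β := mul_le_mul_of_nonneg_right h3 hβ0.le
      linarith
    exact ni_of (fun hc => h i hiJ ⟨hi1, hi2, hc⟩) rfl rfl
  refine stb_of' (A := 400 * R) hn hn' (η := η) (d := 4 * β) (ρB := R) (bB := R / 50) (G := T1 / 2) (T := T2) (W := E2) (b := b) (a0 := R / 10)
    (κ0 := 4 * R + 2 * b) (K := 5 * R) hcl (by positivity) (by linarith) (by linarith) h1 h2 (by linarith) hη2 (by linarith) (by linarith) (by linarith) (by linarith)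
    (by linarith) (by linarith) (by linarith) (by linarith) ?_ g2 ?_
  · intro ρ c hρ hρ' hc hQ hD
    obtain ⟨x0, x1, x2, x3, F, f1, f2, f3, f4, f5⟩ := fourAt (Q' := 5 * R) (A := 1000 * R) (a0 := R / 10) hn hβ0 (by linarith) hb0 hb
      (by linarith) (by linarith) (by linarith) hE2 hE1 (by linarith) (by linarith) (by linarith) (by linarith) hfar
      (hni E0 T0 g4) (hni E1 T1 g5) (hni E2 T2 g6) (fun i j h3 h4 h5 => by
        by_contra hcon
        exact g1 ⟨i, j, h3, h4, h5, not_lt.1 hcon⟩) hρ hρ' hc hQ hD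
    have hG : T1 / 2 * size n ≤ (T1 - E2) * size n := mul_le_mul_of_nonneg_right (by linarith) hSp.le
    exact ⟨x0, x1, x2, x3, ⟨F.h01, F.h12, F.h23, F.c0, F.c1, F.c2, F.c3, by linarith [F.g01], F.g12, F.w12,
      by linarith [F.g23], F.near⟩, f1, f2, f3, f4, f5⟩
  · have e : T1 / 2 / 2 = T1 / 4 := by ring
    rw [e]
    exact g3

/-- **local stability of the start cuts for good pairs** -/
def StbL : Prop := ∀ R κ θ ε : ℝ, 0 < R → 0 < κ → κ < 1 → 0 < θ → 0 < ε →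
  ∃ (δ : ℝ) (n0 : ℕ) (Bad : ∀ n : ℕ, (Fin n → Fin 3) → Prop), 0 < δ ∧
    (∀ n : ℕ, n0 ≤ n → pr n (fun s => Bad n s ∧ 0 < zc κ (1000 * R) (curve s)) ≤ ε) ∧
    ∀ (n n' : ℕ) (s : Fin n → Fin 3) (s' : Fin n' → Fin 3), n0 ≤ n → n0 ≤ n' → s ∈ saw n → s' ∈ saw n' → ¬ Bad n s →
      ¬ Bad n' s' → 0 < zc κ (1000 * R) (curve s) → 0 < zc κ (1000 * R) (curve s') → Clo δ (400 * R) s s' → Stb R θ s s'

/-- **the local stability outside of events of a small probability** -/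
theorem stbL_of (hBN : BadN) : StbL := by
  intro R κ θ ε hR hκ hκ1 hθ hε
  -- the displacements
  obtain ⟨β, hβ⟩ : ∃ β : ℝ, β = min (θ / 20) (R / 100) := ⟨_, rfl⟩
  have hβ0 : 0 < β := by rw [hβ]; positivity
  have hβθ : 20 * β ≤ θ := by
    have : β ≤ θ / 20 := by rw [hβ]; exact min_le_left _ _
    linarith
  have hβR : 100 * β ≤ R := by
    have : β ≤ R / 100 := by rw [hβ]; exact min_le_right _ _
    linarith
  obtain ⟨τ, hτ, N1, hN1⟩ := tmP (ε / 8) θ (by positivity) hθ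
  obtain ⟨e0, he0, hBN1⟩ := hBN (ε / 8) κ (1000 * R) (5 * R) R (R / 50) (by positivity) hκ hκ1 (by positivity) hR (by positivity)
    (by linarith) (by linarith)
  obtain ⟨b, hb⟩ : ∃ b : ℝ, b = min β (min τ (e0 / 3)) := ⟨_, rfl⟩
  have hb0 : 0 < b := by rw [hb]; positivity
  have hbβ : b ≤ β := by rw [hb]; exact min_le_left _ _
  have hbτ : b ≤ τ := by rw [hb]; exact (min_le_right _ _).trans (min_le_left _ _)
  have hbe : 3 * b ≤ e0 := by
    have : b ≤ e0 / 3 := by rw [hb]; exact (min_le_right _ _).trans (min_le_right _ _)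
    linarith
  obtain ⟨J, hJ⟩ := exists_nat_gt (130 * R / β)
  have hJb : 130 * R < J * β := by rwa [div_lt_iff₀ hβ0] at hJ
  -- the slab
  obtain ⟨σ, hσ, N2, hN2⟩ := slab (ε := ε / 8) (b := b) (by positivity) hb0
  -- the levels
  obtain ⟨E0, hE0⟩ : ∃ E0 : ℝ, E0 = σ / 2 := ⟨_, rfl⟩
  have hE0p : 0 < E0 := by rw [hE0]; positivity
  obtain ⟨T0, hT0, -, N3, hN3⟩ := iso_all hκ hκ1 hR hβ0 (by linarith) J hE0p (ε := ε / 8) (t0 := 1) (by positivity) one_pos
  obtain ⟨E1, hE1⟩ : ∃ E1 : ℝ, E1 = T0 / 2 := ⟨_, rfl⟩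
  have hE1p : 0 < E1 := by rw [hE1]; positivity
  obtain ⟨T1, hT1, hT1b, N4, hN4⟩ := iso_all hκ hκ1 hR hβ0 (by linarith) J hE1p (ε := ε / 8) (t0 := b) (by positivity) hb0
  obtain ⟨w0, hw0, hBN2⟩ := hBN1 (T1 / 4) (3 * b) (by positivity) (by linarith) hbe
  obtain ⟨E2, hE2⟩ : ∃ E2 : ℝ, E2 = min (T1 / 2) w0 := ⟨_, rfl⟩
  have hE2p : 0 < E2 := by rw [hE2]; positivity
  have hE2T : 2 * E2 ≤ T1 := by
    have : E2 ≤ T1 / 2 := by rw [hE2]; exact min_le_left _ _
    linarith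
  have hE2w : E2 ≤ w0 := by rw [hE2]; exact min_le_right _ _
  obtain ⟨T2, hT2, hT2E, N5, hN5⟩ := iso_all hκ hκ1 hR hβ0 (by linarith) J hE2p (ε := ε / 8) (t0 := E2) (by positivity) hE2p
  obtain ⟨N6, hN6⟩ := hBN2 (T2 / 4) E2 (by positivity) (by linarith) hE2w
  -- the distance
  obtain ⟨η, hη⟩ : ∃ η : ℝ, η = min (min (T1 / 8) (T2 / 4)) (b / 2) := ⟨_, rfl⟩
  have hη0 : 0 < η := by rw [hη]; positivity
  have hη1 : 8 * η ≤ T1 := by
    have : η ≤ T1 / 8 := by rw [hη]; exact (min_le_left _ _).trans (min_le_left _ _)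
    linarith
  have hη2 : 4 * η ≤ T2 := by
    have : η ≤ T2 / 4 := by rw [hη]; exact (min_le_left _ _).trans (min_le_right _ _)
    linarith
  have hηb : 2 * η ≤ b := by
    have : η ≤ b / 2 := by rw [hη]; exact min_le_right _ _
    linarith
  obtain ⟨N7, hN7⟩ := Pool.Agent.SCF.K.size_big (η := η) hη0 4
  obtain ⟨n0, hn0⟩ : ∃ n0 : ℕ, n0 = N1 + N2 + N3 + N4 + N5 + N6 + N7 + 1 := ⟨_, rfl⟩
  have hsz : ∀ n : ℕ, n0 ≤ n → η / 2 + 1 / size n ≤ η ∧ η / 2 + 2 / size n ≤ η := by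
    intro n hn
    have hS := NTSF.size_pos (n := n) (by omega)
    have h3 := hN7 n (by omega)
    have h4 : 2 / size n ≤ η / 2 := by
      rw [div_le_iff₀ hS]
      linarith
    have h5 : 1 / size n ≤ 2 / size n := div_le_div_of_nonneg_right (by norm_num) hS.le
    constructor <;> linarith
  refine ⟨η / 2, n0, Bdd R θ β b E0 T0 E1 T1 E2 T2 J, by positivity, fun n hn => ?_, ?_⟩
  · have c1 : pr n (fun s => ¬ Tms θ b s) ≤ ε / 8 := (pr_mono fun s _ hs => fun h => hs (h.mono le_rfl hbτ)).trans (hN1 n (by omega))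
    have c2 : pr n (fun s => Slb (b * size n) (2 * E0 * size n) s) ≤ ε / 8 := by
      refine pr_of_card ?_
      have h3 := hN2 n (by omega)
      rw [show 2 * E0 = σ by rw [hE0]; ring]
      exact h3
    have c3 := hN3 n (by omega)
    have c4 := hN4 n (by omega)
    have c5 := hN5 n (by omega)
    have c6 := hN6 n (by omega)
    have d1 : pr n (fun s => Bdd R θ β b E0 T0 E1 T1 E2 T2 J n s ∧ 0 < zc κ (1000 * R) (curve s)) ≤
        pr n (fun s => Slb (b * size n) (2 * E0 * size n) s) + (pr n (fun s => ¬ Tms θ b s) +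
        (pr n (fun s => BadK (5 * R * size n) (R * size n) (R / 50 * size n) (3 * b * size n) (T1 / 4 * size n)
          (T2 / 4 * size n) (E2 * size n) s ∧ 0 < zc κ (1000 * R) (curve s)) +
        (pr n (fun s => ∃ j : ℕ, j < J ∧ IsoJ R β E0 T0 j n s ∧ 0 < zc κ (1000 * R) (curve s)) +
        (pr n (fun s => ∃ j : ℕ, j < J ∧ IsoJ R β E1 T1 j n s ∧ 0 < zc κ (1000 * R) (curve s)) +
        pr n (fun s => ∃ j : ℕ, j < J ∧ IsoJ R β E2 T2 j n s ∧ 0 < zc κ (1000 * R) (curve s)))))) := by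
      refine (pr_or (Q := fun s => Slb (b * size n) (2 * E0 * size n) s) (R := fun s => (¬ Tms θ b s ∨
        BadK (5 * R * size n) (R * size n) (R / 50 * size n) (3 * b * size n) (T1 / 4 * size n) (T2 / 4 * size n) (E2 * size n) s ∨
        (∃ j : ℕ, j < J ∧ IsoJ R β E0 T0 j n s) ∨ (∃ j : ℕ, j < J ∧ IsoJ R β E1 T1 j n s) ∨
        ∃ j : ℕ, j < J ∧ IsoJ R β E2 T2 j n s) ∧ 0 < zc κ (1000 * R) (curve s)) ?_).trans (add_le_add le_rfl ?_)
      · rintro s - ⟨h3 | h3, h4⟩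
        · exact Or.inl h3
        · exact Or.inr ⟨h3, h4⟩
      refine (pr_or (Q := fun s => ¬ Tms θ b s) (R := fun s => (
        BadK (5 * R * size n) (R * size n) (R / 50 * size n) (3 * b * size n) (T1 / 4 * size n) (T2 / 4 * size n) (E2 * size n) s ∨
        (∃ j : ℕ, j < J ∧ IsoJ R β E0 T0 j n s) ∨ (∃ j : ℕ, j < J ∧ IsoJ R β E1 T1 j n s) ∨
        ∃ j : ℕ, j < J ∧ IsoJ R β E2 T2 j n s) ∧ 0 < zc κ (1000 * R) (curve s)) ?_).trans (add_le_add le_rfl ?_)
      · rintro s - ⟨h3 | h3, h4⟩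
        · exact Or.inl h3
        · exact Or.inr ⟨h3, h4⟩
      refine (pr_or (Q := fun s => BadK (5 * R * size n) (R * size n) (R / 50 * size n) (3 * b * size n) (T1 / 4 * size n)
          (T2 / 4 * size n) (E2 * size n) s ∧ 0 < zc κ (1000 * R) (curve s)) (R := fun s => (
        (∃ j : ℕ, j < J ∧ IsoJ R β E0 T0 j n s) ∨ (∃ j : ℕ, j < J ∧ IsoJ R β E1 T1 j n s) ∨
        ∃ j : ℕ, j < J ∧ IsoJ R β E2 T2 j n s) ∧ 0 < zc κ (1000 * R) (curve s)) ?_).trans (add_le_add le_rfl ?_)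
      · rintro s - ⟨h3 | h3, h4⟩
        · exact Or.inl ⟨h3, h4⟩
        · exact Or.inr ⟨h3, h4⟩
      refine (pr_or (Q := fun s => ∃ j : ℕ, j < J ∧ IsoJ R β E0 T0 j n s ∧ 0 < zc κ (1000 * R) (curve s)) (R := fun s => (
        (∃ j : ℕ, j < J ∧ IsoJ R β E1 T1 j n s) ∨
        ∃ j : ℕ, j < J ∧ IsoJ R β E2 T2 j n s) ∧ 0 < zc κ (1000 * R) (curve s)) ?_).trans (add_le_add le_rfl ?_)
      · rintro s - ⟨⟨j, h3, h5⟩ | h3, h4⟩
        · exact Or.inl ⟨j, h3, h5, h4⟩
        · exact Or.inr ⟨h3, h4⟩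
      refine pr_or ?_
      rintro s - ⟨⟨j, h3, h5⟩ | ⟨j, h3, h5⟩, h4⟩
      · exact Or.inl ⟨j, h3, h5, h4⟩
      · exact Or.inr ⟨j, h3, h5, h4⟩
    linarith
  · intro n n' s s' hn hn' _ _ hs hs' hz _ hd
    have hn1 : 1 ≤ n := by omega
    have hn1' : 1 ≤ n' := by omega
    refine stb_good' hn1 hn1' (δ := η / 2) (η := η) hd hR (hsz n hn).1 (hsz n' hn').2 hη1 hη2 hηb hβθ hβR hbβ hJb hE2T
      (by rw [hE1]; linarith) hs ?_ hs'
    · have h3 := zc_far (c := 1000 * R) (by positivity) hn1 hz (i := n) le_rfl (by nlinarith [Nat.cast_nonneg (α := ℝ) n])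
      exact h3.le

/-- **local stability** -/
theorem stbL : StbL := stbL_of Pool.Agent.SCF.K.badN

end Pool.Agent.SCF.M
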