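import Pool.Agent.SCF.StbLD

/-!
# ROT, block F3: local stability of the start cuts, deterministic part 1 (helper66; after helper28's StabB)

* `BadS` : `BadK` with separate radii for the window of the pinch, the cut and the distance; `BadS.k`;
* **`stabL`** : four start cuts of the first walk give a start cut of the second one (absolute lengths, local closeness).
-/

set_option autoImplicit false

open Set Filter Topology MeasureTheory

namespace Pool.Agent.SCF.M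

open Pool.Agent.NTS.Res
open Pool.Agent.SCF.Z
open Pool.Agent.CRT.R (WC)

/-- a pinch of the walk (window radius `ρ`), without a cut of radius `ρ2` at a distance at most `d`, in the ball of radius `K` -/
def BadS (K ρ ρ2 d b E m h w : ℝ) {n : ℕ} (s : Fin n → Fin 3) : Prop :=
  ∃ (p1 k0 k1 p2 : ℕ) (y : ℝ), (∀ i, i ≤ p2 → ‖pos s i‖ ≤ K) ∧ PnW ρ s p1 k0 k1 p2 y m E h w ∧
    (∃ j, j ≤ p1 ∧ b ≤ ‖pos s j - pos s p1‖) ∧ (∃ j, p2 ≤ j ∧ j ≤ n ∧ b ≤ ‖pos s j - pos s p2‖) ∧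
    ∀ i, WC ρ2 s i → ‖pos s i - pos s k0‖ ≤ d → m < |(pos s i).re - y|

lemma BadS.k {K ρ ρ2 d b E m h w K' ρ' b' E' m' h' w' : ℝ} {n : ℕ} {s : Fin n → Fin 3} (H : BadS K ρ ρ2 d b E m h w s)
    (hK : K ≤ K') (hρ : ρ' ≤ ρ) (hρ2 : ρ2 ≤ ρ' / 2) (hd : ρ' / 4 ≤ d) (hb : b' ≤ b) (hE : E ≤ E') (hm : m' ≤ m) (hh : h' ≤ h)
    (hw : w ≤ w') : BadK K' ρ' b' E' m' h' w' s := by
  obtain ⟨p1, k0, k1, p2, y, h1, ⟨q1, q2, q3, q4, a1, a2, a3, a4, a5, a6⟩, ⟨j, j1, j2⟩, ⟨l, l1, l2, l3⟩, h5⟩ := H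
  refine ⟨p1, k0, k1, p2, y, fun i hi => (h1 i hi).trans hK, ⟨q1, q2, q3, q4, ?_, ?_, ?_, ?_, ?_, ?_⟩, ⟨j, j1, hb.trans j2⟩,
    ⟨l, l1, l2, hb.trans l3⟩, ?_⟩
  · intro i hi h
    have := a1 i hi (h.trans hρ)
    linarith
  · intro i hi hi2
    exact (a2 i hi hi2).trans hE
  · intro i hi hi2 h
    have := a3 i hi hi2 (h.trans hρ)
    linarith
  · intro i hi h
    have := a4 i hi (h.trans hρ)
    linarith
  · intro i hi hi2
    exact (a5 i hi hi2).trans hw
  · intro i hi hi2 h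
    have := a6 i hi hi2 (h.trans hρ)
    linarith
  · intro i hi h
    exact hm.trans_lt (h5 i (hi.mono hρ2) (h.trans hd))

/-- **four start cuts of `s` give a start cut of `s'`**, absolute lengths, local closeness -/
theorem stabL {n n' : ℕ} {s : Fin n → Fin 3} {s' : Fin n' → Fin 3} {r0 δ η F ρ ρB ρ2 dd bB G T W b κ0 K : ℝ} {i0 i0' L : ℕ}
    (hC : LC r0 δ F i0 i0' L s s') (h1 : δ + 1 ≤ η) (hηG : 4 * η ≤ G) (hηT : 4 * η ≤ T) (hηb : η ≤ b) (hρ0 : 2 * b ≤ ρ)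
    (hρ2 : 5 * b ≤ ρ2)
    (hρB : ρB + 4 * b ≤ ρ) (hdd : dd + 4 * b ≤ ρ) (hF : κ0 + ρ ≤ F) (hFK : K + bB ≤ F) (hcK : κ0 + b ≤ K) (hr0 : r0 ≤ K)
    {y0 y1 y2 y3 : ℕ} (Fo : Four s ρ G T W b (i0 + y0) (i0 + y1) (i0 + y2) (i0 + y3))
    (hini : ∀ i : ℕ, i ≤ i0' → (pos s' i).re ≤ (pos s (i0 + y0)).re)
    (hbeg : ∃ j : ℕ, j ≤ i0' + y0 ∧ bB ≤ ‖pos s' j - pos s' (i0' + y0)‖)
    (hc0 : ∀ i : ℕ, i ≤ i0 + y3 → ‖pos s i‖ ≤ κ0)
    (hB : ¬ BadS K ρB ρ2 dd bB (3 * b) (G / 2) (T / 4) W s') :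
    ∃ c' : ℕ, i0' + y0 < c' ∧ c' ≤ i0' + y3 ∧ SC (ρ - 8 * b) s' c' ∧ ‖pos s' c' - pos s (i0 + y0)‖ ≤ 3 * b := by
  have hδ0 : 0 ≤ δ := (norm_nonneg _).trans (hC.cl 0 (Nat.zero_le _))
  have hb1 : 1 ≤ b := by linarith
  have hδb : δ ≤ b := by linarith
  obtain ⟨q01, q12, q23, ⟨-, a0l, a0c⟩, ⟨-, a1l, a1c⟩, ⟨-, a2l, a2c⟩, ⟨-, a3l, a3c⟩, G0, G1, G2, G3, N0⟩ := Fo
  have p01 : y0 ≤ y1 := by omega
  have p12 : y1 ≤ y2 := by omega
  have p23 : y2 ≤ y3 := by omega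
  have reab : ∀ z w : ℂ, |z.re - w.re| ≤ ‖z - w‖ := fun z w => by
    rw [← Complex.sub_re]
    exact Complex.abs_re_le_norm _
  have tri : ∀ x y z : ℂ, ‖x - z‖ ≤ ‖x - y‖ + ‖y - z‖ := fun x y z => norm_sub_le_norm_sub_add_norm_sub x y z
  have hx3 : i0 + y3 < n := a3c.1
  have hyL : y3 ≤ L := by
    by_contra hc
    have h2 := hC.far (i0 + y3) (by omega) hx3.le
    have h3 := hc0 (i0 + y3) le_rfl
    linarith
  have clr : ∀ j : ℕ, j ≤ L → |(pos s (i0 + j)).re - (pos s' (i0' + j)).re| ≤ δ := fun j hj => (reab _ _).trans (hC.cl j hj)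
  have clr' : ∀ j : ℕ, j ≤ L → ‖pos s' (i0' + j) - pos s (i0 + j)‖ ≤ δ := fun j hj => by
    rw [norm_sub_rev]
    exact hC.cl j hj
  have R0 : ∀ x, GC ρ s x → ∀ i, x ≤ i → i ≤ n → ‖pos s i - pos s x‖ ≤ ρ → (pos s x).re ≤ (pos s i).re := by
    intro x hx i hi1 hi2 hi3
    rcases Nat.eq_or_lt_of_le hi1 with h3 | h3
    · rw [h3]
    · have h4 := hx.2.2 i h3 hi2 hi3
      linarith
  -- the level of the pinch
  obtain ⟨y, hy⟩ : ∃ y : ℝ, y = ((pos s (i0 + y1)).re + (pos s (i0 + y2)).re) / 2 := ⟨_, rfl⟩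
  have hn1 := N0 (i0 + y1) (by omega) (by omega)
  have hn2 := N0 (i0 + y2) (by omega) (by omega)
  have hn3 := N0 (i0 + y3) (by omega) le_rfl
  -- a vertex of the second walk behind `i0' + L` is not near the pinch
  have k1n : ‖pos s' (i0' + y1)‖ ≤ κ0 + δ := by
    have h2 := clr' y1 (by omega)
    have h3 := hc0 (i0 + y1) (by omega)
    calc ‖pos s' (i0' + y1)‖ = ‖(pos s' (i0' + y1) - pos s (i0 + y1)) + pos s (i0 + y1)‖ := by ring_nf
      _ ≤ _ := norm_add_le _ _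
      _ ≤ κ0 + δ := by linarith
  have nofar : ∀ i, i ≤ n' → ‖pos s' i - pos s' (i0' + y1)‖ ≤ ρ - 4 * b → i ≤ i0' + L := by
    intro i hi hd
    by_contra hc
    have h2 := hC.far' i (by omega) hi
    have h3 : ‖pos s' i‖ ≤ ‖pos s' i - pos s' (i0' + y1)‖ + ‖pos s' (i0' + y1)‖ := by
      calc ‖pos s' i‖ = ‖(pos s' i - pos s' (i0' + y1)) + pos s' (i0' + y1)‖ := by ring_nf
        _ ≤ _ := norm_add_le _ _
    linarith
  -- the outer part of the second walk
  have out1 : ∀ i, i ≤ i0' + y0 → (pos s' i).re ≤ y - (G + T / 2 - η) := by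
    intro i hi
    rcases le_or_gt i i0' with h2 | h2
    · have h3 := hini i h2
      rw [hy]
      linarith
    · obtain ⟨j, rfl⟩ := Nat.exists_eq_add_of_le h2.le
      have h3 := a0l (i0 + j) (by omega)
      have h4 := abs_le.1 (clr j (by omega))
      rw [hy]
      linarith [h4.1]
  have back : ∀ j x, j ≤ L → ‖pos s x - pos s (i0 + y0)‖ ≤ b → ‖pos s' (i0' + j) - pos s' (i0' + y1)‖ ≤ ρ - 4 * b →
      ‖pos s (i0 + j) - pos s x‖ ≤ ρ := by
    intro j x hj hx hd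
    have e1 := tri (pos s (i0 + j)) (pos s' (i0' + j)) (pos s x)
    have e2 := tri (pos s' (i0' + j)) (pos s' (i0' + y1)) (pos s x)
    have e3 := tri (pos s' (i0' + y1)) (pos s (i0 + y1)) (pos s x)
    have e4 := tri (pos s (i0 + y1)) (pos s (i0 + y0)) (pos s x)
    have e5 := hC.cl j hj
    have e6 := clr' y1 (by omega)
    rw [norm_sub_rev] at hx
    linarith
  have out2 : ∀ i, i0' + y3 < i → i ≤ n' → ‖pos s' i - pos s' (i0' + y1)‖ ≤ ρ - 4 * b → y + (G + T / 2 - η) ≤ (pos s' i).re := by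
    intro i hi hin hd
    have h2 := nofar i hin hd
    obtain ⟨j, rfl⟩ := Nat.exists_eq_add_of_le (show i0' ≤ i by omega)
    have h3 := R0 _ a3c (i0 + j) (by omega) (by have := hC.hn; omega) (back j _ (by omega) hn3 hd)
    have h4 := abs_le.1 (clr j (by omega))
    rw [hy]
    linarith [h4.2]
  have inn : ∀ j, y0 ≤ j → j ≤ y3 → ‖pos s' (i0' + j) - pos s (i0 + y0)‖ ≤ b + δ := by
    intro j hj1 hj2
    have h2 := clr' j (by omega)
    have h3 := N0 (i0 + j) (by omega) (by omega)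
    linarith [tri (pos s' (i0' + j)) (pos s (i0 + j)) (pos s (i0 + y0))]
  have cnf : ∀ i, i ≤ i0' + y3 → ‖pos s' i‖ ≤ K := by
    intro i hi
    rcases le_or_gt i i0' with h2 | h2
    · exact (hC.ini' i h2).trans hr0
    · obtain ⟨j, rfl⟩ := Nat.exists_eq_add_of_le h2.le
      have h3 := hc0 (i0 + j) (by omega)
      have h4 := clr' j (by omega)
      calc ‖pos s' (i0' + j)‖ = ‖(pos s' (i0' + j) - pos s (i0 + j)) + pos s (i0 + j)‖ := by ring_nf
        _ ≤ _ := norm_add_le _ _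
        _ ≤ K := by linarith
  have hx0r : ∀ j, y0 ≤ j → j ≤ y3 → |(pos s' (i0' + j)).re - y| ≤ 3 * b := by
    intro j hj1 hj2
    have h4 := abs_le.1 ((reab _ _).trans (inn j hj1 hj2))
    have h5 := abs_le.1 ((reab _ _).trans hn1)
    have h6 := abs_le.1 ((reab _ _).trans hn2)
    rw [abs_le, hy]
    constructor <;> linarith [h4.1, h4.2, h5.1, h5.2, h6.1, h6.2]
  -- the pinch
  have hpin : PnW ρB s' (i0' + y0) (i0' + y1) (i0' + y2) (i0' + y3) y (G / 2) (3 * b) (T / 4) W := by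
    refine ⟨by omega, by omega, by omega, by have := hC.hn'; omega, ?_, ?_, ?_, ?_, ?_, ?_⟩
    · intro i hi _
      have h3 := out1 i hi
      linarith
    · intro i hi1 hi2
      obtain ⟨j, rfl⟩ := Nat.exists_eq_add_of_le (show i0' ≤ i by omega)
      exact hx0r j (by omega) (by omega)
    · intro i hi1 hi2 hd
      rcases Nat.eq_or_lt_of_le hi1 with h3 | h3
      · rw [← h3]
        have h4 := abs_le.1 (clr y3 (by omega))
        rw [hy]
        linarith [h4.2]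
      · have h4 := out2 i h3 hi2 (by linarith)
        linarith
    · intro i hi _
      rcases le_or_gt i i0' with h2 | h2
      · have h3 := hini i h2
        rw [hy]
        linarith
      · obtain ⟨j, rfl⟩ := Nat.exists_eq_add_of_le h2.le
        have h3 := a1l (i0 + j) (by omega)
        have h4 := abs_le.1 (clr j (by omega))
        rw [hy]
        linarith [h4.1]
    · intro i hi1 hi2
      obtain ⟨j, rfl⟩ := Nat.exists_eq_add_of_le (show i0' ≤ i by omega)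
      have h3 : ‖pos s (i0 + j) - pos s (i0 + y1)‖ ≤ ρ := by
        have e1 := tri (pos s (i0 + j)) (pos s (i0 + y0)) (pos s (i0 + y1))
        have e2 := N0 (i0 + j) (by omega) (by omega)
        have e3 := hn1
        rw [norm_sub_rev] at e3
        linarith
      have h4 := R0 _ a1c (i0 + j) (by omega) (by omega) h3
      have h5 := a2l (i0 + j) (by omega)
      have h6 := abs_le.1 (clr j (by omega))
      rw [abs_le, hy]
      constructor <;> linarith [h6.1, h6.2]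
    · intro i hi1 hi2 hd
      have h2 := nofar i hi2 (by linarith)
      obtain ⟨j, rfl⟩ := Nat.exists_eq_add_of_le (show i0' ≤ i by omega)
      have h3 := R0 _ a2c (i0 + j) (by omega) (by have := hC.hn; omega) (back j _ (by omega) hn2 (by linarith))
      have h4 := abs_le.1 (clr j (by omega))
      rw [hy]
      linarith [h4.2]
  -- the end
  have hend : ∃ j : ℕ, i0' + y3 ≤ j ∧ j ≤ n' ∧ bB ≤ ‖pos s' j - pos s' (i0' + y3)‖ := by
    refine ⟨n', by have := hC.hn'; omega, le_rfl, ?_⟩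
    have h2 := cnf (i0' + y3) le_rfl
    have h3 := norm_sub_norm_le (pos s' n') (pos s' (i0' + y3))
    linarith [hC.e']
  -- the cut
  have hcut : ∃ i, WC ρ2 s' i ∧ ‖pos s' i - pos s' (i0' + y1)‖ ≤ dd ∧ |(pos s' i).re - y| ≤ G / 2 := by
    by_contra hcon
    refine hB ⟨_, _, _, _, _, cnf, hpin, hbeg, hend, fun i h3 h4 => ?_⟩
    by_contra h5
    exact hcon ⟨i, h3, h4, not_lt.1 h5⟩
  obtain ⟨c, hc, hcd, hcl3⟩ := hcut
  obtain ⟨w1, w2, w3, w4, w5⟩ := hc
  have hcl4 := abs_le.1 hcl3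
  have hc1 : i0' + y0 < c := by
    by_contra h3
    have := out1 c (not_lt.1 h3)
    linarith [hcl4.1]
  have hc2 : c ≤ i0' + y3 := by
    by_contra h3
    have := out2 c (not_le.1 h3) w1.le (by linarith)
    linarith [hcl4.2]
  obtain ⟨jc, rfl⟩ := Nat.exists_eq_add_of_le (show i0' ≤ c by omega)
  have hcn := inn jc (by omega) (by omega)
  -- near vertices
  have hnear : ∀ j, y0 ≤ j → j ≤ y3 → ‖pos s' (i0' + j) - (pos s' (i0' + jc) + 1 / 2)‖ ≤ ρ2 := by
    intro j hj1 hj2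
    have h3 := inn j hj1 hj2
    have h4 : ‖pos s' (i0' + j) - pos s' (i0' + jc)‖ ≤ 2 * b + 2 * δ := by
      have e1 := tri (pos s' (i0' + j)) (pos s (i0 + y0)) (pos s' (i0' + jc))
      rw [norm_sub_rev (pos s (i0 + y0)) (pos s' (i0' + jc))] at e1
      linarith
    calc ‖pos s' (i0' + j) - (pos s' (i0' + jc) + 1 / 2)‖ = ‖(pos s' (i0' + j) - pos s' (i0' + jc)) - 1 / 2‖ := by ring_nf
      _ ≤ ‖pos s' (i0' + j) - pos s' (i0' + jc)‖ + ‖(1 / 2 : ℂ)‖ := norm_sub_le _ _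
      _ ≤ ρ2 := by
          rw [Pool.Agent.CRT.R.norm_half]
          linarith
  refine ⟨i0' + jc, hc1, hc2, ⟨w2, ?_, w1, w3, ?_⟩, by linarith⟩
  · intro i hi
    rcases le_or_gt i (i0' + y0) with h3 | h3
    · have := out1 i h3
      linarith [hcl4.1]
    · obtain ⟨j, rfl⟩ := Nat.exists_eq_add_of_le (show i0' ≤ i by omega)
      exact w4 _ hi (hnear j (by omega) (by omega))
  · intro i hi hin hd
    rcases le_or_gt i (i0' + y3) with h3 | h3
    · obtain ⟨j, rfl⟩ := Nat.exists_eq_add_of_le (show i0' ≤ i by omega)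
      exact w5 _ hi hin (hnear j (by omega) (by omega))
    · have h4 := out2 i h3 hin (by
        have e1 := tri (pos s' i) (pos s' (i0' + jc)) (pos s' (i0' + y1))
        have e2 := tri (pos s' (i0' + jc)) (pos s (i0 + y0)) (pos s' (i0' + y1))
        have e3 := inn y1 p01 (by omega)
        rw [norm_sub_rev] at e3
        linarith)
      linarith [hcl4.2]

end Pool.Agent.SCF.M
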