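import Pool.Agent.SCF.StbLA

/-!
# ROT, block F3: local stability of the start cuts, deterministic part 2 (helper66; after helpers 58 and 28)

* **`fourS`** : `fourAt` (StabF) with a free unit `S` instead of `size n`, without the start piece and the end;
* **`stbA_of`** : four start cuts around every start cut, local closeness and no bad pinch of the second walk give `StbA`.
-/

set_option autoImplicit false

open Set Filter Topology MeasureTheory

namespace Pool.Agent.SCF.M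

open Pool.Agent.NTS.Res
open Pool.Agent.SCF.Z
open Pool.Agent.CRT.R (WC)

/-- **four start cuts around a start cut**, unit `S` -/
theorem fourS {n : ℕ} {s : Fin n → Fin 3} {S R β b E0 T0 E1 T1 E2 T2 Q' : ℝ} (hS : 0 < S) (hβ : 0 < β) (hβR : β ≤ R)
    (hb : 0 < b) (hbβ : b ≤ β) (hn1 : 2 ≤ β * S) (hn2 : 1 ≤ b * S) (hT2 : 0 < T2) (hE2 : 2 * E2 ≤ T1)
    (hE1 : 2 * E1 ≤ T0) (hQ' : 4 * R + β ≤ Q')
    (hI0 : ∀ i : ℕ, 36 * R ≤ i * β → (i : ℝ) * β ≤ 130 * R → NI (Q' * S) (i * β * S) (β * S) (E0 * S) (T0 * S) s)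
    (hI1 : ∀ i : ℕ, 36 * R ≤ i * β → (i : ℝ) * β ≤ 130 * R → NI (Q' * S) (i * β * S) (β * S) (E1 * S) (T1 * S) s)
    (hI2 : ∀ i : ℕ, 36 * R ≤ i * β → (i : ℝ) * β ≤ 130 * R → NI (Q' * S) (i * β * S) (β * S) (E2 * S) (T2 * S) s)
    (hsl : ∀ i j : ℕ, i ≤ j → j ≤ n → (∀ l : ℕ, i ≤ l → l ≤ j → |(pos s l).re - (pos s i).re| ≤ 2 * E0 * S) →
      ‖pos s j - pos s i‖ < b * S)
    {ρ : ℝ} {c : ℕ} (hρ : 40 * R ≤ ρ) (hρ' : ρ ≤ 130 * R) (hc : SC (ρ * S) s c)
    (hcf : ∀ i : ℕ, i ≤ c → ‖pos s i‖ ≤ 4 * R * S) :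
    ∃ x0 x1 x2 x3 : ℕ, Four s ((ρ - 4 * β) * S) ((T1 - E2) * S) (T2 * S) (E2 * S) (b * S) x0 x1 x2 x3 ∧ x0 ≤ c ∧ c ≤ x3 ∧
      ∀ i : ℕ, i ≤ x3 → ‖pos s i‖ ≤ (4 * R + 2 * b) * S := by
  have hR : 0 < R := hβ.trans_le hβR
  -- the radius of the grid
  obtain ⟨q, hq⟩ : ∃ q : ℕ, q = ⌊(ρ - β / 2) / β⌋₊ := ⟨_, rfl⟩
  have hq1 : (q : ℝ) * β ≤ ρ - β / 2 := by
    have h := Nat.floor_le (a := (ρ - β / 2) / β) (div_nonneg (by linarith) hβ.le)
    rw [← hq, le_div_iff₀ hβ] at h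
    exact h
  have hq2 : ρ - β / 2 < (q : ℝ) * β + β := by
    have h := Nat.lt_floor_add_one ((ρ - β / 2) / β)
    rw [← hq, div_lt_iff₀ hβ] at h
    linarith
  have hq3 : 1 ≤ q := by
    by_contra hcon
    have : q = 0 := by omega
    rw [this] at hq2
    push_cast at hq2
    linarith
  have hq4 : ((q - 1 : ℕ) : ℝ) = (q : ℝ) - 1 := by
    rw [Nat.cast_sub hq3, Nat.cast_one]
  have i0 := hI0 q (by linarith) (by linarith)
  have i1 := hI1 q (by linarith) (by linarith)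
  have i2 := hI2 (q - 1) (by rw [hq4]; linarith) (by rw [hq4]; linarith)
  rw [hq4] at i2
  have e1 : ((q : ℝ) - 1) * β * S = q * β * S - β * S := by ring
  rw [e1] at i2
  have hbS : b * S ≤ β * S := mul_le_mul_of_nonneg_right hbβ hS.le
  have hβS : β * S ≤ R * S := mul_le_mul_of_nonneg_right hβR hS.le
  have hqS : q * β * S ≤ (ρ - β / 2) * S := mul_le_mul_of_nonneg_right hq1 hS.le
  have hqS2 : (ρ - β / 2 - β) * S ≤ q * β * S := mul_le_mul_of_nonneg_right (by linarith) hS.le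
  have hρS : 40 * R * S ≤ ρ * S := mul_le_mul_of_nonneg_right hρ hS.le
  have hRS : 0 < R * S := mul_pos hR hS
  have x1 : (ρ - β / 2) * S = ρ * S - β * S / 2 := by ring
  have x2 : (ρ - β / 2 - β) * S = ρ * S - 3 / 2 * (β * S) := by ring
  rw [x1] at hqS
  rw [x2] at hqS2
  obtain ⟨x0, x1, x2, x3, F, f1, f2, f3⟩ := stabA (Q := 4 * R * S) (Q' := Q' * S) (b := β * S) (bs := b * S) (r := q * β * S)
    (E0 := E0 * S) (T0 := T0 * S) (E1 := E1 * S) (T1 := T1 * S) (E2 := E2 * S) (T2 := T2 * S) hc hcf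
    (by
      have := mul_le_mul_of_nonneg_right hQ' hS.le
      linarith) i0 i1 i2
    (fun i j h1 h2 h3 => hsl i j h1 h2 fun l h4 h5 => (h3 l h4 h5).trans (le_of_eq (by ring))) hn2 hbS
    (by linarith) (by linarith) (mul_pos hT2 hS)
    (by
      have := mul_le_mul_of_nonneg_right hE2 hS.le
      linarith)
    (by
      have := mul_le_mul_of_nonneg_right hE1 hS.le
      linarith) hn1 (by positivity)
  have near := F.near
  refine ⟨x0, x1, x2, x3, ?_, f1, f2, ?_⟩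
  · have hle : (ρ - 4 * β) * S ≤ q * β * S - 2 * (β * S) - 1 := by
      have e : (ρ - 4 * β) * S = ρ * S - 4 * (β * S) := by ring
      rw [e]
      linarith
    exact ⟨F.h01, F.h12, F.h23, sc_le F.c0 hle, sc_le F.c1 hle, sc_le F.c2 hle, sc_le F.c3 hle,
      by have := F.g01; rwa [show (T1 - E2) * S = T1 * S - E2 * S by ring], F.g12, F.w12,
      by have := F.g23; rwa [show (T1 - E2) * S = T1 * S - E2 * S by ring], F.near⟩
  · intro i hi
    have e : (4 * R + 2 * b) * S = 4 * R * S + 2 * (b * S) := by ring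
    have hb0 : 0 < b * S := mul_pos hb hS
    rw [e]
    rcases Nat.lt_or_ge i c with g | g
    · linarith [hcf i g.le]
    · calc ‖pos s i‖ = ‖(pos s i - pos s x0) - (pos s c - pos s x0) + pos s c‖ := by ring_nf
        _ ≤ ‖(pos s i - pos s x0) - (pos s c - pos s x0)‖ + ‖pos s c‖ := norm_add_le _ _
        _ ≤ ‖pos s i - pos s x0‖ + ‖pos s c - pos s x0‖ + ‖pos s c‖ := by gcongr; exact norm_sub_le _ _
        _ ≤ _ := by linarith [near i (f1.trans g) hi, near c f1 f2, hcf c le_rfl]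

/-- **`StbA` from four start cuts around every start cut** -/
theorem stbA_of {n n' : ℕ} {s : Fin n → Fin 3} {s' : Fin n' → Fin 3} {S N R θ r0 δ η d ρB ρ2 dd G T W b K : ℝ} {i0 i0' L : ℕ}
    (hS : 0 < S) (hR : 0 < R) (hC : LC (r0 * S) (δ * S) (500 * R * S) i0 i0' L s s') (h1 : δ * S + 1 ≤ η * S) (hηG : 4 * η ≤ G) (hηT : 4 * η ≤ T)
    (hηb : η ≤ b) (hbR : 200 * b ≤ R) (hρ2 : 5 * b ≤ ρ2) (hρB : ρB + 4 * b + d ≤ 40 * R) (hdd : dd + 4 * b + d ≤ 40 * R)
    (hd : 0 ≤ d) (hdR : d ≤ R) (hK : K = 5 * R) (hr0 : 0 ≤ r0) (hr0K : r0 ≤ 4 * R) (hθ : d + 8 * b ≤ θ)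
    (hA : ∀ (ρ : ℝ) (c : ℕ), 40 * R ≤ ρ → ρ ≤ 130 * R → SC (ρ * S) s c → (∀ i : ℕ, i ≤ c → ‖pos s i‖ ≤ 4 * R * S) →
      ∃ x0 x1 x2 x3 : ℕ, Four s ((ρ - d) * S) (G * S) (T * S) (W * S) (b * S) x0 x1 x2 x3 ∧ x0 ≤ c ∧ c ≤ x3 ∧
        ∀ i : ℕ, i ≤ x3 → ‖pos s i‖ ≤ (4 * R + 2 * b) * S)
    (hT : ∀ i j : ℕ, i ≤ j → j ≤ n → (∀ l : ℕ, i ≤ l → l ≤ j → |(pos s l).re - (pos s i).re| ≤ b * S) → (j : ℝ) - i ≤ θ * N)
    (hB : ¬ BadS (K * S) (ρB * S) (ρ2 * S) (dd * S) (R / 50 * S) (3 * (b * S)) (G * S / 2) (T * S / 4) (W * S) s') :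
    StbA R θ r0 S N i0 i0' s s' := by
  intro ρ c hρ hρ' hc hcf hlev
  obtain ⟨x0, x1, x2, x3, F, hx0, hx3, hc0⟩ := hA ρ c hρ hρ' hc hcf
  have hδ0 : 0 ≤ δ * S := (norm_nonneg _).trans (hC.cl 0 (Nat.zero_le _))
  have hηb' : η * S ≤ b * S := mul_le_mul_of_nonneg_right hηb hS.le
  have hbS : 1 ≤ b * S := by linarith
  have hδb : δ * S ≤ b * S := by linarith
  have hbRS : 200 * (b * S) ≤ R * S := by
    have := mul_le_mul_of_nonneg_right hbR hS.le
    linarith
  have hRS : 0 < R * S := mul_pos hR hS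
  have hx3n : x3 < n := F.c3.2.2.1
  have near := F.near
  have h01 := F.h01
  have h12 := F.h12
  have h23 := F.h23
  have hx3L : x3 ≤ i0 + L := by
    by_contra h
    have h2 := hC.far x3 (by omega) hx3n.le
    have h3 := hc0 x3 le_rfl
    have e : (4 * R + 2 * b) * S = 4 * (R * S) + 2 * (b * S) := by ring
    rw [e] at h3
    linarith
  have hcx : ‖pos s c - pos s x0‖ ≤ b * S := near c hx0 hx3
  have hcre : |(pos s c).re - (pos s x0).re| ≤ b * S := by
    rw [← Complex.sub_re]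
    exact (Complex.abs_re_le_norm _).trans hcx
  -- the initial parts
  have hi0 : i0 ≤ x0 := by
    rcases hlev with ⟨h2, -, -⟩ | h2
    · omega
    · by_contra h
      have h3 := hC.ini x0 (by omega)
      have h4 := (Complex.re_le_norm (pos s x0)).trans h3
      have h5 := abs_le.1 hcre
      have e : (r0 + R / 16) * S = r0 * S + R * S / 16 := by ring
      rw [e] at h2
      linarith [h5.2]
  obtain ⟨y0, rfl⟩ := Nat.exists_eq_add_of_le hi0
  obtain ⟨y1, rfl⟩ := Nat.exists_eq_add_of_le (show i0 ≤ x1 by omega)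
  obtain ⟨y2, rfl⟩ := Nat.exists_eq_add_of_le (show i0 ≤ x2 by omega)
  obtain ⟨y3, rfl⟩ := Nat.exists_eq_add_of_le (show i0 ≤ x3 by omega)
  have hcl := hC.cl y0 (by omega)
  have hclr : |(pos s (i0 + y0)).re - (pos s' (i0' + y0)).re| ≤ δ * S := by
    rw [← Complex.sub_re]
    exact (Complex.abs_re_le_norm _).trans hcl
  have hini : ∀ i : ℕ, i ≤ i0' → (pos s' i).re ≤ (pos s (i0 + y0)).re := by
    intro i hi
    rcases hlev with ⟨-, h2, -⟩ | h2
    · have h3 : i = 0 := by omega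
      rw [h3, NTSF.pos_zero]
      have h4 := F.c0.2.1 0 (Nat.zero_le _)
      rwa [NTSF.pos_zero] at h4
    · have h3 := (Complex.re_le_norm (pos s' i)).trans (hC.ini' i hi)
      have h5 := abs_le.1 hcre
      have e : (r0 + R / 16) * S = r0 * S + R * S / 16 := by ring
      rw [e] at h2
      linarith [h5.2]
  have hbeg : ∃ j : ℕ, j ≤ i0' + y0 ∧ R / 50 * S ≤ ‖pos s' j - pos s' (i0' + y0)‖ := by
    have e50 : R / 50 * S = R * S / 50 := by ring
    rcases hlev with ⟨h2, h2', hD⟩ | h2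
    · subst h2 h2'
      have e8 : R / 8 * S = R * S / 8 := by ring
      rw [e8] at hD
      obtain ⟨i, j, hi, hj, hd2⟩ := dm_x0 (a := R * S / 8) (b := b * S) hx0 hx3 (by linarith) near hD
      have key : ∀ l : ℕ, l ≤ 0 + y0 → R * S / 16 - b * S ≤ ‖pos s l - pos s (0 + y0)‖ →
          ∃ j : ℕ, j ≤ 0 + y0 ∧ R / 50 * S ≤ ‖pos s' j - pos s' (0 + y0)‖ := by
        intro l hl hd3
        refine ⟨l, hl, ?_⟩
        have f1 := hC.cl l (by omega)
        have f2 := hC.cl y0 (by omega)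
        simp only [zero_add] at f1 f2 hd3 ⊢
        have e5 := norm_sub_le_norm_sub_add_norm_sub (pos s l) (pos s' l) (pos s y0)
        have e6 := norm_sub_le_norm_sub_add_norm_sub (pos s' l) (pos s' y0) (pos s y0)
        rw [norm_sub_rev (pos s y0)] at f2
        rw [e50]
        linarith
      have e4 := norm_sub_le_norm_sub_add_norm_sub (pos s i) (pos s (0 + y0)) (pos s j)
      rcases le_or_gt (R * S / 16 - b * S) ‖pos s i - pos s (0 + y0)‖ with h3 | h3
      · exact key i hi h3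
      · refine key j hj ?_
        rw [norm_sub_rev]
        linarith
    · refine ⟨0, Nat.zero_le _, ?_⟩
      rw [NTSF.pos_zero, zero_sub, norm_neg]
      have h3 := Complex.re_le_norm (pos s' (i0' + y0))
      have h4 := abs_le.1 hclr
      have h5 := abs_le.1 hcre
      have e : (r0 + R / 16) * S = r0 * S + R * S / 16 := by ring
      rw [e] at h2
      rw [e50]
      have h6 : 0 ≤ r0 * S := mul_nonneg hr0 hS.le
      linarith [h4.1, h4.2, h5.2]
  have eK : K * S = 5 * (R * S) := by rw [hK]; ring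
  have hρS : (ρ - d) * S = ρ * S - d * S := by ring
  have hρ3 : 40 * R * S ≤ ρ * S := mul_le_mul_of_nonneg_right hρ hS.le
  have hρ4 : ρ * S ≤ 130 * R * S := mul_le_mul_of_nonneg_right hρ' hS.le
  have hdS : 0 ≤ d * S := mul_nonneg hd hS.le
  have hdRS : d * S ≤ R * S := mul_le_mul_of_nonneg_right hdR hS.le
  have z1 := mul_le_mul_of_nonneg_right hηG hS.le
  have z2 := mul_le_mul_of_nonneg_right hηT hS.le
  have z3 := mul_le_mul_of_nonneg_right hρ2 hS.le
  have z4 := mul_le_mul_of_nonneg_right hρB hS.le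
  have z5 := mul_le_mul_of_nonneg_right hdd hS.le
  have z6 := mul_le_mul_of_nonneg_right hr0K hS.le
  have z7 := mul_le_mul_of_nonneg_right hθ hS.le
  obtain ⟨c', c1, c2, c3, c4⟩ := stabL (η := η * S) (ρ := (ρ - d) * S) (ρB := ρB * S) (ρ2 := ρ2 * S) (dd := dd * S)
    (bB := R / 50 * S) (κ0 := (4 * R + 2 * b) * S) (K := K * S) hC h1 (by linarith) (by linarith) hηb'
    (by rw [hρS]; linarith) (by linarith) (by rw [hρS]; linarith) (by rw [hρS]; linarith)
    (by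
      have e : (4 * R + 2 * b) * S = 4 * (R * S) + 2 * (b * S) := by ring
      rw [hρS, e]
      linarith)
    (by rw [eK]; linarith)
    (by
      have e : (4 * R + 2 * b) * S = 4 * (R * S) + 2 * (b * S) := by ring
      rw [eK, e]
      linarith)
    (by rw [eK]; linarith) F hini hbeg hc0 hB
  refine ⟨c', by omega, sc_mono c3 ?_, ?_, ?_⟩
  · have e : (ρ - θ) * S = ρ * S - θ * S := by ring
    rw [hρS, e]
    linarith
  · have t1 : ((i0 + y3 : ℕ) : ℝ) - ((i0 + y0 : ℕ) : ℝ) ≤ θ * N := by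
      refine hT _ _ (by omega) hx3n.le fun l l1 l2 => ?_
      rw [← Complex.sub_re]
      exact (Complex.abs_re_le_norm _).trans (near l l1 l2)
    push_cast at t1
    have t2 : ((i0 : ℝ) + y0) ≤ c := by exact_mod_cast hx0
    have t3 : (c : ℝ) ≤ i0 + y3 := by exact_mod_cast hx3
    have t4 : ((i0' : ℝ) + y0) ≤ c' := by exact_mod_cast c1.le
    have t5 : (c' : ℝ) ≤ i0' + y3 := by exact_mod_cast c2
    rw [abs_le]
    constructor <;> linarith
  · have e1 := norm_sub_le_norm_sub_add_norm_sub (pos s c) (pos s (i0 + y0)) (pos s' c')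
    rw [norm_sub_rev (pos s (i0 + y0))] at e1
    linarith

end Pool.Agent.SCF.M
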