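import Pool.Agent.SCF.StbLB

/-!
# ROT, block F3: local stability of the start cuts, the bad events (helper66; after helper28's StbP)

* `ni_unit` : the isolated window cuts in the unit `S` in `[size n / K0, size n]` from a grid of radii in the unit `size n`;
* **`stbLP_of : BadN → StbLP`**.
-/

set_option autoImplicit false

open Set Filter Topology MeasureTheory

namespace Pool.Agent.SCF.M

open Pool.Agent.NTS.Res
open Pool.Agent.SCF.Z
open Pool.Agent.CRT.R (WC Slb slab)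
open Pool.Agent.CRT.V.VC (pr pr_mono pr_or pr_of_card pr_nonneg)
open Pool.Agent.SCF.K (IsoR isoN BadN)

/-- an isolated window cut for one of the radii of the grid -/
def IsoG (R β e t : ℝ) (j : ℕ) (n : ℕ) (s : Fin n → Fin 3) : Prop :=
  2 * β ≤ j * β ∧ (j : ℝ) * β ≤ 130 * R ∧
    IsoR (5 * R * size n) (j * β * size n) (j * β * size n - β * size n) (β * size n / 2) (e * size n) (t * size n) s

lemma iso_allG {R κ β : ℝ} (hκ : 0 < κ) (hκ1 : κ < 1) (hR : 0 < R) (hβ : 0 < β) (J : ℕ) {e : ℝ} (he : 0 < e)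
    {ε t0 : ℝ} (hε : 0 < ε) (ht0 : 0 < t0) : ∃ t : ℝ, 0 < t ∧ t ≤ t0 ∧ ∃ N0 : ℕ, ∀ N : ℕ, N0 ≤ N →
      pr N (fun s => ∃ j : ℕ, j < J ∧ IsoG R β e t j N s ∧ 0 < zc κ (1000 * R) (curve s)) ≤ ε := by
  refine pr_fam (P := fun j t n s => IsoG R β e t j n s ∧ 0 < zc κ (1000 * R) (curve s)) ?_ J ?_ ε hε t0 ht0
  · rintro j t t' n s htt ⟨⟨h1, h2, h3⟩, h4⟩
    exact ⟨⟨h1, h2, isoR_mono (mul_le_mul_of_nonneg_right htt (Real.sqrt_nonneg _)) h3⟩, h4⟩
  · intro j _ ε' hε'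
    by_cases hj : 2 * β ≤ j * β ∧ (j : ℝ) * β ≤ 130 * R
    · obtain ⟨t, ht, N0, hN0⟩ := isoN (ε := ε') (κ := κ) (c := 1000 * R) (R' := 5 * R) (r := j * β) (b := β) (e := e) hε' hκ hκ1
        hβ hj.1 he (by linarith) (by linarith [hj.2])
      refine ⟨t, ht, N0, fun N hN => (pr_mono fun s _ hs => ?_).trans (hN0 N hN)⟩
      exact ⟨hs.1.2.2, hs.2⟩
    · refine ⟨1, one_pos, 0, fun N _ => ?_⟩
      exact (pr_none fun s hs => hj ⟨hs.1.1, hs.1.2.1⟩).trans hε'.le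

/-- **change of the unit** -/
lemma ni_unit {n : ℕ} {s : Fin n → Fin 3} {S R β K0 E T : ℝ} {J : ℕ} (hs : 0 < size n) (hS : 0 < S) (hR : 0 < R) (hβ : 0 < β)
    (hβR : 100 * β ≤ R) (hK0 : 1 ≤ K0) (hS1 : size n / K0 ≤ S) (hS2 : S ≤ size n) (hE : 0 ≤ E) (hT : 0 ≤ T)
    (hJ : 130 * R < J * (β / (4 * K0))) (h : ∀ j : ℕ, j < J → ¬ IsoG R (β / (4 * K0)) (E / K0) T j n s) :
    ∀ i : ℕ, 36 * R ≤ i * β → (i : ℝ) * β ≤ 130 * R → NI (5 * R * S) (i * β * S) (β * S) (E * S) (T * S) s := by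
  intro i hi1 hi2 k hk hw
  have hK : (0 : ℝ) < K0 := by linarith
  obtain ⟨β', hβ'⟩ : ∃ β' : ℝ, β' = β / (4 * K0) := ⟨_, rfl⟩
  rw [← hβ'] at hJ h
  have hβ0' : 0 < β' := by rw [hβ']; positivity
  have e4 : 4 * K0 * β' = β := by rw [hβ']; field_simp
  have hS1' : size n ≤ K0 * S := by
    rw [div_le_iff₀ hK] at hS1
    linarith
  obtain ⟨r, hr⟩ : ∃ r : ℝ, r = i * β * S / size n := ⟨_, rfl⟩
  have hrs : r * size n = i * β * S := by rw [hr]; field_simp
  obtain ⟨j, hj⟩ : ∃ j : ℕ, j = ⌊r / β'⌋₊ := ⟨_, rfl⟩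
  have hr0 : 0 ≤ r := by rw [hr]; positivity
  have j1 : (j : ℝ) * β' ≤ r := by
    have h1 := Nat.floor_le (a := r / β') (by positivity)
    rwa [← hj, le_div_iff₀ hβ0'] at h1
  have j2 : r < (j : ℝ) * β' + β' := by
    have h1 := Nat.lt_floor_add_one (r / β')
    rw [← hj, div_lt_iff₀ hβ0'] at h1
    linarith
  have hrR : 36 * R ≤ K0 * r := by
    have h1 : 36 * R * size n ≤ K0 * r * size n := by
      calc 36 * R * size n ≤ 36 * R * (K0 * S) := mul_le_mul_of_nonneg_left hS1' (by positivity)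
        _ ≤ (i * β) * (K0 * S) := mul_le_mul_of_nonneg_right hi1 (by positivity)
        _ = K0 * (i * β * S) := by ring
        _ = K0 * r * size n := by rw [← hrs]; ring
    exact le_of_mul_le_mul_right h1 hs
  have hrR' : r ≤ 130 * R := by
    have h1 : r * size n ≤ 130 * R * size n := by
      rw [hrs]
      calc i * β * S ≤ 130 * R * S := mul_le_mul_of_nonneg_right hi2 hS.le
        _ ≤ 130 * R * size n := mul_le_mul_of_nonneg_left hS2 (by positivity)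
    exact le_of_mul_le_mul_right h1 hs
  have hbβ : β' ≤ β / 4 := by
    have h1 : 4 * β' ≤ 4 * K0 * β' := by nlinarith
    linarith
  have hr3 : 3 * β' ≤ r := by
    have h1 : K0 * (3 * β') ≤ K0 * r := by
      have h2 : K0 * (3 * β') ≤ β := by nlinarith
      linarith
    exact le_of_mul_le_mul_left h1 hK
  have hjJ : j < J := by
    by_contra hcon
    have h3 : (J : ℝ) ≤ j := by exact_mod_cast not_lt.1 hcon
    have h4 : (J : ℝ) * β' ≤ j * β' := mul_le_mul_of_nonneg_right h3 hβ0'.le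
    linarith
  have h1 := h j hjJ
  have h2 : ¬ IsoR (5 * R * size n) (j * β' * size n) (j * β' * size n - β' * size n) (β' * size n / 2) (E / K0 * size n)
      (T * size n) s := fun hc => h1 ⟨by linarith, by linarith, hc⟩
  have hni := ni_of (β := β' * size n) (Q' := 5 * R * size n) (r := j * β' * size n) (E := E / K0 * size n) (T := T * size n)
    h2 rfl rfl
  obtain ⟨l, l1, l2, l3, l4⟩ := hni k (hk.trans (mul_le_mul_of_nonneg_left hS2 (by positivity))) (hw.mono (by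
    rw [← hrs]
    exact mul_le_mul_of_nonneg_right j1 hs.le))
  have hβS : 4 * (β' * size n) ≤ β * S := by
    calc 4 * (β' * size n) ≤ 4 * (β' * (K0 * S)) := by
          have := mul_le_mul_of_nonneg_left hS1' hβ0'.le
          linarith
      _ = 4 * K0 * β' * S := by ring
      _ = β * S := by rw [e4]
  have h6 : 0 < β' * size n := mul_pos hβ0' hs
  refine ⟨l, l1.mono ?_, by linarith, le_trans ?_ l3, l4.trans ?_⟩
  · have h5 : r * size n ≤ (j * β' + β') * size n := mul_le_mul_of_nonneg_right j2.le hs.le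
    have e : (j * β' + β') * size n = j * β' * size n + β' * size n := by ring
    rw [e, hrs] at h5
    linarith
  · exact mul_le_mul_of_nonneg_left hS2 hT
  · rw [div_mul_eq_mul_div, div_le_iff₀ hK]
    calc E * size n ≤ E * (K0 * S) := mul_le_mul_of_nonneg_left hS1' hE
      _ = E * S * K0 := by ring

/-- the bad event -/
def BddL (R θ β b K0 E0 T0 E1 T1 E2 T2 : ℝ) (J : ℕ) (n : ℕ) (s : Fin n → Fin 3) : Prop :=
  Slb (b / K0 * size n) (2 * E0 * size n) s ∨ ¬ Tms θ b s ∨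
    BadK (5 * R * size n) (R * size n) (R / (50 * K0) * size n) (3 * b * size n) (T1 / (4 * K0) * size n)
      (T2 / (4 * K0) * size n) (E2 * size n) s ∨
    (∃ j : ℕ, j < J ∧ IsoG R (β / (4 * K0)) (E0 / K0) T0 j n s) ∨ (∃ j : ℕ, j < J ∧ IsoG R (β / (4 * K0)) (E1 / K0) T1 j n s) ∨
    ∃ j : ℕ, j < J ∧ IsoG R (β / (4 * K0)) (E2 / K0) T2 j n s

/-- **good walks with locally close positions are stable** -/
theorem stbL_good {n n' : ℕ} (hn : 1 ≤ n) (hn' : 1 ≤ n') {s : Fin n → Fin 3} {s' : Fin n' → Fin 3}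
    {δ η R θ β b K0 K1 E0 T0 E1 T1 E2 T2 S N r0 : ℝ} {J i0 i0' L : ℕ} (hR : 0 < R) (hK0 : 1 ≤ K0) (hK30 : K0 ≤ 30) (hK1 : 0 < K1)
    (hθ0 : 0 ≤ θ) (h1 : δ * S + 1 ≤ η * S) (hη1 : 8 * η ≤ T1) (hη2 : 4 * η ≤ T2) (hηb : η ≤ b) (hθ : 20 * β ≤ θ)
    (hβR : 100 * β ≤ R) (hb : 2 * b ≤ β) (hJ : 130 * R < J * (β / (4 * K0))) (hE0 : 0 ≤ E0) (hE20 : 0 ≤ E2)
    (hE2 : 2 * E2 ≤ T1) (hE1 : 2 * E1 ≤ T0) (hE10 : 0 ≤ E1) (hT2 : 0 < T2)
    (hS1 : size n / K0 ≤ S) (hS2 : S ≤ size n) (hS1' : size n' / K0 ≤ S) (hS2' : S ≤ size n') (hN : (n : ℝ) ≤ K1 * N)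
    (hr0 : 0 ≤ r0) (hr0R : r0 ≤ 4 * R)
    (hg : ¬ BddL R (θ / K1) β b K0 E0 T0 E1 T1 E2 T2 J n s) (hg' : ¬ BddL R (θ / K1) β b K0 E0 T0 E1 T1 E2 T2 J n' s')
    (hC : LC (r0 * S) (δ * S) (500 * R * S) i0 i0' L s s') : StbA R θ r0 S N i0 i0' s s' := by
  have hK : (0 : ℝ) < K0 := by linarith
  have hs := NTSF.size_pos hn
  have hs' := NTSF.size_pos hn'
  have hS : 0 < S := lt_of_lt_of_le (by positivity) hS1
  have hδ0 : 0 ≤ δ * S := (norm_nonneg _).trans (hC.cl 0 (Nat.zero_le _))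
  have hηS : 1 ≤ η * S := by linarith
  have hη0 : 0 < η := by
    by_contra hc
    have : η * S ≤ 0 := mul_nonpos_of_nonpos_of_nonneg (not_lt.1 hc) hS.le
    linarith
  have hb0 : 0 < b := by linarith
  have hβ0 : 0 < β := by linarith
  have hbS : η * S ≤ b * S := mul_le_mul_of_nonneg_right hηb hS.le
  have hβS : 2 * b * S ≤ β * S := mul_le_mul_of_nonneg_right hb hS.le
  have hnK : size n ≤ K0 * S := by
    rw [div_le_iff₀ hK] at hS1
    linarith
  have hnK' : size n' ≤ K0 * S := by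
    rw [div_le_iff₀ hK] at hS1'
    linarith
  unfold BddL at hg hg'
  push Not at hg hg'
  obtain ⟨g1, g2, -, g4, g5, g6⟩ := hg
  obtain ⟨-, -, g3, -, -, -⟩ := hg'
  have hT0 : 0 ≤ T0 := by linarith
  have hT1 : 0 ≤ T1 := by linarith
  have n4 := ni_unit hs hS hR hβ0 hβR hK0 hS1 hS2 hE0 hT0 hJ g4
  have n5 := ni_unit hs hS hR hβ0 hβR hK0 hS1 hS2 hE10 hT1 hJ g5
  have n6 := ni_unit hs hS hR hβ0 hβR hK0 hS1 hS2 hE20 hT2.le hJ g6
  refine stbA_of (η := η) (d := 4 * β) (ρB := K0 * R) (ρ2 := R / 2) (dd := K0 * R / 4) (G := T1 / 2) (T := T2) (W := E2) (b := b)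
    (K := 5 * R) hS hR hC h1 (by linarith) hη2 hηb (by linarith) (by linarith) (by nlinarith) (by nlinarith) (by linarith)
    (by linarith) rfl hr0 hr0R (by linarith) ?_ ?_ ?_
  · intro ρ c hρ hρ' hc hQ
    obtain ⟨x0, x1, x2, x3, F, f1, f2, f3⟩ := fourS (Q' := 5 * R) hS hβ0 (by linarith) hb0 (by linarith)
      (by linarith) (by linarith) hT2 hE2 hE1 (by linarith) n4 n5 n6 (fun i j h3 h4 h5 => by
        by_contra hcon
        refine g1 ⟨i, j, h3, h4, fun l h6 h7 => (h5 l h6 h7).trans (mul_le_mul_of_nonneg_left hS2 (by linarith)), ?_⟩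
        refine le_trans ?_ (not_lt.1 hcon)
        rw [div_mul_eq_mul_div, div_le_iff₀ hK]
        calc b * size n ≤ b * (K0 * S) := mul_le_mul_of_nonneg_left hnK hb0.le
          _ = b * S * K0 := by ring) hρ hρ' hc hQ
    have hG : T1 / 2 * S ≤ (T1 - E2) * S := mul_le_mul_of_nonneg_right (by linarith) hS.le
    exact ⟨x0, x1, x2, x3, ⟨F.h01, F.h12, F.h23, F.c0, F.c1, F.c2, F.c3, by linarith [F.g01], F.g12, F.w12,
      by linarith [F.g23], F.near⟩, f1, f2, f3⟩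
  · intro i j h3 h4 h5
    have h6 := g2 i j h3 h4 fun l l1 l2 => (h5 l l1 l2).trans (mul_le_mul_of_nonneg_left hS2 hb0.le)
    refine h6.trans ?_
    calc θ / K1 * n ≤ θ / K1 * (K1 * N) := mul_le_mul_of_nonneg_left hN (by positivity)
      _ = θ * N := by field_simp
  · intro hc
    refine g3 (hc.k (mul_le_mul_of_nonneg_left hS2' (by positivity)) ?_ ?_ ?_ ?_ ?_ ?_ ?_ (mul_le_mul_of_nonneg_left hS2' hE20))
    · calc R * size n' ≤ R * (K0 * S) := mul_le_mul_of_nonneg_left hnK' hR.le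
        _ = K0 * R * S := by ring
    · have := mul_le_mul_of_nonneg_left hS2' hR.le
      linarith
    · have := mul_le_mul_of_nonneg_left hnK' hR.le
      linarith
    · have e : R / (50 * K0) * size n' = R * size n' / (50 * K0) := by ring
      rw [e, div_le_iff₀ (by positivity)]
      have := mul_le_mul_of_nonneg_left hnK' hR.le
      linarith
    · have := mul_le_mul_of_nonneg_left hS2' hb0.le
      linarith
    · have e : T1 / (4 * K0) * size n' = T1 * size n' / (4 * K0) := by ring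
      rw [e, div_le_iff₀ (by positivity)]
      have := mul_le_mul_of_nonneg_left hnK' hT1
      linarith
    · have e : T2 / (4 * K0) * size n' = T2 * size n' / (4 * K0) := by ring
      rw [e, div_le_iff₀ (by positivity)]
      have := mul_le_mul_of_nonneg_left hnK' hT2.le
      linarith

/-- **the stability outside of events of a small probability** -/
theorem stbLP_of (hBN : BadN) : StbLP := by
  intro R K0 K1 κ θ ε hR hK0 hK30 hK1 hκ hκ1 hθ hε
  have hK : (0 : ℝ) < K0 := by linarith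
  have hK1' : (0 : ℝ) < K1 := by linarith
  -- the displacements
  obtain ⟨β, hβ⟩ : ∃ β : ℝ, β = min (θ / 20) (R / 100) := ⟨_, rfl⟩
  have hβ0 : 0 < β := by rw [hβ]; positivity
  have hβθ : 20 * β ≤ θ := by
    have : β ≤ θ / 20 := by rw [hβ]; exact min_le_left _ _
    linarith
  have hβR : 100 * β ≤ R := by
    have : β ≤ R / 100 := by rw [hβ]; exact min_le_right _ _
    linarith
  obtain ⟨τ, hτ, N1, hN1⟩ := tmP (ε / 8) (θ / K1) (by positivity) (by positivity)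
  obtain ⟨e0, he0, hBN1⟩ := hBN (ε / 8) κ (1000 * R) (5 * R) R (R / (50 * K0)) (by positivity) hκ hκ1 (by positivity) hR
    (by positivity) (by
      rw [← mul_div_assoc, div_le_iff₀ (by positivity)]
      nlinarith) (by linarith)
  obtain ⟨b, hb⟩ : ∃ b : ℝ, b = min (β / 2) (min τ (e0 / 3)) := ⟨_, rfl⟩
  have hb0 : 0 < b := by rw [hb]; positivity
  have hbβ : 2 * b ≤ β := by
    have : b ≤ β / 2 := by rw [hb]; exact min_le_left _ _
    linarith
  have hbτ : b ≤ τ := by rw [hb]; exact (min_le_right _ _).trans (min_le_left _ _)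
  have hbe : 3 * b ≤ e0 := by
    have : b ≤ e0 / 3 := by rw [hb]; exact (min_le_right _ _).trans (min_le_right _ _)
    linarith
  have hβ4 : 0 < β / (4 * K0) := by positivity
  obtain ⟨J, hJ⟩ := exists_nat_gt (130 * R / (β / (4 * K0)))
  have hJb : 130 * R < J * (β / (4 * K0)) := by rwa [div_lt_iff₀ hβ4] at hJ
  -- the slab
  obtain ⟨σ, hσ, N2, hN2⟩ := slab (ε := ε / 8) (b := b / K0) (by positivity) (by positivity)
  -- the levels
  obtain ⟨E0, hE0⟩ : ∃ E0 : ℝ, E0 = σ / 2 := ⟨_, rfl⟩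
  have hE0p : 0 < E0 := by rw [hE0]; positivity
  obtain ⟨T0, hT0, -, N3, hN3⟩ := iso_allG hκ hκ1 hR hβ4 J (e := E0 / K0) (by positivity) (ε := ε / 8) (t0 := 1)
    (by positivity) one_pos
  obtain ⟨E1, hE1⟩ : ∃ E1 : ℝ, E1 = T0 / 2 := ⟨_, rfl⟩
  have hE1p : 0 < E1 := by rw [hE1]; positivity
  obtain ⟨T1, hT1, hT1b, N4, hN4⟩ := iso_allG hκ hκ1 hR hβ4 J (e := E1 / K0) (by positivity) (ε := ε / 8) (t0 := b)
    (by positivity) hb0
  obtain ⟨w0, hw0, hBN2⟩ := hBN1 (T1 / (4 * K0)) (3 * b) (by positivity) (by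
    rw [div_le_iff₀ (by positivity)]
    nlinarith) hbe
  obtain ⟨E2, hE2⟩ : ∃ E2 : ℝ, E2 = min (T1 / 2) w0 := ⟨_, rfl⟩
  have hE2p : 0 < E2 := by rw [hE2]; positivity
  have hE2T : 2 * E2 ≤ T1 := by
    have : E2 ≤ T1 / 2 := by rw [hE2]; exact min_le_left _ _
    linarith
  have hE2w : E2 ≤ w0 := by rw [hE2]; exact min_le_right _ _
  obtain ⟨T2, hT2, hT2E, N5, hN5⟩ := iso_allG hκ hκ1 hR hβ4 J (e := E2 / K0) (by positivity) (ε := ε / 8) (t0 := E2)
    (by positivity) hE2p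
  obtain ⟨N6, hN6⟩ := hBN2 (T2 / (4 * K0)) E2 (by positivity) (by
    rw [div_le_iff₀ (by positivity)]
    nlinarith) hE2w
  -- the distance
  obtain ⟨η, hη⟩ : ∃ η : ℝ, η = min (min (T1 / 8) (T2 / 4)) b := ⟨_, rfl⟩
  have hη0 : 0 < η := by rw [hη]; positivity
  have hη1 : 8 * η ≤ T1 := by
    have : η ≤ T1 / 8 := by rw [hη]; exact (min_le_left _ _).trans (min_le_left _ _)
    linarith
  have hη2 : 4 * η ≤ T2 := by
    have : η ≤ T2 / 4 := by rw [hη]; exact (min_le_left _ _).trans (min_le_right _ _)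
    linarith
  have hηb : η ≤ b := by rw [hη]; exact min_le_right _ _
  obtain ⟨N7, hN7⟩ := Pool.Agent.SCF.K.size_big (η := η) hη0 (2 * K0)
  obtain ⟨n0, hn0⟩ : ∃ n0 : ℕ, n0 = N1 + N2 + N3 + N4 + N5 + N6 + N7 + 1 := ⟨_, rfl⟩
  refine ⟨η / 2, n0, BddL R (θ / K1) β b K0 E0 T0 E1 T1 E2 T2 J, by positivity, fun n hn => ?_, ?_⟩
  · have c1 : pr n (fun s => ¬ Tms (θ / K1) b s) ≤ ε / 8 :=
      (pr_mono fun s _ hs => fun h => hs (h.mono le_rfl hbτ)).trans (hN1 n (by omega))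
    have c2 : pr n (fun s => Slb (b / K0 * size n) (2 * E0 * size n) s) ≤ ε / 8 := by
      refine pr_of_card ?_
      have h3 := hN2 n (by omega)
      rw [show 2 * E0 = σ by rw [hE0]; ring]
      exact h3
    have c3 := hN3 n (by omega)
    have c4 := hN4 n (by omega)
    have c5 := hN5 n (by omega)
    have c6 := hN6 n (by omega)
    have d1 : pr n (fun s => BddL R (θ / K1) β b K0 E0 T0 E1 T1 E2 T2 J n s ∧ 0 < zc κ (1000 * R) (curve s)) ≤
        pr n (fun s => Slb (b / K0 * size n) (2 * E0 * size n) s) + (pr n (fun s => ¬ Tms (θ / K1) b s) +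
        (pr n (fun s => BadK (5 * R * size n) (R * size n) (R / (50 * K0) * size n) (3 * b * size n) (T1 / (4 * K0) * size n)
          (T2 / (4 * K0) * size n) (E2 * size n) s ∧ 0 < zc κ (1000 * R) (curve s)) +
        (pr n (fun s => ∃ j : ℕ, j < J ∧ IsoG R (β / (4 * K0)) (E0 / K0) T0 j n s ∧ 0 < zc κ (1000 * R) (curve s)) +
        (pr n (fun s => ∃ j : ℕ, j < J ∧ IsoG R (β / (4 * K0)) (E1 / K0) T1 j n s ∧ 0 < zc κ (1000 * R) (curve s)) +
        pr n (fun s => ∃ j : ℕ, j < J ∧ IsoG R (β / (4 * K0)) (E2 / K0) T2 j n s ∧ 0 < zc κ (1000 * R) (curve s)))))) := by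
      refine (pr_or (Q := fun s => Slb (b / K0 * size n) (2 * E0 * size n) s) (R := fun s => (¬ Tms (θ / K1) b s ∨
        BadK (5 * R * size n) (R * size n) (R / (50 * K0) * size n) (3 * b * size n) (T1 / (4 * K0) * size n)
          (T2 / (4 * K0) * size n) (E2 * size n) s ∨
        (∃ j : ℕ, j < J ∧ IsoG R (β / (4 * K0)) (E0 / K0) T0 j n s) ∨ (∃ j : ℕ, j < J ∧ IsoG R (β / (4 * K0)) (E1 / K0) T1 j n s) ∨
        ∃ j : ℕ, j < J ∧ IsoG R (β / (4 * K0)) (E2 / K0) T2 j n s) ∧ 0 < zc κ (1000 * R) (curve s)) ?_).trans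
          (add_le_add le_rfl ?_)
      · rintro s - ⟨h3 | h3, h4⟩
        · exact Or.inl h3
        · exact Or.inr ⟨h3, h4⟩
      refine (pr_or (Q := fun s => ¬ Tms (θ / K1) b s) (R := fun s => (
        BadK (5 * R * size n) (R * size n) (R / (50 * K0) * size n) (3 * b * size n) (T1 / (4 * K0) * size n)
          (T2 / (4 * K0) * size n) (E2 * size n) s ∨
        (∃ j : ℕ, j < J ∧ IsoG R (β / (4 * K0)) (E0 / K0) T0 j n s) ∨ (∃ j : ℕ, j < J ∧ IsoG R (β / (4 * K0)) (E1 / K0) T1 j n s) ∨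
        ∃ j : ℕ, j < J ∧ IsoG R (β / (4 * K0)) (E2 / K0) T2 j n s) ∧ 0 < zc κ (1000 * R) (curve s)) ?_).trans
          (add_le_add le_rfl ?_)
      · rintro s - ⟨h3 | h3, h4⟩
        · exact Or.inl h3
        · exact Or.inr ⟨h3, h4⟩
      refine (pr_or (Q := fun s => BadK (5 * R * size n) (R * size n) (R / (50 * K0) * size n) (3 * b * size n)
          (T1 / (4 * K0) * size n) (T2 / (4 * K0) * size n) (E2 * size n) s ∧ 0 < zc κ (1000 * R) (curve s)) (R := fun s => (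
        (∃ j : ℕ, j < J ∧ IsoG R (β / (4 * K0)) (E0 / K0) T0 j n s) ∨ (∃ j : ℕ, j < J ∧ IsoG R (β / (4 * K0)) (E1 / K0) T1 j n s) ∨
        ∃ j : ℕ, j < J ∧ IsoG R (β / (4 * K0)) (E2 / K0) T2 j n s) ∧ 0 < zc κ (1000 * R) (curve s)) ?_).trans
          (add_le_add le_rfl ?_)
      · rintro s - ⟨h3 | h3, h4⟩
        · exact Or.inl ⟨h3, h4⟩
        · exact Or.inr ⟨h3, h4⟩
      refine (pr_or (Q := fun s => ∃ j : ℕ, j < J ∧ IsoG R (β / (4 * K0)) (E0 / K0) T0 j n s ∧ 0 < zc κ (1000 * R) (curve s))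
        (R := fun s => (
        (∃ j : ℕ, j < J ∧ IsoG R (β / (4 * K0)) (E1 / K0) T1 j n s) ∨
        ∃ j : ℕ, j < J ∧ IsoG R (β / (4 * K0)) (E2 / K0) T2 j n s) ∧ 0 < zc κ (1000 * R) (curve s)) ?_).trans
          (add_le_add le_rfl ?_)
      · rintro s - ⟨⟨j, h3, h5⟩ | h3, h4⟩
        · exact Or.inl ⟨j, h3, h5, h4⟩
        · exact Or.inr ⟨h3, h4⟩
      refine pr_or ?_
      rintro s - ⟨⟨j, h3, h5⟩ | ⟨j, h3, h5⟩, h4⟩
      · exact Or.inl ⟨j, h3, h5, h4⟩
      · exact Or.inr ⟨j, h3, h5, h4⟩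
    linarith
  · intro n n' s s' S N r0 i0 i0' L hn hn' hs hs' hS1 hS2 hS1' hS2' hN _ hr0 hr0R hC
    have hn1 : 1 ≤ n := by omega
    have hn1' : 1 ≤ n' := by omega
    have hsz := NTSF.size_pos hn1
    refine stbL_good hn1 hn1' (δ := η / 2) (η := η) hR hK0 hK30 hK1' hθ.le ?_ hη1 hη2 hηb hβθ hβR hbβ hJb hE0p.le hE2p.le hE2T
      (by rw [hE1]; linarith) hE1p.le hT2 hS1 hS2 hS1' hS2' hN hr0 hr0R hs hs' hC
    have h3 := hN7 n (by omega)
    have h4 : η * size n ≤ K0 * (η * S) := by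
      rw [div_le_iff₀ hK] at hS1
      have := mul_le_mul_of_nonneg_left hS1 hη0.le
      linarith
    have h5 : K0 * 2 ≤ K0 * (η * S) := by linarith
    have h6 := le_of_mul_le_mul_left h5 hK
    have e : η / 2 * S = η * S / 2 := by ring
    rw [e]
    linarith

end Pool.Agent.SCF.M
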