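import Pool.Agent.SCF.StbP

/-!
# ROT, block F3: local stability of the start cuts, absolute units: the literals (helper66, after helper86)

* `LC r0 δ F i0 i0' L s s'` : `s` behind `i0` and `s'` behind `i0'` are at a distance at most `δ` during `L` steps, the initial parts
  are in the ball of radius `r0` (no closeness there), and both walks are outside of the ball of radius `F` after these `L` steps
  (all lengths absolute);
* `StbA` : the start cuts of `s` have start cuts of `s'` near them (positions in units `S`, times in units `N`);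
* **`StbLP`** : outside of events of a small probability (at every exact number of steps `n`; they do not depend on the unit
  `S` in `[size n / K0, size n]`) local closeness gives `StbA`.
-/

set_option autoImplicit false

open Set Filter Topology MeasureTheory

namespace Pool.Agent.SCF.M

open Pool.Agent.NTS.Res
open Pool.Agent.CRT (CI)
open Pool.Agent.CRT.V.VC (pr)
open Pool.Agent.SCF.Z

/-- **local closeness**, absolute lengths, letters compared index by index -/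
structure LC (r0 δ F : ℝ) (i0 i0' L : ℕ) {n n' : ℕ} (s : Fin n → Fin 3) (s' : Fin n' → Fin 3) : Prop where
  hn : i0 + L ≤ n
  hn' : i0' + L ≤ n'
  ini : ∀ i : ℕ, i ≤ i0 → ‖pos s i‖ ≤ r0
  ini' : ∀ i : ℕ, i ≤ i0' → ‖pos s' i‖ ≤ r0
  cl : ∀ j : ℕ, j ≤ L → ‖pos s (i0 + j) - pos s' (i0' + j)‖ ≤ δ
  far : ∀ i : ℕ, i0 + L < i → i ≤ n → F ≤ ‖pos s i‖
  far' : ∀ i : ℕ, i0' + L < i → i ≤ n' → F ≤ ‖pos s' i‖
  e : F ≤ ‖pos s n‖
  e' : F ≤ ‖pos s' n'‖

lemma LC.symm {r0 δ F : ℝ} {i0 i0' L n n' : ℕ} {s : Fin n → Fin 3} {s' : Fin n' → Fin 3} (h : LC r0 δ F i0 i0' L s s') :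
    LC r0 δ F i0' i0 L s' s :=
  ⟨h.hn', h.hn, h.ini', h.ini, fun j hj => by rw [norm_sub_rev]; exact h.cl j hj, h.far', h.far, h.e', h.e⟩

/-- every start cut of `s` with a radius in `[40 R, 130 R]` and a start piece in the ball `4 R`, with a level at least `r0 + R / 16`
(or, if `i0 = i0' = 0`, with a start piece of diameter at least `R / 8`), has a start cut of `s'` near it: positions in units `S`,
times behind `i0`, `i0'` in units `N` -/
def StbA (R θ r0 S N : ℝ) (i0 i0' : ℕ) {n n' : ℕ} (s : Fin n → Fin 3) (s' : Fin n' → Fin 3) : Prop :=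
  ∀ (ρ : ℝ) (c : ℕ), 40 * R ≤ ρ → ρ ≤ 130 * R → SC (ρ * S) s c → (∀ i : ℕ, i ≤ c → ‖pos s i‖ ≤ 4 * R * S) →
    ((i0 = 0 ∧ i0' = 0 ∧ DmG (R / 8 * S) s c) ∨ (r0 + R / 16) * S ≤ (pos s c).re) →
    ∃ c' : ℕ, i0' ≤ c' ∧ SC ((ρ - θ) * S) s' c' ∧ |((c : ℝ) - i0) - ((c' : ℝ) - i0')| ≤ θ * N ∧ ‖pos s c - pos s' c'‖ ≤ θ * S

/-- **local stability of the start cuts, absolute units** -/
def StbLP : Prop := ∀ R K0 K1 κ θ ε : ℝ, 0 < R → 1 ≤ K0 → K0 ≤ 30 → 1 ≤ K1 → 0 < κ → κ < 1 → 0 < θ → 0 < ε →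
  ∃ (δ : ℝ) (n0 : ℕ) (Bad : ∀ n : ℕ, (Fin n → Fin 3) → Prop), 0 < δ ∧
    (∀ n : ℕ, n0 ≤ n → pr n (fun s => Bad n s ∧ 0 < zc κ (1000 * R) (curve s)) ≤ ε) ∧
    ∀ (n n' : ℕ) (s : Fin n → Fin 3) (s' : Fin n' → Fin 3) (S N r0 : ℝ) (i0 i0' L : ℕ), n0 ≤ n → n0 ≤ n' →
      ¬ Bad n s → ¬ Bad n' s' → size n / K0 ≤ S → S ≤ size n → size n' / K0 ≤ S → S ≤ size n' → (n : ℝ) ≤ K1 * N →
      (n' : ℝ) ≤ K1 * N → 0 ≤ r0 → r0 ≤ 4 * R →
      LC (r0 * S) (δ * S) (500 * R * S) i0 i0' L s s' → StbA R θ r0 S N i0 i0' s s'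

end Pool.Agent.SCF.M
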