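import Pool.Agent.SCF.FlowPub4
import Pool.Agent.RMP.LimDefs2

/-!
# The structure of the set of the scaling limits (helper5): the flow and the joining identity (helper83's `RMLim2`)

* `fam_flow` : the orbit of a weak limit is a family in the sense of `Fam`;
* **`struct_of (hA : AllSc) (h2 : RMLim2)`** : the flow on the set of the weak limits, and: two independent curves with the laws `T x ν` and
  `T y ν`, of the sizes `c x ν` and `c y ν`, with close ends, conditioned to be disjoint and joined, have the law `T (x + y) ν`.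
-/

set_option autoImplicit false

open Filter Topology MeasureTheory Set

namespace Pool.Agent.SCF

open Pool.Agent.NTS.Res
open Pool.Agent.RMP
open Pool.Agent.NPR (frac)
open NTSF.Mg (WL)

/-- the orbit of a weak limit is a family -/
lemma fam_flow {T : ℝ → ProbabilityMeasure C(unitInterval, ℂ) → ProbabilityMeasure C(unitInterval, ℂ)}
    {c : ℝ → ProbabilityMeasure C(unitInterval, ℂ) → ℝ}
    (hlim : ∀ (t : ℝ) (φ : ℕ → ℕ) (ν : ProbabilityMeasure C(unitInterval, ℂ)), 0 < t → Tendsto φ atTop atTop →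
      LawTo φ (ν : Measure C(unitInterval, ℂ)) → LawTo (fun j => ⌊t * φ j⌋₊) (T t ν : Measure C(unitInterval, ℂ)) ∧
        Tendsto (fun j => size ⌊t * φ j⌋₊ / size (φ j)) atTop (𝓝 (c t ν)) ∧ 0 < c t ν)
    {φ : ℕ → ℕ} (hφ : Tendsto φ atTop atTop) {ν : ProbabilityMeasure C(unitInterval, ℂ)}
    (h : LawTo φ (ν : Measure C(unitInterval, ℂ))) :
    Fam φ (fun x => (T x ν : Measure C(unitInterval, ℂ))) (fun x => c x ν) where
  top := hφ
  prob := fun _ _ _ => inferInstance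
  law := fun x hx _ => (hlim x φ ν hx hφ h).1
  size := fun x hx _ => (hlim x φ ν hx hφ h).2.1

/-- **the structure of the set of the scaling limits** -/
theorem struct_of (hA : AllSc) (h2 : RMLim2) :
    IsCompact WL ∧ IsConnected WL ∧
    ∃ (T : ℝ → ProbabilityMeasure C(unitInterval, ℂ) → ProbabilityMeasure C(unitInterval, ℂ))
      (c : ℝ → ProbabilityMeasure C(unitInterval, ℂ) → ℝ),
      (∀ (t : ℝ) (φ : ℕ → ℕ) (ν : ProbabilityMeasure C(unitInterval, ℂ)), 0 < t → Tendsto φ atTop atTop →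
        LawTo φ (ν : Measure C(unitInterval, ℂ)) →
          LawTo (fun j => ⌊t * φ j⌋₊) (T t ν : Measure C(unitInterval, ℂ)) ∧
          Tendsto (fun j => size ⌊t * φ j⌋₊ / size (φ j)) atTop (𝓝 (c t ν)) ∧ 0 < c t ν) ∧
      ContinuousOn (fun p : ℝ × ProbabilityMeasure C(unitInterval, ℂ) => (T p.1 p.2, c p.1 p.2)) (Ioi 0 ×ˢ WL) ∧
      (∀ t : ℝ, 0 < t → BijOn (T t) WL WL) ∧
      (∀ (s t : ℝ) (ν : ProbabilityMeasure C(unitInterval, ℂ)), 0 < s → 0 < t → ν ∈ WL →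
        T 1 ν = ν ∧ T s (T t ν) = T (s * t) ν ∧ c s (T t ν) * c t ν = c (s * t) ν) ∧
      (∀ ε x₁ y₁ q : ℝ, 0 < ε → 0 < x₁ → 0 < y₁ → 1 < q → q * (x₁ + y₁) ≤ 1 → ∃ a b r₀ : ℝ, 0 < a ∧ 0 < r₀ ∧
        ∀ ν ∈ WL, ∀ (r : ℝ) (J : (C(unitInterval, ℂ) → ℝ) → ℝ → ℝ → ℝ), 0 < r → r ≤ r₀ →
          J = joint (fun x => (T x ν : Measure C(unitInterval, ℂ))) (fun x => c x ν) r →
          a * r ^ (59 / 24 : ℝ) ≤ (∫ x in x₁..q * x₁, ∫ y in y₁..q * y₁, J (fun _ => 1) x y) ∧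
          (∫ x in x₁..q * x₁, ∫ y in y₁..q * y₁, J (fun _ => 1) x y) ≤ b * r ^ (59 / 24 : ℝ) ∧
          ∀ F : C(unitInterval, ℂ) → ℝ, (∀ γ, 0 ≤ F γ ∧ F γ ≤ 1) → LipschitzWith 1 F →
            |∫ x in x₁..q * x₁, ∫ y in y₁..q * y₁,
              (J F x y - (∫ γ, F γ ∂(T (x + y) ν : Measure C(unitInterval, ℂ))) * J (fun _ => 1) x y)| ≤
              ε * ∫ x in x₁..q * x₁, ∫ y in y₁..q * y₁, J (fun _ => 1) x y) ∧
      ∀ p q : ℕ, 2 ≤ p → 2 ≤ q → (∀ a b : ℕ, 1 ≤ a → p ^ b ≠ q ^ a) → List.TFAE [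
        ∃ ν : ProbabilityMeasure C(unitInterval, ℂ), LawTo (fun n => n) (ν : Measure C(unitInterval, ℂ)),
        (∃ ν : ProbabilityMeasure C(unitInterval, ℂ), LawTo (fun j => p ^ j) (ν : Measure C(unitInterval, ℂ))) ∧
          ∃ ν : ProbabilityMeasure C(unitInterval, ℂ), LawTo (fun j => q ^ j) (ν : Measure C(unitInterval, ℂ)),
        ∀ F : Finset ℂ, F.Nonempty → ∃ S : Set ℝ, S.Countable ∧ ∀ r : ℝ, 0 < r → r ∉ S →
          (∃ l : ℝ, Tendsto (fun j => frac (p ^ j) F r) atTop (𝓝 l)) ∧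
            ∃ l : ℝ, Tendsto (fun j => frac (q ^ j) F r) atTop (𝓝 l)] := by
  obtain ⟨h1, h2', T, c, h3, h4, h5, h6, -, -, h7⟩ := flow_pub4 hA
  refine ⟨h1, h2', T, c, h3, h4, h5, h6, fun ε x₁ y₁ q hε hx hy hq hqxy => ?_, fun p q hp hq hpq => ?_⟩
  · obtain ⟨a, b, r₀, ha, hr₀, H⟩ := h2 ε x₁ y₁ q hε hx hy hq hqxy
    refine ⟨a, b, r₀, ha, hr₀, ?_⟩
    rintro ν ⟨φ, hφ, hl⟩ r J hr hr' rfl
    exact H φ _ _ (fam_flow h3 hφ.tendsto_atTop hl) r hr hr'
  · have h8 := h7 p q hp hq hpq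
    have e1 := h8.out 0 1
    have e2 := h8.out 0 2
    tfae_have 1 ↔ 2 := e1
    tfae_have 1 ↔ 3 := e2
    tfae_finish

end Pool.Agent.SCF
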