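import Pool.Agent.SCF.ZDefs
import Pool.Agent.CRT.VDict

/-!
# ScaleFlow (R-), row P0: literals (helper29)

* `TGt c D W s k` : tip gate at `k`: a window cut of radius `W`, all of the walk behind `k` is in the right half of the ball of
  radius `D`, and its end is at a distance at least `c D`;
* `TipU` : tip gates exist at every scale with a probability close to one, uniformly in the scale (one of the three directions).
-/

set_option autoImplicit false

open Set Filter Topology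

namespace Pool.Agent.SCF.Z

open Pool.Agent.NTS.Res
open Pool.Agent.CRT.V (rt)

/-- tip gate -/
def TGt (c D W : ℝ) {n : ℕ} (s : Fin n → Fin 3) (k : ℕ) : Prop :=
  k < n ∧ Even k ∧ pos s (k + 1) = pos s k + 1 ∧
    (∀ i : ℕ, i ≤ k → ‖pos s i - pos s k‖ ≤ W → (pos s i).re ≤ (pos s k).re) ∧
    (∀ j : ℕ, k < j → j ≤ n → (pos s k).re + 1 ≤ (pos s j).re ∧ ‖pos s j - pos s k‖ ≤ D) ∧ c * D ≤ ‖pos s n - pos s k‖

open Classical in
/-- **TipU**: uniform tip gates, odd numbers of steps -/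
def TipU : Prop := ∃ c : ℝ, 0 < c ∧ ∀ ε A : ℝ, 0 < ε → 0 < A → ∃ (M : ℕ) (c0 δ0 : ℝ), 0 < c0 ∧ 0 < δ0 ∧
  ∀ (n : ℕ) (R : ℝ), Odd n → c0 ≤ R → R ≤ δ0 * size n →
    (((saw n).filter fun s => ¬ ∃ (q : Fin 3) (k : ℕ) (D : ℝ), R / 2 ^ M ≤ D ∧ D ≤ R ∧
      TGt c D (A * D) (rt q s) k).card : ℝ) ≤ ε * ((saw n).card : ℝ)

end Pool.Agent.SCF.Z
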