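import Pool.Agent.CRT.RPerfG

/-!
# ScaleFlow, row EXN (helper16): locality of the window cuts under truncation

`tk s j` : the first `j` steps. If the walk stays outside of the ball of radius `C` about `0` behind the time `j`, then the window
cuts in a smaller ball are decided by the first `j` steps: `wc_tk`, `isoR_tk`.
-/

set_option autoImplicit false

namespace Pool.Agent.SCF.K

open Pool.Agent.NTS.Res
open NTSF (pos_zero pos_succ mem_saw)
open Pool.Agent.CRT.R (WC norm_half)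

/-- the first `j` steps -/
def tk {n : ℕ} (s : Fin n → Fin 3) (j : ℕ) : Fin j → Fin 3 := fun i => if h : (i : ℕ) < n then s ⟨i, h⟩ else 0

lemma pos_tk {n : ℕ} (s : Fin n → Fin 3) {j i : ℕ} (hj : j ≤ n) (hi : i ≤ j) : pos (tk s j) i = pos s i := by
  induction i with
  | zero => rw [pos_zero, pos_zero]
  | succ i ih =>
    rw [pos_succ _ i (by omega), pos_succ s i (by omega), ih (by omega)]
    congr 2
    unfold tk
    rw [dif_pos (by show i < n; omega)]

lemma tk_saw {n : ℕ} {s : Fin n → Fin 3} (hs : s ∈ saw n) {j : ℕ} (hj : j ≤ n) : tk s j ∈ saw j := by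
  rw [mem_saw]
  intro a b ha hb he
  rw [pos_tk s hj ha, pos_tk s hj hb] at he
  exact mem_saw.1 hs a b (by omega) (by omega) he

/-- behind the time `j` the walk is outside of the ball of radius `C` -/
def Out {n : ℕ} (C : ℝ) (s : Fin n → Fin 3) (j : ℕ) : Prop := ∀ i : ℕ, j ≤ i → i ≤ n → C ≤ ‖pos s i‖

lemma Out.lt {n : ℕ} {C R : ℝ} {s : Fin n → Fin 3} {j k : ℕ} (h : Out C s j) (hk : k ≤ n) (hn : ‖pos s k‖ ≤ R) (hR : R < C) :
    k < j := by
  by_contra hcon
  push Not at hcon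
  linarith [h k hcon hk]

/-- a window cut is decided by the first `j` steps -/
theorem wc_tk {n : ℕ} {C ρ : ℝ} {s : Fin n → Fin 3} {j k : ℕ} (hj : j ≤ n) (h : Out C s j) (hkj : k < j)
    (hC : ‖pos s k‖ + ρ + 1 ≤ C) : WC ρ (tk s j) k ↔ WC ρ s k := by
  have hp : ∀ i, i ≤ j → pos (tk s j) i = pos s i := fun i hi => pos_tk s hj hi
  constructor
  · rintro ⟨h1, h2, h3, h4, h5⟩
    rw [hp _ (by omega), hp _ hkj.le] at h3
    refine ⟨by omega, h2, h3, fun i hi hn => ?_, fun i hi hin hn => ?_⟩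
    · have := h4 i hi
      rw [hp i (by omega), hp k hkj.le] at this
      exact this hn
    · rcases le_or_gt i j with hij | hij
      · have := h5 i hi hij
        rw [hp i hij, hp k hkj.le] at this
        exact this hn
      · exfalso
        have h6 := h i hij.le hin
        have h7 : ‖pos s i‖ ≤ ‖pos s i - (pos s k + 1 / 2)‖ + ‖pos s k + 1 / 2‖ := by
          calc ‖pos s i‖ = ‖(pos s i - (pos s k + 1 / 2)) + (pos s k + 1 / 2)‖ := by congr 1; ring
            _ ≤ _ := norm_add_le _ _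
        have h8 : ‖pos s k + 1 / 2‖ ≤ ‖pos s k‖ + ‖(1 / 2 : ℂ)‖ := norm_add_le _ _
        rw [norm_half] at h8
        linarith
  · rintro ⟨h1, h2, h3, h4, h5⟩
    refine ⟨hkj, h2, by rw [hp _ (by omega), hp _ hkj.le]; exact h3, fun i hi hn => ?_, fun i hi hin hn => ?_⟩
    · rw [hp i (by omega), hp k hkj.le] at hn ⊢
      exact h4 i hi hn
    · rw [hp i hin, hp k hkj.le] at hn ⊢
      exact h5 i hi (by omega) hn

/-- an isolated window cut in the ball of radius `R` -/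
def IsoR (R ρ ρ1 cc E T : ℝ) {n : ℕ} (s : Fin n → Fin 3) : Prop :=
  ∃ k : ℕ, k ≤ n ∧ ‖pos s k‖ ≤ R ∧ WC ρ s k ∧ ∀ i : ℕ, WC ρ1 s i → ‖pos s i - pos s k‖ ≤ cc →
    |(pos s i).re - (pos s k).re| < T ∨ E < |(pos s i).re - (pos s k).re|

lemma IsoR.iso {R ρ ρ1 cc E T : ℝ} {n : ℕ} {s : Fin n → Fin 3} (h : IsoR R ρ ρ1 cc E T s) :
    Pool.Agent.CRT.R.G.IsoG ρ ρ1 cc E T s := by
  obtain ⟨k, -, -, h1, h2⟩ := h
  exact ⟨k, h1, h2⟩

/-- **an isolated window cut is decided by the first `j` steps** -/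
theorem isoR_tk {n : ℕ} {C R ρ ρ1 cc E T : ℝ} {s : Fin n → Fin 3} {j : ℕ} (hj : j ≤ n) (h : Out C s j) (hR : 0 ≤ R)
    (hcc : 0 ≤ cc) (hC : R + ρ + 1 ≤ C) (hC1 : R + cc + ρ1 + 1 ≤ C) (hρ1 : 0 ≤ ρ1) (hρ : 0 ≤ ρ) :
    IsoR R ρ ρ1 cc E T (tk s j) ↔ IsoR R ρ ρ1 cc E T s := by
  have hp : ∀ i, i ≤ j → pos (tk s j) i = pos s i := fun i hi => pos_tk s hj hi
  constructor
  · rintro ⟨k, hk, hkR, hW, hI⟩
    have hkj : k < j := hW.1
    rw [hp k hkj.le] at hkR
    refine ⟨k, by omega, hkR, (wc_tk hj h hkj (by linarith)).1 hW, fun i hi hd => ?_⟩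
    have hni : ‖pos s i‖ ≤ R + cc := by
      calc ‖pos s i‖ = ‖(pos s i - pos s k) + pos s k‖ := by ring_nf
        _ ≤ ‖pos s i - pos s k‖ + ‖pos s k‖ := norm_add_le _ _
        _ ≤ R + cc := by linarith
    have hij : i < j := h.lt hi.1.le hni (by linarith)
    have := hI i ((wc_tk hj h hij (by linarith)).2 hi)
    rw [hp i hij.le, hp k hkj.le] at this
    exact this hd
  · rintro ⟨k, hk, hkR, hW, hI⟩
    have hkj : k < j := h.lt hk hkR (by linarith)
    refine ⟨k, hkj.le, by rw [hp k hkj.le]; exact hkR, (wc_tk hj h hkj (by linarith)).2 hW, fun i hi hd => ?_⟩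
    have hij : i < j := hi.1
    rw [hp i hij.le, hp k hkj.le] at hd ⊢
    have hni : ‖pos s i‖ ≤ R + cc := by
      calc ‖pos s i‖ = ‖(pos s i - pos s k) + pos s k‖ := by ring_nf
        _ ≤ ‖pos s i - pos s k‖ + ‖pos s k‖ := norm_add_le _ _
        _ ≤ R + cc := by linarith
    exact hI i ((wc_tk hj h hij (by linarith)).1 hi) hd

end Pool.Agent.SCF.K
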