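import Pool.Agent.SLW.PubY

/-!
# ScaleFlow, the soft end (helper5)

A slowly changing sequence in a compact metric space with the flow property (if it converges along `θ` then also along
`⌊lam θ⌋` for all `lam`):
* `flow_unique`: the limit along `⌊lam θ⌋` depends only on the limit along `θ`;
* `orbit`: if it converges along the powers of `p` then all the limits are the limits along `⌊r p ^ j⌋`, `1 ≤ r ≤ p`;
* **`two_pow`**: if it converges along the powers of `p` and of `q`, `log p / log q` irrational, then it converges.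
-/

set_option autoImplicit false

open Filter Topology MeasureTheory Set

namespace Pool.Agent.SCF

/-! ### density -/

/-- the numbers `a α - b β` are dense -/
theorem dense_pair {α β : ℝ} (hα : 0 < α) (hβ : 0 < β) (hirr : Irrational (α / β)) (t : ℝ) {ε : ℝ} (hε : 0 < ε) (N : ℕ) :
    ∃ a b : ℕ, N ≤ a ∧ N ≤ b ∧ |(a : ℝ) * α - b * β - t| < ε := by
  obtain ⟨n, hn⟩ := exists_nat_gt (β / ε)
  have hn0 : (0 : ℝ) < n := lt_trans (by positivity) hn
  have hn1 : 0 < n := by exact_mod_cast hn0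
  obtain ⟨k, hk, -, hk2⟩ := Real.exists_nat_abs_mul_sub_round_le (α / β) hn1
  obtain ⟨m, hm⟩ : ∃ m : ℤ, m = round ((k : ℝ) * (α / β)) := ⟨_, rfl⟩
  rw [← hm] at hk2
  have hk0 : (0 : ℝ) < k := by exact_mod_cast hk
  have hne : (k : ℝ) * (α / β) - m ≠ 0 := by
    intro h0
    have h1 : α / β = ((m : ℚ) / (k : ℚ) : ℚ) := by
      push_cast
      rw [eq_div_iff hk0.ne']
      linarith
    exact hirr ⟨_, h1.symm⟩
  have hm0 : 0 ≤ m := by
    by_contra hcon
    have h1 : m ≤ -1 := by omega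
    have h2 : (m : ℝ) ≤ -1 := by exact_mod_cast h1
    have h3 : 0 < (k : ℝ) * (α / β) := by positivity
    have h4 := (abs_le.1 hk2).2
    have h5 : 1 / ((n : ℝ) + 1) < 1 := by
      rw [div_lt_one (by positivity)]
      linarith
    linarith
  obtain ⟨l, hl⟩ := Int.eq_ofNat_of_zero_le hm0
  have hml : (m : ℝ) = l := by
    rw [hl]
    norm_cast
  -- the small element
  obtain ⟨g, hg⟩ : ∃ g : ℝ, g = (k : ℝ) * α - l * β := ⟨_, rfl⟩
  have hgβ : g = ((k : ℝ) * (α / β) - m) * β := by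
    rw [hg, hml]
    field_simp
  have hg0 : g ≠ 0 := by
    rw [hgβ]
    exact mul_ne_zero hne hβ.ne'
  have hgε : |g| < ε := by
    rw [hgβ, abs_mul, abs_of_pos hβ]
    have h1 : |(k : ℝ) * (α / β) - m| * β ≤ 1 / ((n : ℝ) + 1) * β := mul_le_mul_of_nonneg_right hk2 hβ.le
    have h2 : 1 / ((n : ℝ) + 1) * β < ε := by
      rw [div_mul_eq_mul_div, one_mul, div_lt_iff₀ (by positivity)]
      rw [div_lt_iff₀ hε] at hn
      linarith
    linarith
  rcases lt_or_gt_of_ne hg0 with hneg | hpos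
  · -- from above
    obtain ⟨A, hA⟩ := exists_nat_ge ((t + N * β) / α)
    have hA' : t + N * β ≤ (max A N : ℕ) * α := by
      rw [div_le_iff₀ hα] at hA
      refine hA.trans (mul_le_mul_of_nonneg_right ?_ hα.le)
      exact_mod_cast le_max_left _ _
    obtain ⟨s, hs⟩ : ∃ s : ℝ, s = (max A N : ℕ) * α - N * β - t := ⟨_, rfl⟩
    have hs0 : 0 ≤ s := by
      rw [hs]
      linarith
    obtain ⟨j, hj⟩ : ∃ j : ℕ, j = ⌊s / |g|⌋₊ := ⟨_, rfl⟩
    have hgp : 0 < |g| := abs_pos.2 hg0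
    have j1 : (j : ℝ) * |g| ≤ s := by
      have := Nat.floor_le (show 0 ≤ s / |g| by positivity)
      rw [← hj, le_div_iff₀ hgp] at this
      exact this
    have j2 : s < (j + 1 : ℝ) * |g| := by
      have := Nat.lt_floor_add_one (s / |g|)
      rw [← hj, div_lt_iff₀ hgp] at this
      exact this
    refine ⟨max A N + j * k, N + j * l, (le_max_right _ _).trans (Nat.le_add_right _ _), Nat.le_add_right _ _, ?_⟩
    have e : ((max A N + j * k : ℕ) : ℝ) * α - ((N + j * l : ℕ) : ℝ) * β - t = s + j * g := by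
      rw [hs, hg]
      push_cast
      ring
    rw [e]
    rw [abs_of_neg hneg] at j1 j2 hgε
    rw [abs_lt]
    constructor <;> nlinarith
  · -- from below
    obtain ⟨A, hA⟩ := exists_nat_ge ((N * α - t) / β)
    have hA' : N * α - t ≤ (max A N : ℕ) * β := by
      rw [div_le_iff₀ hβ] at hA
      refine hA.trans (mul_le_mul_of_nonneg_right ?_ hβ.le)
      exact_mod_cast le_max_left _ _
    obtain ⟨s, hs⟩ : ∃ s : ℝ, s = (max A N : ℕ) * β - N * α + t := ⟨_, rfl⟩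
    have hs0 : 0 ≤ s := by
      rw [hs]
      linarith
    obtain ⟨j, hj⟩ : ∃ j : ℕ, j = ⌊s / g⌋₊ := ⟨_, rfl⟩
    have j1 : (j : ℝ) * g ≤ s := by
      have := Nat.floor_le (show 0 ≤ s / g by positivity)
      rw [← hj, le_div_iff₀ hpos] at this
      exact this
    have j2 : s < (j + 1 : ℝ) * g := by
      have := Nat.lt_floor_add_one (s / g)
      rw [← hj, div_lt_iff₀ hpos] at this
      exact this
    refine ⟨N + j * k, max A N + j * l, Nat.le_add_right _ _, (le_max_right _ _).trans (Nat.le_add_right _ _), ?_⟩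
    have e : ((N + j * k : ℕ) : ℝ) * α - ((max A N + j * l : ℕ) : ℝ) * β - t = -(s - j * g) := by
      rw [hs, hg]
      push_cast
      ring
    rw [e, abs_neg]
    rw [abs_of_pos hpos] at hgε
    rw [abs_lt]
    constructor <;> linarith

/-- the quotients of the powers are dense -/
theorem dense_pow {p q : ℕ} (hp : 2 ≤ p) (hq : 2 ≤ q) (hirr : Irrational (Real.log q / Real.log p)) {r : ℝ} (hr : 0 < r)
    {ε : ℝ} (hε : 0 < ε) (N : ℕ) : ∃ a b : ℕ, N ≤ a ∧ N ≤ b ∧ |(q : ℝ) ^ a / p ^ b - r| < ε := by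
  have hp0 : (0 : ℝ) < p := by exact_mod_cast (by omega : 0 < p)
  have hq0 : (0 : ℝ) < q := by exact_mod_cast (by omega : 0 < q)
  have hp1 : (1 : ℝ) < p := by exact_mod_cast (by omega : 1 < p)
  have hq1 : (1 : ℝ) < q := by exact_mod_cast (by omega : 1 < q)
  have hc : ContinuousAt Real.exp (Real.log r) := Real.continuous_exp.continuousAt
  rw [Metric.continuousAt_iff] at hc
  obtain ⟨δ, hδ, h⟩ := hc ε hε
  obtain ⟨a, b, ha, hb, hab⟩ := dense_pair (Real.log_pos hq1) (Real.log_pos hp1) hirr (Real.log r) hδ N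
  refine ⟨a, b, ha, hb, ?_⟩
  have h1 := h (x := (a : ℝ) * Real.log q - b * Real.log p) (by rw [Real.dist_eq]; exact hab)
  rw [Real.dist_eq, Real.exp_sub, Real.exp_log hr, mul_comm (a : ℝ), mul_comm (b : ℝ), Real.exp_mul, Real.exp_mul,
    Real.exp_log hp0, Real.exp_log hq0, Real.rpow_natCast, Real.rpow_natCast] at h1
  exact h1

/-! ### slowly changing sequences -/

section

variable {X : Type*} [MetricSpace X] {x : ℕ → X}

/-- slow change -/
def Slow (x : ℕ → X) : Prop := ∀ ε : ℝ, 0 < ε → ∃ δ : ℝ, 0 < δ ∧ ∀ n m : ℕ, 1 / δ ≤ n → (m : ℝ) ≤ δ * n →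
  dist (x (n + m)) (x n) ≤ ε

theorem near (hs : Slow x) {θ θ' : ℕ → ℕ} (hθ : Tendsto θ atTop atTop)
    (h : Tendsto (fun k => (θ' k : ℝ) / θ k) atTop (𝓝 1)) :
    Tendsto (fun k => dist (x (θ' k)) (x (θ k))) atTop (𝓝 0) := by
  rw [Metric.tendsto_nhds]
  intro ε hε
  obtain ⟨δ, hδ, h1⟩ := hs (ε / 2) (by positivity)
  obtain ⟨η, hη⟩ : ∃ η : ℝ, η = min (1 / 2) (δ / 2) := ⟨_, rfl⟩
  have hη0 : 0 < η := by
    rw [hη]
    exact lt_min (by norm_num) (by positivity)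
  have hη1 : η ≤ 1 / 2 := by
    rw [hη]
    exact min_le_left _ _
  have hη2 : η ≤ δ / 2 := by
    rw [hη]
    exact min_le_right _ _
  have hθr : Tendsto (fun k => (θ k : ℝ)) atTop atTop := tendsto_natCast_atTop_atTop.comp hθ
  filter_upwards [(Metric.tendsto_nhds.1 h) η hη0, hθr.eventually_ge_atTop (2 / δ), hθr.eventually_gt_atTop 0]
    with k k1 k2 k3
  rw [Real.dist_eq, abs_lt] at k1
  have k4 : (θ' k : ℝ) < (1 + η) * θ k := by
    have := k1.2
    rw [sub_lt_iff_lt_add, div_lt_iff₀ k3] at this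
    linarith
  have k5 : (1 - η) * θ k < θ' k := by
    have := k1.1
    rw [lt_sub_iff_add_lt, lt_div_iff₀ k3] at this
    linarith
  have k6 : 1 / δ ≤ θ k / 2 := by
    have : 2 / δ = 2 * (1 / δ) := by ring
    linarith
  have hδ1 : 0 < 1 / δ := by positivity
  rw [Real.dist_eq, sub_zero, abs_of_nonneg dist_nonneg]
  refine lt_of_le_of_lt ?_ (half_lt_self hε)
  rcases le_total (θ k) (θ' k) with hle | hle
  · obtain ⟨m, hm⟩ := Nat.exists_eq_add_of_le hle
    have hm' : (θ' k : ℝ) = θ k + m := by exact_mod_cast hm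
    rw [hm]
    refine h1 _ _ (by linarith) ?_
    nlinarith
  · obtain ⟨m, hm⟩ := Nat.exists_eq_add_of_le hle
    have hm' : (θ k : ℝ) = θ' k + m := by exact_mod_cast hm
    rw [hm, dist_comm]
    refine h1 _ _ (by nlinarith) ?_
    nlinarith

theorem near_lim (hs : Slow x) {θ θ' : ℕ → ℕ} (hθ : Tendsto θ atTop atTop)
    (h : Tendsto (fun k => (θ' k : ℝ) / θ k) atTop (𝓝 1)) {y : X} (hy : Tendsto (fun k => x (θ k)) atTop (𝓝 y)) :
    Tendsto (fun k => x (θ' k)) atTop (𝓝 y) := by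
  have h1 := near hs hθ h
  rw [tendsto_iff_dist_tendsto_zero] at hy ⊢
  have h2 := h1.add hy
  rw [add_zero] at h2
  exact squeeze_zero (fun k => dist_nonneg) (fun k => dist_triangle _ _ _) h2

/-- the flow property, for the factor `lam` -/
def FlowAt (x : ℕ → X) (lam : ℝ) : Prop := ∀ (θ : ℕ → ℕ) (y : X), Tendsto θ atTop atTop →
  Tendsto (fun k => x (θ k)) atTop (𝓝 y) → ∃ y' : X, Tendsto (fun k => x ⌊lam * θ k⌋₊) atTop (𝓝 y')

/-- the flow property, for the factors at most one -/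
def Flow (x : ℕ → X) : Prop := ∀ lam : ℝ, 0 < lam → lam ≤ 1 → FlowAt x lam

/-- **the limit depends only on the limit** -/
theorem flow_unique {lam : ℝ} (hF : FlowAt x lam) {θ θ' : ℕ → ℕ} {y z z' : X} (hθ : Tendsto θ atTop atTop)
    (hθ' : Tendsto θ' atTop atTop) (hy : Tendsto (fun k => x (θ k)) atTop (𝓝 y))
    (hy' : Tendsto (fun k => x (θ' k)) atTop (𝓝 y)) (hz : Tendsto (fun k => x ⌊lam * θ k⌋₊) atTop (𝓝 z)) (hz' : Tendsto (fun k => x ⌊lam * θ' k⌋₊) atTop (𝓝 z')) :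
    z = z' := by
  obtain ⟨ω, hω⟩ : ∃ ω : ℕ → ℕ, ω = fun k => if Even k then θ (k / 2) else θ' (k / 2) := ⟨_, rfl⟩
  have hhalf : Tendsto (fun k : ℕ => k / 2) atTop atTop := Nat.tendsto_div_const_atTop (by norm_num)
  have key : ∀ (f g : ℕ → X) (w : X), Tendsto f atTop (𝓝 w) → Tendsto g atTop (𝓝 w) →
      Tendsto (fun k => if Even k then f (k / 2) else g (k / 2)) atTop (𝓝 w) := by
    intro f g w hf hg
    exact Tendsto.if' (hf.comp hhalf) (hg.comp hhalf)
  have h1 : Tendsto ω atTop atTop := by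
    rw [hω]
    exact Tendsto.if' (hθ.comp hhalf) (hθ'.comp hhalf)
  have h2 : Tendsto (fun k => x (ω k)) atTop (𝓝 y) := by
    refine (key _ _ y hy hy').congr fun k => ?_
    rw [hω]
    by_cases h : Even k
    · simp only [if_pos h]
    · simp only [if_neg h]
  obtain ⟨w, hw⟩ := hF ω y h1 h2
  have h3 : Tendsto (fun k : ℕ => 2 * k) atTop atTop := tendsto_id.const_mul_atTop' (by norm_num)
  have h4 : Tendsto (fun k : ℕ => 2 * k + 1) atTop atTop := 
    tendsto_atTop_mono (f := fun k : ℕ => k) (fun k => by omega) tendsto_id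
  have e1 : Tendsto (fun k => x ⌊lam * θ k⌋₊) atTop (𝓝 w) := by
    refine (hw.comp h3).congr fun k => ?_
    show x ⌊lam * ω (2 * k)⌋₊ = _
    rw [hω]
    simp
  have e2 : Tendsto (fun k => x ⌊lam * θ' k⌋₊) atTop (𝓝 w) := by
    refine (hw.comp h4).congr fun k => ?_
    show x ⌊lam * ω (2 * k + 1)⌋₊ = _
    rw [hω]
    have h5 : ¬ Even (2 * k + 1) := by
      rw [Nat.not_even_iff_odd]
      exact odd_two_mul_add_one k
    have h6 : (2 * k + 1) / 2 = k := by omega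
    simp only [if_neg h5, h6]
  exact (tendsto_nhds_unique hz e1).trans (tendsto_nhds_unique e2 hz')

lemma floor_ratio {r : ℝ} (hr : 0 < r) {b : ℕ → ℕ} (hb : Tendsto b atTop atTop) :
    Tendsto (fun k => ((⌊r * b k⌋₊ : ℕ) : ℝ) / b k) atTop (𝓝 r) :=
  (tendsto_nat_floor_mul_div_atTop hr.le).comp (tendsto_natCast_atTop_atTop.comp hb)

/-- **the limits are one orbit** -/
theorem orbit (hs : Slow x) (hF : Flow x) {p : ℕ} (hp : 2 ≤ p) {y : X} (hy : Tendsto (fun j => x (p ^ j)) atTop (𝓝 y))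
    {θ : ℕ → ℕ} (hθ : Tendsto θ atTop atTop) {z : X} (hz : Tendsto (fun k => x (θ k)) atTop (𝓝 z)) :
    ∃ r : ℝ, 0 < r ∧ r ≤ 1 ∧ Tendsto (fun j => x ⌊r * (p ^ j : ℕ)⌋₊) atTop (𝓝 z) := by
  have hp0 : (0 : ℝ) < p := by exact_mod_cast (by omega : 0 < p)
  obtain ⟨m, hm⟩ : ∃ m : ℕ → ℕ, m = fun k => Nat.log p (θ k) + 1 := ⟨_, rfl⟩
  have hmt : Tendsto m atTop atTop := by
    rw [tendsto_atTop_atTop]
    intro M
    obtain ⟨k0, hk0⟩ := eventually_atTop.1 (hθ.eventually_ge_atTop (p ^ M))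
    refine ⟨k0, fun k hk => ?_⟩
    rw [hm]
    have h1 : p ^ M ≠ 0 := by positivity
    have h2 := (Nat.le_log_iff_pow_le (b := p) (x := M) (y := θ k) (by omega) (by have := hk0 k hk; omega)).2 (hk0 k hk)
    exact h2.trans (Nat.le_succ _)
  have hrk : ∀ᶠ k in atTop, (θ k : ℝ) / (p ^ m k : ℕ) ∈ Icc (1 / (p : ℝ)) 1 := by
    filter_upwards [hθ.eventually_ge_atTop 1] with k hk
    have h1 : p ^ m k ≤ p * θ k := by
      rw [hm]
      show p ^ (Nat.log p (θ k) + 1) ≤ p * θ k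
      rw [pow_succ']
      exact Nat.mul_le_mul_left _ (Nat.pow_log_le_self p (by omega))
    have h2 : θ k < p ^ m k := by
      rw [hm]
      exact Nat.lt_pow_succ_log_self (by omega) _
    have h3 : (0 : ℝ) < (p ^ m k : ℕ) := by
      push_cast
      positivity
    have h1' : ((p ^ m k : ℕ) : ℝ) ≤ p * θ k := by exact_mod_cast h1
    have h2' : (θ k : ℝ) ≤ (p ^ m k : ℕ) := by exact_mod_cast h2.le
    constructor
    · rw [div_le_div_iff₀ hp0 h3]
      linarith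
    · rw [div_le_one h3]
      exact h2'
  obtain ⟨k0, hk0⟩ := eventually_atTop.1 hrk
  obtain ⟨r, hr, ψ, hψ, hlim⟩ := isCompact_Icc.tendsto_subseq
    (x := fun k => (θ (k + k0) : ℝ) / (p ^ m (k + k0) : ℕ)) (fun k => hk0 _ (Nat.le_add_left _ _))
  have hr0 : 0 < r := lt_of_lt_of_le (by positivity) hr.1
  refine ⟨r, hr0, hr.2, ?_⟩
  have hpt : Tendsto (fun j : ℕ => p ^ j) atTop atTop := tendsto_pow_atTop_atTop_of_one_lt (by omega)
  obtain ⟨w, hw⟩ := hF r hr0 hr.2 (fun j => p ^ j) y hpt hy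
  have hψ' : Tendsto (fun k => ψ k + k0) atTop atTop :=
    tendsto_atTop_mono (f := ψ) (fun k => Nat.le_add_right _ _) hψ.tendsto_atTop
  have hmψ : Tendsto (fun k => m (ψ k + k0)) atTop atTop := hmt.comp hψ'
  have h1 : Tendsto (fun k => x ⌊r * (p ^ m (ψ k + k0) : ℕ)⌋₊) atTop (𝓝 w) := hw.comp hmψ
  have h2 : Tendsto (fun k => x ⌊r * (p ^ m (ψ k + k0) : ℕ)⌋₊) atTop (𝓝 z) := by
    refine near_lim hs (hθ.comp hψ') ?_ (hz.comp hψ')
    have h3 := floor_ratio hr0 (hpt.comp hmψ)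
    have h4 := h3.div hlim hr0.ne'
    rw [div_self hr0.ne'] at h4
    refine h4.congr fun k => ?_
    have h5 : ((p ^ m (ψ k + k0) : ℕ) : ℝ) ≠ 0 := by
      push_cast
      positivity
    show ((⌊r * (p ^ m (ψ k + k0) : ℕ)⌋₊ : ℕ) : ℝ) / (p ^ m (ψ k + k0) : ℕ) /
      ((θ (ψ k + k0) : ℝ) / (p ^ m (ψ k + k0) : ℕ)) = ((⌊r * (p ^ m (ψ k + k0) : ℕ)⌋₊ : ℕ) : ℝ) / θ (ψ k + k0)
    rw [div_div_div_cancel_right₀ h5]
  rw [tendsto_nhds_unique h2 h1]
  exact hw

/-- **two geometric sequences** -/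
theorem two_pow (hs : Slow x) (hF : Flow x) {K : Set X} (hK : IsCompact K) (hx : ∀ n, x n ∈ K) {p q : ℕ} (hp : 2 ≤ p)
    (hq : 2 ≤ q) (hirr : Irrational (Real.log q / Real.log p)) {y y' : X} (hy : Tendsto (fun j => x (p ^ j)) atTop (𝓝 y))
    (hy' : Tendsto (fun j => x (q ^ j)) atTop (𝓝 y')) : Tendsto x atTop (𝓝 y') := by
  have hp0 : (0 : ℝ) < p := by exact_mod_cast (by omega : 0 < p)
  have hpt : Tendsto (fun j : ℕ => p ^ j) atTop atTop := tendsto_pow_atTop_atTop_of_one_lt (by omega)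
  have hqt : Tendsto (fun j : ℕ => q ^ j) atTop atTop := tendsto_pow_atTop_atTop_of_one_lt (by omega)
  have key : ∀ (r : ℝ) (z : X), 0 < r → Tendsto (fun j => x ⌊r * (p ^ j : ℕ)⌋₊) atTop (𝓝 z) → z = y' := by
    intro r z hr0 hz
    have hex : ∀ N : ℕ, ∃ a b : ℕ, N ≤ a ∧ N ≤ b ∧ |(q : ℝ) ^ a / p ^ b - r| < 1 / ((N : ℝ) + 1) := fun N =>
      dense_pow hp hq hirr hr0 (by positivity) N
    choose a b ha hb hab using hex
    have hat : Tendsto a atTop atTop := tendsto_atTop_mono ha tendsto_id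
    have hbt : Tendsto b atTop atTop := tendsto_atTop_mono hb tendsto_id
    have h1 : Tendsto (fun N => x ⌊r * (p ^ b N : ℕ)⌋₊) atTop (𝓝 z) := hz.comp hbt
    have h2 : Tendsto (fun N => x (q ^ a N)) atTop (𝓝 y') := hy'.comp hat
    have h3 : Tendsto (fun N => (q : ℝ) ^ a N / p ^ b N) atTop (𝓝 r) := by
      rw [tendsto_iff_dist_tendsto_zero]
      refine squeeze_zero (fun _ => dist_nonneg) (fun N => ?_) tendsto_one_div_add_atTop_nhds_zero_nat
      rw [Real.dist_eq]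
      exact (hab N).le
    have h4 : Tendsto (fun N => x ⌊r * (p ^ b N : ℕ)⌋₊) atTop (𝓝 y') := by
      refine near_lim hs (hqt.comp hat) ?_ h2
      have h5 := (floor_ratio hr0 (hpt.comp hbt)).div h3 hr0.ne'
      rw [div_self hr0.ne'] at h5
      refine h5.congr fun N => ?_
      have h6 : (p : ℝ) ^ b N ≠ 0 := by positivity
      show ((⌊r * (p ^ b N : ℕ)⌋₊ : ℕ) : ℝ) / (p ^ b N : ℕ) / ((q : ℝ) ^ a N / p ^ b N) =
        ((⌊r * (p ^ b N : ℕ)⌋₊ : ℕ) : ℝ) / (q ^ a N : ℕ)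
      push_cast
      rw [div_div_div_cancel_right₀ h6]
    exact tendsto_nhds_unique h1 h4
  refine tendsto_of_subseq_tendsto fun ns hns => ?_
  obtain ⟨z, -, ψ, hψ, hlim⟩ := hK.tendsto_subseq (x := fun k => x (ns k)) (fun k => hx _)
  obtain ⟨r, hr1, -, hr3⟩ := orbit hs hF hp hy (hns.comp hψ.tendsto_atTop) hlim
  have e := key r z hr1 hr3
  exact ⟨ψ, e ▸ hlim⟩

end

/-! ### 2 and 3 -/

theorem irr_pow {p q : ℕ} (hp : 2 ≤ p) (hq : 2 ≤ q) (h : ∀ a b : ℕ, 1 ≤ a → p ^ b ≠ q ^ a) :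
    Irrational (Real.log q / Real.log p) := by
  have hp0 : (0 : ℝ) < p := by exact_mod_cast (by omega : 0 < p)
  have hq0 : (0 : ℝ) < q := by exact_mod_cast (by omega : 0 < q)
  have hp1 : (1 : ℝ) < p := by exact_mod_cast (by omega : 1 < p)
  have hq1 : (1 : ℝ) < q := by exact_mod_cast (by omega : 1 < q)
  rintro ⟨w, hw⟩
  have hlp := Real.log_pos hp1
  have hlq := Real.log_pos hq1
  have hw0 : (0 : ℝ) < w := by
    rw [hw]
    positivity
  have hw1 : 0 < w := by exact_mod_cast hw0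
  have hnum : 0 < w.num := Rat.num_pos.2 hw1
  obtain ⟨b, hb⟩ := Int.eq_ofNat_of_zero_le hnum.le
  have e : (w : ℝ) = (b : ℝ) / w.den := by
    have h1 : (w : ℝ) = (w.num : ℝ) / w.den := by
      rw [← Rat.cast_intCast, ← Rat.cast_natCast, ← Rat.cast_div, Rat.num_div_den]
    rw [h1, hb, Int.cast_natCast]
  rw [e, div_eq_div_iff (by exact_mod_cast w.den_nz) hlp.ne'] at hw
  have h2 : Real.log ((p : ℝ) ^ b) = Real.log ((q : ℝ) ^ w.den) := by
    rw [Real.log_pow, Real.log_pow]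
    linarith
  have h3 : (p : ℝ) ^ b = (q : ℝ) ^ w.den :=
    Real.log_injOn_pos (by show (0:ℝ) < _; positivity) (by show (0:ℝ) < _; positivity) h2
  exact h w.den b w.den_pos (by exact_mod_cast h3)

theorem irr_two_three : Irrational (Real.log (3 : ℕ) / Real.log (2 : ℕ)) := by
  refine irr_pow le_rfl (by norm_num) fun a b ha h => ?_
  have h1 : Odd ((3 : ℕ) ^ a) := Odd.pow (by decide)
  rcases Nat.eq_zero_or_pos b with rfl | hb
  · rw [pow_zero] at h
    have : (3 : ℕ) ^ 1 ≤ 3 ^ a := Nat.pow_le_pow_right (by norm_num) ha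
    omega
  · have h2 : Even ((2 : ℕ) ^ b) := by
      rw [Nat.even_pow]
      exact ⟨even_two, by omega⟩
    rw [h] at h2
    exact (Nat.not_even_iff_odd.2 h1) h2

end Pool.Agent.SCF
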