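import Pool.Agent.SCF.TkLoc
import Pool.Agent.SCF.ZDefs

/-!
# ScaleFlow, row EXN (helper16): the factor `zc` and the last steps of the walk
-/

set_option autoImplicit false

open MeasureTheory Filter Topology Set

namespace Pool.Agent.SCF.K

open Pool.Agent.NTS.Res
open Pool.Agent.CRT (CI)
open Pool.Agent.SCF.Z (zc tr)

/-- **where `zc` does not vanish the last steps are far away from `0`** -/
theorem zc_out {n : ℕ} (hn : 1 ≤ n) {s : Fin n → Fin 3} {κ c : ℝ} (hc : 0 < c) (h : 0 < zc κ c (curve s)) {j : ℕ}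
    (hj : (1 - κ) * n ≤ j) : Out (c * size n) s j := by
  intro i hij hin
  have hs := NTSF.size_pos hn
  have hn0 : (0 : ℝ) < n := by exact_mod_cast hn
  obtain ⟨u, hu, hcu⟩ := Pool.Agent.CRT.R.curve_at hn s hin
  have h1 : 1 - κ ≤ (u : ℝ) := by
    rw [hu, le_div_iff₀ hn0]
    refine hj.trans ?_
    exact_mod_cast hij
  have h2 : sInf ((fun t : unitInterval => ‖(curve s) t‖) '' {t : unitInterval | 1 - κ ≤ (t : ℝ)}) ≤ ‖(curve s) u‖ :=
    csInf_le ⟨0, by rintro y ⟨t, -, rfl⟩; exact norm_nonneg _⟩ ⟨u, h1, rfl⟩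
  have h3 : 0 < sInf ((fun t : unitInterval => ‖(curve s) t‖) '' {t : unitInterval | 1 - κ ≤ (t : ℝ)}) / c - 1 := by
    unfold zc tr at h
    by_contra hcon
    push Not at hcon
    have : max 0 (min 1 (sInf ((fun t : unitInterval => ‖(curve s) t‖) '' {t : unitInterval | 1 - κ ≤ (t : ℝ)}) / c - 1)) = 0 :=
      max_eq_left ((min_le_right _ _).trans hcon)
    rw [this] at h
    exact lt_irrefl _ h
  have h4 : c ≤ sInf ((fun t : unitInterval => ‖(curve s) t‖) '' {t : unitInterval | 1 - κ ≤ (t : ℝ)}) := by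
    have h5 : 1 < sInf ((fun t : unitInterval => ‖(curve s) t‖) '' {t : unitInterval | 1 - κ ≤ (t : ℝ)}) / c := by linarith
    rw [lt_div_iff₀ hc, one_mul] at h5
    exact h5.le
  have h6 := h4.trans h2
  rw [hcu, norm_div, Complex.norm_of_nonneg hs.le, le_div_iff₀ hs] at h6
  exact h6

lemma tr_lip (x y : ℝ) : |tr x - tr y| ≤ |x - y| := by
  unfold tr
  exact (abs_max_sub_max_le_max _ _ _ _).trans (max_le (by simp) ((abs_min_sub_min_le_max _ _ _ _).trans (max_le (by simp) le_rfl)))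

/-- `zc` is Lipschitz -/
theorem zc_lip {κ c : ℝ} (hκ : 0 ≤ κ) (hc : 0 < c) : LipschitzWith ⟨1 / c, by positivity⟩ (zc κ c) := by
  refine LipschitzWith.of_dist_le_mul fun γ γ' => ?_
  have hne : {t : unitInterval | 1 - κ ≤ (t : ℝ)}.Nonempty := ⟨1, by
    show 1 - κ ≤ ((1 : unitInterval) : ℝ)
    rw [Set.Icc.coe_one]
    linarith⟩
  have key : ∀ γ γ' : CI, sInf ((fun t : unitInterval => ‖γ t‖) '' {t : unitInterval | 1 - κ ≤ (t : ℝ)}) ≤
      sInf ((fun t : unitInterval => ‖γ' t‖) '' {t : unitInterval | 1 - κ ≤ (t : ℝ)}) + dist γ γ' := by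
    intro γ γ'
    rw [← sub_le_iff_le_add]
    refine le_csInf (hne.image _) ?_
    rintro y ⟨t, ht, rfl⟩
    have h1 : sInf ((fun t : unitInterval => ‖γ t‖) '' {t : unitInterval | 1 - κ ≤ (t : ℝ)}) ≤ ‖γ t‖ :=
      csInf_le ⟨0, by rintro y ⟨t, -, rfl⟩; exact norm_nonneg _⟩ ⟨t, ht, rfl⟩
    have h2 : ‖γ t‖ ≤ ‖γ' t‖ + dist γ γ' := by
      calc ‖γ t‖ = ‖γ' t + (γ t - γ' t)‖ := by congr 1; ring
        _ ≤ ‖γ' t‖ + ‖γ t - γ' t‖ := norm_add_le _ _
        _ ≤ _ := by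
          rw [← dist_eq_norm]
          exact add_le_add le_rfl (ContinuousMap.dist_apply_le_dist t)
    show _ ≤ ‖γ' t‖
    linarith
  rw [Real.dist_eq]
  unfold zc
  refine (tr_lip _ _).trans ?_
  have h1 := key γ γ'
  have h2 := key γ' γ
  rw [dist_comm] at h2
  have e : ∀ x y : ℝ, (x / c - 1) - (y / c - 1) = (x - y) / c := fun x y => by ring
  rw [e, abs_div, abs_of_pos hc]
  show _ ≤ 1 / c * dist γ γ'
  rw [div_eq_mul_one_div, mul_comm]
  refine mul_le_mul_of_nonneg_left ?_ (by positivity)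
  rw [abs_le]
  constructor <;> linarith

lemma zc_mem (κ c : ℝ) (γ : CI) : 0 ≤ zc κ c γ ∧ zc κ c γ ≤ 1 := by
  unfold zc tr
  exact ⟨le_max_left _ _, max_le (by norm_num) (min_le_left _ _)⟩

end Pool.Agent.SCF.K
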